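import Pool.Agent.Lib.MP_4e1a58_mp.Defs

/-! Invariance of admissibility and basic facts on the equivalence. -/

namespace Pool.Agent.Lib.MP_4e1a58_mp

noncomputable section

abbrev Vc := Fin 3 → ℂ
abbrev Mx := Matrix (Fin 3) (Fin 3) ℂ

def s1 (h : Mx) (T : Tn) : Tn := fun k l i j => ∑ γ, h γ k * T γ l i j
def s2 (h : Mx) (T : Tn) : Tn := fun k l i j => ∑ γ, h γ l * T k γ i j
def s3 (g : Mx) (T : Tn) : Tn := fun k l i j => ∑ α, g i α * T k l α j
def s4 (g : Mx) (T : Tn) : Tn := fun k l i j => ∑ α, g j α * T k l i α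

lemma transform_eq (g h : Mx) (T : Tn) : transform g h T = s1 h (s2 h (s3 g (s4 g T))) := by
  funext k l i j
  simp only [transform, s1, s2, s3, s4, Fin.sum_univ_three]; ring

lemma s21 (a b : Mx) (T : Tn) : s2 a (s1 b T) = s1 b (s2 a T) := by
  funext k l i j; simp only [s1, s2, Fin.sum_univ_three]; ring
lemma s31 (a b : Mx) (T : Tn) : s3 a (s1 b T) = s1 b (s3 a T) := by
  funext k l i j; simp only [s1, s3, Fin.sum_univ_three]; ring
lemma s41 (a b : Mx) (T : Tn) : s4 a (s1 b T) = s1 b (s4 a T) := by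
  funext k l i j; simp only [s1, s4, Fin.sum_univ_three]; ring
lemma s32 (a b : Mx) (T : Tn) : s3 a (s2 b T) = s2 b (s3 a T) := by
  funext k l i j; simp only [s2, s3, Fin.sum_univ_three]; ring
lemma s42 (a b : Mx) (T : Tn) : s4 a (s2 b T) = s2 b (s4 a T) := by
  funext k l i j; simp only [s2, s4, Fin.sum_univ_three]; ring
lemma s43 (a b : Mx) (T : Tn) : s4 a (s3 b T) = s3 b (s4 a T) := by
  funext k l i j; simp only [s3, s4, Fin.sum_univ_three]; ring
lemma s11 (a b : Mx) (T : Tn) : s1 a (s1 b T) = s1 (b * a) T := by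
  funext k l i j; simp only [s1, Matrix.mul_apply, Fin.sum_univ_three]; ring
lemma s22 (a b : Mx) (T : Tn) : s2 a (s2 b T) = s2 (b * a) T := by
  funext k l i j; simp only [s2, Matrix.mul_apply, Fin.sum_univ_three]; ring
lemma s33 (a b : Mx) (T : Tn) : s3 a (s3 b T) = s3 (a * b) T := by
  funext k l i j; simp only [s3, Matrix.mul_apply, Fin.sum_univ_three]; ring
lemma s44 (a b : Mx) (T : Tn) : s4 a (s4 b T) = s4 (a * b) T := by
  funext k l i j; simp only [s4, Matrix.mul_apply, Fin.sum_univ_three]; ring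

lemma transform_transform (g h g' h' : Mx) (T : Tn) :
    transform g' h' (transform g h T) = transform (g' * g) (h * h') T := by
  simp only [transform_eq, s41, s42, s43, s44, s31, s32, s33, s21, s22, s11]

lemma transform_one (T : Tn) : transform 1 1 T = T := by
  funext k l i j
  simp [transform_eq, s1, s2, s3, s4, Matrix.one_apply]

lemma transform_smul (g h : Mx) (c : ℂ) (T : Tn) :
    transform g h (c • T) = c • transform g h T := by
  funext k l i j
  simp only [transform, Pi.smul_apply, smul_eq_mul, Finset.mul_sum]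
  refine Finset.sum_congr rfl fun _ _ => Finset.sum_congr rfl fun _ _ =>
    Finset.sum_congr rfl fun _ _ => Finset.sum_congr rfl fun _ _ => by ring

lemma transform_zero (g h : Mx) : transform g h 0 = 0 := by
  funext k l i j; simp [transform]

lemma Equivalent.refl (X : Tn × Tn) : Equivalent X X :=
  ⟨1, 1, 1, by simp, one_ne_zero, by simp [transform_one], by simp [transform_one]⟩

lemma Equivalent.trans {X Y Z : Tn × Tn} (h1 : Equivalent X Y) (h2 : Equivalent Y Z) :
    Equivalent X Z := by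
  obtain ⟨g, h, c, e, hc, a1, a2⟩ := h1
  obtain ⟨g', h', c', e', hc', b1, b2⟩ := h2
  refine ⟨g' * g, h * h', c' * c, ?_, mul_ne_zero hc' hc, ?_, ?_⟩
  · rw [mul_assoc, ← mul_assoc g, e, one_mul, e']
  · rw [b1, a1, transform_smul, transform_transform, smul_smul]
  · rw [b2, a2, transform_smul, transform_transform, smul_smul]

lemma Equivalent.symm {X Y : Tn × Tn} (h1 : Equivalent X Y) : Equivalent Y X := by
  obtain ⟨g, h, c, e, hc, a1, a2⟩ := h1
  have e' : h * g = 1 := mul_eq_one_comm.1 e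
  refine ⟨h, g, c⁻¹, e', inv_ne_zero hc, ?_, ?_⟩
  · rw [a1, transform_smul, transform_transform, smul_smul, e', transform_one,
      inv_mul_cancel₀ hc, one_smul]
  · rw [a2, transform_smul, transform_transform, smul_smul, e', transform_one,
      inv_mul_cancel₀ hc, one_smul]

lemma Equivalent.zero {X : Tn × Tn} (h : Equivalent X 0) : X = 0 := by
  obtain ⟨g, h, c, -, -, a1, a2⟩ := h.symm
  ext1
  · rw [a1]; simp [transform_zero]
  · rw [a2]; simp [transform_zero]

def e3 (i : Fin 3) : Vc := fun j => if j = i then 1 else 0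

def fm (T : Tn) (x y v w : Vc) : ℂ := ∑ α, ∑ β, ∑ γ, ∑ ε, v α * w β * x γ * y ε * T γ ε α β

lemma transform_fm (g h : Mx) (T : Tn) (k l i j : Fin 3) :
    transform g h T k l i j = fm T (fun γ => h γ k) (fun γ => h γ l) (g i) (g j) := rfl

lemma fm_e (T : Tn) (k l i j : Fin 3) : fm T (e3 k) (e3 l) (e3 i) (e3 j) = T k l i j := by
  simp [fm, e3]

lemma e3v : e3 0 0 = 1 ∧ e3 0 1 = 0 ∧ e3 0 2 = 0 ∧ e3 1 0 = 0 ∧ e3 1 1 = 1 ∧ e3 1 2 = 0 ∧
    e3 2 0 = 0 ∧ e3 2 1 = 0 ∧ e3 2 2 = 1 := by simp [e3]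

lemma fm1 (z : Vc) (T : Tn) (y v w : Vc) : fm T z y v w = ∑ i, z i * fm T (e3 i) y v w := by
  simp only [fm, Fin.sum_univ_three, e3v]; ring
lemma fm2 (z : Vc) (T : Tn) (y v w : Vc) : fm T y z v w = ∑ i, z i * fm T y (e3 i) v w := by
  simp only [fm, Fin.sum_univ_three, e3v]; ring
lemma fm3 (z : Vc) (T : Tn) (y v w : Vc) : fm T y v z w = ∑ i, z i * fm T y v (e3 i) w := by
  simp only [fm, Fin.sum_univ_three, e3v]; ring
lemma fm4 (z : Vc) (T : Tn) (y v w : Vc) : fm T y v w z = ∑ i, z i * fm T y v w (e3 i) := by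
  simp only [fm, Fin.sum_univ_three, e3v]; ring

lemma contr {g h : Mx} (hg : h * g = 1) (φ ψ : Vc → ℂ) (hφ : ∀ z, φ z = ∑ i, z i * φ (e3 i))
    (hψ : ∀ z, ψ z = ∑ i, z i * ψ (e3 i)) :
    ∑ s, φ (fun γ => h γ s) * ψ (g s) = ∑ s, φ (e3 s) * ψ (e3 s) := by
  have key : ∀ a b, ∑ s, h a s * g s b = if a = b then 1 else 0 := fun a b => by
    have := congrFun (congrFun hg a) b
    rwa [Matrix.mul_apply, Matrix.one_apply] at this
  have k00 := key 0 0; have k01 := key 0 1; have k02 := key 0 2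
  have k10 := key 1 0; have k11 := key 1 1; have k12 := key 1 2
  have k20 := key 2 0; have k21 := key 2 1; have k22 := key 2 2
  simp only [Fin.sum_univ_three] at *
  simp at k00 k01 k02 k10 k11 k12 k20 k21 k22
  rw [hφ (fun γ => h γ 0), hφ (fun γ => h γ 1), hφ (fun γ => h γ 2), hψ (g 0), hψ (g 1), hψ (g 2)]
  linear_combination φ (e3 0) * ψ (e3 0) * k00 + φ (e3 0) * ψ (e3 1) * k01
    + φ (e3 0) * ψ (e3 2) * k02 + φ (e3 1) * ψ (e3 0) * k10 + φ (e3 1) * ψ (e3 1) * k11
    + φ (e3 1) * ψ (e3 2) * k12 + φ (e3 2) * ψ (e3 0) * k20 + φ (e3 2) * ψ (e3 1) * k21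
    + φ (e3 2) * ψ (e3 2) * k22

lemma lin6 (Φ : Vc → Vc → Vc → Vc → Vc → Vc → ℂ)
    (h1 : ∀ z b c d e f, Φ z b c d e f = ∑ i, z i * Φ (e3 i) b c d e f)
    (h2 : ∀ z b c d e f, Φ b z c d e f = ∑ i, z i * Φ b (e3 i) c d e f)
    (h3 : ∀ z b c d e f, Φ b c z d e f = ∑ i, z i * Φ b c (e3 i) d e f)
    (h4 : ∀ z b c d e f, Φ b c d z e f = ∑ i, z i * Φ b c d (e3 i) e f)
    (h5 : ∀ z b c d e f, Φ b c d e z f = ∑ i, z i * Φ b c d e (e3 i) f)
    (h6 : ∀ z b c d e f, Φ b c d e f z = ∑ i, z i * Φ b c d e f (e3 i))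
    (h : ∀ a b c d e f, Φ (e3 a) (e3 b) (e3 c) (e3 d) (e3 e) (e3 f) = 0) :
    ∀ a b c d e f, Φ a b c d e f = 0 := by
  have a6 : ∀ a b c d e f, Φ (e3 a) (e3 b) (e3 c) (e3 d) (e3 e) f = 0 := fun a b c d e f => by
    rw [h6]; simp [h]
  have a5 : ∀ a b c d e f, Φ (e3 a) (e3 b) (e3 c) (e3 d) e f = 0 := fun a b c d e f => by
    rw [h5]; simp [a6]
  have a4 : ∀ a b c d e f, Φ (e3 a) (e3 b) (e3 c) d e f = 0 := fun a b c d e f => by
    rw [h4]; simp [a5]
  have a3 : ∀ a b c d e f, Φ (e3 a) (e3 b) c d e f = 0 := fun a b c d e f => by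
    rw [h3]; simp [a4]
  have a2 : ∀ a b c d e f, Φ (e3 a) b c d e f = 0 := fun a b c d e f => by
    rw [h2]; simp [a3]
  intro a b c d e f
  rw [h1]; simp [a2]

section
variable {g h : Mx} (hg : h * g = 1) (X Y : Tn) (a b c d e f : Vc)
include hg

lemma c23 : ∑ s, fm X a (fun γ => h γ s) d e * fm Y b c (g s) f
    = ∑ s, fm X a (e3 s) d e * fm Y b c (e3 s) f :=
  contr hg (fun z => fm X a z d e) (fun z => fm Y b c z f) (fun z => fm2 z ..) (fun z => fm3 z ..)
lemma c24 : ∑ s, fm X a (fun γ => h γ s) d e * fm Y b c f (g s)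
    = ∑ s, fm X a (e3 s) d e * fm Y b c f (e3 s) :=
  contr hg (fun z => fm X a z d e) (fun z => fm Y b c f z) (fun z => fm2 z ..) (fun z => fm4 z ..)
lemma c13 : ∑ s, fm X (fun γ => h γ s) a d e * fm Y b c (g s) f
    = ∑ s, fm X (e3 s) a d e * fm Y b c (e3 s) f :=
  contr hg (fun z => fm X z a d e) (fun z => fm Y b c z f) (fun z => fm1 z ..) (fun z => fm3 z ..)
lemma c14 : ∑ s, fm X (fun γ => h γ s) a d e * fm Y b c f (g s)
    = ∑ s, fm X (e3 s) a d e * fm Y b c f (e3 s) :=
  contr hg (fun z => fm X z a d e) (fun z => fm Y b c f z) (fun z => fm1 z ..) (fun z => fm4 z ..)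
lemma c41 : ∑ s, fm Y b c f (g s) * fm X (fun γ => h γ s) a d e
    = ∑ s, fm Y b c f (e3 s) * fm X (e3 s) a d e := by
  simpa only [mul_comm] using c14 hg X Y a b c d e f
lemma c31 : ∑ s, fm Y b c (g s) f * fm X (fun γ => h γ s) a d e
    = ∑ s, fm Y b c (e3 s) f * fm X (e3 s) a d e := by
  simpa only [mul_comm] using c13 hg X Y a b c d e f
end

lemma adm_transform {g h : Mx} (hg : g * h = 1) {X : Tn × Tn} (hX : Admissible X) :
    Admissible (transform g h X.1, transform g h X.2) := by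
  obtain ⟨r, a⟩ := X
  obtain ⟨h0, h1, h2, h3, h4⟩ := hX
  have hg' : h * g = 1 := mul_eq_one_comm.1 hg
  dsimp only at h0 h1 h2 h3 h4
  refine ⟨?_, ?_, ?_, ?_, ?_⟩
  · intro s e α β
    have : r = fun s e α β => -r e s β α := by funext s e α β; exact h0 s e α β
    dsimp only
    conv_lhs => rw [this]
    simp only [transform, Fin.sum_univ_three]; ring
  · intro l m n α β t
    simp only [transform_fm, c23 hg']
    refine lin6 (fun l m n α β t => ∑ s, fm r l (e3 s) α β * fm r m n (e3 s) t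
      + ∑ s, fm r m (e3 s) β t * fm r n l (e3 s) α + ∑ s, fm r n (e3 s) t α * fm r l m (e3 s) β)
      ?_ ?_ ?_ ?_ ?_ ?_ (by simpa only [fm_e] using h1) _ _ _ _ _ _ <;>
    · intro z b c d e f
      simp only [fm1 z, fm2 z, fm3 z, fm4 z, Fin.sum_univ_three]; ring
  · intro l m n α β t
    simp only [transform_fm, c23 hg', c14 hg']
    rw [← sub_eq_zero]
    refine lin6 (fun l m n α β t => ∑ s, fm a (e3 s) l α β * fm a m n t (e3 s)
      - ∑ s, fm a m (e3 s) t α * fm a n l (e3 s) β)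
      ?_ ?_ ?_ ?_ ?_ ?_ (by simpa only [fm_e, sub_eq_zero] using h2) _ _ _ _ _ _ <;>
    · intro z b c d e f
      simp only [fm1 z, fm2 z, fm3 z, fm4 z, Fin.sum_univ_three]; ring
  · intro l m n α β t
    simp only [transform_fm, c13 hg', c24 hg', c41 hg']
    rw [← sub_eq_zero]
    refine lin6 (fun l m n α β t => ∑ s, fm a (e3 s) l α β * fm a m n (e3 s) t
      - (∑ s, fm a m (e3 s) α β * fm r l n t (e3 s) + ∑ s, fm a m n α (e3 s) * fm r (e3 s) l β t))
      ?_ ?_ ?_ ?_ ?_ ?_ (by simpa only [fm_e, sub_eq_zero] using h3) _ _ _ _ _ _ <;>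
    · intro z b c d e f
      simp only [fm1 z, fm2 z, fm3 z, fm4 z, Fin.sum_univ_three]; ring
  · intro l m n α β t
    simp only [transform_fm, c13 hg', c24 hg', c31 hg']
    rw [← sub_eq_zero]
    refine lin6 (fun l m n α β t => ∑ s, fm a l (e3 s) α β * fm a m n t (e3 s)
      - (∑ s, fm a (e3 s) n α β * fm r l m (e3 s) t + ∑ s, fm a m n (e3 s) β * fm r (e3 s) l t α))
      ?_ ?_ ?_ ?_ ?_ ?_ (by simpa only [fm_e, sub_eq_zero] using h4) _ _ _ _ _ _ <;>
    · intro z b c d e f
      simp only [fm1 z, fm2 z, fm3 z, fm4 z, Fin.sum_univ_three]; ring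

lemma adm_smul (c : ℂ) {X : Tn × Tn} (hX : Admissible X) : Admissible (c • X.1, c • X.2) := by
  obtain ⟨h0, h1, h2, h3, h4⟩ := hX
  refine ⟨?_, ?_, ?_, ?_, ?_⟩
  · intro s e α β
    simp only [Pi.smul_apply, smul_eq_mul]
    linear_combination c * h0 s e α β
  · intro l m n α β t
    have := h1 l m n α β t
    simp only [Pi.smul_apply, smul_eq_mul, Fin.sum_univ_three] at this ⊢
    linear_combination c ^ 2 * this
  · intro l m n α β t
    have := h2 l m n α β t
    simp only [Pi.smul_apply, smul_eq_mul, Fin.sum_univ_three] at this ⊢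
    linear_combination c ^ 2 * this
  · intro l m n α β t
    have := h3 l m n α β t
    simp only [Pi.smul_apply, smul_eq_mul, Fin.sum_univ_three] at this ⊢
    linear_combination c ^ 2 * this
  · intro l m n α β t
    have := h4 l m n α β t
    simp only [Pi.smul_apply, smul_eq_mul, Fin.sum_univ_three] at this ⊢
    linear_combination c ^ 2 * this

lemma Equivalent.adm {X Y : Tn × Tn} (h : Equivalent X Y) (hX : Admissible X) : Admissible Y := by
  obtain ⟨g, h, c, e, -, a1, a2⟩ := h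
  have := adm_smul c (adm_transform e hX)
  rwa [← a1, ← a2] at this

/-- the reversal symmetry -/
def iota (X : Tn × Tn) : Tn × Tn :=
  (fun γ ε α β => X.1 ε γ α β, fun γ ε α β => -X.2 ε γ β α)

lemma iota_iota (X : Tn × Tn) : iota (iota X) = X := by
  ext <;> simp [iota]

lemma adm_iota {X : Tn × Tn} (hX : Admissible X) : Admissible (iota X) := by
  obtain ⟨h0, h1, h2, h3, h4⟩ := hX
  refine ⟨?_, ?_, ?_, ?_, ?_⟩
  · intro s e α β
    exact h0 e s α β
  · intro l m n α β t
    have := h1 l n m β α t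
    simp only [iota, fun s => h0 s l α β, fun s => h0 s m β t, fun s => h0 s n t α]
    simp only [Fin.sum_univ_three] at this ⊢
    linear_combination -this
  · intro l m n α β t
    have := h2 m l n α t β
    simp only [iota, Fin.sum_univ_three] at this ⊢
    linear_combination -this
  · intro l m n α β t
    have := h4 l n m β α t
    simp only [iota, fun s => h0 n l t s, fun s => h0 l s β t]
    simp only [Fin.sum_univ_three] at this ⊢
    linear_combination this
  · intro l m n α β t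
    have := h3 l n m β α t
    simp only [iota, fun s => h0 m l s t, fun s => h0 l s t α]
    simp only [Fin.sum_univ_three] at this ⊢
    linear_combination this

lemma Equivalent.iota {X Y : Tn × Tn} (h : Equivalent X Y) : Equivalent (iota X) (iota Y) := by
  obtain ⟨g, h, c, e, hc, a1, a2⟩ := h
  refine ⟨g, h, c, e, hc, ?_, ?_⟩
  · funext k l i j
    simp only [MP_4e1a58_mp.iota, a1, transform, Pi.smul_apply, smul_eq_mul, Fin.sum_univ_three]
    ring
  · funext k l i j
    simp only [MP_4e1a58_mp.iota, a2, transform, Pi.smul_apply, smul_eq_mul, Fin.sum_univ_three]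
    ring

/-- transposition, for pairs with `a = 0` -/
def tau (r : Tn) : Tn := fun γ ε α β => r α β γ ε

lemma equiv_tau {r r' : Tn} (h : Equivalent (r, 0) (r', 0)) : Equivalent (tau r, 0) (tau r', 0) := by
  obtain ⟨g, h, c, e, hc, a1, -⟩ := h
  refine ⟨h.transpose, g.transpose, c, ?_, hc, ?_, ?_⟩
  · rw [← Matrix.transpose_mul, e, Matrix.transpose_one]
  · funext k l i j
    dsimp only at a1
    simp only [tau, a1, transform, Pi.smul_apply, smul_eq_mul, Fin.sum_univ_three,
      Matrix.transpose_apply]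
    ring
  · simp [transform_zero]

lemma adm_tau {r : Tn} (hX : Admissible (r, 0)) : Admissible (tau r, 0) := by
  obtain ⟨h0, h1, -, -, -⟩ := hX
  refine ⟨?_, ?_, ?_, ?_, ?_⟩
  · intro s e α β
    exact h0 α β s e
  · intro l m n α β t
    have := h1 α t β l n m
    dsimp only at h0 this ⊢
    simp only [fun s => h0 α s l n, fun s => h0 t β s m, fun s => h0 t s n m,
      fun s => h0 β α s l, fun s => h0 β s m l, fun s => h0 α t s n] at this
    simp only [tau, Fin.sum_univ_three] at this ⊢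
    linear_combination this
  · simp
  · simp
  · simp

end

end Pool.Agent.Lib.MP_4e1a58_mp
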