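import Pool.Agent.Lib.MP_4e1a58_mp.Forms

/-! The normal forms are admissible and nonzero. -/

namespace Pool.Agent.Lib.MP_4e1a58_mp

noncomputable section

def all6 (f : I3 → I3 → I3 → I3 → I3 → I3 → Pl) (red : Pl → Pl) : Bool :=
  all2 fun l m => all4 fun n α β t => isNil (red (f l m n α β t))

def admB (red : Pl → Pl) (S : St) : Bool :=
  S.seq fun S => all4 (fun i j k l => peq (tget S.r i j k l) (pneg (tget S.r j i l k))) &&
    all6 (eq1 S) red && all6 (eq2 S) red && all6 (eq3 S) red && all6 (eq4 S) red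

lemma all6_ev {V : Val} {red : Pl → Pl} (hr : ∀ p, pev V (red p) = pev V p)
    {f : I3 → I3 → I3 → I3 → I3 → I3 → Pl} (h : all6 f red = true) (l m n α β t : I3) :
    pev V (f l m n α β t) = 0 := by
  rw [← hr]; exact isNil_ev V (all4_spec (all2_spec h l m) n α β t)

lemma admB_sound {V : Val} {red : Pl → Pl} (hr : ∀ p, pev V (red p) = pev V p) {S : St}
    (h : admB red S = true) : Admissible (S.ev V) := by
  simp only [admB, St.seq_eq, Bool.and_eq_true] at h
  obtain ⟨⟨⟨⟨h0, h1⟩, h2⟩, h3⟩, h4⟩ := h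
  refine ⟨fun s e α β => ?_, fun l m n α β t => ?_, fun l m n α β t => ?_,
    fun l m n α β t => ?_, fun l m n α β t => ?_⟩
  · have := peq_ev V (all4_spec h0 (toI s) (toI e) (toI α) (toI β))
    rwa [pev_pneg] at this
  · rw [← ev_eq1, all6_ev hr h1]
  · rw [← sub_eq_zero, ← ev_eq2, all6_ev hr h2]
  · rw [← sub_eq_zero, ← ev_eq3, all6_ev hr h3]
  · rw [← sub_eq_zero, ← ev_eq4, all6_ev hr h4]

def red3 (p : Pl) : Pl :=
  List.rec [] (fun t _ ih =>
    padd [cond (Nat.beq (Nat.mod t.m 8) 0) ⟨t.c, t.e, Nat.div t.m 8, t.n, t.d⟩ t] ih) p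

lemma ev_red3 {V : Val} (h : V.x 2 ^ 3 = 1) (p : Pl) : pev V (red3 p) = pev V p := by
  induction p with
  | nil => rfl
  | cons t ts ih =>
    have e : red3 (t :: ts) = padd
      [cond (Nat.beq (Nat.mod t.m 8) 0) ⟨t.c, t.e, Nat.div t.m 8, t.n, t.d⟩ t] (red3 ts) := rfl
    rw [e, pev_padd, ih, pev_cons, pev_cons, pev_nil, add_zero]
    congr 1
    cases h8 : Nat.beq (Nat.mod t.m 8) 0
    · rfl
    · have hd : 8 ∣ t.m := Nat.dvd_of_mod_eq_zero (Nat.eq_of_beq_eq_true h8)
      have : ev V.x t.m = ev V.x (t.m / 8) := by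
        have h8' : ev V.x 8 = 1 := by
          rw [show (8 : ℕ) = 2 ^ 3 from rfl, ev_pow, ev_prime _ Nat.prime_two, h]
        conv_lhs => rw [← Nat.div_mul_cancel hd, ev_mul, h8', mul_one]
      simp only [cond_true, Tm.ev, this]; rfl

theorem admA : (listA.all fun x => admB id (ptSt x)) = true := by decide +kernel
theorem admBl : (listB.all fun x => admB id (ptSt x)) = true := by decide +kernel
theorem admC : (listC.all fun x => admB id (ptSt x)) = true := by decide +kernel
theorem admD : (listD.all fun x => admB id (ptSt x)) = true := by decide +kernel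
theorem admF : ((oneSts ++ twoSts).all (admB id) && admB red3 (cubeSt0 (xv 2)) &&
    admB red3 (cubeSt1 (xv 2))) = true := by decide +kernel

def val2 (κ μ : ℂ) : Val := ⟨fun p => if p = 2 then κ else μ, fun _ => 1, fun _ => one_ne_zero⟩

lemma iso_mem (k : Fin 88) : isolated.getD k ([], []) ∈ isolated := by
  rw [List.getD_eq_getElem _ _ (by rw [length_isolated]; exact k.2)]; exact List.getElem_mem _

lemma one_mem (k : Fin 4) : oneSts.getD k zSt ∈ oneSts := by
  rw [List.getD_eq_getElem _ _ k.2]; exact List.getElem_mem _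

lemma two_mem (k : Fin 2) : twoSts.getD k zSt ∈ twoSts := by
  rw [List.getD_eq_getElem _ _ k.2]; exact List.getElem_mem _

lemma val2_xv (κ μ : ℂ) : (xv 2).ev (val2 κ μ) = κ := by rw [ev_xv _ Nat.prime_two]; rfl

lemma nf_cube0 (ω : ℂ) (h : ω ^ 3 = 1) : (cubeSt0 (xv 2)).ev (val2 ω 0) = nf (.cube 0 ω h) := by
  rw [ev_cube0 _ _ (by rw [val2_xv, h])]; simp only [val2_xv]
lemma nf_cube1 (ω : ℂ) (h : ω ^ 3 = 1) : (cubeSt1 (xv 2)).ev (val2 ω 0) = nf (.cube 1 ω h) := by
  rw [ev_cube1 _ _ (by rw [val2_xv, h])]; simp only [val2_xv]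

theorem adm_nf (i : Label) : Admissible (nf i) := by
  have hF := admF
  simp only [Bool.and_eq_true, List.all_eq_true, List.mem_append] at hF
  cases i with
  | iso k =>
    have hk := iso_mem k
    have e : (ptSt (isolated.getD k ([], []))).ev (val2 0 0) = nf (.iso k) := ev_ptSt _ _
    rw [← e]
    refine admB_sound (red := id) (fun _ => rfl) ?_
    simp only [isolated, List.mem_append] at hk ⊢
    rcases hk with ((hk | hk) | hk) | hk
    exacts [List.all_eq_true.1 admA _ hk, List.all_eq_true.1 admBl _ hk,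
      List.all_eq_true.1 admC _ hk, List.all_eq_true.1 admD _ hk]
  | one k μ =>
    have e : _ = nf (.one k μ) := ev_oneSts (val2 0 μ) k
    rw [← e]
    exact admB_sound (red := id) (fun _ => rfl) (hF.1.1 _ (Or.inl (one_mem k)))
  | cube k ω h =>
    fin_cases k
    · have := admB_sound (V := val2 ω 0) (ev_red3 h) hF.1.2
      rwa [nf_cube0 ω h] at this
    · have := admB_sound (V := val2 ω 0) (ev_red3 h) hF.2
      rwa [nf_cube1 ω h] at this
  | two k κ ρ =>
    have e : _ = nf (.two k κ ρ) := ev_twoSts (val2 κ ρ) k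
    rw [← e]
    exact admB_sound (red := id) (fun _ => rfl) (hF.1.1 _ (Or.inr (two_mem k)))

lemma rep_nf (i : Label) : ∃ S ∈ KN, ∃ V, S.ev V = nf i := by
  simp only [KN, KW, List.mem_append]
  cases i with
  | iso k => exact ⟨_, .inl (.inl (.inl (List.mem_map_of_mem (iso_mem k)))), val2 0 0, ev_ptSt _ _⟩
  | one k μ => exact ⟨_, .inl (.inl (.inr (one_mem k))), val2 0 μ, ev_oneSts (val2 0 μ) k⟩
  | cube k ω h =>
    fin_cases k
    · exact ⟨_, .inl (.inr (by simp)), _, nf_cube0 ω h⟩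
    · exact ⟨_, .inl (.inr (by simp)), _, nf_cube1 ω h⟩
  | two k κ ρ => exact ⟨_, .inr (two_mem k), val2 κ ρ, ev_twoSts (val2 κ ρ) k⟩

end

end Pool.Agent.Lib.MP_4e1a58_mp
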