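import Pool.Agent.Lib.MP_4e1a58_mp.Poly
import Pool.Agent.Lib.MP_4e1a58_mp.Act

/-! A verified checker for case-analysis trees on admissible pairs. -/

namespace Pool.Agent.Lib.MP_4e1a58_mp

noncomputable section

inductive I3 | a | b | c

def I3.fin (i : I3) : Fin 3 := I3.rec 0 1 2 i
def toI (i : Fin 3) : I3 := ![I3.a, I3.b, I3.c] i
def I3.num (i : I3) : Nat := I3.rec 0 1 2 i

@[simp] lemma toI_fin (i : I3) : toI i.fin = i := by cases i <;> rfl
@[simp] lemma fin_toI (i : Fin 3) : (toI i).fin = i := by fin_cases i <;> rfl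
lemma num_toI (i : Fin 3) : (toI i).num = i.val := by fin_cases i <;> rfl

structure V3 (α : Type) where
  x : α
  y : α
  z : α

def V3.get {α : Type} (v : V3 α) (i : I3) : α := I3.rec v.x v.y v.z i
def V3.of {α : Type} (f : I3 → α) : V3 α := ⟨f .a, f .b, f .c⟩
def V3.map {α β : Type} (f : α → β) (v : V3 α) : V3 β := ⟨f v.x, f v.y, f v.z⟩
def V3.seq {α : Type} (s : α → (α → Bool) → Bool) (v : V3 α) (k : V3 α → Bool) : Bool :=
  s v.x fun x => s v.y fun y => s v.z fun z => k ⟨x, y, z⟩
def all3 (f : I3 → Bool) : Bool := f .a && f .b && f .c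

@[simp] lemma V3.get_of {α : Type} (f : I3 → α) (i : I3) : (V3.of f).get i = f i := by
  cases i <;> rfl
@[simp] lemma V3.get_map {α β : Type} (f : α → β) (v : V3 α) (i : I3) :
    (v.map f).get i = f (v.get i) := by cases i <;> rfl
lemma V3.seq_eq {α : Type} (s : α → (α → Bool) → Bool) (hs : ∀ x k, s x k = k x) (v : V3 α)
    (k : V3 α → Bool) : V3.seq s v k = k v := by simp [V3.seq, hs]
lemma all3_spec {f : I3 → Bool} (h : all3 f = true) (i : I3) : f i = true := by
  simp only [all3, Bool.and_eq_true] at h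
  cases i
  exacts [h.1.1, h.1.2, h.2]

abbrev M3 := V3 (V3 Pl)
abbrev T4 := V3 (V3 M3)

def mget (M : M3) (i j : I3) : Pl := (M.get i).get j
def mof (f : I3 → I3 → Pl) : M3 := V3.of fun i => V3.of (f i)
def tget (T : T4) (i j k l : I3) : Pl := (((T.get i).get j).get k).get l
def tof (f : I3 → I3 → I3 → I3 → Pl) : T4 := V3.of fun i => V3.of fun j => mof (f i j)
def tmap (f : Pl → Pl) (T : T4) : T4 := V3.map (V3.map (V3.map (V3.map f))) T
def mseq : M3 → (M3 → Bool) → Bool := V3.seq (V3.seq seqP)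
def tseq : T4 → (T4 → Bool) → Bool := V3.seq (V3.seq mseq)
def all2 (f : I3 → I3 → Bool) : Bool := all3 fun i => all3 (f i)
def all4 (f : I3 → I3 → I3 → I3 → Bool) : Bool := all2 fun i j => all2 (f i j)

@[simp] lemma mget_mof (f : I3 → I3 → Pl) (i j : I3) : mget (mof f) i j = f i j := by
  simp [mget, mof]
@[simp] lemma tget_tof (f : I3 → I3 → I3 → I3 → Pl) (i j k l : I3) :
    tget (tof f) i j k l = f i j k l := by simp [tget, tof, mof]
@[simp] lemma tget_tmap (f : Pl → Pl) (T : T4) (i j k l : I3) :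
    tget (tmap f T) i j k l = f (tget T i j k l) := by simp [tget, tmap]
lemma mseq_eq (M : M3) (k : M3 → Bool) : mseq M k = k M :=
  V3.seq_eq _ (V3.seq_eq _ seqP_eq) M k
lemma tseq_eq (T : T4) (k : T4 → Bool) : tseq T k = k T :=
  V3.seq_eq _ (V3.seq_eq _ mseq_eq) T k
lemma all2_spec {f : I3 → I3 → Bool} (h : all2 f = true) (i j : I3) : f i j = true :=
  all3_spec (all3_spec h i) j
lemma all4_spec {f : I3 → I3 → I3 → I3 → Bool} (h : all4 f = true) (i j k l : I3) :
    f i j k l = true := all2_spec (all2_spec h i j) k l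

def mev (V : Val) (M : M3) : Mx := fun i j => pev V (mget M (toI i) (toI j))
def tev (V : Val) (T : T4) : Tn := fun i j k l => pev V (tget T (toI i) (toI j) (toI k) (toI l))

def sum3 (f : I3 → Pl) : Pl := padd (f .a) (padd (f .b) (f .c))

lemma pev_sum3 (V : Val) (f : I3 → Pl) : pev V (sum3 f) = ∑ s : Fin 3, pev V (f (toI s)) := by
  simp only [sum3, pev_padd, Fin.sum_univ_three, add_assoc]; rfl

structure St where
  r : T4
  a : T4

def St.ev (V : Val) (S : St) : Tn × Tn := (tev V S.r, tev V S.a)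
def St.map (f : Pl → Pl) (S : St) : St := ⟨tmap f S.r, tmap f S.a⟩
def St.seq (S : St) (k : St → Bool) : Bool := tseq S.r fun r => tseq S.a fun a => k ⟨r, a⟩
lemma St.seq_eq (S : St) (k : St → Bool) : S.seq k = k S := by simp [St.seq, tseq_eq]
def St.all (f : Pl → Bool) (S : St) : Bool :=
  all4 (fun i j k l => f (tget S.r i j k l)) && all4 fun i j k l => f (tget S.a i j k l)
def St.eqb (S S' : St) : Bool :=
  all4 (fun i j k l => peq (tget S.r i j k l) (tget S'.r i j k l)) &&
    all4 fun i j k l => peq (tget S.a i j k l) (tget S'.a i j k l)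

lemma St.ev_map {V V' : Val} {f : Pl → Pl} (h : ∀ p, pev V (f p) = pev V' p) (S : St) :
    (S.map f).ev V = S.ev V' := by
  ext i j k l <;> simp [St.ev, St.map, tev, h]

lemma St.ev_all {V V' : Val} {f : Pl → Bool} (h : ∀ p, f p = true → pev V p = pev V' p) {S : St}
    (hS : S.all f = true) : S.ev V = S.ev V' := by
  simp only [St.all, Bool.and_eq_true] at hS
  ext i j k l
  · exact h _ (all4_spec hS.1 _ _ _ _)
  · exact h _ (all4_spec hS.2 _ _ _ _)

lemma St.ev_eqb (V : Val) {S S' : St} (hS : S.eqb S' = true) : S.ev V = S'.ev V := by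
  simp only [St.eqb, Bool.and_eq_true] at hS
  ext i j k l
  · exact peq_ev V (all4_spec hS.1 _ _ _ _)
  · exact peq_ev V (all4_spec hS.2 _ _ _ _)

lemma St.ev_nil (V : Val) {S : St} (hS : S.all isNil = true) : S.ev V = 0 := by
  simp only [St.all, Bool.and_eq_true] at hS
  ext i j k l
  · exact isNil_ev V (all4_spec hS.1 _ _ _ _)
  · exact isNil_ev V (all4_spec hS.2 _ _ _ _)

def eq1 (S : St) (l m n α β t : I3) : Pl :=
  padd (sum3 fun s => pmul (tget S.r l s α β) (tget S.r m n s t))
    (padd (sum3 fun s => pmul (tget S.r m s β t) (tget S.r n l s α))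
      (sum3 fun s => pmul (tget S.r n s t α) (tget S.r l m s β)))
def eq2 (S : St) (l m n α β t : I3) : Pl :=
  psub (sum3 fun s => pmul (tget S.a s l α β) (tget S.a m n t s))
    (sum3 fun s => pmul (tget S.a m s t α) (tget S.a n l s β))
def eq3 (S : St) (l m n α β t : I3) : Pl :=
  psub (sum3 fun s => pmul (tget S.a s l α β) (tget S.a m n s t))
    (padd (sum3 fun s => pmul (tget S.a m s α β) (tget S.r l n t s))
      (sum3 fun s => pmul (tget S.a m n α s) (tget S.r s l β t)))
def eq4 (S : St) (l m n α β t : I3) : Pl :=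
  psub (sum3 fun s => pmul (tget S.a l s α β) (tget S.a m n t s))
    (padd (sum3 fun s => pmul (tget S.a s n α β) (tget S.r l m s t))
      (sum3 fun s => pmul (tget S.a m n s β) (tget S.r s l t α)))

lemma ev_eq1 (V : Val) (S : St) (l m n α β t : Fin 3) :
    pev V (eq1 S (toI l) (toI m) (toI n) (toI α) (toI β) (toI t)) =
      ∑ s, (S.ev V).1 l s α β * (S.ev V).1 m n s t + ∑ s, (S.ev V).1 m s β t * (S.ev V).1 n l s α
      + ∑ s, (S.ev V).1 n s t α * (S.ev V).1 l m s β := by
  simp only [eq1, pev_padd, pev_sum3, pev_pmul, add_assoc]; rfl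
lemma ev_eq2 (V : Val) (S : St) (l m n α β t : Fin 3) :
    pev V (eq2 S (toI l) (toI m) (toI n) (toI α) (toI β) (toI t)) =
      ∑ s, (S.ev V).2 s l α β * (S.ev V).2 m n t s - ∑ s, (S.ev V).2 m s t α * (S.ev V).2 n l s β := by
  simp only [eq2, pev_psub, pev_sum3, pev_pmul]; rfl
lemma ev_eq3 (V : Val) (S : St) (l m n α β t : Fin 3) :
    pev V (eq3 S (toI l) (toI m) (toI n) (toI α) (toI β) (toI t)) =
      ∑ s, (S.ev V).2 s l α β * (S.ev V).2 m n s t - (∑ s, (S.ev V).2 m s α β * (S.ev V).1 l n t s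
        + ∑ s, (S.ev V).2 m n α s * (S.ev V).1 s l β t) := by
  simp only [eq3, pev_psub, pev_padd, pev_sum3, pev_pmul]; rfl
lemma ev_eq4 (V : Val) (S : St) (l m n α β t : Fin 3) :
    pev V (eq4 S (toI l) (toI m) (toI n) (toI α) (toI β) (toI t)) =
      ∑ s, (S.ev V).2 l s α β * (S.ev V).2 m n t s - (∑ s, (S.ev V).2 s n α β * (S.ev V).1 l m s t
        + ∑ s, (S.ev V).2 m n s β * (S.ev V).1 s l t α) := by
  simp only [eq4, pev_psub, pev_padd, pev_sum3, pev_pmul]; rfl

def dg (n : Nat) : I3 :=
  cond (Nat.beq (Nat.mod n 3) 0) .a (cond (Nat.beq (Nat.mod n 3) 1) .b .c)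

def eqC (S : St) (n : Nat) : Pl :=
  (cond (Nat.ble n 728) eq1 (cond (Nat.ble n 1457) eq2 (cond (Nat.ble n 2186) eq3 eq4))) S
    (dg (Nat.div n 243)) (dg (Nat.div n 81)) (dg (Nat.div n 27)) (dg (Nat.div n 9))
    (dg (Nat.div n 3)) (dg n)

lemma ev_eqC {V : Val} {S : St} (h : Admissible (S.ev V)) (n : Nat) : pev V (eqC S n) = 0 := by
  obtain ⟨-, h1, h2, h3, h4⟩ := h
  unfold eqC
  generalize dg (Nat.div n 243) = l
  generalize dg (Nat.div n 81) = m
  generalize dg (Nat.div n 27) = k
  generalize dg (Nat.div n 9) = α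
  generalize dg (Nat.div n 3) = β
  generalize dg n = t
  rw [← toI_fin l, ← toI_fin m, ← toI_fin k, ← toI_fin α, ← toI_fin β, ← toI_fin t]
  cases Nat.ble n 728
  · cases Nat.ble n 1457
    · cases Nat.ble n 2186
      · simp only [cond_false]; rw [ev_eq4, h4, sub_self]
      · simp only [cond_false, cond_true]; rw [ev_eq3, h3, sub_self]
    · simp only [cond_false, cond_true]; rw [ev_eq2, h2, sub_self]
  · simp only [cond_true]; rw [ev_eq1, h1]

abbrev Spec := List (Pl × Nat)

def evS (S : St) (e : Spec) : Pl := List.rec [] (fun x _ ih => padd (pmul x.1 (eqC S x.2)) ih) e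

lemma ev_evS {V : Val} {S : St} (h : Admissible (S.ev V)) (e : Spec) : pev V (evS S e) = 0 := by
  induction e with
  | nil => rfl
  | cons x xs ih =>
    have : evS S (x :: xs) = padd (pmul x.1 (eqC S x.2)) (evS S xs) := rfl
    rw [this, pev_padd, pev_pmul, ev_eqC h, ih]; simp

def p1 (h : M3) (T : T4) : T4 := tof fun k l i j => sum3 fun s => pmul (mget h s k) (tget T s l i j)
def p2 (h : M3) (T : T4) : T4 := tof fun k l i j => sum3 fun s => pmul (mget h s l) (tget T k s i j)
def p3 (g : M3) (T : T4) : T4 := tof fun k l i j => sum3 fun s => pmul (mget g i s) (tget T k l s j)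
def p4 (g : M3) (T : T4) : T4 := tof fun k l i j => sum3 fun s => pmul (mget g j s) (tget T k l i s)

lemma ev_p1 (V : Val) (h : M3) (T : T4) : tev V (p1 h T) = s1 (mev V h) (tev V T) := by
  funext k l i j; simp only [tev, p1, tget_tof, pev_sum3, pev_pmul]; rfl
lemma ev_p2 (V : Val) (h : M3) (T : T4) : tev V (p2 h T) = s2 (mev V h) (tev V T) := by
  funext k l i j; simp only [tev, p2, tget_tof, pev_sum3, pev_pmul]; rfl
lemma ev_p3 (V : Val) (h : M3) (T : T4) : tev V (p3 h T) = s3 (mev V h) (tev V T) := by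
  funext k l i j; simp only [tev, p3, tget_tof, pev_sum3, pev_pmul]; rfl
lemma ev_p4 (V : Val) (h : M3) (T : T4) : tev V (p4 h T) = s4 (mev V h) (tev V T) := by
  funext k l i j; simp only [tev, p4, tget_tof, pev_sum3, pev_pmul]; rfl

def tact (g h : M3) (c : Tm) (T : T4) (k : T4 → Bool) : Bool :=
  tseq (p4 g T) fun T => tseq (p3 g T) fun T => tseq (p2 h T) fun T =>
    tseq (tmap (tmul c) (p1 h T)) k

lemma tact_eq (g h : M3) (c : Tm) (T : T4) (k : T4 → Bool) :
    tact g h c T k = k (tmap (tmul c) (p1 h (p2 h (p3 g (p4 g T))))) := by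
  simp only [tact, tseq_eq]

lemma ev_tact (V : Val) (g h : M3) (c : Tm) (T : T4) :
    tev V (tmap (tmul c) (p1 h (p2 h (p3 g (p4 g T))))) =
      c.ev V • transform (mev V g) (mev V h) (tev V T) := by
  rw [transform_eq, ← ev_p4, ← ev_p3, ← ev_p2, ← ev_p1]
  funext k l i j
  simp [tev, pev_tmul]

def mmul (g h : M3) : M3 := mof fun i j => sum3 fun s => pmul (mget g i s) (mget h s j)
def mone : M3 := ⟨⟨[one], [], []⟩, ⟨[], [one], []⟩, ⟨[], [], [one]⟩⟩
def meq (g h : M3) : Bool := all2 fun i j => peq (mget g i j) (mget h i j)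

lemma ev_mmul (V : Val) (g h : M3) : mev V (mmul g h) = mev V g * mev V h := by
  ext i j; simp only [mev, mmul, mget_mof, pev_sum3, pev_pmul, Matrix.mul_apply]
lemma ev_mone (V : Val) : mev V mone = 1 := by
  ext i j
  fin_cases i <;> fin_cases j <;> simp [mev, mone, mget, toI, V3.get]
lemma ev_meq (V : Val) {g h : M3} (H : meq g h = true) : mev V g = mev V h := by
  ext i j; exact peq_ev V (all2_spec H _ _)

def St.iota (S : St) : St :=
  ⟨tof fun γ ε α β => tget S.r ε γ α β, tof fun γ ε α β => pneg (tget S.a ε γ β α)⟩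

lemma St.ev_iota (V : Val) (S : St) : S.iota.ev V = MP_4e1a58_mp.iota (S.ev V) := by
  ext i j k l <;> simp [St.ev, St.iota, tev, MP_4e1a58_mp.iota, pev_pneg]

/-- a change of coordinates together with a substitution -/
structure Mv where
  g : M3
  h : M3
  c : Tm
  σ : List (Nat × Pl)
  τ : List (Nat × Tm)

def Mv.ok (m : Mv) (S S' : St) : Bool :=
  meq (mmul m.g m.h) mone && unitT m.c && okX m.σ && okU m.τ &&
    tact m.g m.h m.c S.r fun r => tact m.g m.h m.c S.a fun a =>
      (S'.map (psubst m.σ m.τ)).eqb ⟨r, a⟩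

lemma Mv.ok_spec {m : Mv} {S S' : St} (h : m.ok S S' = true) (V : Val) :
    ∃ V', Equivalent (S.ev V) (S'.ev V') := by
  simp only [Mv.ok, Bool.and_eq_true, tact_eq] at h
  obtain ⟨⟨⟨⟨h1, h2⟩, h3⟩, h4⟩, h5⟩ := h
  have e := St.ev_eqb V h5
  rw [St.ev_map (pev_psubst V m.σ m.τ h3 h4)] at e
  refine ⟨V.upd m.σ m.τ h4, mev V m.g, mev V m.h, m.c.ev V, ?_, unitT_ev V h2, ?_, ?_⟩
  · rw [← ev_mmul, ev_meq V h1, ev_mone]
  · rw [e]; exact ev_tact V _ _ _ _
  · rw [e]; exact ev_tact V _ _ _ _

def code (i j k l : I3) : Nat :=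
  Nat.add (Nat.mul (Nat.add (Nat.mul (Nat.add (Nat.mul i.num 3) j.num) 3) k.num) 3) l.num

def look (L : List (Nat × Pl)) (n : Nat) (d : Pl) : Pl :=
  List.rec d (fun x _ ih => cond (Nat.beq x.1 n) x.2 ih) L

def St.ovr (S : St) (L L' : List (Nat × Pl)) : St :=
  ⟨tof fun i j k l => look L (code i j k l) (tget S.r i j k l),
   tof fun i j k l => look L' (code i j k l) (tget S.a i j k l)⟩

def St.adj (S : St) (n : Nat) (E : Pl) : St :=
  ⟨tof fun i j k l => cond (Nat.beq n (code i j k l)) (padd E (tget S.r i j k l))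
      (cond (Nat.beq n (code j i l k)) (psub (tget S.r i j k l) E) (tget S.r i j k l)), S.a⟩

lemma St.ev_adj {V : Val} (S : St) (n : Nat) {E : Pl} (h : pev V E = 0) :
    (S.adj n E).ev V = S.ev V := by
  ext i j k l
  · simp only [St.ev, St.adj, tev, tget_tof]
    cases Nat.beq n (code (toI i) (toI j) (toI k) (toI l))
    · cases Nat.beq n (code (toI j) (toI i) (toI l) (toI k)) <;> simp [pev_psub, h]
    · simp [pev_padd, h]
  · rfl

def single (p : Pl) (k : Tm → Bool) : Bool :=
  List.rec false (fun t ts _ => isNil ts && k t) p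

lemma single_spec {p : Pl} {k : Tm → Bool} (h : single p k = true) : ∃ t, p = [t] ∧ k t = true := by
  cases p with
  | nil => exact absurd h (by simp [single])
  | cons t ts =>
    have e : single (t :: ts) k = (isNil ts && k t) := rfl
    rw [e, Bool.and_eq_true] at h
    cases ts with
    | nil => exact ⟨t, rfl, h.2⟩
    | cons _ _ => exact absurd h.1 (by simp [isNil])

def nth (K : List St) : Nat → (St → Bool) → Bool :=
  List.rec (fun _ _ => false) (fun S _ ih n k => Nat.casesOn n (k S) fun m => ih m k) K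

lemma nth_spec {K : List St} {n : Nat} {k : St → Bool} (h : nth K n k = true) :
    ∃ S ∈ K, k S = true := by
  induction K generalizing n with
  | nil => exact absurd h (by simp [nth])
  | cons S K ih =>
    cases n with
    | zero => exact ⟨S, by simp, h⟩
    | succ m =>
      obtain ⟨S', h1, h2⟩ := ih (n := m) h
      exact ⟨S', by simp [h1], h2⟩

inductive Tree
  | elim (e : Spec) (v : Nat) (t : Tree)
  | zero (e : Spec) (v k : Nat) (t : Tree)
  | contra (e : Spec)
  | uelim (e : Spec) (v : Nat) (t : Tree)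
  | split (v : Nat) (t0 t1 : Tree)
  | root (v k : Nat) (w : Tm) (p : Pl) (t : Tree)
  | uroot (v k : Nat) (t : Tree)
  | adj (n : Nat) (e : Spec) (t : Tree)
  | act (m : Mv) (σ : List (Nat × Pl)) (τ : List (Nat × Tm)) (L L' : List (Nat × Pl)) (t : Tree)
  | call (io : Bool) (m : Mv) (j : Nat)
  | done

def check (al : Bool) (K : List St) (t : Tree) : St → Bool :=
  Tree.rec
    (fun e v _ ih S => isPr v && seqP (padd [xv v] (evS S e)) fun q => (S.map (sub1 v q)).seq ih)
    (fun e v k _ ih S => isPr v && single (evS S e) (fun t => nzT t && Nat.beq t.m (Nat.pow v k)) &&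
      (S.map (sub1 v [])).seq ih)
    (fun e S => single (evS S e) unitT)
    (fun e v _ ih S => isPr v && single (padd [uv v] (evS S e)) fun w => seqT w fun w =>
      unitT w && (S.map (psubst [] [(v, w)])).seq ih)
    (fun v _ _ ih0 ih1 S => isPr v && S.all (freshP v) && (S.map (sub1 v [])).seq ih0 &&
      (S.map (sub1 v [uv v])).seq ih1)
    (fun v k w p _ ih S => isPr v && !Nat.beq k 0 && unitT w && lowP v k p &&
      seqP (padd [w.mul (xv (Nat.pow v k))] p) fun q => (S.map (sub1 v q)).seq ih)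
    (fun v k _ ih S => isPr v && !Nat.beq k 0 && unitT (uv (Nat.pow v k)) &&
      (S.map (psubst [] [(v, uv (Nat.pow v k))])).seq ih)
    (fun n e _ ih S => (S.adj n (evS S e)).seq ih)
    (fun m σ τ L L' _ ih S => ((S.map (psubst σ τ)).ovr L L').seq fun S' => m.ok S S' && ih S')
    (fun io m j S => nth K j fun S' => cond io (al && m.ok S.iota S') (m.ok S S'))
    (fun S => S.all isNil) t

def Good (G : Tn × Tn → Prop) (S : St) : Prop := ∀ V, Admissible (S.ev V) → G (S.ev V)

lemma val_upd_self (V : Val) (v : ℕ) (c : ℂ) (h : c = V.x v) :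
    (⟨Function.update V.x v c, V.u, V.hu⟩ : Val) = V := by
  subst h; simp

lemma ev_sub1 (V : Val) {v : ℕ} (hv : isPr v = true) {q : Pl} (h : pev V q = V.x v) (S : St) :
    (S.map (sub1 v q)).ev V = S.ev V :=
  St.ev_map (fun p => by rw [pev_sub1 V hv, val_upd_self V v _ h]) S

lemma ev_usub (V : Val) {v : ℕ} (hv : isPr v = true) {w : Tm} (hw : unitT w = true)
    (h : w.ev V = V.u v) (S : St) : (S.map (psubst [] [(v, w)])).ev V = S.ev V := by
  have h' : okU [(v, w)] = true := by simp [okU, hv, hw]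
  refine St.ev_map (fun p => ?_) S
  rw [pev_psubst V [] _ rfl h']
  congr 1
  cases V
  simp only [Val.upd, updX, updU, Val.mk.injEq, true_and]
  rw [h]; simp

theorem check_sound {G : Tn × Tn → Prop} (h0 : G 0) (hE : ∀ X Y, Equivalent X Y → G Y → G X)
    {al : Bool} (hI : al = true → ∀ X, G (iota X) → G X) {K : List St}
    (hK : ∀ S ∈ K, Good G S) (t : Tree) : ∀ S, check al K t S = true → Good G S := by
  induction t with
  | elim e v t ih =>
    intro S h V hA
    change (isPr v && seqP (padd [xv v] (evS S e)) fun q =>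
      (S.map (sub1 v q)).seq (check al K t)) = true at h
    rw [seqP_eq, St.seq_eq, Bool.and_eq_true] at h
    have e1 := ev_sub1 V h.1 (q := padd [xv v] (evS S e))
      (by simp [pev_padd, ev_evS hA, ev_xv V (isPr_prime h.1)]) S
    have := ih _ h.2 V
    rw [e1] at this; exact this hA
  | zero e v k t ih =>
    intro S h V hA
    change (isPr v && single (evS S e) (fun t => nzT t && Nat.beq t.m (Nat.pow v k)) &&
      (S.map (sub1 v [])).seq (check al K t)) = true at h
    rw [St.seq_eq, Bool.and_eq_true, Bool.and_eq_true] at h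
    obtain ⟨w, hw, hk⟩ := single_spec h.1.2
    rw [Bool.and_eq_true] at hk
    have z := ev_evS hA e
    rw [hw, pev_cons, pev_nil, add_zero] at z
    have z2 := nzT_ev V hk.1 z
    rw [Nat.eq_of_beq_eq_true hk.2] at z2
    change ev V.x (v ^ k) = 0 at z2
    rw [ev_pow, ev_prime _ (isPr_prime h.1.1)] at z2
    have e1 := ev_sub1 V h.1.1 (q := []) (pow_eq_zero_iff'.1 z2).1.symm S
    have := ih _ h.2 V
    rw [e1] at this; exact this hA
  | contra e =>
    intro S h V hA
    change single (evS S e) unitT = true at h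
    obtain ⟨w, hw, hk⟩ := single_spec h
    have z := ev_evS hA e
    rw [hw, pev_cons, pev_nil, add_zero] at z
    exact absurd z (unitT_ev V hk)
  | uelim e v t ih =>
    intro S h V hA
    change (isPr v && single (padd [uv v] (evS S e)) fun w => seqT w fun w =>
      unitT w && (S.map (psubst [] [(v, w)])).seq (check al K t)) = true at h
    rw [Bool.and_eq_true] at h
    obtain ⟨w, hw, hk⟩ := single_spec h.2
    rw [seqT_eq, St.seq_eq, Bool.and_eq_true] at hk
    have z : pev V (padd [uv v] (evS S e)) = V.u v := by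
      simp [pev_padd, ev_evS hA, ev_uv V (isPr_prime h.1)]
    rw [hw, pev_cons, pev_nil, add_zero] at z
    have := ih _ hk.2 V
    rw [ev_usub V h.1 hk.1 z] at this; exact this hA
  | split v t0 t1 ih0 ih1 =>
    intro S h V hA
    change (isPr v && S.all (freshP v) && (S.map (sub1 v [])).seq (check al K t0) &&
      (S.map (sub1 v [uv v])).seq (check al K t1)) = true at h
    simp only [St.seq_eq, Bool.and_eq_true] at h
    obtain ⟨⟨⟨hv, hf⟩, a0⟩, a1⟩ := h
    by_cases hx : V.x v = 0
    · have := ih0 _ a0 V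
      rw [ev_sub1 V hv (q := []) hx.symm] at this; exact this hA
    · have hu : ∀ p, Function.update V.u v (V.x v) p ≠ 0 := fun p => by
        by_cases hp : p = v
        · subst hp; simpa using hx
        · rw [Function.update_of_ne hp]; exact V.hu p
      have := ih1 _ a1 ⟨V.x, Function.update V.u v (V.x v), hu⟩
      rw [ev_sub1 _ hv (by simp [ev_uv _ (isPr_prime hv)]),
        St.ev_all (V' := V) (fun p hp => pev_fresh V v _ hu p hp) hf] at this
      exact this hA
  | root v k w p t ih =>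
    intro S h V hA
    change (isPr v && !Nat.beq k 0 && unitT w && lowP v k p &&
      seqP (padd [w.mul (xv (Nat.pow v k))] p) fun q =>
        (S.map (sub1 v q)).seq (check al K t)) = true at h
    simp only [seqP_eq, St.seq_eq, Bool.and_eq_true, Bool.not_eq_true'] at h
    obtain ⟨⟨⟨⟨hv, hk⟩, hw⟩, hl⟩, a⟩ := h
    obtain ⟨s, hs⟩ := root_exists V (isPr_prime hv) k (Nat.ne_of_beq_eq_false hk) w hw p hl
    have := ih _ a ⟨Function.update V.x v s, V.u, V.hu⟩
    rw [St.ev_map (V' := V) (fun p => by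
      rw [pev_sub1 _ hv, hs]
      simp)] at this
    exact this hA
  | uroot v k t ih =>
    intro S h V hA
    change (isPr v && !Nat.beq k 0 && unitT (uv (Nat.pow v k)) &&
      (S.map (psubst [] [(v, uv (Nat.pow v k))])).seq (check al K t)) = true at h
    simp only [St.seq_eq, Bool.and_eq_true, Bool.not_eq_true'] at h
    obtain ⟨⟨⟨hv, hk⟩, hw⟩, a⟩ := h
    have hk' := Nat.ne_of_beq_eq_false hk
    obtain ⟨s, hs⟩ := IsAlgClosed.exists_pow_nat_eq (V.u v) (Nat.pos_of_ne_zero hk')
    have hu : ∀ p, Function.update V.u v s p ≠ 0 := fun p => by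
      by_cases hp : p = v
      · subst hp
        rw [Function.update_self]
        rintro rfl
        exact V.hu p (by rw [← hs, zero_pow hk'])
      · rw [Function.update_of_ne hp]; exact V.hu p
    have h' : okU [(v, uv (Nat.pow v k))] = true := by
      simp only [okU, List.all_cons, List.all_nil, hv, hw, Bool.and_self]
    have e1 : (uv (Nat.pow v k)).ev ⟨V.x, Function.update V.u v s, hu⟩ = V.u v := by
      show ((1 : ℤ) : ℂ) / ((1 : ℕ) : ℂ) * ev _ 1 * (ev _ (v ^ k) / ev _ 1) = _
      simp [ev_pow, ev_prime _ (isPr_prime hv), ev_one, hs]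
    have := ih _ a ⟨V.x, Function.update V.u v s, hu⟩
    rw [St.ev_map (V' := V) (fun p => by
      rw [pev_psubst _ [] _ rfl h']
      congr 1
      cases V
      simp only [Val.upd, updX, updU, Val.mk.injEq, true_and]
      rw [e1]; simp)] at this
    exact this hA
  | adj n e t ih =>
    intro S h V hA
    change (S.adj n (evS S e)).seq (check al K t) = true at h
    rw [St.seq_eq] at h
    have := ih _ h V
    rw [St.ev_adj S n (ev_evS hA e)] at this; exact this hA
  | act m σ τ L L' t ih =>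
    intro S h V hA
    change (((S.map (psubst σ τ)).ovr L L').seq fun S' => m.ok S S' && check al K t S') = true at h
    rw [St.seq_eq, Bool.and_eq_true] at h
    obtain ⟨V', hV⟩ := Mv.ok_spec h.1 V
    exact hE _ _ hV (ih _ h.2 V' (hV.adm hA))
  | call io m j =>
    intro S h V hA
    change (nth K j fun S' => cond io (al && m.ok S.iota S') (m.ok S S')) = true at h
    obtain ⟨S', h1, h2⟩ := nth_spec h
    cases io
    · obtain ⟨V', hV⟩ := Mv.ok_spec h2 V
      exact hE _ _ hV (hK _ h1 V' (hV.adm hA))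
    · simp only [cond_true, Bool.and_eq_true] at h2
      obtain ⟨V', hV⟩ := Mv.ok_spec h2.2 V
      rw [St.ev_iota] at hV
      exact hI h2.1 _ (hE _ _ hV (hK _ h1 V' (hV.adm (adm_iota hA))))
  | done =>
    intro S h V _
    change S.all isNil = true at h
    rw [St.ev_nil V h]; exact h0

end

end Pool.Agent.Lib.MP_4e1a58_mp
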