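import Pool.Agent.Lib.MP_4e1a58_mp.States

/-! Generated certificates. -/

namespace Pool.Agent.Lib.MP_4e1a58_mp

set_option maxRecDepth 100000

noncomputable section

def iotA : List Tree := [.call false ⟨mone, mone, ⟨-1, 1, 1, 1, 1⟩, [], []⟩ 0,
  .call false ⟨⟨⟨[], [⟨1, 1, 1, 1, 1⟩], []⟩, ⟨[⟨1, 1, 1, 1, 1⟩], [], []⟩, ⟨[], [], [⟨1, 1, 1, 1, 1⟩]⟩⟩, ⟨⟨[],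
  [⟨1, 1, 1, 1, 1⟩], []⟩, ⟨[⟨1, 1, 1, 1, 1⟩], [], []⟩, ⟨[], [], [⟨1, 1, 1, 1, 1⟩]⟩⟩, ⟨-1, 1, 1, 1, 1⟩, [],
  []⟩ 7,
  .call false ⟨mone, mone, ⟨1, 1, 1, 1, 1⟩, [], []⟩ 2,
  .call false ⟨⟨⟨[⟨1, 1, 1, 1, 1⟩], [], []⟩, ⟨[], [], [⟨1, 1, 1, 1, 1⟩]⟩, ⟨[], [⟨1, 1, 1, 1, 1⟩], []⟩⟩, ⟨⟨[⟨1,
  1, 1, 1, 1⟩], [], []⟩, ⟨[], [], [⟨1, 1, 1, 1, 1⟩]⟩, ⟨[], [⟨1, 1, 1, 1, 1⟩], []⟩⟩, ⟨1, 1, 1, 1, 1⟩, [], []⟩ 13,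
  .call false ⟨mone, mone, ⟨-1, 1, 1, 1, 1⟩, [], []⟩ 4,
  .call false ⟨mone, mone, ⟨1, 1, 1, 1, 1⟩, [], []⟩ 5,
  .call false ⟨⟨⟨[⟨1, 1, 1, 1, 1⟩], [], []⟩, ⟨[], [⟨-1, 1, 1, 1, 1⟩], [⟨-1, 1, 1, 1, 1⟩]⟩, ⟨[], [], [⟨1, 1, 1,
  1, 1⟩]⟩⟩, ⟨⟨[⟨1, 1, 1, 1, 1⟩], [], []⟩, ⟨[], [⟨-1, 1, 1, 1, 1⟩], [⟨-1, 1, 1, 1, 1⟩]⟩, ⟨[], [], [⟨1, 1, 1, 1,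
  1⟩]⟩⟩, ⟨-1, 1, 1, 1, 1⟩, [], []⟩ 6,
  .call false ⟨⟨⟨[], [⟨1, 1, 1, 1, 1⟩], []⟩, ⟨[⟨1, 1, 1, 1, 1⟩], [], []⟩, ⟨[], [], [⟨1, 1, 1, 1, 1⟩]⟩⟩, ⟨⟨[],
  [⟨1, 1, 1, 1, 1⟩], []⟩, ⟨[⟨1, 1, 1, 1, 1⟩], [], []⟩, ⟨[], [], [⟨1, 1, 1, 1, 1⟩]⟩⟩, ⟨-1, 1, 1, 1, 1⟩, [],
  []⟩ 1,
  .call false ⟨mone, mone, ⟨-1, 1, 1, 1, 1⟩, [], []⟩ 8,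
  .call false ⟨mone, mone, ⟨-1, 1, 1, 1, 1⟩, [], []⟩ 9,
  .call false ⟨mone, mone, ⟨1, 1, 1, 1, 1⟩, [], []⟩ 10,
  .call false ⟨⟨⟨[⟨1, 1, 1, 1, 1⟩], [⟨-1, 1, 1, 1, 1⟩], []⟩, ⟨[], [⟨-1, 1, 1, 1, 1⟩], []⟩, ⟨[], [], [⟨1, 1, 1,
  1, 1⟩]⟩⟩, ⟨⟨[⟨1, 1, 1, 1, 1⟩], [⟨-1, 1, 1, 1, 1⟩], []⟩, ⟨[], [⟨-1, 1, 1, 1, 1⟩], []⟩, ⟨[], [], [⟨1, 1, 1, 1,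
  1⟩]⟩⟩, ⟨1, 1, 1, 1, 1⟩, [], []⟩ 11,
  .call false ⟨mone, mone, ⟨1, 1, 1, 1, 1⟩, [], []⟩ 12,
  .call false ⟨⟨⟨[⟨1, 1, 1, 1, 1⟩], [], []⟩, ⟨[], [], [⟨1, 1, 1, 1, 1⟩]⟩, ⟨[], [⟨1, 1, 1, 1, 1⟩], []⟩⟩, ⟨⟨[⟨1,
  1, 1, 1, 1⟩], [], []⟩, ⟨[], [], [⟨1, 1, 1, 1, 1⟩]⟩, ⟨[], [⟨1, 1, 1, 1, 1⟩], []⟩⟩, ⟨1, 1, 1, 1, 1⟩, [], []⟩ 3,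
  .call false ⟨mone, mone, ⟨-1, 1, 1, 1, 1⟩, [], []⟩ 14,
  .call false ⟨mone, mone, ⟨1, 1, 1, 1, 1⟩, [], []⟩ 15]

def tauA : List Tree := [.call false ⟨⟨⟨[], [⟨1, 1, 1, 1, 1⟩], []⟩, ⟨[⟨1, 1, 1, 1, 1⟩], [], []⟩, ⟨[], [], [⟨1, 1, 1, 1, 1⟩]⟩⟩, ⟨⟨[],
  [⟨1, 1, 1, 1, 1⟩], []⟩, ⟨[⟨1, 1, 1, 1, 1⟩], [], []⟩, ⟨[], [], [⟨1, 1, 1, 1, 1⟩]⟩⟩, ⟨-1, 1, 1, 1, 1⟩, [],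
  []⟩ 2,
  .call false ⟨⟨⟨[], [], [⟨1, 1, 1, 1, 1⟩]⟩, ⟨[], [⟨1, 1, 1, 1, 1⟩], []⟩, ⟨[⟨1, 1, 1, 1, 1⟩], [], []⟩⟩, ⟨⟨[],
  [], [⟨1, 1, 1, 1, 1⟩]⟩, ⟨[], [⟨1, 1, 1, 1, 1⟩], []⟩, ⟨[⟨1, 1, 1, 1, 1⟩], [], []⟩⟩, ⟨-1, 1, 1, 1, 1⟩, [],
  []⟩ 3,
  .call false ⟨⟨⟨[], [⟨1, 1, 1, 1, 1⟩], []⟩, ⟨[⟨1, 1, 1, 1, 1⟩], [], []⟩, ⟨[], [], [⟨1, 1, 1, 1, 1⟩]⟩⟩, ⟨⟨[],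
  [⟨1, 1, 1, 1, 1⟩], []⟩, ⟨[⟨1, 1, 1, 1, 1⟩], [], []⟩, ⟨[], [], [⟨1, 1, 1, 1, 1⟩]⟩⟩, ⟨-1, 1, 1, 1, 1⟩, [],
  []⟩ 0,
  .call false ⟨⟨⟨[], [], [⟨1, 1, 1, 1, 1⟩]⟩, ⟨[], [⟨1, 1, 1, 1, 1⟩], []⟩, ⟨[⟨1, 1, 1, 1, 1⟩], [], []⟩⟩, ⟨⟨[],
  [], [⟨1, 1, 1, 1, 1⟩]⟩, ⟨[], [⟨1, 1, 1, 1, 1⟩], []⟩, ⟨[⟨1, 1, 1, 1, 1⟩], [], []⟩⟩, ⟨-1, 1, 1, 1, 1⟩, [],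
  []⟩ 1,
  .call false ⟨⟨⟨[], [⟨1, 1, 1, 1, 1⟩], []⟩, ⟨[], [], [⟨1, 1, 1, 1, 1⟩]⟩, ⟨[⟨1, 1, 1, 1, 1⟩], [], []⟩⟩, ⟨⟨[],
  [], [⟨1, 1, 1, 1, 1⟩]⟩, ⟨[⟨1, 1, 1, 1, 1⟩], [], []⟩, ⟨[], [⟨1, 1, 1, 1, 1⟩], []⟩⟩, ⟨1, 1, 1, 1, 1⟩, [], []⟩ 5,
  .call false ⟨⟨⟨[], [], [⟨1, 1, 1, 1, 1⟩]⟩, ⟨[⟨1, 1, 1, 1, 1⟩], [], []⟩, ⟨[], [⟨1, 1, 1, 1, 1⟩], []⟩⟩, ⟨⟨[],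
  [⟨1, 1, 1, 1, 1⟩], []⟩, ⟨[], [], [⟨1, 1, 1, 1, 1⟩]⟩, ⟨[⟨1, 1, 1, 1, 1⟩], [], []⟩⟩, ⟨1, 1, 1, 1, 1⟩, [], []⟩ 4,
  .call false ⟨⟨⟨[], [], [⟨1, 1, 1, 1, 1⟩]⟩, ⟨[], [⟨1, 1, 1, 1, 1⟩], []⟩, ⟨[⟨1, 1, 1, 1, 1⟩], [], []⟩⟩, ⟨⟨[],
  [], [⟨1, 1, 1, 1, 1⟩]⟩, ⟨[], [⟨1, 1, 1, 1, 1⟩], []⟩, ⟨[⟨1, 1, 1, 1, 1⟩], [], []⟩⟩, ⟨-1, 1, 1, 1, 1⟩, [],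
  []⟩ 11,
  .call false ⟨⟨⟨[], [], [⟨1, 1, 1, 1, 1⟩]⟩, ⟨[], [⟨1, 1, 1, 1, 1⟩], []⟩, ⟨[⟨1, 1, 1, 1, 1⟩], [], []⟩⟩, ⟨⟨[],
  [], [⟨1, 1, 1, 1, 1⟩]⟩, ⟨[], [⟨1, 1, 1, 1, 1⟩], []⟩, ⟨[⟨1, 1, 1, 1, 1⟩], [], []⟩⟩, ⟨-1, 1, 1, 1, 1⟩, [],
  []⟩ 13,
  .call false ⟨⟨⟨[], [], [⟨1, 1, 1, 1, 1⟩]⟩, ⟨[], [⟨1, 1, 1, 1, 1⟩], []⟩, ⟨[⟨1, 1, 1, 1, 1⟩], [], []⟩⟩, ⟨⟨[],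
  [], [⟨1, 1, 1, 1, 1⟩]⟩, ⟨[], [⟨1, 1, 1, 1, 1⟩], []⟩, ⟨[⟨1, 1, 1, 1, 1⟩], [], []⟩⟩, ⟨-1, 1, 1, 1, 1⟩, [],
  []⟩ 12,
  .call false ⟨⟨⟨[], [], [⟨1, 1, 1, 1, 1⟩]⟩, ⟨[⟨1, 1, 1, 1, 1⟩], [], []⟩, ⟨[], [⟨1, 1, 1, 1, 1⟩], []⟩⟩, ⟨⟨[],
  [⟨1, 1, 1, 1, 1⟩], []⟩, ⟨[], [], [⟨1, 1, 1, 1, 1⟩]⟩, ⟨[⟨1, 1, 1, 1, 1⟩], [], []⟩⟩, ⟨-1, 1, 1, 1, 1⟩, [],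
  []⟩ 10,
  .call false ⟨⟨⟨[], [⟨1, 1, 1, 1, 1⟩], []⟩, ⟨[], [], [⟨1, 1, 1, 1, 1⟩]⟩, ⟨[⟨1, 1, 1, 1, 1⟩], [], []⟩⟩, ⟨⟨[],
  [], [⟨1, 1, 1, 1, 1⟩]⟩, ⟨[⟨1, 1, 1, 1, 1⟩], [], []⟩, ⟨[], [⟨1, 1, 1, 1, 1⟩], []⟩⟩, ⟨-1, 1, 1, 1, 1⟩, [],
  []⟩ 9,
  .call false ⟨⟨⟨[], [], [⟨1, 1, 1, 1, 1⟩]⟩, ⟨[], [⟨1, 1, 1, 1, 1⟩], []⟩, ⟨[⟨1, 1, 1, 1, 1⟩], [], []⟩⟩, ⟨⟨[],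
  [], [⟨1, 1, 1, 1, 1⟩]⟩, ⟨[], [⟨1, 1, 1, 1, 1⟩], []⟩, ⟨[⟨1, 1, 1, 1, 1⟩], [], []⟩⟩, ⟨-1, 1, 1, 1, 1⟩, [],
  []⟩ 6,
  .call false ⟨⟨⟨[], [], [⟨1, 1, 1, 1, 1⟩]⟩, ⟨[], [⟨1, 1, 1, 1, 1⟩], []⟩, ⟨[⟨1, 1, 1, 1, 1⟩], [], []⟩⟩, ⟨⟨[],
  [], [⟨1, 1, 1, 1, 1⟩]⟩, ⟨[], [⟨1, 1, 1, 1, 1⟩], []⟩, ⟨[⟨1, 1, 1, 1, 1⟩], [], []⟩⟩, ⟨-1, 1, 1, 1, 1⟩, [],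
  []⟩ 8,
  .call false ⟨⟨⟨[], [], [⟨1, 1, 1, 1, 1⟩]⟩, ⟨[], [⟨1, 1, 1, 1, 1⟩], []⟩, ⟨[⟨1, 1, 1, 1, 1⟩], [], []⟩⟩, ⟨⟨[],
  [], [⟨1, 1, 1, 1, 1⟩]⟩, ⟨[], [⟨1, 1, 1, 1, 1⟩], []⟩, ⟨[⟨1, 1, 1, 1, 1⟩], [], []⟩⟩, ⟨-1, 1, 1, 1, 1⟩, [],
  []⟩ 7,
  .call false ⟨⟨⟨[], [], [⟨1, 1, 1, 1, 1⟩]⟩, ⟨[], [⟨1, 1, 1, 1, 1⟩], []⟩, ⟨[⟨1, 1, 1, 1, 1⟩], [], []⟩⟩, ⟨⟨[],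
  [], [⟨1, 1, 1, 1, 1⟩]⟩, ⟨[], [⟨1, 1, 1, 1, 1⟩], []⟩, ⟨[⟨1, 1, 1, 1, 1⟩], [], []⟩⟩, ⟨-1, 1, 1, 1, 1⟩, [],
  []⟩ 15,
  .call false ⟨⟨⟨[], [], [⟨1, 1, 1, 1, 1⟩]⟩, ⟨[], [⟨1, 1, 1, 1, 1⟩], []⟩, ⟨[⟨1, 1, 1, 1, 1⟩], [], []⟩⟩, ⟨⟨[],
  [], [⟨1, 1, 1, 1, 1⟩]⟩, ⟨[], [⟨1, 1, 1, 1, 1⟩], []⟩, ⟨[⟨1, 1, 1, 1, 1⟩], [], []⟩⟩, ⟨-1, 1, 1, 1, 1⟩, [],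
  []⟩ 14]

def iotB : List Tree := [.call false ⟨mone, mone, ⟨-1, 1, 1, 1, 1⟩, [], []⟩ 0,
  .call false ⟨⟨⟨[], [⟨1, 1, 1, 1, 1⟩], []⟩, ⟨[⟨1, 1, 1, 1, 1⟩], [], []⟩, ⟨[], [], [⟨1, 1, 1, 1, 1⟩]⟩⟩, ⟨⟨[],
  [⟨1, 1, 1, 1, 1⟩], []⟩, ⟨[⟨1, 1, 1, 1, 1⟩], [], []⟩, ⟨[], [], [⟨1, 1, 1, 1, 1⟩]⟩⟩, ⟨-1, 1, 1, 1, 1⟩, [],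
  []⟩ 7,
  .call false ⟨mone, mone, ⟨1, 1, 1, 1, 1⟩, [], []⟩ 2,
  .call false ⟨⟨⟨[⟨1, 1, 1, 1, 1⟩], [], []⟩, ⟨[], [], [⟨1, 1, 1, 1, 1⟩]⟩, ⟨[], [⟨1, 1, 1, 1, 1⟩], []⟩⟩, ⟨⟨[⟨1,
  1, 1, 1, 1⟩], [], []⟩, ⟨[], [], [⟨1, 1, 1, 1, 1⟩]⟩, ⟨[], [⟨1, 1, 1, 1, 1⟩], []⟩⟩, ⟨1, 1, 1, 1, 1⟩, [], []⟩ 13,
  .call false ⟨mone, mone, ⟨-1, 1, 1, 1, 1⟩, [], []⟩ 4,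
  .call false ⟨mone, mone, ⟨1, 1, 1, 1, 1⟩, [], []⟩ 5,
  .call false ⟨⟨⟨[⟨1, 1, 1, 1, 1⟩], [], []⟩, ⟨[], [⟨-1, 1, 1, 1, 1⟩], [⟨-1, 1, 1, 1, 1⟩]⟩, ⟨[], [], [⟨1, 1, 1,
  1, 1⟩]⟩⟩, ⟨⟨[⟨1, 1, 1, 1, 1⟩], [], []⟩, ⟨[], [⟨-1, 1, 1, 1, 1⟩], [⟨-1, 1, 1, 1, 1⟩]⟩, ⟨[], [], [⟨1, 1, 1, 1,
  1⟩]⟩⟩, ⟨-1, 1, 1, 1, 1⟩, [], []⟩ 6,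
  .call false ⟨⟨⟨[], [⟨1, 1, 1, 1, 1⟩], []⟩, ⟨[⟨1, 1, 1, 1, 1⟩], [], []⟩, ⟨[], [], [⟨1, 1, 1, 1, 1⟩]⟩⟩, ⟨⟨[],
  [⟨1, 1, 1, 1, 1⟩], []⟩, ⟨[⟨1, 1, 1, 1, 1⟩], [], []⟩, ⟨[], [], [⟨1, 1, 1, 1, 1⟩]⟩⟩, ⟨-1, 1, 1, 1, 1⟩, [],
  []⟩ 1,
  .call false ⟨mone, mone, ⟨-1, 1, 1, 1, 1⟩, [], []⟩ 8,
  .call false ⟨mone, mone, ⟨-1, 1, 1, 1, 1⟩, [], []⟩ 9,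
  .call false ⟨mone, mone, ⟨1, 1, 1, 1, 1⟩, [], []⟩ 10,
  .call false ⟨⟨⟨[⟨1, 1, 1, 1, 1⟩], [⟨-1, 1, 1, 1, 1⟩], []⟩, ⟨[], [⟨-1, 1, 1, 1, 1⟩], []⟩, ⟨[], [], [⟨1, 1, 1,
  1, 1⟩]⟩⟩, ⟨⟨[⟨1, 1, 1, 1, 1⟩], [⟨-1, 1, 1, 1, 1⟩], []⟩, ⟨[], [⟨-1, 1, 1, 1, 1⟩], []⟩, ⟨[], [], [⟨1, 1, 1, 1,
  1⟩]⟩⟩, ⟨1, 1, 1, 1, 1⟩, [], []⟩ 11,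
  .call false ⟨mone, mone, ⟨1, 1, 1, 1, 1⟩, [], []⟩ 12,
  .call false ⟨⟨⟨[⟨1, 1, 1, 1, 1⟩], [], []⟩, ⟨[], [], [⟨1, 1, 1, 1, 1⟩]⟩, ⟨[], [⟨1, 1, 1, 1, 1⟩], []⟩⟩, ⟨⟨[⟨1,
  1, 1, 1, 1⟩], [], []⟩, ⟨[], [], [⟨1, 1, 1, 1, 1⟩]⟩, ⟨[], [⟨1, 1, 1, 1, 1⟩], []⟩⟩, ⟨1, 1, 1, 1, 1⟩, [], []⟩ 3,
  .call false ⟨mone, mone, ⟨-1, 1, 1, 1, 1⟩, [], []⟩ 14,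
  .call false ⟨mone, mone, ⟨1, 1, 1, 1, 1⟩, [], []⟩ 15,
  .call false ⟨mone, mone, ⟨-1, 1, 1, 1, 1⟩, [], []⟩ 16,
  .call false ⟨mone, mone, ⟨-1, 1, 1, 1, 1⟩, [], []⟩ 23,
  .call false ⟨mone, mone, ⟨-1, 1, 1, 1, 1⟩, [], []⟩ 24,
  .call false ⟨mone, mone, ⟨-1, 1, 1, 1, 1⟩, [], []⟩ 25,
  .call false ⟨mone, mone, ⟨-1, 1, 1, 1, 1⟩, [], []⟩ 26,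
  .call false ⟨⟨⟨[⟨1, 1, 1, 1, 1⟩], [], []⟩, ⟨[], [], [⟨1, 1, 1, 1, 1⟩]⟩, ⟨[], [⟨1, 1, 1, 1, 1⟩], []⟩⟩, ⟨⟨[⟨1,
  1, 1, 1, 1⟩], [], []⟩, ⟨[], [], [⟨1, 1, 1, 1, 1⟩]⟩, ⟨[], [⟨1, 1, 1, 1, 1⟩], []⟩⟩, ⟨-1, 1, 1, 1, 1⟩, [],
  []⟩ 62,
  .call false ⟨⟨⟨[], [⟨1, 1, 1, 1, 1⟩], []⟩, ⟨[⟨1, 1, 1, 1, 1⟩], [], []⟩, ⟨[], [], [⟨1, 1, 1, 1, 1⟩]⟩⟩, ⟨⟨[],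
  [⟨1, 1, 1, 1, 1⟩], []⟩, ⟨[⟨1, 1, 1, 1, 1⟩], [], []⟩, ⟨[], [], [⟨1, 1, 1, 1, 1⟩]⟩⟩, ⟨-1, 1, 1, 1, 1⟩, [],
  []⟩ 58,
  .call false ⟨mone, mone, ⟨-1, 1, 1, 1, 1⟩, [], []⟩ 17,
  .call false ⟨mone, mone, ⟨-1, 1, 1, 1, 1⟩, [], []⟩ 18,
  .call false ⟨mone, mone, ⟨-1, 1, 1, 1, 1⟩, [], []⟩ 19,
  .call false ⟨mone, mone, ⟨-1, 1, 1, 1, 1⟩, [], []⟩ 20,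
  .call false ⟨mone, mone, ⟨-1, 1, 1, 1, 1⟩, [], []⟩ 27,
  .call false ⟨mone, mone, ⟨-1, 1, 1, 1, 1⟩, [], []⟩ 36,
  .call false ⟨mone, mone, ⟨-1, 1, 1, 1, 1⟩, [], []⟩ 37,
  .call false ⟨⟨⟨[], [⟨1, 1, 1, 1, 1⟩], []⟩, ⟨[⟨1, 1, 1, 1, 1⟩], [], []⟩, ⟨[], [], [⟨1, 1, 1, 1, 1⟩]⟩⟩, ⟨⟨[],
  [⟨1, 1, 1, 1, 1⟩], []⟩, ⟨[⟨1, 1, 1, 1, 1⟩], [], []⟩, ⟨[], [], [⟨1, 1, 1, 1, 1⟩]⟩⟩, ⟨-1, 1, 1, 1, 1⟩, [],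
  []⟩ 56,
  .call false ⟨⟨⟨[], [⟨1, 1, 1, 1, 1⟩], []⟩, ⟨[⟨1, 1, 1, 1, 1⟩], [], []⟩, ⟨[], [], [⟨1, 1, 1, 1, 1⟩]⟩⟩, ⟨⟨[],
  [⟨1, 1, 1, 1, 1⟩], []⟩, ⟨[⟨1, 1, 1, 1, 1⟩], [], []⟩, ⟨[], [], [⟨1, 1, 1, 1, 1⟩]⟩⟩, ⟨-1, 1, 1, 1, 1⟩, [],
  []⟩ 57,
  .call false ⟨⟨⟨[], [⟨1, 1, 1, 1, 1⟩], []⟩, ⟨[⟨1, 1, 1, 1, 1⟩], [], []⟩, ⟨[], [], [⟨1, 1, 1, 1, 1⟩]⟩⟩, ⟨⟨[],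
  [⟨1, 1, 1, 1, 1⟩], []⟩, ⟨[⟨1, 1, 1, 1, 1⟩], [], []⟩, ⟨[], [], [⟨1, 1, 1, 1, 1⟩]⟩⟩, ⟨-1, 1, 1, 1, 1⟩, [],
  []⟩ 44,
  .call false ⟨⟨⟨[], [⟨1, 1, 1, 1, 1⟩], []⟩, ⟨[⟨1, 1, 1, 1, 1⟩], [], []⟩, ⟨[], [], [⟨1, 1, 1, 1, 1⟩]⟩⟩, ⟨⟨[],
  [⟨1, 1, 1, 1, 1⟩], []⟩, ⟨[⟨1, 1, 1, 1, 1⟩], [], []⟩, ⟨[], [], [⟨1, 1, 1, 1, 1⟩]⟩⟩, ⟨-1, 1, 1, 1, 1⟩, [],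
  []⟩ 49,
  .call false ⟨⟨⟨[], [⟨1, 1, 1, 1, 1⟩], []⟩, ⟨[⟨1, 1, 1, 1, 1⟩], [], []⟩, ⟨[], [], [⟨1, 1, 1, 1, 1⟩]⟩⟩, ⟨⟨[],
  [⟨1, 1, 1, 1, 1⟩], []⟩, ⟨[⟨1, 1, 1, 1, 1⟩], [], []⟩, ⟨[], [], [⟨1, 1, 1, 1, 1⟩]⟩⟩, ⟨-1, 1, 1, 1, 1⟩, [],
  []⟩ 50,
  .call false ⟨⟨⟨[], [⟨1, 1, 1, 1, 1⟩], []⟩, ⟨[⟨1, 1, 1, 1, 1⟩], [], []⟩, ⟨[], [], [⟨1, 1, 1, 1, 1⟩]⟩⟩, ⟨⟨[],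
  [⟨1, 1, 1, 1, 1⟩], []⟩, ⟨[⟨1, 1, 1, 1, 1⟩], [], []⟩, ⟨[], [], [⟨1, 1, 1, 1, 1⟩]⟩⟩, ⟨-1, 1, 1, 1, 1⟩, [],
  []⟩ 51,
  .call false ⟨mone, mone, ⟨-1, 1, 1, 1, 1⟩, [], []⟩ 28,
  .call false ⟨mone, mone, ⟨-1, 1, 1, 1, 1⟩, [], []⟩ 29,
  .call false ⟨⟨⟨[⟨1, 1, 1, 1, 1⟩], [], []⟩, ⟨[], [⟨-1, 1, 1, 1, 1⟩], []⟩, ⟨[], [], [⟨1, 1, 1, 1, 1⟩]⟩⟩, ⟨⟨[⟨1,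
  1, 1, 1, 1⟩], [], []⟩, ⟨[], [⟨-1, 1, 1, 1, 1⟩], []⟩, ⟨[], [], [⟨1, 1, 1, 1, 1⟩]⟩⟩, ⟨-1, 1, 1, 1, 1⟩, [],
  []⟩ 38,
  .call false ⟨⟨⟨[⟨1, 1, 1, 1, 1⟩], [], []⟩, ⟨[], [⟨-1, 1, 1, 1, 1⟩], []⟩, ⟨[], [], [⟨1, 1, 1, 1, 1⟩]⟩⟩, ⟨⟨[⟨1,
  1, 1, 1, 1⟩], [], []⟩, ⟨[], [⟨-1, 1, 1, 1, 1⟩], []⟩, ⟨[], [], [⟨1, 1, 1, 1, 1⟩]⟩⟩, ⟨-1, 1, 1, 1, 1⟩, [],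
  []⟩ 39,
  .call false ⟨mone, mone, ⟨-1, 1, 1, 1, 1⟩, [], []⟩ 40,
  .call false ⟨⟨⟨[⟨1, 1, 1, 1, 1⟩], [], []⟩, ⟨[], [⟨-1, 1, 1, 1, 1⟩], []⟩, ⟨[], [], [⟨1, 1, 1, 1, 1⟩]⟩⟩, ⟨⟨[⟨1,
  1, 1, 1, 1⟩], [], []⟩, ⟨[], [⟨-1, 1, 1, 1, 1⟩], []⟩, ⟨[], [], [⟨1, 1, 1, 1, 1⟩]⟩⟩, ⟨1, 1, 1, 1, 1⟩, [],
  []⟩ 55,
  .call false ⟨⟨⟨[⟨1, 1, 1, 1, 1⟩], [], []⟩, ⟨[], [], [⟨-1, 1, 1, 1, 1⟩]⟩, ⟨[], [⟨1, 1, 1, 1, 1⟩], []⟩⟩, ⟨⟨[⟨1,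
  1, 1, 1, 1⟩], [], []⟩, ⟨[], [], [⟨1, 1, 1, 1, 1⟩]⟩, ⟨[], [⟨-1, 1, 1, 1, 1⟩], []⟩⟩, ⟨1, 1, 1, 1, 1⟩, [],
  []⟩ 53,
  .call false ⟨⟨⟨[⟨1, 1, 1, 1, 1⟩], [], []⟩, ⟨[], [], [⟨-1, 1, 1, 1, 1⟩]⟩, ⟨[], [⟨1, 1, 1, 1, 1⟩], []⟩⟩, ⟨⟨[⟨1,
  1, 1, 1, 1⟩], [], []⟩, ⟨[], [], [⟨1, 1, 1, 1, 1⟩]⟩, ⟨[], [⟨-1, 1, 1, 1, 1⟩], []⟩⟩, ⟨1, 1, 1, 1, 1⟩, [],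
  []⟩ 54,
  .call false ⟨⟨⟨[], [⟨1, 1, 1, 1, 1⟩], []⟩, ⟨[⟨1, 1, 1, 1, 1⟩], [], []⟩, ⟨[], [], [⟨1, 1, 1, 1, 1⟩]⟩⟩, ⟨⟨[],
  [⟨1, 1, 1, 1, 1⟩], []⟩, ⟨[⟨1, 1, 1, 1, 1⟩], [], []⟩, ⟨[], [], [⟨1, 1, 1, 1, 1⟩]⟩⟩, ⟨-1, 1, 1, 1, 1⟩, [],
  []⟩ 32,
  .call false ⟨mone, mone, ⟨-1, 1, 1, 1, 1⟩, [], []⟩ 59,
  .call false ⟨mone, mone, ⟨-1, 1, 1, 1, 1⟩, [], []⟩ 60,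
  .call false ⟨⟨⟨[], [⟨1, 1, 1, 1, 1⟩], []⟩, ⟨[⟨1, 1, 1, 1, 1⟩], [], []⟩, ⟨[], [], [⟨1, 1, 1, 1, 1⟩]⟩⟩, ⟨⟨[],
  [⟨1, 1, 1, 1, 1⟩], []⟩, ⟨[⟨1, 1, 1, 1, 1⟩], [], []⟩, ⟨[], [], [⟨1, 1, 1, 1, 1⟩]⟩⟩, ⟨-1, 1, 1, 1, 1⟩, [],
  []⟩ 63,
  .call false ⟨mone, mone, ⟨-1, 1, 1, 1, 1⟩, [], []⟩ 61,
  .call false ⟨⟨⟨[], [⟨1, 1, 1, 1, 1⟩], []⟩, ⟨[⟨1, 1, 1, 1, 1⟩], [], []⟩, ⟨[], [], [⟨1, 1, 1, 1, 1⟩]⟩⟩, ⟨⟨[],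
  [⟨1, 1, 1, 1, 1⟩], []⟩, ⟨[⟨1, 1, 1, 1, 1⟩], [], []⟩, ⟨[], [], [⟨1, 1, 1, 1, 1⟩]⟩⟩, ⟨-1, 1, 1, 1, 1⟩, [],
  []⟩ 33,
  .call false ⟨⟨⟨[], [⟨1, 1, 1, 1, 1⟩], []⟩, ⟨[⟨1, 1, 1, 1, 1⟩], [], []⟩, ⟨[], [], [⟨1, 1, 1, 1, 1⟩]⟩⟩, ⟨⟨[],
  [⟨1, 1, 1, 1, 1⟩], []⟩, ⟨[⟨1, 1, 1, 1, 1⟩], [], []⟩, ⟨[], [], [⟨1, 1, 1, 1, 1⟩]⟩⟩, ⟨-1, 1, 1, 1, 1⟩, [],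
  []⟩ 34,
  .call false ⟨⟨⟨[], [⟨1, 1, 1, 1, 1⟩], []⟩, ⟨[⟨1, 1, 1, 1, 1⟩], [], []⟩, ⟨[], [], [⟨1, 1, 1, 1, 1⟩]⟩⟩, ⟨⟨[],
  [⟨1, 1, 1, 1, 1⟩], []⟩, ⟨[⟨1, 1, 1, 1, 1⟩], [], []⟩, ⟨[], [], [⟨1, 1, 1, 1, 1⟩]⟩⟩, ⟨-1, 1, 1, 1, 1⟩, [],
  []⟩ 35,
  .call false ⟨⟨⟨[⟨1, 1, 1, 1, 1⟩], [], []⟩, ⟨[], [⟨-1, 1, 1, 1, 1⟩], []⟩, ⟨[], [], [⟨1, 1, 1, 1, 1⟩]⟩⟩, ⟨⟨[⟨1,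
  1, 1, 1, 1⟩], [], []⟩, ⟨[], [⟨-1, 1, 1, 1, 1⟩], []⟩, ⟨[], [], [⟨1, 1, 1, 1, 1⟩]⟩⟩, ⟨1, 1, 1, 1, 1⟩, [],
  []⟩ 64,
  .call false ⟨⟨⟨[⟨1, 1, 1, 1, 1⟩], [], []⟩, ⟨[], [], [⟨-1, 1, 1, 1, 1⟩]⟩, ⟨[], [⟨1, 1, 1, 1, 1⟩], []⟩⟩, ⟨⟨[⟨1,
  1, 1, 1, 1⟩], [], []⟩, ⟨[], [], [⟨1, 1, 1, 1, 1⟩]⟩, ⟨[], [⟨-1, 1, 1, 1, 1⟩], []⟩⟩, ⟨-1, 1, 1, 1, 1⟩, [],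
  []⟩ 42,
  .call false ⟨⟨⟨[⟨1, 1, 1, 1, 1⟩], [], []⟩, ⟨[], [], [⟨-1, 1, 1, 1, 1⟩]⟩, ⟨[], [⟨1, 1, 1, 1, 1⟩], []⟩⟩, ⟨⟨[⟨1,
  1, 1, 1, 1⟩], [], []⟩, ⟨[], [], [⟨1, 1, 1, 1, 1⟩]⟩, ⟨[], [⟨-1, 1, 1, 1, 1⟩], []⟩⟩, ⟨-1, 1, 1, 1, 1⟩, [],
  []⟩ 43,
  .call false ⟨⟨⟨[⟨1, 1, 1, 1, 1⟩], [], []⟩, ⟨[], [⟨-1, 1, 1, 1, 1⟩], []⟩, ⟨[], [], [⟨1, 1, 1, 1, 1⟩]⟩⟩, ⟨⟨[⟨1,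
  1, 1, 1, 1⟩], [], []⟩, ⟨[], [⟨-1, 1, 1, 1, 1⟩], []⟩, ⟨[], [], [⟨1, 1, 1, 1, 1⟩]⟩⟩, ⟨1, 1, 1, 1, 1⟩, [],
  []⟩ 41,
  .call false ⟨⟨⟨[], [⟨1, 1, 1, 1, 1⟩], []⟩, ⟨[⟨1, 1, 1, 1, 1⟩], [], []⟩, ⟨[], [], [⟨1, 1, 1, 1, 1⟩]⟩⟩, ⟨⟨[],
  [⟨1, 1, 1, 1, 1⟩], []⟩, ⟨[⟨1, 1, 1, 1, 1⟩], [], []⟩, ⟨[], [], [⟨1, 1, 1, 1, 1⟩]⟩⟩, ⟨-1, 1, 1, 1, 1⟩, [],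
  []⟩ 30,
  .call false ⟨⟨⟨[], [⟨1, 1, 1, 1, 1⟩], []⟩, ⟨[⟨1, 1, 1, 1, 1⟩], [], []⟩, ⟨[], [], [⟨1, 1, 1, 1, 1⟩]⟩⟩, ⟨⟨[],
  [⟨1, 1, 1, 1, 1⟩], []⟩, ⟨[⟨1, 1, 1, 1, 1⟩], [], []⟩, ⟨[], [], [⟨1, 1, 1, 1, 1⟩]⟩⟩, ⟨-1, 1, 1, 1, 1⟩, [],
  []⟩ 31,
  .call false ⟨⟨⟨[], [⟨1, 1, 1, 1, 1⟩], []⟩, ⟨[⟨1, 1, 1, 1, 1⟩], [], []⟩, ⟨[], [], [⟨1, 1, 1, 1, 1⟩]⟩⟩, ⟨⟨[],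
  [⟨1, 1, 1, 1, 1⟩], []⟩, ⟨[⟨1, 1, 1, 1, 1⟩], [], []⟩, ⟨[], [], [⟨1, 1, 1, 1, 1⟩]⟩⟩, ⟨-1, 1, 1, 1, 1⟩, [],
  []⟩ 22,
  .call false ⟨mone, mone, ⟨-1, 1, 1, 1, 1⟩, [], []⟩ 45,
  .call false ⟨mone, mone, ⟨-1, 1, 1, 1, 1⟩, [], []⟩ 46,
  .call false ⟨mone, mone, ⟨-1, 1, 1, 1, 1⟩, [], []⟩ 48,
  .call false ⟨⟨⟨[⟨1, 1, 1, 1, 1⟩], [], []⟩, ⟨[], [], [⟨1, 1, 1, 1, 1⟩]⟩, ⟨[], [⟨1, 1, 1, 1, 1⟩], []⟩⟩, ⟨⟨[⟨1,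
  1, 1, 1, 1⟩], [], []⟩, ⟨[], [], [⟨1, 1, 1, 1, 1⟩]⟩, ⟨[], [⟨1, 1, 1, 1, 1⟩], []⟩⟩, ⟨-1, 1, 1, 1, 1⟩, [],
  []⟩ 21,
  .call false ⟨⟨⟨[], [⟨1, 1, 1, 1, 1⟩], []⟩, ⟨[⟨1, 1, 1, 1, 1⟩], [], []⟩, ⟨[], [], [⟨1, 1, 1, 1, 1⟩]⟩⟩, ⟨⟨[],
  [⟨1, 1, 1, 1, 1⟩], []⟩, ⟨[⟨1, 1, 1, 1, 1⟩], [], []⟩, ⟨[], [], [⟨1, 1, 1, 1, 1⟩]⟩⟩, ⟨-1, 1, 1, 1, 1⟩, [],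
  []⟩ 47,
  .call false ⟨⟨⟨[⟨1, 1, 1, 1, 1⟩], [], []⟩, ⟨[], [⟨-1, 1, 1, 1, 1⟩], []⟩, ⟨[], [], [⟨1, 1, 1, 1, 1⟩]⟩⟩, ⟨⟨[⟨1,
  1, 1, 1, 1⟩], [], []⟩, ⟨[], [⟨-1, 1, 1, 1, 1⟩], []⟩, ⟨[], [], [⟨1, 1, 1, 1, 1⟩]⟩⟩, ⟨1, 1, 1, 1, 1⟩, [],
  []⟩ 52,
  .call false ⟨mone, mone, ⟨1, 1, 1, 1, 1⟩, [], []⟩ 65,
  .call false ⟨⟨⟨[⟨1, 1, 1, 1, 1⟩], [], []⟩, ⟨[], [⟨-1, 1, 1, 1, 1⟩], []⟩, ⟨[], [], [⟨1, 1, 1, 1, 1⟩]⟩⟩, ⟨⟨[⟨1,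
  1, 1, 1, 1⟩], [], []⟩, ⟨[], [⟨-1, 1, 1, 1, 1⟩], []⟩, ⟨[], [], [⟨1, 1, 1, 1, 1⟩]⟩⟩, ⟨-1, 1, 1, 1, 1⟩, [],
  []⟩ 66,
  .call false ⟨⟨⟨[], [⟨1, 1, 1, 1, 1⟩], []⟩, ⟨[⟨1, 1, 1, 1, 1⟩], [], []⟩, ⟨[], [], [⟨1, 1, 1, 1, 1⟩]⟩⟩, ⟨⟨[],
  [⟨1, 1, 1, 1, 1⟩], []⟩, ⟨[⟨1, 1, 1, 1, 1⟩], [], []⟩, ⟨[], [], [⟨1, 1, 1, 1, 1⟩]⟩⟩, ⟨-1, 1, 1, 1, 1⟩, [],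
  []⟩ 79,
  .call false ⟨⟨⟨[], [⟨1, 1, 1, 1, 1⟩], []⟩, ⟨[⟨1, 1, 1, 1, 1⟩], [], []⟩, ⟨[], [], [⟨1, 1, 1, 1, 1⟩]⟩⟩, ⟨⟨[],
  [⟨1, 1, 1, 1, 1⟩], []⟩, ⟨[⟨1, 1, 1, 1, 1⟩], [], []⟩, ⟨[], [], [⟨1, 1, 1, 1, 1⟩]⟩⟩, ⟨-1, 1, 1, 1, 1⟩, [],
  []⟩ 75,
  .call false ⟨⟨⟨[], [⟨1, 1, 1, 1, 1⟩], []⟩, ⟨[⟨1, 1, 1, 1, 1⟩], [], []⟩, ⟨[], [], [⟨1, 1, 1, 1, 1⟩]⟩⟩, ⟨⟨[],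
  [⟨1, 1, 1, 1, 1⟩], []⟩, ⟨[⟨1, 1, 1, 1, 1⟩], [], []⟩, ⟨[], [], [⟨1, 1, 1, 1, 1⟩]⟩⟩, ⟨-1, 1, 1, 1, 1⟩, [],
  []⟩ 80,
  .call false ⟨⟨⟨[], [⟨1, 1, 1, 1, 1⟩], []⟩, ⟨[⟨1, 1, 1, 1, 1⟩], [], []⟩, ⟨[], [], [⟨1, 1, 1, 1, 1⟩]⟩⟩, ⟨⟨[],
  [⟨1, 1, 1, 1, 1⟩], []⟩, ⟨[⟨1, 1, 1, 1, 1⟩], [], []⟩, ⟨[], [], [⟨1, 1, 1, 1, 1⟩]⟩⟩, ⟨-1, 1, 1, 1, 1⟩, [],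
  []⟩ 84,
  .call false ⟨⟨⟨[⟨1, 1, 1, 1, 1⟩], [], []⟩, ⟨[], [], [⟨1, 1, 1, 1, 1⟩]⟩, ⟨[], [⟨1, 1, 1, 1, 1⟩], []⟩⟩, ⟨⟨[⟨1,
  1, 1, 1, 1⟩], [], []⟩, ⟨[], [], [⟨1, 1, 1, 1, 1⟩]⟩, ⟨[], [⟨1, 1, 1, 1, 1⟩], []⟩⟩, ⟨-1, 1, 1, 1, 1⟩, [],
  []⟩ 76,
  .call false ⟨mone, mone, ⟨-1, 1, 1, 1, 1⟩, [], []⟩ 72,
  .call false ⟨⟨⟨[], [⟨1, 1, 1, 1, 1⟩], []⟩, ⟨[⟨1, 1, 1, 1, 1⟩], [], []⟩, ⟨[], [], [⟨1, 1, 1, 1, 1⟩]⟩⟩, ⟨⟨[],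
  [⟨1, 1, 1, 1, 1⟩], []⟩, ⟨[⟨1, 1, 1, 1, 1⟩], [], []⟩, ⟨[], [], [⟨1, 1, 1, 1, 1⟩]⟩⟩, ⟨-1, 1, 1, 1, 1⟩, [],
  []⟩ 82,
  .call false ⟨mone, mone, ⟨-1, 1, 1, 1, 1⟩, [], []⟩ 78,
  .call false ⟨⟨⟨[], [⟨1, 1, 1, 1, 1⟩], []⟩, ⟨[⟨1, 1, 1, 1, 1⟩], [], []⟩, ⟨[], [], [⟨1, 1, 1, 1, 1⟩]⟩⟩, ⟨⟨[],
  [⟨1, 1, 1, 1, 1⟩], []⟩, ⟨[⟨1, 1, 1, 1, 1⟩], [], []⟩, ⟨[], [], [⟨1, 1, 1, 1, 1⟩]⟩⟩, ⟨-1, 1, 1, 1, 1⟩, [],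
  []⟩ 68,
  .call false ⟨⟨⟨[⟨1, 1, 1, 1, 1⟩], [], []⟩, ⟨[], [], [⟨1, 1, 1, 1, 1⟩]⟩, ⟨[], [⟨1, 1, 1, 1, 1⟩], []⟩⟩, ⟨⟨[⟨1,
  1, 1, 1, 1⟩], [], []⟩, ⟨[], [], [⟨1, 1, 1, 1, 1⟩]⟩, ⟨[], [⟨1, 1, 1, 1, 1⟩], []⟩⟩, ⟨-1, 1, 1, 1, 1⟩, [],
  []⟩ 71,
  .call false ⟨⟨⟨[⟨1, 1, 1, 1, 1⟩], [], []⟩, ⟨[], [], [⟨1, 1, 1, 1, 1⟩]⟩, ⟨[], [⟨1, 1, 1, 1, 1⟩], []⟩⟩, ⟨⟨[⟨1,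
  1, 1, 1, 1⟩], [], []⟩, ⟨[], [], [⟨1, 1, 1, 1, 1⟩]⟩, ⟨[], [⟨1, 1, 1, 1, 1⟩], []⟩⟩, ⟨-1, 1, 1, 1, 1⟩, [],
  []⟩ 85,
  .call false ⟨mone, mone, ⟨-1, 1, 1, 1, 1⟩, [], []⟩ 74,
  .call false ⟨⟨⟨[], [⟨1, 1, 1, 1, 1⟩], []⟩, ⟨[⟨1, 1, 1, 1, 1⟩], [], []⟩, ⟨[], [], [⟨1, 1, 1, 1, 1⟩]⟩⟩, ⟨⟨[],
  [⟨1, 1, 1, 1, 1⟩], []⟩, ⟨[⟨1, 1, 1, 1, 1⟩], [], []⟩, ⟨[], [], [⟨1, 1, 1, 1, 1⟩]⟩⟩, ⟨-1, 1, 1, 1, 1⟩, [],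
  []⟩ 67,
  .call false ⟨⟨⟨[], [⟨1, 1, 1, 1, 1⟩], []⟩, ⟨[⟨1, 1, 1, 1, 1⟩], [], []⟩, ⟨[], [], [⟨1, 1, 1, 1, 1⟩]⟩⟩, ⟨⟨[],
  [⟨1, 1, 1, 1, 1⟩], []⟩, ⟨[⟨1, 1, 1, 1, 1⟩], [], []⟩, ⟨[], [], [⟨1, 1, 1, 1, 1⟩]⟩⟩, ⟨-1, 1, 1, 1, 1⟩, [],
  []⟩ 69,
  .call false ⟨mone, mone, ⟨-1, 1, 1, 1, 1⟩, [], []⟩ 86,
  .call false ⟨⟨⟨[], [⟨1, 1, 1, 1, 1⟩], []⟩, ⟨[⟨1, 1, 1, 1, 1⟩], [], []⟩, ⟨[], [], [⟨1, 1, 1, 1, 1⟩]⟩⟩, ⟨⟨[],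
  [⟨1, 1, 1, 1, 1⟩], []⟩, ⟨[⟨1, 1, 1, 1, 1⟩], [], []⟩, ⟨[], [], [⟨1, 1, 1, 1, 1⟩]⟩⟩, ⟨-1, 1, 1, 1, 1⟩, [],
  []⟩ 73,
  .call false ⟨⟨⟨[], [⟨1, 1, 1, 1, 1⟩], []⟩, ⟨[⟨1, 1, 1, 1, 1⟩], [], []⟩, ⟨[], [], [⟨1, 1, 1, 1, 1⟩]⟩⟩, ⟨⟨[],
  [⟨1, 1, 1, 1, 1⟩], []⟩, ⟨[⟨1, 1, 1, 1, 1⟩], [], []⟩, ⟨[], [], [⟨1, 1, 1, 1, 1⟩]⟩⟩, ⟨-1, 1, 1, 1, 1⟩, [],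
  []⟩ 87,
  .call false ⟨⟨⟨[], [⟨1, 1, 1, 1, 1⟩], []⟩, ⟨[⟨1, 1, 1, 1, 1⟩], [], []⟩, ⟨[], [], [⟨1, 1, 1, 1, 1⟩]⟩⟩, ⟨⟨[],
  [⟨1, 1, 1, 1, 1⟩], []⟩, ⟨[⟨1, 1, 1, 1, 1⟩], [], []⟩, ⟨[], [], [⟨1, 1, 1, 1, 1⟩]⟩⟩, ⟨-1, 1, 1, 1, 1⟩, [],
  []⟩ 70,
  .call false ⟨⟨⟨[⟨1, 1, 1, 1, 1⟩], [], []⟩, ⟨[], [], [⟨1, 1, 1, 1, 1⟩]⟩, ⟨[], [⟨1, 1, 1, 1, 1⟩], []⟩⟩, ⟨⟨[⟨1,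
  1, 1, 1, 1⟩], [], []⟩, ⟨[], [], [⟨1, 1, 1, 1, 1⟩]⟩, ⟨[], [⟨1, 1, 1, 1, 1⟩], []⟩⟩, ⟨-1, 1, 1, 1, 1⟩, [],
  []⟩ 77,
  .call false ⟨mone, mone, ⟨-1, 1, 1, 1, 1⟩, [], []⟩ 81,
  .call false ⟨⟨⟨[], [⟨1, 1, 1, 1, 1⟩], []⟩, ⟨[⟨1, 1, 1, 1, 1⟩], [], []⟩, ⟨[], [], [⟨1, 1, 1, 1, 1⟩]⟩⟩, ⟨⟨[],
  [⟨1, 1, 1, 1, 1⟩], []⟩, ⟨[⟨1, 1, 1, 1, 1⟩], [], []⟩, ⟨[], [], [⟨1, 1, 1, 1, 1⟩]⟩⟩, ⟨-1, 1, 1, 1, 1⟩, [],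
  []⟩ 83,
  .call false ⟨mone, mone, ⟨1, 1, 1, 1, 1⟩, [(3, [⟨-1, 1, 3, 1, 1⟩])], []⟩ 88,
  .call false ⟨⟨⟨[⟨1, 1, 1, 1, 1⟩], [], []⟩, ⟨[], [⟨-1, 1, 1, 1, 1⟩], []⟩, ⟨[], [], [⟨1, 1, 1, 1, 1⟩]⟩⟩, ⟨⟨[⟨1,
  1, 1, 1, 1⟩], [], []⟩, ⟨[], [⟨-1, 1, 1, 1, 1⟩], []⟩, ⟨[], [], [⟨1, 1, 1, 1, 1⟩]⟩⟩, ⟨-1, 1, 1, 1, 1⟩, [(3,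
  [⟨-1, 1, 3, 1, 1⟩])], []⟩ 89,
  .call false ⟨mone, mone, ⟨1, 1, 1, 1, 1⟩, [], []⟩ 90,
  .call false ⟨⟨⟨[⟨1, 1, 1, 1, 1⟩], [], []⟩, ⟨[], [⟨-1, 1, 1, 1, 1⟩], []⟩, ⟨[], [], [⟨1, 1, 1, 1, 1⟩]⟩⟩, ⟨⟨[⟨1,
  1, 1, 1, 1⟩], [], []⟩, ⟨[], [⟨-1, 1, 1, 1, 1⟩], []⟩, ⟨[], [], [⟨1, 1, 1, 1, 1⟩]⟩⟩, ⟨-1, 1, 1, 1, 1⟩, [],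
  []⟩ 91,
  .split 2 
  (.contra [([⟨1, 1, 1, 1, 1⟩], 2889)]) 
  (.adj 45 [([⟨-1, 1, 1, 1, 2⟩], 2889)] 
  (.call false ⟨mone, mone, ⟨-1, 1, 1, 1, 2⟩, [(2, [⟨1, 1, 1, 1, 2⟩])], []⟩ 92)),
  .split 2 
  (.contra [([⟨1, 1, 1, 1, 1⟩], 2889)]) 
  (.adj 73 [([⟨-1, 1, 1, 1, 2⟩], 2889)] 
  (.call false ⟨mone, mone, ⟨1, 1, 1, 1, 2⟩, [(2, [⟨1, 1, 1, 1, 2⟩])], []⟩ 93)),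
  .call false ⟨mone, mone, ⟨-1, 1, 1, 1, 1⟩, [(2, [⟨-1, 1, 2, 1, 1⟩])], []⟩ 94,
  .call false ⟨mone, mone, ⟨-1, 1, 1, 1, 1⟩, [(2, [⟨-1, 1, 2, 1, 1⟩]), (3, [⟨-1, 1, 3, 1, 1⟩])], []⟩ 95]

theorem iotA_ok : chkAll KA (KA.map St.iota) iotA = true := by decide +kernel

theorem tauA_ok : chkAll KA (KA.map St.tau) tauA = true := by decide +kernel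

theorem iotB_ok : chkAll KN (KN.map St.iota) iotB = true := by decide +kernel

def tB0 : Tree := .zero [([⟨1, 1, 1, 1, 1⟩], 28)] 17 2 
  (.zero [([⟨1, 1, 1, 1, 1⟩], 56)] 59 2 
  (.zero [([⟨1, 1, 1, 1, 1⟩], 392)] 131 2 
  (.split 13 
  (.split 109 
  (.split 89 
  (.split 163 
  (.split 53 
  (.split 157 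
  (.split 127 
  (.split 47 
  (.zero [([⟨1, 1, 1, 1, 1⟩], 468)] 113 2 
  (.zero [([⟨1, 1, 1, 1, 1⟩], 462)] 107 2 
  (.split 103 
  (.split 151 
  (.done) 
  (.act ⟨⟨⟨[⟨1, 1, 1, 1, 151⟩], [], []⟩, ⟨[], [⟨1, 1, 1, 1, 1⟩], []⟩, ⟨[], [], [⟨1, 1, 1, 1, 1⟩]⟩⟩, ⟨⟨[⟨1, 1,
  1, 151, 1⟩], [], []⟩, ⟨[], [⟨1, 1, 1, 1, 1⟩], []⟩, ⟨[], [], [⟨1, 1, 1, 1, 1⟩]⟩⟩, ⟨1, 1, 1, 1, 1⟩, [],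
  []⟩ [] [(151, ⟨1, 1, 1, 1, 1⟩)] [] [] 
  (.call false ⟨mone, mone, ⟨1, 1, 1, 1, 1⟩, [], []⟩ 5))) 
  (.zero [([⟨1, 1, 1, 1, 1⟩], 702)] 151 1 
  (.act ⟨⟨⟨[⟨1, 1, 1, 1, 1⟩], [], []⟩, ⟨[], [⟨1, 1, 1, 103, 1⟩], []⟩, ⟨[], [], [⟨1, 1, 1, 1, 1⟩]⟩⟩, ⟨⟨[⟨1, 1,
  1, 1, 1⟩], [], []⟩, ⟨[], [⟨1, 1, 1, 1, 103⟩], []⟩, ⟨[], [], [⟨1, 1, 1, 1, 1⟩]⟩⟩, ⟨1, 1, 1, 1, 1⟩, [],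
  []⟩ [] [(103, ⟨1, 1, 1, 1, 1⟩)] [] [] 
  (.call false ⟨mone, mone, ⟨1, 1, 1, 1, 1⟩, [], []⟩ 4)))))) 
  (.act ⟨⟨⟨[⟨1, 1, 1, 1, 47⟩], [], []⟩, ⟨[], [⟨1, 1, 1, 1, 1⟩], []⟩, ⟨[], [], [⟨1, 1, 1, 1, 1⟩]⟩⟩, ⟨⟨[⟨1, 1, 1,
  47, 1⟩], [], []⟩, ⟨[], [⟨1, 1, 1, 1, 1⟩], []⟩, ⟨[], [], [⟨1, 1, 1, 1, 1⟩]⟩⟩, ⟨1, 1, 1, 1, 1⟩, [(103, [⟨1, 1,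
  103, 1, 2209⟩]), (107, [⟨1, 1, 107, 1, 47⟩]), (113, [⟨1, 1, 113, 1, 47⟩]), (151, [⟨1, 1, 151, 1, 47⟩])],
  []⟩ [] [(47, ⟨1, 1, 1, 1, 1⟩)] [] [] 
  (.split 107 
  (.split 113 
  (.zero [([⟨1, 1, 1, 1, 1⟩], 703)] 151 1 
  (.act ⟨⟨⟨[⟨1, 1, 1, 1, 1⟩], [⟨1, 1, 103, 1, 1⟩], []⟩, ⟨[], [⟨1, 1, 1, 1, 1⟩], []⟩, ⟨[], [], [⟨1, 1, 1, 1,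
  1⟩]⟩⟩, ⟨⟨[⟨1, 1, 1, 1, 1⟩], [⟨-1, 1, 103, 1, 1⟩], []⟩, ⟨[], [⟨1, 1, 1, 1, 1⟩], []⟩, ⟨[], [], [⟨1, 1, 1, 1,
  1⟩]⟩⟩, ⟨1, 1, 1, 1, 1⟩, [], []⟩ [(103, [])] [] [] [] 
  (.call false ⟨⟨⟨[⟨1, 1, 1, 1, 1⟩], [], []⟩, ⟨[], [], [⟨1, 1, 1, 1, 1⟩]⟩, ⟨[], [⟨1, 1, 1, 1, 1⟩], []⟩⟩, ⟨⟨[⟨1,
  1, 1, 1, 1⟩], [], []⟩, ⟨[], [], [⟨1, 1, 1, 1, 1⟩]⟩, ⟨[], [⟨1, 1, 1, 1, 1⟩], []⟩⟩, ⟨1, 1, 1, 1, 1⟩, [],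
  []⟩ 0))) 
  (.zero [([⟨1, 1, 1, 1, 1⟩], 459)] 103 1 
  (.uelim [([⟨1, 1, 1, 1, 113⟩], 468)] 113 
  (.act ⟨⟨⟨[⟨1, 1, 1, 1, 1⟩], [], []⟩, ⟨[], [⟨1, 1, 1, 1, 1⟩], [⟨-1, 1, 151, 1, 1⟩]⟩, ⟨[], [], [⟨1, 1, 1, 1,
  1⟩]⟩⟩, ⟨⟨[⟨1, 1, 1, 1, 1⟩], [], []⟩, ⟨[], [⟨1, 1, 1, 1, 1⟩], [⟨1, 1, 151, 1, 1⟩]⟩, ⟨[], [], [⟨1, 1, 1, 1,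
  1⟩]⟩⟩, ⟨1, 1, 1, 1, 1⟩, [], []⟩ [(151, [])] [] [] [] 
  (.call false ⟨⟨⟨[], [⟨1, 1, 1, 1, 1⟩], []⟩, ⟨[⟨1, 1, 1, 1, 1⟩], [], []⟩, ⟨[], [], [⟨1, 1, 1, 1, 1⟩]⟩⟩, ⟨⟨[],
  [⟨1, 1, 1, 1, 1⟩], []⟩, ⟨[⟨1, 1, 1, 1, 1⟩], [], []⟩, ⟨[], [], [⟨1, 1, 1, 1, 1⟩]⟩⟩, ⟨1, 1, 1, 1, 1⟩, [],
  []⟩ 1))))) 
  (.uelim [([⟨-1, 1, 1, 1, 107⟩], 462)] 107 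
  (.split 113 
  (.zero [([⟨1, 1, 1, 1, 1⟩], 459)] 103 1 
  (.act ⟨⟨⟨[⟨1, 1, 1, 1, 1⟩], [], []⟩, ⟨[], [⟨1, 1, 1, 1, 1⟩], [⟨1, 1, 151, 1, 1⟩]⟩, ⟨[], [], [⟨1, 1, 1, 1,
  1⟩]⟩⟩, ⟨⟨[⟨1, 1, 1, 1, 1⟩], [], []⟩, ⟨[], [⟨1, 1, 1, 1, 1⟩], [⟨-1, 1, 151, 1, 1⟩]⟩, ⟨[], [], [⟨1, 1, 1, 1,
  1⟩]⟩⟩, ⟨1, 1, 1, 1, 1⟩, [], []⟩ [(151, [])] [] [] [] 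
  (.call false ⟨mone, mone, ⟨1, 1, 1, 1, 1⟩, [], []⟩ 7))) 
  (.zero [([⟨1, 1, 1, 1, 1⟩], 703)] 151 1 
  (.uelim [([⟨1, 1, 1, 1, 113⟩], 468)] 113 
  (.act ⟨⟨⟨[⟨1, 1, 1, 1, 1⟩], [⟨-1, 1, 103, 1, 1⟩], []⟩, ⟨[], [⟨1, 1, 1, 1, 1⟩], []⟩, ⟨[], [], [⟨1, 1, 1, 1,
  1⟩]⟩⟩, ⟨⟨[⟨1, 1, 1, 1, 1⟩], [⟨1, 1, 103, 1, 1⟩], []⟩, ⟨[], [⟨1, 1, 1, 1, 1⟩], []⟩, ⟨[], [], [⟨1, 1, 1, 1,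
  1⟩]⟩⟩, ⟨1, 1, 1, 1, 1⟩, [], []⟩ [(103, [])] [] [] [] 
  (.call false ⟨mone, mone, ⟨1, 1, 1, 1, 1⟩, [], []⟩ 8))))))))) 
  (.zero [([⟨1, 1, 1, 1, 1⟩], 706)] 151 1 
  (.elim [([⟨-1, 1, 1, 1, 127⟩], 471)] 107 
  (.elim [([⟨-1, 1, 1, 1, 127⟩], 468)] 103 
  (.act ⟨⟨⟨[⟨1, 1, 1, 1, 1⟩], [⟨1, 1, 113, 1, 127⟩], []⟩, ⟨[], [⟨1, 1, 1, 1, 1⟩], []⟩, ⟨[], [], [⟨1, 1, 1, 1,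
  1⟩]⟩⟩, ⟨⟨[⟨1, 1, 1, 1, 1⟩], [⟨-1, 1, 113, 1, 127⟩], []⟩, ⟨[], [⟨1, 1, 1, 1, 1⟩], []⟩, ⟨[], [], [⟨1, 1, 1, 1,
  1⟩]⟩⟩, ⟨1, 1, 1, 1, 1⟩, [], []⟩ [(113, [])] [] [] [] 
  (.act ⟨⟨⟨[⟨1, 1, 1, 1, 1⟩], [], []⟩, ⟨[], [⟨1, 1, 1, 1, 127⟩], []⟩, ⟨[], [], [⟨1, 1, 1, 1, 1⟩]⟩⟩, ⟨⟨[⟨1, 1,
  1, 1, 1⟩], [], []⟩, ⟨[], [⟨1, 1, 1, 127, 1⟩], []⟩, ⟨[], [], [⟨1, 1, 1, 1, 1⟩]⟩⟩, ⟨1, 1, 1, 1, 1⟩, [],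
  []⟩ [] [(127, ⟨1, 1, 1, 1, 1⟩)] [] [] 
  (.split 47 
  (.call false ⟨⟨⟨[], [⟨1, 1, 1, 1, 1⟩], []⟩, ⟨[], [], [⟨1, 1, 1, 1, 1⟩]⟩, ⟨[⟨1, 1, 1, 1, 1⟩], [], []⟩⟩, ⟨⟨[],
  [], [⟨1, 1, 1, 1, 1⟩]⟩, ⟨[⟨1, 1, 1, 1, 1⟩], [], []⟩, ⟨[], [⟨1, 1, 1, 1, 1⟩], []⟩⟩, ⟨1, 1, 1, 1, 1⟩, [],
  []⟩ 0) 
  (.act ⟨⟨⟨[⟨1, 1, 1, 1, 47⟩], [], []⟩, ⟨[], [⟨1, 1, 1, 1, 1⟩], []⟩, ⟨[], [], [⟨1, 1, 1, 1, 1⟩]⟩⟩, ⟨⟨[⟨1, 1, 1,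
  47, 1⟩], [], []⟩, ⟨[], [⟨1, 1, 1, 1, 1⟩], []⟩, ⟨[], [], [⟨1, 1, 1, 1, 1⟩]⟩⟩, ⟨1, 1, 1, 1, 1⟩, [],
  []⟩ [] [(47, ⟨1, 1, 1, 1, 1⟩)] [] [] 
  (.call false ⟨mone, mone, ⟨1, 1, 1, 1, 1⟩, [], []⟩ 9))))))))) 
  (.zero [([⟨1, 1, 1, 1, 1⟩], 704)] 47 1 
  (.act ⟨⟨⟨[⟨1, 1, 1, 1, 157⟩], [], []⟩, ⟨[], [⟨1, 1, 1, 1, 1⟩], []⟩, ⟨[], [], [⟨1, 1, 1, 1, 1⟩]⟩⟩, ⟨⟨[⟨1, 1,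
  1, 157, 1⟩], [], []⟩, ⟨[], [⟨1, 1, 1, 1, 1⟩], []⟩, ⟨[], [], [⟨1, 1, 1, 1, 1⟩]⟩⟩, ⟨1, 1, 1, 1, 1⟩, [(103, [⟨1,
  1, 103, 1, 24649⟩]), (107, [⟨1, 1, 107, 1, 157⟩]), (113, [⟨1, 1, 113, 1, 157⟩]), (151, [⟨1, 1, 151, 1,
  157⟩])], []⟩ [] [(157, ⟨1, 1, 1, 1, 1⟩)] [] [] 
  (.split 127 
  (.split 107 
  (.split 113 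
  (.zero [([⟨1, 1, 1, 1, 1⟩], 459)] 103 1 
  (.act ⟨⟨⟨[⟨1, 1, 1, 1, 1⟩], [], []⟩, ⟨[], [⟨1, 1, 1, 1, 1⟩], [⟨-1, 1, 151, 1, 1⟩]⟩, ⟨[], [], [⟨1, 1, 1, 1,
  1⟩]⟩⟩, ⟨⟨[⟨1, 1, 1, 1, 1⟩], [], []⟩, ⟨[], [⟨1, 1, 1, 1, 1⟩], [⟨1, 1, 151, 1, 1⟩]⟩, ⟨[], [], [⟨1, 1, 1, 1,
  1⟩]⟩⟩, ⟨1, 1, 1, 1, 1⟩, [], []⟩ [(151, [])] [] [] [] 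
  (.call false ⟨⟨⟨[⟨1, 1, 1, 1, 1⟩], [], []⟩, ⟨[], [], [⟨1, 1, 1, 1, 1⟩]⟩, ⟨[], [⟨1, 1, 1, 1, 1⟩], []⟩⟩, ⟨⟨[⟨1,
  1, 1, 1, 1⟩], [], []⟩, ⟨[], [], [⟨1, 1, 1, 1, 1⟩]⟩, ⟨[], [⟨1, 1, 1, 1, 1⟩], []⟩⟩, ⟨1, 1, 1, 1, 1⟩, [],
  []⟩ 2))) 
  (.zero [([⟨1, 1, 1, 1, 1⟩], 703)] 151 1 
  (.uelim [([⟨1, 1, 1, 1, 113⟩], 468)] 113 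
  (.act ⟨⟨⟨[⟨1, 1, 1, 1, 1⟩], [⟨1, 1, 103, 1, 1⟩], []⟩, ⟨[], [⟨1, 1, 1, 1, 1⟩], []⟩, ⟨[], [], [⟨1, 1, 1, 1,
  1⟩]⟩⟩, ⟨⟨[⟨1, 1, 1, 1, 1⟩], [⟨-1, 1, 103, 1, 1⟩], []⟩, ⟨[], [⟨1, 1, 1, 1, 1⟩], []⟩, ⟨[], [], [⟨1, 1, 1, 1,
  1⟩]⟩⟩, ⟨1, 1, 1, 1, 1⟩, [], []⟩ [(103, [])] [] [] [] 
  (.call false ⟨⟨⟨[⟨1, 1, 1, 1, 1⟩], [], []⟩, ⟨[], [], [⟨1, 1, 1, 1, 1⟩]⟩, ⟨[], [⟨1, 1, 1, 1, 1⟩], []⟩⟩, ⟨⟨[⟨1,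
  1, 1, 1, 1⟩], [], []⟩, ⟨[], [], [⟨1, 1, 1, 1, 1⟩]⟩, ⟨[], [⟨1, 1, 1, 1, 1⟩], []⟩⟩, ⟨1, 1, 1, 1, 1⟩, [],
  []⟩ 3))))) 
  (.uelim [([⟨-1, 1, 1, 1, 107⟩], 462)] 107 
  (.split 113 
  (.zero [([⟨1, 1, 1, 1, 1⟩], 703)] 151 1 
  (.act ⟨⟨⟨[⟨1, 1, 1, 1, 1⟩], [⟨-1, 1, 103, 1, 1⟩], []⟩, ⟨[], [⟨1, 1, 1, 1, 1⟩], []⟩, ⟨[], [], [⟨1, 1, 1, 1,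
  1⟩]⟩⟩, ⟨⟨[⟨1, 1, 1, 1, 1⟩], [⟨1, 1, 103, 1, 1⟩], []⟩, ⟨[], [⟨1, 1, 1, 1, 1⟩], []⟩, ⟨[], [], [⟨1, 1, 1, 1,
  1⟩]⟩⟩, ⟨1, 1, 1, 1, 1⟩, [], []⟩ [(103, [])] [] [] [] 
  (.call false ⟨mone, mone, ⟨1, 1, 1, 1, 1⟩, [], []⟩ 13))) 
  (.zero [([⟨1, 1, 1, 1, 1⟩], 459)] 103 1 
  (.uelim [([⟨1, 1, 1, 1, 113⟩], 468)] 113 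
  (.act ⟨⟨⟨[⟨1, 1, 1, 1, 1⟩], [], []⟩, ⟨[], [⟨1, 1, 1, 1, 1⟩], [⟨1, 1, 151, 1, 1⟩]⟩, ⟨[], [], [⟨1, 1, 1, 1,
  1⟩]⟩⟩, ⟨⟨[⟨1, 1, 1, 1, 1⟩], [], []⟩, ⟨[], [⟨1, 1, 1, 1, 1⟩], [⟨-1, 1, 151, 1, 1⟩]⟩, ⟨[], [], [⟨1, 1, 1, 1,
  1⟩]⟩⟩, ⟨1, 1, 1, 1, 1⟩, [], []⟩ [(151, [])] [] [] [] 
  (.call false ⟨mone, mone, ⟨1, 1, 1, 1, 1⟩, [], []⟩ 12))))))) 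
  (.zero [([⟨1, 1, 1, 1, 1⟩], 706)] 151 1 
  (.elim [([⟨1, 1, 1, 1, 127⟩], 462)] 103 
  (.elim [([⟨-1, 1, 1, 1, 127⟩], 471)] 107 
  (.act ⟨⟨⟨[⟨1, 1, 1, 1, 1⟩], [⟨1, 1, 113, 1, 127⟩], []⟩, ⟨[], [⟨1, 1, 1, 1, 1⟩], []⟩, ⟨[], [], [⟨1, 1, 1, 1,
  1⟩]⟩⟩, ⟨⟨[⟨1, 1, 1, 1, 1⟩], [⟨-1, 1, 113, 1, 127⟩], []⟩, ⟨[], [⟨1, 1, 1, 1, 1⟩], []⟩, ⟨[], [], [⟨1, 1, 1, 1,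
  1⟩]⟩⟩, ⟨1, 1, 1, 1, 1⟩, [], []⟩ [(113, [])] [] [] [] 
  (.act ⟨⟨⟨[⟨1, 1, 1, 1, 1⟩], [], []⟩, ⟨[], [⟨1, 1, 1, 1, 127⟩], []⟩, ⟨[], [], [⟨1, 1, 1, 1, 1⟩]⟩⟩, ⟨⟨[⟨1, 1,
  1, 1, 1⟩], [], []⟩, ⟨[], [⟨1, 1, 1, 127, 1⟩], []⟩, ⟨[], [], [⟨1, 1, 1, 1, 1⟩]⟩⟩, ⟨1, 1, 1, 1, 1⟩, [],
  []⟩ [] [(127, ⟨1, 1, 1, 1, 1⟩)] [] [] 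
  (.call false ⟨mone, mone, ⟨1, 1, 1, 1, 1⟩, [], []⟩ 11)))))))))) 
  (.zero [([⟨1, 1, 1, 1, 1⟩], 463)] 107 1 
  (.zero [([⟨1, 1, 1, 1, 1⟩], 709)] 157 1 
  (.zero [([⟨1, 1, 1, 1, 1⟩], 460)] 103 1 
  (.elim [([⟨-1, 1, 1, 1, 53⟩], 220)] 127 
  (.elim [([⟨1, 1, 1, 1, 53⟩], 217)] 47 
  (.act ⟨⟨⟨[⟨1, 1, 1, 1, 1⟩], [⟨1, 1, 113, 1, 53⟩], []⟩, ⟨[], [⟨1, 1, 1, 1, 1⟩], []⟩, ⟨[], [], [⟨1, 1, 1, 1,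
  1⟩]⟩⟩, ⟨⟨[⟨1, 1, 1, 1, 1⟩], [⟨-1, 1, 113, 1, 53⟩], []⟩, ⟨[], [⟨1, 1, 1, 1, 1⟩], []⟩, ⟨[], [], [⟨1, 1, 1, 1,
  1⟩]⟩⟩, ⟨1, 1, 1, 1, 1⟩, [], []⟩ [(113, [])] [] [] [] 
  (.act ⟨⟨⟨[⟨1, 1, 1, 1, 1⟩], [], [⟨1, 1, 151, 1, 53⟩]⟩, ⟨[], [⟨1, 1, 1, 1, 1⟩], []⟩, ⟨[], [], [⟨1, 1, 1, 1,
  1⟩]⟩⟩, ⟨⟨[⟨1, 1, 1, 1, 1⟩], [], [⟨-1, 1, 151, 1, 53⟩]⟩, ⟨[], [⟨1, 1, 1, 1, 1⟩], []⟩, ⟨[], [], [⟨1, 1, 1, 1,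
  1⟩]⟩⟩, ⟨1, 1, 1, 1, 1⟩, [], []⟩ [(151, [])] [] [] [] 
  (.act ⟨⟨⟨[⟨1, 1, 1, 1, 1⟩], [], []⟩, ⟨[], [⟨1, 1, 1, 1, 53⟩], []⟩, ⟨[], [], [⟨1, 1, 1, 1, 1⟩]⟩⟩, ⟨⟨[⟨1, 1, 1,
  1, 1⟩], [], []⟩, ⟨[], [⟨1, 1, 1, 53, 1⟩], []⟩, ⟨[], [], [⟨1, 1, 1, 1, 1⟩]⟩⟩, ⟨1, 1, 1, 1, 1⟩, [],
  []⟩ [] [(53, ⟨1, 1, 1, 1, 1⟩)] [] [] 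
  (.call false ⟨mone, mone, ⟨1, 1, 1, 1, 1⟩, [], []⟩ 1)))))))))) 
  (.zero [([⟨1, 1, 1, 1, 1⟩], 472)] 127 1 
  (.zero [([⟨1, 1, 1, 1, 1⟩], 707)] 113 1 
  (.elim [([⟨1, 1, 1, 1, 163⟩], 709)] 107 
  (.elim [([⟨1, 1, 1, 1, 163⟩], 704)] 103 
  (.act ⟨⟨⟨[⟨1, 1, 1, 1, 1⟩], [⟨-1, 1, 157, 1, 163⟩], []⟩, ⟨[], [⟨1, 1, 1, 1, 1⟩], []⟩, ⟨[], [], [⟨1, 1, 1, 1,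
  1⟩]⟩⟩, ⟨⟨[⟨1, 1, 1, 1, 1⟩], [⟨1, 1, 157, 1, 163⟩], []⟩, ⟨[], [⟨1, 1, 1, 1, 1⟩], []⟩, ⟨[], [], [⟨1, 1, 1, 1,
  1⟩]⟩⟩, ⟨1, 1, 1, 1, 1⟩, [(47, [⟨1, 1, 47, 1, 1⟩, ⟨-1, 1, 8321, 1, 163⟩])], []⟩ [(157, [])] [] [] [] 
  (.act ⟨⟨⟨[⟨1, 1, 1, 1, 1⟩], [], []⟩, ⟨[], [⟨1, 1, 1, 1, 163⟩], []⟩, ⟨[], [], [⟨1, 1, 1, 1, 1⟩]⟩⟩, ⟨⟨[⟨1, 1,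
  1, 1, 1⟩], [], []⟩, ⟨[], [⟨1, 1, 1, 163, 1⟩], []⟩, ⟨[], [], [⟨1, 1, 1, 1, 1⟩]⟩⟩, ⟨1, 1, 1, 1, 1⟩, [(53, [⟨1,
  1, 53, 1, 163⟩]), (151, [⟨1, 1, 151, 1, 163⟩])], []⟩ [] [(163, ⟨1, 1, 1, 1, 1⟩)] [] [] 
  (.split 53 
  (.zero [([⟨1, 1, 1, 1, 1⟩], 217)] 47 1 
  (.act ⟨⟨⟨[⟨1, 1, 1, 1, 1⟩], [], [⟨1, 1, 151, 1, 1⟩]⟩, ⟨[], [⟨1, 1, 1, 1, 1⟩], []⟩, ⟨[], [], [⟨1, 1, 1, 1,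
  1⟩]⟩⟩, ⟨⟨[⟨1, 1, 1, 1, 1⟩], [], [⟨-1, 1, 151, 1, 1⟩]⟩, ⟨[], [⟨1, 1, 1, 1, 1⟩], []⟩, ⟨[], [], [⟨1, 1, 1, 1,
  1⟩]⟩⟩, ⟨1, 1, 1, 1, 1⟩, [], []⟩ [(151, [])] [] [] [] 
  (.call false ⟨⟨⟨[], [⟨1, 1, 1, 1, 1⟩], []⟩, ⟨[], [], [⟨1, 1, 1, 1, 1⟩]⟩, ⟨[⟨1, 1, 1, 1, 1⟩], [], []⟩⟩, ⟨⟨[],
  [], [⟨1, 1, 1, 1, 1⟩]⟩, ⟨[⟨1, 1, 1, 1, 1⟩], [], []⟩, ⟨[], [⟨1, 1, 1, 1, 1⟩], []⟩⟩, ⟨1, 1, 1, 1, 1⟩, [],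
  []⟩ 2))) 
  (.zero [([⟨1, 1, 1, 1, 1⟩], 706)] 151 1 
  (.uelim [([⟨1, 1, 1, 1, 53⟩], 220)] 53 
  (.split 47 
  (.call false ⟨⟨⟨[], [⟨1, 1, 1, 1, 1⟩], []⟩, ⟨[], [], [⟨1, 1, 1, 1, 1⟩]⟩, ⟨[⟨1, 1, 1, 1, 1⟩], [], []⟩⟩, ⟨⟨[],
  [], [⟨1, 1, 1, 1, 1⟩]⟩, ⟨[⟨1, 1, 1, 1, 1⟩], [], []⟩, ⟨[], [⟨1, 1, 1, 1, 1⟩], []⟩⟩, ⟨1, 1, 1, 1, 1⟩, [],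
  []⟩ 3) 
  (.act ⟨⟨⟨[⟨1, 1, 1, 1, 47⟩], [], []⟩, ⟨[], [⟨1, 1, 1, 1, 1⟩], []⟩, ⟨[], [], [⟨1, 1, 1, 1, 1⟩]⟩⟩, ⟨⟨[⟨1, 1, 1,
  47, 1⟩], [], []⟩, ⟨[], [⟨1, 1, 1, 1, 1⟩], []⟩, ⟨[], [], [⟨1, 1, 1, 1, 1⟩]⟩⟩, ⟨1, 1, 1, 1, 1⟩, [],
  []⟩ [] [(47, ⟨1, 1, 1, 1, 1⟩)] [] [] 
  (.call false ⟨⟨⟨[⟨1, 1, 1, 1, 1⟩], [⟨1, 1, 1, 1, 1⟩], []⟩, ⟨[⟨1, 1, 1, 1, 1⟩], [], []⟩, ⟨[], [], [⟨1, 1, 1,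
  1, 1⟩]⟩⟩, ⟨⟨[], [⟨1, 1, 1, 1, 1⟩], []⟩, ⟨[⟨1, 1, 1, 1, 1⟩], [⟨-1, 1, 1, 1, 1⟩], []⟩, ⟨[], [], [⟨1, 1, 1, 1,
  1⟩]⟩⟩, ⟨1, 1, 1, 1, 1⟩, [], []⟩ 11))))))))))))) 
  (.zero [([⟨1, 1, 1, 1, 1⟩], 138)] 53 1 
  (.zero [([⟨1, 1, 1, 1, 1⟩], 388)] 127 1 
  (.zero [([⟨1, 1, 1, 1, 1⟩], 470)] 163 1 
  (.zero [([⟨1, 1, 1, 1, 1⟩], 378)] 103 1 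
  (.elim [([⟨1, 1, 1, 1, 89⟩], 381)] 47 
  (.elim [([⟨-1, 1, 1, 1, 89⟩], 468)] 151 
  (.act ⟨⟨⟨[⟨1, 1, 1, 1, 1⟩], [], []⟩, ⟨[], [⟨1, 1, 1, 1, 1⟩], [⟨1, 1, 107, 1, 89⟩]⟩, ⟨[], [], [⟨1, 1, 1, 1,
  1⟩]⟩⟩, ⟨⟨[⟨1, 1, 1, 1, 1⟩], [], []⟩, ⟨[], [⟨1, 1, 1, 1, 1⟩], [⟨-1, 1, 107, 1, 89⟩]⟩, ⟨[], [], [⟨1, 1, 1, 1,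
  1⟩]⟩⟩, ⟨1, 1, 1, 1, 1⟩, [(113, [⟨-1, 1, 107, 1, 1⟩, ⟨1, 1, 113, 1, 1⟩])], []⟩ [(107, [])] [] [] [] 
  (.act ⟨⟨⟨[⟨1, 1, 1, 1, 89⟩], [], []⟩, ⟨[], [⟨1, 1, 1, 1, 1⟩], []⟩, ⟨[], [], [⟨1, 1, 1, 1, 1⟩]⟩⟩, ⟨⟨[⟨1, 1, 1,
  89, 1⟩], [], []⟩, ⟨[], [⟨1, 1, 1, 1, 1⟩], []⟩, ⟨[], [], [⟨1, 1, 1, 1, 1⟩]⟩⟩, ⟨1, 1, 1, 1, 1⟩, [(113, [⟨1, 1,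
  113, 1, 89⟩]), (157, [⟨1, 1, 157, 1, 89⟩])], []⟩ [] [(89, ⟨1, 1, 1, 1, 1⟩)] [] [] 
  (.split 113 
  (.split 157 
  (.call false ⟨mone, mone, ⟨1, 1, 1, 1, 1⟩, [], []⟩ 2) 
  (.act ⟨⟨⟨[⟨1, 1, 1, 1, 157⟩], [], []⟩, ⟨[], [⟨1, 1, 1, 1, 157⟩], []⟩, ⟨[], [], [⟨1, 1, 1, 1, 1⟩]⟩⟩, ⟨⟨[⟨1, 1,
  1, 157, 1⟩], [], []⟩, ⟨[], [⟨1, 1, 1, 157, 1⟩], []⟩, ⟨[], [], [⟨1, 1, 1, 1, 1⟩]⟩⟩, ⟨1, 1, 1, 1, 1⟩, [],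
  []⟩ [] [(157, ⟨1, 1, 1, 1, 1⟩)] [] [] 
  (.call false ⟨mone, mone, ⟨1, 1, 1, 1, 1⟩, [], []⟩ 10))) 
  (.zero [([⟨1, 1, 1, 1, 1⟩], 216)] 157 1 
  (.act ⟨⟨⟨[⟨1, 1, 1, 1, 113⟩], [], []⟩, ⟨[], [⟨1, 1, 1, 1, 113⟩], []⟩, ⟨[], [], [⟨1, 1, 1, 1, 1⟩]⟩⟩, ⟨⟨[⟨1, 1,
  1, 113, 1⟩], [], []⟩, ⟨[], [⟨1, 1, 1, 113, 1⟩], []⟩, ⟨[], [], [⟨1, 1, 1, 1, 1⟩]⟩⟩, ⟨1, 1, 1, 1, 1⟩, [],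
  []⟩ [] [(113, ⟨1, 1, 1, 1, 1⟩)] [] [] 
  (.call false ⟨⟨⟨[⟨1, 1, 1, 1, 1⟩], [], []⟩, ⟨[], [⟨-1, 1, 1, 1, 1⟩], [⟨-1, 1, 1, 1, 1⟩]⟩, ⟨[], [], [⟨1, 1, 1,
  1, 1⟩]⟩⟩, ⟨⟨[⟨1, 1, 1, 1, 1⟩], [], []⟩, ⟨[], [⟨-1, 1, 1, 1, 1⟩], [⟨-1, 1, 1, 1, 1⟩]⟩, ⟨[], [], [⟨1, 1, 1, 1,
  1⟩]⟩⟩, ⟨-1, 1, 1, 1, 1⟩, [], []⟩ 6))))))))))))) 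
  (.zero [([⟨1, 1, 1, 1, 1⟩], 192)] 53 1 
  (.zero [([⟨1, 1, 1, 1, 1⟩], 710)] 163 1 
  (.zero [([⟨1, 1, 1, 1, 1⟩], 474)] 127 1 
  (.zero [([⟨1, 1, 1, 1, 1⟩], 379)] 107 1 
  (.zero [([⟨1, 1, 1, 1, 1⟩], 189)] 47 1 
  (.zero [([⟨1, 1, 1, 1, 1⟩], 460)] 151 1 
  (.elim [([⟨-1, 1, 1, 1, 109⟩], 380)] 89 
  (.elim [([⟨-1, 1, 1, 1, 109⟩], 461)] 113 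
  (.act ⟨⟨⟨[⟨1, 1, 1, 1, 1⟩], [], []⟩, ⟨[], [⟨1, 1, 1, 1, 1⟩], [⟨1, 1, 157, 1, 109⟩]⟩, ⟨[], [], [⟨1, 1, 1, 1,
  1⟩]⟩⟩, ⟨⟨[⟨1, 1, 1, 1, 1⟩], [], []⟩, ⟨[], [⟨1, 1, 1, 1, 1⟩], [⟨-1, 1, 157, 1, 109⟩]⟩, ⟨[], [], [⟨1, 1, 1, 1,
  1⟩]⟩⟩, ⟨1, 1, 1, 1, 1⟩, [], []⟩ [(157, [])] [] [] [] 
  (.act ⟨⟨⟨[⟨1, 1, 1, 1, 1⟩], [], [⟨-1, 1, 103, 1, 109⟩]⟩, ⟨[], [⟨1, 1, 1, 1, 1⟩], []⟩, ⟨[], [], [⟨1, 1, 1, 1,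
  1⟩]⟩⟩, ⟨⟨[⟨1, 1, 1, 1, 1⟩], [], [⟨1, 1, 103, 1, 109⟩]⟩, ⟨[], [⟨1, 1, 1, 1, 1⟩], []⟩, ⟨[], [], [⟨1, 1, 1, 1,
  1⟩]⟩⟩, ⟨1, 1, 1, 1, 1⟩, [], []⟩ [(103, [])] [] [] [] 
  (.act ⟨⟨⟨[⟨1, 1, 1, 1, 109⟩], [], []⟩, ⟨[], [⟨1, 1, 1, 1, 1⟩], []⟩, ⟨[], [], [⟨1, 1, 1, 1, 1⟩]⟩⟩, ⟨⟨[⟨1, 1,
  1, 109, 1⟩], [], []⟩, ⟨[], [⟨1, 1, 1, 1, 1⟩], []⟩, ⟨[], [], [⟨1, 1, 1, 1, 1⟩]⟩⟩, ⟨1, 1, 1, 1, 1⟩, [],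
  []⟩ [] [(109, ⟨1, 1, 1, 1, 1⟩)] [] [] 
  (.call false ⟨mone, mone, ⟨1, 1, 1, 1, 1⟩, [], []⟩ 3))))))))))))) 
  (.zero [([⟨1, 1, 1, 1, 1⟩], 108)] 89 1 
  (.zero [([⟨1, 1, 1, 1, 1⟩], 54)] 53 1 
  (.zero [([⟨1, 1, 1, 1, 1⟩], 135)] 113 1 
  (.zero [([⟨1, 1, 1, 1, 1⟩], 218)] 163 1 
  (.zero [([⟨1, 1, 1, 1, 1⟩], 190)] 127 1 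
  (.elim [([⟨1, 1, 1, 1, 13⟩], 189)] 107 
  (.elim [([⟨1, 1, 1, 1, 13⟩], 216)] 151 
  (.act ⟨⟨⟨[⟨1, 1, 1, 1, 1⟩], [], []⟩, ⟨[], [⟨1, 1, 1, 1, 1⟩], [⟨1, 1, 47, 1, 13⟩]⟩, ⟨[], [], [⟨1, 1, 1, 1,
  1⟩]⟩⟩, ⟨⟨[⟨1, 1, 1, 1, 1⟩], [], []⟩, ⟨[], [⟨1, 1, 1, 1, 1⟩], [⟨-1, 1, 47, 1, 13⟩]⟩, ⟨[], [], [⟨1, 1, 1, 1,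
  1⟩]⟩⟩, ⟨1, 1, 1, 1, 1⟩, [(157, [⟨1, 1, 157, 1, 1⟩, ⟨-1, 1, 5123, 1, 13⟩])], []⟩ [(47, [])] [] [] [] 
  (.act ⟨⟨⟨[⟨1, 1, 1, 1, 13⟩], [], []⟩, ⟨[], [⟨1, 1, 1, 1, 1⟩], []⟩, ⟨[], [], [⟨1, 1, 1, 1, 1⟩]⟩⟩, ⟨⟨[⟨1, 1, 1,
  13, 1⟩], [], []⟩, ⟨[], [⟨1, 1, 1, 1, 1⟩], []⟩, ⟨[], [], [⟨1, 1, 1, 1, 1⟩]⟩⟩, ⟨1, 1, 1, 1, 1⟩, [(103, [⟨1, 1,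
  103, 1, 169⟩]), (109, [⟨1, 1, 109, 1, 13⟩]), (157, [⟨1, 1, 157, 1, 13⟩])], []⟩ [] [(13, ⟨1, 1, 1, 1,
  1⟩)] [] [] 
  (.split 109 
  (.zero [([⟨1, 1, 1, 1, 1⟩], 461)] 157 1 
  (.act ⟨⟨⟨[⟨1, 1, 1, 1, 1⟩], [], [⟨-1, 1, 103, 1, 1⟩]⟩, ⟨[], [⟨1, 1, 1, 1, 1⟩], []⟩, ⟨[], [], [⟨1, 1, 1, 1,
  1⟩]⟩⟩, ⟨⟨[⟨1, 1, 1, 1, 1⟩], [], [⟨1, 1, 103, 1, 1⟩]⟩, ⟨[], [⟨1, 1, 1, 1, 1⟩], []⟩, ⟨[], [], [⟨1, 1, 1, 1,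
  1⟩]⟩⟩, ⟨1, 1, 1, 1, 1⟩, [], []⟩ [(103, [])] [] [] [] 
  (.call false ⟨mone, mone, ⟨1, 1, 1, 1, 1⟩, [], []⟩ 0))) 
  (.zero [([⟨1, 1, 1, 1, 1⟩], 378)] 103 1 
  (.uelim [([⟨1, 1, 1, 1, 109⟩], 380)] 109 
  (.split 157 
  (.call false ⟨⟨⟨[], [], [⟨1, 1, 1, 1, 1⟩]⟩, ⟨[⟨1, 1, 1, 1, 1⟩], [], []⟩, ⟨[], [⟨1, 1, 1, 1, 1⟩], []⟩⟩, ⟨⟨[],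
  [⟨1, 1, 1, 1, 1⟩], []⟩, ⟨[], [], [⟨1, 1, 1, 1, 1⟩]⟩, ⟨[⟨1, 1, 1, 1, 1⟩], [], []⟩⟩, ⟨1, 1, 1, 1, 1⟩, [],
  []⟩ 1) 
  (.act ⟨⟨⟨[⟨1, 1, 1, 1, 157⟩], [], []⟩, ⟨[], [⟨1, 1, 1, 1, 157⟩], []⟩, ⟨[], [], [⟨1, 1, 1, 1, 1⟩]⟩⟩, ⟨⟨[⟨1, 1,
  1, 157, 1⟩], [], []⟩, ⟨[], [⟨1, 1, 1, 157, 1⟩], []⟩, ⟨[], [], [⟨1, 1, 1, 1, 1⟩]⟩⟩, ⟨1, 1, 1, 1, 1⟩, [],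
  []⟩ [] [(157, ⟨1, 1, 1, 1, 1⟩)] [] [] 
  (.call false ⟨⟨⟨[⟨1, 1, 1, 1, 1⟩], [], []⟩, ⟨[], [⟨-1, 1, 1, 1, 1⟩], [⟨1, 1, 1, 1, 1⟩]⟩, ⟨[], [⟨1, 1, 1, 1,
  1⟩], []⟩⟩, ⟨⟨[⟨1, 1, 1, 1, 1⟩], [], []⟩, ⟨[], [], [⟨1, 1, 1, 1, 1⟩]⟩, ⟨[], [⟨1, 1, 1, 1, 1⟩], [⟨1, 1, 1, 1,
  1⟩]⟩⟩, ⟨1, 1, 1, 1, 1⟩, [], []⟩ 6))))))))))))))))))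

theorem okB0 : sB0.seq (check true (LA.take 16) tB0) = true := by decide +kernel

def tA2 : Tree := .split 109 
  (.call true ⟨mone, mone, ⟨1, 1, 1, 1, 1⟩, [(13, []), (17, []), (47, []), (53, []), (59, []), (103, [⟨-1, 1,
  103, 1, 1⟩]), (107, [⟨1, 1, 113, 1, 1⟩]), (109, [⟨1, 1, 137, 1, 1⟩]), (127, []), (131, []), (113, [⟨1, 1,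
  107, 1, 1⟩]), (163, [])], []⟩ 16) 
  (.zero [([⟨1, 1, 1, 1, 1⟩], 379)] 107 1 
  (.elim [([⟨-1, 1, 1, 1, 109⟩], 380)] 89 
  (.elim [([⟨-1, 1, 1, 1, 109⟩], 461)] 113 
  (.act ⟨⟨⟨[⟨1, 1, 1, 1, 109⟩], [], []⟩, ⟨[], [⟨1, 1, 1, 1, 1⟩], []⟩, ⟨[], [], [⟨1, 1, 1, 1, 1⟩]⟩⟩, ⟨⟨[⟨1, 1,
  1, 109, 1⟩], [], []⟩, ⟨[], [⟨1, 1, 1, 1, 1⟩], []⟩, ⟨[], [], [⟨1, 1, 1, 1, 1⟩]⟩⟩, ⟨1, 1, 1, 1, 1⟩, [(103, [⟨1,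
  1, 103, 1, 11881⟩]), (137, [⟨1, 1, 137, 1, 109⟩]), (151, [⟨1, 1, 151, 1, 109⟩]), (157, [⟨1, 1, 157, 1,
  109⟩])], []⟩ [] [(109, ⟨1, 1, 1, 1, 1⟩)] [] [] 
  (.split 137 
  (.call false ⟨mone, mone, ⟨1, 1, 1, 1, 1⟩, [(13, []), (17, []), (47, []), (53, []), (59, []), (89, [⟨1, 1, 1,
  1, 1⟩]), (107, []), (109, [⟨1, 1, 1, 1, 1⟩]), (127, []), (131, []), (113, [⟨1, 1, 157, 1, 1⟩]), (163, [])],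
  []⟩ 16) 
  (.zero [([⟨1, 1, 1, 1, 1⟩], 378)] 103 1 
  (.uelim [([⟨-1, 1, 1, 1, 137⟩], 396)] 137 
  (.act ⟨⟨⟨[⟨1, 1, 1, 1, 1⟩], [], []⟩, ⟨[], [⟨1, 1, 1, 1, 1⟩], [⟨1, 2, 157, 1, 1⟩]⟩, ⟨[], [], [⟨1, 1, 1, 1,
  1⟩]⟩⟩, ⟨⟨[⟨1, 1, 1, 1, 1⟩], [], []⟩, ⟨[], [⟨1, 1, 1, 1, 1⟩], [⟨-1, 2, 157, 1, 1⟩]⟩, ⟨[], [], [⟨1, 1, 1, 1,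
  1⟩]⟩⟩, ⟨1, 1, 1, 1, 1⟩, [(151, [⟨1, 1, 151, 1, 1⟩, ⟨1, 4, 24649, 1, 1⟩])], []⟩ [(157, [])] [] [] [] 
  (.split 151 
  (.call false ⟨⟨⟨[⟨1, 1, 1, 1, 1⟩], [], []⟩, ⟨[], [], [⟨1, 1, 1, 1, 1⟩]⟩, ⟨[], [⟨1, 1, 1, 1, 1⟩], []⟩⟩, ⟨⟨[⟨1,
  1, 1, 1, 1⟩], [], []⟩, ⟨[], [], [⟨1, 1, 1, 1, 1⟩]⟩, ⟨[], [⟨1, 1, 1, 1, 1⟩], []⟩⟩, ⟨1, 1, 1, 1, 1⟩, [(13, []),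
  (17, []), (47, []), (53, []), (59, []), (89, []), (103, []), (107, [⟨1, 1, 1, 1, 1⟩]), (109, []), (127, []),
  (131, []), (113, [⟨1, 1, 1, 1, 1⟩]), (151, []), (157, [⟨1, 1, 1, 1, 1⟩]), (163, [])], []⟩ 16) 
  (.uroot 151 2 
  (.act ⟨⟨⟨[⟨1, 1, 1, 1, 151⟩], [], []⟩, ⟨[], [⟨1, 1, 1, 1, 151⟩], []⟩, ⟨[], [], [⟨1, 1, 1, 1, 1⟩]⟩⟩, ⟨⟨[⟨1, 1,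
  1, 151, 1⟩], [], []⟩, ⟨[], [⟨1, 1, 1, 151, 1⟩], []⟩, ⟨[], [], [⟨1, 1, 1, 1, 1⟩]⟩⟩, ⟨1, 1, 1, 1, 1⟩, [],
  []⟩ [] [(151, ⟨1, 1, 1, 1, 1⟩)] [] [] 
  (.call false ⟨⟨⟨[⟨1, 1, 1, 1, 1⟩], [], []⟩, ⟨[], [⟨1, 1, 1, 1, 1⟩], [⟨1, 1, 1, 1, 1⟩]⟩, ⟨[], [⟨1, 1, 1, 1,
  1⟩], [⟨-1, 1, 1, 1, 1⟩]⟩⟩, ⟨⟨[⟨1, 1, 1, 1, 1⟩], [], []⟩, ⟨[], [⟨1, 2, 1, 1, 1⟩], [⟨1, 2, 1, 1, 1⟩]⟩, ⟨[],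
  [⟨1, 2, 1, 1, 1⟩], [⟨-1, 2, 1, 1, 1⟩]⟩⟩, ⟨1, 1, 1, 1, 1⟩, [], []⟩ 10))))))))))))

theorem okA2 : sA2.seq (check true (LA.take 17) tA2) = true := by decide +kernel

def tA2g : Tree := .split 97 
  (.call false ⟨mone, mone, ⟨1, 1, 1, 1, 1⟩, [], []⟩ 17) 
  (.root 151 3 ⟨-1, 1, 1, 97, 1⟩ [⟨1, 1, 16157, 1, 1⟩, ⟨1, 1, 17063, 1, 1⟩, ⟨-1, 1, 23707, 1, 1⟩, ⟨-1, 1,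
  2029289, 1, 1⟩, ⟨1, 1, 2485309, 1, 1⟩, ⟨1, 1, 3123737, 1, 1⟩] 
  (.call false ⟨⟨⟨[⟨1, 1, 1, 1, 1⟩], [], []⟩, ⟨[], [], [⟨1, 1, 1, 1, 1⟩]⟩, ⟨[], [⟨1, 1, 1, 1, 1⟩], [⟨1, 1, 151,
  1, 1⟩]⟩⟩, ⟨⟨[⟨1, 1, 1, 1, 1⟩], [], []⟩, ⟨[], [⟨-1, 1, 151, 1, 1⟩], [⟨1, 1, 1, 1, 1⟩]⟩, ⟨[], [⟨1, 1, 1, 1,
  1⟩], []⟩⟩, ⟨1, 1, 1, 1, 1⟩, [(89, [⟨1, 1, 157, 1, 1⟩, ⟨-1, 1, 16459, 1, 1⟩, ⟨-1, 1, 20687, 1, 1⟩, ⟨1, 1,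
  22801, 97, 1⟩]), (103, [⟨-1, 1, 103, 1, 1⟩]), (107, [⟨1, 1, 137, 1, 1⟩, ⟨-1, 1, 151, 97, 1⟩]), (109, [⟨1, 1,
  113, 1, 1⟩, ⟨-1, 1, 13439, 1, 1⟩, ⟨1, 1, 20687, 1, 1⟩, ⟨-1, 1, 22801, 97, 1⟩]), (113, [⟨1, 1, 109, 1, 1⟩,
  ⟨-1, 1, 151, 97, 1⟩]), (137, [⟨1, 1, 107, 1, 1⟩, ⟨-1, 1, 13439, 1, 1⟩, ⟨1, 1, 16459, 1, 1⟩, ⟨-1, 1, 22801,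
  97, 1⟩]), (151, [⟨1, 1, 1, 97, 1⟩]), (157, [⟨1, 1, 89, 1, 1⟩, ⟨1, 1, 151, 97, 1⟩])], []⟩ 17))

theorem okA2g : sA2g.seq (check true (LA.take 18) tA2g) = true := by decide +kernel

def tA1b : Tree := .zero [([⟨1, 1, 1, 1, 1⟩], 392)] 131 2 
  (.split 127 
  (.split 163 
  (.call false ⟨mone, mone, ⟨1, 1, 1, 1, 1⟩, [], []⟩ 18) 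
  (.zero [([⟨1, 1, 1, 1, 1⟩], 463)] 107 1 
  (.zero [([⟨1, 1, 1, 1, 1⟩], 479)] 97 1 
  (.zero [([⟨1, 1, 1, 1, 1⟩], 707)] 113 1 
  (.elim [([⟨1, 1, 1, 1, 163⟩], 710)] 109 
  (.zero [([⟨1, 1, 1, 1, 1⟩], 460)] 103 1 
  (.elim [([⟨-1, 1, 1, 1, 163⟩], 464)] 89 
  (.act ⟨⟨⟨[⟨1, 1, 1, 1, 1⟩], [⟨-1, 1, 157, 1, 163⟩], []⟩, ⟨[], [⟨1, 1, 1, 1, 1⟩], []⟩, ⟨[], [], [⟨1, 1, 1, 1,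
  1⟩]⟩⟩, ⟨⟨[⟨1, 1, 1, 1, 1⟩], [⟨1, 1, 157, 1, 163⟩], []⟩, ⟨[], [⟨1, 1, 1, 1, 1⟩], []⟩, ⟨[], [], [⟨1, 1, 1, 1,
  1⟩]⟩⟩, ⟨1, 1, 1, 1, 1⟩, [], []⟩ [(157, [])] [] [] [] 
  (.act ⟨⟨⟨[⟨1, 1, 1, 1, 1⟩], [], [⟨1, 1, 151, 1, 163⟩]⟩, ⟨[], [⟨1, 1, 1, 1, 1⟩], []⟩, ⟨[], [], [⟨1, 1, 1, 1,
  1⟩]⟩⟩, ⟨⟨[⟨1, 1, 1, 1, 1⟩], [], [⟨-1, 1, 151, 1, 163⟩]⟩, ⟨[], [⟨1, 1, 1, 1, 1⟩], []⟩, ⟨[], [], [⟨1, 1, 1, 1,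
  1⟩]⟩⟩, ⟨1, 1, 1, 1, 1⟩, [], []⟩ [(151, [])] [] [] [] 
  (.act ⟨⟨⟨[⟨1, 1, 1, 1, 1⟩], [], []⟩, ⟨[], [⟨1, 1, 1, 1, 163⟩], []⟩, ⟨[], [], [⟨1, 1, 1, 1, 1⟩]⟩⟩, ⟨⟨[⟨1, 1,
  1, 1, 1⟩], [], []⟩, ⟨[], [⟨1, 1, 1, 163, 1⟩], []⟩, ⟨[], [], [⟨1, 1, 1, 1, 1⟩]⟩⟩, ⟨1, 1, 1, 1, 1⟩, [(137, [⟨1,
  1, 137, 163, 1⟩])], []⟩ [] [(163, ⟨1, 1, 1, 1, 1⟩)] [] [] 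
  (.split 137 
  (.call false ⟨mone, mone, ⟨1, 1, 1, 1, 1⟩, [(13, []), (17, []), (47, []), (53, []), (59, []), (89, []), (103,
  []), (107, []), (109, []), (127, []), (131, []), (113, []), (151, []), (157, []), (163, [⟨1, 1, 1, 1, 1⟩])],
  []⟩ 16) 
  (.act ⟨⟨⟨[⟨1, 1, 1, 1, 137⟩], [], []⟩, ⟨[], [⟨1, 1, 1, 1, 1⟩], []⟩, ⟨[], [], [⟨1, 1, 1, 1, 1⟩]⟩⟩, ⟨⟨[⟨1, 1,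
  1, 137, 1⟩], [], []⟩, ⟨[], [⟨1, 1, 1, 1, 1⟩], []⟩, ⟨[], [], [⟨1, 1, 1, 1, 1⟩]⟩⟩, ⟨1, 1, 1, 1, 1⟩, [],
  []⟩ [] [(137, ⟨1, 1, 1, 1, 1⟩)] [] [] 
  (.call false ⟨mone, mone, ⟨1, 1, 1, 1, 1⟩, [], []⟩ 15))))))))))))) 
  (.zero [([⟨1, 1, 1, 1, 1⟩], 355)] 97 1 
  (.zero [([⟨1, 1, 1, 1, 1⟩], 472)] 163 1 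
  (.zero [([⟨1, 1, 1, 1, 1⟩], 480)] 137 1 
  (.call false ⟨mone, mone, ⟨1, 1, 1, 1, 1⟩, [(13, []), (17, []), (47, []), (53, []), (59, []), (127, [⟨1, 1,
  1, 127, 1⟩]), (131, []), (163, [])], []⟩ 16)))))

theorem okA1b : sA1b.seq (check true (LA.take 19) tA1b) = true := by decide +kernel

def tA1 : Tree := .split 101 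
  (.split 149 
  (.zero [([⟨1, 1, 1, 1, 1⟩], 392)] 131 2 
  (.call true ⟨mone, mone, ⟨1, 1, 1, 1, 1⟩, [(103, [⟨-1, 1, 103, 1, 1⟩]), (107, [⟨1, 1, 113, 1, 1⟩]), (109,
  [⟨1, 1, 137, 1, 1⟩]), (127, [⟨-1, 1, 127, 1, 1⟩]), (131, [⟨1, 1, 139, 1, 1⟩]), (113, [⟨1, 1, 107, 1, 1⟩]),
  (137, [⟨1, 1, 109, 1, 1⟩])], []⟩ 19)) 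
  (.zero [([⟨1, 1, 1, 1, 1⟩], 359)] 97 1 
  (.zero [([⟨1, 1, 1, 1, 1⟩], 466)] 151 1 
  (.zero [([⟨1, 1, 1, 1, 1⟩], 484)] 163 1 
  (.elim [([⟨1, 1, 1, 1, 149⟩], 485)] 131 
  (.elim [([⟨-1, 1, 1, 1, 149⟩], 392)] 127 
  (.elim [([⟨1, 1, 1, 1, 149⟩], 389)] 113 
  (.elim [([⟨1, 1, 1, 1, 149⟩], 397)] 107 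
  (.elim [([⟨-1, 1, 1, 1, 149⟩], 483)] 157 
  (.elim [([⟨-1, 1, 1, 1, 149⟩], 380)] 103 
  (.elim [([⟨-1, 1, 1, 1, 149⟩], 398)] 89 
  (.act ⟨⟨⟨[⟨1, 1, 1, 1, 1⟩], [], []⟩, ⟨[], [⟨1, 1, 1, 1, 1⟩], [⟨1, 1, 139, 1, 149⟩]⟩, ⟨[], [], [⟨1, 1, 1, 1,
  1⟩]⟩⟩, ⟨⟨[⟨1, 1, 1, 1, 1⟩], [], []⟩, ⟨[], [⟨1, 1, 1, 1, 1⟩], [⟨-1, 1, 139, 1, 149⟩]⟩, ⟨[], [], [⟨1, 1, 1, 1,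
  1⟩]⟩⟩, ⟨1, 1, 1, 1, 1⟩, [], []⟩ [(139, [])] [] [] [] 
  (.call false ⟨⟨⟨[⟨1, 1, 1, 1, 1⟩], [], []⟩, ⟨[], [], [⟨1, 1, 1, 1, 1⟩]⟩, ⟨[], [⟨1, 1, 1, 1, 1⟩], []⟩⟩, ⟨⟨[⟨1,
  1, 1, 1, 1⟩], [], []⟩, ⟨[], [], [⟨1, 1, 1, 1, 1⟩]⟩, ⟨[], [⟨1, 1, 1, 1, 1⟩], []⟩⟩, ⟨1, 1, 1, 1, 1⟩, [(13, []),
  (17, []), (47, []), (53, []), (59, []), (89, []), (103, [⟨1, 1, 14933, 1, 149⟩]), (107, [⟨1, 1, 137, 1, 1⟩]),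
  (109, []), (127, [⟨-1, 1, 1, 149, 1⟩]), (131, []), (113, [⟨1, 1, 109, 1, 1⟩]), (151, []), (157, [⟨1, 1, 109,
  1, 1⟩, ⟨1, 1, 137, 1, 1⟩]), (163, [])], []⟩ 16))))))))))))) 
  (.zero [([⟨1, 1, 1, 1, 1⟩], 364)] 127 1 
  (.zero [([⟨1, 1, 1, 1, 1⟩], 368)] 149 1 
  (.elim [([⟨-1, 1, 1, 1, 101⟩], 356)] 137 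
  (.elim [([⟨1, 1, 1, 1, 101⟩], 358)] 109 
  (.elim [([⟨1, 1, 1, 1, 101⟩], 365)] 131 
  (.elim [([⟨1, 1, 1, 1, 101⟩], 355)] 107 
  (.zero [([⟨1, 1, 1, 1, 1⟩], 352)] 103 1 
  (.elim [([⟨-1, 1, 1, 1, 101⟩], 382)] 151 
  (.elim [([⟨-1, 1, 1, 1, 101⟩], 392)] 163 
  (.elim [([⟨1, 1, 1, 1, 101⟩], 383)] 113 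
  (.act ⟨⟨⟨[⟨1, 1, 1, 1, 1⟩], [⟨-1, 1, 97, 1, 101⟩], []⟩, ⟨[], [⟨1, 1, 1, 1, 1⟩], []⟩, ⟨[], [], [⟨1, 1, 1, 1,
  1⟩]⟩⟩, ⟨⟨[⟨1, 1, 1, 1, 1⟩], [⟨1, 1, 97, 1, 101⟩], []⟩, ⟨[], [⟨1, 1, 1, 1, 1⟩], []⟩, ⟨[], [], [⟨1, 1, 1, 1,
  1⟩]⟩⟩, ⟨1, 1, 1, 1, 1⟩, [(157, [⟨1, 1, 157, 1, 1⟩, ⟨-1, 1, 1874137, 1, 10201⟩])], []⟩ [(97, [])] [] [] [] 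
  (.act ⟨⟨⟨[⟨1, 1, 1, 1, 1⟩], [], [⟨1, 1, 89, 1, 101⟩]⟩, ⟨[], [⟨1, 1, 1, 1, 1⟩], []⟩, ⟨[], [], [⟨1, 1, 1, 1,
  1⟩]⟩⟩, ⟨⟨[⟨1, 1, 1, 1, 1⟩], [], [⟨-1, 1, 89, 1, 101⟩]⟩, ⟨[], [⟨1, 1, 1, 1, 1⟩], []⟩, ⟨[], [], [⟨1, 1, 1, 1,
  1⟩]⟩⟩, ⟨1, 1, 1, 1, 1⟩, [], []⟩ [(89, [])] [] [] [] 
  (.act ⟨⟨⟨[⟨1, 1, 1, 1, 1⟩], [], []⟩, ⟨[], [⟨1, 1, 1, 1, 1⟩], [⟨1, 1, 139, 1, 101⟩]⟩, ⟨[], [], [⟨1, 1, 1, 1,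
  1⟩]⟩⟩, ⟨⟨[⟨1, 1, 1, 1, 1⟩], [], []⟩, ⟨[], [⟨1, 1, 1, 1, 1⟩], [⟨-1, 1, 139, 1, 101⟩]⟩, ⟨[], [], [⟨1, 1, 1, 1,
  1⟩]⟩⟩, ⟨1, 1, 1, 1, 1⟩, [], []⟩ [(139, [])] [] [] [] 
  (.call false ⟨⟨⟨[⟨1, 1, 1, 1, 1⟩], [], []⟩, ⟨[], [], [⟨1, 1, 1, 1, 1⟩]⟩, ⟨[], [⟨1, 1, 1, 1, 1⟩], []⟩⟩, ⟨⟨[⟨1,
  1, 1, 1, 1⟩], [], []⟩, ⟨[], [], [⟨1, 1, 1, 1, 1⟩]⟩, ⟨[], [⟨1, 1, 1, 1, 1⟩], []⟩⟩, ⟨1, 1, 1, 1, 1⟩, [(89, [⟨1,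
  1, 157, 1, 1⟩]), (97, []), (103, []), (107, []), (109, [⟨1, 1, 157, 1, 1⟩]), (127, []), (131, []), (113, []),
  (137, [⟨1, 1, 157, 1, 1⟩]), (151, []), (157, []), (163, [⟨-1, 1, 1, 101, 1⟩])], []⟩ 19))))))))))))))

theorem okA1 : sA1.seq (check true (LA.take 20) tA1) = true := by decide +kernel

def tRP : Tree := .split 19 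
  (.zero [([⟨1, 1, 1, 1, 1⟩], 28)] 17 2 
  (.zero [([⟨1, 1, 1, 1, 1⟩], 56)] 59 2 
  (.split 13 
  (.split 53 
  (.split 47 
  (.call false ⟨mone, mone, ⟨1, 1, 1, 1, 1⟩, [], []⟩ 20) 
  (.zero [([⟨1, 1, 1, 1, 1⟩], 109)] 101 1 
  (.zero [([⟨1, 1, 1, 1, 1⟩], 108)] 97 1 
  (.zero [([⟨1, 1, 1, 1, 1⟩], 189)] 109 1 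
  (.zero [([⟨1, 1, 1, 1, 1⟩], 191)] 149 1 
  (.zero [([⟨1, 1, 1, 1, 1⟩], 190)] 131 1 
  (.call true ⟨mone, mone, ⟨1, 1, 1, 1, 1⟩, [(13, []), (17, []), (47, [⟨-1, 1, 1, 47, 1⟩]), (53, []), (59, []),
  (103, [⟨-1, 1, 103, 1, 1⟩]), (107, [⟨1, 1, 113, 1, 1⟩]), (109, [⟨1, 1, 137, 1, 1⟩]), (127, [⟨-1, 1, 127, 1,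
  1⟩]), (131, [⟨1, 1, 139, 1, 1⟩]), (113, [⟨1, 1, 107, 1, 1⟩])], []⟩ 16))))))) 
  (.zero [([⟨1, 1, 1, 1, 1⟩], 111)] 97 1 
  (.zero [([⟨1, 1, 1, 1, 1⟩], 192)] 109 1 
  (.zero [([⟨1, 1, 1, 1, 1⟩], 142)] 101 1 
  (.zero [([⟨1, 1, 1, 1, 1⟩], 194)] 149 1 
  (.zero [([⟨1, 1, 1, 1, 1⟩], 193)] 131 1 
  (.zero [([⟨1, 1, 1, 1, 1⟩], 139)] 139 1 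
  (.zero [([⟨1, 1, 1, 1, 1⟩], 218)] 137 1 
  (.call false ⟨mone, mone, ⟨1, 1, 1, 1, 1⟩, [(13, []), (17, []), (53, [⟨1, 1, 1, 53, 1⟩]), (59, []), (109,
  []), (131, [])], []⟩ 16))))))))) 
  (.zero [([⟨1, 1, 1, 1, 1⟩], 110)] 101 1 
  (.zero [([⟨1, 1, 1, 1, 1⟩], 54)] 53 1 
  (.zero [([⟨1, 1, 1, 1, 1⟩], 218)] 163 1 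
  (.elim [([⟨1, 1, 1, 1, 13⟩], 108)] 89 
  (.elim [([⟨1, 1, 1, 1, 13⟩], 189)] 107 
  (.elim [([⟨-1, 1, 1, 1, 13⟩], 191)] 139 
  (.elim [([⟨1, 1, 1, 1, 13⟩], 190)] 127 
  (.elim [([⟨1, 1, 1, 1, 13⟩], 135)] 113 
  (.elim [([⟨1, 1, 1, 1, 13⟩], 216)] 151 
  (.elim [([⟨-1, 1, 1, 1, 13⟩], 137)] 131 
  (.act ⟨⟨⟨[⟨1, 1, 1, 1, 1⟩], [], []⟩, ⟨[], [⟨1, 1, 1, 1, 1⟩], [⟨1, 1, 47, 1, 13⟩]⟩, ⟨[], [], [⟨1, 1, 1, 1,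
  1⟩]⟩⟩, ⟨⟨[⟨1, 1, 1, 1, 1⟩], [], []⟩, ⟨[], [⟨1, 1, 1, 1, 1⟩], [⟨-1, 1, 47, 1, 13⟩]⟩, ⟨[], [], [⟨1, 1, 1, 1,
  1⟩]⟩⟩, ⟨1, 1, 1, 1, 1⟩, [(109, [⟨1, 1, 109, 1, 1⟩, ⟨-1, 1, 4559, 1, 13⟩]), (137, [⟨1, 1, 137, 1, 1⟩, ⟨-1, 1,
  4559, 1, 13⟩]), (157, [⟨1, 1, 157, 1, 1⟩, ⟨-1, 1, 5123, 1, 13⟩, ⟨-1, 1, 6439, 1, 13⟩, ⟨1, 1, 214273, 1,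
  169⟩])], []⟩ [(47, [])] [] [] [] 
  (.call false ⟨⟨⟨[⟨1, 1, 1, 1, 1⟩], [], []⟩, ⟨[], [], [⟨1, 1, 1, 1, 1⟩]⟩, ⟨[], [⟨1, 1, 1, 1, 1⟩], []⟩⟩, ⟨⟨[⟨1,
  1, 1, 1, 1⟩], [], []⟩, ⟨[], [], [⟨1, 1, 1, 1, 1⟩]⟩, ⟨[], [⟨1, 1, 1, 1, 1⟩], []⟩⟩, ⟨1, 1, 1, 1, 1⟩, [(13, []),
  (17, []), (47, [⟨1, 1, 1, 13, 1⟩]), (53, []), (59, []), (89, [⟨1, 1, 157, 1, 1⟩]), (103, [⟨-1, 1, 103, 1,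
  1⟩]), (107, [⟨1, 1, 137, 1, 1⟩]), (109, []), (127, [⟨-1, 1, 149, 1, 1⟩]), (131, []), (113, [⟨1, 1, 109, 1,
  1⟩]), (151, [⟨1, 1, 97, 1, 1⟩]), (157, []), (163, [])], []⟩ 16))))))))))))))) 
  (.elim [([⟨1, 1, 1, 1, 19⟩], 27)] 47 
  (.elim [([⟨1, 1, 1, 1, 19⟩], 28)] 53 
  (.elim [([⟨1, 1, 1, 1, 19⟩], 29)] 17 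
  (.elim [([⟨-1, 1, 1, 1, 19⟩], 111)] 113 
  (.elim [([⟨-1, 1, 1, 1, 19⟩], 113)] 59 
  (.elim [([⟨-1, 1, 1, 1, 19⟩], 192)] 151 
  (.elim [([⟨1, 1, 1, 1, 19⟩], 108)] 103 
  (.elim [([⟨1, 1, 1, 1, 19⟩], 112)] 127 
  (.elim [([⟨-1, 1, 1, 1, 19⟩], 196)] 163 
  (.elim [([⟨-1, 1, 1, 1, 19⟩], 116)] 101 
  (.elim [([⟨1, 1, 1, 1, 19⟩], 114)] 89 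
  (.elim [([⟨-1, 1, 1, 1, 19⟩], 115)] 139 
  (.elim [([⟨1, 1, 1, 1, 19⟩], 195)] 107 
  (.elim [([⟨1, 1, 1, 1, 19⟩], 110)] 109 
  (.elim [([⟨1, 1, 1, 1, 19⟩], 191)] 157 
  (.act ⟨⟨⟨[⟨1, 1, 1, 1, 1⟩], [], []⟩, ⟨[], [⟨1, 1, 1, 1, 1⟩], [⟨1, 1, 131, 1, 19⟩]⟩, ⟨[], [], [⟨1, 1, 1, 1,
  1⟩]⟩⟩, ⟨⟨[⟨1, 1, 1, 1, 1⟩], [], []⟩, ⟨[], [⟨1, 1, 1, 1, 1⟩], [⟨-1, 1, 131, 1, 19⟩]⟩, ⟨[], [], [⟨1, 1, 1, 1,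
  1⟩]⟩⟩, ⟨1, 1, 1, 1, 1⟩, [(137, [⟨1, 1, 137, 1, 1⟩, ⟨-1, 1, 12707, 1, 19⟩])], []⟩ [(131, [])] [] [] [] 
  (.call false ⟨⟨⟨[⟨1, 1, 1, 1, 1⟩], [], []⟩, ⟨[], [], [⟨1, 1, 1, 1, 1⟩]⟩, ⟨[], [⟨1, 1, 1, 1, 1⟩], []⟩⟩, ⟨⟨[⟨1,
  1, 1, 1, 1⟩], [], []⟩, ⟨[], [], [⟨1, 1, 1, 1, 1⟩]⟩, ⟨[], [⟨1, 1, 1, 1, 1⟩], []⟩⟩, ⟨1, 1, 1, 1, 1⟩, [(13, []),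
  (17, []), (47, [⟨1, 1, 13, 1, 1⟩]), (53, [⟨1, 1, 1, 19, 1⟩]), (59, []), (89, []), (103, [⟨1, 1, 1781, 1,
  19⟩]), (107, [⟨1, 1, 137, 1, 1⟩]), (109, []), (127, [⟨-1, 1, 149, 1, 1⟩]), (131, []), (113, [⟨1, 1, 1937, 1,
  19⟩]), (151, [⟨1, 1, 97, 1, 1⟩]), (157, [⟨1, 1, 137, 1, 1⟩]), (163, [⟨-1, 1, 1, 19, 1⟩, ⟨-1, 1, 149, 1,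
  1⟩])], []⟩ 16)))))))))))))))))

theorem okRP : sRP.seq (check true (LA.take 21) tRP) = true := by decide +kernel

end

end Pool.Agent.Lib.MP_4e1a58_mp
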