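import Pool.Agent.Lib.MP_4e1a58_mp.States

/-! Generated certificates. -/

namespace Pool.Agent.Lib.MP_4e1a58_mp

set_option maxRecDepth 100000

noncomputable section

def tS1b : Tree := .zero [([⟨1, 1, 1, 1, 1⟩], 1548)] 7 1 
  (.zero [([⟨1, 1, 1, 1, 1⟩], 1549)] 11 1 
  (.zero [([⟨1, 1, 1, 1, 1⟩], 1575)] 19 1 
  (.zero [([⟨1, 1, 1, 1, 1⟩], 1576)] 31 1 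
  (.zero [([⟨1, 1, 1, 1, 1⟩], 1577)] 43 1 
  (.zero [([⟨1, 1, 1, 1, 1⟩], 1602)] 59 1 
  (.zero [([⟨1, 1, 1, 1, 1⟩], 1605)] 5 1 
  (.zero [([⟨1, 1, 1, 1, 1⟩], 1791)] 37 1 
  (.zero [([⟨1, 1, 1, 1, 1⟩], 1792)] 41 1 
  (.zero [([⟨1, 1, 1, 1, 1⟩], 1818)] 97 1 
  (.zero [([⟨1, 1, 1, 1, 1⟩], 1819)] 101 1 
  (.zero [([⟨1, 1, 1, 1, 1⟩], 1848)] 23 1 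
  (.zero [([⟨1, 1, 1, 1, 1⟩], 1849)] 29 1 
  (.zero [([⟨1, 1, 1, 1, 1⟩], 2034)] 73 1 
  (.zero [([⟨1, 1, 1, 1, 1⟩], 2035)] 79 1 
  (.zero [([⟨1, 1, 1, 1, 1⟩], 2036)] 83 1 
  (.zero [([⟨1, 1, 1, 1, 1⟩], 2061)] 137 1 
  (.zero [([⟨1, 1, 1, 1, 1⟩], 2062)] 139 1 
  (.zero [([⟨1, 1, 1, 1, 1⟩], 2063)] 149 1 
  (.zero [([⟨1, 1, 1, 1, 1⟩], 2091)] 61 1 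
  (.zero [([⟨1, 1, 1, 1, 1⟩], 2092)] 67 1 
  (.zero [([⟨1, 1, 1, 1, 1⟩], 2093)] 71 1 
  (.zero [([⟨1, 1, 1, 1, 1⟩], 28)] 17 2 
  (.zero [([⟨1, 1, 1, 1, 1⟩], 1466)] 179 2 
  (.zero [([⟨1, 1, 1, 1, 1⟩], 1736)] 193 2 
  (.zero [([⟨1, 1, 1, 1, 1⟩], 1462)] 173 2 
  (.zero [([⟨1, 1, 1, 1, 1⟩], 392)] 131 2 
  (.zero [([⟨1, 1, 1, 1, 1⟩], 2520)] 229 1 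
  (.zero [([⟨1, 1, 1, 1, 1⟩], 2547)] 241 1 
  (.zero [([⟨1, 1, 1, 1, 1⟩], 2574)] 263 1 
  (.zero [([⟨1, 1, 1, 1, 1⟩], 2493)] 211 1 
  (.zero [([⟨1, 1, 1, 1, 1⟩], 2323)] 167 1 
  (.zero [([⟨1, 1, 1, 1, 1⟩], 907)] 293 2 
  (.zero [([⟨1, 1, 1, 1, 1⟩], 2721)] 191 2 
  (.zero [([⟨1, 1, 1, 1, 1⟩], 2818)] 281 1 
  (.zero [([⟨1, 1, 1, 1, 1⟩], 2821)] 283 1 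
  (.zero [([⟨1, 1, 1, 1, 1⟩], 813)] 227 2 
  (.zero [([⟨1, 1, 1, 1, 1⟩], 897)] 277 2 
  (.zero [([⟨1, 1, 1, 1, 1⟩], 1177)] 337 2 
  (.zero [([⟨1, 1, 1, 1, 1⟩], 1167)] 313 2 
  (.zero [([⟨1, 1, 1, 1, 1⟩], 1281)] 199 2 
  (.zero [([⟨1, 1, 1, 1, 1⟩], 999)] 181 2 
  (.zero [([⟨1, 1, 1, 1, 1⟩], 957)] 271 2 
  (.elim [([⟨1, 1, 1, 1, 1⟩], 1845)] 13 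
  (.elim [([⟨1, 1, 1, 1, 1⟩], 2089)] 53 
  (.elim [([⟨1, 1, 1, 1, 1⟩], 2088)] 47 
  (.elim [([⟨-1, 1, 1, 1, 1⟩], 2566)] 223 
  (.elim [([⟨-1, 1, 1, 1, 1⟩], 2656)] 373 
  (.elim [([⟨-1, 1, 1, 1, 1⟩], 2655)] 353 
  (.elim [([⟨-1, 1, 1, 1, 1⟩], 2809)] 269 
  (.split 163 
  (.split 127 
  (.zero [([⟨1, 1, 1, 1, 1⟩], 2875)] 331 2 
  (.zero [([⟨-1, 1, 1, 1, 1⟩], 2166), ([⟨1, 1, 1, 1, 1⟩], 2647), ([⟨-1, 1, 1, 1, 1⟩], 1189), ([⟨1, 1, 1, 1,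
  1⟩], 2106)] 317 2 
  (.split 367 
  (.split 197 
  (.zero [([⟨1, 1, 1, 1, 1⟩], 2826)] 109 1 
  (.elim [([⟨-1, 1, 1, 1, 1⟩], 1359)] 257 
  (.elim [([⟨1, 1, 1, 1, 1⟩], 1323)] 233 
  (.elim [([⟨1, 1, 1, 1, 1⟩], 1404)] 307 
  (.elim [([⟨-1, 1, 1, 1, 1⟩], 1440)] 349 
  (.elim [([⟨-1, 1, 1, 1, 1⟩], 2898)] 151 
  (.elim [([⟨1, 1, 1, 1, 1⟩], 2808)] 103 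
  (.elim [([⟨1, 1, 1, 1, 1⟩], 2160)] 347 
  (.elim [([⟨1, 1, 1, 1, 1⟩], 381), ([⟨1, 1, 1, 1, 1⟩], 2081), ([⟨-1, 1, 1, 1, 1⟩], 1837), ([⟨-1, 1, 1, 1, 1⟩],
  1839), ([⟨1, 1, 1, 1, 1⟩], 2053)] 89 
  (.act ⟨⟨⟨[⟨1, 1, 1, 1, 1⟩], [], []⟩, ⟨[], [⟨1, 1, 1, 1, 1⟩], [⟨1, 1, 359, 1, 1⟩]⟩, ⟨[], [], [⟨1, 1, 1, 1,
  1⟩]⟩⟩, ⟨⟨[⟨1, 1, 1, 1, 1⟩], [], []⟩, ⟨[], [⟨1, 1, 1, 1, 1⟩], [⟨-1, 1, 359, 1, 1⟩]⟩, ⟨[], [], [⟨1, 1, 1, 1,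
  1⟩]⟩⟩, ⟨1, 1, 1, 1, 1⟩, [(103, [⟨-1, 1, 251, 1, 1⟩, ⟨1, 1, 26857, 1, 1⟩, ⟨-1, 1, 28363, 1, 1⟩, ⟨1, 1, 39407,
  1, 1⟩, ⟨1, 1, 2433573763, 1, 1⟩, ⟨1, 1, 6697711861, 1, 1⟩]), (107, [⟨1, 1, 107, 1, 1⟩, ⟨1, 1, 85801, 1, 1⟩]),
  (113, [⟨1, 1, 113, 1, 1⟩, ⟨1, 1, 85801, 1, 1⟩]), (311, [⟨1, 1, 311, 1, 1⟩, ⟨-1, 1, 85801, 1, 1⟩]), (347,
  [⟨-2, 1, 1089507919, 1, 1⟩, ⟨-2, 1, 2998557193, 1, 1⟩, ⟨1, 1, 7731442309, 1, 1⟩, ⟨-1, 1, 827264327063, 1, 1⟩,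
  ⟨-1, 1, 1213836442513, 1, 1⟩, ⟨-1, 1, 2404478558099, 1, 1⟩, ⟨-1, 1, 98722786843621, 1, 1⟩, ⟨-2, 1,
  271706077065187, 1, 1⟩, ⟨-1, 1, 747792831568789, 1, 1⟩, ⟨-1, 1, 74960299415659517, 1, 1⟩, ⟨-1, 1,
  206306664763452299, 1, 1⟩])], []⟩ [(359, [])] [] [(45, [⟨1, 1, 103, 1, 1⟩]), (63, [⟨-1, 1, 103, 1,
  1⟩])] [(72, [⟨1, 1, 347, 1, 1⟩])] 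
  (.zero [([⟨1, 1, 1, 1, 1⟩], 2160)] 347 1 
  (.elim [([⟨1, 1, 1, 1, 1⟩], 2808)] 103 
  (.act ⟨⟨⟨[⟨1, 1, 1, 1, 1⟩], [⟨-1, 1, 251, 1, 1⟩], []⟩, ⟨[], [⟨1, 1, 1, 1, 1⟩], []⟩, ⟨[], [], [⟨1, 1, 1, 1,
  1⟩]⟩⟩, ⟨⟨[⟨1, 1, 1, 1, 1⟩], [⟨1, 1, 251, 1, 1⟩], []⟩, ⟨[], [⟨1, 1, 1, 1, 1⟩], []⟩, ⟨[], [], [⟨1, 1, 1, 1,
  1⟩]⟩⟩, ⟨1, 1, 1, 1, 1⟩, [], []⟩ [(251, [])] [] [] [] 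
  (.split 239 
  (.split 107 
  (.split 157 
  (.split 113 
  (.split 311 
  (.call false ⟨⟨⟨[⟨1, 1, 1, 1, 1⟩], [], []⟩, ⟨[], [], [⟨1, 1, 1, 1, 1⟩]⟩, ⟨[], [⟨1, 1, 1, 1, 1⟩], []⟩⟩, ⟨⟨[⟨1,
  1, 1, 1, 1⟩], [], []⟩, ⟨[], [], [⟨1, 1, 1, 1, 1⟩]⟩, ⟨[], [⟨1, 1, 1, 1, 1⟩], []⟩⟩, ⟨1, 1, 1, 1, 1⟩, [],
  []⟩ 36) 
  (.uelim [([⟨-1, 1, 1, 1, 311⟩], 2865)] 311 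
  (.call false ⟨⟨⟨[⟨1, 1, 1, 1, 1⟩], [], []⟩, ⟨[], [], [⟨1, 1, 1, 1, 1⟩]⟩, ⟨[], [⟨1, 1, 1, 1, 1⟩], []⟩⟩, ⟨⟨[⟨1,
  1, 1, 1, 1⟩], [], []⟩, ⟨[], [], [⟨1, 1, 1, 1, 1⟩]⟩, ⟨[], [⟨1, 1, 1, 1, 1⟩], []⟩⟩, ⟨1, 1, 1, 1, 1⟩, [],
  []⟩ 72))) 
  (.uelim [([⟨1, 1, 1, 1, 113⟩], 468)] 113 
  (.split 311 
  (.call false ⟨⟨⟨[], [⟨1, 1, 1, 1, 1⟩], []⟩, ⟨[⟨1, 1, 1, 1, 1⟩], [], []⟩, ⟨[], [], [⟨1, 1, 1, 1, 1⟩]⟩⟩, ⟨⟨[],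
  [⟨1, 1, 1, 1, 1⟩], []⟩, ⟨[⟨1, 1, 1, 1, 1⟩], [], []⟩, ⟨[], [], [⟨1, 1, 1, 1, 1⟩]⟩⟩, ⟨1, 1, 1, 1, 1⟩, [],
  []⟩ 70) 
  (.uelim [([⟨-1, 1, 1, 1, 311⟩], 2865)] 311 
  (.call false ⟨⟨⟨[], [⟨1, 1, 1, 1, 1⟩], []⟩, ⟨[⟨1, 1, 1, 1, 1⟩], [], []⟩, ⟨[], [], [⟨1, 1, 1, 1, 1⟩]⟩⟩, ⟨⟨[],
  [⟨1, 1, 1, 1, 1⟩], []⟩, ⟨[⟨1, 1, 1, 1, 1⟩], [], []⟩, ⟨[], [], [⟨1, 1, 1, 1, 1⟩]⟩⟩, ⟨1, 1, 1, 1, 1⟩, [],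
  []⟩ 69))))) 
  (.uelim [([⟨-1, 1, 1, 1, 157⟩], 216)] 157 
  (.split 113 
  (.split 311 
  (.call false ⟨⟨⟨[⟨1, 1, 1, 1, 1⟩], [], []⟩, ⟨[], [], [⟨1, 1, 1, 1, 1⟩]⟩, ⟨[], [⟨1, 1, 1, 1, 1⟩], []⟩⟩, ⟨⟨[⟨1,
  1, 1, 1, 1⟩], [], []⟩, ⟨[], [], [⟨1, 1, 1, 1, 1⟩]⟩, ⟨[], [⟨1, 1, 1, 1, 1⟩], []⟩⟩, ⟨1, 1, 1, 1, 1⟩, [],
  []⟩ 37) 
  (.uelim [([⟨-1, 1, 1, 1, 311⟩], 2865)] 311 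
  (.call false ⟨⟨⟨[⟨1, 1, 1, 1, 1⟩], [], []⟩, ⟨[], [], [⟨1, 1, 1, 1, 1⟩]⟩, ⟨[], [⟨1, 1, 1, 1, 1⟩], []⟩⟩, ⟨⟨[⟨1,
  1, 1, 1, 1⟩], [], []⟩, ⟨[], [], [⟨1, 1, 1, 1, 1⟩]⟩, ⟨[], [⟨1, 1, 1, 1, 1⟩], []⟩⟩, ⟨1, 1, 1, 1, 1⟩, [],
  []⟩ 65))) 
  (.uelim [([⟨1, 1, 1, 1, 113⟩], 468)] 113 
  (.split 311 
  (.call false ⟨⟨⟨[], [⟨1, 1, 1, 1, 1⟩], []⟩, ⟨[⟨1, 1, 1, 1, 1⟩], [], []⟩, ⟨[], [], [⟨1, 1, 1, 1, 1⟩]⟩⟩, ⟨⟨[],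
  [⟨1, 1, 1, 1, 1⟩], []⟩, ⟨[⟨1, 1, 1, 1, 1⟩], [], []⟩, ⟨[], [], [⟨1, 1, 1, 1, 1⟩]⟩⟩, ⟨-1, 1, 1, 1, 1⟩, [],
  []⟩ 68) 
  (.uelim [([⟨-1, 1, 1, 1, 311⟩], 2865)] 311 
  (.call false ⟨⟨⟨[], [⟨1, 1, 1, 1, 1⟩], []⟩, ⟨[⟨1, 1, 1, 1, 1⟩], [], []⟩, ⟨[], [], [⟨1, 1, 1, 1, 1⟩]⟩⟩, ⟨⟨[],
  [⟨1, 1, 1, 1, 1⟩], []⟩, ⟨[⟨1, 1, 1, 1, 1⟩], [], []⟩, ⟨[], [], [⟨1, 1, 1, 1, 1⟩]⟩⟩, ⟨-1, 1, 1, 1, 1⟩, [],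
  []⟩ 67))))))) 
  (.uelim [([⟨-1, 1, 1, 1, 107⟩], 462)] 107 
  (.elim [([⟨1, 1, 1, 1, 1⟩], 1920)] 113 
  (.split 157 
  (.split 311 
  (.call false ⟨mone, mone, ⟨1, 1, 1, 1, 1⟩, [], []⟩ 56) 
  (.uelim [([⟨1, 1, 1, 1, 311⟩], 468)] 311 
  (.call false ⟨mone, mone, ⟨1, 1, 1, 1, 1⟩, [], []⟩ 86))) 
  (.uelim [([⟨-1, 1, 1, 1, 157⟩], 216)] 157 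
  (.split 311 
  (.call false ⟨mone, mone, ⟨1, 1, 1, 1, 1⟩, [], []⟩ 57) 
  (.uelim [([⟨1, 1, 1, 1, 311⟩], 468)] 311 
  (.call false ⟨mone, mone, ⟨-1, 1, 1, 1, 1⟩, [], []⟩ 74)))))))) 
  (.zero [([⟨1, 1, 1, 1, 1⟩], 864)] 113 1 
  (.zero [([⟨1, 1, 1, 1, 1⟩], 1593)] 157 1 
  (.zero [([⟨1, 1, 1, 1, 1⟩], 1110)] 311 1 
  (.elim [([⟨1, 1, 1, 1, 239⟩], 1839)] 107 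
  (.act ⟨⟨⟨[⟨1, 1, 1, 1, 1⟩], [], []⟩, ⟨[], [⟨1, 1, 1, 239, 1⟩], []⟩, ⟨[], [], [⟨1, 1, 1, 1, 1⟩]⟩⟩, ⟨⟨[⟨1, 1,
  1, 1, 1⟩], [], []⟩, ⟨[], [⟨1, 1, 1, 1, 239⟩], []⟩, ⟨[], [], [⟨1, 1, 1, 1, 1⟩]⟩⟩, ⟨1, 1, 1, 1, 1⟩, [],
  []⟩ [] [(239, ⟨1, 1, 1, 1, 1⟩)] [] [] 
  (.call false ⟨mone, mone, ⟨1, 1, 1, 1, 1⟩, [], []⟩ 85)))))))))))))))))))) 
  (.zero [([⟨1, 1, 1, 1, 1⟩], 2169)] 359 1 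
  (.uelim [([⟨-1, 1, 1, 1, 197⟩], 1998)] 197 
  (.zero [([⟨1, 1, 1, 1, 1⟩], 1083)] 239 2 
  (.zero [([⟨1, 1, 1, 1, 1⟩], 1353)] 257 2 
  (.elim [([⟨-1, 1, 1, 1, 1⟩], 2079)] 251 
  (.elim [([⟨-1, 1, 1, 1, 1⟩], 2160)] 347 
  (.split 109 
  (.split 233 
  (.split 89 
  (.split 107 
  (.zero [([⟨1, 1, 1, 1, 1⟩], 2161)] 349 1 
  (.zero [([⟨1, 1, 1, 1, 1⟩], 1917)] 307 1 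
  (.zero [([⟨1, 1, 1, 1, 1⟩], 2134)] 311 1 
  (.split 157 
  (.split 113 
  (.zero [([⟨1, 1, 1, 1, 1⟩], 703)] 151 1 
  (.act ⟨⟨⟨[⟨1, 1, 1, 1, 1⟩], [⟨1, 1, 103, 1, 1⟩], []⟩, ⟨[], [⟨1, 1, 1, 1, 1⟩], []⟩, ⟨[], [], [⟨1, 1, 1, 1,
  1⟩]⟩⟩, ⟨⟨[⟨1, 1, 1, 1, 1⟩], [⟨-1, 1, 103, 1, 1⟩], []⟩, ⟨[], [⟨1, 1, 1, 1, 1⟩], []⟩, ⟨[], [], [⟨1, 1, 1, 1,
  1⟩]⟩⟩, ⟨1, 1, 1, 1, 1⟩, [], []⟩ [(103, [])] [] [] [] 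
  (.call false ⟨⟨⟨[⟨1, 1, 1, 1, 1⟩], [], []⟩, ⟨[], [], [⟨1, 1, 1, 1, 1⟩]⟩, ⟨[], [⟨1, 1, 1, 1, 1⟩], []⟩⟩, ⟨⟨[⟨1,
  1, 1, 1, 1⟩], [], []⟩, ⟨[], [], [⟨1, 1, 1, 1, 1⟩]⟩, ⟨[], [⟨1, 1, 1, 1, 1⟩], []⟩⟩, ⟨1, 1, 1, 1, 1⟩, [],
  []⟩ 19))) 
  (.zero [([⟨1, 1, 1, 1, 1⟩], 459)] 103 1 
  (.uelim [([⟨1, 1, 1, 1, 113⟩], 468)] 113 
  (.act ⟨⟨⟨[⟨1, 1, 1, 1, 1⟩], [], []⟩, ⟨[], [⟨1, 1, 1, 1, 1⟩], [⟨-1, 1, 151, 1, 1⟩]⟩, ⟨[], [], [⟨1, 1, 1, 1,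
  1⟩]⟩⟩, ⟨⟨[⟨1, 1, 1, 1, 1⟩], [], []⟩, ⟨[], [⟨1, 1, 1, 1, 1⟩], [⟨1, 1, 151, 1, 1⟩]⟩, ⟨[], [], [⟨1, 1, 1, 1,
  1⟩]⟩⟩, ⟨1, 1, 1, 1, 1⟩, [], []⟩ [(151, [])] [] [] [] 
  (.call false ⟨⟨⟨[], [⟨1, 1, 1, 1, 1⟩], []⟩, ⟨[⟨1, 1, 1, 1, 1⟩], [], []⟩, ⟨[], [], [⟨1, 1, 1, 1, 1⟩]⟩⟩, ⟨⟨[],
  [⟨1, 1, 1, 1, 1⟩], []⟩, ⟨[⟨1, 1, 1, 1, 1⟩], [], []⟩, ⟨[], [], [⟨1, 1, 1, 1, 1⟩]⟩⟩, ⟨1, 1, 1, 1, 1⟩, [],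
  []⟩ 22))))) 
  (.uelim [([⟨-1, 1, 1, 1, 157⟩], 704)] 157 
  (.split 113 
  (.zero [([⟨1, 1, 1, 1, 1⟩], 459)] 103 1 
  (.act ⟨⟨⟨[⟨1, 1, 1, 1, 1⟩], [], []⟩, ⟨[], [⟨1, 1, 1, 1, 1⟩], [⟨-1, 1, 151, 1, 1⟩]⟩, ⟨[], [], [⟨1, 1, 1, 1,
  1⟩]⟩⟩, ⟨⟨[⟨1, 1, 1, 1, 1⟩], [], []⟩, ⟨[], [⟨1, 1, 1, 1, 1⟩], [⟨1, 1, 151, 1, 1⟩]⟩, ⟨[], [], [⟨1, 1, 1, 1,
  1⟩]⟩⟩, ⟨1, 1, 1, 1, 1⟩, [], []⟩ [(151, [])] [] [] [] 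
  (.call false ⟨⟨⟨[⟨1, 1, 1, 1, 1⟩], [], []⟩, ⟨[], [], [⟨1, 1, 1, 1, 1⟩]⟩, ⟨[], [⟨1, 1, 1, 1, 1⟩], []⟩⟩, ⟨⟨[⟨1,
  1, 1, 1, 1⟩], [], []⟩, ⟨[], [], [⟨1, 1, 1, 1, 1⟩]⟩, ⟨[], [⟨1, 1, 1, 1, 1⟩], []⟩⟩, ⟨1, 1, 1, 1, 1⟩, [],
  []⟩ 20))) 
  (.zero [([⟨1, 1, 1, 1, 1⟩], 703)] 151 1 
  (.uelim [([⟨1, 1, 1, 1, 113⟩], 468)] 113 
  (.act ⟨⟨⟨[⟨1, 1, 1, 1, 1⟩], [⟨1, 1, 103, 1, 1⟩], []⟩, ⟨[], [⟨1, 1, 1, 1, 1⟩], []⟩, ⟨[], [], [⟨1, 1, 1, 1,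
  1⟩]⟩⟩, ⟨⟨[⟨1, 1, 1, 1, 1⟩], [⟨-1, 1, 103, 1, 1⟩], []⟩, ⟨[], [⟨1, 1, 1, 1, 1⟩], []⟩, ⟨[], [], [⟨1, 1, 1, 1,
  1⟩]⟩⟩, ⟨1, 1, 1, 1, 1⟩, [], []⟩ [(103, [])] [] [] [] 
  (.call false ⟨⟨⟨[⟨1, 1, 1, 1, 1⟩], [], []⟩, ⟨[], [], [⟨1, 1, 1, 1, 1⟩]⟩, ⟨[], [⟨1, 1, 1, 1, 1⟩], []⟩⟩, ⟨⟨[⟨1,
  1, 1, 1, 1⟩], [], []⟩, ⟨[], [], [⟨1, 1, 1, 1, 1⟩]⟩, ⟨[], [⟨1, 1, 1, 1, 1⟩], []⟩⟩, ⟨1, 1, 1, 1, 1⟩, [],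
  []⟩ 21)))))))))) 
  (.uelim [([⟨-1, 1, 1, 1, 107⟩], 462)] 107 
  (.split 157 
  (.split 113 
  (.zero [([⟨1, 1, 1, 1, 1⟩], 459)] 103 1 
  (.elim [([⟨-1, 1, 1, 1, 1⟩], 2163)] 349 
  (.act ⟨⟨⟨[⟨1, 1, 1, 1, 1⟩], [], []⟩, ⟨[], [⟨1, 1, 1, 1, 1⟩], [⟨1, 1, 151, 1, 1⟩]⟩, ⟨[], [], [⟨1, 1, 1, 1,
  1⟩]⟩⟩, ⟨⟨[⟨1, 1, 1, 1, 1⟩], [], []⟩, ⟨[], [⟨1, 1, 1, 1, 1⟩], [⟨-1, 1, 151, 1, 1⟩]⟩, ⟨[], [], [⟨1, 1, 1, 1,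
  1⟩]⟩⟩, ⟨1, 1, 1, 1, 1⟩, [], []⟩ [(151, [])] [] [] [] 
  (.split 311 
  (.zero [([⟨1, 1, 1, 1, 1⟩], 2862)] 307 1 
  (.call false ⟨mone, mone, ⟨1, 1, 1, 1, 1⟩, [], []⟩ 44)) 
  (.uelim [([⟨-1, 1, 1, 1, 311⟩], 2865)] 311 
  (.act ⟨⟨⟨[⟨1, 1, 1, 1, 1⟩], [⟨-1, 1, 307, 1, 1⟩], []⟩, ⟨[], [⟨1, 1, 1, 1, 1⟩], []⟩, ⟨[], [], [⟨1, 1, 1, 1,
  1⟩]⟩⟩, ⟨⟨[⟨1, 1, 1, 1, 1⟩], [⟨1, 1, 307, 1, 1⟩], []⟩, ⟨[], [⟨1, 1, 1, 1, 1⟩], []⟩, ⟨[], [], [⟨1, 1, 1, 1,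
  1⟩]⟩⟩, ⟨1, 1, 1, 1, 1⟩, [], []⟩ [(307, [])] [] [] [] 
  (.call false ⟨mone, mone, ⟨1, 1, 1, 1, 1⟩, [], []⟩ 80))))))) 
  (.zero [([⟨1, 1, 1, 1, 1⟩], 703)] 151 1 
  (.elim [([⟨1, 1, 1, 1, 113⟩], 2133)] 307 
  (.uelim [([⟨1, 1, 1, 1, 113⟩], 468)] 113 
  (.act ⟨⟨⟨[⟨1, 1, 1, 1, 1⟩], [⟨-1, 1, 103, 1, 1⟩], []⟩, ⟨[], [⟨1, 1, 1, 1, 1⟩], []⟩, ⟨[], [], [⟨1, 1, 1, 1,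
  1⟩]⟩⟩, ⟨⟨[⟨1, 1, 1, 1, 1⟩], [⟨1, 1, 103, 1, 1⟩], []⟩, ⟨[], [⟨1, 1, 1, 1, 1⟩], []⟩, ⟨[], [], [⟨1, 1, 1, 1,
  1⟩]⟩⟩, ⟨1, 1, 1, 1, 1⟩, [], []⟩ [(103, [])] [] [] [] 
  (.split 311 
  (.zero [([⟨1, 1, 1, 1, 1⟩], 2892)] 349 1 
  (.call false ⟨mone, mone, ⟨1, 1, 1, 1, 1⟩, [], []⟩ 45)) 
  (.uelim [([⟨-1, 1, 1, 1, 311⟩], 2865)] 311 
  (.act ⟨⟨⟨[⟨1, 1, 1, 1, 1⟩], [], []⟩, ⟨[], [⟨1, 1, 1, 1, 1⟩], [⟨1, 1, 349, 1, 1⟩]⟩, ⟨[], [], [⟨1, 1, 1, 1,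
  1⟩]⟩⟩, ⟨⟨[⟨1, 1, 1, 1, 1⟩], [], []⟩, ⟨[], [⟨1, 1, 1, 1, 1⟩], [⟨-1, 1, 349, 1, 1⟩]⟩, ⟨[], [], [⟨1, 1, 1, 1,
  1⟩]⟩⟩, ⟨1, 1, 1, 1, 1⟩, [], []⟩ [(349, [])] [] [] [] 
  (.call false ⟨mone, mone, ⟨1, 1, 1, 1, 1⟩, [], []⟩ 81))))))))) 
  (.uelim [([⟨-1, 1, 1, 1, 157⟩], 704)] 157 
  (.split 113 
  (.zero [([⟨1, 1, 1, 1, 1⟩], 703)] 151 1 
  (.elim [([⟨-1, 1, 1, 1, 1⟩], 2133)] 307 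
  (.act ⟨⟨⟨[⟨1, 1, 1, 1, 1⟩], [⟨-1, 1, 103, 1, 1⟩], []⟩, ⟨[], [⟨1, 1, 1, 1, 1⟩], []⟩, ⟨[], [], [⟨1, 1, 1, 1,
  1⟩]⟩⟩, ⟨⟨[⟨1, 1, 1, 1, 1⟩], [⟨1, 1, 103, 1, 1⟩], []⟩, ⟨[], [⟨1, 1, 1, 1, 1⟩], []⟩, ⟨[], [], [⟨1, 1, 1, 1,
  1⟩]⟩⟩, ⟨1, 1, 1, 1, 1⟩, [], []⟩ [(103, [])] [] [] [] 
  (.split 311 
  (.zero [([⟨1, 1, 1, 1, 1⟩], 2892)] 349 1 
  (.call false ⟨mone, mone, ⟨1, 1, 1, 1, 1⟩, [], []⟩ 49)) 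
  (.uelim [([⟨-1, 1, 1, 1, 311⟩], 2865)] 311 
  (.act ⟨⟨⟨[⟨1, 1, 1, 1, 1⟩], [], []⟩, ⟨[], [⟨1, 1, 1, 1, 1⟩], [⟨-1, 1, 349, 1, 1⟩]⟩, ⟨[], [], [⟨1, 1, 1, 1,
  1⟩]⟩⟩, ⟨⟨[⟨1, 1, 1, 1, 1⟩], [], []⟩, ⟨[], [⟨1, 1, 1, 1, 1⟩], [⟨1, 1, 349, 1, 1⟩]⟩, ⟨[], [], [⟨1, 1, 1, 1,
  1⟩]⟩⟩, ⟨1, 1, 1, 1, 1⟩, [], []⟩ [(349, [])] [] [] [] 
  (.call false ⟨mone, mone, ⟨1, 1, 1, 1, 1⟩, [], []⟩ 79))))))) 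
  (.zero [([⟨1, 1, 1, 1, 1⟩], 459)] 103 1 
  (.uelim [([⟨1, 1, 1, 1, 113⟩], 468)] 113 
  (.elim [([⟨-1, 1, 1, 1, 1⟩], 2163)] 349 
  (.act ⟨⟨⟨[⟨1, 1, 1, 1, 1⟩], [], []⟩, ⟨[], [⟨1, 1, 1, 1, 1⟩], [⟨1, 1, 151, 1, 1⟩]⟩, ⟨[], [], [⟨1, 1, 1, 1,
  1⟩]⟩⟩, ⟨⟨[⟨1, 1, 1, 1, 1⟩], [], []⟩, ⟨[], [⟨1, 1, 1, 1, 1⟩], [⟨-1, 1, 151, 1, 1⟩]⟩, ⟨[], [], [⟨1, 1, 1, 1,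
  1⟩]⟩⟩, ⟨1, 1, 1, 1, 1⟩, [], []⟩ [(151, [])] [] [] [] 
  (.split 311 
  (.zero [([⟨1, 1, 1, 1, 1⟩], 2862)] 307 1 
  (.call false ⟨mone, mone, ⟨1, 1, 1, 1, 1⟩, [], []⟩ 48)) 
  (.uelim [([⟨-1, 1, 1, 1, 311⟩], 2865)] 311 
  (.act ⟨⟨⟨[⟨1, 1, 1, 1, 1⟩], [⟨1, 1, 307, 1, 1⟩], []⟩, ⟨[], [⟨1, 1, 1, 1, 1⟩], []⟩, ⟨[], [], [⟨1, 1, 1, 1,
  1⟩]⟩⟩, ⟨⟨[⟨1, 1, 1, 1, 1⟩], [⟨-1, 1, 307, 1, 1⟩], []⟩, ⟨[], [⟨1, 1, 1, 1, 1⟩], []⟩, ⟨[], [], [⟨1, 1, 1, 1,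
  1⟩]⟩⟩, ⟨1, 1, 1, 1, 1⟩, [], []⟩ [(307, [])] [] [] [] 
  (.call false ⟨mone, mone, ⟨1, 1, 1, 1, 1⟩, [], []⟩ 78))))))))))))) 
  (.zero [([⟨1, 1, 1, 1, 1⟩], 1918)] 349 1 
  (.zero [([⟨1, 1, 1, 1, 1⟩], 1891)] 311 1 
  (.zero [([⟨1, 1, 1, 1, 1⟩], 378)] 103 1 
  (.zero [([⟨1, 1, 1, 1, 1⟩], 1890)] 307 1 
  (.elim [([⟨1, 1, 1, 1, 89⟩], 462)] 151 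
  (.elim [([⟨-1, 1, 1, 1, 89⟩], 381)] 107 
  (.act ⟨⟨⟨[⟨1, 1, 1, 1, 1⟩], [], []⟩, ⟨[], [⟨1, 1, 1, 1, 1⟩], [⟨1, 1, 113, 1, 89⟩]⟩, ⟨[], [], [⟨1, 1, 1, 1,
  1⟩]⟩⟩, ⟨⟨[⟨1, 1, 1, 1, 1⟩], [], []⟩, ⟨[], [⟨1, 1, 1, 1, 1⟩], [⟨-1, 1, 113, 1, 89⟩]⟩, ⟨[], [], [⟨1, 1, 1, 1,
  1⟩]⟩⟩, ⟨1, 1, 1, 1, 1⟩, [], []⟩ [(113, [])] [] [] [] 
  (.act ⟨⟨⟨[⟨1, 1, 1, 1, 1⟩], [], []⟩, ⟨[], [⟨1, 1, 1, 89, 1⟩], []⟩, ⟨[], [], [⟨1, 1, 1, 1, 1⟩]⟩⟩, ⟨⟨[⟨1, 1, 1,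
  1, 1⟩], [], []⟩, ⟨[], [⟨1, 1, 1, 1, 89⟩], []⟩, ⟨[], [], [⟨1, 1, 1, 1, 1⟩]⟩⟩, ⟨1, 1, 1, 1, 1⟩, [],
  []⟩ [] [(89, ⟨1, 1, 1, 1, 1⟩)] [] [] 
  (.split 157 
  (.call false ⟨mone, mone, ⟨1, 1, 1, 1, 1⟩, [], []⟩ 43) 
  (.uelim [([⟨-1, 1, 1, 1, 157⟩], 216)] 157 
  (.call false ⟨⟨⟨[⟨1, 1, 1, 1, 1⟩], [], []⟩, ⟨[], [], [⟨1, 1, 1, 1, 1⟩]⟩, ⟨[], [⟨1, 1, 1, 1, 1⟩], []⟩⟩, ⟨⟨[⟨1,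
  1, 1, 1, 1⟩], [], []⟩, ⟨[], [], [⟨1, 1, 1, 1, 1⟩]⟩, ⟨[], [⟨1, 1, 1, 1, 1⟩], []⟩⟩, ⟨1, 1, 1, 1, 1⟩, [],
  []⟩ 41)))))))))))) 
  (.zero [([⟨1, 1, 1, 1, 1⟩], 1188)] 349 1 
  (.zero [([⟨1, 1, 1, 1, 1⟩], 1161)] 311 1 
  (.zero [([⟨1, 1, 1, 1, 1⟩], 1809)] 89 1 
  (.zero [([⟨1, 1, 1, 1, 1⟩], 2619)] 113 1 
  (.zero [([⟨1, 1, 1, 1, 1⟩], 2052)] 157 1 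
  (.elim [([⟨1, 1, 1, 1, 233⟩], 1836)] 107 
  (.zero [([⟨1, 1, 1, 1, 1⟩], 459)] 103 1 
  (.elim [([⟨-1, 1, 1, 1, 233⟩], 2862)] 151 
  (.act ⟨⟨⟨[⟨1, 1, 1, 1, 1⟩], [], []⟩, ⟨[], [⟨1, 1, 1, 1, 1⟩], [⟨1, 1, 307, 1, 233⟩]⟩, ⟨[], [], [⟨1, 1, 1, 1,
  1⟩]⟩⟩, ⟨⟨[⟨1, 1, 1, 1, 1⟩], [], []⟩, ⟨[], [⟨1, 1, 1, 1, 1⟩], [⟨-1, 1, 307, 1, 233⟩]⟩, ⟨[], [], [⟨1, 1, 1, 1,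
  1⟩]⟩⟩, ⟨1, 1, 1, 1, 1⟩, [], []⟩ [(307, [])] [] [] [] 
  (.act ⟨⟨⟨[⟨1, 1, 1, 1, 233⟩], [], []⟩, ⟨[], [⟨1, 1, 1, 1, 1⟩], []⟩, ⟨[], [], [⟨1, 1, 1, 1, 1⟩]⟩⟩, ⟨⟨[⟨1, 1,
  1, 233, 1⟩], [], []⟩, ⟨[], [⟨1, 1, 1, 1, 1⟩], []⟩, ⟨[], [], [⟨1, 1, 1, 1, 1⟩]⟩⟩, ⟨1, 1, 1, 233, 1⟩, [],
  []⟩ [] [(233, ⟨1, 1, 1, 1, 1⟩)] [] [] 
  (.call false ⟨mone, mone, ⟨1, 1, 1, 1, 1⟩, [], []⟩ 76)))))))))))) 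
  (.zero [([⟨1, 1, 1, 1, 1⟩], 108)] 89 1 
  (.zero [([⟨1, 1, 1, 1, 1⟩], 135)] 113 1 
  (.zero [([⟨1, 1, 1, 1, 1⟩], 2135)] 311 1 
  (.zero [([⟨1, 1, 1, 1, 1⟩], 2162)] 349 1 
  (.zero [([⟨1, 1, 1, 1, 1⟩], 378)] 103 1 
  (.zero [([⟨1, 1, 1, 1, 1⟩], 1809)] 233 1 
  (.zero [([⟨1, 1, 1, 1, 1⟩], 1890)] 307 1 
  (.elim [([⟨-1, 1, 1, 1, 109⟩], 189)] 107 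
  (.elim [([⟨-1, 1, 1, 1, 109⟩], 704)] 151 
  (.act ⟨⟨⟨[⟨1, 1, 1, 1, 1⟩], [], []⟩, ⟨[], [⟨1, 1, 1, 1, 1⟩], [⟨1, 1, 157, 1, 109⟩]⟩, ⟨[], [], [⟨1, 1, 1, 1,
  1⟩]⟩⟩, ⟨⟨[⟨1, 1, 1, 1, 1⟩], [], []⟩, ⟨[], [⟨1, 1, 1, 1, 1⟩], [⟨-1, 1, 157, 1, 109⟩]⟩, ⟨[], [], [⟨1, 1, 1, 1,
  1⟩]⟩⟩, ⟨1, 1, 1, 1, 1⟩, [], []⟩ [(157, [])] [] [] [] 
  (.act ⟨⟨⟨[⟨1, 1, 1, 1, 1⟩], [], []⟩, ⟨[], [⟨1, 1, 1, 109, 1⟩], []⟩, ⟨[], [], [⟨1, 1, 1, 1, 1⟩]⟩⟩, ⟨⟨[⟨1, 1,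
  1, 1, 1⟩], [], []⟩, ⟨[], [⟨1, 1, 1, 1, 109⟩], []⟩, ⟨[], [], [⟨1, 1, 1, 1, 1⟩]⟩⟩, ⟨1, 1, 1, 1, 1⟩, [],
  []⟩ [] [(109, ⟨1, 1, 1, 1, 1⟩)] [] [] 
  (.call false ⟨mone, mone, ⟨1, 1, 1, 1, 1⟩, [], []⟩ 42)))))))))))))))))))) 
  (.zero [([⟨1, 1, 1, 1, 1⟩], 2658)] 89 1 
  (.zero [([⟨1, 1, 1, 1, 1⟩], 2910)] 109 1 
  (.zero [([⟨1, 1, 1, 1, 1⟩], 1362)] 239 1 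
  (.zero [([⟨1, 1, 1, 1, 1⟩], 2164)] 257 1 
  (.zero [([⟨1, 1, 1, 1, 1⟩], 1189)] 233 1 
  (.zero [([⟨1, 1, 1, 1, 1⟩], 1432)] 251 1 
  (.zero [([⟨1, 1, 1, 1, 1⟩], 1434)] 307 1 
  (.elim [([⟨1, 1, 1, 1, 367⟩], 2170)] 107 
  (.elim [([⟨-1, 1, 1, 1, 367⟩], 2893)] 113 
  (.elim [([⟨1, 1, 1, 1, 367⟩], 1441)] 197 
  (.zero [([⟨1, 1, 1, 1, 1⟩], 1443)] 311 1 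
  (.elim [([⟨1, 1, 1, 1, 367⟩], 2169)] 103 
  (.elim [([⟨-1, 1, 1, 1, 1⟩], 2160)] 347 
  (.elim [([⟨-1, 1, 1, 1, 367⟩], 2901)] 157 
  (.zero [([⟨1, 1, 1, 1, 1⟩], 703)] 151 1 
  (.elim [([⟨-1, 1, 1, 1, 1⟩], 2892)] 349 
  (.act ⟨⟨⟨[⟨1, 1, 1, 1, 1⟩], [⟨-1, 1, 359, 1, 367⟩], []⟩, ⟨[], [⟨1, 1, 1, 1, 1⟩], []⟩, ⟨[], [], [⟨1, 1, 1, 1,
  1⟩]⟩⟩, ⟨⟨[⟨1, 1, 1, 1, 1⟩], [⟨1, 1, 359, 1, 367⟩], []⟩, ⟨[], [⟨1, 1, 1, 1, 1⟩], []⟩, ⟨[], [], [⟨1, 1, 1, 1,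
  1⟩]⟩⟩, ⟨1, 1, 1, 1, 1⟩, [], []⟩ [(359, [])] [] [] [] 
  (.act ⟨⟨⟨[⟨1, 1, 1, 367, 1⟩], [], []⟩, ⟨[], [⟨1, 1, 1, 1, 1⟩], []⟩, ⟨[], [], [⟨1, 1, 1, 1, 1⟩]⟩⟩, ⟨⟨[⟨1, 1,
  1, 1, 367⟩], [], []⟩, ⟨[], [⟨1, 1, 1, 1, 1⟩], []⟩, ⟨[], [], [⟨1, 1, 1, 1, 1⟩]⟩⟩, ⟨1, 1, 1, 1, 367⟩, [],
  []⟩ [] [(367, ⟨1, 1, 1, 1, 1⟩)] [] [] 
  (.call false ⟨mone, mone, ⟨1, 1, 1, 1, 1⟩, [], []⟩ 82)))))))))))))))))))))) 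
  (.zero [([⟨1, 1, 1, 1, 1⟩], 474)] 109 1 
  (.zero [([⟨1, 1, 1, 1, 1⟩], 388)] 89 1 
  (.zero [([⟨1, 1, 1, 1, 1⟩], 2785)] 239 1 
  (.zero [([⟨1, 1, 1, 1, 1⟩], 2782)] 233 1 
  (.zero [([⟨1, 1, 1, 1, 1⟩], 2812)] 257 1 
  (.zero [([⟨1, 1, 1, 1, 1⟩], 706)] 151 1 
  (.zero [([⟨1, 1, 1, 1, 1⟩], 2173)] 367 1 
  (.zero [([⟨1, 1, 1, 1, 1⟩], 2164)] 349 1 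
  (.elim [([⟨1, 1, 1, 1, 127⟩], 1918)] 307 
  (.elim [([⟨1, 1, 1, 1, 16129⟩], 1930)] 197 
  (.elim [([⟨1, 1, 1, 1, 127⟩], 1927)] 317 
  (.elim [([⟨1, 1, 1, 1, 127⟩], 1921)] 311 
  (.elim [([⟨-1, 1, 1, 1, 127⟩], 471)] 107 
  (.elim [([⟨-1, 1, 1, 1, 127⟩], 468)] 103 
  (.elim [([⟨-1, 1, 1, 1, 127⟩], 1405), ([⟨1, 1, 1, 1, 127⟩], 2106)] 251 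
  (.elim [([⟨-2, 1, 1, 1, 127⟩], 1432), ([⟨-1, 1, 1, 1, 1⟩], 2160)] 347 
  (.act ⟨⟨⟨[⟨1, 1, 1, 1, 1⟩], [⟨1, 1, 113, 1, 127⟩], []⟩, ⟨[], [⟨1, 1, 1, 1, 1⟩], []⟩, ⟨[], [], [⟨1, 1, 1, 1,
  1⟩]⟩⟩, ⟨⟨[⟨1, 1, 1, 1, 1⟩], [⟨-1, 1, 113, 1, 127⟩], []⟩, ⟨[], [⟨1, 1, 1, 1, 1⟩], []⟩, ⟨[], [], [⟨1, 1, 1, 1,
  1⟩]⟩⟩, ⟨1, 1, 1, 1, 1⟩, [(347, [⟨1, 1, 40567, 1, 127⟩, ⟨-1, 1, 13427677, 1, 16129⟩])], []⟩ [(113,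
  [])] [] [] [(72, [⟨1, 1, 347, 1, 1⟩])] 
  (.zero [([⟨1, 1, 1, 127, 1⟩], 2160), ([⟨2, 1, 1, 1, 1⟩], 1432)] 347 1 
  (.act ⟨⟨⟨[⟨1, 1, 1, 1, 1⟩], [], []⟩, ⟨[], [⟨1, 1, 1, 1, 127⟩], []⟩, ⟨[], [], [⟨1, 1, 1, 1, 1⟩]⟩⟩, ⟨⟨[⟨1, 1,
  1, 1, 1⟩], [], []⟩, ⟨[], [⟨1, 1, 1, 127, 1⟩], []⟩, ⟨[], [], [⟨1, 1, 1, 1, 1⟩]⟩⟩, ⟨1, 1, 1, 1, 1⟩, [(331, [⟨1,
  1, 331, 1, 127⟩]), (359, [⟨1, 1, 359, 1, 127⟩])], []⟩ [] [(127, ⟨1, 1, 1, 1, 1⟩)] [] [] 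
  (.split 331 
  (.zero [([⟨1, 1, 1, 1, 1⟩], 2169)] 359 1 
  (.split 157 
  (.call false ⟨mone, mone, ⟨1, 1, 1, 1, 1⟩, [], []⟩ 46) 
  (.uelim [([⟨-1, 1, 1, 1, 157⟩], 216)] 157 
  (.call false ⟨mone, mone, ⟨1, 1, 1, 1, 1⟩, [], []⟩ 47)))) 
  (.uelim [([⟨1, 1, 1, 1, 331⟩], 2404)] 331 
  (.elim [([⟨1, 1, 1, 1, 1⟩], 1683)] 157 
  (.act ⟨⟨⟨[⟨1, 1, 1, 1, 1⟩], [], []⟩, ⟨[], [⟨1, 1, 1, 1, 1⟩], [⟨1, 1, 359, 1, 1⟩]⟩, ⟨[], [], [⟨1, 1, 1, 1,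
  1⟩]⟩⟩, ⟨⟨[⟨1, 1, 1, 1, 1⟩], [], []⟩, ⟨[], [⟨1, 1, 1, 1, 1⟩], [⟨-1, 1, 359, 1, 1⟩]⟩, ⟨[], [], [⟨1, 1, 1, 1,
  1⟩]⟩⟩, ⟨1, 1, 1, 1, 1⟩, [], []⟩ [(359, [])] [] [] [] 
  (.call false ⟨mone, mone, ⟨1, 1, 1, 1, 1⟩, [], []⟩ 87))))))))))))))))))))))))) 
  (.zero [([⟨1, 1, 1, 1, 1⟩], 192)] 109 1 
  (.zero [([⟨1, 1, 1, 1, 1⟩], 707)] 113 1 
  (.zero [([⟨1, 1, 1, 1, 1⟩], 472)] 127 1 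
  (.zero [([⟨1, 1, 1, 1, 1⟩], 138)] 89 1 
  (.zero [([⟨1, 1, 1, 1, 1⟩], 2084)] 239 1 
  (.zero [([⟨1, 1, 1, 1, 1⟩], 2700)] 233 1 
  (.zero [([⟨1, 1, 1, 1, 1⟩], 2730)] 257 1 
  (.zero [([⟨1, 1, 1, 1, 1⟩], 706)] 151 1 
  (.zero [([⟨1, 1, 1, 1, 1⟩], 2173)] 367 1 
  (.zero [([⟨1, 1, 1, 1, 1⟩], 2727)] 251 1 
  (.zero [([⟨1, 1, 1, 1, 1⟩], 2174)] 331 1 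
  (.zero [([⟨1, 1, 1, 1, 1⟩], 1683)] 317 1 
  (.zero [([⟨1, 1, 1, 1, 1⟩], 1677)] 311 1 
  (.zero [([⟨1, 1, 1, 1, 1⟩], 2162)] 307 1 
  (.zero [([⟨1, 1, 1, 1, 1⟩], 2164)] 349 1 
  (.zero [([⟨1, 1, 1, 1, 1⟩], 2899)] 359 1 
  (.zero [([⟨1, 1, 1, 1, 1⟩], 2890)] 347 1 
  (.elim [([⟨1, 1, 1, 1, 163⟩], 219)] 107 
  (.elim [([⟨-1, 1, 1, 1, 163⟩], 2736)] 197 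
  (.elim [([⟨1, 1, 1, 1, 163⟩], 704)] 103 
  (.act ⟨⟨⟨[⟨1, 1, 1, 1, 1⟩], [⟨-1, 1, 157, 1, 163⟩], []⟩, ⟨[], [⟨1, 1, 1, 1, 1⟩], []⟩, ⟨[], [], [⟨1, 1, 1, 1,
  1⟩]⟩⟩, ⟨⟨[⟨1, 1, 1, 1, 1⟩], [⟨1, 1, 157, 1, 163⟩], []⟩, ⟨[], [⟨1, 1, 1, 1, 1⟩], []⟩, ⟨[], [], [⟨1, 1, 1, 1,
  1⟩]⟩⟩, ⟨1, 1, 1, 1, 1⟩, [], []⟩ [(157, [])] [] [] [] 
  (.act ⟨⟨⟨[⟨1, 1, 1, 1, 1⟩], [], []⟩, ⟨[], [⟨1, 1, 1, 1, 163⟩], []⟩, ⟨[], [], [⟨1, 1, 1, 1, 1⟩]⟩⟩, ⟨⟨[⟨1, 1,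
  1, 1, 1⟩], [], []⟩, ⟨[], [⟨1, 1, 1, 163, 1⟩], []⟩, ⟨[], [], [⟨1, 1, 1, 1, 1⟩]⟩⟩, ⟨1, 1, 1, 1, 1⟩, [],
  []⟩ [] [(163, ⟨1, 1, 1, 1, 1⟩)] [] [] 
  (.call false ⟨⟨⟨[], [⟨1, 1, 1, 1, 1⟩], []⟩, ⟨[⟨1, 1, 1, 1, 1⟩], [], []⟩, ⟨[], [], [⟨1, 1, 1, 1, 1⟩]⟩⟩, ⟨⟨[],
  [⟨1, 1, 1, 1, 1⟩], []⟩, ⟨[⟨1, 1, 1, 1, 1⟩], [], []⟩, ⟨[], [], [⟨1, 1, 1, 1, 1⟩]⟩⟩, ⟨1, 1, 1, 1, 1⟩, [],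
  []⟩ 52)))))))))))))))))))))))))))))))))))))))))))))))))))))))))))))))))))))))))

theorem okS1b : sS1b.seq (check true (LB.take 97) tS1b) = true := by decide +kernel

def tS1a : Tree := .zero [([⟨1, 1, 1, 1, 1⟩], 1458)] 7 1 
  (.zero [([⟨1, 1, 1, 1, 1⟩], 1459)] 11 1 
  (.zero [([⟨1, 1, 1, 1, 1⟩], 1485)] 19 1 
  (.zero [([⟨1, 1, 1, 1, 1⟩], 1486)] 31 1 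
  (.zero [([⟨1, 1, 1, 1, 1⟩], 1487)] 43 1 
  (.zero [([⟨1, 1, 1, 1, 1⟩], 1512)] 59 1 
  (.zero [([⟨1, 1, 1, 1, 1⟩], 1515)] 5 1 
  (.zero [([⟨1, 1, 1, 1, 1⟩], 1701)] 37 1 
  (.zero [([⟨1, 1, 1, 1, 1⟩], 1702)] 41 1 
  (.zero [([⟨1, 1, 1, 1, 1⟩], 1728)] 97 1 
  (.zero [([⟨1, 1, 1, 1, 1⟩], 1729)] 101 1 
  (.zero [([⟨1, 1, 1, 1, 1⟩], 1758)] 23 1 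
  (.zero [([⟨1, 1, 1, 1, 1⟩], 1759)] 29 1 
  (.zero [([⟨1, 1, 1, 1, 1⟩], 1944)] 73 1 
  (.zero [([⟨1, 1, 1, 1, 1⟩], 1945)] 79 1 
  (.zero [([⟨1, 1, 1, 1, 1⟩], 1946)] 83 1 
  (.zero [([⟨1, 1, 1, 1, 1⟩], 1971)] 137 1 
  (.zero [([⟨1, 1, 1, 1, 1⟩], 1972)] 139 1 
  (.zero [([⟨1, 1, 1, 1, 1⟩], 1973)] 149 1 
  (.zero [([⟨1, 1, 1, 1, 1⟩], 2001)] 61 1 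
  (.zero [([⟨1, 1, 1, 1, 1⟩], 2002)] 67 1 
  (.zero [([⟨1, 1, 1, 1, 1⟩], 2003)] 71 1 
  (.zero [([⟨1, 1, 1, 1, 1⟩], 28)] 17 2 
  (.zero [([⟨1, 1, 1, 1, 1⟩], 1556)] 389 2 
  (.zero [([⟨1, 1, 1, 1, 1⟩], 1826)] 409 2 
  (.zero [([⟨1, 1, 1, 1, 1⟩], 1552)] 383 2 
  (.zero [([⟨1, 1, 1, 1, 1⟩], 392)] 131 2 
  (.zero [([⟨1, 1, 1, 1, 1⟩], 2484)] 223 1 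
  (.zero [([⟨1, 1, 1, 1, 1⟩], 2487)] 227 1 
  (.zero [([⟨1, 1, 1, 1, 1⟩], 2490)] 229 1 
  (.zero [([⟨1, 1, 1, 1, 1⟩], 2350)] 293 1 
  (.zero [([⟨1, 1, 1, 1, 1⟩], 2377)] 337 1 
  (.zero [([⟨1, 1, 1, 1, 1⟩], 2404)] 373 1 
  (.zero [([⟨1, 1, 1, 1, 1⟩], 2493)] 379 1 
  (.zero [([⟨1, 1, 1, 1, 1⟩], 2323)] 431 1 
  (.zero [([⟨1, 1, 1, 1, 1⟩], 1822)] 401 2 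
  (.zero [([⟨1, 1, 1, 1, 1⟩], 897)] 277 2 
  (.zero [([⟨1, 1, 1, 1, 1⟩], 1081)] 397 2 
  (.zero [([⟨1, 1, 1, 1, 1⟩], 1363)] 421 2 
  (.zero [([⟨1, 1, 1, 1, 1⟩], 2799)] 241 1 
  (.zero [([⟨1, 1, 1, 1, 1⟩], 2739)] 283 1 
  (.zero [([⟨1, 1, 1, 1, 1⟩], 1083)] 239 2 
  (.zero [([⟨1, 1, 1, 1, 1⟩], 1167)] 313 2 
  (.zero [([⟨1, 1, 1, 1, 1⟩], 1201)] 331 2 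
  (.zero [([⟨1, 1, 1, 1, 1⟩], 957)] 271 2 
  (.elim [([⟨1, 1, 1, 1, 1⟩], 1755)] 13 
  (.elim [([⟨1, 1, 1, 1, 1⟩], 1999)] 53 
  (.elim [([⟨-1, 1, 1, 1, 1⟩], 2727)] 269 
  (.elim [([⟨-1, 1, 1, 1, 1⟩], 2907)] 353 
  (.elim [([⟨1, 1, 1, 1, 1⟩], 1998)] 47 
  (.elim [([⟨-1, 1, 1, 1, 1⟩], 2736)] 281 
  (.elim [([⟨-1, 1, 1, 1, 1⟩], 2826)] 263 
  (.elim [([⟨-1, 1, 1, 1, 1⟩], 2160)] 347 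
  (.split 109 
  (.split 163 
  (.zero [([⟨1, 1, 1, 1, 1⟩], 2811), ([⟨1, 1, 1, 1, 1⟩], 2082), ([⟨-1, 1, 1, 1, 1⟩], 1359), ([⟨-1, 1, 1, 1,
  1⟩], 2649), ([⟨-1, 1, 1, 1, 1⟩], 1407), ([⟨1, 1, 1, 1, 1⟩], 2080)] 257 1 
  (.zero [([⟨-1, 1, 1, 1, 1⟩], 1189), ([⟨-1, 1, 1, 1, 1⟩], 1353)] 317 2 
  (.split 89 
  (.split 127 
  (.split 233 
  (.split 367 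
  (.split 419 
  (.zero [([⟨1, 1, 1, 1, 1⟩], 2655)] 113 1 
  (.elim [([⟨1, 1, 1, 1, 1⟩], 1440)] 349 
  (.elim [([⟨-1, 1, 1, 1, 1⟩], 1404)] 307 
  (.elim [([⟨1, 1, 1, 1, 1⟩], 2898)] 151 
  (.elim [([⟨-1, 1, 1, 1, 1⟩], 2808)] 103 
  (.act ⟨⟨⟨[⟨1, 1, 1, 1, 1⟩], [⟨1, 1, 251, 1, 1⟩], []⟩, ⟨[], [⟨1, 1, 1, 1, 1⟩], []⟩, ⟨[], [], [⟨1, 1, 1, 1,
  1⟩]⟩⟩, ⟨⟨[⟨1, 1, 1, 1, 1⟩], [⟨-1, 1, 251, 1, 1⟩], []⟩, ⟨[], [⟨1, 1, 1, 1, 1⟩], []⟩, ⟨[], [], [⟨1, 1, 1, 1,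
  1⟩]⟩⟩, ⟨1, 1, 1, 1, 1⟩, [(347, [⟨-2, 1, 28023899, 1, 1⟩, ⟨2, 1, 2998557193, 1, 1⟩])], []⟩ [(251,
  [])] [] [] [(72, [⟨1, 1, 347, 1, 1⟩])] 
  (.zero [([⟨1, 1, 1, 1, 1⟩], 2160)] 347 1 
  (.act ⟨⟨⟨[⟨1, 1, 1, 1, 1⟩], [], []⟩, ⟨[], [⟨1, 1, 1, 1, 1⟩], [⟨-1, 1, 359, 1, 1⟩]⟩, ⟨[], [], [⟨1, 1, 1, 1,
  1⟩]⟩⟩, ⟨⟨[⟨1, 1, 1, 1, 1⟩], [], []⟩, ⟨[], [⟨1, 1, 1, 1, 1⟩], [⟨1, 1, 359, 1, 1⟩]⟩, ⟨[], [], [⟨1, 1, 1, 1,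
  1⟩]⟩⟩, ⟨1, 1, 1, 1, 1⟩, [], []⟩ [(359, [])] [] [] [] 
  (.split 107 
  (.zero [([⟨1, 1, 1, 1, 1⟩], 1920)] 311 1 
  (.split 157 
  (.call false ⟨⟨⟨[⟨1, 1, 1, 1, 1⟩], [], []⟩, ⟨[], [], [⟨1, 1, 1, 1, 1⟩]⟩, ⟨[], [⟨1, 1, 1, 1, 1⟩], []⟩⟩, ⟨⟨[⟨1,
  1, 1, 1, 1⟩], [], []⟩, ⟨[], [], [⟨1, 1, 1, 1, 1⟩]⟩, ⟨[], [⟨1, 1, 1, 1, 1⟩], []⟩⟩, ⟨1, 1, 1, 1, 1⟩, [],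
  []⟩ 17) 
  (.uelim [([⟨-1, 1, 1, 1, 157⟩], 216)] 157 
  (.call false ⟨⟨⟨[⟨1, 1, 1, 1, 1⟩], [], []⟩, ⟨[], [], [⟨1, 1, 1, 1, 1⟩]⟩, ⟨[], [⟨1, 1, 1, 1, 1⟩], []⟩⟩, ⟨⟨[⟨1,
  1, 1, 1, 1⟩], [], []⟩, ⟨[], [], [⟨1, 1, 1, 1, 1⟩]⟩, ⟨[], [⟨1, 1, 1, 1, 1⟩], []⟩⟩, ⟨1, 1, 1, 1, 1⟩, [],
  []⟩ 18)))) 
  (.uelim [([⟨-1, 1, 1, 1, 107⟩], 462)] 107 
  (.split 157 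
  (.split 311 
  (.call false ⟨mone, mone, ⟨1, 1, 1, 1, 1⟩, [], []⟩ 50) 
  (.uelim [([⟨-1, 1, 1, 1, 311⟩], 2865)] 311 
  (.call false ⟨mone, mone, ⟨1, 1, 1, 1, 1⟩, [], []⟩ 84))) 
  (.uelim [([⟨-1, 1, 1, 1, 157⟩], 216)] 157 
  (.split 311 
  (.call false ⟨mone, mone, ⟨1, 1, 1, 1, 1⟩, [], []⟩ 51) 
  (.uelim [([⟨-1, 1, 1, 1, 311⟩], 2865)] 311 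
  (.call false ⟨mone, mone, ⟨1, 1, 1, 1, 1⟩, [], []⟩ 75))))))))))))))) 
  (.call false ⟨mone, mone, ⟨1, 1, 1, 1, 419⟩, [(5, []), (7, []), (11, []), (13, []), (17, []), (19, []), (29,
  []), (31, []), (43, []), (47, [⟨1, 1, 1, 1, 419⟩, ⟨-1, 1, 157, 1, 419⟩]), (53, []), (59, []), (67, []), (71,
  []), (83, []), (23, []), (37, []), (41, []), (89, []), (97, []), (101, []), (103, [⟨1, 1, 103, 1, 419⟩]),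
  (107, [⟨1, 1, 107, 1, 419⟩]), (109, []), (127, []), (131, []), (149, []), (61, []), (73, []), (79, []), (113,
  [⟨1, 1, 113, 1, 419⟩]), (137, []), (139, []), (151, [⟨1, 1, 151, 1, 419⟩]), (157, [⟨1, 1, 157, 1, 419⟩]),
  (163, []), (167, []), (173, []), (179, []), (181, []), (191, []), (193, []), (197, [⟨1, 1, 1, 1, 419⟩]),
  (199, []), (211, []), (223, []), (227, []), (229, []), (233, []), (239, []), (241, []), (251, [⟨1, 1, 251, 1,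
  419⟩]), (257, []), (263, []), (269, []), (271, []), (277, []), (281, []), (283, []), (293, []), (307, [⟨1, 1,
  307, 1, 419⟩]), (311, [⟨1, 1, 311, 1, 419⟩]), (313, []), (317, []), (331, []), (337, []), (347, [⟨1, 1,
  35947, 1, 419⟩, ⟨1, 1, 46357, 1, 419⟩, ⟨-1, 1, 90109, 1, 419⟩]), (349, [⟨1, 1, 349, 1, 419⟩]), (353, []),
  (359, [⟨1, 1, 359, 1, 419⟩]), (367, []), (373, [])], []⟩ 97)) 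
  (.zero [([⟨1, 1, 1, 1, 1⟩], 1443)] 311 1 
  (.zero [([⟨1, 1, 1, 1, 1⟩], 1434)] 307 1 
  (.zero [([⟨1, 1, 1, 1, 1⟩], 1432)] 251 1 
  (.zero [([⟨1, 1, 1, 1, 1⟩], 2893)] 113 1 
  (.elim [([⟨-1, 1, 1, 1, 367⟩], 1441)] 419 
  (.call false ⟨mone, mone, ⟨1, 1, 1, 1, 1⟩, [(5, []), (7, []), (11, []), (13, []), (17, []), (19, []), (29,
  []), (31, []), (43, []), (47, [⟨1, 1, 1, 1, 1⟩, ⟨-1, 1, 157, 1, 1⟩]), (53, []), (59, []), (67, []), (71, []),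
  (83, []), (23, []), (37, []), (41, []), (89, []), (97, []), (101, []), (109, []), (127, []), (131, []), (149,
  []), (61, []), (73, []), (79, []), (113, []), (137, []), (139, []), (163, []), (167, []), (173, []), (179,
  []), (181, []), (191, []), (193, []), (197, [⟨1, 1, 1, 1, 1⟩]), (199, []), (211, []), (223, []), (227, []),
  (229, []), (233, []), (239, []), (241, []), (251, []), (257, []), (263, []), (269, []), (271, []), (277, []),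
  (281, []), (283, []), (293, []), (307, []), (311, []), (313, []), (317, []), (331, []), (337, []), (347, [⟨1,
  1, 35947, 1, 1⟩]), (353, []), (367, [⟨1, 1, 1, 367, 1⟩]), (373, [])], []⟩ 97))))))) 
  (.zero [([⟨1, 1, 1, 1, 1⟩], 1161)] 311 1 
  (.zero [([⟨1, 1, 1, 1, 1⟩], 1353)] 367 1 
  (.zero [([⟨1, 1, 1, 1, 1⟩], 1350)] 359 1 
  (.zero [([⟨1, 1, 1, 1, 1⟩], 1188)] 349 1 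
  (.zero [([⟨1, 1, 1, 1, 1⟩], 2619)] 113 1 
  (.zero [([⟨1, 1, 1, 1, 1⟩], 2052)] 157 1 
  (.elim [([⟨1, 1, 1, 1, 233⟩], 1323)] 419 
  (.call false ⟨mone, mone, ⟨1, 1, 1, 1, 1⟩, [(5, []), (7, []), (11, []), (13, []), (17, []), (19, []), (29,
  []), (31, []), (43, []), (47, [⟨1, 1, 1, 1, 1⟩]), (53, []), (59, []), (67, []), (71, []), (83, []), (23, []),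
  (37, []), (41, []), (89, []), (97, []), (101, []), (109, []), (127, []), (131, []), (149, []), (61, []), (73,
  []), (79, []), (113, []), (137, []), (139, []), (157, []), (163, []), (167, []), (173, []), (179, []), (181,
  []), (191, []), (193, []), (197, [⟨1, 1, 1, 1, 1⟩]), (199, []), (211, []), (223, []), (227, []), (229, []),
  (233, [⟨1, 1, 1, 233, 1⟩]), (239, []), (241, []), (257, []), (263, []), (269, []), (271, []), (277, []),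
  (281, []), (283, []), (293, []), (311, []), (313, []), (317, []), (331, []), (337, []), (347, [⟨1, 1, 46357,
  1, 1⟩]), (349, []), (353, []), (359, []), (367, []), (373, [])], []⟩ 97))))))))) 
  (.zero [([⟨1, 1, 1, 1, 1⟩], 2782)] 233 1 
  (.zero [([⟨1, 1, 1, 1, 1⟩], 1921)] 311 1 
  (.zero [([⟨1, 1, 1, 1, 1⟩], 706)] 151 1 
  (.zero [([⟨1, 1, 1, 1, 1⟩], 2173)] 367 1 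
  (.zero [([⟨1, 1, 1, 1, 1⟩], 2164)] 349 1 
  (.zero [([⟨1, 1, 1, 1, 1⟩], 2899)] 359 1 
  (.zero [([⟨1, 1, 1, 1, 1⟩], 2647)] 251 1 
  (.zero [([⟨1, 1, 1, 1, 1⟩], 1918)] 307 1 
  (.elim [([⟨1, 1, 1, 1, 127⟩], 2656)] 419 
  (.call false ⟨mone, mone, ⟨1, 1, 1, 1, 1⟩, [(5, []), (7, []), (11, []), (13, []), (17, []), (19, []), (29,
  []), (31, []), (43, []), (47, [⟨1, 1, 1, 1, 1⟩, ⟨-1, 1, 157, 1, 1⟩]), (53, []), (59, []), (67, []), (71, []),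
  (83, []), (23, []), (37, []), (41, []), (89, []), (97, []), (101, []), (109, []), (127, [⟨1, 1, 1, 127, 1⟩]),
  (131, []), (149, []), (61, []), (73, []), (79, []), (137, []), (139, []), (151, []), (163, []), (167, []),
  (173, []), (179, []), (181, []), (191, []), (193, []), (197, [⟨1, 1, 1, 1, 1⟩]), (199, []), (211, []), (223,
  []), (227, []), (229, []), (233, []), (239, []), (241, []), (251, []), (257, []), (263, []), (269, []), (271,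
  []), (277, []), (281, []), (283, []), (293, []), (307, []), (311, []), (313, []), (317, []), (331, []), (337,
  []), (347, []), (349, []), (353, []), (359, []), (367, []), (373, [])], []⟩ 97))))))))))) 
  (.zero [([⟨1, 1, 1, 1, 1⟩], 388)] 127 1 
  (.zero [([⟨1, 1, 1, 1, 1⟩], 2658)] 367 1 
  (.zero [([⟨1, 1, 1, 1, 1⟩], 378)] 103 1 
  (.zero [([⟨1, 1, 1, 1, 1⟩], 1809)] 233 1 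
  (.zero [([⟨1, 1, 1, 1, 1⟩], 1891)] 311 1 
  (.zero [([⟨1, 1, 1, 1, 1⟩], 2565)] 251 1 
  (.zero [([⟨1, 1, 1, 1, 1⟩], 1890)] 307 1 
  (.zero [([⟨1, 1, 1, 1, 1⟩], 2647)] 359 1 
  (.zero [([⟨1, 1, 1, 1, 1⟩], 1918)] 349 1 
  (.elim [([⟨-1, 1, 1, 1, 89⟩], 2566)] 419 
  (.call false ⟨mone, mone, ⟨1, 1, 1, 1, 1⟩, [(5, []), (7, []), (11, []), (13, []), (17, []), (19, []), (29,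
  []), (31, []), (43, []), (47, [⟨1, 1, 1, 1, 1⟩, ⟨-1, 1, 157, 1, 1⟩]), (53, []), (59, []), (67, []), (71, []),
  (83, []), (23, []), (37, []), (41, []), (89, [⟨1, 1, 1, 89, 1⟩]), (97, []), (101, []), (103, []), (109, []),
  (127, []), (131, []), (149, []), (61, []), (73, []), (79, []), (137, []), (139, []), (163, []), (167, []),
  (173, []), (179, []), (181, []), (191, []), (193, []), (197, [⟨1, 1, 1, 1, 1⟩]), (199, []), (211, []), (223,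
  []), (227, []), (229, []), (233, []), (239, []), (241, []), (251, []), (257, []), (263, []), (269, []), (271,
  []), (277, []), (281, []), (283, []), (293, []), (307, []), (311, []), (313, []), (317, []), (331, []), (337,
  []), (347, []), (349, []), (353, []), (359, []), (367, []), (373, [])], []⟩ 97)))))))))))))) 
  (.zero [([⟨1, 1, 1, 1, 1⟩], 2700)] 233 1 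
  (.zero [([⟨1, 1, 1, 1, 1⟩], 707)] 113 1 
  (.zero [([⟨1, 1, 1, 1, 1⟩], 472)] 127 1 
  (.zero [([⟨1, 1, 1, 1, 1⟩], 138)] 89 1 
  (.zero [([⟨1, 1, 1, 1, 1⟩], 2874)] 311 1 
  (.zero [([⟨1, 1, 1, 1, 1⟩], 2730)] 257 1 
  (.zero [([⟨1, 1, 1, 1, 1⟩], 706)] 151 1 
  (.zero [([⟨1, 1, 1, 1, 1⟩], 2173)] 367 1 
  (.zero [([⟨1, 1, 1, 1, 1⟩], 2893)] 349 1 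
  (.elim [([⟨1, 1, 1, 1, 163⟩], 219)] 107 
  (.elim [([⟨-1, 1, 1, 1, 163⟩], 1674)] 307 
  (.elim [([⟨-1, 1, 1, 1, 163⟩], 2171)] 317 
  (.elim [([⟨1, 1, 1, 1, 163⟩], 704)] 103 
  (.act ⟨⟨⟨[⟨1, 1, 1, 1, 1⟩], [⟨-1, 1, 157, 1, 163⟩], []⟩, ⟨[], [⟨1, 1, 1, 1, 1⟩], []⟩, ⟨[], [], [⟨1, 1, 1, 1,
  1⟩]⟩⟩, ⟨⟨[⟨1, 1, 1, 1, 1⟩], [⟨1, 1, 157, 1, 163⟩], []⟩, ⟨[], [⟨1, 1, 1, 1, 1⟩], []⟩, ⟨[], [], [⟨1, 1, 1, 1,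
  1⟩]⟩⟩, ⟨1, 1, 1, 1, 1⟩, [(251, [⟨1, 1, 157, 1, 163⟩, ⟨1, 1, 251, 1, 1⟩, ⟨-1, 1, 65783, 1, 163⟩]), (347, [⟨-1,
  1, 56363, 1, 163⟩, ⟨-1, 1, 90109, 1, 1⟩])], []⟩ [(157, [])] [] [] [(72, [⟨1, 1, 347, 1, 1⟩])] 
  (.zero [([⟨1, 1, 1, 1, 1⟩], 945)] 251 2 
  (.zero [([⟨1, 1, 1, 1, 1⟩], 2160)] 347 1 
  (.act ⟨⟨⟨[⟨1, 1, 1, 1, 1⟩], [], []⟩, ⟨[], [⟨1, 1, 1, 1, 163⟩], []⟩, ⟨[], [], [⟨1, 1, 1, 1, 1⟩]⟩⟩, ⟨⟨[⟨1, 1,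
  1, 1, 1⟩], [], []⟩, ⟨[], [⟨1, 1, 1, 163, 1⟩], []⟩, ⟨[], [], [⟨1, 1, 1, 1, 1⟩]⟩⟩, ⟨1, 1, 1, 1, 1⟩, [(359, [⟨1,
  1, 359, 1, 163⟩])], []⟩ [] [(163, ⟨1, 1, 1, 1, 1⟩)] [] [] 
  (.split 419 
  (.act ⟨⟨⟨[⟨1, 1, 1, 1, 1⟩], [], []⟩, ⟨[], [⟨1, 1, 1, 1, 1⟩], [⟨-1, 1, 359, 1, 1⟩]⟩, ⟨[], [], [⟨1, 1, 1, 1,
  1⟩]⟩⟩, ⟨⟨[⟨1, 1, 1, 1, 1⟩], [], []⟩, ⟨[], [⟨1, 1, 1, 1, 1⟩], [⟨1, 1, 359, 1, 1⟩]⟩, ⟨[], [], [⟨1, 1, 1, 1,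
  1⟩]⟩⟩, ⟨1, 1, 1, 1, 1⟩, [], []⟩ [(359, [])] [] [] [] 
  (.call false ⟨⟨⟨[⟨1, 1, 1, 1, 1⟩], [], []⟩, ⟨[], [⟨-1, 1, 1, 1, 1⟩], []⟩, ⟨[], [], [⟨1, 1, 1, 1, 1⟩]⟩⟩,
  ⟨⟨[⟨1, 1, 1, 1, 1⟩], [], []⟩, ⟨[], [⟨-1, 1, 1, 1, 1⟩], []⟩, ⟨[], [], [⟨1, 1, 1, 1, 1⟩]⟩⟩, ⟨1, 1, 1, 1, 1⟩,
  [], []⟩ 83)) 
  (.call false ⟨mone, mone, ⟨1, 1, 1, 1, 419⟩, [(5, []), (7, []), (11, []), (13, []), (17, []), (19, []), (29,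
  []), (31, []), (43, []), (47, [⟨1, 1, 1, 1, 419⟩]), (53, [⟨-1, 1, 1, 1, 419⟩]), (59, []), (67, []), (71, []),
  (83, []), (23, []), (37, []), (41, []), (89, []), (97, []), (101, []), (103, []), (107, []), (109, []), (127,
  []), (131, []), (149, []), (61, []), (73, []), (79, []), (113, []), (137, []), (139, []), (151, []), (157,
  []), (163, [⟨1, 1, 1, 1, 419⟩]), (167, []), (173, []), (179, []), (181, []), (191, []), (193, []), (197, [⟨1,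
  1, 1, 1, 419⟩]), (199, []), (211, []), (223, []), (227, []), (229, []), (233, []), (239, []), (241, []),
  (251, []), (257, []), (263, []), (269, []), (271, []), (277, []), (281, [⟨-1, 1, 1, 1, 419⟩, ⟨1, 1, 1, 1,
  1⟩]), (283, []), (293, []), (307, []), (311, []), (313, []), (317, []), (331, []), (337, []), (347, []),
  (349, []), (353, []), (359, [⟨1, 1, 359, 1, 419⟩]), (367, []), (373, [])], []⟩ 97)))))))))))))))))))) 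
  (.zero [([⟨1, 1, 1, 1, 1⟩], 2910)] 367 1 
  (.zero [([⟨1, 1, 1, 1, 1⟩], 108)] 89 1 
  (.zero [([⟨1, 1, 1, 1, 1⟩], 192)] 163 1 
  (.zero [([⟨1, 1, 1, 1, 1⟩], 135)] 113 1 
  (.zero [([⟨1, 1, 1, 1, 1⟩], 474)] 127 1 
  (.zero [([⟨1, 1, 1, 1, 1⟩], 2880)] 317 1 
  (.zero [([⟨1, 1, 1, 1, 1⟩], 2622)] 311 1 
  (.zero [([⟨1, 1, 1, 1, 1⟩], 378)] 103 1 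
  (.zero [([⟨1, 1, 1, 1, 1⟩], 1809)] 233 1 
  (.zero [([⟨1, 1, 1, 1, 1⟩], 1890)] 307 1 
  (.elim [([⟨-1, 1, 1, 1, 109⟩], 2649)] 349 
  (.elim [([⟨-1, 1, 1, 1, 109⟩], 189)] 107 
  (.elim [([⟨-1, 1, 1, 1, 109⟩], 704)] 151 
  (.elim [([⟨1, 1, 1, 1, 109⟩], 1839)] 257 
  (.act ⟨⟨⟨[⟨1, 1, 1, 1, 1⟩], [], []⟩, ⟨[], [⟨1, 1, 1, 1, 1⟩], [⟨1, 1, 157, 1, 109⟩]⟩, ⟨[], [], [⟨1, 1, 1, 1,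
  1⟩]⟩⟩, ⟨⟨[⟨1, 1, 1, 1, 1⟩], [], []⟩, ⟨[], [⟨1, 1, 1, 1, 1⟩], [⟨-1, 1, 157, 1, 109⟩]⟩, ⟨[], [], [⟨1, 1, 1, 1,
  1⟩]⟩⟩, ⟨1, 1, 1, 1, 1⟩, [(347, [⟨-1, 1, 39407, 1, 109⟩, ⟨-1, 1, 90109, 1, 1⟩]), (349, [⟨1, 1, 157, 1, 109⟩,
  ⟨1, 1, 359, 1, 1⟩, ⟨-1, 1, 65783, 1, 109⟩, ⟨-1, 1, 150421, 1, 1⟩, ⟨1, 1, 23616097, 1, 1⟩]), (359, [⟨1, 1,
  157, 1, 109⟩, ⟨1, 1, 359, 1, 1⟩, ⟨-1, 1, 65783, 1, 109⟩])], []⟩ [(157, [])] [] [] [(72, [⟨1, 1, 347, 1, 1⟩]),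
  (73, [⟨1, 1, 349, 1, 1⟩])] 
  (.elim [([⟨1, 1, 1, 1, 109⟩], 1674)] 349 
  (.elim [([⟨-1, 1, 1, 1, 109⟩], 2646)] 347 
  (.act ⟨⟨⟨[⟨1, 1, 1, 1, 1⟩], [], []⟩, ⟨[], [⟨1, 1, 1, 109, 1⟩], []⟩, ⟨[], [], [⟨1, 1, 1, 1, 1⟩]⟩⟩, ⟨⟨[⟨1, 1,
  1, 1, 1⟩], [], []⟩, ⟨[], [⟨1, 1, 1, 1, 109⟩], []⟩, ⟨[], [], [⟨1, 1, 1, 1, 1⟩]⟩⟩, ⟨1, 1, 1, 1, 1⟩, [(251, [⟨1,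
  1, 251, 1, 109⟩]), (359, [⟨1, 1, 359, 109, 1⟩])], []⟩ [] [(109, ⟨1, 1, 1, 1, 1⟩)] [] [] 
  (.elim [([⟨-2, 1, 1, 1, 1⟩], 2568), ([⟨1, 1, 1, 1, 1⟩], 1353), ([⟨-1, 1, 1, 1, 1⟩], 2649)] 359 
  (.split 419 
  (.act ⟨⟨⟨[⟨1, 1, 1, 1, 1⟩], [], [⟨1, 1, 251, 1, 1⟩]⟩, ⟨[], [⟨1, 1, 1, 1, 1⟩], []⟩, ⟨[], [], [⟨1, 1, 1, 1,
  1⟩]⟩⟩, ⟨⟨[⟨1, 1, 1, 1, 1⟩], [], [⟨-1, 1, 251, 1, 1⟩]⟩, ⟨[], [⟨1, 1, 1, 1, 1⟩], []⟩, ⟨[], [], [⟨1, 1, 1, 1,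
  1⟩]⟩⟩, ⟨1, 1, 1, 1, 1⟩, [], []⟩ [(251, [])] [] [] [] 
  (.call false ⟨⟨⟨[⟨1, 1, 1, 1, 1⟩], [], []⟩, ⟨[], [⟨-1, 1, 1, 1, 1⟩], [⟨1, 1, 1, 1, 1⟩]⟩, ⟨[], [], [⟨1, 1, 1,
  1, 1⟩]⟩⟩, ⟨⟨[⟨1, 1, 1, 1, 1⟩], [], []⟩, ⟨[], [⟨-1, 1, 1, 1, 1⟩], [⟨1, 1, 1, 1, 1⟩]⟩, ⟨[], [], [⟨1, 1, 1, 1,
  1⟩]⟩⟩, ⟨1, 1, 1, 1, 1⟩, [], []⟩ 77)) 
  (.call false ⟨mone, mone, ⟨1, 1, 1, 1, 419⟩, [(5, []), (7, []), (11, []), (13, [⟨-1, 1, 1, 1, 419⟩]), (17,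
  []), (19, []), (29, []), (31, []), (43, []), (47, [⟨1, 1, 1, 1, 419⟩]), (53, []), (59, []), (67, []), (71,
  []), (83, []), (23, []), (37, []), (41, []), (89, []), (97, []), (101, []), (103, []), (107, [⟨1, 1, 1, 1,
  419⟩]), (109, [⟨1, 1, 1, 1, 419⟩]), (127, []), (131, []), (149, []), (61, []), (73, []), (79, []), (113, []),
  (137, []), (139, []), (151, []), (157, []), (163, []), (167, []), (173, []), (179, []), (181, []), (191, []),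
  (193, []), (197, [⟨1, 1, 1, 1, 419⟩]), (199, []), (211, []), (223, []), (227, []), (229, []), (233, []),
  (239, []), (241, []), (251, [⟨1, 1, 251, 1, 419⟩]), (257, [⟨-1, 1, 1, 1, 419⟩, ⟨1, 1, 1, 1, 1⟩]), (263, [⟨-1,
  1, 1, 1, 419⟩, ⟨1, 1, 1, 1, 1⟩]), (269, []), (271, []), (277, []), (281, []), (283, []), (293, []), (307,
  []), (311, []), (313, []), (317, []), (331, []), (337, []), (347, [⟨-1, 1, 251, 1, 419⟩, ⟨1, 1, 251, 419,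
  1⟩]), (349, [⟨1, 1, 1, 1, 419⟩, ⟨-1, 1, 1, 419, 1⟩]), (353, [⟨1, 1, 1, 1, 419⟩, ⟨-1, 1, 1, 419, 1⟩]), (359,
  [⟨1, 1, 1, 1, 419⟩, ⟨-1, 1, 1, 419, 1⟩]), (367, []), (373, [])],
  []⟩ 97))))))))))))))))))))))))))))))))))))))))))))))))))))))))))))))))))))))))))

theorem okS1a : sS1a.seq (check true (LB.take 98) tS1a) = true := by decide +kernel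

end

end Pool.Agent.Lib.MP_4e1a58_mp
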