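import Pool.Agent.Lib.MP_4e1a58_mp.States

/-! Generated certificates. -/

namespace Pool.Agent.Lib.MP_4e1a58_mp

set_option maxRecDepth 100000

noncomputable section

def tN1b : Tree := .root 307 1 ⟨2, 1, 1, 1, 1⟩ [⟨-1, 1, 251, 1, 1⟩] 
  (.root 251 1 ⟨1, 1, 1, 1, 1⟩ [⟨1, 1, 307, 1, 1⟩] 
  (.split 307 
  (.split 251 
  (.split 347 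
  (.call false ⟨mone, mone, ⟨1, 1, 1, 1, 1⟩, [(5, []), (7, []), (11, []), (13, []), (17, []), (19, []), (29,
  []), (31, []), (43, []), (47, []), (53, []), (59, []), (67, []), (71, []), (83, []), (23, []), (37, []), (41,
  []), (89, []), (97, []), (101, []), (107, []), (109, []), (127, []), (131, []), (149, []), (61, []), (73,
  []), (79, []), (113, []), (137, []), (139, []), (151, []), (157, []), (163, [])], []⟩ 96) 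
  (.act ⟨mone, mone, ⟨1, 1, 1, 1, 347⟩, [(103, [⟨1, 1, 103, 1, 347⟩])], []⟩ [] [(347, ⟨1, 1, 1, 1, 1⟩)] [] [] 
  (.split 103 
  (.call false ⟨⟨⟨[⟨1, 1, 1, 1, 1⟩], [], []⟩, ⟨[], [], [⟨1, 1, 1, 1, 1⟩]⟩, ⟨[], [⟨1, 1, 1, 1, 1⟩], []⟩⟩, ⟨⟨[⟨1,
  1, 1, 1, 1⟩], [], []⟩, ⟨[], [], [⟨1, 1, 1, 1, 1⟩]⟩, ⟨[], [⟨1, 1, 1, 1, 1⟩], []⟩⟩, ⟨1, 1, 1, 1, 1⟩, [],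
  []⟩ 16) 
  (.act ⟨⟨⟨[⟨1, 1, 1, 1, 1⟩], [], []⟩, ⟨[], [⟨1, 1, 1, 103, 1⟩], []⟩, ⟨[], [], [⟨1, 1, 1, 1, 1⟩]⟩⟩, ⟨⟨[⟨1, 1,
  1, 1, 1⟩], [], []⟩, ⟨[], [⟨1, 1, 1, 1, 103⟩], []⟩, ⟨[], [], [⟨1, 1, 1, 1, 1⟩]⟩⟩, ⟨1, 1, 1, 1, 1⟩, [],
  []⟩ [] [(103, ⟨1, 1, 1, 1, 1⟩)] [] [] 
  (.call false ⟨⟨⟨[⟨1, 1, 1, 1, 1⟩], [], []⟩, ⟨[], [], [⟨-1, 1, 1, 1, 1⟩]⟩, ⟨[], [⟨1, 1, 1, 1, 1⟩], []⟩⟩,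
  ⟨⟨[⟨1, 1, 1, 1, 1⟩], [], []⟩, ⟨[], [], [⟨1, 1, 1, 1, 1⟩]⟩, ⟨[], [⟨-1, 1, 1, 1, 1⟩], []⟩⟩, ⟨1, 1, 1, 1, 1⟩,
  [], []⟩ 27))))) 
  (.act ⟨⟨⟨[⟨1, 1, 1, 1, 1⟩], [], []⟩, ⟨[], [⟨1, 1, 1, 251, 1⟩], []⟩, ⟨[], [], [⟨1, 1, 1, 1, 1⟩]⟩⟩, ⟨⟨[⟨1, 1,
  1, 1, 1⟩], [], []⟩, ⟨[], [⟨1, 1, 1, 1, 251⟩], []⟩, ⟨[], [], [⟨1, 1, 1, 1, 1⟩]⟩⟩, ⟨1, 1, 1, 1, 1⟩, [(103, [⟨1,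
  1, 103, 1, 251⟩])], []⟩ [] [(251, ⟨1, 1, 1, 1, 1⟩)] [] [] 
  (.split 347 
  (.call false ⟨mone, mone, ⟨1, 1, 1, 1, 1⟩, [(3, [⟨1, 1, 103, 1, 1⟩])], []⟩ 88) 
  (.act ⟨⟨⟨[⟨1, 1, 1, 1, 1⟩], [], []⟩, ⟨[], [⟨1, 1, 1, 1, 347⟩], []⟩, ⟨[], [], [⟨1, 1, 1, 1, 1⟩]⟩⟩, ⟨⟨[⟨1, 1,
  1, 1, 1⟩], [], []⟩, ⟨[], [⟨1, 1, 1, 347, 1⟩], []⟩, ⟨[], [], [⟨1, 1, 1, 1, 1⟩]⟩⟩, ⟨1, 1, 1, 1, 347⟩, [],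
  []⟩ [] [(347, ⟨1, 1, 1, 1, 1⟩)] [] [] 
  (.call false ⟨mone, mone, ⟨1, 1, 1, 1, 1⟩, [(3, [⟨1, 1, 103, 1, 1⟩])], []⟩ 89))))) 
  (.act ⟨mone, mone, ⟨1, 1, 1, 1, 307⟩, [(103, [⟨1, 1, 103, 1, 307⟩]), (251, [⟨1, 1, 251, 1, 307⟩]), (347, [⟨1,
  1, 347, 1, 307⟩])], []⟩ [] [(307, ⟨1, 1, 1, 1, 1⟩)] [] [] 
  (.act ⟨⟨⟨[⟨1, 1, 1, 1, 1⟩], [], []⟩, ⟨[], [⟨1, 1, 1, 1, 1⟩], [⟨1, 2, 347, 1, 1⟩]⟩, ⟨[], [], [⟨1, 1, 1, 1,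
  1⟩]⟩⟩, ⟨⟨[⟨1, 1, 1, 1, 1⟩], [], []⟩, ⟨[], [⟨1, 1, 1, 1, 1⟩], [⟨-1, 2, 347, 1, 1⟩]⟩, ⟨[], [], [⟨1, 1, 1, 1,
  1⟩]⟩⟩, ⟨1, 1, 1, 1, 1⟩, [], []⟩ [(347, [])] [] [] [] 
  (.call false ⟨mone, mone, ⟨1, 1, 1, 1, 1⟩, [(2, [⟨1, 1, 251, 1, 1⟩]), (3, [⟨1, 1, 103, 1, 1⟩])], []⟩ 94)))))

theorem okN1b : sN1b.seq (check true (LB.take 99) tN1b) = true := by decide +kernel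

def tN1 : Tree := .split 233 
  (.call false ⟨mone, mone, ⟨1, 1, 1, 1, 1⟩, [], []⟩ 99) 
  (.root 347 2 ⟨-1, 1, 1, 233, 1⟩ [⟨1, 1, 87097, 1, 1⟩, ⟨1, 1, 106529, 1, 1⟩] 
  (.call false ⟨⟨⟨[⟨1, 1, 1, 1, 1⟩], [], []⟩, ⟨[], [], [⟨1, 1, 1, 1, 1⟩]⟩, ⟨[], [⟨1, 1, 1, 1, 1⟩], [⟨1, 1, 347,
  1, 1⟩]⟩⟩, ⟨⟨[⟨1, 1, 1, 1, 1⟩], [], []⟩, ⟨[], [⟨-1, 1, 347, 1, 1⟩], [⟨1, 1, 1, 1, 1⟩]⟩, ⟨[], [⟨1, 1, 1, 1,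
  1⟩], []⟩⟩, ⟨1, 1, 1, 1, 1⟩, [(103, [⟨-1, 1, 103, 1, 1⟩]), (251, [⟨1, 1, 307, 1, 1⟩, ⟨-1, 1, 347, 233, 1⟩]),
  (307, [⟨1, 1, 251, 1, 1⟩, ⟨-1, 1, 347, 233, 1⟩]), (347, [⟨1, 1, 1, 233, 1⟩])], []⟩ 99))

theorem okN1 : sN1.seq (check true (LB.take 100) tN1) = true := by decide +kernel

def tN2b : Tree := .root 349 1 ⟨2, 1, 1, 1, 1⟩ [⟨-1, 1, 359, 1, 1⟩] 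
  (.root 359 1 ⟨1, 1, 1, 1, 1⟩ [⟨1, 1, 349, 1, 1⟩] 
  (.split 349 
  (.split 359 
  (.split 347 
  (.call false ⟨mone, mone, ⟨1, 1, 1, 1, 1⟩, [(5, []), (7, []), (11, []), (13, []), (17, []), (19, []), (29,
  []), (31, []), (43, []), (47, []), (53, []), (59, []), (67, []), (71, []), (83, []), (23, []), (37, []), (41,
  []), (89, []), (97, []), (101, []), (103, []), (107, []), (109, []), (127, []), (131, []), (149, []), (61,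
  []), (73, []), (79, []), (113, []), (137, []), (139, []), (157, []), (163, [])], []⟩ 96) 
  (.act ⟨mone, mone, ⟨1, 1, 1, 1, 347⟩, [(151, [⟨1, 1, 151, 1, 347⟩])], []⟩ [] [(347, ⟨1, 1, 1, 1, 1⟩)] [] [] 
  (.split 151 
  (.call false ⟨⟨⟨[⟨1, 1, 1, 1, 1⟩], [], []⟩, ⟨[], [], [⟨1, 1, 1, 1, 1⟩]⟩, ⟨[], [⟨1, 1, 1, 1, 1⟩], []⟩⟩, ⟨⟨[⟨1,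
  1, 1, 1, 1⟩], [], []⟩, ⟨[], [], [⟨1, 1, 1, 1, 1⟩]⟩, ⟨[], [⟨1, 1, 1, 1, 1⟩], []⟩⟩, ⟨1, 1, 1, 1, 1⟩, [],
  []⟩ 16) 
  (.act ⟨⟨⟨[⟨1, 1, 1, 151, 1⟩], [], []⟩, ⟨[], [⟨1, 1, 1, 1, 1⟩], []⟩, ⟨[], [], [⟨1, 1, 1, 1, 1⟩]⟩⟩, ⟨⟨[⟨1, 1,
  1, 1, 151⟩], [], []⟩, ⟨[], [⟨1, 1, 1, 1, 1⟩], []⟩, ⟨[], [], [⟨1, 1, 1, 1, 1⟩]⟩⟩, ⟨1, 1, 1, 1, 22801⟩, [],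
  []⟩ [] [(151, ⟨1, 1, 1, 1, 1⟩)] [] [] 
  (.call false ⟨mone, mone, ⟨1, 1, 1, 1, 1⟩, [], []⟩ 39))))) 
  (.act ⟨⟨⟨[⟨1, 1, 1, 1, 359⟩], [], []⟩, ⟨[], [⟨1, 1, 1, 1, 1⟩], []⟩, ⟨[], [], [⟨1, 1, 1, 1, 1⟩]⟩⟩, ⟨⟨[⟨1, 1,
  1, 359, 1⟩], [], []⟩, ⟨[], [⟨1, 1, 1, 1, 1⟩], []⟩, ⟨[], [], [⟨1, 1, 1, 1, 1⟩]⟩⟩, ⟨1, 1, 1, 1, 1⟩, [(151, [⟨1,
  1, 151, 1, 359⟩]), (347, [⟨1, 1, 347, 1, 128881⟩])], []⟩ [] [(359, ⟨1, 1, 1, 1, 1⟩)] [] [] 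
  (.split 347 
  (.call false ⟨mone, mone, ⟨1, 1, 1, 1, 1⟩, [(3, [⟨1, 1, 151, 1, 1⟩])], []⟩ 90) 
  (.act ⟨⟨⟨[⟨1, 1, 1, 1, 347⟩], [], []⟩, ⟨[], [⟨1, 1, 1, 1, 1⟩], []⟩, ⟨[], [], [⟨1, 1, 1, 1, 1⟩]⟩⟩, ⟨⟨[⟨1, 1,
  1, 347, 1⟩], [], []⟩, ⟨[], [⟨1, 1, 1, 1, 1⟩], []⟩, ⟨[], [], [⟨1, 1, 1, 1, 1⟩]⟩⟩, ⟨1, 1, 1, 347, 1⟩, [],
  []⟩ [] [(347, ⟨1, 1, 1, 1, 1⟩)] [] [] 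
  (.call false ⟨mone, mone, ⟨1, 1, 1, 1, 1⟩, [(3, [⟨1, 1, 151, 1, 1⟩])], []⟩ 91))))) 
  (.act ⟨mone, mone, ⟨1, 1, 1, 1, 349⟩, [(151, [⟨1, 1, 151, 1, 349⟩]), (347, [⟨1, 1, 347, 1, 349⟩]), (359, [⟨1,
  1, 359, 1, 349⟩])], []⟩ [] [(349, ⟨1, 1, 1, 1, 1⟩)] [] [] 
  (.act ⟨⟨⟨[⟨1, 1, 1, 1, 1⟩], [⟨-1, 2, 347, 1, 1⟩], []⟩, ⟨[], [⟨1, 1, 1, 1, 1⟩], []⟩, ⟨[], [], [⟨1, 1, 1, 1,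
  1⟩]⟩⟩, ⟨⟨[⟨1, 1, 1, 1, 1⟩], [⟨1, 2, 347, 1, 1⟩], []⟩, ⟨[], [⟨1, 1, 1, 1, 1⟩], []⟩, ⟨[], [], [⟨1, 1, 1, 1,
  1⟩]⟩⟩, ⟨1, 1, 1, 1, 1⟩, [], []⟩ [(347, [])] [] [] [] 
  (.call false ⟨mone, mone, ⟨1, 1, 1, 1, 1⟩, [(2, [⟨1, 1, 359, 1, 1⟩]), (3, [⟨1, 1, 151, 1, 1⟩])], []⟩ 95)))))

theorem okN2b : sN2b.seq (check true (LB.take 101) tN2b) = true := by decide +kernel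

def tN2 : Tree := .split 367 
  (.call false ⟨mone, mone, ⟨1, 1, 1, 1, 1⟩, [], []⟩ 101) 
  (.root 347 2 ⟨-1, 1, 1, 367, 1⟩ [⟨-1, 1, 121103, 1, 1⟩, ⟨-1, 1, 124573, 1, 1⟩] 
  (.call false ⟨⟨⟨[], [⟨1, 1, 1, 1, 1⟩], []⟩, ⟨[⟨1, 1, 1, 1, 1⟩], [⟨1, 1, 347, 1, 1⟩], []⟩, ⟨[], [], [⟨1, 1, 1,
  1, 1⟩]⟩⟩, ⟨⟨[⟨-1, 1, 347, 1, 1⟩], [⟨1, 1, 1, 1, 1⟩], []⟩, ⟨[⟨1, 1, 1, 1, 1⟩], [], []⟩, ⟨[], [], [⟨1, 1, 1, 1,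
  1⟩]⟩⟩, ⟨1, 1, 1, 1, 1⟩, [(151, [⟨-1, 1, 151, 1, 1⟩]), (347, [⟨1, 1, 1, 367, 1⟩]), (349, [⟨1, 1, 347, 367, 1⟩,
  ⟨1, 1, 359, 1, 1⟩]), (359, [⟨1, 1, 347, 367, 1⟩, ⟨1, 1, 349, 1, 1⟩])], []⟩ 101))

theorem okN2 : sN2.seq (check true (LB.take 102) tN2) = true := by decide +kernel

def tG : Tree := .root 307 1 ⟨1, 1, 1, 1, 1⟩ [⟨-1, 1, 1, 1, 1⟩] 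
  (.split 103 
  (.split 307 
  (.elim [([⟨-1, 1, 1, 1, 1⟩], 2160)] 151 
  (.split 347 
  (.call false ⟨mone, mone, ⟨1, 1, 1, 1, 1⟩, [(2, [⟨1, 1, 1, 1, 1⟩])], []⟩ 93) 
  (.act ⟨⟨⟨[⟨1, 1, 1, 1, 120409⟩], [], []⟩, ⟨[], [⟨1, 1, 1, 1, 347⟩], []⟩, ⟨[], [], [⟨1, 1, 1, 1, 1⟩]⟩⟩, ⟨⟨[⟨1,
  1, 1, 120409, 1⟩], [], []⟩, ⟨[], [⟨1, 1, 1, 347, 1⟩], []⟩, ⟨[], [], [⟨1, 1, 1, 1, 1⟩]⟩⟩, ⟨1, 1, 1, 41781923,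
  1⟩, [], []⟩ [] [(347, ⟨1, 1, 1, 1, 1⟩)] [] [] 
  (.call false ⟨⟨⟨[⟨1, 1, 1, 1, 1⟩], [], []⟩, ⟨[], [⟨-1, 1, 1, 1, 1⟩], []⟩, ⟨[], [], [⟨1, 1, 1, 1, 1⟩]⟩⟩,
  ⟨⟨[⟨1, 1, 1, 1, 1⟩], [], []⟩, ⟨[], [⟨-1, 1, 1, 1, 1⟩], []⟩, ⟨[], [], [⟨1, 1, 1, 1, 1⟩]⟩⟩, ⟨1, 1, 1, 1, 1⟩,
  [], []⟩ 66)))) 
  (.elim [([⟨-1, 1, 1, 1, 1⟩], 2889)] 151 
  (.act ⟨⟨⟨[⟨1, 1, 1, 1, 1⟩], [⟨-1, 1, 347, 1, 307⟩], []⟩, ⟨[], [⟨1, 1, 1, 1, 1⟩], []⟩, ⟨[], [], [⟨1, 1, 1, 1,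
  1⟩]⟩⟩, ⟨⟨[⟨1, 1, 1, 1, 1⟩], [⟨1, 1, 347, 1, 307⟩], []⟩, ⟨[], [⟨1, 1, 1, 1, 1⟩], []⟩, ⟨[], [], [⟨1, 1, 1, 1,
  1⟩]⟩⟩, ⟨1, 1, 1, 1, 1⟩, [], []⟩ [(347, [])] [] [] [] 
  (.call false ⟨mone, mone, ⟨1, 1, 1, 1, 1⟩, [(2, [⟨1, 1, 1, 1, 1⟩, ⟨-1, 1, 1, 307, 1⟩])], []⟩ 93)))) 
  (.split 307 
  (.zero [([⟨1, 1, 1, 1, 1⟩], 702)] 151 1 
  (.uelim [([⟨-1, 1, 1, 1, 1⟩], 2160)] 103 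
  (.contra [([⟨1, 1, 1, 1, 1⟩], 2889)]))) 
  (.zero [([⟨1, 1, 1, 1, 1⟩], 702)] 151 1 
  (.act ⟨⟨⟨[⟨1, 1, 1, 1, 1⟩], [⟨-1, 1, 347, 1, 307⟩], []⟩, ⟨[], [⟨1, 1, 1, 1, 1⟩], []⟩, ⟨[], [], [⟨1, 1, 1, 1,
  1⟩]⟩⟩, ⟨⟨[⟨1, 1, 1, 1, 1⟩], [⟨1, 1, 347, 1, 307⟩], []⟩, ⟨[], [⟨1, 1, 1, 1, 1⟩], []⟩, ⟨[], [], [⟨1, 1, 1, 1,
  1⟩]⟩⟩, ⟨1, 1, 1, 1, 1⟩, [], []⟩ [(347, [])] [] [] [] 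
  (.adj 45 [([⟨1, 1, 1, 1, 1⟩], 2889)] 
  (.call false ⟨mone, mone, ⟨1, 1, 1, 1, 1⟩, [(2, [⟨-1, 1, 1, 1, 1⟩, ⟨1, 1, 1, 307, 1⟩])], []⟩ 92))))))

theorem okG : sG.seq (check true (LB.take 103) tG) = true := by decide +kernel

def tQ : Tree := .split 257 
  (.zero [([⟨-1, 1, 1, 1, 1⟩], 1189), ([⟨-1, 1, 1, 1, 1⟩], 1353)] 317 2 
  (.split 233 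
  (.split 367 
  (.split 251 
  (.split 307 
  (.split 359 
  (.split 349 
  (.split 347 
  (.call false ⟨mone, mone, ⟨1, 1, 1, 1, 1⟩, [], []⟩ 96) 
  (.zero [([⟨1, 1, 1, 1, 1⟩], 2242)] 11 1 
  (.zero [([⟨1, 1, 1, 1, 1⟩], 1925)] 43 1 
  (.zero [([⟨1, 1, 1, 1, 1⟩], 2241)] 7 1 
  (.zero [([⟨1, 1, 1, 1, 1⟩], 2322)] 37 1 
  (.zero [([⟨1, 1, 1, 1, 1⟩], 2484)] 19 1 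
  (.zero [([⟨1, 1, 1, 1, 1⟩], 2485)] 31 1 
  (.zero [([⟨1, 1, 1, 1, 1⟩], 2566)] 101 1 
  (.zero [([⟨1, 1, 1, 1, 1⟩], 2727)] 59 1 
  (.zero [([⟨1, 1, 1, 1, 1⟩], 2728)] 71 1 
  (.zero [([⟨1, 1, 1, 1, 1⟩], 2729)] 83 1 
  (.zero [([⟨1, 1, 1, 1, 1⟩], 2323)] 41 1 
  (.zero [([⟨1, 1, 1, 1, 1⟩], 2809)] 131 1 
  (.zero [([⟨1, 1, 1, 1, 1⟩], 2810)] 149 1 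
  (.zero [([⟨1, 1, 1, 1, 1⟩], 2565)] 97 1 
  (.zero [([⟨1, 1, 1, 1, 1⟩], 2808)] 109 1 
  (.zero [([⟨1, 1, 1, 1, 1⟩], 2106)] 73 1 
  (.zero [([⟨1, 1, 1, 1, 1⟩], 2107)] 79 1 
  (.zero [([⟨1, 1, 1, 1, 1⟩], 2134)] 139 1 
  (.zero [([⟨1, 1, 1, 1, 1⟩], 2133)] 137 1 
  (.zero [([⟨1, 1, 1, 1, 1⟩], 2656)] 29 1 
  (.zero [([⟨1, 1, 1, 1, 1⟩], 2412)] 5 1 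
  (.zero [([⟨1, 1, 1, 1, 1⟩], 2655)] 17 1 
  (.zero [([⟨1, 1, 1, 1, 1⟩], 2898)] 53 1 
  (.zero [([⟨1, 1, 1, 1, 1⟩], 2899)] 67 1 
  (.zero [([⟨1, 1, 1, 1, 1⟩], 1920)] 23 1 
  (.zero [([⟨1, 1, 1, 1, 1⟩], 2163)] 61 1 
  (.zero [([⟨1, 1, 1, 1, 1⟩], 1917)] 13 1 
  (.zero [([⟨1, 1, 1, 1, 1⟩], 2161)] 163 1 
  (.elim [([⟨1, 1, 1, 1, 347⟩], 2889)] 47 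
  (.zero [([⟨1, 1, 1, 1, 1⟩], 216)] 157 2 
  (.act ⟨mone, mone, ⟨1, 1, 1, 1, 347⟩, [(89, [⟨1, 1, 89, 1, 347⟩]), (103, [⟨1, 1, 103, 1, 347⟩]), (107, [⟨1,
  1, 107, 1, 347⟩]), (127, [⟨1, 1, 127, 1, 347⟩]), (113, [⟨1, 1, 113, 1, 347⟩]), (151, [⟨1, 1, 151, 1, 347⟩])],
  []⟩ [] [(347, ⟨1, 1, 1, 1, 1⟩)] [] [] 
  (.split 89 
  (.split 127 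
  (.zero [([⟨1, 1, 1, 1, 1⟩], 462)] 107 2 
  (.zero [([⟨1, 1, 1, 1, 1⟩], 468)] 113 2 
  (.split 103 
  (.call false ⟨mone, mone, ⟨1, 1, 1, 1, 1⟩, [(347, [⟨1, 1, 1, 1, 1⟩]), (349, []), (359, []), (367, [])],
  []⟩ 102) 
  (.zero [([⟨1, 1, 1, 1, 1⟩], 702)] 151 1 
  (.call false ⟨mone, mone, ⟨1, 1, 1, 1, 1⟩, [(103, [⟨1, 1, 1, 103, 1⟩]), (233, []), (251, []), (307, []),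
  (347, [⟨1, 1, 1, 1, 1⟩])], []⟩ 100))))) 
  (.zero [([⟨1, 1, 1, 1, 1⟩], 706)] 151 1 
  (.elim [([⟨-1, 1, 1, 1, 127⟩], 471)] 107 
  (.elim [([⟨1, 1, 1, 1, 127⟩], 462)] 103 
  (.act ⟨⟨⟨[⟨1, 1, 1, 1, 1⟩], [⟨1, 1, 113, 1, 127⟩], []⟩, ⟨[], [⟨1, 1, 1, 1, 1⟩], []⟩, ⟨[], [], [⟨1, 1, 1, 1,
  1⟩]⟩⟩, ⟨⟨[⟨1, 1, 1, 1, 1⟩], [⟨-1, 1, 113, 1, 127⟩], []⟩, ⟨[], [⟨1, 1, 1, 1, 1⟩], []⟩, ⟨[], [], [⟨1, 1, 1, 1,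
  1⟩]⟩⟩, ⟨1, 1, 1, 1, 1⟩, [], []⟩ [(113, [])] [] [] [] 
  (.act ⟨⟨⟨[⟨1, 1, 1, 1, 1⟩], [], []⟩, ⟨[], [⟨1, 1, 1, 1, 127⟩], []⟩, ⟨[], [], [⟨1, 1, 1, 1, 1⟩]⟩⟩, ⟨⟨[⟨1, 1,
  1, 1, 1⟩], [], []⟩, ⟨[], [⟨1, 1, 1, 127, 1⟩], []⟩, ⟨[], [], [⟨1, 1, 1, 1, 1⟩]⟩⟩, ⟨1, 1, 1, 1, 1⟩, [],
  []⟩ [] [(127, ⟨1, 1, 1, 1, 1⟩)] [] [] 
  (.call false ⟨⟨⟨[], [⟨1, 1, 1, 1, 1⟩], []⟩, ⟨[⟨1, 1, 1, 1, 1⟩], [], []⟩, ⟨[], [], [⟨1, 1, 1, 1, 1⟩]⟩⟩, ⟨⟨[],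
  [⟨1, 1, 1, 1, 1⟩], []⟩, ⟨[⟨1, 1, 1, 1, 1⟩], [], []⟩, ⟨[], [], [⟨1, 1, 1, 1, 1⟩]⟩⟩, ⟨1, 1, 1, 1, 1⟩, [],
  []⟩ 40))))))) 
  (.zero [([⟨1, 1, 1, 1, 1⟩], 378)] 103 1 
  (.zero [([⟨1, 1, 1, 1, 1⟩], 382)] 127 1 
  (.elim [([⟨-1, 1, 1, 1, 89⟩], 381)] 107 
  (.elim [([⟨1, 1, 1, 1, 89⟩], 462)] 151 
  (.act ⟨⟨⟨[⟨1, 1, 1, 1, 1⟩], [], []⟩, ⟨[], [⟨1, 1, 1, 1, 1⟩], [⟨1, 1, 113, 1, 89⟩]⟩, ⟨[], [], [⟨1, 1, 1, 1,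
  1⟩]⟩⟩, ⟨⟨[⟨1, 1, 1, 1, 1⟩], [], []⟩, ⟨[], [⟨1, 1, 1, 1, 1⟩], [⟨-1, 1, 113, 1, 89⟩]⟩, ⟨[], [], [⟨1, 1, 1, 1,
  1⟩]⟩⟩, ⟨1, 1, 1, 1, 1⟩, [], []⟩ [(113, [])] [] [] [] 
  (.act ⟨⟨⟨[⟨1, 1, 1, 89, 1⟩], [], []⟩, ⟨[], [⟨1, 1, 1, 1, 1⟩], []⟩, ⟨[], [], [⟨1, 1, 1, 1, 1⟩]⟩⟩, ⟨⟨[⟨1, 1, 1,
  1, 89⟩], [], []⟩, ⟨[], [⟨1, 1, 1, 1, 1⟩], []⟩, ⟨[], [], [⟨1, 1, 1, 1, 1⟩]⟩⟩, ⟨1, 1, 1, 1, 7921⟩, [],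
  []⟩ [] [(89, ⟨1, 1, 1, 1, 1⟩)] [] [] 
  (.call false ⟨mone, mone, ⟨1, 1, 1, 1, 1⟩, [], []⟩ 38)))))))))))))))))))))))))))))))))))))))) 
  (.zero [([⟨1, 1, 1, 1, 1⟩], 2245)] 11 1 
  (.zero [([⟨1, 1, 1, 1, 1⟩], 1623)] 7 1 
  (.zero [([⟨1, 1, 1, 1, 1⟩], 1651)] 31 1 
  (.zero [([⟨1, 1, 1, 1, 1⟩], 1682)] 43 1 
  (.zero [([⟨1, 1, 1, 1, 1⟩], 1866)] 37 1 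
  (.zero [([⟨1, 1, 1, 1, 1⟩], 1867)] 41 1 
  (.zero [([⟨1, 1, 1, 1, 1⟩], 2109)] 73 1 
  (.zero [([⟨1, 1, 1, 1, 1⟩], 2110)] 79 1 
  (.zero [([⟨1, 1, 1, 1, 1⟩], 2111)] 83 1 
  (.zero [([⟨1, 1, 1, 1, 1⟩], 2487)] 19 1 
  (.zero [([⟨1, 1, 1, 1, 1⟩], 2569)] 101 1 
  (.zero [([⟨1, 1, 1, 1, 1⟩], 2730)] 59 1 
  (.zero [([⟨1, 1, 1, 1, 1⟩], 2731)] 71 1 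
  (.zero [([⟨1, 1, 1, 1, 1⟩], 2568)] 97 1 
  (.zero [([⟨1, 1, 1, 1, 1⟩], 2811)] 109 1 
  (.zero [([⟨1, 1, 1, 1, 1⟩], 2812)] 131 1 
  (.zero [([⟨1, 1, 1, 1, 1⟩], 2813)] 149 1 
  (.zero [([⟨1, 1, 1, 1, 1⟩], 2659)] 29 1 
  (.zero [([⟨1, 1, 1, 1, 1⟩], 2415)] 5 1 
  (.zero [([⟨1, 1, 1, 1, 1⟩], 2658)] 17 1 
  (.zero [([⟨1, 1, 1, 1, 1⟩], 2901)] 53 1 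
  (.zero [([⟨1, 1, 1, 1, 1⟩], 2902)] 67 1 
  (.zero [([⟨1, 1, 1, 1, 1⟩], 2137)] 139 1 
  (.zero [([⟨1, 1, 1, 1, 1⟩], 2136)] 137 1 
  (.zero [([⟨1, 1, 1, 1, 1⟩], 1674)] 13 1 
  (.zero [([⟨1, 1, 1, 1, 1⟩], 1675)] 23 1 
  (.zero [([⟨1, 1, 1, 1, 1⟩], 1918)] 89 1 
  (.elim [([⟨-1, 1, 1, 1, 349⟩], 2893)] 61 
  (.elim [([⟨1, 1, 1, 1, 349⟩], 2892)] 47 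
  (.elim [([⟨1, 1, 1, 1, 349⟩], 2161)] 107 
  (.elim [([⟨1, 1, 1, 1, 349⟩], 2164)] 127 
  (.zero [([⟨1, 1, 1, 1, 1⟩], 716)] 163 2 
  (.zero [([⟨1, 1, 1, 1, 1⟩], 704)] 157 2 
  (.zero [([⟨1, 1, 1, 1, 1⟩], 468)] 113 2 
  (.zero [([⟨1, 1, 1, 1, 1⟩], 2160)] 103 1 
  (.call false ⟨mone, mone, ⟨1, 1, 1, 1, 1⟩, [(349, [⟨1, 1, 1, 349, 1⟩]), (359, []), (367, [])],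
  []⟩ 102))))))))))))))))))))))))))))))))))))) 
  (.zero [([⟨1, 1, 1, 1, 1⟩], 2250)] 7 1 
  (.zero [([⟨1, 1, 1, 1, 1⟩], 2251)] 11 1 
  (.zero [([⟨1, 1, 1, 1, 1⟩], 2332)] 41 1 
  (.zero [([⟨1, 1, 1, 1, 1⟩], 2423)] 43 1 
  (.zero [([⟨1, 1, 1, 1, 1⟩], 2493)] 19 1 
  (.zero [([⟨1, 1, 1, 1, 1⟩], 2494)] 31 1 
  (.zero [([⟨1, 1, 1, 1, 1⟩], 2736)] 59 1 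
  (.zero [([⟨1, 1, 1, 1, 1⟩], 2737)] 71 1 
  (.zero [([⟨1, 1, 1, 1, 1⟩], 2738)] 83 1 
  (.zero [([⟨1, 1, 1, 1, 1⟩], 1872)] 37 1 
  (.zero [([⟨1, 1, 1, 1, 1⟩], 1900)] 101 1 
  (.zero [([⟨1, 1, 1, 1, 1⟩], 2115)] 73 1 
  (.zero [([⟨1, 1, 1, 1, 1⟩], 2116)] 79 1 
  (.zero [([⟨1, 1, 1, 1, 1⟩], 1899)] 97 1 
  (.zero [([⟨1, 1, 1, 1, 1⟩], 2142)] 137 1 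
  (.zero [([⟨1, 1, 1, 1, 1⟩], 2143)] 139 1 
  (.zero [([⟨1, 1, 1, 1, 1⟩], 2144)] 149 1 
  (.zero [([⟨1, 1, 1, 1, 1⟩], 1930)] 29 1 
  (.zero [([⟨1, 1, 1, 1, 1⟩], 1686)] 5 1 
  (.zero [([⟨1, 1, 1, 1, 1⟩], 1929)] 23 1 
  (.zero [([⟨1, 1, 1, 1, 1⟩], 2172)] 61 1 
  (.zero [([⟨1, 1, 1, 1, 1⟩], 2173)] 67 1 
  (.zero [([⟨1, 1, 1, 1, 1⟩], 2818)] 131 1 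
  (.zero [([⟨1, 1, 1, 1, 1⟩], 2817)] 109 1 
  (.zero [([⟨1, 1, 1, 1, 1⟩], 2403)] 13 1 
  (.zero [([⟨1, 1, 1, 1, 1⟩], 2404)] 17 1 
  (.zero [([⟨1, 1, 1, 1, 1⟩], 2647)] 89 1 
  (.elim [([⟨1, 1, 1, 1, 359⟩], 2170)] 53 
  (.elim [([⟨1, 1, 1, 1, 359⟩], 2169)] 47 
  (.elim [([⟨-1, 1, 1, 1, 359⟩], 2890)] 113 
  (.elim [([⟨1, 1, 1, 1, 359⟩], 2899)] 127 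
  (.zero [([⟨1, 1, 1, 1, 1⟩], 716)] 163 2 
  (.zero [([⟨1, 1, 1, 1, 1⟩], 704)] 157 2 
  (.zero [([⟨1, 1, 1, 1, 1⟩], 462)] 107 2 
  (.zero [([⟨1, 1, 1, 1, 1⟩], 2889)] 103 1 
  (.call false ⟨mone, mone, ⟨1, 1, 1, 1, 1⟩, [(359, [⟨1, 1, 1, 359, 1⟩]), (367, [])],
  []⟩ 102))))))))))))))))))))))))))))))))))))) 
  (.zero [([⟨1, 1, 1, 1, 1⟩], 2215)] 11 1 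
  (.zero [([⟨1, 1, 1, 1, 1⟩], 1653)] 7 1 
  (.zero [([⟨1, 1, 1, 1, 1⟩], 1895)] 31 1 
  (.zero [([⟨1, 1, 1, 1, 1⟩], 1896)] 37 1 
  (.zero [([⟨1, 1, 1, 1, 1⟩], 1897)] 41 1 
  (.zero [([⟨1, 1, 1, 1, 1⟩], 1898)] 43 1 
  (.zero [([⟨1, 1, 1, 1, 1⟩], 2139)] 73 1 
  (.zero [([⟨1, 1, 1, 1, 1⟩], 2140)] 79 1 
  (.zero [([⟨1, 1, 1, 1, 1⟩], 2141)] 83 1 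
  (.zero [([⟨1, 1, 1, 1, 1⟩], 2629)] 29 1 
  (.zero [([⟨1, 1, 1, 1, 1⟩], 2637)] 19 1 
  (.zero [([⟨1, 1, 1, 1, 1⟩], 2880)] 59 1 
  (.zero [([⟨1, 1, 1, 1, 1⟩], 2881)] 71 1 
  (.zero [([⟨1, 1, 1, 1, 1⟩], 2385)] 5 1 
  (.zero [([⟨1, 1, 1, 1, 1⟩], 2628)] 17 1 
  (.zero [([⟨1, 1, 1, 1, 1⟩], 2871)] 53 1 
  (.zero [([⟨1, 1, 1, 1, 1⟩], 2872)] 67 1 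
  (.zero [([⟨1, 1, 1, 1, 1⟩], 2539)] 101 1 
  (.zero [([⟨1, 1, 1, 1, 1⟩], 2538)] 97 1 
  (.zero [([⟨1, 1, 1, 1, 1⟩], 2781)] 109 1 
  (.zero [([⟨1, 1, 1, 1, 1⟩], 2782)] 131 1 
  (.zero [([⟨1, 1, 1, 1, 1⟩], 2783)] 149 1 
  (.zero [([⟨1, 1, 1, 1, 1⟩], 1431)] 359 1 
  (.zero [([⟨1, 1, 1, 1, 1⟩], 1863)] 23 1 
  (.zero [([⟨1, 1, 1, 1, 1⟩], 2106)] 61 1 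
  (.zero [([⟨1, 1, 1, 1, 1⟩], 2162)] 163 1 
  (.zero [([⟨1, 1, 1, 1, 1⟩], 400)] 139 2 
  (.zero [([⟨1, 1, 1, 1, 1⟩], 2134)] 127 1 
  (.elim [([⟨1, 1, 1, 1, 307⟩], 2619)] 13 
  (.elim [([⟨1, 1, 1, 1, 307⟩], 2862)] 47 
  (.zero [([⟨1, 1, 1, 1, 1⟩], 2889)] 349 1 
  (.elim [([⟨1, 1, 1, 1, 307⟩], 1890)] 89 
  (.zero [([⟨1, 1, 1, 1, 1⟩], 108)] 137 2 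
  (.zero [([⟨1, 1, 1, 1, 1⟩], 1917)] 107 1 
  (.zero [([⟨1, 1, 1, 1, 1⟩], 216)] 157 2 
  (.zero [([⟨1, 1, 1, 1, 1⟩], 468)] 113 2 
  (.zero [([⟨1, 1, 1, 1, 1⟩], 2160)] 151 1 
  (.call false ⟨mone, mone, ⟨1, 1, 1, 1, 1⟩, [(233, []), (251, []), (307, [⟨1, 1, 1, 307, 1⟩])],
  []⟩ 100))))))))))))))))))))))))))))))))))))))) 
  (.zero [([⟨1, 1, 1, 1, 1⟩], 2243)] 11 1 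
  (.zero [([⟨1, 1, 1, 1, 1⟩], 2340)] 7 1 
  (.zero [([⟨1, 1, 1, 1, 1⟩], 1844)] 43 1 
  (.zero [([⟨1, 1, 1, 1, 1⟩], 2576)] 41 1 
  (.zero [([⟨1, 1, 1, 1, 1⟩], 2583)] 19 1 
  (.zero [([⟨1, 1, 1, 1, 1⟩], 2584)] 31 1 
  (.zero [([⟨1, 1, 1, 1, 1⟩], 2826)] 59 1 
  (.zero [([⟨1, 1, 1, 1, 1⟩], 2827)] 71 1 
  (.zero [([⟨1, 1, 1, 1, 1⟩], 2828)] 83 1 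
  (.zero [([⟨1, 1, 1, 1, 1⟩], 1840)] 29 1 
  (.zero [([⟨1, 1, 1, 1, 1⟩], 1842)] 37 1 
  (.zero [([⟨1, 1, 1, 1, 1⟩], 2085)] 73 1 
  (.zero [([⟨1, 1, 1, 1, 1⟩], 2086)] 79 1 
  (.zero [([⟨1, 1, 1, 1, 1⟩], 1596)] 5 1 
  (.zero [([⟨1, 1, 1, 1, 1⟩], 1839)] 23 1 
  (.zero [([⟨1, 1, 1, 1, 1⟩], 2082)] 61 1 
  (.zero [([⟨1, 1, 1, 1, 1⟩], 2083)] 67 1 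
  (.zero [([⟨1, 1, 1, 1, 1⟩], 1810)] 101 1 
  (.zero [([⟨1, 1, 1, 1, 1⟩], 1809)] 97 1 
  (.zero [([⟨1, 1, 1, 1, 1⟩], 2052)] 137 1 
  (.zero [([⟨1, 1, 1, 1, 1⟩], 2053)] 139 1 
  (.zero [([⟨1, 1, 1, 1, 1⟩], 2054)] 149 1 
  (.zero [([⟨1, 1, 1, 1, 1⟩], 2484)] 17 1 
  (.zero [([⟨1, 1, 1, 1, 1⟩], 2727)] 53 1 
  (.zero [([⟨1, 1, 1, 1, 1⟩], 2891)] 163 1 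
  (.zero [([⟨1, 1, 1, 1, 1⟩], 392)] 131 2 
  (.zero [([⟨1, 1, 1, 1, 1⟩], 2809)] 127 1 
  (.elim [([⟨-1, 1, 1, 1, 251⟩], 1431)] 349 
  (.elim [([⟨1, 1, 1, 1, 251⟩], 1836)] 13 
  (.elim [([⟨1, 1, 1, 1, 251⟩], 2079)] 47 
  (.elim [([⟨-1, 1, 1, 1, 251⟩], 2565)] 89 
  (.zero [([⟨1, 1, 1, 1, 1⟩], 108)] 109 2 
  (.zero [([⟨1, 1, 1, 1, 1⟩], 2646)] 113 1 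
  (.zero [([⟨1, 1, 1, 1, 1⟩], 216)] 157 2 
  (.zero [([⟨1, 1, 1, 1, 1⟩], 462)] 107 2 
  (.elim [([⟨-1, 1, 1, 1, 251⟩], 2889)] 151 
  (.act ⟨⟨⟨[⟨1, 1, 1, 1, 1⟩], [], []⟩, ⟨[], [⟨1, 1, 1, 251, 1⟩], []⟩, ⟨[], [], [⟨1, 1, 1, 1, 1⟩]⟩⟩, ⟨⟨[⟨1, 1,
  1, 1, 1⟩], [], []⟩, ⟨[], [⟨1, 1, 1, 1, 251⟩], []⟩, ⟨[], [], [⟨1, 1, 1, 1, 1⟩]⟩⟩, ⟨1, 1, 1, 1, 1⟩, [(103, [⟨1,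
  1, 103, 1, 251⟩]), (307, [⟨1, 1, 307, 1, 251⟩]), (359, [⟨1, 1, 359, 251, 1⟩])], []⟩ [] [(251, ⟨1, 1, 1, 1,
  1⟩)] [] [] 
  (.split 307 
  (.zero [([⟨1, 1, 1, 1, 1⟩], 2160)] 359 1 
  (.call false ⟨mone, mone, ⟨1, 1, 1, 1, 1⟩, [(233, []), (251, [⟨1, 1, 1, 1, 1⟩]), (307, [])], []⟩ 100)) 
  (.split 359 
  (.call false ⟨mone, mone, ⟨1, 1, 1, 1, 1⟩, [(233, []), (251, [⟨1, 1, 1, 1, 1⟩]), (307, [⟨1, 1, 1, 307, 1⟩])],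
  []⟩ 100) 
  (.elim [([⟨1, 2, 1, 1, 110213⟩], 2160)] 103 
  (.act ⟨⟨⟨[⟨1, 1, 1, 1, 359⟩], [], []⟩, ⟨[], [⟨1, 1, 1, 1, 359⟩], []⟩, ⟨[], [], [⟨1, 1, 1, 1, 1⟩]⟩⟩, ⟨⟨[⟨1, 1,
  1, 359, 1⟩], [], []⟩, ⟨[], [⟨1, 1, 1, 359, 1⟩], []⟩, ⟨[], [], [⟨1, 1, 1, 1, 1⟩]⟩⟩, ⟨1, 1, 1, 359, 1⟩, [(347,
  [⟨1, 1, 347, 1, 359⟩])], []⟩ [] [(359, ⟨1, 1, 1, 1, 1⟩)] [] [] 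
  (.call false ⟨mone, mone, ⟨1, 1, 1, 1, 1⟩, [(103, [⟨1, 2, 1, 1, 307⟩, ⟨1, 2, 1, 94249, 1⟩]), (151, [⟨1, 2, 1,
  1, 307⟩, ⟨-1, 2, 1, 94249, 1⟩]), (307, [⟨1, 1, 1, 307, 1⟩])],
  []⟩ 103))))))))))))))))))))))))))))))))))))))))))) 
  (.zero [([⟨1, 1, 1, 1, 1⟩], 2253)] 7 1 
  (.zero [([⟨1, 1, 1, 1, 1⟩], 2254)] 11 1 
  (.zero [([⟨1, 1, 1, 1, 1⟩], 2335)] 41 1 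
  (.zero [([⟨1, 1, 1, 1, 1⟩], 1660)] 31 1 
  (.zero [([⟨1, 1, 1, 1, 1⟩], 1691)] 43 1 
  (.zero [([⟨1, 1, 1, 1, 1⟩], 2496)] 19 1 
  (.zero [([⟨1, 1, 1, 1, 1⟩], 1875)] 37 1 
  (.zero [([⟨1, 1, 1, 1, 1⟩], 2739)] 59 1 
  (.zero [([⟨1, 1, 1, 1, 1⟩], 2740)] 71 1 
  (.zero [([⟨1, 1, 1, 1, 1⟩], 2741)] 83 1 
  (.zero [([⟨1, 1, 1, 1, 1⟩], 2118)] 73 1 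
  (.zero [([⟨1, 1, 1, 1, 1⟩], 2119)] 79 1 
  (.zero [([⟨1, 1, 1, 1, 1⟩], 2577)] 97 1 
  (.zero [([⟨1, 1, 1, 1, 1⟩], 2578)] 101 1 
  (.zero [([⟨1, 1, 1, 1, 1⟩], 2820)] 109 1 
  (.zero [([⟨1, 1, 1, 1, 1⟩], 2821)] 131 1 
  (.zero [([⟨1, 1, 1, 1, 1⟩], 2822)] 149 1 
  (.zero [([⟨1, 1, 1, 1, 1⟩], 1434)] 307 1 
  (.zero [([⟨1, 1, 1, 1, 1⟩], 2145)] 137 1 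
  (.zero [([⟨1, 1, 1, 1, 1⟩], 2146)] 139 1 
  (.zero [([⟨1, 1, 1, 1, 1⟩], 1432)] 251 1 
  (.zero [([⟨1, 1, 1, 1, 1⟩], 1683)] 13 1 
  (.zero [([⟨1, 1, 1, 1, 1⟩], 1687)] 29 1 
  (.elim [([⟨-1, 1, 1, 1, 367⟩], 1686)] 17 
  (.elim [([⟨1, 1, 1, 1, 367⟩], 1684)] 23 
  (.elim [([⟨-1, 1, 1, 1, 367⟩], 1929)] 89 
  (.elim [([⟨-1, 1, 1, 1, 367⟩], 2893)] 113 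
  (.elim [([⟨1, 1, 1, 1, 367⟩], 2170)] 107 
  (.elim [([⟨1, 1, 1, 1, 367⟩], 2173)] 127 
  (.elim [([⟨1, 1, 1, 1, 367⟩], 2892)] 103 
  (.elim [([⟨-1, 2, 1, 1, 367⟩], 2902)] 163 
  (.elim [([⟨-1, 1, 1, 1, 367⟩], 2901)] 157 
  (.act ⟨⟨⟨[⟨1, 1, 1, 1, 1⟩], [⟨-1, 1, 349, 1, 367⟩], []⟩, ⟨[], [⟨1, 1, 1, 1, 1⟩], []⟩, ⟨[], [], [⟨1, 1, 1, 1,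
  1⟩]⟩⟩, ⟨⟨[⟨1, 1, 1, 1, 1⟩], [⟨1, 1, 349, 1, 367⟩], []⟩, ⟨[], [⟨1, 1, 1, 1, 1⟩], []⟩, ⟨[], [], [⟨1, 1, 1, 1,
  1⟩]⟩⟩, ⟨1, 1, 1, 1, 1⟩, [(47, [⟨1, 1, 47, 1, 1⟩, ⟨-1, 1, 18497, 1, 367⟩, ⟨1, 1, 21289, 1, 367⟩, ⟨1, 1,
  8160667, 1, 134689⟩]), (53, [⟨1, 1, 53, 1, 1⟩, ⟨-1, 1, 23383, 1, 367⟩]), (61, [⟨1, 1, 61, 1, 1⟩, ⟨1, 1,
  23383, 1, 367⟩]), (347, [⟨1, 1, 347, 1, 1⟩, ⟨-1, 1, 125291, 1, 367⟩]), (359, [⟨-1, 1, 349, 1, 1⟩, ⟨1, 1, 359,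
  1, 1⟩])], []⟩ [(349, [])] [] [] [] 
  (.act ⟨mone, mone, ⟨1, 1, 1, 1, 367⟩, [(5, [⟨1, 1, 5, 1, 367⟩]), (47, [⟨1, 1, 47, 1, 367⟩]), (53, [⟨1, 1, 53,
  1, 367⟩]), (67, [⟨1, 1, 67, 1, 367⟩]), (61, [⟨1, 1, 61, 1, 367⟩]), (151, [⟨1, 1, 151, 1, 367⟩]), (347, [⟨1,
  1, 347, 1, 367⟩]), (359, [⟨1, 1, 359, 1, 367⟩])], []⟩ [] [(367, ⟨1, 1, 1, 1, 1⟩)] [] [] 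
  (.split 359 
  (.split 347 
  (.split 5 
  (.split 47 
  (.zero [([⟨1, 1, 1, 1, 1⟩], 226)] 61 2 
  (.zero [([⟨1, 1, 1, 1, 1⟩], 220)] 53 2 
  (.split 67 
  (.call false ⟨mone, mone, ⟨1, 1, 1, 1, 1⟩, [(347, []), (349, []), (359, []), (367, [⟨1, 1, 1, 1, 1⟩])],
  []⟩ 102) 
  (.zero [([⟨1, 1, 1, 1, 1⟩], 715)] 151 1 
  (.call false ⟨⟨⟨[], [⟨1, 1, 1, 1, 1⟩], []⟩, ⟨[⟨1, 1, 1, 1, 1⟩], [], []⟩, ⟨[], [], [⟨1, 1, 1, 1, 1⟩]⟩⟩, ⟨⟨[],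
  [⟨1, 1, 1, 1, 1⟩], []⟩, ⟨[⟨1, 1, 1, 1, 1⟩], [], []⟩, ⟨[], [], [⟨1, 1, 1, 1, 1⟩]⟩⟩, ⟨1, 1, 1, 1, 1⟩, [(103,
  [⟨1, 1, 1, 67, 1⟩]), (233, []), (251, []), (307, []), (347, [⟨1, 1, 1, 1, 1⟩])], []⟩ 100))))) 
  (.zero [([⟨1, 1, 1, 1, 1⟩], 703)] 151 1 
  (.elim [([⟨1, 1, 1, 1, 47⟩], 217)] 53 
  (.elim [([⟨1, 1, 1, 1, 47⟩], 226)] 67 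
  (.act ⟨⟨⟨[⟨1, 1, 1, 1, 47⟩], [], []⟩, ⟨[], [⟨1, 1, 1, 1, 1⟩], []⟩, ⟨[], [], [⟨1, 1, 1, 1, 1⟩]⟩⟩, ⟨⟨[⟨1, 1, 1,
  47, 1⟩], [], []⟩, ⟨[], [⟨1, 1, 1, 1, 1⟩], []⟩, ⟨[], [], [⟨1, 1, 1, 1, 1⟩]⟩⟩, ⟨1, 1, 1, 1, 1⟩, [],
  []⟩ [] [(47, ⟨1, 1, 1, 1, 1⟩)] [] [] 
  (.split 61 
  (.call false ⟨mone, mone, ⟨1, 1, 1, 1, 1⟩, [], []⟩ 40) 
  (.act ⟨⟨⟨[⟨1, 1, 1, 3721, 1⟩], [], []⟩, ⟨[], [⟨1, 1, 1, 61, 1⟩], []⟩, ⟨[], [], [⟨1, 1, 1, 1, 1⟩]⟩⟩, ⟨⟨[⟨1, 1,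
  1, 1, 3721⟩], [], []⟩, ⟨[], [⟨1, 1, 1, 1, 61⟩], []⟩, ⟨[], [], [⟨1, 1, 1, 1, 1⟩]⟩⟩, ⟨1, 1, 1, 1, 3721⟩, [],
  []⟩ [] [(61, ⟨1, 1, 1, 1, 1⟩)] [] [] 
  (.call false ⟨⟨⟨[⟨1, 1, 1, 1, 1⟩], [], []⟩, ⟨[⟨1, 1, 1, 1, 1⟩], [⟨1, 1, 1, 1, 1⟩], []⟩, ⟨[], [], [⟨1, 1, 1,
  1, 1⟩]⟩⟩, ⟨⟨[⟨1, 1, 1, 1, 1⟩], [], []⟩, ⟨[⟨-1, 1, 1, 1, 1⟩], [⟨1, 1, 1, 1, 1⟩], []⟩, ⟨[], [], [⟨1, 1, 1, 1,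
  1⟩]⟩⟩, ⟨1, 1, 1, 1, 1⟩, [], []⟩ 40)))))))) 
  (.zero [([⟨1, 1, 1, 1, 1⟩], 67)] 67 1 
  (.zero [([⟨1, 1, 1, 1, 1⟩], 55)] 47 1 
  (.elim [([⟨1, 1, 1, 1, 5⟩], 64)] 53 
  (.elim [([⟨1, 1, 1, 1, 5⟩], 226)] 151 
  (.act ⟨⟨⟨[⟨1, 1, 1, 1, 1⟩], [], [⟨1, 1, 61, 1, 5⟩]⟩, ⟨[], [⟨1, 1, 1, 1, 1⟩], []⟩, ⟨[], [], [⟨1, 1, 1, 1,
  1⟩]⟩⟩, ⟨⟨[⟨1, 1, 1, 1, 1⟩], [], [⟨-1, 1, 61, 1, 5⟩]⟩, ⟨[], [⟨1, 1, 1, 1, 1⟩], []⟩, ⟨[], [], [⟨1, 1, 1, 1,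
  1⟩]⟩⟩, ⟨1, 1, 1, 1, 1⟩, [], []⟩ [(61, [])] [] [] [] 
  (.act ⟨⟨⟨[⟨1, 1, 1, 5, 1⟩], [], []⟩, ⟨[], [⟨1, 1, 1, 1, 1⟩], []⟩, ⟨[], [], [⟨1, 1, 1, 1, 1⟩]⟩⟩, ⟨⟨[⟨1, 1, 1,
  1, 5⟩], [], []⟩, ⟨[], [⟨1, 1, 1, 1, 1⟩], []⟩, ⟨[], [], [⟨1, 1, 1, 1, 1⟩]⟩⟩, ⟨1, 1, 1, 1, 1⟩, [], []⟩ [] [(5,
  ⟨1, 1, 1, 1, 1⟩)] [] [] 
  (.call false ⟨⟨⟨[], [⟨1, 1, 1, 1, 1⟩], []⟩, ⟨[⟨-1, 1, 1, 1, 1⟩], [], []⟩, ⟨[], [], [⟨1, 1, 1, 1, 1⟩]⟩⟩, ⟨⟨[],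
  [⟨-1, 1, 1, 1, 1⟩], []⟩, ⟨[⟨1, 1, 1, 1, 1⟩], [], []⟩, ⟨[], [], [⟨1, 1, 1, 1, 1⟩]⟩⟩, ⟨1, 1, 1, 1, 1⟩, [],
  []⟩ 38)))))))) 
  (.zero [([⟨1, 1, 1, 1, 1⟩], 1675)] 5 1 
  (.zero [([⟨1, 1, 1, 1, 1⟩], 2163)] 61 1 
  (.zero [([⟨1, 1, 1, 1, 1⟩], 2164)] 67 1 
  (.zero [([⟨1, 1, 1, 1, 1⟩], 2898)] 53 1 
  (.zero [([⟨1, 1, 1, 1, 1⟩], 2160)] 47 1 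
  (.call false ⟨mone, mone, ⟨1, 1, 1, 1, 1⟩, [(347, [⟨1, 1, 1, 347, 1⟩]), (349, []), (359, []), (367, [⟨1, 1,
  1, 1, 1⟩])], []⟩ 102))))))) 
  (.zero [([⟨1, 1, 1, 1, 1⟩], 2407)] 5 1 
  (.elim [([⟨1, 1, 1, 1, 359⟩], 2169)] 47 
  (.elim [([⟨-1, 1, 1, 1, 359⟩], 2172)] 53 
  (.zero [([⟨1, 1, 1, 1, 1⟩], 471)] 61 2 
  (.zero [([⟨1, 1, 1, 1, 1⟩], 472)] 67 2 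
  (.call false ⟨mone, mone, ⟨1, 1, 1, 1, 1⟩, [(349, []), (359, [⟨1, 1, 1, 359, 1⟩]), (367, [⟨1, 1, 1, 1, 1⟩])],
  []⟩ 102)))))))))))))))))))))))))))))))))))))))))) 
  (.zero [([⟨1, 1, 1, 1, 1⟩], 2216)] 11 1 
  (.zero [([⟨1, 1, 1, 1, 1⟩], 1572)] 7 1 
  (.zero [([⟨1, 1, 1, 1, 1⟩], 1814)] 31 1 
  (.zero [([⟨1, 1, 1, 1, 1⟩], 1815)] 37 1 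
  (.zero [([⟨1, 1, 1, 1, 1⟩], 1816)] 41 1 
  (.zero [([⟨1, 1, 1, 1, 1⟩], 1817)] 43 1 
  (.zero [([⟨1, 1, 1, 1, 1⟩], 2556)] 19 1 
  (.zero [([⟨1, 1, 1, 1, 1⟩], 2058)] 73 1 
  (.zero [([⟨1, 1, 1, 1, 1⟩], 2059)] 79 1 
  (.zero [([⟨1, 1, 1, 1, 1⟩], 2060)] 83 1 
  (.zero [([⟨1, 1, 1, 1, 1⟩], 2799)] 59 1 
  (.zero [([⟨1, 1, 1, 1, 1⟩], 2800)] 71 1 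
  (.zero [([⟨1, 1, 1, 1, 1⟩], 1569)] 5 1 
  (.zero [([⟨1, 1, 1, 1, 1⟩], 1812)] 23 1 
  (.zero [([⟨1, 1, 1, 1, 1⟩], 1813)] 29 1 
  (.zero [([⟨1, 1, 1, 1, 1⟩], 2055)] 61 1 
  (.zero [([⟨1, 1, 1, 1, 1⟩], 2056)] 67 1 
  (.zero [([⟨1, 1, 1, 1, 1⟩], 1350)] 359 1 
  (.zero [([⟨1, 1, 1, 1, 1⟩], 1353)] 367 1 
  (.zero [([⟨1, 1, 1, 1, 1⟩], 2547)] 17 1 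
  (.zero [([⟨1, 1, 1, 1, 1⟩], 1188)] 349 1 
  (.zero [([⟨1, 1, 1, 1, 1⟩], 2790)] 53 1 
  (.zero [([⟨1, 1, 1, 1, 1⟩], 2540)] 101 1 
  (.zero [([⟨1, 1, 1, 1, 1⟩], 2864)] 163 1 
  (.elim [([⟨1, 1, 1, 1, 233⟩], 2621)] 131 
  (.elim [([⟨-1, 1, 1, 1, 233⟩], 1838)] 139 
  (.elim [([⟨1, 1, 1, 1, 233⟩], 2620)] 127 
  (.elim [([⟨1, 1, 1, 1, 233⟩], 1809)] 13 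
  (.elim [([⟨1, 1, 1, 1, 233⟩], 2052)] 47 
  (.elim [([⟨-1, 2, 1, 1, 233⟩], 2538)] 89 
  (.elim [([⟨-1, 1, 1, 1, 233⟩], 2781)] 107 
  (.elim [([⟨1, 1, 1, 1, 233⟩], 2079)] 151 
  (.elim [([⟨-1, 1, 1, 1, 233⟩], 2619)] 113 
  (.act ⟨⟨⟨[⟨1, 1, 1, 1, 1⟩], [], []⟩, ⟨[], [⟨1, 1, 1, 1, 1⟩], [⟨1, 1, 251, 1, 233⟩]⟩, ⟨[], [], [⟨1, 1, 1, 1,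
  1⟩]⟩⟩, ⟨⟨[⟨1, 1, 1, 1, 1⟩], [], []⟩, ⟨[], [⟨1, 1, 1, 1, 1⟩], [⟨-1, 1, 251, 1, 233⟩]⟩, ⟨[], [], [⟨1, 1, 1, 1,
  1⟩]⟩⟩, ⟨1, 1, 1, 1, 1⟩, [(109, [⟨1, 1, 109, 1, 1⟩, ⟨-1, 1, 24347, 1, 233⟩]), (137, [⟨1, 1, 137, 1, 1⟩, ⟨-1,
  1, 24347, 1, 233⟩]), (151, [⟨-1, 1, 6867109, 1, 54289⟩, ⟨1, 1, 8399213, 1, 54289⟩, ⟨1, 1, 8631137, 1, 54289⟩,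
  ⟨-1, 1, 10556809, 1, 54289⟩, ⟨1, 2, 1533885347, 1, 12649337⟩, ⟨-1, 1, 1876106779, 1, 12649337⟩, ⟨1, 2,
  2294680403, 1, 12649337⟩]), (157, [⟨1, 1, 157, 1, 1⟩, ⟨-1, 1, 27359, 1, 233⟩, ⟨-1, 1, 34387, 1, 233⟩, ⟨1, 1,
  6111097, 1, 54289⟩]), (163, [⟨-1, 1, 9387149, 1, 54289⟩, ⟨1, 1, 11481493, 1, 54289⟩]), (307, [⟨-1, 1, 251, 1,
  1⟩, ⟨1, 1, 307, 1, 1⟩]), (347, [⟨1, 1, 347, 1, 1⟩, ⟨-1, 1, 77057, 1, 233⟩])], []⟩ [(251, [])] [] [(73, [⟨1,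
  1, 151, 1, 1⟩]), (75, [⟨-1, 1, 151, 1, 1⟩]), (77, [⟨1, 1, 163, 1, 1⟩]), (79, [⟨-1, 1, 163, 1, 1⟩])] [] 
  (.zero [([⟨1, 1, 1, 1, 1⟩], 2079)] 151 1 
  (.zero [([⟨1, 1, 1, 1, 1⟩], 2081)] 163 1 
  (.act ⟨mone, mone, ⟨1, 1, 1, 1, 233⟩, [(97, [⟨1, 1, 97, 1, 233⟩]), (103, [⟨1, 1, 103, 1, 233⟩]), (109, [⟨1,
  1, 109, 1, 233⟩]), (149, [⟨1, 1, 149, 1, 233⟩]), (137, [⟨1, 1, 137, 1, 233⟩]), (157, [⟨1, 1, 157, 1, 233⟩]),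
  (307, [⟨1, 1, 307, 1, 233⟩]), (347, [⟨1, 1, 347, 1, 233⟩])], []⟩ [] [(233, ⟨1, 1, 1, 1, 1⟩)] [] [] 
  (.split 307 
  (.split 347 
  (.split 97 
  (.split 157 
  (.split 149 
  (.zero [([⟨1, 1, 1, 1, 1⟩], 380)] 109 2 
  (.zero [([⟨1, 1, 1, 1, 1⟩], 396)] 137 2 
  (.call false ⟨mone, mone, ⟨1, 1, 1, 1, 1⟩, [(233, [⟨1, 1, 1, 1, 1⟩]), (251, []), (307, []), (347, [])],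
  []⟩ 100))) 
  (.elim [([⟨1, 1, 1, 1, 149⟩], 398)] 109 
  (.elim [([⟨-1, 1, 1, 1, 149⟩], 380)] 103 
  (.act ⟨⟨⟨[⟨1, 1, 1, 1, 1⟩], [], [⟨1, 1, 137, 1, 149⟩]⟩, ⟨[], [⟨1, 1, 1, 1, 1⟩], []⟩, ⟨[], [], [⟨1, 1, 1, 1,
  1⟩]⟩⟩, ⟨⟨[⟨1, 1, 1, 1, 1⟩], [], [⟨-1, 1, 137, 1, 149⟩]⟩, ⟨[], [⟨1, 1, 1, 1, 1⟩], []⟩, ⟨[], [], [⟨1, 1, 1, 1,
  1⟩]⟩⟩, ⟨1, 1, 1, 1, 1⟩, [], []⟩ [(137, [])] [] [] [] 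
  (.act ⟨⟨⟨[⟨1, 1, 1, 1, 1⟩], [], []⟩, ⟨[], [⟨1, 1, 1, 1, 149⟩], []⟩, ⟨[], [], [⟨1, 1, 1, 1, 1⟩]⟩⟩, ⟨⟨[⟨1, 1,
  1, 1, 1⟩], [], []⟩, ⟨[], [⟨1, 1, 1, 149, 1⟩], []⟩, ⟨[], [], [⟨1, 1, 1, 1, 1⟩]⟩⟩, ⟨1, 1, 1, 1, 22201⟩, [],
  []⟩ [] [(149, ⟨1, 1, 1, 1, 1⟩)] [] [] 
  (.call false ⟨⟨⟨[], [], [⟨-1, 1, 1, 1, 1⟩]⟩, ⟨[⟨1, 1, 1, 1, 1⟩], [], []⟩, ⟨[], [⟨1, 1, 1, 1, 1⟩], []⟩⟩, ⟨⟨[],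
  [⟨1, 1, 1, 1, 1⟩], []⟩, ⟨[], [], [⟨1, 1, 1, 1, 1⟩]⟩, ⟨[⟨-1, 1, 1, 1, 1⟩], [], []⟩⟩, ⟨1, 1, 1, 1, 1⟩, [],
  []⟩ 40)))))) 
  (.zero [([⟨1, 1, 1, 1, 1⟩], 459)] 103 1 
  (.zero [([⟨1, 1, 1, 1, 1⟩], 483)] 149 1 
  (.zero [([⟨1, 1, 1, 1, 1⟩], 380)] 109 2 
  (.zero [([⟨1, 1, 1, 1, 1⟩], 396)] 137 2 
  (.act ⟨⟨⟨[⟨1, 1, 1, 157, 1⟩], [], []⟩, ⟨[], [⟨1, 1, 1, 1, 1⟩], []⟩, ⟨[], [], [⟨1, 1, 1, 1, 1⟩]⟩⟩, ⟨⟨[⟨1, 1,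
  1, 1, 157⟩], [], []⟩, ⟨[], [⟨1, 1, 1, 1, 1⟩], []⟩, ⟨[], [], [⟨1, 1, 1, 1, 1⟩]⟩⟩, ⟨1, 1, 1, 1, 24649⟩, [],
  []⟩ [] [(157, ⟨1, 1, 1, 1, 1⟩)] [] [] 
  (.call false ⟨⟨⟨[⟨1, 1, 1, 1, 1⟩], [], []⟩, ⟨[], [], [⟨1, 1, 1, 1, 1⟩]⟩, ⟨[], [⟨1, 1, 1, 1, 1⟩], []⟩⟩, ⟨⟨[⟨1,
  1, 1, 1, 1⟩], [], []⟩, ⟨[], [], [⟨1, 1, 1, 1, 1⟩]⟩, ⟨[], [⟨1, 1, 1, 1, 1⟩], []⟩⟩, ⟨1, 1, 1, 1, 1⟩, [],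
  []⟩ 38))))))) 
  (.zero [([⟨1, 1, 1, 1, 1⟩], 351)] 103 1 
  (.zero [([⟨1, 1, 1, 1, 1⟩], 359)] 149 1 
  (.elim [([⟨1, 1, 1, 1, 97⟩], 353)] 109 
  (.elim [([⟨-1, 1, 1, 1, 97⟩], 380)] 157 
  (.act ⟨⟨⟨[⟨1, 1, 1, 97, 1⟩], [], []⟩, ⟨[], [⟨1, 1, 1, 1, 1⟩], []⟩, ⟨[], [], [⟨1, 1, 1, 1, 1⟩]⟩⟩, ⟨⟨[⟨1, 1, 1,
  1, 97⟩], [], []⟩, ⟨[], [⟨1, 1, 1, 1, 1⟩], []⟩, ⟨[], [], [⟨1, 1, 1, 1, 1⟩]⟩⟩, ⟨1, 1, 1, 1, 9409⟩, [(137, [⟨1,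
  1, 137, 1, 97⟩])], []⟩ [] [(97, ⟨1, 1, 1, 1, 1⟩)] [] [] 
  (.split 137 
  (.call false ⟨⟨⟨[⟨1, 1, 1, 1, 1⟩], [], []⟩, ⟨[], [], [⟨1, 1, 1, 1, 1⟩]⟩, ⟨[], [⟨1, 1, 1, 1, 1⟩], []⟩⟩, ⟨⟨[⟨1,
  1, 1, 1, 1⟩], [], []⟩, ⟨[], [], [⟨1, 1, 1, 1, 1⟩]⟩, ⟨[], [⟨1, 1, 1, 1, 1⟩], []⟩⟩, ⟨1, 1, 1, 1, 1⟩, [(151,
  [⟨1, 1, 1, 1, 1⟩]), (347, [⟨1, 1, 1, 1, 1⟩]), (349, []), (359, []), (367, [])], []⟩ 102) 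
  (.act ⟨⟨⟨[⟨1, 1, 1, 1, 1⟩], [], []⟩, ⟨[], [⟨1, 1, 1, 1, 137⟩], []⟩, ⟨[], [], [⟨1, 1, 1, 1, 1⟩]⟩⟩, ⟨⟨[⟨1, 1,
  1, 1, 1⟩], [], []⟩, ⟨[], [⟨1, 1, 1, 137, 1⟩], []⟩, ⟨[], [], [⟨1, 1, 1, 1, 1⟩]⟩⟩, ⟨1, 1, 1, 1, 18769⟩, [],
  []⟩ [] [(137, ⟨1, 1, 1, 1, 1⟩)] [] [] 
  (.call false ⟨⟨⟨[⟨1, 1, 1, 1, 1⟩], [], []⟩, ⟨[], [⟨1, 1, 1, 1, 1⟩], [⟨1, 1, 1, 1, 1⟩]⟩, ⟨[], [⟨1, 1, 1, 1,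
  1⟩], []⟩⟩, ⟨⟨[⟨1, 1, 1, 1, 1⟩], [], []⟩, ⟨[], [], [⟨1, 1, 1, 1, 1⟩]⟩, ⟨[], [⟨1, 1, 1, 1, 1⟩], [⟨-1, 1, 1, 1,
  1⟩]⟩⟩, ⟨1, 1, 1, 1, 1⟩, [], []⟩ 38))))))))) 
  (.zero [([⟨1, 1, 1, 1, 1⟩], 2565)] 97 1 
  (.zero [([⟨1, 1, 1, 1, 1⟩], 1919)] 149 1 
  (.zero [([⟨1, 1, 1, 1, 1⟩], 2808)] 109 1 
  (.zero [([⟨1, 1, 1, 1, 1⟩], 2133)] 137 1 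
  (.zero [([⟨1, 1, 1, 1, 1⟩], 2160)] 157 1 
  (.call false ⟨mone, mone, ⟨1, 1, 1, 1, 1⟩, [(233, [⟨1, 1, 1, 1, 1⟩]), (251, []), (307, []), (347, [⟨1, 1, 1,
  347, 1⟩])], []⟩ 100))))))) 
  (.zero [([⟨1, 1, 1, 1, 1⟩], 392)] 149 2 
  (.zero [([⟨1, 1, 1, 1, 1⟩], 465)] 109 2 
  (.elim [([⟨1, 1, 1, 1, 307⟩], 1836)] 137 
  (.zero [([⟨1, 1, 1, 1, 1⟩], 108)] 97 2 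
  (.zero [([⟨1, 1, 1, 1, 1⟩], 2862)] 157 1 
  (.call false ⟨mone, mone, ⟨1, 1, 1, 1, 1⟩, [(233, [⟨1, 1, 1, 1, 1⟩]), (251, []), (307, [⟨1, 1, 1, 307, 1⟩])],
  []⟩ 100)))))))))))))))))))))))))))))))))))))))))))))) 
  (.zero [([⟨1, 1, 1, 1, 1⟩], 2246)] 11 1 
  (.zero [([⟨1, 1, 1, 1, 1⟩], 1542)] 7 1 
  (.zero [([⟨1, 1, 1, 1, 1⟩], 1570)] 31 1 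
  (.zero [([⟨1, 1, 1, 1, 1⟩], 1601)] 43 1 
  (.zero [([⟨1, 1, 1, 1, 1⟩], 1785)] 37 1 
  (.zero [([⟨1, 1, 1, 1, 1⟩], 1786)] 41 1 
  (.zero [([⟨1, 1, 1, 1, 1⟩], 2586)] 19 1 
  (.zero [([⟨1, 1, 1, 1, 1⟩], 2028)] 73 1 
  (.zero [([⟨1, 1, 1, 1, 1⟩], 2029)] 79 1 
  (.zero [([⟨1, 1, 1, 1, 1⟩], 2030)] 83 1 
  (.zero [([⟨1, 1, 1, 1, 1⟩], 2829)] 59 1 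
  (.zero [([⟨1, 1, 1, 1, 1⟩], 2830)] 71 1 
  (.zero [([⟨1, 1, 1, 1, 1⟩], 2244)] 5 1 
  (.zero [([⟨1, 1, 1, 1, 1⟩], 2488)] 29 1 
  (.zero [([⟨1, 1, 1, 1, 1⟩], 2325)] 23 1 
  (.zero [([⟨1, 1, 1, 1, 1⟩], 2570)] 101 1 
  (.zero [([⟨1, 1, 1, 1, 1⟩], 1842)] 97 1 
  (.zero [([⟨1, 1, 1, 1, 1⟩], 2487)] 17 1 
  (.zero [([⟨1, 1, 1, 1, 1⟩], 2085)] 137 1 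
  (.zero [([⟨1, 1, 1, 1, 1⟩], 2086)] 139 1 
  (.zero [([⟨1, 1, 1, 1, 1⟩], 2087)] 149 1 
  (.zero [([⟨1, 1, 1, 1, 1⟩], 2730)] 53 1 
  (.zero [([⟨1, 1, 1, 1, 1⟩], 2731)] 67 1 
  (.zero [([⟨1, 1, 1, 1, 1⟩], 2084)] 131 1 
  (.zero [([⟨1, 1, 1, 1, 1⟩], 2894)] 163 1 
  (.zero [([⟨1, 1, 1, 1, 1⟩], 1593)] 13 1 
  (.zero [([⟨1, 1, 1, 1, 1⟩], 2081)] 109 1 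
  (.zero [([⟨1, 1, 1, 1, 1⟩], 2080)] 107 1 
  (.zero [([⟨1, 1, 1, 1, 1⟩], 2083)] 127 1 
  (.zero [([⟨1, 1, 1, 1, 1⟩], 2406)] 61 1 
  (.zero [([⟨1, 1, 1, 1, 1⟩], 2568)] 89 1 
  (.zero [([⟨1, 1, 1, 1, 1⟩], 2649)] 113 1 
  (.zero [([⟨1, 1, 1, 1, 1⟩], 2817)] 317 1 
  (.zero [([⟨1, 1, 1, 1, 1⟩], 2811)] 47 1 
  (.zero [([⟨1, 1, 1, 1, 1⟩], 2164)] 367 1 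
  (.zero [([⟨1, 1, 1, 1, 1⟩], 2565)] 233 1 
  (.zero [([⟨1, 1, 1, 1, 1⟩], 2082)] 157 1 
  (.zero [([⟨1, 1, 1, 1, 1⟩], 2808)] 307 1 
  (.contra [([⟨1, 1, 1, 1, 1⟩], 1353)])))))))))))))))))))))))))))))))))))))))

theorem okQ : sQ.seq (check true (LB.take 104) tQ) = true := by decide +kernel

end

end Pool.Agent.Lib.MP_4e1a58_mp
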