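import Pool.Agent.Lib.MP_4e1a58_mp.States

/-! Generated certificates. -/

namespace Pool.Agent.Lib.MP_4e1a58_mp

set_option maxRecDepth 100000

noncomputable section

def tR2 : Tree := .split 181 
  (.zero [([⟨1, 1, 1, 1, 1⟩], 1081)] 397 2 
  (.split 199 
  (.split 197 
  (.split 421 
  (.zero [([⟨1, 1, 1, 1, 1⟩], 1445)] 443 2 
  (.split 419 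
  (.split 433 
  (.zero [([⟨1, 1, 1, 1, 1⟩], 1433)] 439 2 
  (.call false ⟨mone, mone, ⟨1, 1, 1, 1, 1⟩, [], []⟩ 104)) 
  (.zero [([⟨1, 1, 1, 1, 1⟩], 1116)] 257 1 
  (.zero [([⟨1, 1, 1, 1, 1⟩], 1197)] 349 1 
  (.zero [([⟨1, 1, 1, 1, 1⟩], 1198)] 367 1 
  (.elim [([⟨1, 1, 1, 1, 433⟩], 1190)] 317 
  (.elim [([⟨1, 1, 1, 1, 433⟩], 1433)] 359 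
  (.elim [([⟨1, 1, 1, 1, 433⟩], 1107)] 251 
  (.elim [([⟨1, 1, 1, 1, 433⟩], 1188)] 347 
  (.act ⟨⟨⟨[⟨1, 1, 1, 1, 1⟩], [], []⟩, ⟨[], [⟨1, 1, 1, 1, 1⟩], [⟨1, 1, 439, 1, 433⟩]⟩, ⟨[], [], [⟨1, 1, 1, 1,
  1⟩]⟩⟩, ⟨⟨[⟨1, 1, 1, 1, 1⟩], [], []⟩, ⟨[], [⟨1, 1, 1, 1, 1⟩], [⟨-1, 1, 439, 1, 433⟩]⟩, ⟨[], [], [⟨1, 1, 1, 1,
  1⟩]⟩⟩, ⟨1, 1, 1, 1, 1⟩, [(5, [⟨1, 1, 5, 1, 1⟩, ⟨1, 1, 3073, 1, 433⟩]), (17, [⟨1, 1, 17, 1, 1⟩, ⟨1, 1, 8341,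
  1, 433⟩]), (29, [⟨1, 1, 29, 1, 1⟩, ⟨1, 1, 13609, 1, 433⟩, ⟨-1, 1, 17999, 1, 433⟩, ⟨1, 1, 8287003, 1,
  187489⟩]), (31, [⟨1, 1, 31, 1, 1⟩, ⟨1, 1, 18877, 1, 433⟩]), (47, [⟨1, 1, 47, 1, 1⟩, ⟨-1, 1, 5707, 1, 433⟩]),
  (53, [⟨1, 1, 53, 1, 1⟩, ⟨-1, 1, 7463, 1, 433⟩, ⟨1, 1, 25901, 1, 433⟩, ⟨-1, 1, 3661699, 1, 187489⟩]), (59,
  [⟨1, 1, 59, 1, 1⟩, ⟨-1, 1, 8341, 1, 433⟩]), (67, [⟨1, 1, 67, 1, 1⟩, ⟨-1, 1, 12731, 1, 433⟩, ⟨1, 1, 31169, 1,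
  433⟩, ⟨-1, 1, 34681, 1, 433⟩, ⟨-1, 1, 5974351, 1, 187489⟩, ⟨1, 1, 7901561, 1, 187489⟩, ⟨1, 1, 15995843, 1,
  187489⟩, ⟨-1, 1, 3637994317, 1, 81182737⟩]), (71, [⟨1, 1, 71, 1, 1⟩, ⟨-1, 1, 13609, 1, 433⟩, ⟨1, 1, 36437, 1,
  433⟩, ⟨-1, 1, 8287003, 1, 187489⟩]), (83, [⟨1, 1, 83, 1, 1⟩, ⟨-1, 1, 18877, 1, 433⟩]), (23, [⟨1, 1, 23, 1,
  1⟩, ⟨1, 1, 16243, 1, 433⟩]), (41, [⟨1, 1, 41, 1, 1⟩, ⟨-1, 1, 18877, 1, 433⟩]), (89, [⟨1, 1, 89, 1, 1⟩, ⟨1, 1,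
  42583, 1, 433⟩]), (107, [⟨1, 1, 107, 1, 1⟩, ⟨-1, 1, 39071, 1, 433⟩, ⟨1, 1, 47851, 1, 433⟩, ⟨-1, 1, 18693937,
  1, 187489⟩]), (109, [⟨1, 1, 109, 1, 1⟩, ⟨-1, 1, 42583, 1, 433⟩]), (127, [⟨1, 1, 127, 1, 1⟩, ⟨1, 1, 57509, 1,
  433⟩, ⟨-1, 1, 61021, 1, 433⟩, ⟨1, 1, 28715429, 1, 187489⟩]), (131, [⟨1, 1, 131, 1, 1⟩, ⟨-1, 1, 44339, 1,
  433⟩, ⟨1, 1, 65411, 1, 433⟩]), (61, [⟨1, 1, 61, 1, 1⟩, ⟨-1, 1, 10097, 1, 433⟩, ⟨1, 1, 32047, 1, 433⟩, ⟨-1, 1,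
  7130677, 1, 187489⟩]), (73, [⟨1, 1, 73, 1, 1⟩, ⟨-1, 1, 16243, 1, 433⟩]), (79, [⟨1, 1, 79, 1, 1⟩, ⟨-1, 1,
  17999, 1, 433⟩, ⟨-1, 1, 36437, 1, 433⟩, ⟨1, 1, 8287003, 1, 187489⟩]), (113, [⟨1, 1, 113, 1, 1⟩, ⟨-1, 1,
  39071, 1, 433⟩, ⟨1, 1, 60143, 1, 433⟩, ⟨-1, 1, 18693937, 1, 187489⟩]), (137, [⟨1, 1, 137, 1, 1⟩, ⟨-1, 1,
  42583, 1, 433⟩]), (139, [⟨1, 1, 139, 1, 1⟩, ⟨-1, 1, 44339, 1, 433⟩, ⟨-1, 1, 65411, 1, 433⟩]), (151, [⟨1, 1,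
  151, 1, 1⟩, ⟨-1, 1, 46973, 1, 433⟩, ⟨-1, 1, 49607, 1, 433⟩, ⟨1, 1, 68923, 1, 433⟩, ⟨1, 1, 17152169, 1,
  187489⟩, ⟨-1, 1, 21006589, 1, 187489⟩, ⟨-1, 1, 26402777, 1, 187489⟩, ⟨1, 1, 8206638343, 1, 81182737⟩]), (157,
  [⟨1, 1, 157, 1, 1⟩, ⟨-1, 1, 47851, 1, 433⟩, ⟨-1, 1, 60143, 1, 433⟩, ⟨1, 1, 18693937, 1, 187489⟩]), (163, [⟨1,
  1, 163, 1, 1⟩, ⟨-1, 1, 57509, 1, 433⟩, ⟨-1, 1, 61021, 1, 433⟩, ⟨1, 1, 19464821, 1, 187489⟩]), (307, [⟨1, 1,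
  307, 1, 1⟩, ⟨-1, 1, 102287, 1, 433⟩])], []⟩ [(439, [])] [] [] [] 
  (.call false ⟨⟨⟨[⟨1, 1, 1, 1, 1⟩], [], []⟩, ⟨[], [], [⟨1, 1, 1, 1, 1⟩]⟩, ⟨[], [⟨1, 1, 1, 1, 1⟩], []⟩⟩, ⟨⟨[⟨1,
  1, 1, 1, 1⟩], [], []⟩, ⟨[], [], [⟨1, 1, 1, 1, 1⟩]⟩, ⟨[], [⟨1, 1, 1, 1, 1⟩], []⟩⟩, ⟨1, 1, 1, 1, 433⟩, [(5,
  [⟨1, 1, 7, 1, 433⟩]), (7, [⟨1, 1, 5, 1, 433⟩]), (11, [⟨-1, 1, 11, 1, 433⟩]), (13, [⟨1, 1, 47, 1, 433⟩]), (17,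
  [⟨1, 1, 59, 1, 433⟩]), (19, [⟨1, 1, 53, 1, 433⟩]), (29, [⟨1, 1, 83, 1, 433⟩]), (31, [⟨-1, 1, 79, 1, 433⟩]),
  (43, [⟨1, 1, 67, 1, 433⟩]), (47, [⟨1, 1, 13, 1, 433⟩]), (53, [⟨1, 1, 19, 1, 433⟩]), (59, [⟨1, 1, 17, 1,
  433⟩]), (67, [⟨1, 1, 43, 1, 433⟩]), (71, [⟨-1, 1, 41, 1, 433⟩]), (83, [⟨1, 1, 29, 1, 433⟩]), (23, [⟨1, 1, 73,
  1, 433⟩]), (37, [⟨1, 1, 61, 1, 433⟩]), (41, [⟨-1, 1, 71, 1, 433⟩]), (89, [⟨1, 1, 157, 1, 433⟩]), (97, [⟨1, 1,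
  151, 1, 433⟩]), (101, [⟨-1, 1, 163, 1, 433⟩]), (103, [⟨-1, 1, 103, 1, 433⟩]), (107, [⟨1, 1, 137, 1, 433⟩]),
  (109, [⟨1, 1, 113, 1, 433⟩]), (127, [⟨-1, 1, 149, 1, 433⟩]), (131, [⟨-1, 1, 131, 1, 433⟩]), (149, [⟨-1, 1,
  127, 1, 433⟩]), (61, [⟨1, 1, 37, 1, 433⟩]), (73, [⟨1, 1, 23, 1, 433⟩]), (79, [⟨-1, 1, 31, 1, 433⟩]), (113,
  [⟨1, 1, 109, 1, 433⟩]), (137, [⟨1, 1, 107, 1, 433⟩]), (139, [⟨-1, 1, 139, 1, 433⟩]), (151, [⟨1, 1, 97, 1,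
  433⟩]), (157, [⟨1, 1, 89, 1, 433⟩]), (163, [⟨-1, 1, 101, 1, 433⟩]), (167, []), (173, []), (179, []), (181,
  []), (191, []), (193, []), (197, []), (199, []), (211, []), (223, []), (227, []), (229, []), (233, []), (239,
  []), (241, []), (251, [⟨1, 1, 307, 1, 433⟩]), (257, []), (263, []), (269, []), (271, []), (277, []), (281,
  []), (283, []), (293, []), (307, []), (311, []), (313, []), (317, []), (331, []), (337, []), (347, [⟨1, 1,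
  233, 1, 433⟩]), (349, []), (353, []), (359, []), (367, []), (373, [])], []⟩ 97)))))))))) 
  (.zero [([⟨1, 1, 1, 1, 1⟩], 1323)] 233 1 
  (.zero [([⟨1, 1, 1, 1, 1⟩], 1404)] 307 1 
  (.zero [([⟨1, 1, 1, 1, 1⟩], 1405)] 317 1 
  (.zero [([⟨1, 1, 1, 1, 1⟩], 1406)] 433 1 
  (.zero [([⟨1, 1, 1, 1, 1⟩], 1351)] 439 1 
  (.call false ⟨mone, mone, ⟨1, 1, 1, 1, 419⟩, [(5, [⟨1, 1, 5, 1, 419⟩]), (7, [⟨1, 1, 7, 1, 419⟩]), (11, [⟨1,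
  1, 11, 1, 419⟩]), (13, [⟨1, 1, 13, 1, 419⟩]), (17, [⟨1, 1, 17, 1, 419⟩]), (19, [⟨1, 1, 19, 1, 419⟩]), (29,
  [⟨1, 1, 29, 1, 419⟩]), (31, [⟨1, 1, 31, 1, 419⟩]), (43, [⟨1, 1, 43, 1, 419⟩]), (47, [⟨1, 1, 47, 1, 419⟩]),
  (53, [⟨1, 1, 53, 1, 419⟩]), (59, [⟨1, 1, 59, 1, 419⟩]), (67, [⟨1, 1, 67, 1, 419⟩]), (71, [⟨1, 1, 71, 1,
  419⟩]), (83, [⟨1, 1, 83, 1, 419⟩]), (23, [⟨1, 1, 23, 1, 419⟩]), (37, [⟨1, 1, 37, 1, 419⟩]), (41, [⟨1, 1, 41,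
  1, 419⟩]), (89, [⟨1, 1, 89, 1, 419⟩]), (97, [⟨1, 1, 97, 1, 419⟩]), (101, [⟨1, 1, 101, 1, 419⟩]), (103, [⟨1,
  1, 103, 1, 419⟩]), (107, [⟨1, 1, 107, 1, 419⟩]), (109, [⟨1, 1, 109, 1, 419⟩]), (127, [⟨1, 1, 127, 1, 419⟩]),
  (131, [⟨1, 1, 131, 1, 419⟩]), (149, [⟨1, 1, 149, 1, 419⟩]), (61, [⟨1, 1, 61, 1, 419⟩]), (73, [⟨1, 1, 73, 1,
  419⟩]), (79, [⟨1, 1, 79, 1, 419⟩]), (113, [⟨1, 1, 113, 1, 419⟩]), (137, [⟨1, 1, 137, 1, 419⟩]), (139, [⟨1, 1,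
  139, 1, 419⟩]), (151, [⟨1, 1, 151, 1, 419⟩]), (157, [⟨1, 1, 157, 1, 419⟩]), (163, [⟨1, 1, 163, 1, 419⟩]),
  (167, []), (173, []), (179, []), (181, []), (191, []), (193, []), (197, []), (199, []), (211, []), (223, []),
  (227, []), (229, []), (233, []), (239, []), (241, []), (251, [⟨1, 1, 251, 1, 419⟩]), (257, [⟨1, 1, 257, 1,
  419⟩]), (263, []), (269, []), (271, []), (277, []), (281, []), (283, []), (293, []), (307, []), (311, []),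
  (313, []), (317, []), (331, []), (337, []), (347, [⟨1, 1, 347, 1, 419⟩]), (349, [⟨1, 1, 349, 1, 419⟩]), (353,
  []), (359, [⟨1, 1, 359, 1, 419⟩]), (367, [⟨1, 1, 367, 1, 419⟩]), (373, [])], []⟩ 97)))))))) 
  (.zero [([⟨1, 1, 1, 1, 1⟩], 1117)] 433 1 
  (.zero [([⟨1, 1, 1, 1, 1⟩], 1326)] 233 1 
  (.zero [([⟨1, 1, 1, 1, 1⟩], 1407)] 307 1 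
  (.zero [([⟨1, 1, 1, 1, 1⟩], 1408)] 317 1 
  (.elim [([⟨-1, 1, 1, 1, 421⟩], 1360)] 419 
  (.elim [([⟨1, 1, 1, 1, 421⟩], 1363)] 443 
  (.elim [([⟨-1, 1, 1, 1, 421⟩], 1354)] 257 
  (.elim [([⟨-1, 1, 1, 1, 421⟩], 1351)] 251 
  (.elim [([⟨1, 1, 1, 1, 421⟩], 1434)] 347 
  (.elim [([⟨1, 1, 1, 1, 421⟩], 1435)] 359 
  (.act ⟨⟨⟨[⟨1, 1, 1, 1, 1⟩], [⟨-1, 1, 439, 1, 421⟩], []⟩, ⟨[], [⟨1, 1, 1, 1, 1⟩], []⟩, ⟨[], [], [⟨1, 1, 1, 1,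
  1⟩]⟩⟩, ⟨⟨[⟨1, 1, 1, 1, 1⟩], [⟨1, 1, 439, 1, 421⟩], []⟩, ⟨[], [⟨1, 1, 1, 1, 1⟩], []⟩, ⟨[], [], [⟨1, 1, 1, 1,
  1⟩]⟩⟩, ⟨1, 1, 1, 1, 1⟩, [(7, [⟨1, 1, 7, 1, 1⟩, ⟨-1, 1, 4829, 1, 421⟩]), (13, [⟨1, 1, 13, 1, 1⟩, ⟨-1, 1, 7463,
  1, 421⟩, ⟨1, 1, 10097, 1, 421⟩, ⟨1, 1, 5588909, 1, 177241⟩]), (17, [⟨1, 1, 17, 1, 1⟩, ⟨1, 1, 2195, 1, 421⟩,
  ⟨-1, 1, 12731, 1, 421⟩]), (19, [⟨1, 1, 19, 1, 1⟩, ⟨1, 1, 3073, 1, 421⟩, ⟨-1, 1, 13609, 1, 421⟩, ⟨-1, 1,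
  2119931, 1, 177241⟩]), (31, [⟨1, 1, 31, 1, 1⟩, ⟨1, 1, 4829, 1, 421⟩]), (47, [⟨1, 1, 47, 1, 1⟩, ⟨-1, 1, 23267,
  1, 421⟩, ⟨1, 1, 26779, 1, 421⟩, ⟨1, 1, 12912307, 1, 177241⟩]), (53, [⟨1, 1, 53, 1, 1⟩, ⟨-1, 1, 29413, 1,
  421⟩]), (59, [⟨1, 1, 59, 1, 1⟩, ⟨-1, 1, 31169, 1, 421⟩]), (23, [⟨1, 1, 23, 1, 1⟩, ⟨1, 1, 2195, 1, 421⟩, ⟨1,
  1, 12731, 1, 421⟩]), (37, [⟨1, 1, 37, 1, 1⟩, ⟨1, 1, 3073, 1, 421⟩, ⟨-1, 1, 17999, 1, 421⟩, ⟨-1, 1, 2119931,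
  1, 177241⟩]), (41, [⟨1, 1, 41, 1, 1⟩, ⟨1, 1, 4829, 1, 421⟩]), (89, [⟨1, 1, 89, 1, 1⟩, ⟨1, 1, 7463, 1, 421⟩,
  ⟨1, 1, 10097, 1, 421⟩, ⟨1, 1, 963605, 1, 177241⟩]), (97, [⟨1, 1, 97, 1, 1⟩, ⟨1, 1, 8341, 1, 421⟩, ⟨1, 1,
  16243, 1, 421⟩, ⟨-1, 1, 44339, 1, 421⟩, ⟨1, 1, 1349047, 1, 177241⟩, ⟨-1, 1, 5974351, 1, 177241⟩, ⟨-1, 1,
  7901561, 1, 177241⟩, ⟨-1, 1, 930649709, 1, 74618461⟩]), (101, [⟨1, 1, 101, 1, 1⟩, ⟨1, 1, 13609, 1, 421⟩, ⟨1,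
  1, 17999, 1, 421⟩, ⟨1, 1, 2119931, 1, 177241⟩]), (103, [⟨1, 1, 103, 1, 1⟩, ⟨1, 1, 20633, 1, 421⟩, ⟨-1, 1,
  46973, 1, 421⟩, ⟨1, 1, 49607, 1, 421⟩, ⟨-1, 1, 10214213, 1, 177241⟩, ⟨1, 1, 11755981, 1, 177241⟩, ⟨1, 1,
  24475567, 1, 177241⟩, ⟨1, 1, 5668502773, 1, 74618461⟩]), (107, [⟨1, 1, 107, 1, 1⟩, ⟨1, 1, 23267, 1, 421⟩,
  ⟨-1, 1, 55753, 1, 421⟩, ⟨-1, 1, 12912307, 1, 177241⟩]), (109, [⟨1, 1, 109, 1, 1⟩, ⟨1, 1, 25901, 1, 421⟩, ⟨-1,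
  1, 57509, 1, 421⟩, ⟨-1, 1, 13683191, 1, 177241⟩]), (127, [⟨1, 1, 127, 1, 1⟩, ⟨1, 1, 29413, 1, 421⟩]), (131,
  [⟨1, 1, 131, 1, 1⟩, ⟨1, 1, 31169, 1, 421⟩]), (149, [⟨1, 1, 149, 1, 1⟩, ⟨1, 1, 36437, 1, 421⟩]), (61, [⟨1, 1,
  61, 1, 1⟩, ⟨1, 1, 29413, 1, 421⟩]), (73, [⟨1, 1, 73, 1, 1⟩, ⟨-1, 1, 34681, 1, 421⟩]), (113, [⟨1, 1, 113, 1,
  1⟩, ⟨1, 1, 26779, 1, 421⟩, ⟨1, 1, 55753, 1, 421⟩, ⟨1, 1, 12912307, 1, 177241⟩]), (137, [⟨1, 1, 137, 1, 1⟩,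
  ⟨1, 1, 32047, 1, 421⟩, ⟨-1, 1, 61021, 1, 421⟩, ⟨-1, 1, 15224959, 1, 177241⟩]), (139, [⟨1, 1, 139, 1, 1⟩, ⟨1,
  1, 34681, 1, 421⟩]), (157, [⟨1, 1, 157, 1, 1⟩, ⟨-1, 1, 71557, 1, 421⟩]), (349, [⟨1, 1, 349, 1, 1⟩, ⟨-1, 1,
  161113, 1, 421⟩])], []⟩ [(439, [])] [] [] [] 
  (.call false ⟨⟨⟨[], [⟨1, 1, 1, 1, 1⟩], []⟩, ⟨[⟨1, 1, 1, 1, 1⟩], [], []⟩, ⟨[], [], [⟨1, 1, 1, 1, 1⟩]⟩⟩, ⟨⟨[],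
  [⟨1, 1, 1, 1, 1⟩], []⟩, ⟨[⟨1, 1, 1, 1, 1⟩], [], []⟩, ⟨[], [], [⟨1, 1, 1, 1, 1⟩]⟩⟩, ⟨1, 1, 1, 1, 421⟩, [(5,
  [⟨-1, 1, 89, 1, 421⟩]), (7, [⟨1, 1, 101, 1, 421⟩]), (11, [⟨1, 1, 97, 1, 421⟩]), (13, [⟨-1, 1, 29, 1, 421⟩]),
  (17, [⟨-1, 1, 17, 1, 421⟩]), (19, [⟨1, 1, 41, 1, 421⟩]), (29, [⟨-1, 1, 13, 1, 421⟩]), (31, [⟨1, 1, 37, 1,
  421⟩]), (43, [⟨-1, 1, 43, 1, 421⟩]), (47, [⟨1, 1, 127, 1, 421⟩]), (53, [⟨-1, 1, 113, 1, 421⟩]), (59, [⟨1, 1,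
  131, 1, 421⟩]), (67, [⟨1, 1, 103, 1, 421⟩]), (71, [⟨1, 1, 109, 1, 421⟩]), (83, [⟨1, 1, 149, 1, 421⟩]), (23,
  [⟨-1, 1, 23, 1, 421⟩]), (37, [⟨1, 1, 31, 1, 421⟩]), (41, [⟨1, 1, 19, 1, 421⟩]), (89, [⟨-1, 1, 5, 1, 421⟩]),
  (97, [⟨1, 1, 11, 1, 421⟩]), (101, [⟨1, 1, 7, 1, 421⟩]), (103, [⟨1, 1, 67, 1, 421⟩]), (107, [⟨-1, 1, 61, 1,
  421⟩]), (109, [⟨1, 1, 71, 1, 421⟩]), (127, [⟨1, 1, 47, 1, 421⟩]), (131, [⟨1, 1, 59, 1, 421⟩]), (149, [⟨1, 1,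
  83, 1, 421⟩]), (61, [⟨-1, 1, 107, 1, 421⟩]), (73, [⟨1, 1, 139, 1, 421⟩]), (79, [⟨1, 1, 137, 1, 421⟩]), (113,
  [⟨-1, 1, 53, 1, 421⟩]), (137, [⟨1, 1, 79, 1, 421⟩]), (139, [⟨1, 1, 73, 1, 421⟩]), (151, [⟨-1, 1, 151, 1,
  421⟩]), (157, [⟨1, 1, 163, 1, 421⟩]), (163, [⟨1, 1, 157, 1, 421⟩]), (223, []), (227, []), (229, []), (379,
  []), (383, []), (389, []), (233, []), (239, []), (241, []), (397, []), (401, []), (409, []), (251, []), (257,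
  []), (263, []), (419, []), (421, []), (431, []), (269, []), (271, []), (277, []), (281, []), (283, []), (293,
  []), (307, []), (311, []), (313, []), (317, []), (331, []), (337, []), (347, [⟨1, 1, 367, 1, 421⟩]), (349,
  []), (353, []), (359, [⟨1, 1, 349, 1, 421⟩]), (367, []), (373, [])], []⟩ 98))))))))))))) 
  (.zero [([⟨1, 1, 1, 1, 1⟩], 1026)] 433 1 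
  (.zero [([⟨1, 1, 1, 1, 1⟩], 1272)] 443 1 
  (.zero [([⟨1, 1, 1, 1, 1⟩], 1363)] 421 2 
  (.elim [([⟨1, 1, 1, 1, 197⟩], 1269)] 439 
  (.call false ⟨mone, mone, ⟨1, 1, 1, 1, 197⟩, [(5, [⟨1, 1, 5, 1, 197⟩]), (7, [⟨1, 1, 7, 1, 197⟩]), (11, [⟨1,
  1, 11, 1, 197⟩]), (13, [⟨1, 1, 13, 1, 197⟩]), (17, [⟨1, 1, 17, 1, 197⟩]), (19, [⟨1, 1, 19, 1, 197⟩]), (29,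
  [⟨1, 1, 29, 1, 197⟩]), (31, [⟨1, 1, 31, 1, 197⟩]), (43, [⟨1, 1, 43, 1, 197⟩]), (47, [⟨1, 1, 47, 1, 197⟩]),
  (53, [⟨1, 1, 53, 1, 197⟩]), (59, [⟨1, 1, 59, 1, 197⟩]), (67, [⟨1, 1, 67, 1, 197⟩]), (71, [⟨1, 1, 71, 1,
  197⟩]), (83, [⟨1, 1, 83, 1, 197⟩]), (23, [⟨1, 1, 23, 1, 197⟩]), (37, [⟨1, 1, 37, 1, 197⟩]), (41, [⟨1, 1, 41,
  1, 197⟩]), (89, [⟨1, 1, 89, 1, 197⟩]), (97, [⟨1, 1, 97, 1, 197⟩]), (101, [⟨1, 1, 101, 1, 197⟩]), (103, [⟨1,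
  1, 103, 1, 197⟩]), (107, [⟨1, 1, 107, 1, 197⟩]), (109, [⟨1, 1, 109, 1, 197⟩]), (127, [⟨1, 1, 127, 1, 197⟩]),
  (131, [⟨1, 1, 131, 1, 197⟩]), (149, [⟨1, 1, 149, 1, 197⟩]), (61, [⟨1, 1, 61, 1, 197⟩]), (73, [⟨1, 1, 73, 1,
  197⟩]), (79, [⟨1, 1, 79, 1, 197⟩]), (113, [⟨1, 1, 113, 1, 197⟩]), (137, [⟨1, 1, 137, 1, 197⟩]), (139, [⟨1, 1,
  139, 1, 197⟩]), (151, [⟨1, 1, 151, 1, 197⟩]), (157, [⟨1, 1, 157, 1, 197⟩]), (163, [⟨1, 1, 163, 1, 197⟩]),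
  (223, []), (227, []), (229, []), (379, []), (383, []), (389, []), (233, [⟨1, 1, 233, 1, 197⟩]), (239, []),
  (241, []), (397, []), (401, []), (409, []), (251, [⟨1, 1, 251, 1, 197⟩]), (257, [⟨1, 1, 257, 1, 197⟩]), (263,
  []), (419, [⟨1, 1, 419, 1, 197⟩]), (421, []), (431, []), (269, []), (271, []), (277, []), (281, []), (283,
  []), (293, []), (307, [⟨1, 1, 307, 1, 197⟩]), (311, []), (313, []), (317, [⟨1, 1, 317, 1, 197⟩]), (331, []),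
  (337, []), (347, [⟨1, 1, 347, 1, 197⟩]), (349, [⟨1, 1, 349, 1, 197⟩]), (353, []), (359, [⟨1, 1, 359, 1,
  197⟩]), (367, [⟨1, 1, 367, 1, 197⟩]), (373, [])], []⟩ 98)))))) 
  (.zero [([⟨1, 1, 1, 1, 1⟩], 1035)] 433 1 
  (.zero [([⟨1, 1, 1, 1, 1⟩], 1026)] 233 1 
  (.zero [([⟨1, 1, 1, 1, 1⟩], 1189)] 317 2 
  (.zero [([⟨1, 1, 1, 1, 1⟩], 2106), ([⟨1, 1, 1, 1, 1⟩], 2136), ([⟨1, 1, 1, 1, 1⟩], 2166)] 307 1 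
  (.elim [([⟨-1, 1, 1, 1, 199⟩], 1278)] 419 
  (.elim [([⟨-1, 1, 1, 1, 199⟩], 1281)] 421 
  (.elim [([⟨-1, 1, 1, 1, 199⟩], 1269)] 251 
  (.elim [([⟨-1, 1, 1, 1, 199⟩], 1272)] 257 
  (.act ⟨⟨⟨[⟨1, 1, 1, 1, 1⟩], [⟨-1, 1, 197, 1, 199⟩], []⟩, ⟨[], [⟨1, 1, 1, 1, 1⟩], []⟩, ⟨[], [], [⟨1, 1, 1, 1,
  1⟩]⟩⟩, ⟨⟨[⟨1, 1, 1, 1, 1⟩], [⟨1, 1, 197, 1, 199⟩], []⟩, ⟨[], [⟨1, 1, 1, 1, 1⟩], []⟩, ⟨[], [], [⟨1, 1, 1, 1,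
  1⟩]⟩⟩, ⟨1, 1, 1, 1, 1⟩, [(7, [⟨1, 1, 7, 1, 1⟩, ⟨-1, 1, 2167, 1, 199⟩]), (13, [⟨1, 1, 13, 1, 1⟩, ⟨-1, 1, 3349,
  1, 199⟩, ⟨1, 1, 4531, 1, 199⟩, ⟨1, 1, 1125461, 1, 39601⟩]), (17, [⟨1, 1, 17, 1, 1⟩, ⟨1, 1, 985, 1, 199⟩, ⟨-1,
  1, 5713, 1, 199⟩]), (19, [⟨1, 1, 19, 1, 1⟩, ⟨1, 1, 1379, 1, 199⟩, ⟨-1, 1, 6107, 1, 199⟩, ⟨-1, 1, 426899, 1,
  39601⟩]), (31, [⟨1, 1, 31, 1, 1⟩, ⟨1, 1, 2167, 1, 199⟩]), (47, [⟨1, 1, 47, 1, 1⟩, ⟨-1, 1, 10441, 1, 199⟩, ⟨1,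
  1, 12017, 1, 199⟩, ⟨1, 1, 2600203, 1, 39601⟩]), (53, [⟨1, 1, 53, 1, 1⟩, ⟨-1, 1, 13199, 1, 199⟩]), (59, [⟨1,
  1, 59, 1, 1⟩, ⟨-1, 1, 13987, 1, 199⟩]), (23, [⟨1, 1, 23, 1, 1⟩, ⟨1, 1, 985, 1, 199⟩, ⟨1, 1, 5713, 1, 199⟩]),
  (37, [⟨1, 1, 37, 1, 1⟩, ⟨1, 1, 1379, 1, 199⟩, ⟨-1, 1, 8077, 1, 199⟩, ⟨-1, 1, 426899, 1, 39601⟩]), (41, [⟨1,
  1, 41, 1, 1⟩, ⟨1, 1, 2167, 1, 199⟩]), (89, [⟨1, 1, 89, 1, 1⟩, ⟨1, 1, 3349, 1, 199⟩, ⟨1, 1, 4531, 1, 199⟩, ⟨1,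
  1, 194045, 1, 39601⟩]), (97, [⟨1, 1, 97, 1, 1⟩, ⟨1, 1, 3743, 1, 199⟩, ⟨1, 1, 7289, 1, 199⟩, ⟨-1, 1, 19897, 1,
  199⟩, ⟨1, 1, 271663, 1, 39601⟩, ⟨-1, 1, 1203079, 1, 39601⟩, ⟨-1, 1, 1591169, 1, 39601⟩, ⟨-1, 1, 84099103, 1,
  7880599⟩]), (101, [⟨1, 1, 101, 1, 1⟩, ⟨1, 1, 6107, 1, 199⟩, ⟨1, 1, 8077, 1, 199⟩, ⟨1, 1, 426899, 1, 39601⟩]),
  (103, [⟨1, 1, 103, 1, 1⟩, ⟨1, 1, 9259, 1, 199⟩, ⟨-1, 1, 21079, 1, 199⟩, ⟨1, 1, 22261, 1, 199⟩, ⟨-1, 1,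
  2056877, 1, 39601⟩, ⟨1, 1, 2367349, 1, 39601⟩, ⟨1, 1, 4928743, 1, 39601⟩, ⟨1, 1, 512239991, 1, 7880599⟩]),
  (107, [⟨1, 1, 107, 1, 1⟩, ⟨1, 1, 10441, 1, 199⟩, ⟨-1, 1, 25019, 1, 199⟩, ⟨-1, 1, 2600203, 1, 39601⟩]), (109,
  [⟨1, 1, 109, 1, 1⟩, ⟨1, 1, 11623, 1, 199⟩, ⟨-1, 1, 25807, 1, 199⟩, ⟨-1, 1, 2755439, 1, 39601⟩]), (127, [⟨1,
  1, 127, 1, 1⟩, ⟨1, 1, 13199, 1, 199⟩]), (131, [⟨1, 1, 131, 1, 1⟩, ⟨1, 1, 13987, 1, 199⟩]), (149, [⟨1, 1, 149,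
  1, 1⟩, ⟨1, 1, 16351, 1, 199⟩]), (61, [⟨1, 1, 61, 1, 1⟩, ⟨1, 1, 13199, 1, 199⟩]), (73, [⟨1, 1, 73, 1, 1⟩, ⟨-1,
  1, 15563, 1, 199⟩]), (113, [⟨1, 1, 113, 1, 1⟩, ⟨1, 1, 12017, 1, 199⟩, ⟨1, 1, 25019, 1, 199⟩, ⟨1, 1, 2600203,
  1, 39601⟩]), (137, [⟨1, 1, 137, 1, 1⟩, ⟨1, 1, 14381, 1, 199⟩, ⟨-1, 1, 27383, 1, 199⟩, ⟨-1, 1, 3065911, 1,
  39601⟩]), (139, [⟨1, 1, 139, 1, 1⟩, ⟨1, 1, 15563, 1, 199⟩]), (157, [⟨1, 1, 157, 1, 1⟩, ⟨-1, 1, 32111, 1,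
  199⟩]), (347, [⟨1, 1, 347, 1, 1⟩, ⟨-1, 1, 68753, 1, 199⟩, ⟨-1, 1, 70723, 1, 199⟩, ⟨1, 1, 14242903, 1,
  39601⟩]), (349, [⟨1, 1, 349, 1, 1⟩, ⟨-1, 1, 72299, 1, 199⟩]), (359, [⟨1, 1, 359, 1, 1⟩, ⟨-1, 1, 72299, 1,
  199⟩]), (439, [⟨1, 1, 439, 1, 1⟩, ⟨-1, 1, 87271, 1, 199⟩])], []⟩ [(197, [])] [] [] [] 
  (.call false ⟨⟨⟨[], [⟨1, 1, 1, 1, 1⟩], []⟩, ⟨[⟨1, 1, 1, 1, 1⟩], [], []⟩, ⟨[], [], [⟨1, 1, 1, 1, 1⟩]⟩⟩, ⟨⟨[],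
  [⟨1, 1, 1, 1, 1⟩], []⟩, ⟨[⟨1, 1, 1, 1, 1⟩], [], []⟩, ⟨[], [], [⟨1, 1, 1, 1, 1⟩]⟩⟩, ⟨1, 1, 1, 1, 199⟩, [(5,
  [⟨-1, 1, 89, 1, 199⟩]), (7, [⟨1, 1, 101, 1, 199⟩]), (11, [⟨1, 1, 97, 1, 199⟩]), (13, [⟨-1, 1, 29, 1, 199⟩]),
  (17, [⟨-1, 1, 17, 1, 199⟩]), (19, [⟨1, 1, 41, 1, 199⟩]), (29, [⟨-1, 1, 13, 1, 199⟩]), (31, [⟨1, 1, 37, 1,
  199⟩]), (43, [⟨-1, 1, 43, 1, 199⟩]), (47, [⟨1, 1, 127, 1, 199⟩]), (53, [⟨-1, 1, 113, 1, 199⟩]), (59, [⟨1, 1,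
  131, 1, 199⟩]), (67, [⟨1, 1, 103, 1, 199⟩]), (71, [⟨1, 1, 109, 1, 199⟩]), (83, [⟨1, 1, 149, 1, 199⟩]), (23,
  [⟨-1, 1, 23, 1, 199⟩]), (37, [⟨1, 1, 31, 1, 199⟩]), (41, [⟨1, 1, 19, 1, 199⟩]), (89, [⟨-1, 1, 5, 1, 199⟩]),
  (97, [⟨1, 1, 11, 1, 199⟩]), (101, [⟨1, 1, 7, 1, 199⟩]), (103, [⟨1, 1, 67, 1, 199⟩]), (107, [⟨-1, 1, 61, 1,
  199⟩]), (109, [⟨1, 1, 71, 1, 199⟩]), (127, [⟨1, 1, 47, 1, 199⟩]), (131, [⟨1, 1, 59, 1, 199⟩]), (149, [⟨1, 1,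
  83, 1, 199⟩]), (61, [⟨-1, 1, 107, 1, 199⟩]), (73, [⟨1, 1, 139, 1, 199⟩]), (79, [⟨1, 1, 137, 1, 199⟩]), (113,
  [⟨-1, 1, 53, 1, 199⟩]), (137, [⟨1, 1, 79, 1, 199⟩]), (139, [⟨1, 1, 73, 1, 199⟩]), (151, [⟨-1, 1, 151, 1,
  199⟩]), (157, [⟨1, 1, 163, 1, 199⟩]), (163, [⟨1, 1, 157, 1, 199⟩]), (167, []), (173, []), (179, []), (181,
  []), (191, []), (193, []), (197, [⟨1, 1, 443, 1, 199⟩]), (199, [⟨1, 1, 439, 1, 199⟩]), (211, []), (223, []),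
  (227, []), (229, []), (233, []), (239, []), (241, []), (251, []), (257, []), (263, []), (269, []), (271, []),
  (277, []), (281, []), (283, []), (293, []), (307, []), (311, []), (313, []), (317, []), (331, []), (337, []),
  (347, [⟨1, 1, 367, 1, 199⟩]), (349, [⟨1, 1, 359, 1, 199⟩]), (353, []), (359, [⟨1, 1, 349, 1, 199⟩]), (367,
  [⟨1, 1, 347, 1, 199⟩]), (373, [])], []⟩ 97)))))))))))) 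
  (.zero [([⟨1, 1, 1, 1, 1⟩], 1944), ([⟨1, 1, 1, 1, 1⟩], 1974), ([⟨1, 1, 1, 1, 1⟩], 2004)] 199 1 
  (.zero [([⟨1, 1, 1, 1, 1⟩], 1245)] 421 1 
  (.zero [([⟨1, 1, 1, 1, 1⟩], 1445)] 443 2 
  (.zero [([⟨1, 1, 1, 1, 1⟩], 1272)] 367 1 
  (.zero [([⟨1, 1, 1, 1, 1⟩], 1353)] 257 2 
  (.elim [([⟨1, 1, 1, 1, 181⟩], 999)] 397 
  (.elim [([⟨-1, 1, 1, 1, 181⟩], 1242)] 197 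
  (.elim [([⟨1, 1, 1, 1, 181⟩], 1026)] 317 
  (.elim [([⟨1, 1, 1, 1, 181⟩], 1269)] 359 
  (.zero [([⟨1, 1, 1, 1, 1⟩], 1197), ([⟨1, 1, 1, 1, 1⟩], 2106), ([⟨1, 1, 1, 1, 1⟩], 2136), ([⟨1, 1, 1, 1, 1⟩],
  2166)] 349 1 
  (.act ⟨⟨⟨[⟨1, 1, 1, 1, 1⟩], [], []⟩, ⟨[], [⟨1, 1, 1, 1, 1⟩], [⟨1, 1, 419, 1, 181⟩]⟩, ⟨[], [], [⟨1, 1, 1, 1,
  1⟩]⟩⟩, ⟨⟨[⟨1, 1, 1, 1, 1⟩], [], []⟩, ⟨[], [⟨1, 1, 1, 1, 1⟩], [⟨-1, 1, 419, 1, 181⟩]⟩, ⟨[], [], [⟨1, 1, 1, 1,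
  1⟩]⟩⟩, ⟨1, 1, 1, 1, 1⟩, [(5, [⟨1, 1, 5, 1, 1⟩, ⟨1, 1, 2933, 1, 181⟩]), (17, [⟨1, 1, 17, 1, 1⟩, ⟨1, 1, 7961,
  1, 181⟩]), (29, [⟨1, 1, 29, 1, 1⟩, ⟨1, 1, 12989, 1, 181⟩, ⟨-1, 1, 17179, 1, 181⟩, ⟨1, 1, 7549123, 1,
  32761⟩]), (31, [⟨1, 1, 31, 1, 1⟩, ⟨1, 1, 18017, 1, 181⟩]), (47, [⟨1, 1, 47, 1, 1⟩, ⟨-1, 1, 5447, 1, 181⟩]),
  (53, [⟨1, 1, 53, 1, 1⟩, ⟨-1, 1, 7123, 1, 181⟩, ⟨1, 1, 24721, 1, 181⟩, ⟨-1, 1, 3335659, 1, 32761⟩]), (59, [⟨1,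
  1, 59, 1, 1⟩, ⟨-1, 1, 7961, 1, 181⟩]), (67, [⟨1, 1, 67, 1, 1⟩, ⟨-1, 1, 12151, 1, 181⟩, ⟨1, 1, 29749, 1, 181⟩,
  ⟨-1, 1, 33101, 1, 181⟩, ⟨-1, 1, 5442391, 1, 32761⟩, ⟨1, 1, 7198001, 1, 32761⟩, ⟨1, 1, 14571563, 1, 32761⟩,
  ⟨-1, 1, 3163082537, 1, 5929741⟩]), (71, [⟨1, 1, 71, 1, 1⟩, ⟨-1, 1, 12989, 1, 181⟩, ⟨1, 1, 34777, 1, 181⟩,
  ⟨-1, 1, 7549123, 1, 32761⟩]), (83, [⟨1, 1, 83, 1, 1⟩, ⟨-1, 1, 18017, 1, 181⟩]), (23, [⟨1, 1, 23, 1, 1⟩, ⟨1,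
  1, 15503, 1, 181⟩]), (41, [⟨1, 1, 41, 1, 1⟩, ⟨-1, 1, 18017, 1, 181⟩]), (89, [⟨1, 1, 89, 1, 1⟩, ⟨1, 1, 40643,
  1, 181⟩]), (107, [⟨1, 1, 107, 1, 1⟩, ⟨-1, 1, 37291, 1, 181⟩, ⟨1, 1, 45671, 1, 181⟩, ⟨-1, 1, 17029417, 1,
  32761⟩]), (109, [⟨1, 1, 109, 1, 1⟩, ⟨-1, 1, 40643, 1, 181⟩]), (127, [⟨1, 1, 127, 1, 1⟩, ⟨1, 1, 54889, 1,
  181⟩, ⟨-1, 1, 58241, 1, 181⟩, ⟨1, 1, 26158589, 1, 32761⟩]), (131, [⟨1, 1, 131, 1, 1⟩, ⟨-1, 1, 42319, 1, 181⟩,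
  ⟨1, 1, 62431, 1, 181⟩]), (61, [⟨1, 1, 61, 1, 1⟩, ⟨-1, 1, 9637, 1, 181⟩, ⟨1, 1, 30587, 1, 181⟩, ⟨-1, 1,
  6495757, 1, 32761⟩]), (73, [⟨1, 1, 73, 1, 1⟩, ⟨-1, 1, 15503, 1, 181⟩]), (79, [⟨1, 1, 79, 1, 1⟩, ⟨-1, 1,
  17179, 1, 181⟩, ⟨-1, 1, 34777, 1, 181⟩, ⟨1, 1, 7549123, 1, 32761⟩]), (113, [⟨1, 1, 113, 1, 1⟩, ⟨-1, 1, 37291,
  1, 181⟩, ⟨1, 1, 57403, 1, 181⟩, ⟨-1, 1, 17029417, 1, 32761⟩]), (137, [⟨1, 1, 137, 1, 1⟩, ⟨-1, 1, 40643, 1,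
  181⟩]), (139, [⟨1, 1, 139, 1, 1⟩, ⟨-1, 1, 42319, 1, 181⟩, ⟨-1, 1, 62431, 1, 181⟩]), (151, [⟨1, 1, 151, 1, 1⟩,
  ⟨-1, 1, 44833, 1, 181⟩, ⟨-1, 1, 47347, 1, 181⟩, ⟨1, 1, 65783, 1, 181⟩, ⟨1, 1, 15624929, 1, 32761⟩, ⟨-1, 1,
  19136149, 1, 32761⟩, ⟨-1, 1, 24051857, 1, 32761⟩, ⟨1, 1, 7135325723, 1, 5929741⟩]), (157, [⟨1, 1, 157, 1, 1⟩,
  ⟨-1, 1, 45671, 1, 181⟩, ⟨-1, 1, 57403, 1, 181⟩, ⟨1, 1, 17029417, 1, 32761⟩]), (163, [⟨1, 1, 163, 1, 1⟩, ⟨-1,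
  1, 54889, 1, 181⟩, ⟨-1, 1, 58241, 1, 181⟩, ⟨1, 1, 17731661, 1, 32761⟩]), (251, [⟨1, 1, 251, 1, 1⟩, ⟨-1, 1,
  97627, 1, 181⟩]), (307, [⟨1, 1, 307, 1, 1⟩, ⟨-1, 1, 97627, 1, 181⟩]), (347, [⟨1, 1, 347, 1, 1⟩, ⟨-1, 1,
  105169, 1, 181⟩, ⟨-1, 1, 128633, 1, 181⟩, ⟨1, 1, 40905713, 1, 32761⟩]), (439, [⟨1, 1, 439, 1, 1⟩, ⟨-1, 1,
  181427, 1, 181⟩])], []⟩ [(419, [])] [] [] [] 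
  (.call false ⟨⟨⟨[⟨1, 1, 1, 1, 1⟩], [], []⟩, ⟨[], [], [⟨1, 1, 1, 1, 1⟩]⟩, ⟨[], [⟨1, 1, 1, 1, 1⟩], []⟩⟩, ⟨⟨[⟨1,
  1, 1, 1, 1⟩], [], []⟩, ⟨[], [], [⟨1, 1, 1, 1, 1⟩]⟩, ⟨[], [⟨1, 1, 1, 1, 1⟩], []⟩⟩, ⟨1, 1, 1, 1, 181⟩, [(5,
  [⟨1, 1, 7, 1, 181⟩]), (7, [⟨1, 1, 5, 1, 181⟩]), (11, [⟨-1, 1, 11, 1, 181⟩]), (13, [⟨1, 1, 47, 1, 181⟩]), (17,
  [⟨1, 1, 59, 1, 181⟩]), (19, [⟨1, 1, 53, 1, 181⟩]), (29, [⟨1, 1, 83, 1, 181⟩]), (31, [⟨-1, 1, 79, 1, 181⟩]),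
  (43, [⟨1, 1, 67, 1, 181⟩]), (47, [⟨1, 1, 13, 1, 181⟩]), (53, [⟨1, 1, 19, 1, 181⟩]), (59, [⟨1, 1, 17, 1,
  181⟩]), (67, [⟨1, 1, 43, 1, 181⟩]), (71, [⟨-1, 1, 41, 1, 181⟩]), (83, [⟨1, 1, 29, 1, 181⟩]), (23, [⟨1, 1, 73,
  1, 181⟩]), (37, [⟨1, 1, 61, 1, 181⟩]), (41, [⟨-1, 1, 71, 1, 181⟩]), (89, [⟨1, 1, 157, 1, 181⟩]), (97, [⟨1, 1,
  151, 1, 181⟩]), (101, [⟨-1, 1, 163, 1, 181⟩]), (103, [⟨-1, 1, 103, 1, 181⟩]), (107, [⟨1, 1, 137, 1, 181⟩]),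
  (109, [⟨1, 1, 113, 1, 181⟩]), (127, [⟨-1, 1, 149, 1, 181⟩]), (131, [⟨-1, 1, 131, 1, 181⟩]), (149, [⟨-1, 1,
  127, 1, 181⟩]), (61, [⟨1, 1, 37, 1, 181⟩]), (73, [⟨1, 1, 23, 1, 181⟩]), (79, [⟨-1, 1, 31, 1, 181⟩]), (113,
  [⟨1, 1, 109, 1, 181⟩]), (137, [⟨1, 1, 107, 1, 181⟩]), (139, [⟨-1, 1, 139, 1, 181⟩]), (151, [⟨1, 1, 97, 1,
  181⟩]), (157, [⟨1, 1, 89, 1, 181⟩]), (163, [⟨-1, 1, 101, 1, 181⟩]), (223, []), (227, []), (229, []), (379,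
  []), (383, []), (389, []), (233, [⟨1, 1, 347, 1, 181⟩]), (239, []), (241, []), (397, [⟨1, 1, 439, 1, 181⟩]),
  (401, []), (409, []), (251, [⟨1, 1, 307, 1, 181⟩]), (257, []), (263, []), (419, [⟨1, 1, 433, 1, 181⟩]), (421,
  []), (431, []), (269, []), (271, []), (277, []), (281, []), (283, []), (293, []), (307, [⟨1, 1, 251, 1,
  181⟩]), (311, []), (313, []), (317, []), (331, []), (337, []), (347, [⟨1, 1, 233, 1, 181⟩]), (349, []), (353,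
  []), (359, []), (367, []), (373, [])], []⟩ 98))))))))))))

theorem okR2 : sR2.seq (check true (LB.take 105) tR2) = true := by decide +kernel

def tR3 : Tree := .zero [([⟨1, 1, 1, 1, 1⟩], 861)] 229 2 
  (.zero [([⟨1, 1, 1, 1, 1⟩], 907)] 293 2 
  (.zero [([⟨1, 1, 1, 1, 1⟩], 813)] 227 2 
  (.zero [([⟨1, 1, 1, 1, 1⟩], 897)] 277 2 
  (.zero [([⟨1, 1, 1, 1, 1⟩], 1213)] 337 2 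
  (.split 283 
  (.zero [([⟨1, 1, 1, 1, 1⟩], 957)] 271 2 
  (.split 241 
  (.zero [([⟨1, 1, 1, 1, 1⟩], 1167)] 313 2 
  (.call true ⟨mone, mone, ⟨1, 1, 1, 1, 1⟩, [(13, [⟨-1, 1, 13, 1, 1⟩]), (17, [⟨1, 1, 23, 1, 1⟩]), (19, [⟨1, 1,
  37, 1, 1⟩]), (29, [⟨-1, 1, 29, 1, 1⟩]), (31, [⟨1, 1, 41, 1, 1⟩]), (43, [⟨-1, 1, 43, 1, 1⟩]), (47, [⟨-1, 1,
  47, 1, 1⟩]), (53, [⟨1, 1, 61, 1, 1⟩]), (59, [⟨1, 1, 73, 1, 1⟩]), (67, [⟨-1, 1, 67, 1, 1⟩]), (71, [⟨1, 1, 79,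
  1, 1⟩]), (83, [⟨-1, 1, 83, 1, 1⟩]), (23, [⟨1, 1, 17, 1, 1⟩]), (37, [⟨1, 1, 19, 1, 1⟩]), (41, [⟨1, 1, 31, 1,
  1⟩]), (103, [⟨-1, 1, 103, 1, 1⟩]), (107, [⟨1, 1, 113, 1, 1⟩]), (109, [⟨1, 1, 137, 1, 1⟩]), (127, [⟨-1, 1,
  127, 1, 1⟩]), (131, [⟨1, 1, 139, 1, 1⟩]), (149, [⟨-1, 1, 149, 1, 1⟩]), (61, [⟨1, 1, 53, 1, 1⟩]), (73, [⟨1, 1,
  59, 1, 1⟩]), (79, [⟨1, 1, 71, 1, 1⟩]), (113, [⟨1, 1, 107, 1, 1⟩]), (137, [⟨1, 1, 109, 1, 1⟩]), (139, [⟨1, 1,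
  131, 1, 1⟩]), (181, [⟨-1, 1, 223, 1, 1⟩]), (197, [⟨-1, 1, 269, 1, 1⟩]), (199, [⟨-1, 1, 281, 1, 1⟩]), (233,
  [⟨-1, 1, 233, 1, 1⟩]), (397, [⟨-1, 1, 239, 1, 1⟩]), (251, [⟨-1, 1, 307, 1, 1⟩]), (257, [⟨-1, 1, 317, 1, 1⟩]),
  (419, [⟨-1, 1, 311, 1, 1⟩]), (421, [⟨-1, 1, 331, 1, 1⟩]), (307, [⟨-1, 1, 251, 1, 1⟩]), (317, [⟨-1, 1, 257, 1,
  1⟩]), (433, [⟨-1, 1, 263, 1, 1⟩]), (347, [⟨-1, 1, 347, 1, 1⟩]), (349, [⟨-1, 1, 359, 1, 1⟩]), (359, [⟨-1, 1,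
  349, 1, 1⟩]), (367, [⟨-1, 1, 367, 1, 1⟩]), (439, [⟨-1, 1, 353, 1, 1⟩]), (443, [⟨-1, 1, 373, 1, 1⟩])],
  []⟩ 105)) 
  (.zero [([⟨1, 1, 1, 1, 1⟩], 882)] 281 1 
  (.zero [([⟨1, 1, 1, 1, 1⟩], 1125)] 317 1 
  (.zero [([⟨1, 1, 1, 1, 1⟩], 1128)] 331 1 
  (.zero [([⟨1, 1, 1, 1, 1⟩], 1368)] 359 1 
  (.zero [([⟨1, 1, 1, 1, 1⟩], 1371)] 367 1 
  (.zero [([⟨1, 1, 1, 1, 1⟩], 1374)] 373 1 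
  (.elim [([⟨-1, 1, 1, 1, 241⟩], 837)] 269 
  (.elim [([⟨-1, 1, 1, 1, 241⟩], 1080)] 307 
  (.elim [([⟨-1, 1, 1, 1, 241⟩], 1083)] 311 
  (.elim [([⟨1, 1, 1, 1, 241⟩], 1086)] 223 
  (.elim [([⟨-1, 1, 1, 1, 241⟩], 1323)] 347 
  (.elim [([⟨-1, 1, 1, 1, 241⟩], 1326)] 349 
  (.elim [([⟨-1, 1, 1, 1, 241⟩], 1329)] 353 
  (.elim [([⟨-1, 1, 1, 1, 241⟩], 1113)] 257 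
  (.act ⟨⟨⟨[⟨1, 1, 1, 1, 1⟩], [], []⟩, ⟨[], [⟨1, 1, 1, 1, 1⟩], [⟨-1, 1, 239, 1, 241⟩]⟩, ⟨[], [], [⟨1, 1, 1, 1,
  1⟩]⟩⟩, ⟨⟨[⟨1, 1, 1, 1, 1⟩], [], []⟩, ⟨[], [⟨1, 1, 1, 1, 1⟩], [⟨1, 1, 239, 1, 241⟩]⟩, ⟨[], [], [⟨1, 1, 1, 1,
  1⟩]⟩⟩, ⟨1, 1, 1, 1, 1⟩, [(5, [⟨1, 1, 5, 1, 1⟩, ⟨-1, 1, 1673, 1, 241⟩]), (17, [⟨1, 1, 17, 1, 1⟩, ⟨-1, 1, 4541,
  1, 241⟩]), (29, [⟨1, 1, 29, 1, 1⟩, ⟨-1, 1, 7409, 1, 241⟩, ⟨1, 1, 9799, 1, 241⟩, ⟨1, 1, 2456203, 1, 58081⟩]),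
  (31, [⟨1, 1, 31, 1, 1⟩, ⟨-1, 1, 10277, 1, 241⟩]), (47, [⟨1, 1, 47, 1, 1⟩, ⟨1, 1, 3107, 1, 241⟩]), (53, [⟨1,
  1, 53, 1, 1⟩, ⟨1, 1, 4063, 1, 241⟩, ⟨-1, 1, 14101, 1, 241⟩, ⟨-1, 1, 1085299, 1, 58081⟩]), (59, [⟨1, 1, 59, 1,
  1⟩, ⟨1, 1, 4541, 1, 241⟩]), (67, [⟨1, 1, 67, 1, 1⟩, ⟨1, 1, 6931, 1, 241⟩, ⟨-1, 1, 16969, 1, 241⟩, ⟨1, 1,
  18881, 1, 241⟩, ⟨-1, 1, 1770751, 1, 58081⟩, ⟨1, 1, 2341961, 1, 58081⟩, ⟨1, 1, 4741043, 1, 58081⟩, ⟨1, 1,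
  587032517, 1, 13997521⟩]), (71, [⟨1, 1, 71, 1, 1⟩, ⟨1, 1, 7409, 1, 241⟩, ⟨-1, 1, 19837, 1, 241⟩, ⟨-1, 1,
  2456203, 1, 58081⟩]), (83, [⟨1, 1, 83, 1, 1⟩, ⟨1, 1, 10277, 1, 241⟩]), (23, [⟨1, 1, 23, 1, 1⟩, ⟨-1, 1, 8843,
  1, 241⟩]), (41, [⟨1, 1, 41, 1, 1⟩, ⟨1, 1, 10277, 1, 241⟩]), (89, [⟨1, 1, 89, 1, 1⟩, ⟨-1, 1, 23183, 1, 241⟩]),
  (107, [⟨1, 1, 107, 1, 1⟩, ⟨1, 1, 21271, 1, 241⟩, ⟨-1, 1, 26051, 1, 241⟩, ⟨-1, 1, 5540737, 1, 58081⟩]), (109,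
  [⟨1, 1, 109, 1, 1⟩, ⟨1, 1, 23183, 1, 241⟩]), (127, [⟨1, 1, 127, 1, 1⟩, ⟨-1, 1, 31309, 1, 241⟩, ⟨1, 1, 33221,
  1, 241⟩, ⟨1, 1, 8511029, 1, 58081⟩]), (131, [⟨1, 1, 131, 1, 1⟩, ⟨1, 1, 24139, 1, 241⟩, ⟨-1, 1, 35611, 1,
  241⟩]), (61, [⟨1, 1, 61, 1, 1⟩, ⟨1, 1, 5497, 1, 241⟩, ⟨-1, 1, 17447, 1, 241⟩, ⟨-1, 1, 2113477, 1, 58081⟩]),
  (73, [⟨1, 1, 73, 1, 1⟩, ⟨1, 1, 8843, 1, 241⟩]), (79, [⟨1, 1, 79, 1, 1⟩, ⟨1, 1, 9799, 1, 241⟩, ⟨1, 1, 19837,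
  1, 241⟩, ⟨1, 1, 2456203, 1, 58081⟩]), (113, [⟨1, 1, 113, 1, 1⟩, ⟨1, 1, 21271, 1, 241⟩, ⟨-1, 1, 32743, 1,
  241⟩, ⟨-1, 1, 5540737, 1, 58081⟩]), (137, [⟨1, 1, 137, 1, 1⟩, ⟨1, 1, 23183, 1, 241⟩]), (139, [⟨1, 1, 139, 1,
  1⟩, ⟨1, 1, 24139, 1, 241⟩, ⟨1, 1, 35611, 1, 241⟩]), (151, [⟨1, 1, 151, 1, 1⟩, ⟨1, 1, 25573, 1, 241⟩, ⟨1, 1,
  27007, 1, 241⟩, ⟨-1, 1, 37523, 1, 241⟩, ⟨1, 1, 5083769, 1, 58081⟩, ⟨-1, 1, 6226189, 1, 58081⟩, ⟨-1, 1,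
  7825577, 1, 58081⟩, ⟨-1, 1, 1324236143, 1, 13997521⟩]), (157, [⟨1, 1, 157, 1, 1⟩, ⟨1, 1, 26051, 1, 241⟩, ⟨1,
  1, 32743, 1, 241⟩, ⟨1, 1, 5540737, 1, 58081⟩]), (163, [⟨1, 1, 163, 1, 1⟩, ⟨1, 1, 31309, 1, 241⟩, ⟨1, 1,
  33221, 1, 241⟩, ⟨1, 1, 5769221, 1, 58081⟩]), (251, [⟨1, 1, 251, 1, 1⟩, ⟨1, 1, 55687, 1, 241⟩]), (263, [⟨1, 1,
  239, 1, 1⟩, ⟨1, 1, 263, 1, 1⟩]), (313, [⟨1, 1, 239, 1, 1⟩, ⟨1, 1, 313, 1, 1⟩])], []⟩ [(239, [])] [] [] [] 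
  (.act ⟨⟨⟨[⟨1, 1, 1, 1, 1⟩], [], [⟨-1, 1, 233, 1, 241⟩]⟩, ⟨[], [⟨1, 1, 1, 1, 1⟩], []⟩, ⟨[], [], [⟨1, 1, 1, 1,
  1⟩]⟩⟩, ⟨⟨[⟨1, 1, 1, 1, 1⟩], [], [⟨1, 1, 233, 1, 241⟩]⟩, ⟨[], [⟨1, 1, 1, 1, 1⟩], []⟩, ⟨[], [], [⟨1, 1, 1, 1,
  1⟩]⟩⟩, ⟨1, 1, 1, 1, 1⟩, [(5, [⟨1, 1, 5, 1, 1⟩, ⟨1, 1, 2563, 1, 241⟩]), (13, [⟨1, 1, 13, 1, 1⟩, ⟨-1, 1, 4427,
  1, 241⟩, ⟨1, 1, 8621, 1, 241⟩, ⟨1, 1, 2334427, 1, 58081⟩]), (17, [⟨1, 1, 17, 1, 1⟩, ⟨1, 1, 9553, 1, 241⟩]),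
  (19, [⟨1, 1, 19, 1, 1⟩, ⟨-1, 1, 10019, 1, 241⟩]), (47, [⟨1, 1, 47, 1, 1⟩, ⟨-1, 1, 13747, 1, 241⟩, ⟨1, 1,
  17009, 1, 241⟩, ⟨1, 1, 4505987, 1, 58081⟩]), (53, [⟨1, 1, 53, 1, 1⟩, ⟨1, 1, 1165, 1, 241⟩, ⟨1, 1, 18407, 1,
  241⟩, ⟨1, 1, 597179, 1, 58081⟩]), (59, [⟨1, 1, 59, 1, 1⟩, ⟨1, 1, 1631, 1, 241⟩, ⟨-1, 1, 19339, 1, 241⟩]),
  (71, [⟨1, 1, 71, 1, 1⟩, ⟨1, 1, 2563, 1, 241⟩]), (23, [⟨1, 1, 23, 1, 1⟩, ⟨1, 1, 7223, 1, 241⟩]), (37, [⟨1, 1,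
  37, 1, 1⟩, ⟨1, 1, 10019, 1, 241⟩]), (89, [⟨1, 1, 89, 1, 1⟩, ⟨1, 1, 23533, 1, 241⟩]), (103, [⟨1, 1, 103, 1,
  1⟩, ⟨-1, 1, 3029, 1, 241⟩, ⟨-1, 1, 25397, 1, 241⟩, ⟨1, 1, 31921, 1, 241⟩, ⟨1, 1, 1031491, 1, 58081⟩, ⟨-1, 1,
  2008693, 1, 58081⟩, ⟨1, 1, 8089061, 1, 58081⟩, ⟨-1, 1, 543921491, 1, 13997521⟩]), (107, [⟨1, 1, 107, 1, 1⟩,
  ⟨1, 1, 5359, 1, 241⟩, ⟨1, 1, 32387, 1, 241⟩, ⟨1, 1, 1682959, 1, 58081⟩]), (109, [⟨1, 1, 109, 1, 1⟩, ⟨1, 1,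
  8621, 1, 241⟩, ⟨-1, 1, 34717, 1, 241⟩, ⟨1, 1, 2334427, 1, 58081⟩]), (127, [⟨1, 1, 127, 1, 1⟩, ⟨-1, 1, 6757,
  1, 241⟩]), (131, [⟨1, 1, 131, 1, 1⟩, ⟨1, 1, 9553, 1, 241⟩]), (149, [⟨1, 1, 149, 1, 1⟩, ⟨-1, 1, 10019, 1,
  241⟩]), (61, [⟨1, 1, 61, 1, 1⟩, ⟨1, 1, 1165, 1, 241⟩, ⟨1, 1, 16543, 1, 241⟩, ⟨1, 1, 597179, 1, 58081⟩]), (73,
  [⟨1, 1, 73, 1, 1⟩, ⟨1, 1, 1631, 1, 241⟩, ⟨1, 1, 19339, 1, 241⟩]), (79, [⟨1, 1, 79, 1, 1⟩, ⟨1, 1, 2563, 1,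
  241⟩]), (113, [⟨1, 1, 113, 1, 1⟩, ⟨1, 1, 3961, 1, 241⟩, ⟨1, 1, 30523, 1, 241⟩, ⟨1, 1, 2225849, 1, 58081⟩]),
  (137, [⟨1, 1, 137, 1, 1⟩, ⟨1, 1, 4427, 1, 241⟩, ⟨1, 1, 34717, 1, 241⟩, ⟨-1, 1, 2334427, 1, 58081⟩]), (139,
  [⟨1, 1, 139, 1, 1⟩, ⟨1, 1, 7223, 1, 241⟩]), (151, [⟨1, 1, 151, 1, 1⟩, ⟨1, 1, 12349, 1, 241⟩, ⟨1, 1, 14213, 1,
  241⟩, ⟨1, 1, 37979, 1, 241⟩, ⟨1, 1, 271445, 1, 58081⟩, ⟨1, 1, 3854519, 1, 58081⟩, ⟨1, 1, 4288831, 1, 58081⟩,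
  ⟨1, 1, 139142707, 1, 13997521⟩]), (157, [⟨1, 1, 157, 1, 1⟩, ⟨1, 1, 13747, 1, 241⟩, ⟨1, 1, 17009, 1, 241⟩, ⟨1,
  1, 380023, 1, 58081⟩]), (163, [⟨1, 1, 163, 1, 1⟩, ⟨1, 1, 16543, 1, 241⟩, ⟨1, 1, 18407, 1, 241⟩, ⟨1, 1,
  597179, 1, 58081⟩]), (251, [⟨1, 1, 251, 1, 1⟩, ⟨-1, 1, 61279, 1, 241⟩, ⟨1, 1, 72929, 1, 241⟩])], []⟩ [(233,
  [])] [] [] [] 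
  (.act ⟨⟨⟨[⟨1, 1, 1, 1, 241⟩], [], []⟩, ⟨[], [⟨1, 1, 1, 1, 1⟩], []⟩, ⟨[], [], [⟨1, 1, 1, 1, 1⟩]⟩⟩, ⟨⟨[⟨1, 1,
  1, 241, 1⟩], [], []⟩, ⟨[], [⟨1, 1, 1, 1, 1⟩], []⟩, ⟨[], [], [⟨1, 1, 1, 1, 1⟩]⟩⟩, ⟨1, 1, 1, 1, 1⟩, [(5, [⟨1,
  1, 5, 241, 1⟩]), (7, [⟨1, 1, 7, 241, 1⟩]), (11, [⟨1, 1, 11, 58081, 1⟩]), (13, [⟨1, 1, 13, 1, 241⟩]), (29,
  [⟨1, 1, 29, 241, 1⟩]), (31, [⟨1, 1, 31, 241, 1⟩]), (43, [⟨1, 1, 43, 241, 1⟩]), (47, [⟨1, 1, 47, 1, 241⟩]),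
  (67, [⟨1, 1, 67, 241, 1⟩]), (71, [⟨1, 1, 71, 241, 1⟩]), (83, [⟨1, 1, 83, 241, 1⟩]), (41, [⟨1, 1, 41, 241,
  1⟩]), (89, [⟨1, 1, 89, 1, 241⟩]), (97, [⟨1, 1, 97, 1, 241⟩]), (103, [⟨1, 1, 103, 1, 58081⟩]), (107, [⟨1, 1,
  107, 1, 241⟩]), (109, [⟨1, 1, 109, 1, 241⟩]), (79, [⟨1, 1, 79, 241, 1⟩]), (113, [⟨1, 1, 113, 1, 241⟩]), (137,
  [⟨1, 1, 137, 1, 241⟩]), (151, [⟨1, 1, 151, 1, 241⟩]), (157, [⟨1, 1, 157, 1, 241⟩]), (251, [⟨1, 1, 251, 1,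
  58081⟩]), (263, [⟨1, 1, 263, 1, 241⟩]), (313, [⟨1, 1, 313, 1, 241⟩])], []⟩ [] [(241, ⟨1, 1, 1, 1, 1⟩)] [] [] 
  (.split 313 
  (.call true ⟨⟨⟨[⟨1, 1, 1, 1, 1⟩], [], []⟩, ⟨[], [], [⟨1, 1, 1, 1, 1⟩]⟩, ⟨[], [⟨1, 1, 1, 1, 1⟩], []⟩⟩, ⟨⟨[⟨1,
  1, 1, 1, 1⟩], [], []⟩, ⟨[], [], [⟨1, 1, 1, 1, 1⟩]⟩, ⟨[], [⟨1, 1, 1, 1, 1⟩], []⟩⟩, ⟨1, 1, 1, 1, 1⟩, [(5, [⟨1,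
  1, 7, 1, 1⟩]), (7, [⟨1, 1, 5, 1, 1⟩]), (11, [⟨-1, 1, 11, 1, 1⟩]), (13, [⟨-1, 1, 47, 1, 1⟩]), (17, [⟨1, 1, 73,
  1, 1⟩]), (19, [⟨1, 1, 61, 1, 1⟩]), (29, [⟨-1, 1, 83, 1, 1⟩]), (31, [⟨-1, 1, 71, 1, 1⟩]), (43, [⟨-1, 1, 67, 1,
  1⟩]), (47, [⟨-1, 1, 13, 1, 1⟩]), (53, [⟨1, 1, 37, 1, 1⟩]), (59, [⟨1, 1, 23, 1, 1⟩]), (67, [⟨-1, 1, 43, 1,
  1⟩]), (71, [⟨-1, 1, 31, 1, 1⟩]), (83, [⟨-1, 1, 29, 1, 1⟩]), (23, [⟨1, 1, 59, 1, 1⟩]), (37, [⟨1, 1, 53, 1,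
  1⟩]), (41, [⟨-1, 1, 79, 1, 1⟩]), (89, [⟨1, 1, 157, 1, 1⟩]), (97, [⟨1, 1, 151, 1, 1⟩]), (101, [⟨-1, 1, 163, 1,
  1⟩]), (107, [⟨1, 1, 109, 1, 1⟩]), (109, [⟨1, 1, 107, 1, 1⟩]), (127, [⟨1, 1, 149, 1, 1⟩]), (131, [⟨-1, 1, 139,
  1, 1⟩]), (149, [⟨1, 1, 127, 1, 1⟩]), (61, [⟨1, 1, 19, 1, 1⟩]), (73, [⟨1, 1, 17, 1, 1⟩]), (79, [⟨-1, 1, 41, 1,
  1⟩]), (113, [⟨1, 1, 137, 1, 1⟩]), (137, [⟨1, 1, 113, 1, 1⟩]), (139, [⟨-1, 1, 131, 1, 1⟩]), (151, [⟨1, 1, 97,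
  1, 1⟩]), (157, [⟨1, 1, 89, 1, 1⟩]), (163, [⟨-1, 1, 101, 1, 1⟩]), (181, []), (197, []), (199, []), (233, []),
  (397, []), (251, [⟨-1, 1, 251, 1, 1⟩]), (257, []), (419, [⟨-1, 1, 263, 1, 1⟩]), (421, []), (307, []), (317,
  []), (433, []), (347, []), (349, []), (359, [⟨-1, 1, 1, 1, 1⟩]), (367, []), (439, []), (443, [])], []⟩ 105) 
  (.act ⟨⟨⟨[⟨1, 1, 1, 1, 97969⟩], [], []⟩, ⟨[], [⟨1, 1, 1, 1, 313⟩], []⟩, ⟨[], [], [⟨1, 1, 1, 1, 1⟩]⟩⟩, ⟨⟨[⟨1,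
  1, 1, 97969, 1⟩], [], []⟩, ⟨[], [⟨1, 1, 1, 313, 1⟩], []⟩, ⟨[], [], [⟨1, 1, 1, 1, 1⟩]⟩⟩, ⟨1, 1, 1, 1, 1⟩, [(5,
  [⟨1, 1, 5, 313, 1⟩]), (7, [⟨1, 1, 7, 97969, 1⟩]), (11, [⟨1, 1, 11, 30664297, 1⟩]), (13, [⟨1, 1, 13, 1,
  313⟩]), (19, [⟨1, 1, 19, 313, 1⟩]), (29, [⟨1, 1, 29, 313, 1⟩]), (31, [⟨1, 1, 31, 97969, 1⟩]), (43, [⟨1, 1,
  43, 30664297, 1⟩]), (47, [⟨1, 1, 47, 1, 97969⟩]), (53, [⟨1, 1, 53, 1, 313⟩]), (71, [⟨1, 1, 71, 313, 1⟩]),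
  (83, [⟨1, 1, 83, 97969, 1⟩]), (37, [⟨1, 1, 37, 313, 1⟩]), (41, [⟨1, 1, 41, 97969, 1⟩]), (89, [⟨1, 1, 89, 1,
  313⟩]), (101, [⟨1, 1, 101, 313, 1⟩]), (103, [⟨1, 1, 103, 1, 30664297⟩]), (107, [⟨1, 1, 107, 1, 97969⟩]),
  (109, [⟨1, 1, 109, 1, 313⟩]), (127, [⟨1, 1, 127, 1, 313⟩]), (149, [⟨1, 1, 149, 313, 1⟩]), (61, [⟨1, 1, 61, 1,
  313⟩]), (79, [⟨1, 1, 79, 313, 1⟩]), (113, [⟨1, 1, 113, 1, 97969⟩]), (137, [⟨1, 1, 137, 1, 313⟩]), (151, [⟨1,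
  1, 151, 1, 30664297⟩]), (157, [⟨1, 1, 157, 1, 97969⟩]), (163, [⟨1, 1, 163, 1, 313⟩]), (251, [⟨1, 1, 251, 1,
  30664297⟩]), (263, [⟨1, 1, 263, 1, 313⟩])], []⟩ [] [(313, ⟨1, 1, 1, 1, 1⟩)] [] [] 
  (.zero [([⟨1, 1, 1, 1, 1⟩], 2188)] 11 1 
  (.zero [([⟨1, 1, 1, 1, 1⟩], 2277)] 5 1 
  (.zero [([⟨1, 1, 1, 1, 1⟩], 2286)] 7 1 
  (.zero [([⟨1, 1, 1, 1, 1⟩], 2520)] 17 1 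
  (.zero [([⟨1, 1, 1, 1, 1⟩], 2521)] 29 1 
  (.zero [([⟨1, 1, 1, 1, 1⟩], 2522)] 41 1 
  (.zero [([⟨1, 1, 1, 1, 1⟩], 2529)] 19 1 
  (.zero [([⟨1, 1, 1, 1, 1⟩], 2530)] 31 1 
  (.zero [([⟨1, 1, 1, 1, 1⟩], 2531)] 43 1 
  (.zero [([⟨1, 1, 1, 1, 1⟩], 2538)] 251 1 
  (.zero [([⟨1, 1, 1, 1, 1⟩], 1814)] 139 1 
  (.zero [([⟨1, 1, 1, 1, 1⟩], 2763)] 53 1 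
  (.zero [([⟨1, 1, 1, 1, 1⟩], 2764)] 67 1 
  (.zero [([⟨1, 1, 1, 1, 1⟩], 2765)] 79 1 
  (.zero [([⟨1, 1, 1, 1, 1⟩], 2772)] 59 1 
  (.zero [([⟨1, 1, 1, 1, 1⟩], 2773)] 71 1 
  (.zero [([⟨1, 1, 1, 1, 1⟩], 2774)] 83 1 
  (.zero [([⟨1, 1, 1, 1, 1⟩], 1809)] 103 1 
  (.elim [([⟨-1, 1, 1, 1, 1⟩], 2268)] 23 
  (.zero [([⟨1, 1, 1, 1, 1⟩], 119)] 37 2 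
  (.zero [([⟨1, 1, 1, 1, 1⟩], 2512)] 101 1 
  (.zero [([⟨1, 1, 1, 1, 1⟩], 1567)] 61 1 
  (.zero [([⟨1, 1, 1, 1, 1⟩], 1568)] 73 1 
  (.zero [([⟨1, 1, 1, 1, 1⟩], 2593)] 127 1 
  (.zero [([⟨1, 1, 1, 1, 1⟩], 1816)] 131 1 
  (.zero [([⟨1, 1, 1, 1, 1⟩], 1817)] 149 1 
  (.zero [([⟨1, 1, 1, 1, 1⟩], 2836)] 163 1 
  (.elim [([⟨-1, 1, 1, 1, 1⟩], 1811)] 97 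
  (.elim [([⟨1, 1, 1, 1, 1⟩], 2541)] 263 
  (.call true ⟨⟨⟨[⟨1, 1, 1, 1, 1⟩], [], []⟩, ⟨[], [], [⟨1, 1, 1, 1, 1⟩]⟩, ⟨[], [⟨1, 1, 1, 1, 1⟩], []⟩⟩, ⟨⟨[⟨1,
  1, 1, 1, 1⟩], [], []⟩, ⟨[], [], [⟨1, 1, 1, 1, 1⟩]⟩, ⟨[], [⟨1, 1, 1, 1, 1⟩], []⟩⟩, ⟨1, 1, 1, 1, 1⟩, [(5, []),
  (7, []), (11, []), (13, [⟨-1, 1, 47, 1, 1⟩]), (17, []), (19, []), (29, []), (31, []), (43, []), (47, [⟨-1, 1,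
  13, 1, 1⟩]), (53, []), (59, []), (67, []), (71, []), (83, []), (23, []), (37, []), (41, []), (89, [⟨1, 1,
  157, 1, 1⟩]), (97, [⟨1, 1, 151, 1, 1⟩]), (101, []), (103, []), (107, [⟨1, 1, 109, 1, 1⟩]), (109, [⟨1, 1, 107,
  1, 1⟩]), (127, []), (131, []), (149, []), (61, []), (73, []), (79, []), (113, [⟨1, 1, 137, 1, 1⟩]), (137,
  [⟨1, 1, 113, 1, 1⟩]), (139, []), (151, [⟨1, 1, 137, 1, 1⟩]), (157, [⟨1, 1, 89, 1, 1⟩]), (163, []), (181,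
  [⟨-1, 1, 1, 1, 1⟩]), (197, [⟨-1, 1, 1, 1, 1⟩]), (199, []), (233, []), (397, [⟨-1, 1, 1, 1, 1⟩]), (251, []),
  (257, []), (419, [⟨-1, 1, 1, 1, 1⟩]), (421, []), (307, []), (317, [⟨-1, 1, 1, 1, 1⟩]), (433, []), (347, []),
  (349, []), (359, [⟨-1, 1, 1, 1, 1⟩]), (367, []), (439, []), (443, [])],
  []⟩ 105))))))))))))))))))))))))))))))))))))))))))))))))))) 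
  (.zero [([⟨1, 1, 1, 1, 1⟩], 885)] 241 1 
  (.zero [([⟨1, 1, 1, 1, 1⟩], 892)] 223 1 
  (.zero [([⟨1, 1, 1, 1, 1⟩], 1135)] 233 1 
  (.zero [([⟨1, 1, 1, 1, 1⟩], 1138)] 239 1 
  (.zero [([⟨1, 1, 1, 1, 1⟩], 1378)] 251 1 
  (.zero [([⟨1, 1, 1, 1, 1⟩], 1381)] 257 1 
  (.zero [([⟨1, 1, 1, 1, 1⟩], 1384)] 263 1 
  (.zero [([⟨1, 1, 1, 1, 1⟩], 930)] 313 1 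
  (.elim [([⟨1, 1, 1, 1, 283⟩], 955)] 269 
  (.elim [([⟨1, 1, 1, 1, 283⟩], 957)] 311 
  (.elim [([⟨1, 1, 1, 1, 283⟩], 958)] 271 
  (.elim [([⟨1, 1, 1, 1, 283⟩], 1198)] 307 
  (.elim [([⟨1, 1, 1, 1, 283⟩], 1441)] 347 
  (.elim [([⟨1, 1, 1, 1, 283⟩], 1444)] 349 
  (.elim [([⟨1, 1, 1, 1, 283⟩], 1447)] 353 
  (.elim [([⟨1, 1, 1, 1, 283⟩], 949)] 317 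
  (.act ⟨⟨⟨[⟨1, 1, 1, 1, 1⟩], [⟨-1, 1, 281, 1, 283⟩], []⟩, ⟨[], [⟨1, 1, 1, 1, 1⟩], []⟩, ⟨[], [], [⟨1, 1, 1, 1,
  1⟩]⟩⟩, ⟨⟨[⟨1, 1, 1, 1, 1⟩], [⟨1, 1, 281, 1, 283⟩], []⟩, ⟨[], [⟨1, 1, 1, 1, 1⟩], []⟩, ⟨[], [], [⟨1, 1, 1, 1,
  1⟩]⟩⟩, ⟨1, 1, 1, 1, 1⟩, [(7, [⟨1, 1, 7, 1, 1⟩, ⟨-1, 1, 3091, 1, 283⟩]), (13, [⟨1, 1, 13, 1, 1⟩, ⟨-1, 1, 4777,
  1, 283⟩, ⟨1, 1, 6463, 1, 283⟩, ⟨1, 1, 2289869, 1, 80089⟩]), (17, [⟨1, 1, 17, 1, 1⟩, ⟨1, 1, 1405, 1, 283⟩,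
  ⟨-1, 1, 8149, 1, 283⟩]), (19, [⟨1, 1, 19, 1, 1⟩, ⟨1, 1, 1967, 1, 283⟩, ⟨-1, 1, 8711, 1, 283⟩, ⟨-1, 1, 868571,
  1, 80089⟩]), (31, [⟨1, 1, 31, 1, 1⟩, ⟨1, 1, 3091, 1, 283⟩]), (47, [⟨1, 1, 47, 1, 1⟩, ⟨-1, 1, 14893, 1, 283⟩,
  ⟨1, 1, 17141, 1, 283⟩, ⟨1, 1, 5290387, 1, 80089⟩]), (53, [⟨1, 1, 53, 1, 1⟩, ⟨-1, 1, 18827, 1, 283⟩]), (59,
  [⟨1, 1, 59, 1, 1⟩, ⟨-1, 1, 19951, 1, 283⟩]), (23, [⟨1, 1, 23, 1, 1⟩, ⟨1, 1, 1405, 1, 283⟩, ⟨1, 1, 8149, 1,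
  283⟩]), (37, [⟨1, 1, 37, 1, 1⟩, ⟨1, 1, 1967, 1, 283⟩, ⟨-1, 1, 11521, 1, 283⟩, ⟨-1, 1, 868571, 1, 80089⟩]),
  (41, [⟨1, 1, 41, 1, 1⟩, ⟨1, 1, 3091, 1, 283⟩]), (89, [⟨1, 1, 89, 1, 1⟩, ⟨1, 1, 4777, 1, 283⟩, ⟨1, 1, 6463, 1,
  283⟩, ⟨1, 1, 394805, 1, 80089⟩]), (97, [⟨1, 1, 97, 1, 1⟩, ⟨1, 1, 5339, 1, 283⟩, ⟨1, 1, 10397, 1, 283⟩, ⟨-1,
  1, 28381, 1, 283⟩, ⟨1, 1, 552727, 1, 80089⟩, ⟨-1, 1, 2447791, 1, 80089⟩, ⟨-1, 1, 3237401, 1, 80089⟩, ⟨-1, 1,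
  244068451, 1, 22665187⟩]), (101, [⟨1, 1, 101, 1, 1⟩, ⟨1, 1, 8711, 1, 283⟩, ⟨1, 1, 11521, 1, 283⟩, ⟨1, 1,
  868571, 1, 80089⟩]), (103, [⟨1, 1, 103, 1, 1⟩, ⟨1, 1, 13207, 1, 283⟩, ⟨-1, 1, 30067, 1, 283⟩, ⟨1, 1, 31753,
  1, 283⟩, ⟨-1, 1, 4184933, 1, 80089⟩, ⟨1, 1, 4816621, 1, 80089⟩, ⟨1, 1, 10028047, 1, 80089⟩, ⟨1, 1,
  1486598747, 1, 22665187⟩]), (107, [⟨1, 1, 107, 1, 1⟩, ⟨1, 1, 14893, 1, 283⟩, ⟨-1, 1, 35687, 1, 283⟩, ⟨-1, 1,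
  5290387, 1, 80089⟩]), (109, [⟨1, 1, 109, 1, 1⟩, ⟨1, 1, 16579, 1, 283⟩, ⟨-1, 1, 36811, 1, 283⟩, ⟨-1, 1,
  5606231, 1, 80089⟩]), (127, [⟨1, 1, 127, 1, 1⟩, ⟨1, 1, 18827, 1, 283⟩]), (131, [⟨1, 1, 131, 1, 1⟩, ⟨1, 1,
  19951, 1, 283⟩]), (149, [⟨1, 1, 149, 1, 1⟩, ⟨1, 1, 23323, 1, 283⟩]), (61, [⟨1, 1, 61, 1, 1⟩, ⟨1, 1, 18827, 1,
  283⟩]), (73, [⟨1, 1, 73, 1, 1⟩, ⟨-1, 1, 22199, 1, 283⟩]), (113, [⟨1, 1, 113, 1, 1⟩, ⟨1, 1, 17141, 1, 283⟩,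
  ⟨1, 1, 35687, 1, 283⟩, ⟨1, 1, 5290387, 1, 80089⟩]), (137, [⟨1, 1, 137, 1, 1⟩, ⟨1, 1, 20513, 1, 283⟩, ⟨-1, 1,
  39059, 1, 283⟩, ⟨-1, 1, 6237919, 1, 80089⟩]), (139, [⟨1, 1, 139, 1, 1⟩, ⟨1, 1, 22199, 1, 283⟩]), (157, [⟨1,
  1, 157, 1, 1⟩, ⟨-1, 1, 45803, 1, 283⟩]), (331, [⟨1, 1, 281, 1, 1⟩, ⟨1, 1, 331, 1, 1⟩]), (359, [⟨1, 1, 359, 1,
  1⟩, ⟨-1, 1, 103127, 1, 283⟩])], []⟩ [(281, [])] [] [] [] 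
  (.act ⟨⟨⟨[⟨1, 1, 1, 1, 1⟩], [], [⟨1, 1, 367, 1, 283⟩]⟩, ⟨[], [⟨1, 1, 1, 1, 1⟩], []⟩, ⟨[], [], [⟨1, 1, 1, 1,
  1⟩]⟩⟩, ⟨⟨[⟨1, 1, 1, 1, 1⟩], [], [⟨-1, 1, 367, 1, 283⟩]⟩, ⟨[], [⟨1, 1, 1, 1, 1⟩], []⟩, ⟨[], [], [⟨1, 1, 1, 1,
  1⟩]⟩⟩, ⟨1, 1, 1, 1, 1⟩, [(5, [⟨1, 1, 5, 1, 1⟩, ⟨-1, 1, 4037, 1, 283⟩]), (13, [⟨1, 1, 13, 1, 1⟩, ⟨1, 1, 6973,
  1, 283⟩, ⟨-1, 1, 13579, 1, 283⟩, ⟨1, 1, 5791627, 1, 80089⟩]), (17, [⟨1, 1, 17, 1, 1⟩, ⟨-1, 1, 15047, 1,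
  283⟩]), (19, [⟨1, 1, 19, 1, 1⟩, ⟨1, 1, 15781, 1, 283⟩]), (47, [⟨1, 1, 47, 1, 1⟩, ⟨1, 1, 21653, 1, 283⟩, ⟨-1,
  1, 26791, 1, 283⟩, ⟨1, 1, 11179187, 1, 80089⟩]), (53, [⟨1, 1, 53, 1, 1⟩, ⟨-1, 1, 1835, 1, 283⟩, ⟨-1, 1,
  28993, 1, 283⟩, ⟨1, 1, 1481579, 1, 80089⟩]), (59, [⟨1, 1, 59, 1, 1⟩, ⟨-1, 1, 2569, 1, 283⟩, ⟨1, 1, 30461, 1,
  283⟩]), (71, [⟨1, 1, 71, 1, 1⟩, ⟨-1, 1, 4037, 1, 283⟩]), (23, [⟨1, 1, 23, 1, 1⟩, ⟨-1, 1, 11377, 1, 283⟩]),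
  (37, [⟨1, 1, 37, 1, 1⟩, ⟨-1, 1, 15781, 1, 283⟩]), (89, [⟨1, 1, 89, 1, 1⟩, ⟨-1, 1, 37067, 1, 283⟩]), (103,
  [⟨1, 1, 103, 1, 1⟩, ⟨1, 1, 4771, 1, 283⟩, ⟨1, 1, 40003, 1, 283⟩, ⟨-1, 1, 50279, 1, 283⟩, ⟨1, 1, 2559091, 1,
  80089⟩, ⟨-1, 1, 4983493, 1, 80089⟩, ⟨1, 1, 20068661, 1, 80089⟩, ⟨1, 1, 2125527109, 1, 22665187⟩]), (107, [⟨1,
  1, 107, 1, 1⟩, ⟨-1, 1, 8441, 1, 283⟩, ⟨-1, 1, 51013, 1, 283⟩, ⟨1, 1, 4175359, 1, 80089⟩]), (109, [⟨1, 1, 109,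
  1, 1⟩, ⟨-1, 1, 13579, 1, 283⟩, ⟨1, 1, 54683, 1, 283⟩, ⟨1, 1, 5791627, 1, 80089⟩]), (127, [⟨1, 1, 127, 1, 1⟩,
  ⟨1, 1, 10643, 1, 283⟩]), (131, [⟨1, 1, 131, 1, 1⟩, ⟨-1, 1, 15047, 1, 283⟩]), (149, [⟨1, 1, 149, 1, 1⟩, ⟨1, 1,
  15781, 1, 283⟩]), (61, [⟨1, 1, 61, 1, 1⟩, ⟨-1, 1, 1835, 1, 283⟩, ⟨-1, 1, 26057, 1, 283⟩, ⟨1, 1, 1481579, 1,
  80089⟩]), (73, [⟨1, 1, 73, 1, 1⟩, ⟨-1, 1, 2569, 1, 283⟩, ⟨-1, 1, 30461, 1, 283⟩]), (79, [⟨1, 1, 79, 1, 1⟩,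
  ⟨-1, 1, 4037, 1, 283⟩]), (113, [⟨1, 1, 113, 1, 1⟩, ⟨-1, 1, 6239, 1, 283⟩, ⟨-1, 1, 48077, 1, 283⟩, ⟨1, 1,
  5522249, 1, 80089⟩]), (137, [⟨1, 1, 137, 1, 1⟩, ⟨-1, 1, 6973, 1, 283⟩, ⟨-1, 1, 54683, 1, 283⟩, ⟨-1, 1,
  5791627, 1, 80089⟩]), (139, [⟨1, 1, 139, 1, 1⟩, ⟨-1, 1, 11377, 1, 283⟩]), (151, [⟨1, 1, 151, 1, 1⟩, ⟨-1, 1,
  19451, 1, 283⟩, ⟨-1, 1, 22387, 1, 283⟩, ⟨-1, 1, 59821, 1, 283⟩, ⟨1, 1, 673445, 1, 80089⟩, ⟨1, 1, 9562919, 1,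
  80089⟩, ⟨1, 1, 10640431, 1, 80089⟩, ⟨-1, 1, 543739493, 1, 22665187⟩]), (157, [⟨1, 1, 157, 1, 1⟩, ⟨-1, 1,
  21653, 1, 283⟩, ⟨-1, 1, 26791, 1, 283⟩, ⟨1, 1, 942823, 1, 80089⟩]), (163, [⟨1, 1, 163, 1, 1⟩, ⟨-1, 1, 26057,
  1, 283⟩, ⟨-1, 1, 28993, 1, 283⟩, ⟨1, 1, 1481579, 1, 80089⟩]), (359, [⟨1, 1, 359, 1, 1⟩, ⟨1, 1, 136891, 1,
  283⟩])], []⟩ [(367, [])] [] [] [] 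
  (.act ⟨⟨⟨[⟨1, 1, 1, 283, 1⟩], [], []⟩, ⟨[], [⟨1, 1, 1, 1, 1⟩], []⟩, ⟨[], [], [⟨1, 1, 1, 1, 1⟩]⟩⟩, ⟨⟨[⟨1, 1,
  1, 1, 283⟩], [], []⟩, ⟨[], [⟨1, 1, 1, 1, 1⟩], []⟩, ⟨[], [], [⟨1, 1, 1, 1, 1⟩]⟩⟩, ⟨1, 1, 1, 1, 1⟩, [(5, [⟨1,
  1, 5, 1, 283⟩]), (7, [⟨1, 1, 7, 1, 283⟩]), (11, [⟨1, 1, 11, 1, 80089⟩]), (13, [⟨1, 1, 13, 283, 1⟩]), (29,
  [⟨1, 1, 29, 1, 283⟩]), (31, [⟨1, 1, 31, 1, 283⟩]), (43, [⟨1, 1, 43, 1, 283⟩]), (47, [⟨1, 1, 47, 283, 1⟩]),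
  (67, [⟨1, 1, 67, 1, 283⟩]), (71, [⟨1, 1, 71, 1, 283⟩]), (83, [⟨1, 1, 83, 1, 283⟩]), (41, [⟨1, 1, 41, 1,
  283⟩]), (89, [⟨1, 1, 89, 283, 1⟩]), (97, [⟨1, 1, 97, 283, 1⟩]), (103, [⟨1, 1, 103, 80089, 1⟩]), (107, [⟨1, 1,
  107, 283, 1⟩]), (109, [⟨1, 1, 109, 283, 1⟩]), (79, [⟨1, 1, 79, 1, 283⟩]), (113, [⟨1, 1, 113, 283, 1⟩]), (137,
  [⟨1, 1, 137, 283, 1⟩]), (151, [⟨1, 1, 151, 283, 1⟩]), (157, [⟨1, 1, 157, 283, 1⟩]), (359, [⟨1, 1, 359, 283,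
  1⟩])], []⟩ [] [(283, ⟨1, 1, 1, 1, 1⟩)] [] [] 
  (.zero [([⟨1, 1, 1, 1, 1⟩], 2199)] 7 1 
  (.zero [([⟨1, 1, 1, 1, 1⟩], 2200)] 11 1 
  (.zero [([⟨1, 1, 1, 1, 1⟩], 2280)] 37 1 
  (.zero [([⟨1, 1, 1, 1, 1⟩], 2281)] 41 1 
  (.zero [([⟨1, 1, 1, 1, 1⟩], 2282)] 43 1 
  (.zero [([⟨1, 1, 1, 1, 1⟩], 1660)] 23 1 
  (.zero [([⟨1, 1, 1, 1, 1⟩], 2442)] 19 1 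
  (.zero [([⟨1, 1, 1, 1, 1⟩], 2443)] 31 1 
  (.zero [([⟨1, 1, 1, 1, 1⟩], 2523)] 97 1 
  (.zero [([⟨1, 1, 1, 1, 1⟩], 2524)] 101 1 
  (.zero [([⟨1, 1, 1, 1, 1⟩], 2685)] 59 1 
  (.zero [([⟨1, 1, 1, 1, 1⟩], 2686)] 71 1 
  (.zero [([⟨1, 1, 1, 1, 1⟩], 2687)] 83 1 
  (.zero [([⟨1, 1, 1, 1, 1⟩], 2766)] 109 1 
  (.zero [([⟨1, 1, 1, 1, 1⟩], 2767)] 131 1 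
  (.zero [([⟨1, 1, 1, 1, 1⟩], 2768)] 149 1 
  (.zero [([⟨1, 1, 1, 1, 1⟩], 2902)] 359 1 
  (.zero [([⟨1, 1, 1, 1, 1⟩], 2173)] 151 1 
  (.elim [([⟨-1, 1, 1, 1, 1⟩], 1632)] 17 
  (.elim [([⟨-1, 1, 1, 1, 1⟩], 1633)] 5 
  (.zero [([⟨1, 1, 1, 1, 1⟩], 4)] 29 2 
  (.zero [([⟨1, 1, 1, 1, 1⟩], 76)] 79 2 
  (.zero [([⟨1, 1, 1, 1, 1⟩], 1659)] 13 1 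
  (.zero [([⟨1, 1, 1, 1, 1⟩], 2605)] 139 1 
  (.zero [([⟨1, 1, 1, 1, 1⟩], 1903)] 89 1 
  (.zero [([⟨1, 1, 1, 1, 1⟩], 2361)] 73 1 
  (.zero [([⟨1, 1, 1, 1, 1⟩], 1931)] 137 1 
  (.elim [([⟨-1, 1, 1, 1, 1⟩], 1687)] 61 
  (.elim [([⟨-1, 1, 1, 1, 1⟩], 2119)] 53 
  (.elim [([⟨-1, 1, 1, 1, 1⟩], 2146)] 107 
  (.elim [([⟨-1, 1, 1, 1, 1⟩], 2174)] 157 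
  (.elim [([⟨-1, 1, 1, 1, 1⟩], 1930)] 113 
  (.elim [([⟨1, 1, 1, 1, 1⟩], 1929)] 103 
  (.elim [([⟨-1, 1, 1, 1, 1⟩], 2118)] 47 
  (.elim [([⟨1, 1, 1, 1, 1⟩], 2848)] 127 
  (.split 331 
  (.zero [([⟨1, 1, 1, 1, 1⟩], 2845)] 373 2 
  (.call false ⟨⟨⟨[], [⟨1, 1, 1, 1, 1⟩], []⟩, ⟨[⟨1, 1, 1, 1, 1⟩], [], []⟩, ⟨[], [], [⟨1, 1, 1, 1, 1⟩]⟩⟩, ⟨⟨[],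
  [⟨1, 1, 1, 1, 1⟩], []⟩, ⟨[⟨1, 1, 1, 1, 1⟩], [], []⟩, ⟨[], [], [⟨1, 1, 1, 1, 1⟩]⟩⟩, ⟨1, 1, 1, 1, 1⟩, [(5, []),
  (7, []), (11, []), (13, []), (17, []), (19, []), (29, []), (31, []), (43, []), (47, [⟨1, 1, 163, 1, 1⟩]),
  (53, []), (59, []), (67, []), (71, []), (83, []), (23, []), (37, []), (41, []), (89, []), (97, []), (101,
  []), (103, [⟨1, 1, 67, 1, 1⟩]), (107, []), (109, []), (127, []), (131, []), (149, []), (61, []), (73, []),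
  (79, []), (113, [⟨-1, 1, 163, 1, 1⟩]), (137, []), (139, []), (151, []), (157, [⟨1, 1, 163, 1, 1⟩]), (163,
  []), (181, []), (197, []), (199, []), (233, []), (397, []), (251, []), (257, []), (419, []), (421, []), (307,
  [⟨1, 1, 1, 1, 1⟩]), (317, []), (433, []), (347, []), (349, []), (359, []), (367, []), (439, []), (443, [])],
  []⟩ 105)) 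
  (.act ⟨⟨⟨[⟨1, 1, 1, 1, 109561⟩], [], []⟩, ⟨[], [⟨1, 1, 1, 1, 331⟩], []⟩, ⟨[], [], [⟨1, 1, 1, 1, 1⟩]⟩⟩, ⟨⟨[⟨1,
  1, 1, 109561, 1⟩], [], []⟩, ⟨[], [⟨1, 1, 1, 331, 1⟩], []⟩, ⟨[], [], [⟨1, 1, 1, 1, 1⟩]⟩⟩, ⟨1, 1, 1, 1, 1⟩,
  [(163, [⟨1, 1, 163, 1, 331⟩]), (373, [⟨1, 1, 373, 1, 331⟩])], []⟩ [] [(331, ⟨1, 1, 1, 1, 1⟩)] [] [] 
  (.split 373 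
  (.call true ⟨⟨⟨[], [⟨1, 1, 1, 1, 1⟩], []⟩, ⟨[⟨1, 1, 1, 1, 1⟩], [], []⟩, ⟨[], [], [⟨1, 1, 1, 1, 1⟩]⟩⟩, ⟨⟨[],
  [⟨1, 1, 1, 1, 1⟩], []⟩, ⟨[⟨1, 1, 1, 1, 1⟩], [], []⟩, ⟨[], [], [⟨1, 1, 1, 1, 1⟩]⟩⟩, ⟨1, 1, 1, 1, 1⟩, [(5, []),
  (7, []), (11, []), (13, []), (17, []), (19, []), (29, []), (31, []), (43, []), (47, [⟨-1, 1, 1, 1, 1⟩, ⟨-1,
  1, 67, 1, 1⟩, ⟨-1, 1, 163, 1, 1⟩]), (53, []), (59, []), (67, []), (71, []), (83, []), (23, []), (37, []),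
  (41, []), (89, []), (97, []), (101, []), (103, [⟨-1, 1, 67, 1, 1⟩]), (107, [⟨-1, 1, 1, 1, 1⟩, ⟨-1, 1, 163, 1,
  1⟩]), (109, []), (127, [⟨1, 1, 1, 1, 1⟩, ⟨1, 1, 163, 1, 1⟩]), (131, []), (149, []), (61, [⟨-1, 1, 1, 1, 1⟩,
  ⟨-1, 1, 67, 1, 1⟩, ⟨-1, 1, 163, 1, 1⟩]), (73, []), (79, []), (113, [⟨-1, 1, 67, 1, 1⟩]), (137, []), (139,
  []), (151, []), (157, [⟨1, 1, 163, 1, 1⟩]), (163, [⟨-1, 1, 163, 1, 1⟩]), (181, []), (197, [⟨-1, 1, 1, 1,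
  1⟩]), (199, [⟨1, 1, 1, 1, 1⟩]), (233, []), (397, []), (251, [⟨-1, 1, 1, 1, 1⟩]), (257, [⟨1, 1, 1, 1, 1⟩]),
  (419, []), (421, []), (307, []), (317, []), (433, []), (347, []), (349, []), (359, []), (367, []), (439, []),
  (443, [])], []⟩ 105) 
  (.uelim [([⟨-1, 1, 1, 1, 373⟩], 2845)] 373 
  (.call true ⟨⟨⟨[], [⟨1, 1, 1, 1, 1⟩], []⟩, ⟨[⟨1, 1, 1, 1, 1⟩], [], []⟩, ⟨[], [], [⟨1, 1, 1, 1, 1⟩]⟩⟩, ⟨⟨[],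
  [⟨1, 1, 1, 1, 1⟩], []⟩, ⟨[⟨1, 1, 1, 1, 1⟩], [], []⟩, ⟨[], [], [⟨1, 1, 1, 1, 1⟩]⟩⟩, ⟨1, 1, 1, 1, 1⟩, [(5, []),
  (7, []), (11, []), (13, []), (17, []), (19, []), (29, []), (31, []), (43, []), (47, [⟨-1, 1, 1, 1, 1⟩, ⟨-1,
  1, 163, 1, 1⟩]), (53, []), (59, []), (67, []), (71, []), (83, []), (23, []), (37, []), (41, []), (89, []),
  (97, []), (101, []), (103, [⟨-1, 1, 67, 1, 1⟩]), (107, [⟨-1, 1, 1, 1, 1⟩, ⟨1, 1, 67, 1, 1⟩, ⟨-1, 1, 163, 1,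
  1⟩]), (109, []), (127, []), (131, []), (149, []), (61, []), (73, []), (79, []), (113, []), (137, []), (139,
  []), (151, []), (157, [⟨1, 1, 163, 1, 1⟩]), (163, []), (181, []), (197, [⟨-1, 1, 1, 1, 1⟩]), (199, []), (233,
  []), (397, []), (251, [⟨-1, 1, 1, 1, 1⟩]), (257, []), (419, []), (421, []), (307, []), (317, []), (433, []),
  (347, []), (349, []), (359, []), (367, []), (439, [⟨-1, 1, 1, 1, 1⟩]), (443, [])],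
  []⟩ 105))))))))))))))))))))))))))))))))))))))))))))))))))))))))))))))))

theorem okR3 : sR3.seq (check true (LB.take 106) tR3) = true := by decide +kernel

def tR0 : Tree := .split 179 
  (.zero [([⟨1, 1, 1, 1, 1⟩], 917)] 461 2 
  (.split 173 
  (.zero [([⟨1, 1, 1, 1, 1⟩], 1458), ([⟨1, 1, 1, 1, 1⟩], 1488), ([⟨1, 1, 1, 1, 1⟩], 1518)] 167 2 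
  (.split 193 
  (.zero [([⟨1, 1, 1, 1, 1⟩], 1946), ([⟨1, 1, 1, 1, 1⟩], 1976), ([⟨1, 1, 1, 1, 1⟩], 2006)] 211 2 
  (.zero [([⟨1, 1, 1, 1, 1⟩], 1702), ([⟨1, 1, 1, 1, 1⟩], 1732), ([⟨1, 1, 1, 1, 1⟩], 1762)] 191 2 
  (.split 181 
  (.split 199 
  (.split 197 
  (.split 389 
  (.zero [([⟨1, 1, 1, 1, 1⟩], 907)] 293 2 
  (.zero [([⟨1, 1, 1, 1, 1⟩], 861)] 229 2 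
  (.zero [([⟨1, 1, 1, 1, 1⟩], 823)] 383 2 
  (.zero [([⟨1, 1, 1, 1, 1⟩], 969)] 277 2 
  (.zero [([⟨1, 1, 1, 1, 1⟩], 1213)] 337 2 
  (.zero [([⟨1, 1, 1, 1, 1⟩], 813)] 227 2 
  (.zero [([⟨1, 1, 1, 1, 1⟩], 1548), ([⟨1, 1, 1, 1, 1⟩], 1578), ([⟨1, 1, 1, 1, 1⟩], 1608)] 379 2 
  (.split 409 
  (.zero [([⟨1, 1, 1, 1, 1⟩], 1187)] 467 2 
  (.zero [([⟨1, 1, 1, 1, 1⟩], 2036), ([⟨1, 1, 1, 1, 1⟩], 2066), ([⟨1, 1, 1, 1, 1⟩], 2096)] 431 2 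
  (.zero [([⟨1, 1, 1, 1, 1⟩], 1792), ([⟨1, 1, 1, 1, 1⟩], 1822), ([⟨1, 1, 1, 1, 1⟩], 1852)] 401 2 
  (.zero [([⟨1, 1, 1, 1, 1⟩], 1081)] 397 2 
  (.zero [([⟨1, 1, 1, 1, 1⟩], 2126), ([⟨1, 1, 1, 1, 1⟩], 2156), ([⟨1, 1, 1, 1, 1⟩], 2186)] 479 2 
  (.split 421 
  (.split 419 
  (.split 457 
  (.zero [([⟨1, 1, 1, 1, 1⟩], 1638), ([⟨1, 1, 1, 1, 1⟩], 1668), ([⟨1, 1, 1, 1, 1⟩], 1698)] 449 2 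
  (.zero [([⟨1, 1, 1, 1, 1⟩], 1882), ([⟨1, 1, 1, 1, 1⟩], 1912), ([⟨1, 1, 1, 1, 1⟩], 1942)] 463 2 
  (.zero [([⟨1, 1, 1, 1, 1⟩], 1445)] 443 2 
  (.split 433 
  (.zero [([⟨1, 1, 1, 1, 1⟩], 1433)] 439 2 
  (.call false ⟨mone, mone, ⟨1, 1, 1, 1, 1⟩, [(227, []), (229, []), (277, []), (293, []), (337, [])], []⟩ 106)) 
  (.zero [([⟨1, 1, 1, 1, 1⟩], 1098)] 241 1 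
  (.zero [([⟨1, 1, 1, 1, 1⟩], 1179)] 313 1 
  (.zero [([⟨1, 1, 1, 1, 1⟩], 950)] 283 1 
  (.zero [([⟨1, 1, 1, 1, 1⟩], 1193)] 331 1 
  (.zero [([⟨1, 1, 1, 1, 1⟩], 1439)] 373 1 
  (.zero [([⟨1, 1, 1, 1, 1⟩], 947)] 281 1 
  (.zero [([⟨1, 1, 1, 1, 1⟩], 1436)] 367 1 
  (.zero [([⟨1, 1, 1, 1, 1⟩], 957)] 271 2 
  (.elim [([⟨1, 1, 1, 1, 433⟩], 1190)] 317 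
  (.elim [([⟨1, 1, 1, 1, 433⟩], 1433)] 359 
  (.elim [([⟨-1, 1, 1, 1, 433⟩], 1863), ([⟨-1, 1, 1, 1, 433⟩], 1893), ([⟨-1, 1, 1, 1, 433⟩], 1923)] 311 
  (.elim [([⟨1, 1, 1, 1, 433⟩], 1116)] 257 
  (.elim [([⟨1, 1, 1, 1, 433⟩], 1197)] 349 
  (.elim [([⟨1, 1, 1, 1, 433⟩], 1188)] 347 
  (.elim [([⟨1, 1, 1, 1, 433⟩], 1107)] 251 
  (.act ⟨⟨⟨[⟨1, 1, 1, 1, 1⟩], [], []⟩, ⟨[], [⟨1, 1, 1, 1, 1⟩], [⟨1, 1, 439, 1, 433⟩]⟩, ⟨[], [], [⟨1, 1, 1, 1,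
  1⟩]⟩⟩, ⟨⟨[⟨1, 1, 1, 1, 1⟩], [], []⟩, ⟨[], [⟨1, 1, 1, 1, 1⟩], [⟨-1, 1, 439, 1, 433⟩]⟩, ⟨[], [], [⟨1, 1, 1, 1,
  1⟩]⟩⟩, ⟨1, 1, 1, 1, 1⟩, [(5, [⟨1, 1, 5, 1, 1⟩, ⟨1, 1, 3073, 1, 433⟩]), (17, [⟨1, 1, 17, 1, 1⟩, ⟨1, 1, 8341,
  1, 433⟩]), (29, [⟨1, 1, 29, 1, 1⟩, ⟨1, 1, 13609, 1, 433⟩, ⟨-1, 1, 17999, 1, 433⟩, ⟨1, 1, 8287003, 1,
  187489⟩]), (31, [⟨1, 1, 31, 1, 1⟩, ⟨1, 1, 18877, 1, 433⟩]), (47, [⟨1, 1, 47, 1, 1⟩, ⟨-1, 1, 5707, 1, 433⟩]),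
  (53, [⟨1, 1, 53, 1, 1⟩, ⟨-1, 1, 7463, 1, 433⟩, ⟨1, 1, 25901, 1, 433⟩, ⟨-1, 1, 3661699, 1, 187489⟩]), (59,
  [⟨1, 1, 59, 1, 1⟩, ⟨-1, 1, 8341, 1, 433⟩]), (67, [⟨1, 1, 67, 1, 1⟩, ⟨-1, 1, 12731, 1, 433⟩, ⟨1, 1, 31169, 1,
  433⟩, ⟨-1, 1, 34681, 1, 433⟩, ⟨-1, 1, 5974351, 1, 187489⟩, ⟨1, 1, 7901561, 1, 187489⟩, ⟨1, 1, 15995843, 1,
  187489⟩, ⟨-1, 1, 3637994317, 1, 81182737⟩]), (71, [⟨1, 1, 71, 1, 1⟩, ⟨-1, 1, 13609, 1, 433⟩, ⟨1, 1, 36437, 1,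
  433⟩, ⟨-1, 1, 8287003, 1, 187489⟩]), (83, [⟨1, 1, 83, 1, 1⟩, ⟨-1, 1, 18877, 1, 433⟩]), (23, [⟨1, 1, 23, 1,
  1⟩, ⟨1, 1, 16243, 1, 433⟩]), (41, [⟨1, 1, 41, 1, 1⟩, ⟨-1, 1, 18877, 1, 433⟩]), (89, [⟨1, 1, 89, 1, 1⟩, ⟨1, 1,
  42583, 1, 433⟩]), (107, [⟨1, 1, 107, 1, 1⟩, ⟨-1, 1, 39071, 1, 433⟩, ⟨1, 1, 47851, 1, 433⟩, ⟨-1, 1, 18693937,
  1, 187489⟩]), (109, [⟨1, 1, 109, 1, 1⟩, ⟨-1, 1, 42583, 1, 433⟩]), (127, [⟨1, 1, 127, 1, 1⟩, ⟨1, 1, 57509, 1,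
  433⟩, ⟨-1, 1, 61021, 1, 433⟩, ⟨1, 1, 28715429, 1, 187489⟩]), (131, [⟨1, 1, 131, 1, 1⟩, ⟨-1, 1, 44339, 1,
  433⟩, ⟨1, 1, 65411, 1, 433⟩]), (61, [⟨1, 1, 61, 1, 1⟩, ⟨-1, 1, 10097, 1, 433⟩, ⟨1, 1, 32047, 1, 433⟩, ⟨-1, 1,
  7130677, 1, 187489⟩]), (73, [⟨1, 1, 73, 1, 1⟩, ⟨-1, 1, 16243, 1, 433⟩]), (79, [⟨1, 1, 79, 1, 1⟩, ⟨-1, 1,
  17999, 1, 433⟩, ⟨-1, 1, 36437, 1, 433⟩, ⟨1, 1, 8287003, 1, 187489⟩]), (113, [⟨1, 1, 113, 1, 1⟩, ⟨-1, 1,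
  39071, 1, 433⟩, ⟨1, 1, 60143, 1, 433⟩, ⟨-1, 1, 18693937, 1, 187489⟩]), (137, [⟨1, 1, 137, 1, 1⟩, ⟨-1, 1,
  42583, 1, 433⟩]), (139, [⟨1, 1, 139, 1, 1⟩, ⟨-1, 1, 44339, 1, 433⟩, ⟨-1, 1, 65411, 1, 433⟩]), (151, [⟨1, 1,
  151, 1, 1⟩, ⟨-1, 1, 46973, 1, 433⟩, ⟨-1, 1, 49607, 1, 433⟩, ⟨1, 1, 68923, 1, 433⟩, ⟨1, 1, 17152169, 1,
  187489⟩, ⟨-1, 1, 21006589, 1, 187489⟩, ⟨-1, 1, 26402777, 1, 187489⟩, ⟨1, 1, 8206638343, 1, 81182737⟩]), (157,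
  [⟨1, 1, 157, 1, 1⟩, ⟨-1, 1, 47851, 1, 433⟩, ⟨-1, 1, 60143, 1, 433⟩, ⟨1, 1, 18693937, 1, 187489⟩]), (163, [⟨1,
  1, 163, 1, 1⟩, ⟨-1, 1, 57509, 1, 433⟩, ⟨-1, 1, 61021, 1, 433⟩, ⟨1, 1, 19464821, 1, 187489⟩]), (251, [⟨-1, 1,
  68461, 1, 433⟩, ⟨1, 1, 80741, 1, 433⟩, ⟨1, 1, 24446593, 1, 187489⟩, ⟨-1, 1, 26901481, 1, 187489⟩]), (269,
  [⟨1, 1, 269, 1, 1⟩, ⟨-1, 1, 97897, 1, 433⟩]), (307, [⟨1, 1, 307, 1, 1⟩, ⟨-1, 1, 102287, 1, 433⟩]), (347,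
  [⟨-1, 1, 82583, 1, 433⟩, ⟨1, 1, 108371, 1, 433⟩, ⟨1, 1, 30054379, 1, 187489⟩, ⟨-1, 1, 35445299, 1, 187489⟩,
  ⟨-1, 1, 36107311, 1, 187489⟩, ⟨1, 1, 11809750159, 1, 81182737⟩]), (353, [⟨1, 1, 353, 1, 1⟩, ⟨-1, 1, 115457,
  1, 433⟩])], []⟩ [(439, [])] [] [] [(45, [⟨1, 1, 251, 1, 1⟩]), (72, [⟨1, 1, 347, 1, 1⟩])] 
  (.call false ⟨⟨⟨[⟨1, 1, 1, 1, 1⟩], [], []⟩, ⟨[], [], [⟨1, 1, 1, 1, 1⟩]⟩, ⟨[], [⟨1, 1, 1, 1, 1⟩], []⟩⟩, ⟨⟨[⟨1,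
  1, 1, 1, 1⟩], [], []⟩, ⟨[], [], [⟨1, 1, 1, 1, 1⟩]⟩, ⟨[], [⟨1, 1, 1, 1, 1⟩], []⟩⟩, ⟨1, 1, 1, 1, 433⟩, [(5,
  [⟨1, 1, 7, 1, 433⟩]), (7, [⟨1, 1, 5, 1, 433⟩]), (11, [⟨-1, 1, 11, 1, 433⟩]), (13, [⟨1, 1, 47, 1, 433⟩]), (17,
  [⟨1, 1, 59, 1, 433⟩]), (19, [⟨1, 1, 53, 1, 433⟩]), (29, [⟨1, 1, 83, 1, 433⟩]), (31, [⟨-1, 1, 79, 1, 433⟩]),
  (43, [⟨1, 1, 67, 1, 433⟩]), (47, [⟨1, 1, 13, 1, 433⟩]), (53, [⟨1, 1, 19, 1, 433⟩]), (59, [⟨1, 1, 17, 1,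
  433⟩]), (67, [⟨1, 1, 43, 1, 433⟩]), (71, [⟨-1, 1, 41, 1, 433⟩]), (83, [⟨1, 1, 29, 1, 433⟩]), (23, [⟨1, 1, 73,
  1, 433⟩]), (37, [⟨1, 1, 61, 1, 433⟩]), (41, [⟨-1, 1, 71, 1, 433⟩]), (89, [⟨1, 1, 157, 1, 433⟩]), (97, [⟨1, 1,
  151, 1, 433⟩]), (101, [⟨-1, 1, 163, 1, 433⟩]), (103, [⟨-1, 1, 103, 1, 433⟩]), (107, [⟨1, 1, 137, 1, 433⟩]),
  (109, [⟨1, 1, 113, 1, 433⟩]), (127, [⟨-1, 1, 149, 1, 433⟩]), (131, [⟨-1, 1, 131, 1, 433⟩]), (149, [⟨-1, 1,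
  127, 1, 433⟩]), (61, [⟨1, 1, 37, 1, 433⟩]), (73, [⟨1, 1, 23, 1, 433⟩]), (79, [⟨-1, 1, 31, 1, 433⟩]), (113,
  [⟨1, 1, 109, 1, 433⟩]), (137, [⟨1, 1, 107, 1, 433⟩]), (139, [⟨-1, 1, 139, 1, 433⟩]), (151, [⟨1, 1, 97, 1,
  433⟩]), (157, [⟨1, 1, 89, 1, 433⟩]), (163, [⟨-1, 1, 101, 1, 433⟩]), (167, []), (173, []), (179, []), (181,
  []), (191, []), (193, []), (197, []), (199, []), (211, []), (223, [⟨1, 1, 269, 1, 433⟩]), (227, []), (229,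
  []), (233, [⟨1, 1, 347, 1, 433⟩]), (239, [⟨1, 1, 353, 1, 433⟩]), (241, []), (251, [⟨1, 1, 307, 1, 433⟩]),
  (257, []), (263, []), (269, [⟨1, 1, 223, 1, 433⟩]), (271, []), (277, []), (281, []), (283, []), (293, []),
  (307, [⟨1, 1, 251, 1, 433⟩]), (311, [⟨1, 1, 263, 1, 433⟩]), (313, []), (317, []), (331, []), (337, []), (347,
  [⟨1, 1, 233, 1, 433⟩]), (349, []), (353, [⟨1, 1, 239, 1, 433⟩]), (359, []), (367, []), (373, [])],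
  []⟩ 97))))))))))))))))))))) 
  (.zero [([⟨1, 1, 1, 1, 1⟩], 893)] 223 1 
  (.zero [([⟨1, 1, 1, 1, 1⟩], 1136)] 233 1 
  (.zero [([⟨1, 1, 1, 1, 1⟩], 1139)] 239 1 
  (.zero [([⟨1, 1, 1, 1, 1⟩], 1142)] 241 1 
  (.zero [([⟨1, 1, 1, 1, 1⟩], 1379)] 251 1 
  (.zero [([⟨1, 1, 1, 1, 1⟩], 1382)] 257 1 
  (.zero [([⟨1, 1, 1, 1, 1⟩], 1385)] 263 1 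
  (.zero [([⟨1, 1, 1, 1, 1⟩], 939)] 313 1 
  (.elim [([⟨1, 1, 1, 1, 457⟩], 1448)] 353 
  (.elim [([⟨-1, 1, 1, 1, 457⟩], 1638), ([⟨-1, 1, 1, 1, 457⟩], 1668), ([⟨-1, 1, 1, 1, 457⟩], 1698)] 433 
  (.elim [([⟨-1, 1, 1, 1, 457⟩], 1639), ([⟨-1, 1, 1, 1, 457⟩], 1669), ([⟨-1, 1, 1, 1, 457⟩], 1699)] 449 
  (.elim [([⟨-1, 1, 1, 1, 457⟩], 1630), ([⟨-1, 1, 1, 1, 457⟩], 1660), ([⟨-1, 1, 1, 1, 457⟩], 1690)] 281 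
  (.elim [([⟨-1, 1, 1, 1, 457⟩], 1873), ([⟨-1, 1, 1, 1, 457⟩], 1903), ([⟨-1, 1, 1, 1, 457⟩], 1933)] 317 
  (.elim [([⟨-1, 1, 1, 1, 457⟩], 2125), ([⟨-1, 1, 1, 1, 457⟩], 2155), ([⟨-1, 1, 1, 1, 457⟩], 2185)] 439 
  (.elim [([⟨-1, 1, 1, 1, 457⟩], 1621), ([⟨-1, 1, 1, 1, 457⟩], 1651), ([⟨-1, 1, 1, 1, 457⟩], 1681)] 269 
  (.elim [([⟨-1, 1, 1, 1, 457⟩], 1864), ([⟨-1, 1, 1, 1, 457⟩], 1894), ([⟨-1, 1, 1, 1, 457⟩], 1924)] 307 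
  (.elim [([⟨1, 1, 1, 1, 457⟩], 959)] 271 
  (.elim [([⟨1, 1, 1, 1, 457⟩], 1202)] 311 
  (.elim [([⟨1, 1, 1, 1, 457⟩], 1445)] 349 
  (.elim [([⟨1, 1, 1, 1, 457⟩], 1442)] 347 
  (.elim [([⟨-1, 1, 1, 1, 457⟩], 2116), ([⟨-1, 1, 1, 1, 457⟩], 2146), ([⟨-1, 1, 1, 1, 457⟩], 2176)] 359 
  (.elim [([⟨1, 1, 1, 1, 457⟩], 958)] 367 
  (.act ⟨⟨⟨[⟨1, 1, 1, 1, 1⟩], [], []⟩, ⟨[], [⟨1, 1, 1, 1, 1⟩], [⟨-1, 1, 283, 1, 457⟩]⟩, ⟨[], [], [⟨1, 1, 1, 1,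
  1⟩]⟩⟩, ⟨⟨[⟨1, 1, 1, 1, 1⟩], [], []⟩, ⟨[], [⟨1, 1, 1, 1, 1⟩], [⟨1, 1, 283, 1, 457⟩]⟩, ⟨[], [], [⟨1, 1, 1, 1,
  1⟩]⟩⟩, ⟨1, 1, 1, 1, 1⟩, [(5, [⟨1, 1, 5, 1, 1⟩, ⟨-1, 1, 1981, 1, 457⟩]), (17, [⟨1, 1, 17, 1, 1⟩, ⟨-1, 1, 5377,
  1, 457⟩]), (29, [⟨1, 1, 29, 1, 1⟩, ⟨-1, 1, 8773, 1, 457⟩, ⟨1, 1, 11603, 1, 457⟩, ⟨1, 1, 3443827, 1,
  208849⟩]), (31, [⟨1, 1, 31, 1, 1⟩, ⟨-1, 1, 12169, 1, 457⟩]), (47, [⟨1, 1, 47, 1, 1⟩, ⟨1, 1, 3679, 1, 457⟩]),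
  (53, [⟨1, 1, 53, 1, 1⟩, ⟨1, 1, 4811, 1, 457⟩, ⟨-1, 1, 16697, 1, 457⟩, ⟨-1, 1, 1521691, 1, 208849⟩]), (59,
  [⟨1, 1, 59, 1, 1⟩, ⟨1, 1, 5377, 1, 457⟩]), (67, [⟨1, 1, 67, 1, 1⟩, ⟨1, 1, 8207, 1, 457⟩, ⟨-1, 1, 20093, 1,
  457⟩, ⟨1, 1, 22357, 1, 457⟩, ⟨-1, 1, 2482759, 1, 208849⟩, ⟨1, 1, 3283649, 1, 208849⟩, ⟨1, 1, 6647387, 1,
  208849⟩, ⟨1, 1, 974603041, 1, 95443993⟩]), (71, [⟨1, 1, 71, 1, 1⟩, ⟨1, 1, 8773, 1, 457⟩, ⟨-1, 1, 23489, 1,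
  457⟩, ⟨-1, 1, 3443827, 1, 208849⟩]), (83, [⟨1, 1, 83, 1, 1⟩, ⟨1, 1, 12169, 1, 457⟩]), (23, [⟨1, 1, 23, 1, 1⟩,
  ⟨-1, 1, 10471, 1, 457⟩]), (41, [⟨1, 1, 41, 1, 1⟩, ⟨1, 1, 12169, 1, 457⟩]), (89, [⟨1, 1, 89, 1, 1⟩, ⟨-1, 1,
  27451, 1, 457⟩]), (107, [⟨1, 1, 107, 1, 1⟩, ⟨1, 1, 25187, 1, 457⟩, ⟨-1, 1, 30847, 1, 457⟩, ⟨-1, 1, 7768633,
  1, 208849⟩]), (109, [⟨1, 1, 109, 1, 1⟩, ⟨1, 1, 27451, 1, 457⟩]), (127, [⟨1, 1, 127, 1, 1⟩, ⟨-1, 1, 37073, 1,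
  457⟩, ⟨1, 1, 39337, 1, 457⟩, ⟨1, 1, 11933261, 1, 208849⟩]), (131, [⟨1, 1, 131, 1, 1⟩, ⟨1, 1, 28583, 1, 457⟩,
  ⟨-1, 1, 42167, 1, 457⟩]), (61, [⟨1, 1, 61, 1, 1⟩, ⟨1, 1, 6509, 1, 457⟩, ⟨-1, 1, 20659, 1, 457⟩, ⟨-1, 1,
  2963293, 1, 208849⟩]), (73, [⟨1, 1, 73, 1, 1⟩, ⟨1, 1, 10471, 1, 457⟩]), (79, [⟨1, 1, 79, 1, 1⟩, ⟨1, 1, 11603,
  1, 457⟩, ⟨1, 1, 23489, 1, 457⟩, ⟨1, 1, 3443827, 1, 208849⟩]), (113, [⟨1, 1, 113, 1, 1⟩, ⟨1, 1, 25187, 1,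
  457⟩, ⟨-1, 1, 38771, 1, 457⟩, ⟨-1, 1, 7768633, 1, 208849⟩]), (137, [⟨1, 1, 137, 1, 1⟩, ⟨1, 1, 27451, 1,
  457⟩]), (139, [⟨1, 1, 139, 1, 1⟩, ⟨1, 1, 28583, 1, 457⟩, ⟨1, 1, 42167, 1, 457⟩]), (151, [⟨1, 1, 151, 1, 1⟩,
  ⟨1, 1, 30281, 1, 457⟩, ⟨1, 1, 31979, 1, 457⟩, ⟨-1, 1, 44431, 1, 457⟩, ⟨1, 1, 7127921, 1, 208849⟩, ⟨-1, 1,
  8729701, 1, 208849⟩, ⟨-1, 1, 10972193, 1, 208849⟩, ⟨-1, 1, 2198523139, 1, 95443993⟩]), (157, [⟨1, 1, 157, 1,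
  1⟩, ⟨1, 1, 30847, 1, 457⟩, ⟨1, 1, 38771, 1, 457⟩, ⟨1, 1, 7768633, 1, 208849⟩]), (163, [⟨1, 1, 163, 1, 1⟩, ⟨1,
  1, 37073, 1, 457⟩, ⟨1, 1, 39337, 1, 457⟩, ⟨1, 1, 8088989, 1, 208849⟩]), (331, [⟨1, 1, 331, 1, 1⟩, ⟨-1, 1,
  131029, 1, 457⟩]), (443, [⟨1, 1, 443, 1, 1⟩, ⟨1, 1, 131029, 1, 457⟩])], []⟩ [(283, [])] [] [] [] 
  (.act ⟨⟨⟨[⟨1, 1, 1, 1, 1⟩], [], [⟨1, 1, 443, 1, 457⟩]⟩, ⟨[], [⟨1, 1, 1, 1, 1⟩], []⟩, ⟨[], [], [⟨1, 1, 1, 1,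
  1⟩]⟩⟩, ⟨⟨[⟨1, 1, 1, 1, 1⟩], [], [⟨-1, 1, 443, 1, 457⟩]⟩, ⟨[], [⟨1, 1, 1, 1, 1⟩], []⟩, ⟨[], [], [⟨1, 1, 1, 1,
  1⟩]⟩⟩, ⟨1, 1, 1, 1, 1⟩, [(5, [⟨1, 1, 5, 1, 1⟩, ⟨-1, 1, 4873, 1, 457⟩]), (13, [⟨1, 1, 13, 1, 1⟩, ⟨1, 1, 8417,
  1, 457⟩, ⟨-1, 1, 16391, 1, 457⟩, ⟨1, 1, 8438707, 1, 208849⟩]), (17, [⟨1, 1, 17, 1, 1⟩, ⟨-1, 1, 18163, 1,
  457⟩]), (19, [⟨1, 1, 19, 1, 1⟩, ⟨1, 1, 19049, 1, 457⟩]), (47, [⟨1, 1, 47, 1, 1⟩, ⟨1, 1, 26137, 1, 457⟩, ⟨-1,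
  1, 32339, 1, 457⟩, ⟨1, 1, 16288667, 1, 208849⟩]), (53, [⟨1, 1, 53, 1, 1⟩, ⟨-1, 1, 2215, 1, 457⟩, ⟨-1, 1,
  34997, 1, 457⟩, ⟨1, 1, 2158739, 1, 208849⟩]), (59, [⟨1, 1, 59, 1, 1⟩, ⟨-1, 1, 3101, 1, 457⟩, ⟨1, 1, 36769, 1,
  457⟩]), (71, [⟨1, 1, 71, 1, 1⟩, ⟨-1, 1, 4873, 1, 457⟩]), (23, [⟨1, 1, 23, 1, 1⟩, ⟨-1, 1, 13733, 1, 457⟩]),
  (37, [⟨1, 1, 37, 1, 1⟩, ⟨-1, 1, 19049, 1, 457⟩]), (89, [⟨1, 1, 89, 1, 1⟩, ⟨-1, 1, 44743, 1, 457⟩]), (103,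
  [⟨1, 1, 103, 1, 1⟩, ⟨1, 1, 5759, 1, 457⟩, ⟨1, 1, 48287, 1, 457⟩, ⟨-1, 1, 60691, 1, 457⟩, ⟨1, 1, 3728731, 1,
  208849⟩, ⟨-1, 1, 7261213, 1, 208849⟩, ⟨1, 1, 29241101, 1, 208849⟩, ⟨1, 1, 3738347201, 1, 95443993⟩]), (107,
  [⟨1, 1, 107, 1, 1⟩, ⟨-1, 1, 10189, 1, 457⟩, ⟨-1, 1, 61577, 1, 457⟩, ⟨1, 1, 6083719, 1, 208849⟩]), (109, [⟨1,
  1, 109, 1, 1⟩, ⟨-1, 1, 16391, 1, 457⟩, ⟨1, 1, 66007, 1, 457⟩, ⟨1, 1, 8438707, 1, 208849⟩]), (127, [⟨1, 1,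
  127, 1, 1⟩, ⟨1, 1, 12847, 1, 457⟩]), (131, [⟨1, 1, 131, 1, 1⟩, ⟨-1, 1, 18163, 1, 457⟩]), (149, [⟨1, 1, 149,
  1, 1⟩, ⟨1, 1, 19049, 1, 457⟩]), (61, [⟨1, 1, 61, 1, 1⟩, ⟨-1, 1, 2215, 1, 457⟩, ⟨-1, 1, 31453, 1, 457⟩, ⟨1, 1,
  2158739, 1, 208849⟩]), (73, [⟨1, 1, 73, 1, 1⟩, ⟨-1, 1, 3101, 1, 457⟩, ⟨-1, 1, 36769, 1, 457⟩]), (79, [⟨1, 1,
  79, 1, 1⟩, ⟨-1, 1, 4873, 1, 457⟩]), (113, [⟨1, 1, 113, 1, 1⟩, ⟨-1, 1, 7531, 1, 457⟩, ⟨-1, 1, 58033, 1, 457⟩,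
  ⟨1, 1, 8046209, 1, 208849⟩]), (137, [⟨1, 1, 137, 1, 1⟩, ⟨-1, 1, 8417, 1, 457⟩, ⟨-1, 1, 66007, 1, 457⟩, ⟨-1,
  1, 8438707, 1, 208849⟩]), (139, [⟨1, 1, 139, 1, 1⟩, ⟨-1, 1, 13733, 1, 457⟩]), (151, [⟨1, 1, 151, 1, 1⟩, ⟨-1,
  1, 23479, 1, 457⟩, ⟨-1, 1, 27023, 1, 457⟩, ⟨-1, 1, 72209, 1, 457⟩, ⟨1, 1, 981245, 1, 208849⟩, ⟨1, 1,
  13933679, 1, 208849⟩, ⟨1, 1, 15503671, 1, 208849⟩, ⟨-1, 1, 956321377, 1, 95443993⟩]), (157, [⟨1, 1, 157, 1,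
  1⟩, ⟨-1, 1, 26137, 1, 457⟩, ⟨-1, 1, 32339, 1, 457⟩, ⟨1, 1, 1373743, 1, 208849⟩]), (163, [⟨1, 1, 163, 1, 1⟩,
  ⟨-1, 1, 31453, 1, 457⟩, ⟨-1, 1, 34997, 1, 457⟩, ⟨1, 1, 2158739, 1, 208849⟩])], []⟩ [(443, [])] [] [] [] 
  (.act ⟨⟨⟨[⟨1, 1, 1, 1, 1⟩], [⟨1, 1, 463, 1, 457⟩], []⟩, ⟨[], [⟨1, 1, 1, 1, 1⟩], []⟩, ⟨[], [], [⟨1, 1, 1, 1,
  1⟩]⟩⟩, ⟨⟨[⟨1, 1, 1, 1, 1⟩], [⟨-1, 1, 463, 1, 457⟩], []⟩, ⟨[], [⟨1, 1, 1, 1, 1⟩], []⟩, ⟨[], [], [⟨1, 1, 1, 1,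
  1⟩]⟩⟩, ⟨1, 1, 1, 1, 1⟩, [(7, [⟨1, 1, 7, 1, 1⟩, ⟨1, 1, 5093, 1, 457⟩]), (13, [⟨1, 1, 13, 1, 1⟩, ⟨1, 1, 7871,
  1, 457⟩, ⟨-1, 1, 10649, 1, 457⟩, ⟨1, 1, 6216701, 1, 208849⟩]), (17, [⟨1, 1, 17, 1, 1⟩, ⟨-1, 1, 2315, 1, 457⟩,
  ⟨1, 1, 13427, 1, 457⟩]), (19, [⟨1, 1, 19, 1, 1⟩, ⟨-1, 1, 3241, 1, 457⟩, ⟨1, 1, 14353, 1, 457⟩, ⟨-1, 1,
  2358059, 1, 208849⟩]), (31, [⟨1, 1, 31, 1, 1⟩, ⟨-1, 1, 5093, 1, 457⟩]), (47, [⟨1, 1, 47, 1, 1⟩, ⟨1, 1, 24539,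
  1, 457⟩, ⟨-1, 1, 28243, 1, 457⟩, ⟨1, 1, 14362723, 1, 208849⟩]), (53, [⟨1, 1, 53, 1, 1⟩, ⟨1, 1, 31021, 1,
  457⟩]), (59, [⟨1, 1, 59, 1, 1⟩, ⟨1, 1, 32873, 1, 457⟩]), (23, [⟨1, 1, 23, 1, 1⟩, ⟨-1, 1, 2315, 1, 457⟩, ⟨-1,
  1, 13427, 1, 457⟩]), (37, [⟨1, 1, 37, 1, 1⟩, ⟨-1, 1, 3241, 1, 457⟩, ⟨1, 1, 18983, 1, 457⟩, ⟨-1, 1, 2358059,
  1, 208849⟩]), (41, [⟨1, 1, 41, 1, 1⟩, ⟨-1, 1, 5093, 1, 457⟩]), (89, [⟨1, 1, 89, 1, 1⟩, ⟨-1, 1, 7871, 1, 457⟩,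
  ⟨-1, 1, 10649, 1, 457⟩, ⟨1, 1, 1071845, 1, 208849⟩]), (97, [⟨1, 1, 97, 1, 1⟩, ⟨-1, 1, 8797, 1, 457⟩, ⟨-1, 1,
  17131, 1, 457⟩, ⟨1, 1, 46763, 1, 457⟩, ⟨1, 1, 1500583, 1, 208849⟩, ⟨-1, 1, 6645439, 1, 208849⟩, ⟨-1, 1,
  8789129, 1, 208849⟩, ⟨1, 1, 1091781317, 1, 95443993⟩]), (101, [⟨1, 1, 101, 1, 1⟩, ⟨-1, 1, 14353, 1, 457⟩,
  ⟨-1, 1, 18983, 1, 457⟩, ⟨1, 1, 2358059, 1, 208849⟩]), (103, [⟨1, 1, 103, 1, 1⟩, ⟨-1, 1, 21761, 1, 457⟩, ⟨1,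
  1, 49541, 1, 457⟩, ⟨-1, 1, 52319, 1, 457⟩, ⟨-1, 1, 11361557, 1, 208849⟩, ⟨1, 1, 13076509, 1, 208849⟩, ⟨1, 1,
  27224863, 1, 208849⟩, ⟨-1, 1, 6649940749, 1, 95443993⟩]), (107, [⟨1, 1, 107, 1, 1⟩, ⟨-1, 1, 24539, 1, 457⟩,
  ⟨1, 1, 58801, 1, 457⟩, ⟨-1, 1, 14362723, 1, 208849⟩]), (109, [⟨1, 1, 109, 1, 1⟩, ⟨-1, 1, 27317, 1, 457⟩, ⟨1,
  1, 60653, 1, 457⟩, ⟨-1, 1, 15220199, 1, 208849⟩]), (127, [⟨1, 1, 127, 1, 1⟩, ⟨-1, 1, 31021, 1, 457⟩]), (131,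
  [⟨1, 1, 131, 1, 1⟩, ⟨-1, 1, 32873, 1, 457⟩]), (149, [⟨1, 1, 149, 1, 1⟩, ⟨-1, 1, 38429, 1, 457⟩]), (61, [⟨1,
  1, 61, 1, 1⟩, ⟨-1, 1, 31021, 1, 457⟩]), (73, [⟨1, 1, 73, 1, 1⟩, ⟨1, 1, 36577, 1, 457⟩]), (113, [⟨1, 1, 113,
  1, 1⟩, ⟨-1, 1, 28243, 1, 457⟩, ⟨-1, 1, 58801, 1, 457⟩, ⟨1, 1, 14362723, 1, 208849⟩]), (137, [⟨1, 1, 137, 1,
  1⟩, ⟨-1, 1, 33799, 1, 457⟩, ⟨1, 1, 64357, 1, 457⟩, ⟨-1, 1, 16935151, 1, 208849⟩]), (139, [⟨1, 1, 139, 1, 1⟩,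
  ⟨-1, 1, 36577, 1, 457⟩]), (157, [⟨1, 1, 157, 1, 1⟩, ⟨1, 1, 75469, 1, 457⟩])], []⟩ [(463, [])] [] [] [] 
  (.call false ⟨⟨⟨[], [⟨1, 1, 1, 1, 1⟩], []⟩, ⟨[], [], [⟨1, 1, 1, 1, 1⟩]⟩, ⟨[⟨1, 1, 1, 1, 1⟩], [], []⟩⟩, ⟨⟨[],
  [], [⟨1, 1, 1, 1, 1⟩]⟩, ⟨[⟨1, 1, 1, 1, 1⟩], [], []⟩, ⟨[], [⟨1, 1, 1, 1, 1⟩], []⟩⟩, ⟨1, 1, 1, 1, 457⟩, [(5,
  [⟨1, 1, 101, 1, 457⟩]), (7, [⟨-1, 1, 89, 1, 457⟩]), (11, [⟨-1, 1, 97, 1, 457⟩]), (13, [⟨1, 1, 127, 1, 457⟩]),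
  (17, [⟨1, 1, 131, 1, 457⟩]), (19, [⟨-1, 1, 113, 1, 457⟩]), (29, [⟨1, 1, 149, 1, 457⟩]), (31, [⟨-1, 1, 137, 1,
  457⟩]), (43, [⟨1, 1, 103, 1, 457⟩]), (47, [⟨-1, 1, 29, 1, 457⟩]), (53, [⟨1, 1, 41, 1, 457⟩]), (59, [⟨-1, 1,
  17, 1, 457⟩]), (67, [⟨-1, 1, 43, 1, 457⟩]), (71, [⟨-1, 1, 19, 1, 457⟩]), (83, [⟨-1, 1, 13, 1, 457⟩]), (23,
  [⟨1, 1, 139, 1, 457⟩]), (37, [⟨-1, 1, 107, 1, 457⟩]), (41, [⟨-1, 1, 109, 1, 457⟩]), (89, [⟨1, 1, 163, 1,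
  457⟩]), (97, [⟨-1, 1, 151, 1, 457⟩]), (101, [⟨-1, 1, 157, 1, 457⟩]), (103, [⟨-1, 1, 67, 1, 457⟩]), (107, [⟨1,
  1, 79, 1, 457⟩]), (109, [⟨-1, 1, 53, 1, 457⟩]), (127, [⟨-1, 1, 83, 1, 457⟩]), (131, [⟨-1, 1, 59, 1, 457⟩]),
  (149, [⟨-1, 1, 47, 1, 457⟩]), (61, [⟨1, 1, 31, 1, 457⟩]), (73, [⟨-1, 1, 23, 1, 457⟩]), (79, [⟨-1, 1, 37, 1,
  457⟩]), (113, [⟨1, 1, 71, 1, 457⟩]), (137, [⟨-1, 1, 61, 1, 457⟩]), (139, [⟨-1, 1, 73, 1, 457⟩]), (151, [⟨1,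
  1, 11, 1, 457⟩]), (157, [⟨-1, 1, 5, 1, 457⟩]), (163, [⟨-1, 1, 7, 1, 457⟩]), (167, []), (173, []), (179, []),
  (181, []), (191, []), (193, []), (197, []), (199, []), (211, []), (223, [⟨1, 1, 331, 1, 457⟩]), (227, []),
  (229, []), (233, []), (239, [⟨1, 1, 373, 1, 457⟩]), (241, []), (251, []), (257, []), (263, []), (269, []),
  (271, []), (277, []), (281, []), (283, []), (293, []), (307, []), (311, []), (313, []), (317, []), (331, []),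
  (337, []), (347, []), (349, []), (353, []), (359, []), (367, []), (373, [])],
  []⟩ 97))))))))))))))))))))))))))) 
  (.zero [([⟨1, 1, 1, 1, 1⟩], 1388)] 457 1 
  (.zero [([⟨1, 1, 1, 1, 1⟩], 1387)] 283 1 
  (.zero [([⟨1, 1, 1, 1, 1⟩], 1386)] 271 1 
  (.zero [([⟨1, 1, 1, 1, 1⟩], 865)] 449 1 
  (.zero [([⟨1, 1, 1, 1, 1⟩], 1111)] 463 1 
  (.zero [([⟨1, 1, 1, 1, 1⟩], 1108)] 433 1 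
  (.zero [([⟨1, 1, 1, 1, 1⟩], 1354)] 443 1 
  (.zero [([⟨1, 1, 1, 1, 1⟩], 1351)] 439 1 
  (.call false ⟨mone, mone, ⟨1, 1, 1, 1, 419⟩, [(5, [⟨1, 1, 5, 1, 419⟩]), (7, [⟨1, 1, 7, 1, 419⟩]), (11, [⟨1,
  1, 11, 1, 419⟩]), (13, [⟨1, 1, 13, 1, 419⟩]), (17, [⟨1, 1, 17, 1, 419⟩]), (19, [⟨1, 1, 19, 1, 419⟩]), (29,
  [⟨1, 1, 29, 1, 419⟩]), (31, [⟨1, 1, 31, 1, 419⟩]), (43, [⟨1, 1, 43, 1, 419⟩]), (47, [⟨1, 1, 47, 1, 419⟩]),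
  (53, [⟨1, 1, 53, 1, 419⟩]), (59, [⟨1, 1, 59, 1, 419⟩]), (67, [⟨1, 1, 67, 1, 419⟩]), (71, [⟨1, 1, 71, 1,
  419⟩]), (83, [⟨1, 1, 83, 1, 419⟩]), (23, [⟨1, 1, 23, 1, 419⟩]), (37, [⟨1, 1, 37, 1, 419⟩]), (41, [⟨1, 1, 41,
  1, 419⟩]), (89, [⟨1, 1, 89, 1, 419⟩]), (97, [⟨1, 1, 97, 1, 419⟩]), (101, [⟨1, 1, 101, 1, 419⟩]), (103, [⟨1,
  1, 103, 1, 419⟩]), (107, [⟨1, 1, 107, 1, 419⟩]), (109, [⟨1, 1, 109, 1, 419⟩]), (127, [⟨1, 1, 127, 1, 419⟩]),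
  (131, [⟨1, 1, 131, 1, 419⟩]), (149, [⟨1, 1, 149, 1, 419⟩]), (61, [⟨1, 1, 61, 1, 419⟩]), (73, [⟨1, 1, 73, 1,
  419⟩]), (79, [⟨1, 1, 79, 1, 419⟩]), (113, [⟨1, 1, 113, 1, 419⟩]), (137, [⟨1, 1, 137, 1, 419⟩]), (139, [⟨1, 1,
  139, 1, 419⟩]), (151, [⟨1, 1, 151, 1, 419⟩]), (157, [⟨1, 1, 157, 1, 419⟩]), (163, [⟨1, 1, 163, 1, 419⟩]),
  (167, []), (173, []), (179, []), (181, []), (191, []), (193, []), (197, []), (199, []), (211, []), (223, [⟨1,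
  1, 223, 1, 419⟩]), (227, []), (229, []), (233, [⟨1, 1, 233, 1, 419⟩]), (239, [⟨1, 1, 239, 1, 419⟩]), (241,
  [⟨1, 1, 241, 1, 419⟩]), (251, [⟨1, 1, 251, 1, 419⟩]), (257, [⟨1, 1, 257, 1, 419⟩]), (263, [⟨1, 1, 263, 1,
  419⟩]), (269, [⟨1, 1, 269, 1, 419⟩]), (271, []), (277, []), (281, [⟨1, 1, 281, 1, 419⟩]), (283, []), (293,
  []), (307, [⟨1, 1, 307, 1, 419⟩]), (311, [⟨1, 1, 311, 1, 419⟩]), (313, [⟨1, 1, 313, 1, 419⟩]), (317, [⟨1, 1,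
  317, 1, 419⟩]), (331, [⟨1, 1, 331, 1, 419⟩]), (337, []), (347, [⟨1, 1, 347, 1, 419⟩]), (349, [⟨1, 1, 349, 1,
  419⟩]), (353, [⟨1, 1, 353, 1, 419⟩]), (359, [⟨1, 1, 359, 1, 419⟩]), (367, [⟨1, 1, 367, 1, 419⟩]), (373, [⟨1,
  1, 373, 1, 419⟩])], []⟩ 97)))))))))) 
  (.zero [([⟨1, 1, 1, 1, 1⟩], 1391)] 457 1 
  (.zero [([⟨1, 1, 1, 1, 1⟩], 1390)] 283 1 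
  (.zero [([⟨1, 1, 1, 1, 1⟩], 1389)] 271 1 
  (.zero [([⟨1, 1, 1, 1, 1⟩], 1114)] 241 1 
  (.zero [([⟨1, 1, 1, 1, 1⟩], 874)] 449 1 
  (.zero [([⟨1, 1, 1, 1, 1⟩], 1120)] 463 1 
  (.zero [([⟨1, 1, 1, 1, 1⟩], 1117)] 433 1 
  (.zero [([⟨1, 1, 1, 1, 1⟩], 1357)] 263 1 
  (.zero [([⟨1, 1, 1, 1, 1⟩], 1167)] 313 2 
  (.zero [([⟨1, 1, 1, 1, 1⟩], 865)] 223 1 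
  (.zero [([⟨1, 1, 1, 1, 1⟩], 1111)] 239 1 
  (.zero [([⟨1, 1, 1, 1, 1⟩], 1108)] 233 1 
  (.elim [([⟨-1, 1, 1, 1, 421⟩], 1360)] 419 
  (.elim [([⟨1, 1, 1, 1, 421⟩], 1363)] 443 
  (.elim [([⟨-1, 1, 1, 1, 421⟩], 1354)] 257 
  (.elim [([⟨-1, 1, 1, 1, 421⟩], 1351)] 251 
  (.elim [([⟨-1, 1, 1, 1, 421⟩], 2116), ([⟨-1, 1, 1, 1, 421⟩], 2146), ([⟨-1, 1, 1, 1, 421⟩], 2176)] 331 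
  (.zero [([⟨1, 1, 1, 1, 1⟩], 1447)] 373 2 
  (.zero [([⟨1, 1, 1, 1, 1⟩], 2107), ([⟨1, 1, 1, 1, 1⟩], 2137), ([⟨1, 1, 1, 1, 1⟩], 2167)] 353 1 
  (.elim [([⟨1, 1, 1, 1, 421⟩], 1408)] 317 
  (.elim [([⟨1, 1, 1, 1, 421⟩], 1407)] 307 
  (.elim [([⟨1, 1, 1, 1, 421⟩], 1435)] 359 
  (.elim [([⟨1, 1, 1, 1, 421⟩], 1434)] 347 
  (.act ⟨⟨⟨[⟨1, 1, 1, 1, 1⟩], [⟨-1, 1, 439, 1, 421⟩], []⟩, ⟨[], [⟨1, 1, 1, 1, 1⟩], []⟩, ⟨[], [], [⟨1, 1, 1, 1,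
  1⟩]⟩⟩, ⟨⟨[⟨1, 1, 1, 1, 1⟩], [⟨1, 1, 439, 1, 421⟩], []⟩, ⟨[], [⟨1, 1, 1, 1, 1⟩], []⟩, ⟨[], [], [⟨1, 1, 1, 1,
  1⟩]⟩⟩, ⟨1, 1, 1, 1, 1⟩, [(7, [⟨1, 1, 7, 1, 1⟩, ⟨-1, 1, 4829, 1, 421⟩]), (13, [⟨1, 1, 13, 1, 1⟩, ⟨-1, 1, 7463,
  1, 421⟩, ⟨1, 1, 10097, 1, 421⟩, ⟨1, 1, 5588909, 1, 177241⟩]), (17, [⟨1, 1, 17, 1, 1⟩, ⟨1, 1, 2195, 1, 421⟩,
  ⟨-1, 1, 12731, 1, 421⟩]), (19, [⟨1, 1, 19, 1, 1⟩, ⟨1, 1, 3073, 1, 421⟩, ⟨-1, 1, 13609, 1, 421⟩, ⟨-1, 1,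
  2119931, 1, 177241⟩]), (31, [⟨1, 1, 31, 1, 1⟩, ⟨1, 1, 4829, 1, 421⟩]), (47, [⟨1, 1, 47, 1, 1⟩, ⟨-1, 1, 23267,
  1, 421⟩, ⟨1, 1, 26779, 1, 421⟩, ⟨1, 1, 12912307, 1, 177241⟩]), (53, [⟨1, 1, 53, 1, 1⟩, ⟨-1, 1, 29413, 1,
  421⟩]), (59, [⟨1, 1, 59, 1, 1⟩, ⟨-1, 1, 31169, 1, 421⟩]), (23, [⟨1, 1, 23, 1, 1⟩, ⟨1, 1, 2195, 1, 421⟩, ⟨1,
  1, 12731, 1, 421⟩]), (37, [⟨1, 1, 37, 1, 1⟩, ⟨1, 1, 3073, 1, 421⟩, ⟨-1, 1, 17999, 1, 421⟩, ⟨-1, 1, 2119931,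
  1, 177241⟩]), (41, [⟨1, 1, 41, 1, 1⟩, ⟨1, 1, 4829, 1, 421⟩]), (89, [⟨1, 1, 89, 1, 1⟩, ⟨1, 1, 7463, 1, 421⟩,
  ⟨1, 1, 10097, 1, 421⟩, ⟨1, 1, 963605, 1, 177241⟩]), (97, [⟨1, 1, 97, 1, 1⟩, ⟨1, 1, 8341, 1, 421⟩, ⟨1, 1,
  16243, 1, 421⟩, ⟨-1, 1, 44339, 1, 421⟩, ⟨1, 1, 1349047, 1, 177241⟩, ⟨-1, 1, 5974351, 1, 177241⟩, ⟨-1, 1,
  7901561, 1, 177241⟩, ⟨-1, 1, 930649709, 1, 74618461⟩]), (101, [⟨1, 1, 101, 1, 1⟩, ⟨1, 1, 13609, 1, 421⟩, ⟨1,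
  1, 17999, 1, 421⟩, ⟨1, 1, 2119931, 1, 177241⟩]), (103, [⟨1, 1, 103, 1, 1⟩, ⟨1, 1, 20633, 1, 421⟩, ⟨-1, 1,
  46973, 1, 421⟩, ⟨1, 1, 49607, 1, 421⟩, ⟨-1, 1, 10214213, 1, 177241⟩, ⟨1, 1, 11755981, 1, 177241⟩, ⟨1, 1,
  24475567, 1, 177241⟩, ⟨1, 1, 5668502773, 1, 74618461⟩]), (107, [⟨1, 1, 107, 1, 1⟩, ⟨1, 1, 23267, 1, 421⟩,
  ⟨-1, 1, 55753, 1, 421⟩, ⟨-1, 1, 12912307, 1, 177241⟩]), (109, [⟨1, 1, 109, 1, 1⟩, ⟨1, 1, 25901, 1, 421⟩, ⟨-1,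
  1, 57509, 1, 421⟩, ⟨-1, 1, 13683191, 1, 177241⟩]), (127, [⟨1, 1, 127, 1, 1⟩, ⟨1, 1, 29413, 1, 421⟩]), (131,
  [⟨1, 1, 131, 1, 1⟩, ⟨1, 1, 31169, 1, 421⟩]), (149, [⟨1, 1, 149, 1, 1⟩, ⟨1, 1, 36437, 1, 421⟩]), (61, [⟨1, 1,
  61, 1, 1⟩, ⟨1, 1, 29413, 1, 421⟩]), (73, [⟨1, 1, 73, 1, 1⟩, ⟨-1, 1, 34681, 1, 421⟩]), (113, [⟨1, 1, 113, 1,
  1⟩, ⟨1, 1, 26779, 1, 421⟩, ⟨1, 1, 55753, 1, 421⟩, ⟨1, 1, 12912307, 1, 177241⟩]), (137, [⟨1, 1, 137, 1, 1⟩,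
  ⟨1, 1, 32047, 1, 421⟩, ⟨-1, 1, 61021, 1, 421⟩, ⟨-1, 1, 15224959, 1, 177241⟩]), (139, [⟨1, 1, 139, 1, 1⟩, ⟨1,
  1, 34681, 1, 421⟩]), (157, [⟨1, 1, 157, 1, 1⟩, ⟨-1, 1, 71557, 1, 421⟩]), (269, [⟨1, 1, 269, 1, 1⟩, ⟨-1, 1,
  123359, 1, 421⟩]), (347, [⟨-1, 1, 93881, 1, 421⟩, ⟨1, 1, 43052291, 1, 177241⟩, ⟨1, 1, 43339397, 1, 177241⟩,
  ⟨-1, 1, 50106143, 1, 177241⟩, ⟨-1, 1, 19874738567, 1, 74618461⟩]), (349, [⟨1, 1, 349, 1, 1⟩, ⟨-1, 1, 161113,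
  1, 421⟩])], []⟩ [(439, [])] [] [] [(72, [⟨1, 1, 347, 1, 1⟩])] 
  (.call false ⟨⟨⟨[], [⟨1, 1, 1, 1, 1⟩], []⟩, ⟨[⟨1, 1, 1, 1, 1⟩], [], []⟩, ⟨[], [], [⟨1, 1, 1, 1, 1⟩]⟩⟩, ⟨⟨[],
  [⟨1, 1, 1, 1, 1⟩], []⟩, ⟨[⟨1, 1, 1, 1, 1⟩], [], []⟩, ⟨[], [], [⟨1, 1, 1, 1, 1⟩]⟩⟩, ⟨1, 1, 1, 1, 421⟩, [(5,
  [⟨-1, 1, 89, 1, 421⟩]), (7, [⟨1, 1, 101, 1, 421⟩]), (11, [⟨1, 1, 97, 1, 421⟩]), (13, [⟨-1, 1, 29, 1, 421⟩]),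
  (17, [⟨-1, 1, 17, 1, 421⟩]), (19, [⟨1, 1, 41, 1, 421⟩]), (29, [⟨-1, 1, 13, 1, 421⟩]), (31, [⟨1, 1, 37, 1,
  421⟩]), (43, [⟨-1, 1, 43, 1, 421⟩]), (47, [⟨1, 1, 127, 1, 421⟩]), (53, [⟨-1, 1, 113, 1, 421⟩]), (59, [⟨1, 1,
  131, 1, 421⟩]), (67, [⟨1, 1, 103, 1, 421⟩]), (71, [⟨1, 1, 109, 1, 421⟩]), (83, [⟨1, 1, 149, 1, 421⟩]), (23,
  [⟨-1, 1, 23, 1, 421⟩]), (37, [⟨1, 1, 31, 1, 421⟩]), (41, [⟨1, 1, 19, 1, 421⟩]), (89, [⟨-1, 1, 5, 1, 421⟩]),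
  (97, [⟨1, 1, 11, 1, 421⟩]), (101, [⟨1, 1, 7, 1, 421⟩]), (103, [⟨1, 1, 67, 1, 421⟩]), (107, [⟨-1, 1, 61, 1,
  421⟩]), (109, [⟨1, 1, 71, 1, 421⟩]), (127, [⟨1, 1, 47, 1, 421⟩]), (131, [⟨1, 1, 59, 1, 421⟩]), (149, [⟨1, 1,
  83, 1, 421⟩]), (61, [⟨-1, 1, 107, 1, 421⟩]), (73, [⟨1, 1, 139, 1, 421⟩]), (79, [⟨1, 1, 137, 1, 421⟩]), (113,
  [⟨-1, 1, 53, 1, 421⟩]), (137, [⟨1, 1, 79, 1, 421⟩]), (139, [⟨1, 1, 73, 1, 421⟩]), (151, [⟨-1, 1, 151, 1,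
  421⟩]), (157, [⟨1, 1, 163, 1, 421⟩]), (163, [⟨1, 1, 157, 1, 421⟩]), (223, []), (227, []), (229, []), (379,
  []), (383, []), (389, []), (233, []), (239, []), (241, []), (397, []), (401, []), (409, []), (251, []), (257,
  []), (263, []), (419, []), (421, []), (431, []), (269, []), (271, []), (277, []), (281, [⟨1, 1, 311, 1,
  421⟩]), (283, []), (293, []), (307, []), (311, [⟨1, 1, 281, 1, 421⟩]), (313, []), (317, []), (331, [⟨1, 1,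
  269, 1, 421⟩]), (337, []), (347, [⟨1, 1, 367, 1, 421⟩]), (349, [⟨-1, 1, 98069, 1, 177241⟩]), (353, []), (359,
  [⟨1, 1, 349, 1, 421⟩]), (367, [⟨1, 1, 347, 1, 421⟩]), (373, [])], []⟩ 98))))))))))))))))))))))))))))))) 
  (.zero [([⟨1, 1, 1, 1, 1⟩], 1151)] 457 1 
  (.zero [([⟨1, 1, 1, 1, 1⟩], 883)] 281 1 
  (.zero [([⟨1, 1, 1, 1, 1⟩], 886)] 283 1 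
  (.zero [([⟨1, 1, 1, 1, 1⟩], 1126)] 317 1 
  (.zero [([⟨1, 1, 1, 1, 1⟩], 1129)] 331 1 
  (.zero [([⟨1, 1, 1, 1, 1⟩], 1369)] 359 1 
  (.zero [([⟨1, 1, 1, 1, 1⟩], 1372)] 367 1 
  (.zero [([⟨1, 1, 1, 1, 1⟩], 1375)] 373 1 
  (.zero [([⟨1, 1, 1, 1, 1⟩], 1149)] 271 1 
  (.zero [([⟨1, 1, 1, 1, 1⟩], 856)] 449 1 
  (.elim [([⟨1, 1, 1, 1, 409⟩], 1099)] 397 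
  (.elim [([⟨1, 1, 1, 1, 409⟩], 1102)] 401 
  (.elim [([⟨-1, 1, 1, 1, 409⟩], 1105)] 467 
  (.elim [([⟨1, 1, 1, 1, 409⟩], 1424)] 419 
  (.elim [([⟨1, 1, 1, 1, 409⟩], 1427)] 421 
  (.elim [([⟨1, 1, 1, 1, 409⟩], 1430)] 431 
  (.elim [([⟨-1, 1, 1, 1, 409⟩], 838)] 269 
  (.elim [([⟨-1, 1, 1, 1, 409⟩], 1883), ([⟨-1, 1, 1, 1, 409⟩], 1913), ([⟨-1, 1, 1, 1, 409⟩], 1943)] 463 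
  (.elim [([⟨-1, 1, 1, 1, 409⟩], 2126), ([⟨-1, 1, 1, 1, 409⟩], 2156), ([⟨-1, 1, 1, 1, 409⟩], 2186)] 443 
  (.elim [([⟨-1, 1, 1, 1, 409⟩], 1784), ([⟨-1, 1, 1, 1, 409⟩], 1814), ([⟨-1, 1, 1, 1, 409⟩], 1844)] 239 
  (.zero [([⟨1, 1, 1, 1, 1⟩], 837)] 223 2 
  (.elim [([⟨-1, 1, 1, 1, 409⟩], 2027), ([⟨-1, 1, 1, 1, 409⟩], 2057), ([⟨-1, 1, 1, 1, 409⟩], 2087)] 257 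
  (.elim [([⟨-1, 1, 1, 1, 409⟩], 1791), ([⟨-1, 1, 1, 1, 409⟩], 1821), ([⟨-1, 1, 1, 1, 409⟩], 1851)] 439 
  (.elim [([⟨-1, 1, 1, 1, 409⟩], 1865), ([⟨-1, 1, 1, 1, 409⟩], 1895), ([⟨-1, 1, 1, 1, 409⟩], 1925)] 311 
  (.elim [([⟨-1, 1, 1, 1, 409⟩], 2108), ([⟨-1, 1, 1, 1, 409⟩], 2138), ([⟨-1, 1, 1, 1, 409⟩], 2168)] 349 
  (.elim [([⟨-1, 1, 1, 1, 409⟩], 1087)] 313 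
  (.elim [([⟨1, 1, 1, 1, 409⟩], 1086)] 233 
  (.elim [([⟨1, 1, 1, 1, 409⟩], 1113)] 251 
  (.elim [([⟨1, 1, 1, 1, 409⟩], 1194)] 347 
  (.elim [([⟨-1, 1, 1, 1, 409⟩], 1330)] 353 
  (.elim [([⟨-1, 1, 1, 1, 409⟩], 1081)] 307 
  (.act ⟨⟨⟨[⟨1, 1, 1, 1, 1⟩], [⟨-1, 1, 241, 1, 409⟩], []⟩, ⟨[], [⟨1, 1, 1, 1, 1⟩], []⟩, ⟨[], [], [⟨1, 1, 1, 1,
  1⟩]⟩⟩, ⟨⟨[⟨1, 1, 1, 1, 1⟩], [⟨1, 1, 241, 1, 409⟩], []⟩, ⟨[], [⟨1, 1, 1, 1, 1⟩], []⟩, ⟨[], [], [⟨1, 1, 1, 1,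
  1⟩]⟩⟩, ⟨1, 1, 1, 1, 1⟩, [(7, [⟨1, 1, 7, 1, 1⟩, ⟨-1, 1, 2651, 1, 409⟩]), (13, [⟨1, 1, 13, 1, 1⟩, ⟨-1, 1, 4097,
  1, 409⟩, ⟨1, 1, 5543, 1, 409⟩, ⟨1, 1, 1684349, 1, 167281⟩]), (17, [⟨1, 1, 17, 1, 1⟩, ⟨1, 1, 1205, 1, 409⟩,
  ⟨-1, 1, 6989, 1, 409⟩]), (19, [⟨1, 1, 19, 1, 1⟩, ⟨1, 1, 1687, 1, 409⟩, ⟨-1, 1, 7471, 1, 409⟩, ⟨-1, 1, 638891,
  1, 167281⟩]), (31, [⟨1, 1, 31, 1, 1⟩, ⟨1, 1, 2651, 1, 409⟩]), (47, [⟨1, 1, 47, 1, 1⟩, ⟨-1, 1, 12773, 1, 409⟩,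
  ⟨1, 1, 14701, 1, 409⟩, ⟨1, 1, 3891427, 1, 167281⟩]), (53, [⟨1, 1, 53, 1, 1⟩, ⟨-1, 1, 16147, 1, 409⟩]), (59,
  [⟨1, 1, 59, 1, 1⟩, ⟨-1, 1, 17111, 1, 409⟩]), (23, [⟨1, 1, 23, 1, 1⟩, ⟨1, 1, 1205, 1, 409⟩, ⟨1, 1, 6989, 1,
  409⟩]), (37, [⟨1, 1, 37, 1, 1⟩, ⟨1, 1, 1687, 1, 409⟩, ⟨-1, 1, 9881, 1, 409⟩, ⟨-1, 1, 638891, 1, 167281⟩]),
  (41, [⟨1, 1, 41, 1, 1⟩, ⟨1, 1, 2651, 1, 409⟩]), (89, [⟨1, 1, 89, 1, 1⟩, ⟨1, 1, 4097, 1, 409⟩, ⟨1, 1, 5543, 1,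
  409⟩, ⟨1, 1, 290405, 1, 167281⟩]), (97, [⟨1, 1, 97, 1, 1⟩, ⟨1, 1, 4579, 1, 409⟩, ⟨1, 1, 8917, 1, 409⟩, ⟨-1,
  1, 24341, 1, 409⟩, ⟨1, 1, 406567, 1, 167281⟩, ⟨-1, 1, 1800511, 1, 167281⟩, ⟨-1, 1, 2381321, 1, 167281⟩, ⟨-1,
  1, 153972731, 1, 68417929⟩]), (101, [⟨1, 1, 101, 1, 1⟩, ⟨1, 1, 7471, 1, 409⟩, ⟨1, 1, 9881, 1, 409⟩, ⟨1, 1,
  638891, 1, 167281⟩]), (103, [⟨1, 1, 103, 1, 1⟩, ⟨1, 1, 11327, 1, 409⟩, ⟨-1, 1, 25787, 1, 409⟩, ⟨1, 1, 27233,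
  1, 409⟩, ⟨-1, 1, 3078293, 1, 167281⟩, ⟨1, 1, 3542941, 1, 167281⟩, ⟨1, 1, 7376287, 1, 167281⟩, ⟨1, 1,
  937833907, 1, 68417929⟩]), (107, [⟨1, 1, 107, 1, 1⟩, ⟨1, 1, 12773, 1, 409⟩, ⟨-1, 1, 30607, 1, 409⟩, ⟨-1, 1,
  3891427, 1, 167281⟩]), (109, [⟨1, 1, 109, 1, 1⟩, ⟨1, 1, 14219, 1, 409⟩, ⟨-1, 1, 31571, 1, 409⟩, ⟨-1, 1,
  4123751, 1, 167281⟩]), (127, [⟨1, 1, 127, 1, 1⟩, ⟨1, 1, 16147, 1, 409⟩]), (131, [⟨1, 1, 131, 1, 1⟩, ⟨1, 1,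
  17111, 1, 409⟩]), (149, [⟨1, 1, 149, 1, 1⟩, ⟨1, 1, 20003, 1, 409⟩]), (61, [⟨1, 1, 61, 1, 1⟩, ⟨1, 1, 16147, 1,
  409⟩]), (73, [⟨1, 1, 73, 1, 1⟩, ⟨-1, 1, 19039, 1, 409⟩]), (113, [⟨1, 1, 113, 1, 1⟩, ⟨1, 1, 14701, 1, 409⟩,
  ⟨1, 1, 30607, 1, 409⟩, ⟨1, 1, 3891427, 1, 167281⟩]), (137, [⟨1, 1, 137, 1, 1⟩, ⟨1, 1, 17593, 1, 409⟩, ⟨-1, 1,
  33499, 1, 409⟩, ⟨-1, 1, 4588399, 1, 167281⟩]), (139, [⟨1, 1, 139, 1, 1⟩, ⟨1, 1, 19039, 1, 409⟩]), (157, [⟨1,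
  1, 157, 1, 1⟩, ⟨-1, 1, 39283, 1, 409⟩]), (263, [⟨1, 1, 263, 1, 1⟩, ⟨-1, 1, 115439, 1, 409⟩]), (433, [⟨1, 1,
  433, 1, 1⟩, ⟨1, 1, 115439, 1, 409⟩])], []⟩ [(241, [])] [] [] [] 
  (.act ⟨⟨⟨[⟨1, 1, 1, 1, 1⟩], [], [⟨-1, 1, 433, 1, 409⟩]⟩, ⟨[], [⟨1, 1, 1, 1, 1⟩], []⟩, ⟨[], [], [⟨1, 1, 1, 1,
  1⟩]⟩⟩, ⟨⟨[⟨1, 1, 1, 1, 1⟩], [], [⟨1, 1, 433, 1, 409⟩]⟩, ⟨[], [⟨1, 1, 1, 1, 1⟩], []⟩, ⟨[], [], [⟨1, 1, 1, 1,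
  1⟩]⟩⟩, ⟨1, 1, 1, 1, 1⟩, [(5, [⟨1, 1, 5, 1, 1⟩, ⟨1, 1, 4763, 1, 409⟩]), (13, [⟨1, 1, 13, 1, 1⟩, ⟨-1, 1, 8227,
  1, 409⟩, ⟨1, 1, 16021, 1, 409⟩, ⟨1, 1, 8062027, 1, 167281⟩]), (17, [⟨1, 1, 17, 1, 1⟩, ⟨1, 1, 17753, 1,
  409⟩]), (19, [⟨1, 1, 19, 1, 1⟩, ⟨-1, 1, 18619, 1, 409⟩]), (47, [⟨1, 1, 47, 1, 1⟩, ⟨-1, 1, 25547, 1, 409⟩, ⟨1,
  1, 31609, 1, 409⟩, ⟨1, 1, 15561587, 1, 167281⟩]), (53, [⟨1, 1, 53, 1, 1⟩, ⟨1, 1, 2165, 1, 409⟩, ⟨1, 1, 34207,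
  1, 409⟩, ⟨1, 1, 2062379, 1, 167281⟩]), (59, [⟨1, 1, 59, 1, 1⟩, ⟨1, 1, 3031, 1, 409⟩, ⟨-1, 1, 35939, 1,
  409⟩]), (71, [⟨1, 1, 71, 1, 1⟩, ⟨1, 1, 4763, 1, 409⟩]), (23, [⟨1, 1, 23, 1, 1⟩, ⟨1, 1, 13423, 1, 409⟩]), (37,
  [⟨1, 1, 37, 1, 1⟩, ⟨1, 1, 18619, 1, 409⟩]), (89, [⟨1, 1, 89, 1, 1⟩, ⟨1, 1, 43733, 1, 409⟩]), (103, [⟨1, 1,
  103, 1, 1⟩, ⟨-1, 1, 5629, 1, 409⟩, ⟨-1, 1, 47197, 1, 409⟩, ⟨1, 1, 59321, 1, 409⟩, ⟨1, 1, 3562291, 1, 167281⟩,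
  ⟨-1, 1, 6937093, 1, 167281⟩, ⟨1, 1, 27935861, 1, 167281⟩, ⟨-1, 1, 3490857691, 1, 68417929⟩]), (107, [⟨1, 1,
  107, 1, 1⟩, ⟨1, 1, 9959, 1, 409⟩, ⟨1, 1, 60187, 1, 409⟩, ⟨1, 1, 5812159, 1, 167281⟩]), (109, [⟨1, 1, 109, 1,
  1⟩, ⟨1, 1, 16021, 1, 409⟩, ⟨-1, 1, 64517, 1, 409⟩, ⟨1, 1, 8062027, 1, 167281⟩]), (127, [⟨1, 1, 127, 1, 1⟩,
  ⟨-1, 1, 12557, 1, 409⟩]), (131, [⟨1, 1, 131, 1, 1⟩, ⟨1, 1, 17753, 1, 409⟩]), (149, [⟨1, 1, 149, 1, 1⟩, ⟨-1,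
  1, 18619, 1, 409⟩]), (61, [⟨1, 1, 61, 1, 1⟩, ⟨1, 1, 2165, 1, 409⟩, ⟨1, 1, 30743, 1, 409⟩, ⟨1, 1, 2062379, 1,
  167281⟩]), (73, [⟨1, 1, 73, 1, 1⟩, ⟨1, 1, 3031, 1, 409⟩, ⟨1, 1, 35939, 1, 409⟩]), (79, [⟨1, 1, 79, 1, 1⟩, ⟨1,
  1, 4763, 1, 409⟩]), (113, [⟨1, 1, 113, 1, 1⟩, ⟨1, 1, 7361, 1, 409⟩, ⟨1, 1, 56723, 1, 409⟩, ⟨1, 1, 7687049, 1,
  167281⟩]), (137, [⟨1, 1, 137, 1, 1⟩, ⟨1, 1, 8227, 1, 409⟩, ⟨1, 1, 64517, 1, 409⟩, ⟨-1, 1, 8062027, 1,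
  167281⟩]), (139, [⟨1, 1, 139, 1, 1⟩, ⟨1, 1, 13423, 1, 409⟩]), (151, [⟨1, 1, 151, 1, 1⟩, ⟨1, 1, 22949, 1,
  409⟩, ⟨1, 1, 26413, 1, 409⟩, ⟨1, 1, 70579, 1, 409⟩, ⟨1, 1, 937445, 1, 167281⟩, ⟨1, 1, 13311719, 1, 167281⟩,
  ⟨1, 1, 14811631, 1, 167281⟩, ⟨1, 1, 893010107, 1, 68417929⟩]), (157, [⟨1, 1, 157, 1, 1⟩, ⟨1, 1, 25547, 1,
  409⟩, ⟨1, 1, 31609, 1, 409⟩, ⟨1, 1, 1312423, 1, 167281⟩]), (163, [⟨1, 1, 163, 1, 1⟩, ⟨1, 1, 30743, 1, 409⟩,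
  ⟨1, 1, 34207, 1, 409⟩, ⟨1, 1, 2062379, 1, 167281⟩])], []⟩ [(433, [])] [] [] [] 
  (.act ⟨⟨⟨[⟨1, 1, 1, 1, 1⟩], [], []⟩, ⟨[], [⟨1, 1, 1, 1, 1⟩], [⟨1, 1, 479, 1, 409⟩]⟩, ⟨[], [], [⟨1, 1, 1, 1,
  1⟩]⟩⟩, ⟨⟨[⟨1, 1, 1, 1, 1⟩], [], []⟩, ⟨[], [⟨1, 1, 1, 1, 1⟩], [⟨-1, 1, 479, 1, 409⟩]⟩, ⟨[], [], [⟨1, 1, 1, 1,
  1⟩]⟩⟩, ⟨1, 1, 1, 1, 1⟩, [(5, [⟨1, 1, 5, 1, 1⟩, ⟨1, 1, 3353, 1, 409⟩]), (17, [⟨1, 1, 17, 1, 1⟩, ⟨1, 1, 9101,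
  1, 409⟩]), (29, [⟨1, 1, 29, 1, 1⟩, ⟨1, 1, 14849, 1, 409⟩, ⟨-1, 1, 19639, 1, 409⟩, ⟨1, 1, 9865963, 1,
  167281⟩]), (31, [⟨1, 1, 31, 1, 1⟩, ⟨1, 1, 20597, 1, 409⟩]), (47, [⟨1, 1, 47, 1, 1⟩, ⟨-1, 1, 6227, 1, 409⟩]),
  (53, [⟨1, 1, 53, 1, 1⟩, ⟨-1, 1, 8143, 1, 409⟩, ⟨1, 1, 28261, 1, 409⟩, ⟨-1, 1, 4359379, 1, 167281⟩]), (59,
  [⟨1, 1, 59, 1, 1⟩, ⟨-1, 1, 9101, 1, 409⟩]), (67, [⟨1, 1, 67, 1, 1⟩, ⟨-1, 1, 13891, 1, 409⟩, ⟨1, 1, 34009, 1,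
  409⟩, ⟨-1, 1, 37841, 1, 409⟩, ⟨-1, 1, 7112671, 1, 167281⟩, ⟨1, 1, 9407081, 1, 167281⟩, ⟨1, 1, 19043603, 1,
  167281⟩, ⟨-1, 1, 4725796277, 1, 68417929⟩]), (71, [⟨1, 1, 71, 1, 1⟩, ⟨-1, 1, 14849, 1, 409⟩, ⟨1, 1, 39757, 1,
  409⟩, ⟨-1, 1, 9865963, 1, 167281⟩]), (83, [⟨1, 1, 83, 1, 1⟩, ⟨-1, 1, 20597, 1, 409⟩]), (23, [⟨1, 1, 23, 1,
  1⟩, ⟨1, 1, 17723, 1, 409⟩]), (41, [⟨1, 1, 41, 1, 1⟩, ⟨-1, 1, 20597, 1, 409⟩]), (89, [⟨1, 1, 89, 1, 1⟩, ⟨1, 1,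
  46463, 1, 409⟩]), (107, [⟨1, 1, 107, 1, 1⟩, ⟨-1, 1, 42631, 1, 409⟩, ⟨1, 1, 52211, 1, 409⟩, ⟨-1, 1, 22255777,
  1, 167281⟩]), (109, [⟨1, 1, 109, 1, 1⟩, ⟨-1, 1, 46463, 1, 409⟩]), (127, [⟨1, 1, 127, 1, 1⟩, ⟨1, 1, 62749, 1,
  409⟩, ⟨-1, 1, 66581, 1, 409⟩, ⟨1, 1, 34186709, 1, 167281⟩]), (131, [⟨1, 1, 131, 1, 1⟩, ⟨-1, 1, 48379, 1,
  409⟩, ⟨1, 1, 71371, 1, 409⟩]), (61, [⟨1, 1, 61, 1, 1⟩, ⟨-1, 1, 11017, 1, 409⟩, ⟨1, 1, 34967, 1, 409⟩, ⟨-1, 1,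
  8489317, 1, 167281⟩]), (73, [⟨1, 1, 73, 1, 1⟩, ⟨-1, 1, 17723, 1, 409⟩]), (79, [⟨1, 1, 79, 1, 1⟩, ⟨-1, 1,
  19639, 1, 409⟩, ⟨-1, 1, 39757, 1, 409⟩, ⟨1, 1, 9865963, 1, 167281⟩]), (113, [⟨1, 1, 113, 1, 1⟩, ⟨-1, 1,
  42631, 1, 409⟩, ⟨1, 1, 65623, 1, 409⟩, ⟨-1, 1, 22255777, 1, 167281⟩]), (137, [⟨1, 1, 137, 1, 1⟩, ⟨-1, 1,
  46463, 1, 409⟩]), (139, [⟨1, 1, 139, 1, 1⟩, ⟨-1, 1, 48379, 1, 409⟩, ⟨-1, 1, 71371, 1, 409⟩]), (151, [⟨1, 1,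
  151, 1, 1⟩, ⟨-1, 1, 51253, 1, 409⟩, ⟨-1, 1, 54127, 1, 409⟩, ⟨1, 1, 75203, 1, 409⟩, ⟨1, 1, 20420249, 1,
  167281⟩, ⟨-1, 1, 25009069, 1, 167281⟩, ⟨-1, 1, 31433417, 1, 167281⟩, ⟨1, 1, 10660517183, 1, 68417929⟩]),
  (157, [⟨1, 1, 157, 1, 1⟩, ⟨-1, 1, 52211, 1, 409⟩, ⟨-1, 1, 65623, 1, 409⟩, ⟨1, 1, 22255777, 1, 167281⟩]),
  (163, [⟨1, 1, 163, 1, 1⟩, ⟨-1, 1, 62749, 1, 409⟩, ⟨-1, 1, 66581, 1, 409⟩, ⟨1, 1, 23173541, 1, 167281⟩])],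
  []⟩ [(479, [])] [] [] [] 
  (.call false ⟨⟨⟨[], [], [⟨1, 1, 1, 1, 1⟩]⟩, ⟨[⟨1, 1, 1, 1, 1⟩], [], []⟩, ⟨[], [⟨1, 1, 1, 1, 1⟩], []⟩⟩, ⟨⟨[],
  [⟨1, 1, 1, 1, 1⟩], []⟩, ⟨[], [], [⟨1, 1, 1, 1, 1⟩]⟩, ⟨[⟨1, 1, 1, 1, 1⟩], [], []⟩⟩, ⟨1, 1, 1, 1, 409⟩, [(5,
  [⟨-1, 1, 157, 1, 409⟩]), (7, [⟨-1, 1, 163, 1, 409⟩]), (11, [⟨1, 1, 151, 1, 409⟩]), (13, [⟨-1, 1, 83, 1,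
  409⟩]), (17, [⟨-1, 1, 59, 1, 409⟩]), (19, [⟨-1, 1, 71, 1, 409⟩]), (29, [⟨-1, 1, 47, 1, 409⟩]), (31, [⟨1, 1,
  61, 1, 409⟩]), (43, [⟨-1, 1, 67, 1, 409⟩]), (47, [⟨-1, 1, 149, 1, 409⟩]), (53, [⟨-1, 1, 109, 1, 409⟩]), (59,
  [⟨-1, 1, 131, 1, 409⟩]), (67, [⟨-1, 1, 103, 1, 409⟩]), (71, [⟨1, 1, 113, 1, 409⟩]), (83, [⟨-1, 1, 127, 1,
  409⟩]), (23, [⟨-1, 1, 73, 1, 409⟩]), (37, [⟨-1, 1, 79, 1, 409⟩]), (41, [⟨1, 1, 53, 1, 409⟩]), (89, [⟨-1, 1,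
  7, 1, 409⟩]), (97, [⟨-1, 1, 11, 1, 409⟩]), (101, [⟨1, 1, 5, 1, 409⟩]), (103, [⟨1, 1, 43, 1, 409⟩]), (107,
  [⟨-1, 1, 37, 1, 409⟩]), (109, [⟨-1, 1, 41, 1, 409⟩]), (127, [⟨1, 1, 13, 1, 409⟩]), (131, [⟨1, 1, 17, 1,
  409⟩]), (149, [⟨1, 1, 29, 1, 409⟩]), (61, [⟨-1, 1, 137, 1, 409⟩]), (73, [⟨-1, 1, 139, 1, 409⟩]), (79, [⟨1, 1,
  107, 1, 409⟩]), (113, [⟨-1, 1, 19, 1, 409⟩]), (137, [⟨-1, 1, 31, 1, 409⟩]), (139, [⟨1, 1, 23, 1, 409⟩]),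
  (151, [⟨-1, 1, 97, 1, 409⟩]), (157, [⟨-1, 1, 101, 1, 409⟩]), (163, [⟨1, 1, 89, 1, 409⟩]), (223, []), (227,
  []), (229, []), (379, []), (383, []), (389, []), (233, []), (239, []), (241, []), (397, []), (401, []), (409,
  []), (251, []), (257, []), (263, []), (419, []), (421, []), (431, []), (269, []), (271, []), (277, []), (281,
  [⟨1, 1, 263, 1, 409⟩]), (283, []), (293, []), (307, []), (311, []), (313, []), (317, []), (331, []), (337,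
  []), (347, []), (349, []), (353, []), (359, []), (367, []), (373, [])],
  []⟩ 98))))))))))))))))))))))))))))))))))))))))))) 
  (.zero [([⟨1, 1, 1, 1, 1⟩], 908)] 457 1 
  (.zero [([⟨1, 1, 1, 1, 1⟩], 944)] 467 1 
  (.zero [([⟨1, 1, 1, 1, 1⟩], 829)] 449 1 
  (.zero [([⟨1, 1, 1, 1, 1⟩], 1321)] 479 1 
  (.zero [([⟨1, 1, 1, 1, 1⟩], 1075)] 463 1 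
  (.zero [([⟨1, 1, 1, 1, 1⟩], 1072)] 433 1 
  (.zero [([⟨1, 1, 1, 1, 1⟩], 1318)] 443 1 
  (.zero [([⟨1, 1, 1, 1, 1⟩], 1315)] 439 1 
  (.elim [([⟨-1, 1, 1, 1, 389⟩], 811)] 269 
  (.elim [([⟨-1, 1, 1, 1, 389⟩], 814)] 271 
  (.elim [([⟨-1, 1, 1, 1, 389⟩], 817)] 277 
  (.elim [([⟨-1, 1, 1, 1, 389⟩], 1054)] 307 
  (.elim [([⟨-1, 1, 1, 1, 389⟩], 1057)] 311 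
  (.elim [([⟨-1, 1, 1, 1, 389⟩], 1060)] 313 
  (.elim [([⟨-1, 1, 1, 1, 389⟩], 1297)] 347 
  (.elim [([⟨-1, 1, 1, 1, 389⟩], 1300)] 349 
  (.elim [([⟨-1, 1, 1, 1, 389⟩], 1303)] 353 
  (.elim [([⟨-1, 1, 1, 1, 389⟩], 825)] 227 
  (.elim [([⟨-1, 1, 1, 1, 389⟩], 826)] 383 
  (.elim [([⟨-1, 1, 1, 1, 389⟩], 907)] 283 
  (.elim [([⟨1, 1, 1, 1, 389⟩], 861)] 241 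
  (.elim [([⟨1, 1, 1, 1, 389⟩], 862)] 229 
  (.elim [([⟨1, 1, 1, 1, 389⟩], 943)] 337 
  (.elim [([⟨-1, 1, 1, 1, 389⟩], 820)] 281 
  (.elim [([⟨-1, 1, 1, 1, 389⟩], 1312)] 373 
  (.elim [([⟨-1, 1, 1, 1, 389⟩], 1066)] 331 
  (.elim [([⟨-1, 1, 1, 1, 389⟩], 1063)] 317 
  (.elim [([⟨-1, 1, 1, 1, 389⟩], 1309)] 367 
  (.elim [([⟨-1, 1, 1, 1, 389⟩], 1306)] 359 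
  (.elim [([⟨1, 1, 1, 1, 389⟩], 856)] 223 
  (.elim [([⟨1, 1, 1, 1, 389⟩], 1348)] 263 
  (.elim [([⟨1, 1, 1, 1, 389⟩], 1102)] 239 
  (.elim [([⟨1, 1, 1, 1, 389⟩], 1099)] 233 
  (.elim [([⟨1, 1, 1, 1, 389⟩], 1345)] 257 
  (.elim [([⟨1, 1, 1, 1, 389⟩], 1342)] 251 
  (.elim [([⟨-1, 1, 1, 1, 389⟩], 1548), ([⟨-1, 1, 1, 1, 389⟩], 1578), ([⟨-1, 1, 1, 1, 389⟩], 1608)] 419 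
  (.elim [([⟨-1, 1, 1, 1, 389⟩], 1549), ([⟨-1, 1, 1, 1, 389⟩], 1579), ([⟨-1, 1, 1, 1, 389⟩], 1609)] 421 
  (.elim [([⟨-1, 1, 1, 1, 389⟩], 1550), ([⟨-1, 1, 1, 1, 389⟩], 1580), ([⟨-1, 1, 1, 1, 389⟩], 1610)] 379 
  (.elim [([⟨1, 1, 1, 1, 389⟩], 844)] 397 
  (.act ⟨⟨⟨[⟨1, 1, 1, 1, 1⟩], [⟨1, 1, 409, 1, 389⟩], []⟩, ⟨[], [⟨1, 1, 1, 1, 1⟩], []⟩, ⟨[], [], [⟨1, 1, 1, 1,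
  1⟩]⟩⟩, ⟨⟨[⟨1, 1, 1, 1, 1⟩], [⟨-1, 1, 409, 1, 389⟩], []⟩, ⟨[], [⟨1, 1, 1, 1, 1⟩], []⟩, ⟨[], [], [⟨1, 1, 1, 1,
  1⟩]⟩⟩, ⟨1, 1, 1, 1, 1⟩, [(7, [⟨1, 1, 7, 1, 1⟩, ⟨1, 1, 4499, 1, 389⟩]), (13, [⟨1, 1, 13, 1, 1⟩, ⟨1, 1, 6953,
  1, 389⟩, ⟨-1, 1, 9407, 1, 389⟩, ⟨1, 1, 4851149, 1, 151321⟩]), (17, [⟨1, 1, 17, 1, 1⟩, ⟨-1, 1, 2045, 1, 389⟩,
  ⟨1, 1, 11861, 1, 389⟩]), (19, [⟨1, 1, 19, 1, 1⟩, ⟨-1, 1, 2863, 1, 389⟩, ⟨1, 1, 12679, 1, 389⟩, ⟨-1, 1,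
  1840091, 1, 151321⟩]), (31, [⟨1, 1, 31, 1, 1⟩, ⟨-1, 1, 4499, 1, 389⟩]), (47, [⟨1, 1, 47, 1, 1⟩, ⟨1, 1, 21677,
  1, 389⟩, ⟨-1, 1, 24949, 1, 389⟩, ⟨1, 1, 11207827, 1, 151321⟩]), (53, [⟨1, 1, 53, 1, 1⟩, ⟨1, 1, 27403, 1,
  389⟩]), (59, [⟨1, 1, 59, 1, 1⟩, ⟨1, 1, 29039, 1, 389⟩]), (23, [⟨1, 1, 23, 1, 1⟩, ⟨-1, 1, 2045, 1, 389⟩, ⟨-1,
  1, 11861, 1, 389⟩]), (37, [⟨1, 1, 37, 1, 1⟩, ⟨-1, 1, 2863, 1, 389⟩, ⟨1, 1, 16769, 1, 389⟩, ⟨-1, 1, 1840091,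
  1, 151321⟩]), (41, [⟨1, 1, 41, 1, 1⟩, ⟨-1, 1, 4499, 1, 389⟩]), (89, [⟨1, 1, 89, 1, 1⟩, ⟨-1, 1, 6953, 1, 389⟩,
  ⟨-1, 1, 9407, 1, 389⟩, ⟨1, 1, 836405, 1, 151321⟩]), (97, [⟨1, 1, 97, 1, 1⟩, ⟨-1, 1, 7771, 1, 389⟩, ⟨-1, 1,
  15133, 1, 389⟩, ⟨1, 1, 41309, 1, 389⟩, ⟨1, 1, 1170967, 1, 151321⟩, ⟨-1, 1, 5185711, 1, 151321⟩, ⟨-1, 1,
  6858521, 1, 151321⟩, ⟨1, 1, 752597219, 1, 58863869⟩]), (101, [⟨1, 1, 101, 1, 1⟩, ⟨-1, 1, 12679, 1, 389⟩, ⟨-1,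
  1, 16769, 1, 389⟩, ⟨1, 1, 1840091, 1, 151321⟩]), (103, [⟨1, 1, 103, 1, 1⟩, ⟨-1, 1, 19223, 1, 389⟩, ⟨1, 1,
  43763, 1, 389⟩, ⟨-1, 1, 46217, 1, 389⟩, ⟨-1, 1, 8865893, 1, 151321⟩, ⟨1, 1, 10204141, 1, 151321⟩, ⟨1, 1,
  21244687, 1, 151321⟩, ⟨-1, 1, 4584001243, 1, 58863869⟩]), (107, [⟨1, 1, 107, 1, 1⟩, ⟨-1, 1, 21677, 1, 389⟩,
  ⟨1, 1, 51943, 1, 389⟩, ⟨-1, 1, 11207827, 1, 151321⟩]), (109, [⟨1, 1, 109, 1, 1⟩, ⟨-1, 1, 24131, 1, 389⟩, ⟨1,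
  1, 53579, 1, 389⟩, ⟨-1, 1, 11876951, 1, 151321⟩]), (127, [⟨1, 1, 127, 1, 1⟩, ⟨-1, 1, 27403, 1, 389⟩]), (131,
  [⟨1, 1, 131, 1, 1⟩, ⟨-1, 1, 29039, 1, 389⟩]), (149, [⟨1, 1, 149, 1, 1⟩, ⟨-1, 1, 33947, 1, 389⟩]), (61, [⟨1,
  1, 61, 1, 1⟩, ⟨-1, 1, 27403, 1, 389⟩]), (73, [⟨1, 1, 73, 1, 1⟩, ⟨1, 1, 32311, 1, 389⟩]), (113, [⟨1, 1, 113,
  1, 1⟩, ⟨-1, 1, 24949, 1, 389⟩, ⟨-1, 1, 51943, 1, 389⟩, ⟨1, 1, 11207827, 1, 151321⟩]), (137, [⟨1, 1, 137, 1,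
  1⟩, ⟨-1, 1, 29857, 1, 389⟩, ⟨1, 1, 56851, 1, 389⟩, ⟨-1, 1, 13215199, 1, 151321⟩]), (139, [⟨1, 1, 139, 1, 1⟩,
  ⟨-1, 1, 32311, 1, 389⟩]), (157, [⟨1, 1, 157, 1, 1⟩, ⟨1, 1, 66667, 1, 389⟩]), (401, [⟨1, 1, 401, 1, 1⟩, ⟨1, 1,
  119837, 1, 389⟩])], []⟩ [(409, [])] [] [] [] 
  (.zero [([⟨1, 1, 1, 1, 1⟩], 1792), ([⟨1, 1, 1, 1, 1⟩], 1822), ([⟨1, 1, 1, 1, 1⟩], 1852)] 401 2 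
  (.act ⟨⟨⟨[⟨1, 1, 1, 1, 1⟩], [], [⟨1, 1, 431, 1, 389⟩]⟩, ⟨[], [⟨1, 1, 1, 1, 1⟩], []⟩, ⟨[], [], [⟨1, 1, 1, 1,
  1⟩]⟩⟩, ⟨⟨[⟨1, 1, 1, 1, 1⟩], [], [⟨-1, 1, 431, 1, 389⟩]⟩, ⟨[], [⟨1, 1, 1, 1, 1⟩], []⟩, ⟨[], [], [⟨1, 1, 1, 1,
  1⟩]⟩⟩, ⟨1, 1, 1, 1, 1⟩, [(5, [⟨1, 1, 5, 1, 1⟩, ⟨-1, 1, 4741, 1, 389⟩]), (13, [⟨1, 1, 13, 1, 1⟩, ⟨1, 1, 8189,
  1, 389⟩, ⟨-1, 1, 15947, 1, 389⟩, ⟨1, 1, 7987723, 1, 151321⟩]), (17, [⟨1, 1, 17, 1, 1⟩, ⟨-1, 1, 17671, 1,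
  389⟩]), (19, [⟨1, 1, 19, 1, 1⟩, ⟨1, 1, 18533, 1, 389⟩]), (47, [⟨1, 1, 47, 1, 1⟩, ⟨1, 1, 25429, 1, 389⟩, ⟨-1,
  1, 31463, 1, 389⟩, ⟨1, 1, 15418163, 1, 151321⟩]), (53, [⟨1, 1, 53, 1, 1⟩, ⟨-1, 1, 2155, 1, 389⟩, ⟨-1, 1,
  34049, 1, 389⟩, ⟨1, 1, 2043371, 1, 151321⟩]), (59, [⟨1, 1, 59, 1, 1⟩, ⟨-1, 1, 3017, 1, 389⟩, ⟨1, 1, 35773, 1,
  389⟩]), (71, [⟨1, 1, 71, 1, 1⟩, ⟨-1, 1, 4741, 1, 389⟩]), (23, [⟨1, 1, 23, 1, 1⟩, ⟨-1, 1, 13361, 1, 389⟩]),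
  (37, [⟨1, 1, 37, 1, 1⟩, ⟨-1, 1, 18533, 1, 389⟩]), (89, [⟨1, 1, 89, 1, 1⟩, ⟨-1, 1, 43531, 1, 389⟩]), (103,
  [⟨1, 1, 103, 1, 1⟩, ⟨1, 1, 5603, 1, 389⟩, ⟨1, 1, 46979, 1, 389⟩, ⟨-1, 1, 59047, 1, 389⟩, ⟨1, 1, 3529459, 1,
  151321⟩, ⟨-1, 1, 6873157, 1, 151321⟩, ⟨1, 1, 27678389, 1, 151321⟩, ⟨1, 1, 3442708613, 1, 58863869⟩]), (107,
  [⟨1, 1, 107, 1, 1⟩, ⟨-1, 1, 9913, 1, 389⟩, ⟨-1, 1, 59909, 1, 389⟩, ⟨1, 1, 5758591, 1, 151321⟩]), (109, [⟨1,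
  1, 109, 1, 1⟩, ⟨-1, 1, 15947, 1, 389⟩, ⟨1, 1, 64219, 1, 389⟩, ⟨1, 1, 7987723, 1, 151321⟩]), (127, [⟨1, 1,
  127, 1, 1⟩, ⟨1, 1, 12499, 1, 389⟩]), (131, [⟨1, 1, 131, 1, 1⟩, ⟨-1, 1, 17671, 1, 389⟩]), (149, [⟨1, 1, 149,
  1, 1⟩, ⟨1, 1, 18533, 1, 389⟩]), (61, [⟨1, 1, 61, 1, 1⟩, ⟨-1, 1, 2155, 1, 389⟩, ⟨-1, 1, 30601, 1, 389⟩, ⟨1, 1,
  2043371, 1, 151321⟩]), (73, [⟨1, 1, 73, 1, 1⟩, ⟨-1, 1, 3017, 1, 389⟩, ⟨-1, 1, 35773, 1, 389⟩]), (79, [⟨1, 1,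
  79, 1, 1⟩, ⟨-1, 1, 4741, 1, 389⟩]), (113, [⟨1, 1, 113, 1, 1⟩, ⟨-1, 1, 7327, 1, 389⟩, ⟨-1, 1, 56461, 1, 389⟩,
  ⟨1, 1, 7616201, 1, 151321⟩]), (137, [⟨1, 1, 137, 1, 1⟩, ⟨-1, 1, 8189, 1, 389⟩, ⟨-1, 1, 64219, 1, 389⟩, ⟨-1,
  1, 7987723, 1, 151321⟩]), (139, [⟨1, 1, 139, 1, 1⟩, ⟨-1, 1, 13361, 1, 389⟩]), (151, [⟨1, 1, 151, 1, 1⟩, ⟨-1,
  1, 22843, 1, 389⟩, ⟨-1, 1, 26291, 1, 389⟩, ⟨-1, 1, 70253, 1, 389⟩, ⟨1, 1, 928805, 1, 151321⟩, ⟨1, 1,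
  13189031, 1, 151321⟩, ⟨1, 1, 14675119, 1, 151321⟩, ⟨-1, 1, 880692901, 1, 58863869⟩]), (157, [⟨1, 1, 157, 1,
  1⟩, ⟨-1, 1, 25429, 1, 389⟩, ⟨-1, 1, 31463, 1, 389⟩, ⟨1, 1, 1300327, 1, 151321⟩]), (163, [⟨1, 1, 163, 1, 1⟩,
  ⟨-1, 1, 30601, 1, 389⟩, ⟨-1, 1, 34049, 1, 389⟩, ⟨1, 1, 2043371, 1, 151321⟩])], []⟩ [(431, [])] [] [] [] 
  (.act ⟨⟨⟨[⟨1, 1, 1, 1, 1⟩], [], []⟩, ⟨[], [⟨1, 1, 1, 1, 1⟩], [⟨1, 1, 293, 1, 389⟩]⟩, ⟨[], [], [⟨1, 1, 1, 1,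
  1⟩]⟩⟩, ⟨⟨[⟨1, 1, 1, 1, 1⟩], [], []⟩, ⟨[], [⟨1, 1, 1, 1, 1⟩], [⟨-1, 1, 293, 1, 389⟩]⟩, ⟨[], [], [⟨1, 1, 1, 1,
  1⟩]⟩⟩, ⟨1, 1, 1, 1, 1⟩, [(5, [⟨1, 1, 5, 1, 1⟩, ⟨1, 1, 2051, 1, 389⟩]), (17, [⟨1, 1, 17, 1, 1⟩, ⟨1, 1, 5567,
  1, 389⟩]), (29, [⟨1, 1, 29, 1, 1⟩, ⟨1, 1, 9083, 1, 389⟩, ⟨-1, 1, 12013, 1, 389⟩, ⟨1, 1, 3691507, 1,
  151321⟩]), (31, [⟨1, 1, 31, 1, 1⟩, ⟨1, 1, 12599, 1, 389⟩]), (47, [⟨1, 1, 47, 1, 1⟩, ⟨-1, 1, 3809, 1, 389⟩]),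
  (53, [⟨1, 1, 53, 1, 1⟩, ⟨-1, 1, 4981, 1, 389⟩, ⟨1, 1, 17287, 1, 389⟩, ⟨-1, 1, 1631131, 1, 151321⟩]), (59,
  [⟨1, 1, 59, 1, 1⟩, ⟨-1, 1, 5567, 1, 389⟩]), (67, [⟨1, 1, 67, 1, 1⟩, ⟨-1, 1, 8497, 1, 389⟩, ⟨1, 1, 20803, 1,
  389⟩, ⟨-1, 1, 23147, 1, 389⟩, ⟨-1, 1, 2661319, 1, 151321⟩, ⟨1, 1, 3519809, 1, 151321⟩, ⟨1, 1, 7125467, 1,
  151321⟩, ⟨-1, 1, 1081611551, 1, 58863869⟩]), (71, [⟨1, 1, 71, 1, 1⟩, ⟨-1, 1, 9083, 1, 389⟩, ⟨1, 1, 24319, 1,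
  389⟩, ⟨-1, 1, 3691507, 1, 151321⟩]), (83, [⟨1, 1, 83, 1, 1⟩, ⟨-1, 1, 12599, 1, 389⟩]), (23, [⟨1, 1, 23, 1,
  1⟩, ⟨1, 1, 10841, 1, 389⟩]), (41, [⟨1, 1, 41, 1, 1⟩, ⟨-1, 1, 12599, 1, 389⟩]), (89, [⟨1, 1, 89, 1, 1⟩, ⟨1, 1,
  28421, 1, 389⟩]), (107, [⟨1, 1, 107, 1, 1⟩, ⟨-1, 1, 26077, 1, 389⟩, ⟨1, 1, 31937, 1, 389⟩, ⟨-1, 1, 8327353,
  1, 151321⟩]), (109, [⟨1, 1, 109, 1, 1⟩, ⟨-1, 1, 28421, 1, 389⟩]), (127, [⟨1, 1, 127, 1, 1⟩, ⟨1, 1, 38383, 1,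
  389⟩, ⟨-1, 1, 40727, 1, 389⟩, ⟨1, 1, 12791501, 1, 151321⟩]), (131, [⟨1, 1, 131, 1, 1⟩, ⟨-1, 1, 29593, 1,
  389⟩, ⟨1, 1, 43657, 1, 389⟩]), (61, [⟨1, 1, 61, 1, 1⟩, ⟨-1, 1, 6739, 1, 389⟩, ⟨1, 1, 21389, 1, 389⟩, ⟨-1, 1,
  3176413, 1, 151321⟩]), (73, [⟨1, 1, 73, 1, 1⟩, ⟨-1, 1, 10841, 1, 389⟩]), (79, [⟨1, 1, 79, 1, 1⟩, ⟨-1, 1,
  12013, 1, 389⟩, ⟨-1, 1, 24319, 1, 389⟩, ⟨1, 1, 3691507, 1, 151321⟩]), (113, [⟨1, 1, 113, 1, 1⟩, ⟨-1, 1,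
  26077, 1, 389⟩, ⟨1, 1, 40141, 1, 389⟩, ⟨-1, 1, 8327353, 1, 151321⟩]), (137, [⟨1, 1, 137, 1, 1⟩, ⟨-1, 1,
  28421, 1, 389⟩]), (139, [⟨1, 1, 139, 1, 1⟩, ⟨-1, 1, 29593, 1, 389⟩, ⟨-1, 1, 43657, 1, 389⟩]), (151, [⟨1, 1,
  151, 1, 1⟩, ⟨-1, 1, 31351, 1, 389⟩, ⟨-1, 1, 33109, 1, 389⟩, ⟨1, 1, 46001, 1, 389⟩, ⟨1, 1, 7640561, 1,
  151321⟩, ⟨-1, 1, 9357541, 1, 151321⟩, ⟨-1, 1, 11761313, 1, 151321⟩, ⟨1, 1, 2439914429, 1, 58863869⟩]), (157,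
  [⟨1, 1, 157, 1, 1⟩, ⟨-1, 1, 31937, 1, 389⟩, ⟨-1, 1, 40141, 1, 389⟩, ⟨1, 1, 8327353, 1, 151321⟩]), (163, [⟨1,
  1, 163, 1, 1⟩, ⟨-1, 1, 38383, 1, 389⟩, ⟨-1, 1, 40727, 1, 389⟩, ⟨1, 1, 8670749, 1, 151321⟩])], []⟩ [(293,
  [])] [] [] [] 
  (.call false ⟨⟨⟨[], [], [⟨1, 1, 1, 1, 1⟩]⟩, ⟨[], [⟨1, 1, 1, 1, 1⟩], []⟩, ⟨[⟨1, 1, 1, 1, 1⟩], [], []⟩⟩, ⟨⟨[],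
  [], [⟨1, 1, 1, 1, 1⟩]⟩, ⟨[], [⟨1, 1, 1, 1, 1⟩], []⟩, ⟨[⟨1, 1, 1, 1, 1⟩], [], []⟩⟩, ⟨1, 1, 1, 1, 389⟩, [(5,
  [⟨-1, 1, 163, 1, 389⟩]), (7, [⟨-1, 1, 157, 1, 389⟩]), (11, [⟨-1, 1, 151, 1, 389⟩]), (13, [⟨-1, 1, 149, 1,
  389⟩]), (17, [⟨-1, 1, 131, 1, 389⟩]), (19, [⟨-1, 1, 109, 1, 389⟩]), (29, [⟨-1, 1, 127, 1, 389⟩]), (31, [⟨-1,
  1, 107, 1, 389⟩]), (43, [⟨-1, 1, 103, 1, 389⟩]), (47, [⟨-1, 1, 83, 1, 389⟩]), (53, [⟨-1, 1, 71, 1, 389⟩]),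
  (59, [⟨-1, 1, 59, 1, 389⟩]), (67, [⟨-1, 1, 67, 1, 389⟩]), (71, [⟨-1, 1, 53, 1, 389⟩]), (83, [⟨-1, 1, 47, 1,
  389⟩]), (23, [⟨-1, 1, 139, 1, 389⟩]), (37, [⟨-1, 1, 137, 1, 389⟩]), (41, [⟨-1, 1, 113, 1, 389⟩]), (89, [⟨-1,
  1, 101, 1, 389⟩]), (97, [⟨-1, 1, 97, 1, 389⟩]), (101, [⟨-1, 1, 89, 1, 389⟩]), (103, [⟨-1, 1, 43, 1, 389⟩]),
  (107, [⟨-1, 1, 31, 1, 389⟩]), (109, [⟨-1, 1, 19, 1, 389⟩]), (127, [⟨-1, 1, 29, 1, 389⟩]), (131, [⟨-1, 1, 17,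
  1, 389⟩]), (149, [⟨-1, 1, 13, 1, 389⟩]), (61, [⟨-1, 1, 79, 1, 389⟩]), (73, [⟨-1, 1, 73, 1, 389⟩]), (79, [⟨-1,
  1, 61, 1, 389⟩]), (113, [⟨-1, 1, 41, 1, 389⟩]), (137, [⟨-1, 1, 37, 1, 389⟩]), (139, [⟨-1, 1, 23, 1, 389⟩]),
  (151, [⟨-1, 1, 11, 1, 389⟩]), (157, [⟨-1, 1, 7, 1, 389⟩]), (163, [⟨-1, 1, 5, 1, 389⟩]), (167, []), (173, []),
  (179, []), (181, []), (191, []), (193, []), (197, []), (199, []), (211, []), (223, []), (227, []), (229, []),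
  (233, []), (239, []), (241, []), (251, []), (257, []), (263, []), (269, []), (271, []), (277, []), (281, []),
  (283, []), (293, []), (307, []), (311, []), (313, []), (317, []), (331, []), (337, []), (347, []), (349, []),
  (353, []), (359, []), (367, []), (373, [])], []⟩ 97))))))))))))))))))))))))))))))))))))))))))))) 
  (.zero [([⟨1, 1, 1, 1, 1⟩], 786)] 457 1 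
  (.zero [([⟨1, 1, 1, 1, 1⟩], 783)] 449 1 
  (.zero [([⟨1, 1, 1, 1, 1⟩], 1032)] 467 1 
  (.zero [([⟨1, 1, 1, 1, 1⟩], 1275)] 479 1 
  (.zero [([⟨1, 1, 1, 1, 1⟩], 1029)] 463 1 
  (.zero [([⟨1, 1, 1, 1, 1⟩], 1026)] 433 1 
  (.zero [([⟨1, 1, 1, 1, 1⟩], 1272)] 443 1 
  (.elim [([⟨1, 1, 1, 1, 197⟩], 1269)] 439 
  (.call false ⟨mone, mone, ⟨1, 1, 1, 1, 197⟩, [(5, [⟨1, 1, 5, 1, 197⟩]), (7, [⟨1, 1, 7, 1, 197⟩]), (11, [⟨1,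
  1, 11, 1, 197⟩]), (13, [⟨1, 1, 13, 1, 197⟩]), (17, [⟨1, 1, 17, 1, 197⟩]), (19, [⟨1, 1, 19, 1, 197⟩]), (29,
  [⟨1, 1, 29, 1, 197⟩]), (31, [⟨1, 1, 31, 1, 197⟩]), (43, [⟨1, 1, 43, 1, 197⟩]), (47, [⟨1, 1, 47, 1, 197⟩]),
  (53, [⟨1, 1, 53, 1, 197⟩]), (59, [⟨1, 1, 59, 1, 197⟩]), (67, [⟨1, 1, 67, 1, 197⟩]), (71, [⟨1, 1, 71, 1,
  197⟩]), (83, [⟨1, 1, 83, 1, 197⟩]), (23, [⟨1, 1, 23, 1, 197⟩]), (37, [⟨1, 1, 37, 1, 197⟩]), (41, [⟨1, 1, 41,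
  1, 197⟩]), (89, [⟨1, 1, 89, 1, 197⟩]), (97, [⟨1, 1, 97, 1, 197⟩]), (101, [⟨1, 1, 101, 1, 197⟩]), (103, [⟨1,
  1, 103, 1, 197⟩]), (107, [⟨1, 1, 107, 1, 197⟩]), (109, [⟨1, 1, 109, 1, 197⟩]), (127, [⟨1, 1, 127, 1, 197⟩]),
  (131, [⟨1, 1, 131, 1, 197⟩]), (149, [⟨1, 1, 149, 1, 197⟩]), (61, [⟨1, 1, 61, 1, 197⟩]), (73, [⟨1, 1, 73, 1,
  197⟩]), (79, [⟨1, 1, 79, 1, 197⟩]), (113, [⟨1, 1, 113, 1, 197⟩]), (137, [⟨1, 1, 137, 1, 197⟩]), (139, [⟨1, 1,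
  139, 1, 197⟩]), (151, [⟨1, 1, 151, 1, 197⟩]), (157, [⟨1, 1, 157, 1, 197⟩]), (163, [⟨1, 1, 163, 1, 197⟩]),
  (223, [⟨1, 1, 223, 1, 197⟩]), (227, [⟨1, 1, 227, 1, 197⟩]), (229, [⟨1, 1, 229, 1, 197⟩]), (379, [⟨1, 1, 379,
  1, 197⟩]), (383, [⟨1, 1, 383, 1, 197⟩]), (389, [⟨1, 1, 389, 1, 197⟩]), (233, [⟨1, 1, 233, 1, 197⟩]), (239,
  [⟨1, 1, 239, 1, 197⟩]), (241, [⟨1, 1, 241, 1, 197⟩]), (397, [⟨1, 1, 397, 1, 197⟩]), (401, [⟨1, 1, 401, 1,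
  197⟩]), (409, [⟨1, 1, 409, 1, 197⟩]), (251, [⟨1, 1, 251, 1, 197⟩]), (257, [⟨1, 1, 257, 1, 197⟩]), (263, [⟨1,
  1, 263, 1, 197⟩]), (419, [⟨1, 1, 419, 1, 197⟩]), (421, [⟨1, 1, 421, 1, 197⟩]), (431, [⟨1, 1, 431, 1, 197⟩]),
  (269, [⟨1, 1, 269, 1, 197⟩]), (271, [⟨1, 1, 271, 1, 197⟩]), (277, [⟨1, 1, 277, 1, 197⟩]), (281, [⟨1, 1, 281,
  1, 197⟩]), (283, [⟨1, 1, 283, 1, 197⟩]), (293, [⟨1, 1, 293, 1, 197⟩]), (307, [⟨1, 1, 307, 1, 197⟩]), (311,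
  [⟨1, 1, 311, 1, 197⟩]), (313, [⟨1, 1, 313, 1, 197⟩]), (317, [⟨1, 1, 317, 1, 197⟩]), (331, [⟨1, 1, 331, 1,
  197⟩]), (337, [⟨1, 1, 337, 1, 197⟩]), (347, [⟨1, 1, 347, 1, 197⟩]), (349, [⟨1, 1, 349, 1, 197⟩]), (353, [⟨1,
  1, 353, 1, 197⟩]), (359, [⟨1, 1, 359, 1, 197⟩]), (367, [⟨1, 1, 367, 1, 197⟩]), (373, [⟨1, 1, 373, 1, 197⟩])],
  []⟩ 98)))))))))) 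
  (.zero [([⟨1, 1, 1, 1, 1⟩], 798)] 389 1 
  (.zero [([⟨1, 1, 1, 1, 1⟩], 789)] 229 1 
  (.zero [([⟨1, 1, 1, 1, 1⟩], 907)] 293 2 
  (.zero [([⟨1, 1, 1, 1, 1⟩], 823)] 383 2 
  (.zero [([⟨1, 1, 1, 1, 1⟩], 813)] 227 2 
  (.zero [([⟨1, 1, 1, 1, 1⟩], 897)] 277 2 
  (.zero [([⟨1, 1, 1, 1, 1⟩], 1213)] 337 2 
  (.zero [([⟨1, 1, 1, 1, 1⟩], 795)] 457 1 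
  (.zero [([⟨1, 1, 1, 1, 1⟩], 1548), ([⟨1, 1, 1, 1, 1⟩], 1578), ([⟨1, 1, 1, 1, 1⟩], 1608)] 379 2 
  (.zero [([⟨1, 1, 1, 1, 1⟩], 792)] 449 1 
  (.zero [([⟨1, 1, 1, 1, 1⟩], 783)] 223 1 
  (.elim [([⟨-1, 1, 1, 1, 199⟩], 1035)] 397 
  (.elim [([⟨-1, 1, 1, 1, 199⟩], 1038)] 401 
  (.elim [([⟨-1, 1, 1, 1, 199⟩], 1041)] 409 
  (.elim [([⟨-1, 1, 1, 1, 199⟩], 1278)] 419 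
  (.elim [([⟨-1, 1, 1, 1, 199⟩], 1281)] 421 
  (.elim [([⟨-1, 1, 1, 1, 199⟩], 1284)] 431 
  (.elim [([⟨-1, 1, 1, 1, 199⟩], 1032)] 241 
  (.elim [([⟨-1, 1, 1, 1, 199⟩], 1275)] 263 
  (.elim [([⟨-1, 1, 1, 1, 199⟩], 1029)] 239 
  (.elim [([⟨-1, 1, 1, 1, 199⟩], 1026)] 233 
  (.elim [([⟨-1, 1, 1, 1, 199⟩], 1269)] 251 
  (.elim [([⟨-1, 1, 1, 1, 199⟩], 1272)] 257 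
  (.elim [([⟨-1, 1, 1, 1, 199⟩], 2108), ([⟨-1, 1, 1, 1, 199⟩], 2138), ([⟨-1, 1, 1, 1, 199⟩], 2168)] 313 
  (.elim [([⟨-1, 1, 1, 1, 199⟩], 2107), ([⟨-1, 1, 1, 1, 199⟩], 2137), ([⟨-1, 1, 1, 1, 199⟩], 2167)] 311 
  (.elim [([⟨-1, 1, 1, 1, 199⟩], 2106), ([⟨-1, 1, 1, 1, 199⟩], 2136), ([⟨-1, 1, 1, 1, 199⟩], 2166)] 307 
  (.act ⟨⟨⟨[⟨1, 1, 1, 1, 1⟩], [⟨-1, 1, 197, 1, 199⟩], []⟩, ⟨[], [⟨1, 1, 1, 1, 1⟩], []⟩, ⟨[], [], [⟨1, 1, 1, 1,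
  1⟩]⟩⟩, ⟨⟨[⟨1, 1, 1, 1, 1⟩], [⟨1, 1, 197, 1, 199⟩], []⟩, ⟨[], [⟨1, 1, 1, 1, 1⟩], []⟩, ⟨[], [], [⟨1, 1, 1, 1,
  1⟩]⟩⟩, ⟨1, 1, 1, 1, 1⟩, [(7, [⟨1, 1, 7, 1, 1⟩, ⟨-1, 1, 2167, 1, 199⟩]), (13, [⟨1, 1, 13, 1, 1⟩, ⟨-1, 1, 3349,
  1, 199⟩, ⟨1, 1, 4531, 1, 199⟩, ⟨1, 1, 1125461, 1, 39601⟩]), (17, [⟨1, 1, 17, 1, 1⟩, ⟨1, 1, 985, 1, 199⟩, ⟨-1,
  1, 5713, 1, 199⟩]), (19, [⟨1, 1, 19, 1, 1⟩, ⟨1, 1, 1379, 1, 199⟩, ⟨-1, 1, 6107, 1, 199⟩, ⟨-1, 1, 426899, 1,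
  39601⟩]), (31, [⟨1, 1, 31, 1, 1⟩, ⟨1, 1, 2167, 1, 199⟩]), (47, [⟨1, 1, 47, 1, 1⟩, ⟨-1, 1, 10441, 1, 199⟩, ⟨1,
  1, 12017, 1, 199⟩, ⟨1, 1, 2600203, 1, 39601⟩]), (53, [⟨1, 1, 53, 1, 1⟩, ⟨-1, 1, 13199, 1, 199⟩]), (59, [⟨1,
  1, 59, 1, 1⟩, ⟨-1, 1, 13987, 1, 199⟩]), (23, [⟨1, 1, 23, 1, 1⟩, ⟨1, 1, 985, 1, 199⟩, ⟨1, 1, 5713, 1, 199⟩]),
  (37, [⟨1, 1, 37, 1, 1⟩, ⟨1, 1, 1379, 1, 199⟩, ⟨-1, 1, 8077, 1, 199⟩, ⟨-1, 1, 426899, 1, 39601⟩]), (41, [⟨1,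
  1, 41, 1, 1⟩, ⟨1, 1, 2167, 1, 199⟩]), (89, [⟨1, 1, 89, 1, 1⟩, ⟨1, 1, 3349, 1, 199⟩, ⟨1, 1, 4531, 1, 199⟩, ⟨1,
  1, 194045, 1, 39601⟩]), (97, [⟨1, 1, 97, 1, 1⟩, ⟨1, 1, 3743, 1, 199⟩, ⟨1, 1, 7289, 1, 199⟩, ⟨-1, 1, 19897, 1,
  199⟩, ⟨1, 1, 271663, 1, 39601⟩, ⟨-1, 1, 1203079, 1, 39601⟩, ⟨-1, 1, 1591169, 1, 39601⟩, ⟨-1, 1, 84099103, 1,
  7880599⟩]), (101, [⟨1, 1, 101, 1, 1⟩, ⟨1, 1, 6107, 1, 199⟩, ⟨1, 1, 8077, 1, 199⟩, ⟨1, 1, 426899, 1, 39601⟩]),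
  (103, [⟨1, 1, 103, 1, 1⟩, ⟨1, 1, 9259, 1, 199⟩, ⟨-1, 1, 21079, 1, 199⟩, ⟨1, 1, 22261, 1, 199⟩, ⟨-1, 1,
  2056877, 1, 39601⟩, ⟨1, 1, 2367349, 1, 39601⟩, ⟨1, 1, 4928743, 1, 39601⟩, ⟨1, 1, 512239991, 1, 7880599⟩]),
  (107, [⟨1, 1, 107, 1, 1⟩, ⟨1, 1, 10441, 1, 199⟩, ⟨-1, 1, 25019, 1, 199⟩, ⟨-1, 1, 2600203, 1, 39601⟩]), (109,
  [⟨1, 1, 109, 1, 1⟩, ⟨1, 1, 11623, 1, 199⟩, ⟨-1, 1, 25807, 1, 199⟩, ⟨-1, 1, 2755439, 1, 39601⟩]), (127, [⟨1,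
  1, 127, 1, 1⟩, ⟨1, 1, 13199, 1, 199⟩]), (131, [⟨1, 1, 131, 1, 1⟩, ⟨1, 1, 13987, 1, 199⟩]), (149, [⟨1, 1, 149,
  1, 1⟩, ⟨1, 1, 16351, 1, 199⟩]), (61, [⟨1, 1, 61, 1, 1⟩, ⟨1, 1, 13199, 1, 199⟩]), (73, [⟨1, 1, 73, 1, 1⟩, ⟨-1,
  1, 15563, 1, 199⟩]), (113, [⟨1, 1, 113, 1, 1⟩, ⟨1, 1, 12017, 1, 199⟩, ⟨1, 1, 25019, 1, 199⟩, ⟨1, 1, 2600203,
  1, 39601⟩]), (137, [⟨1, 1, 137, 1, 1⟩, ⟨1, 1, 14381, 1, 199⟩, ⟨-1, 1, 27383, 1, 199⟩, ⟨-1, 1, 3065911, 1,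
  39601⟩]), (139, [⟨1, 1, 139, 1, 1⟩, ⟨1, 1, 15563, 1, 199⟩]), (157, [⟨1, 1, 157, 1, 1⟩, ⟨-1, 1, 32111, 1,
  199⟩]), (269, [⟨1, 1, 269, 1, 1⟩, ⟨-1, 1, 53387, 1, 199⟩, ⟨-1, 1, 55357, 1, 199⟩, ⟨1, 1, 10982947, 1,
  39601⟩]), (271, [⟨1, 1, 271, 1, 1⟩, ⟨-1, 1, 55751, 1, 199⟩]), (281, [⟨1, 1, 281, 1, 1⟩, ⟨-1, 1, 55751, 1,
  199⟩]), (307, [⟨-1, 1, 151117, 1, 199⟩, ⟨-1, 1, 154967, 1, 199⟩, ⟨-1, 1, 24301723, 1, 39601⟩, ⟨-1, 1,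
  27664907, 1, 39601⟩, ⟨1, 1, 30806663, 1, 39601⟩, ⟨1, 1, 31832639, 1, 39601⟩, ⟨-1, 1, 33876317, 1, 39601⟩, ⟨1,
  1, 4821513733, 1, 7880599⟩, ⟨1, 1, 5690680097, 1, 7880599⟩, ⟨1, 1, 6822350537, 1, 7880599⟩]), (311, [⟨-1, 1,
  156379, 1, 199⟩, ⟨-1, 1, 161587, 1, 199⟩, ⟨-1, 1, 24474689, 1, 39601⟩, ⟨-1, 1, 28886701, 1, 39601⟩, ⟨-1, 1,
  34631221, 1, 39601⟩]), (313, [⟨-1, 1, 162983, 1, 199⟩, ⟨-1, 1, 169087, 1, 199⟩, ⟨-1, 1, 35197399, 1,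
  39601⟩]), (317, [⟨1, 1, 317, 1, 1⟩, ⟨1, 1, 55357, 1, 199⟩, ⟨-1, 1, 65207, 1, 199⟩, ⟨-1, 1, 10982947, 1,
  39601⟩]), (331, [⟨1, 1, 331, 1, 1⟩, ⟨1, 1, 55751, 1, 199⟩]), (433, [⟨1, 1, 433, 1, 1⟩, ⟨-1, 1, 91211, 1,
  199⟩]), (347, [⟨1, 1, 347, 1, 1⟩, ⟨-1, 1, 68753, 1, 199⟩, ⟨-1, 1, 70723, 1, 199⟩, ⟨1, 1, 14242903, 1,
  39601⟩]), (349, [⟨1, 1, 349, 1, 1⟩, ⟨-1, 1, 72299, 1, 199⟩]), (353, [⟨1, 1, 353, 1, 1⟩, ⟨-1, 1, 73481, 1,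
  199⟩]), (359, [⟨1, 1, 359, 1, 1⟩, ⟨-1, 1, 72299, 1, 199⟩]), (439, [⟨1, 1, 439, 1, 1⟩, ⟨-1, 1, 87271, 1,
  199⟩])], []⟩ [(197, [])] [] [] [(63, [⟨1, 1, 307, 1, 1⟩]), (64, [⟨1, 1, 311, 1, 1⟩]), (65, [⟨1, 1, 313, 1,
  1⟩])] 
  (.call false ⟨⟨⟨[], [⟨1, 1, 1, 1, 1⟩], []⟩, ⟨[⟨1, 1, 1, 1, 1⟩], [], []⟩, ⟨[], [], [⟨1, 1, 1, 1, 1⟩]⟩⟩, ⟨⟨[],
  [⟨1, 1, 1, 1, 1⟩], []⟩, ⟨[⟨1, 1, 1, 1, 1⟩], [], []⟩, ⟨[], [], [⟨1, 1, 1, 1, 1⟩]⟩⟩, ⟨1, 1, 1, 1, 199⟩, [(5,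
  [⟨-1, 1, 89, 1, 199⟩]), (7, [⟨1, 1, 101, 1, 199⟩]), (11, [⟨1, 1, 97, 1, 199⟩]), (13, [⟨-1, 1, 29, 1, 199⟩]),
  (17, [⟨-1, 1, 17, 1, 199⟩]), (19, [⟨1, 1, 41, 1, 199⟩]), (29, [⟨-1, 1, 13, 1, 199⟩]), (31, [⟨1, 1, 37, 1,
  199⟩]), (43, [⟨-1, 1, 43, 1, 199⟩]), (47, [⟨1, 1, 127, 1, 199⟩]), (53, [⟨-1, 1, 113, 1, 199⟩]), (59, [⟨1, 1,
  131, 1, 199⟩]), (67, [⟨1, 1, 103, 1, 199⟩]), (71, [⟨1, 1, 109, 1, 199⟩]), (83, [⟨1, 1, 149, 1, 199⟩]), (23,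
  [⟨-1, 1, 23, 1, 199⟩]), (37, [⟨1, 1, 31, 1, 199⟩]), (41, [⟨1, 1, 19, 1, 199⟩]), (89, [⟨-1, 1, 5, 1, 199⟩]),
  (97, [⟨1, 1, 11, 1, 199⟩]), (101, [⟨1, 1, 7, 1, 199⟩]), (103, [⟨1, 1, 67, 1, 199⟩]), (107, [⟨-1, 1, 61, 1,
  199⟩]), (109, [⟨1, 1, 71, 1, 199⟩]), (127, [⟨1, 1, 47, 1, 199⟩]), (131, [⟨1, 1, 59, 1, 199⟩]), (149, [⟨1, 1,
  83, 1, 199⟩]), (61, [⟨-1, 1, 107, 1, 199⟩]), (73, [⟨1, 1, 139, 1, 199⟩]), (79, [⟨1, 1, 137, 1, 199⟩]), (113,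
  [⟨-1, 1, 53, 1, 199⟩]), (137, [⟨1, 1, 79, 1, 199⟩]), (139, [⟨1, 1, 73, 1, 199⟩]), (151, [⟨-1, 1, 151, 1,
  199⟩]), (157, [⟨1, 1, 163, 1, 199⟩]), (163, [⟨1, 1, 157, 1, 199⟩]), (167, [⟨1, 1, 463, 1, 199⟩]), (173, [⟨1,
  1, 433, 1, 199⟩]), (179, [⟨1, 1, 467, 1, 199⟩]), (181, []), (191, []), (193, []), (197, [⟨1, 1, 443, 1,
  199⟩]), (199, [⟨1, 1, 439, 1, 199⟩]), (211, [⟨1, 1, 479, 1, 199⟩]), (223, []), (227, []), (229, []), (233,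
  []), (239, []), (241, []), (251, []), (257, []), (263, []), (269, [⟨1, 1, 331, 1, 199⟩]), (271, [⟨1, 1, 317,
  1, 199⟩]), (277, []), (281, [⟨1, 1, 311, 1, 199⟩]), (283, [⟨1, 1, 307, 1, 199⟩]), (293, [⟨1, 1, 313, 1,
  199⟩]), (307, [⟨1, 1, 283, 1, 199⟩]), (311, [⟨1, 1, 281, 1, 199⟩]), (313, []), (317, [⟨1, 1, 271, 1, 199⟩]),
  (331, [⟨1, 1, 269, 1, 199⟩]), (337, []), (347, [⟨1, 1, 367, 1, 199⟩]), (349, [⟨1, 1, 359, 1, 199⟩]), (353,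
  [⟨1, 1, 373, 1, 199⟩]), (359, [⟨1, 1, 349, 1, 199⟩]), (367, [⟨1, 1, 347, 1, 199⟩]), (373, [⟨1, 1, 353, 1,
  199⟩])], []⟩ 97))))))))))))))))))))))))))))) 
  (.zero [([⟨1, 1, 1, 1, 1⟩], 762)] 389 1 
  (.zero [([⟨1, 1, 1, 1, 1⟩], 759)] 383 1 
  (.zero [([⟨1, 1, 1, 1, 1⟩], 756)] 379 1 
  (.zero [([⟨1, 1, 1, 1, 1⟩], 1005)] 409 1 
  (.zero [([⟨1, 1, 1, 1, 1⟩], 1248)] 431 1 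
  (.zero [([⟨1, 1, 1, 1, 1⟩], 1002)] 401 1 
  (.zero [([⟨1, 1, 1, 1, 1⟩], 907)] 293 2 
  (.zero [([⟨1, 1, 1, 1, 1⟩], 861)] 229 2 
  (.zero [([⟨1, 1, 1, 1, 1⟩], 1187)] 467 2 
  (.zero [([⟨1, 1, 1, 1, 1⟩], 969)] 277 2 
  (.zero [([⟨1, 1, 1, 1, 1⟩], 1213)] 337 2 
  (.zero [([⟨1, 1, 1, 1, 1⟩], 813)] 227 2 
  (.zero [([⟨1, 1, 1, 1, 1⟩], 1944), ([⟨1, 1, 1, 1, 1⟩], 1974), ([⟨1, 1, 1, 1, 1⟩], 2004)] 199 1 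
  (.zero [([⟨1, 1, 1, 1, 1⟩], 1245)] 421 1 
  (.zero [([⟨1, 1, 1, 1, 1⟩], 2126), ([⟨1, 1, 1, 1, 1⟩], 2156), ([⟨1, 1, 1, 1, 1⟩], 2186)] 479 2 
  (.zero [([⟨1, 1, 1, 1, 1⟩], 1275)] 373 1 
  (.elim [([⟨1, 1, 1, 1, 181⟩], 999)] 397 
  (.elim [([⟨-1, 1, 1, 1, 181⟩], 1242)] 197 
  (.elim [([⟨1, 1, 1, 1, 181⟩], 786)] 283 
  (.elim [([⟨1, 1, 1, 1, 181⟩], 783)] 281 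
  (.elim [([⟨1, 1, 1, 1, 181⟩], 1029)] 331 
  (.elim [([⟨1, 1, 1, 1, 181⟩], 1272)] 367 
  (.elim [([⟨1, 1, 1, 1, 181⟩], 1026)] 317 
  (.elim [([⟨1, 1, 1, 1, 181⟩], 1269)] 359 
  (.elim [([⟨-1, 1, 1, 1, 181⟩], 1782), ([⟨-1, 1, 1, 1, 181⟩], 1812), ([⟨-1, 1, 1, 1, 181⟩], 1842)] 223 
  (.elim [([⟨-1, 1, 1, 1, 181⟩], 2025), ([⟨-1, 1, 1, 1, 181⟩], 2055), ([⟨-1, 1, 1, 1, 181⟩], 2085)] 257 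
  (.elim [([⟨-1, 1, 1, 1, 181⟩], 1864), ([⟨-1, 1, 1, 1, 181⟩], 1894), ([⟨-1, 1, 1, 1, 181⟩], 1924)] 271 
  (.elim [([⟨-1, 1, 1, 1, 181⟩], 1863), ([⟨-1, 1, 1, 1, 181⟩], 1893), ([⟨-1, 1, 1, 1, 181⟩], 1923)] 269 
  (.act ⟨⟨⟨[⟨1, 1, 1, 1, 1⟩], [], []⟩, ⟨[], [⟨1, 1, 1, 1, 1⟩], [⟨1, 1, 419, 1, 181⟩]⟩, ⟨[], [], [⟨1, 1, 1, 1,
  1⟩]⟩⟩, ⟨⟨[⟨1, 1, 1, 1, 1⟩], [], []⟩, ⟨[], [⟨1, 1, 1, 1, 1⟩], [⟨-1, 1, 419, 1, 181⟩]⟩, ⟨[], [], [⟨1, 1, 1, 1,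
  1⟩]⟩⟩, ⟨1, 1, 1, 1, 1⟩, [(5, [⟨1, 1, 5, 1, 1⟩, ⟨1, 1, 2933, 1, 181⟩]), (17, [⟨1, 1, 17, 1, 1⟩, ⟨1, 1, 7961,
  1, 181⟩]), (29, [⟨1, 1, 29, 1, 1⟩, ⟨1, 1, 12989, 1, 181⟩, ⟨-1, 1, 17179, 1, 181⟩, ⟨1, 1, 7549123, 1,
  32761⟩]), (31, [⟨1, 1, 31, 1, 1⟩, ⟨1, 1, 18017, 1, 181⟩]), (47, [⟨1, 1, 47, 1, 1⟩, ⟨-1, 1, 5447, 1, 181⟩]),
  (53, [⟨1, 1, 53, 1, 1⟩, ⟨-1, 1, 7123, 1, 181⟩, ⟨1, 1, 24721, 1, 181⟩, ⟨-1, 1, 3335659, 1, 32761⟩]), (59, [⟨1,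
  1, 59, 1, 1⟩, ⟨-1, 1, 7961, 1, 181⟩]), (67, [⟨1, 1, 67, 1, 1⟩, ⟨-1, 1, 12151, 1, 181⟩, ⟨1, 1, 29749, 1, 181⟩,
  ⟨-1, 1, 33101, 1, 181⟩, ⟨-1, 1, 5442391, 1, 32761⟩, ⟨1, 1, 7198001, 1, 32761⟩, ⟨1, 1, 14571563, 1, 32761⟩,
  ⟨-1, 1, 3163082537, 1, 5929741⟩]), (71, [⟨1, 1, 71, 1, 1⟩, ⟨-1, 1, 12989, 1, 181⟩, ⟨1, 1, 34777, 1, 181⟩,
  ⟨-1, 1, 7549123, 1, 32761⟩]), (83, [⟨1, 1, 83, 1, 1⟩, ⟨-1, 1, 18017, 1, 181⟩]), (23, [⟨1, 1, 23, 1, 1⟩, ⟨1,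
  1, 15503, 1, 181⟩]), (41, [⟨1, 1, 41, 1, 1⟩, ⟨-1, 1, 18017, 1, 181⟩]), (89, [⟨1, 1, 89, 1, 1⟩, ⟨1, 1, 40643,
  1, 181⟩]), (107, [⟨1, 1, 107, 1, 1⟩, ⟨-1, 1, 37291, 1, 181⟩, ⟨1, 1, 45671, 1, 181⟩, ⟨-1, 1, 17029417, 1,
  32761⟩]), (109, [⟨1, 1, 109, 1, 1⟩, ⟨-1, 1, 40643, 1, 181⟩]), (127, [⟨1, 1, 127, 1, 1⟩, ⟨1, 1, 54889, 1,
  181⟩, ⟨-1, 1, 58241, 1, 181⟩, ⟨1, 1, 26158589, 1, 32761⟩]), (131, [⟨1, 1, 131, 1, 1⟩, ⟨-1, 1, 42319, 1, 181⟩,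
  ⟨1, 1, 62431, 1, 181⟩]), (61, [⟨1, 1, 61, 1, 1⟩, ⟨-1, 1, 9637, 1, 181⟩, ⟨1, 1, 30587, 1, 181⟩, ⟨-1, 1,
  6495757, 1, 32761⟩]), (73, [⟨1, 1, 73, 1, 1⟩, ⟨-1, 1, 15503, 1, 181⟩]), (79, [⟨1, 1, 79, 1, 1⟩, ⟨-1, 1,
  17179, 1, 181⟩, ⟨-1, 1, 34777, 1, 181⟩, ⟨1, 1, 7549123, 1, 32761⟩]), (113, [⟨1, 1, 113, 1, 1⟩, ⟨-1, 1, 37291,
  1, 181⟩, ⟨1, 1, 57403, 1, 181⟩, ⟨-1, 1, 17029417, 1, 32761⟩]), (137, [⟨1, 1, 137, 1, 1⟩, ⟨-1, 1, 40643, 1,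
  181⟩]), (139, [⟨1, 1, 139, 1, 1⟩, ⟨-1, 1, 42319, 1, 181⟩, ⟨-1, 1, 62431, 1, 181⟩]), (151, [⟨1, 1, 151, 1, 1⟩,
  ⟨-1, 1, 44833, 1, 181⟩, ⟨-1, 1, 47347, 1, 181⟩, ⟨1, 1, 65783, 1, 181⟩, ⟨1, 1, 15624929, 1, 32761⟩, ⟨-1, 1,
  19136149, 1, 32761⟩, ⟨-1, 1, 24051857, 1, 32761⟩, ⟨1, 1, 7135325723, 1, 5929741⟩]), (157, [⟨1, 1, 157, 1, 1⟩,
  ⟨-1, 1, 45671, 1, 181⟩, ⟨-1, 1, 57403, 1, 181⟩, ⟨1, 1, 17029417, 1, 32761⟩]), (163, [⟨1, 1, 163, 1, 1⟩, ⟨-1,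
  1, 54889, 1, 181⟩, ⟨-1, 1, 58241, 1, 181⟩, ⟨1, 1, 17731661, 1, 32761⟩]), (239, [⟨1, 1, 239, 1, 1⟩, ⟨1, 1,
  100979, 1, 181⟩]), (251, [⟨1, 1, 251, 1, 1⟩, ⟨-1, 1, 97627, 1, 181⟩]), (263, [⟨1, 1, 263, 1, 1⟩, ⟨-1, 1,
  100979, 1, 181⟩]), (307, [⟨1, 1, 307, 1, 1⟩, ⟨-1, 1, 97627, 1, 181⟩]), (311, [⟨1, 1, 311, 1, 1⟩, ⟨-1, 1,
  100141, 1, 181⟩, ⟨1, 1, 131147, 1, 181⟩, ⟨-1, 1, 42310201, 1, 32761⟩]), (313, [⟨1, 1, 313, 1, 1⟩, ⟨-1, 1,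
  100979, 1, 181⟩]), (347, [⟨1, 1, 347, 1, 1⟩, ⟨-1, 1, 105169, 1, 181⟩, ⟨-1, 1, 128633, 1, 181⟩, ⟨1, 1,
  40905713, 1, 32761⟩]), (349, [⟨1, 1, 349, 1, 1⟩, ⟨-1, 1, 130309, 1, 181⟩, ⟨1, 1, 147907, 1, 181⟩, ⟨-1, 1,
  54950593, 1, 32761⟩]), (353, [⟨1, 1, 353, 1, 1⟩, ⟨-1, 1, 110197, 1, 181⟩, ⟨-1, 1, 131147, 1, 181⟩, ⟨1, 1,
  42310201, 1, 32761⟩]), (439, [⟨1, 1, 439, 1, 1⟩, ⟨-1, 1, 181427, 1, 181⟩]), (443, [⟨1, 1, 443, 1, 1⟩, ⟨-1, 1,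
  193997, 1, 181⟩])], []⟩ [(419, [])] [] [] [] 
  (.call false ⟨⟨⟨[⟨1, 1, 1, 1, 1⟩], [], []⟩, ⟨[], [], [⟨1, 1, 1, 1, 1⟩]⟩, ⟨[], [⟨1, 1, 1, 1, 1⟩], []⟩⟩, ⟨⟨[⟨1,
  1, 1, 1, 1⟩], [], []⟩, ⟨[], [], [⟨1, 1, 1, 1, 1⟩]⟩, ⟨[], [⟨1, 1, 1, 1, 1⟩], []⟩⟩, ⟨1, 1, 1, 1, 181⟩, [(5,
  [⟨1, 1, 7, 1, 181⟩]), (7, [⟨1, 1, 5, 1, 181⟩]), (11, [⟨-1, 1, 11, 1, 181⟩]), (13, [⟨1, 1, 47, 1, 181⟩]), (17,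
  [⟨1, 1, 59, 1, 181⟩]), (19, [⟨1, 1, 53, 1, 181⟩]), (29, [⟨1, 1, 83, 1, 181⟩]), (31, [⟨-1, 1, 79, 1, 181⟩]),
  (43, [⟨1, 1, 67, 1, 181⟩]), (47, [⟨1, 1, 13, 1, 181⟩]), (53, [⟨1, 1, 19, 1, 181⟩]), (59, [⟨1, 1, 17, 1,
  181⟩]), (67, [⟨1, 1, 43, 1, 181⟩]), (71, [⟨-1, 1, 41, 1, 181⟩]), (83, [⟨1, 1, 29, 1, 181⟩]), (23, [⟨1, 1, 73,
  1, 181⟩]), (37, [⟨1, 1, 61, 1, 181⟩]), (41, [⟨-1, 1, 71, 1, 181⟩]), (89, [⟨1, 1, 157, 1, 181⟩]), (97, [⟨1, 1,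
  151, 1, 181⟩]), (101, [⟨-1, 1, 163, 1, 181⟩]), (103, [⟨-1, 1, 103, 1, 181⟩]), (107, [⟨1, 1, 137, 1, 181⟩]),
  (109, [⟨1, 1, 113, 1, 181⟩]), (127, [⟨-1, 1, 149, 1, 181⟩]), (131, [⟨-1, 1, 131, 1, 181⟩]), (149, [⟨-1, 1,
  127, 1, 181⟩]), (61, [⟨1, 1, 37, 1, 181⟩]), (73, [⟨1, 1, 23, 1, 181⟩]), (79, [⟨-1, 1, 31, 1, 181⟩]), (113,
  [⟨1, 1, 109, 1, 181⟩]), (137, [⟨1, 1, 107, 1, 181⟩]), (139, [⟨-1, 1, 139, 1, 181⟩]), (151, [⟨1, 1, 97, 1,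
  181⟩]), (157, [⟨1, 1, 89, 1, 181⟩]), (163, [⟨-1, 1, 101, 1, 181⟩]), (223, [⟨-1, 1, 134663, 1, 32761⟩, ⟨-1, 1,
  137407, 1, 32761⟩, ⟨-1, 1, 137843, 1, 32761⟩]), (227, []), (229, [⟨-1, 1, 138659, 1, 32761⟩, ⟨-1, 1, 140299,
  1, 32761⟩, ⟨-1, 1, 143993, 1, 32761⟩]), (379, [⟨1, 1, 449, 1, 181⟩]), (383, []), (389, [⟨1, 1, 457, 1,
  181⟩]), (233, [⟨1, 1, 347, 1, 181⟩]), (239, [⟨1, 1, 353, 1, 181⟩]), (241, [⟨1, 1, 349, 1, 181⟩]), (397, [⟨1,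
  1, 439, 1, 181⟩]), (401, []), (409, [⟨1, 1, 443, 1, 181⟩]), (251, [⟨1, 1, 307, 1, 181⟩]), (257, [⟨1, 1, 313,
  1, 181⟩]), (263, [⟨1, 1, 311, 1, 181⟩]), (419, [⟨1, 1, 433, 1, 181⟩]), (421, []), (431, [⟨1, 1, 463, 1,
  181⟩]), (269, [⟨-1, 1, 239, 1, 181⟩]), (271, []), (277, []), (281, []), (283, []), (293, []), (307, [⟨1, 1,
  251, 1, 181⟩]), (311, [⟨1, 1, 263, 1, 181⟩]), (313, []), (317, []), (331, []), (337, []), (347, [⟨1, 1, 233,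
  1, 181⟩]), (349, [⟨1, 1, 241, 1, 181⟩]), (353, [⟨1, 1, 239, 1, 181⟩]), (359, []), (367, []), (373, [])],
  []⟩ 98))))))))))))))))))))))))))))))))) 
  (.zero [([⟨1, 1, 1, 1, 1⟩], 801)] 281 1 
  (.zero [([⟨1, 1, 1, 1, 1⟩], 804)] 283 1 
  (.zero [([⟨1, 1, 1, 1, 1⟩], 807)] 293 1 
  (.zero [([⟨1, 1, 1, 1, 1⟩], 1044)] 317 1 
  (.zero [([⟨1, 1, 1, 1, 1⟩], 1047)] 331 1 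
  (.zero [([⟨1, 1, 1, 1, 1⟩], 1050)] 337 1 
  (.zero [([⟨1, 1, 1, 1, 1⟩], 1287)] 359 1 
  (.zero [([⟨1, 1, 1, 1, 1⟩], 1290)] 367 1 
  (.zero [([⟨1, 1, 1, 1, 1⟩], 1293)] 373 1 
  (.zero [([⟨1, 1, 1, 1, 1⟩], 780)] 389 1 
  (.zero [([⟨1, 1, 1, 1, 1⟩], 849)] 227 2 
  (.zero [([⟨1, 1, 1, 1, 1⟩], 823)] 383 2 
  (.zero [([⟨1, 1, 1, 1, 1⟩], 969)] 277 2 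
  (.zero [([⟨1, 1, 1, 1, 1⟩], 861)] 229 2 
  (.zero [([⟨1, 1, 1, 1, 1⟩], 777)] 457 1 
  (.zero [([⟨1, 1, 1, 1, 1⟩], 759)] 271 1 
  (.zero [([⟨1, 1, 1, 1, 1⟩], 1548), ([⟨1, 1, 1, 1, 1⟩], 1578), ([⟨1, 1, 1, 1, 1⟩], 1608)] 379 2 
  (.zero [([⟨1, 1, 1, 1, 1⟩], 774)] 449 1 
  (.elim [([⟨1, 1, 1, 1, 193⟩], 1017)] 397 
  (.elim [([⟨1, 1, 1, 1, 193⟩], 1020)] 401 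
  (.elim [([⟨1, 1, 1, 1, 193⟩], 1023)] 409 
  (.elim [([⟨1, 1, 1, 1, 193⟩], 1260)] 419 
  (.elim [([⟨1, 1, 1, 1, 193⟩], 1263)] 421 
  (.elim [([⟨1, 1, 1, 1, 193⟩], 1266)] 431 
  (.elim [([⟨-1, 1, 1, 1, 193⟩], 756)] 269 
  (.elim [([⟨-1, 1, 1, 1, 193⟩], 1703), ([⟨-1, 1, 1, 1, 193⟩], 1733), ([⟨-1, 1, 1, 1, 193⟩], 1763)] 191 
  (.elim [([⟨-1, 1, 1, 1, 193⟩], 1946), ([⟨-1, 1, 1, 1, 193⟩], 1976), ([⟨-1, 1, 1, 1, 193⟩], 2006)] 199 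
  (.elim [([⟨-1, 1, 1, 1, 193⟩], 1701), ([⟨-1, 1, 1, 1, 193⟩], 1731), ([⟨-1, 1, 1, 1, 193⟩], 1761)] 197 
  (.elim [([⟨-1, 1, 1, 1, 193⟩], 999)] 307 
  (.elim [([⟨-1, 1, 1, 1, 193⟩], 1002)] 311 
  (.elim [([⟨-1, 1, 1, 1, 193⟩], 1005)] 313 
  (.elim [([⟨-1, 1, 1, 1, 193⟩], 1242)] 347 
  (.elim [([⟨-1, 1, 1, 1, 193⟩], 1245)] 349 
  (.elim [([⟨-1, 1, 1, 1, 193⟩], 1248)] 353 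
  (.elim [([⟨-1, 1, 1, 1, 193⟩], 1783), ([⟨-1, 1, 1, 1, 193⟩], 1813), ([⟨-1, 1, 1, 1, 193⟩], 1843)] 257 
  (.elim [([⟨-1, 1, 1, 1, 193⟩], 1784), ([⟨-1, 1, 1, 1, 193⟩], 1814), ([⟨-1, 1, 1, 1, 193⟩], 1844)] 263 
  (.elim [([⟨-1, 1, 1, 1, 193⟩], 1782), ([⟨-1, 1, 1, 1, 193⟩], 1812), ([⟨-1, 1, 1, 1, 193⟩], 1842)] 251 
  (.act ⟨⟨⟨[⟨1, 1, 1, 1, 1⟩], [], []⟩, ⟨[], [⟨1, 1, 1, 1, 1⟩], [⟨1, 1, 211, 1, 193⟩]⟩, ⟨[], [], [⟨1, 1, 1, 1,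
  1⟩]⟩⟩, ⟨⟨[⟨1, 1, 1, 1, 1⟩], [], []⟩, ⟨[], [⟨1, 1, 1, 1, 1⟩], [⟨-1, 1, 211, 1, 193⟩]⟩, ⟨[], [], [⟨1, 1, 1, 1,
  1⟩]⟩⟩, ⟨1, 1, 1, 1, 1⟩, [(5, [⟨1, 1, 5, 1, 1⟩, ⟨1, 1, 1477, 1, 193⟩]), (17, [⟨1, 1, 17, 1, 1⟩, ⟨1, 1, 4009,
  1, 193⟩]), (29, [⟨1, 1, 29, 1, 1⟩, ⟨1, 1, 6541, 1, 193⟩, ⟨-1, 1, 8651, 1, 193⟩, ⟨1, 1, 1914403, 1, 37249⟩]),
  (31, [⟨1, 1, 31, 1, 1⟩, ⟨1, 1, 9073, 1, 193⟩]), (47, [⟨1, 1, 47, 1, 1⟩, ⟨-1, 1, 2743, 1, 193⟩]), (53, [⟨1, 1,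
  53, 1, 1⟩, ⟨-1, 1, 3587, 1, 193⟩, ⟨1, 1, 12449, 1, 193⟩, ⟨-1, 1, 845899, 1, 37249⟩]), (59, [⟨1, 1, 59, 1, 1⟩,
  ⟨-1, 1, 4009, 1, 193⟩]), (67, [⟨1, 1, 67, 1, 1⟩, ⟨-1, 1, 6119, 1, 193⟩, ⟨1, 1, 14981, 1, 193⟩, ⟨-1, 1, 16669,
  1, 193⟩, ⟨-1, 1, 1380151, 1, 37249⟩, ⟨1, 1, 1825361, 1, 37249⟩, ⟨1, 1, 3695243, 1, 37249⟩, ⟨-1, 1, 403939033,
  1, 7189057⟩]), (71, [⟨1, 1, 71, 1, 1⟩, ⟨-1, 1, 6541, 1, 193⟩, ⟨1, 1, 17513, 1, 193⟩, ⟨-1, 1, 1914403, 1,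
  37249⟩]), (83, [⟨1, 1, 83, 1, 1⟩, ⟨-1, 1, 9073, 1, 193⟩]), (23, [⟨1, 1, 23, 1, 1⟩, ⟨1, 1, 7807, 1, 193⟩]),
  (41, [⟨1, 1, 41, 1, 1⟩, ⟨-1, 1, 9073, 1, 193⟩]), (89, [⟨1, 1, 89, 1, 1⟩, ⟨1, 1, 20467, 1, 193⟩]), (107, [⟨1,
  1, 107, 1, 1⟩, ⟨-1, 1, 18779, 1, 193⟩, ⟨1, 1, 22999, 1, 193⟩, ⟨-1, 1, 4318537, 1, 37249⟩]), (109, [⟨1, 1,
  109, 1, 1⟩, ⟨-1, 1, 20467, 1, 193⟩]), (127, [⟨1, 1, 127, 1, 1⟩, ⟨1, 1, 27641, 1, 193⟩, ⟨-1, 1, 29329, 1,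
  193⟩, ⟨1, 1, 6633629, 1, 37249⟩]), (131, [⟨1, 1, 131, 1, 1⟩, ⟨-1, 1, 21311, 1, 193⟩, ⟨1, 1, 31439, 1, 193⟩]),
  (61, [⟨1, 1, 61, 1, 1⟩, ⟨-1, 1, 4853, 1, 193⟩, ⟨1, 1, 15403, 1, 193⟩, ⟨-1, 1, 1647277, 1, 37249⟩]), (73, [⟨1,
  1, 73, 1, 1⟩, ⟨-1, 1, 7807, 1, 193⟩]), (79, [⟨1, 1, 79, 1, 1⟩, ⟨-1, 1, 8651, 1, 193⟩, ⟨-1, 1, 17513, 1, 193⟩,
  ⟨1, 1, 1914403, 1, 37249⟩]), (113, [⟨1, 1, 113, 1, 1⟩, ⟨-1, 1, 18779, 1, 193⟩, ⟨1, 1, 28907, 1, 193⟩, ⟨-1, 1,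
  4318537, 1, 37249⟩]), (137, [⟨1, 1, 137, 1, 1⟩, ⟨-1, 1, 20467, 1, 193⟩]), (139, [⟨1, 1, 139, 1, 1⟩, ⟨-1, 1,
  21311, 1, 193⟩, ⟨-1, 1, 31439, 1, 193⟩]), (151, [⟨1, 1, 151, 1, 1⟩, ⟨-1, 1, 22577, 1, 193⟩, ⟨-1, 1, 23843, 1,
  193⟩, ⟨1, 1, 33127, 1, 193⟩, ⟨1, 1, 3962369, 1, 37249⟩, ⟨-1, 1, 4852789, 1, 37249⟩, ⟨-1, 1, 6099377, 1,
  37249⟩, ⟨1, 1, 911211307, 1, 7189057⟩]), (157, [⟨1, 1, 157, 1, 1⟩, ⟨-1, 1, 22999, 1, 193⟩, ⟨-1, 1, 28907, 1,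
  193⟩, ⟨1, 1, 4318537, 1, 37249⟩]), (163, [⟨1, 1, 163, 1, 1⟩, ⟨-1, 1, 27641, 1, 193⟩, ⟨-1, 1, 29329, 1, 193⟩,
  ⟨1, 1, 4496621, 1, 37249⟩]), (239, [⟨1, 1, 239, 1, 1⟩, ⟨1, 1, 50851, 1, 193⟩]), (463, [⟨1, 1, 463, 1, 1⟩, ⟨1,
  1, 98537, 1, 193⟩]), (439, [⟨1, 1, 439, 1, 1⟩, ⟨-1, 1, 91363, 1, 193⟩]), (443, [⟨1, 1, 443, 1, 1⟩, ⟨-1, 1,
  97693, 1, 193⟩, ⟨1, 1, 101069, 1, 193⟩, ⟨-1, 1, 20791307, 1, 37249⟩]), (479, [⟨1, 1, 479, 1, 1⟩, ⟨-1, 1,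
  98537, 1, 193⟩])], []⟩ [(211, [])] [] [] [] 
  (.act ⟨⟨⟨[⟨1, 1, 1, 1, 1⟩], [], [⟨-1, 1, 181, 1, 193⟩]⟩, ⟨[], [⟨1, 1, 1, 1, 1⟩], []⟩, ⟨[], [], [⟨1, 1, 1, 1,
  1⟩]⟩⟩, ⟨⟨[⟨1, 1, 1, 1, 1⟩], [], [⟨1, 1, 181, 1, 193⟩]⟩, ⟨[], [⟨1, 1, 1, 1, 1⟩], []⟩, ⟨[], [], [⟨1, 1, 1, 1,
  1⟩]⟩⟩, ⟨1, 1, 1, 1, 1⟩, [(5, [⟨1, 1, 5, 1, 1⟩, ⟨1, 1, 1991, 1, 193⟩]), (13, [⟨1, 1, 13, 1, 1⟩, ⟨-1, 1, 3439,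
  1, 193⟩, ⟨1, 1, 6697, 1, 193⟩, ⟨1, 1, 1408723, 1, 37249⟩]), (17, [⟨1, 1, 17, 1, 1⟩, ⟨1, 1, 7421, 1, 193⟩]),
  (19, [⟨1, 1, 19, 1, 1⟩, ⟨-1, 1, 7783, 1, 193⟩]), (47, [⟨1, 1, 47, 1, 1⟩, ⟨-1, 1, 10679, 1, 193⟩, ⟨1, 1,
  13213, 1, 193⟩, ⟨1, 1, 2719163, 1, 37249⟩]), (53, [⟨1, 1, 53, 1, 1⟩, ⟨1, 1, 905, 1, 193⟩, ⟨1, 1, 14299, 1,
  193⟩, ⟨1, 1, 360371, 1, 37249⟩]), (59, [⟨1, 1, 59, 1, 1⟩, ⟨1, 1, 1267, 1, 193⟩, ⟨-1, 1, 15023, 1, 193⟩]),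
  (71, [⟨1, 1, 71, 1, 1⟩, ⟨1, 1, 1991, 1, 193⟩]), (23, [⟨1, 1, 23, 1, 1⟩, ⟨1, 1, 5611, 1, 193⟩]), (37, [⟨1, 1,
  37, 1, 1⟩, ⟨1, 1, 7783, 1, 193⟩]), (89, [⟨1, 1, 89, 1, 1⟩, ⟨1, 1, 18281, 1, 193⟩]), (103, [⟨1, 1, 103, 1, 1⟩,
  ⟨-1, 1, 2353, 1, 193⟩, ⟨-1, 1, 19729, 1, 193⟩, ⟨1, 1, 24797, 1, 193⟩, ⟨1, 1, 622459, 1, 37249⟩, ⟨-1, 1,
  1212157, 1, 37249⟩, ⟨1, 1, 4881389, 1, 37249⟩, ⟨-1, 1, 254978863, 1, 7189057⟩]), (107, [⟨1, 1, 107, 1, 1⟩,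
  ⟨1, 1, 4163, 1, 193⟩, ⟨1, 1, 25159, 1, 193⟩, ⟨1, 1, 1015591, 1, 37249⟩]), (109, [⟨1, 1, 109, 1, 1⟩, ⟨1, 1,
  6697, 1, 193⟩, ⟨-1, 1, 26969, 1, 193⟩, ⟨1, 1, 1408723, 1, 37249⟩]), (127, [⟨1, 1, 127, 1, 1⟩, ⟨-1, 1, 5249,
  1, 193⟩]), (131, [⟨1, 1, 131, 1, 1⟩, ⟨1, 1, 7421, 1, 193⟩]), (149, [⟨1, 1, 149, 1, 1⟩, ⟨-1, 1, 7783, 1,
  193⟩]), (61, [⟨1, 1, 61, 1, 1⟩, ⟨1, 1, 905, 1, 193⟩, ⟨1, 1, 12851, 1, 193⟩, ⟨1, 1, 360371, 1, 37249⟩]), (73,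
  [⟨1, 1, 73, 1, 1⟩, ⟨1, 1, 1267, 1, 193⟩, ⟨1, 1, 15023, 1, 193⟩]), (79, [⟨1, 1, 79, 1, 1⟩, ⟨1, 1, 1991, 1,
  193⟩]), (113, [⟨1, 1, 113, 1, 1⟩, ⟨1, 1, 3077, 1, 193⟩, ⟨1, 1, 23711, 1, 193⟩, ⟨1, 1, 1343201, 1, 37249⟩]),
  (137, [⟨1, 1, 137, 1, 1⟩, ⟨1, 1, 3439, 1, 193⟩, ⟨1, 1, 26969, 1, 193⟩, ⟨-1, 1, 1408723, 1, 37249⟩]), (139,
  [⟨1, 1, 139, 1, 1⟩, ⟨1, 1, 5611, 1, 193⟩]), (151, [⟨1, 1, 151, 1, 1⟩, ⟨1, 1, 9593, 1, 193⟩, ⟨1, 1, 11041, 1,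
  193⟩, ⟨1, 1, 29503, 1, 193⟩, ⟨1, 1, 163805, 1, 37249⟩, ⟨1, 1, 2326031, 1, 37249⟩, ⟨1, 1, 2588119, 1, 37249⟩,
  ⟨1, 1, 65227151, 1, 7189057⟩]), (157, [⟨1, 1, 157, 1, 1⟩, ⟨1, 1, 10679, 1, 193⟩, ⟨1, 1, 13213, 1, 193⟩, ⟨1,
  1, 229327, 1, 37249⟩]), (163, [⟨1, 1, 163, 1, 1⟩, ⟨1, 1, 12851, 1, 193⟩, ⟨1, 1, 14299, 1, 193⟩, ⟨1, 1,
  360371, 1, 37249⟩]), (233, [⟨1, 1, 233, 1, 1⟩, ⟨-1, 1, 43621, 1, 193⟩]), (433, [⟨1, 1, 433, 1, 1⟩, ⟨-1, 1,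
  84527, 1, 193⟩]), (439, [⟨1, 1, 439, 1, 1⟩, ⟨-1, 1, 86699, 1, 193⟩])], []⟩ [(181, [])] [] [] [] 
  (.call false ⟨⟨⟨[], [], [⟨1, 1, 1, 1, 1⟩]⟩, ⟨[⟨1, 1, 1, 1, 1⟩], [], []⟩, ⟨[], [⟨1, 1, 1, 1, 1⟩], []⟩⟩, ⟨⟨[],
  [⟨1, 1, 1, 1, 1⟩], []⟩, ⟨[], [], [⟨1, 1, 1, 1, 1⟩]⟩, ⟨[⟨1, 1, 1, 1, 1⟩], [], []⟩⟩, ⟨1, 1, 1, 1, 193⟩, [(5,
  [⟨-1, 1, 157, 1, 193⟩]), (7, [⟨-1, 1, 163, 1, 193⟩]), (11, [⟨1, 1, 151, 1, 193⟩]), (13, [⟨-1, 1, 83, 1,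
  193⟩]), (17, [⟨-1, 1, 59, 1, 193⟩]), (19, [⟨-1, 1, 71, 1, 193⟩]), (29, [⟨-1, 1, 47, 1, 193⟩]), (31, [⟨1, 1,
  61, 1, 193⟩]), (43, [⟨-1, 1, 67, 1, 193⟩]), (47, [⟨-1, 1, 149, 1, 193⟩]), (53, [⟨-1, 1, 109, 1, 193⟩]), (59,
  [⟨-1, 1, 131, 1, 193⟩]), (67, [⟨-1, 1, 103, 1, 193⟩]), (71, [⟨1, 1, 113, 1, 193⟩]), (83, [⟨-1, 1, 127, 1,
  193⟩]), (23, [⟨-1, 1, 73, 1, 193⟩]), (37, [⟨-1, 1, 79, 1, 193⟩]), (41, [⟨1, 1, 53, 1, 193⟩]), (89, [⟨-1, 1,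
  7, 1, 193⟩]), (97, [⟨-1, 1, 11, 1, 193⟩]), (101, [⟨1, 1, 5, 1, 193⟩]), (103, [⟨1, 1, 43, 1, 193⟩]), (107,
  [⟨-1, 1, 37, 1, 193⟩]), (109, [⟨-1, 1, 41, 1, 193⟩]), (127, [⟨1, 1, 13, 1, 193⟩]), (131, [⟨1, 1, 17, 1,
  193⟩]), (149, [⟨1, 1, 29, 1, 193⟩]), (61, [⟨-1, 1, 137, 1, 193⟩]), (73, [⟨-1, 1, 139, 1, 193⟩]), (79, [⟨1, 1,
  107, 1, 193⟩]), (113, [⟨-1, 1, 19, 1, 193⟩]), (137, [⟨-1, 1, 31, 1, 193⟩]), (139, [⟨1, 1, 23, 1, 193⟩]),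
  (151, [⟨-1, 1, 97, 1, 193⟩]), (157, [⟨-1, 1, 101, 1, 193⟩]), (163, [⟨1, 1, 89, 1, 193⟩]), (167, [⟨1, 1, 479,
  1, 193⟩]), (173, [⟨1, 1, 439, 1, 193⟩]), (179, [⟨1, 1, 443, 1, 193⟩]), (181, []), (191, []), (193, []), (197,
  [⟨1, 1, 467, 1, 193⟩]), (199, [⟨1, 1, 433, 1, 193⟩]), (211, [⟨1, 1, 463, 1, 193⟩]), (223, []), (227, []),
  (229, []), (233, []), (239, []), (241, []), (251, []), (257, []), (263, []), (269, []), (271, []), (277, []),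
  (281, [⟨-1, 1, 111613, 1, 37249⟩, ⟨-1, 1, 115439, 1, 37249⟩]), (283, [⟨-1, 1, 103487, 1, 37249⟩, ⟨-1, 1,
  105799, 1, 37249⟩]), (293, [⟨-1, 1, 106763, 1, 37249⟩, ⟨-1, 1, 110657, 1, 37249⟩]), (307, []), (311, []),
  (313, []), (317, []), (331, [⟨1, 1, 223, 1, 193⟩]), (337, []), (347, []), (349, []), (353, []), (359, [⟨1, 1,
  241, 1, 193⟩]), (367, [⟨1, 1, 233, 1, 193⟩]), (373, [⟨1, 1, 239, 1, 193⟩])],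
  []⟩ 97)))))))))))))))))))))))))))))))))))))))))) 
  (.zero [([⟨1, 1, 1, 1, 1⟩], 729)] 223 1 
  (.zero [([⟨1, 1, 1, 1, 1⟩], 732)] 227 1 
  (.zero [([⟨1, 1, 1, 1, 1⟩], 735)] 229 1 
  (.zero [([⟨1, 1, 1, 1, 1⟩], 972)] 233 1 
  (.zero [([⟨1, 1, 1, 1, 1⟩], 975)] 239 1 
  (.zero [([⟨1, 1, 1, 1, 1⟩], 978)] 241 1 
  (.zero [([⟨1, 1, 1, 1, 1⟩], 1215)] 251 1 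
  (.zero [([⟨1, 1, 1, 1, 1⟩], 1218)] 257 1 
  (.zero [([⟨1, 1, 1, 1, 1⟩], 1221)] 263 1 
  (.zero [([⟨1, 1, 1, 1, 1⟩], 744)] 389 1 
  (.zero [([⟨1, 1, 1, 1, 1⟩], 897)] 277 2 
  (.zero [([⟨1, 1, 1, 1, 1⟩], 1177)] 337 2 
  (.zero [([⟨1, 1, 1, 1, 1⟩], 907)] 293 2 
  (.zero [([⟨1, 1, 1, 1, 1⟩], 1460), ([⟨1, 1, 1, 1, 1⟩], 1490), ([⟨1, 1, 1, 1, 1⟩], 1520)] 193 1 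
  (.zero [([⟨1, 1, 1, 1, 1⟩], 987)] 409 1 
  (.zero [([⟨1, 1, 1, 1, 1⟩], 1187)] 467 2 
  (.zero [([⟨1, 1, 1, 1, 1⟩], 1167)] 313 2 
  (.zero [([⟨1, 1, 1, 1, 1⟩], 1946), ([⟨1, 1, 1, 1, 1⟩], 1976), ([⟨1, 1, 1, 1, 1⟩], 2006)] 211 2 
  (.zero [([⟨1, 1, 1, 1, 1⟩], 1230)] 431 1 
  (.zero [([⟨1, 1, 1, 1, 1⟩], 2126), ([⟨1, 1, 1, 1, 1⟩], 2156), ([⟨1, 1, 1, 1, 1⟩], 2186)] 479 2 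
  (.elim [([⟨1, 1, 1, 1, 173⟩], 738)] 167 
  (.elim [([⟨-1, 1, 1, 1, 173⟩], 741)] 383 
  (.elim [([⟨1, 1, 1, 1, 173⟩], 981)] 181 
  (.elim [([⟨1, 1, 1, 1, 173⟩], 984)] 191 
  (.elim [([⟨1, 1, 1, 1, 173⟩], 1224)] 197 
  (.elim [([⟨1, 1, 1, 1, 173⟩], 1227)] 199 
  (.elim [([⟨1, 1, 1, 1, 173⟩], 1284)] 353 
  (.elim [([⟨-1, 1, 1, 1, 173⟩], 1458), ([⟨-1, 1, 1, 1, 173⟩], 1488), ([⟨-1, 1, 1, 1, 173⟩], 1518)] 397 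
  (.elim [([⟨-1, 1, 1, 1, 173⟩], 1459), ([⟨-1, 1, 1, 1, 173⟩], 1489), ([⟨-1, 1, 1, 1, 173⟩], 1519)] 379 
  (.elim [([⟨-1, 1, 1, 1, 173⟩], 1945), ([⟨-1, 1, 1, 1, 173⟩], 1975), ([⟨-1, 1, 1, 1, 173⟩], 2005)] 419 
  (.elim [([⟨1, 1, 1, 1, 173⟩], 792)] 269 
  (.elim [([⟨1, 1, 1, 1, 173⟩], 795)] 271 
  (.elim [([⟨1, 1, 1, 1, 173⟩], 1035)] 307 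
  (.elim [([⟨1, 1, 1, 1, 173⟩], 1038)] 311 
  (.elim [([⟨1, 1, 1, 1, 173⟩], 1278)] 347 
  (.elim [([⟨1, 1, 1, 1, 173⟩], 1281)] 349 
  (.elim [([⟨-1, 1, 1, 1, 173⟩], 1629), ([⟨-1, 1, 1, 1, 173⟩], 1659), ([⟨-1, 1, 1, 1, 173⟩], 1689)] 317 
  (.elim [([⟨-1, 1, 1, 1, 173⟩], 1630), ([⟨-1, 1, 1, 1, 173⟩], 1660), ([⟨-1, 1, 1, 1, 173⟩], 1690)] 331 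
  (.elim [([⟨-1, 1, 1, 1, 173⟩], 949), ([⟨-1, 1, 1, 1, 173⟩], 2116), ([⟨-1, 1, 1, 1, 173⟩], 2146), ([⟨-1, 1, 1,
  1, 173⟩], 2176)] 359 
  (.act ⟨⟨⟨[⟨1, 1, 1, 1, 1⟩], [⟨1, 1, 401, 1, 173⟩], []⟩, ⟨[], [⟨1, 1, 1, 1, 1⟩], []⟩, ⟨[], [], [⟨1, 1, 1, 1,
  1⟩]⟩⟩, ⟨⟨[⟨1, 1, 1, 1, 1⟩], [⟨-1, 1, 401, 1, 173⟩], []⟩, ⟨[], [⟨1, 1, 1, 1, 1⟩], []⟩, ⟨[], [], [⟨1, 1, 1, 1,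
  1⟩]⟩⟩, ⟨1, 1, 1, 1, 1⟩, [(7, [⟨1, 1, 7, 1, 1⟩, ⟨1, 1, 4411, 1, 173⟩]), (13, [⟨1, 1, 13, 1, 1⟩, ⟨1, 1, 6817,
  1, 173⟩, ⟨-1, 1, 9223, 1, 173⟩, ⟨1, 1, 4663229, 1, 29929⟩]), (17, [⟨1, 1, 17, 1, 1⟩, ⟨-1, 1, 2005, 1, 173⟩,
  ⟨1, 1, 11629, 1, 173⟩]), (19, [⟨1, 1, 19, 1, 1⟩, ⟨-1, 1, 2807, 1, 173⟩, ⟨1, 1, 12431, 1, 173⟩, ⟨-1, 1,
  1768811, 1, 29929⟩]), (31, [⟨1, 1, 31, 1, 1⟩, ⟨-1, 1, 4411, 1, 173⟩]), (47, [⟨1, 1, 47, 1, 1⟩, ⟨1, 1, 21253,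
  1, 173⟩, ⟨-1, 1, 24461, 1, 173⟩, ⟨1, 1, 10773667, 1, 29929⟩]), (53, [⟨1, 1, 53, 1, 1⟩, ⟨1, 1, 26867, 1,
  173⟩]), (59, [⟨1, 1, 59, 1, 1⟩, ⟨1, 1, 28471, 1, 173⟩]), (23, [⟨1, 1, 23, 1, 1⟩, ⟨-1, 1, 2005, 1, 173⟩, ⟨-1,
  1, 11629, 1, 173⟩]), (37, [⟨1, 1, 37, 1, 1⟩, ⟨-1, 1, 2807, 1, 173⟩, ⟨1, 1, 16441, 1, 173⟩, ⟨-1, 1, 1768811,
  1, 29929⟩]), (41, [⟨1, 1, 41, 1, 1⟩, ⟨-1, 1, 4411, 1, 173⟩]), (89, [⟨1, 1, 89, 1, 1⟩, ⟨-1, 1, 6817, 1, 173⟩,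
  ⟨-1, 1, 9223, 1, 173⟩, ⟨1, 1, 804005, 1, 29929⟩]), (97, [⟨1, 1, 97, 1, 1⟩, ⟨-1, 1, 7619, 1, 173⟩, ⟨-1, 1,
  14837, 1, 173⟩, ⟨1, 1, 40501, 1, 173⟩, ⟨1, 1, 1125607, 1, 29929⟩, ⟨-1, 1, 4984831, 1, 29929⟩, ⟨-1, 1,
  6592841, 1, 29929⟩, ⟨1, 1, 709293211, 1, 5177717⟩]), (101, [⟨1, 1, 101, 1, 1⟩, ⟨-1, 1, 12431, 1, 173⟩, ⟨-1,
  1, 16441, 1, 173⟩, ⟨1, 1, 1768811, 1, 29929⟩]), (103, [⟨1, 1, 103, 1, 1⟩, ⟨-1, 1, 18847, 1, 173⟩, ⟨1, 1,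
  42907, 1, 173⟩, ⟨-1, 1, 45313, 1, 173⟩, ⟨-1, 1, 8522453, 1, 29929⟩, ⟨1, 1, 9808861, 1, 29929⟩, ⟨1, 1,
  20421727, 1, 29929⟩, ⟨-1, 1, 4320240467, 1, 5177717⟩]), (107, [⟨1, 1, 107, 1, 1⟩, ⟨-1, 1, 21253, 1, 173⟩, ⟨1,
  1, 50927, 1, 173⟩, ⟨-1, 1, 10773667, 1, 29929⟩]), (109, [⟨1, 1, 109, 1, 1⟩, ⟨-1, 1, 23659, 1, 173⟩, ⟨1, 1,
  52531, 1, 173⟩, ⟨-1, 1, 11416871, 1, 29929⟩]), (127, [⟨1, 1, 127, 1, 1⟩, ⟨-1, 1, 26867, 1, 173⟩]), (131, [⟨1,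
  1, 131, 1, 1⟩, ⟨-1, 1, 28471, 1, 173⟩]), (149, [⟨1, 1, 149, 1, 1⟩, ⟨-1, 1, 33283, 1, 173⟩]), (61, [⟨1, 1, 61,
  1, 1⟩, ⟨-1, 1, 26867, 1, 173⟩]), (73, [⟨1, 1, 73, 1, 1⟩, ⟨1, 1, 31679, 1, 173⟩]), (113, [⟨1, 1, 113, 1, 1⟩,
  ⟨-1, 1, 24461, 1, 173⟩, ⟨-1, 1, 50927, 1, 173⟩, ⟨1, 1, 10773667, 1, 29929⟩]), (137, [⟨1, 1, 137, 1, 1⟩, ⟨-1,
  1, 29273, 1, 173⟩, ⟨1, 1, 55739, 1, 173⟩, ⟨-1, 1, 12703279, 1, 29929⟩]), (139, [⟨1, 1, 139, 1, 1⟩, ⟨-1, 1,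
  31679, 1, 173⟩]), (157, [⟨1, 1, 157, 1, 1⟩, ⟨1, 1, 65363, 1, 173⟩]), (281, [⟨1, 1, 281, 1, 1⟩, ⟨1, 1, 113483,
  1, 173⟩]), (449, [⟨1, 1, 449, 1, 1⟩, ⟨1, 1, 183257, 1, 173⟩]), (433, [⟨1, 1, 433, 1, 1⟩, ⟨-1, 1, 180049, 1,
  173⟩, ⟨1, 1, 185663, 1, 173⟩, ⟨-1, 1, 73486057, 1, 29929⟩]), (463, [⟨1, 1, 463, 1, 1⟩, ⟨-1, 1, 183257, 1,
  173⟩]), (359, [⟨1, 1, 118301, 1, 173⟩, ⟨1, 1, 147167, 1, 173⟩, ⟨-1, 1, 157033, 1, 173⟩, ⟨-1, 1, 165239, 1,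
  173⟩, ⟨-1, 1, 169921, 1, 173⟩, ⟨-1, 1, 34678537, 1, 29929⟩, ⟨-1, 1, 35705827, 1, 29929⟩, ⟨1, 1, 42329159, 1,
  29929⟩, ⟨1, 1, 55163209, 1, 29929⟩, ⟨1, 1, 71764081, 1, 29929⟩]), (439, [⟨1, 1, 439, 1, 1⟩, ⟨1, 1, 177643, 1,
  173⟩])], []⟩ [(401, [])] [] [] [(75, [⟨1, 1, 359, 1, 1⟩])] 
  (.elim [([⟨-1, 1, 1, 1, 173⟩], 949), ([⟨-1, 1, 1, 1, 173⟩], 2116), ([⟨-1, 1, 1, 1, 173⟩], 2146), ([⟨-1, 1, 1,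
  1, 173⟩], 2176)] 359 
  (.act ⟨⟨⟨[⟨1, 1, 1, 1, 1⟩], [], [⟨1, 1, 421, 1, 173⟩]⟩, ⟨[], [⟨1, 1, 1, 1, 1⟩], []⟩, ⟨[], [], [⟨1, 1, 1, 1,
  1⟩]⟩⟩, ⟨⟨[⟨1, 1, 1, 1, 1⟩], [], [⟨-1, 1, 421, 1, 173⟩]⟩, ⟨[], [⟨1, 1, 1, 1, 1⟩], []⟩, ⟨[], [], [⟨1, 1, 1, 1,
  1⟩]⟩⟩, ⟨1, 1, 1, 1, 1⟩, [(5, [⟨1, 1, 5, 1, 1⟩, ⟨-1, 1, 4631, 1, 173⟩]), (13, [⟨1, 1, 13, 1, 1⟩, ⟨1, 1, 7999,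
  1, 173⟩, ⟨-1, 1, 15577, 1, 173⟩, ⟨1, 1, 7621363, 1, 29929⟩]), (17, [⟨1, 1, 17, 1, 1⟩, ⟨-1, 1, 17261, 1,
  173⟩]), (19, [⟨1, 1, 19, 1, 1⟩, ⟨1, 1, 18103, 1, 173⟩]), (47, [⟨1, 1, 47, 1, 1⟩, ⟨1, 1, 24839, 1, 173⟩, ⟨-1,
  1, 30733, 1, 173⟩, ⟨1, 1, 14711003, 1, 29929⟩]), (53, [⟨1, 1, 53, 1, 1⟩, ⟨-1, 1, 2105, 1, 173⟩, ⟨-1, 1,
  33259, 1, 173⟩, ⟨1, 1, 1949651, 1, 29929⟩]), (59, [⟨1, 1, 59, 1, 1⟩, ⟨-1, 1, 2947, 1, 173⟩, ⟨1, 1, 34943, 1,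
  173⟩]), (71, [⟨1, 1, 71, 1, 1⟩, ⟨-1, 1, 4631, 1, 173⟩]), (23, [⟨1, 1, 23, 1, 1⟩, ⟨-1, 1, 13051, 1, 173⟩]),
  (37, [⟨1, 1, 37, 1, 1⟩, ⟨-1, 1, 18103, 1, 173⟩]), (89, [⟨1, 1, 89, 1, 1⟩, ⟨-1, 1, 42521, 1, 173⟩]), (103,
  [⟨1, 1, 103, 1, 1⟩, ⟨1, 1, 5473, 1, 173⟩, ⟨1, 1, 45889, 1, 173⟩, ⟨-1, 1, 57677, 1, 173⟩, ⟨1, 1, 3367579, 1,
  29929⟩, ⟨-1, 1, 6557917, 1, 29929⟩, ⟨1, 1, 26408909, 1, 29929⟩, ⟨1, 1, 3208593823, 1, 5177717⟩]), (107, [⟨1,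
  1, 107, 1, 1⟩, ⟨-1, 1, 9683, 1, 173⟩, ⟨-1, 1, 58519, 1, 173⟩, ⟨1, 1, 5494471, 1, 29929⟩]), (109, [⟨1, 1, 109,
  1, 1⟩, ⟨-1, 1, 15577, 1, 173⟩, ⟨1, 1, 62729, 1, 173⟩, ⟨1, 1, 7621363, 1, 29929⟩]), (127, [⟨1, 1, 127, 1, 1⟩,
  ⟨1, 1, 12209, 1, 173⟩]), (131, [⟨1, 1, 131, 1, 1⟩, ⟨-1, 1, 17261, 1, 173⟩]), (149, [⟨1, 1, 149, 1, 1⟩, ⟨1, 1,
  18103, 1, 173⟩]), (61, [⟨1, 1, 61, 1, 1⟩, ⟨-1, 1, 2105, 1, 173⟩, ⟨-1, 1, 29891, 1, 173⟩, ⟨1, 1, 1949651, 1,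
  29929⟩]), (73, [⟨1, 1, 73, 1, 1⟩, ⟨-1, 1, 2947, 1, 173⟩, ⟨-1, 1, 34943, 1, 173⟩]), (79, [⟨1, 1, 79, 1, 1⟩,
  ⟨-1, 1, 4631, 1, 173⟩]), (113, [⟨1, 1, 113, 1, 1⟩, ⟨-1, 1, 7157, 1, 173⟩, ⟨-1, 1, 55151, 1, 173⟩, ⟨1, 1,
  7266881, 1, 29929⟩]), (137, [⟨1, 1, 137, 1, 1⟩, ⟨-1, 1, 7999, 1, 173⟩, ⟨-1, 1, 62729, 1, 173⟩, ⟨-1, 1,
  7621363, 1, 29929⟩]), (139, [⟨1, 1, 139, 1, 1⟩, ⟨-1, 1, 13051, 1, 173⟩]), (151, [⟨1, 1, 151, 1, 1⟩, ⟨-1, 1,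
  22313, 1, 173⟩, ⟨-1, 1, 25681, 1, 173⟩, ⟨-1, 1, 68623, 1, 173⟩, ⟨1, 1, 886205, 1, 29929⟩, ⟨1, 1, 12584111, 1,
  29929⟩, ⟨1, 1, 14002039, 1, 29929⟩, ⟨-1, 1, 820803071, 1, 5177717⟩]), (157, [⟨1, 1, 157, 1, 1⟩, ⟨-1, 1,
  24839, 1, 173⟩, ⟨-1, 1, 30733, 1, 173⟩, ⟨1, 1, 1240687, 1, 29929⟩]), (163, [⟨1, 1, 163, 1, 1⟩, ⟨-1, 1, 29891,
  1, 173⟩, ⟨-1, 1, 33259, 1, 173⟩, ⟨1, 1, 1949651, 1, 29929⟩]), (367, [⟨1, 1, 367, 1, 1⟩, ⟨-1, 1, 119143, 1,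
  173⟩]), (439, [⟨1, 1, 439, 1, 1⟩, ⟨-1, 1, 189029, 1, 173⟩]), (443, [⟨1, 1, 443, 1, 1⟩, ⟨-1, 1, 192397, 1,
  173⟩])], []⟩ [(421, [])] [] [] [] 
  (.call false ⟨⟨⟨[], [⟨1, 1, 1, 1, 1⟩], []⟩, ⟨[], [], [⟨1, 1, 1, 1, 1⟩]⟩, ⟨[⟨1, 1, 1, 1, 1⟩], [], []⟩⟩, ⟨⟨[],
  [], [⟨1, 1, 1, 1, 1⟩]⟩, ⟨[⟨1, 1, 1, 1, 1⟩], [], []⟩, ⟨[], [⟨1, 1, 1, 1, 1⟩], []⟩⟩, ⟨1, 1, 1, 1, 173⟩, [(5,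
  [⟨1, 1, 101, 1, 173⟩]), (7, [⟨-1, 1, 89, 1, 173⟩]), (11, [⟨-1, 1, 97, 1, 173⟩]), (13, [⟨1, 1, 127, 1, 173⟩]),
  (17, [⟨1, 1, 131, 1, 173⟩]), (19, [⟨-1, 1, 113, 1, 173⟩]), (29, [⟨1, 1, 149, 1, 173⟩]), (31, [⟨-1, 1, 137, 1,
  173⟩]), (43, [⟨1, 1, 103, 1, 173⟩]), (47, [⟨-1, 1, 29, 1, 173⟩]), (53, [⟨1, 1, 41, 1, 173⟩]), (59, [⟨-1, 1,
  17, 1, 173⟩]), (67, [⟨-1, 1, 43, 1, 173⟩]), (71, [⟨-1, 1, 19, 1, 173⟩]), (83, [⟨-1, 1, 13, 1, 173⟩]), (23,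
  [⟨1, 1, 139, 1, 173⟩]), (37, [⟨-1, 1, 107, 1, 173⟩]), (41, [⟨-1, 1, 109, 1, 173⟩]), (89, [⟨1, 1, 163, 1,
  173⟩]), (97, [⟨-1, 1, 151, 1, 173⟩]), (101, [⟨-1, 1, 157, 1, 173⟩]), (103, [⟨-1, 1, 67, 1, 173⟩]), (107, [⟨1,
  1, 79, 1, 173⟩]), (109, [⟨-1, 1, 53, 1, 173⟩]), (127, [⟨-1, 1, 83, 1, 173⟩]), (131, [⟨-1, 1, 59, 1, 173⟩]),
  (149, [⟨-1, 1, 47, 1, 173⟩]), (61, [⟨1, 1, 31, 1, 173⟩]), (73, [⟨-1, 1, 23, 1, 173⟩]), (79, [⟨-1, 1, 37, 1,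
  173⟩]), (113, [⟨1, 1, 71, 1, 173⟩]), (137, [⟨-1, 1, 61, 1, 173⟩]), (139, [⟨-1, 1, 73, 1, 173⟩]), (151, [⟨1,
  1, 11, 1, 173⟩]), (157, [⟨-1, 1, 5, 1, 173⟩]), (163, [⟨-1, 1, 7, 1, 173⟩]), (223, [⟨-1, 1, 128417, 1, 29929⟩,
  ⟨-1, 1, 131029, 1, 29929⟩]), (227, []), (229, [⟨-1, 1, 122539, 1, 29929⟩, ⟨-1, 1, 126169, 1, 29929⟩]), (379,
  [⟨1, 1, 463, 1, 173⟩]), (383, []), (389, [⟨1, 1, 433, 1, 173⟩]), (233, [⟨1, 1, 367, 1, 173⟩]), (239, [⟨1, 1,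
  373, 1, 173⟩]), (241, [⟨-1, 1, 165239, 1, 29929⟩, ⟨-1, 1, 169921, 1, 29929⟩, ⟨-1, 1, 34678537, 1, 5177717⟩,
  ⟨-1, 1, 35705827, 1, 5177717⟩]), (397, [⟨1, 1, 443, 1, 173⟩]), (401, []), (409, [⟨1, 1, 439, 1, 173⟩]), (251,
  [⟨1, 1, 283, 1, 173⟩]), (257, []), (263, [⟨1, 1, 281, 1, 173⟩]), (419, [⟨1, 1, 457, 1, 173⟩]), (421, []),
  (431, [⟨1, 1, 449, 1, 173⟩]), (269, []), (271, []), (277, []), (281, []), (283, []), (293, []), (307, []),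
  (311, []), (313, []), (317, []), (331, []), (337, []), (347, []), (349, []), (353, []), (359, []), (367, []),
  (373, [])], []⟩ 98))))))))))))))))))))))))))))))))))))))))))))) 
  (.elim [([⟨-1, 1, 1, 1, 179⟩], 729)] 269 
  (.elim [([⟨-1, 1, 1, 1, 179⟩], 732)] 271 
  (.elim [([⟨-1, 1, 1, 1, 179⟩], 735)] 277 
  (.elim [([⟨1, 1, 1, 1, 179⟩], 747)] 167 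
  (.elim [([⟨1, 1, 1, 1, 179⟩], 750)] 173 
  (.elim [([⟨-1, 1, 1, 1, 179⟩], 753)] 461 
  (.elim [([⟨-1, 1, 1, 1, 179⟩], 972)] 307 
  (.elim [([⟨-1, 1, 1, 1, 179⟩], 975)] 311 
  (.elim [([⟨-1, 1, 1, 1, 179⟩], 978)] 313 
  (.elim [([⟨1, 1, 1, 1, 179⟩], 990)] 181 
  (.elim [([⟨1, 1, 1, 1, 179⟩], 993)] 191 
  (.elim [([⟨1, 1, 1, 1, 179⟩], 996)] 193 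
  (.elim [([⟨-1, 1, 1, 1, 179⟩], 1215)] 347 
  (.elim [([⟨-1, 1, 1, 1, 179⟩], 1218)] 349 
  (.elim [([⟨-1, 1, 1, 1, 179⟩], 1221)] 353 
  (.elim [([⟨1, 1, 1, 1, 179⟩], 1233)] 197 
  (.elim [([⟨1, 1, 1, 1, 179⟩], 1236)] 199 
  (.elim [([⟨1, 1, 1, 1, 179⟩], 1239)] 211 
  (.elim [([⟨-1, 1, 1, 1, 179⟩], 738)] 281 
  (.elim [([⟨-1, 1, 1, 1, 179⟩], 741)] 283 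
  (.elim [([⟨-1, 1, 1, 1, 179⟩], 744)] 293 
  (.elim [([⟨1, 1, 1, 1, 179⟩], 774)] 223 
  (.elim [([⟨1, 1, 1, 1, 179⟩], 777)] 227 
  (.elim [([⟨1, 1, 1, 1, 179⟩], 780)] 229 
  (.elim [([⟨-1, 1, 1, 1, 179⟩], 981)] 317 
  (.elim [([⟨-1, 1, 1, 1, 179⟩], 984)] 331 
  (.elim [([⟨-1, 1, 1, 1, 179⟩], 987)] 337 
  (.elim [([⟨1, 1, 1, 1, 179⟩], 1017)] 233 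
  (.elim [([⟨1, 1, 1, 1, 179⟩], 1020)] 239 
  (.elim [([⟨1, 1, 1, 1, 179⟩], 1023)] 241 
  (.elim [([⟨-1, 1, 1, 1, 179⟩], 1224)] 359 
  (.elim [([⟨-1, 1, 1, 1, 179⟩], 1227)] 367 
  (.elim [([⟨-1, 1, 1, 1, 179⟩], 1230)] 373 
  (.elim [([⟨1, 1, 1, 1, 179⟩], 1260)] 251 
  (.elim [([⟨1, 1, 1, 1, 179⟩], 1263)] 257 
  (.elim [([⟨1, 1, 1, 1, 179⟩], 1266)] 263 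
  (.elim [([⟨-1, 1, 1, 1, 179⟩], 1458), ([⟨-1, 1, 1, 1, 179⟩], 1488), ([⟨-1, 1, 1, 1, 179⟩], 1518)] 439 
  (.elim [([⟨-1, 1, 1, 1, 179⟩], 1459), ([⟨-1, 1, 1, 1, 179⟩], 1489), ([⟨-1, 1, 1, 1, 179⟩], 1519)] 443 
  (.elim [([⟨-1, 1, 1, 1, 179⟩], 1460), ([⟨-1, 1, 1, 1, 179⟩], 1490), ([⟨-1, 1, 1, 1, 179⟩], 1520)] 449 
  (.elim [([⟨-1, 1, 1, 1, 179⟩], 1703), ([⟨-1, 1, 1, 1, 179⟩], 1733), ([⟨-1, 1, 1, 1, 179⟩], 1763)] 433 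
  (.act ⟨⟨⟨[⟨1, 1, 1, 1, 1⟩], [], []⟩, ⟨[], [⟨1, 1, 1, 1, 1⟩], [⟨-1, 1, 457, 1, 179⟩]⟩, ⟨[], [], [⟨1, 1, 1, 1,
  1⟩]⟩⟩, ⟨⟨[⟨1, 1, 1, 1, 1⟩], [], []⟩, ⟨[], [⟨1, 1, 1, 1, 1⟩], [⟨1, 1, 457, 1, 179⟩]⟩, ⟨[], [], [⟨1, 1, 1, 1,
  1⟩]⟩⟩, ⟨1, 1, 1, 1, 1⟩, [(5, [⟨1, 1, 5, 1, 1⟩, ⟨-1, 1, 3199, 1, 179⟩]), (17, [⟨1, 1, 17, 1, 1⟩, ⟨-1, 1, 8683,
  1, 179⟩]), (29, [⟨1, 1, 29, 1, 1⟩, ⟨-1, 1, 14167, 1, 179⟩, ⟨1, 1, 18737, 1, 179⟩, ⟨1, 1, 8980507, 1,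
  32041⟩]), (31, [⟨1, 1, 31, 1, 1⟩, ⟨-1, 1, 19651, 1, 179⟩]), (47, [⟨1, 1, 47, 1, 1⟩, ⟨1, 1, 5941, 1, 179⟩]),
  (53, [⟨1, 1, 53, 1, 1⟩, ⟨1, 1, 7769, 1, 179⟩, ⟨-1, 1, 26963, 1, 179⟩, ⟨-1, 1, 3968131, 1, 32041⟩]), (59, [⟨1,
  1, 59, 1, 1⟩, ⟨1, 1, 8683, 1, 179⟩]), (67, [⟨1, 1, 67, 1, 1⟩, ⟨1, 1, 13253, 1, 179⟩, ⟨-1, 1, 32447, 1, 179⟩,
  ⟨1, 1, 36103, 1, 179⟩, ⟨-1, 1, 6474319, 1, 32041⟩, ⟨1, 1, 8562809, 1, 32041⟩, ⟨1, 1, 17334467, 1, 32041⟩, ⟨1,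
  1, 4104091699, 1, 5735339⟩]), (71, [⟨1, 1, 71, 1, 1⟩, ⟨1, 1, 14167, 1, 179⟩, ⟨-1, 1, 37931, 1, 179⟩, ⟨-1, 1,
  8980507, 1, 32041⟩]), (83, [⟨1, 1, 83, 1, 1⟩, ⟨1, 1, 19651, 1, 179⟩]), (23, [⟨1, 1, 23, 1, 1⟩, ⟨-1, 1, 16909,
  1, 179⟩]), (41, [⟨1, 1, 41, 1, 1⟩, ⟨1, 1, 19651, 1, 179⟩]), (89, [⟨1, 1, 89, 1, 1⟩, ⟨-1, 1, 44329, 1, 179⟩]),
  (107, [⟨1, 1, 107, 1, 1⟩, ⟨1, 1, 40673, 1, 179⟩, ⟨-1, 1, 49813, 1, 179⟩, ⟨-1, 1, 20258353, 1, 32041⟩]), (109,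
  [⟨1, 1, 109, 1, 1⟩, ⟨1, 1, 44329, 1, 179⟩]), (127, [⟨1, 1, 127, 1, 1⟩, ⟨-1, 1, 59867, 1, 179⟩, ⟨1, 1, 63523,
  1, 179⟩, ⟨1, 1, 31118501, 1, 32041⟩]), (131, [⟨1, 1, 131, 1, 1⟩, ⟨1, 1, 46157, 1, 179⟩, ⟨-1, 1, 68093, 1,
  179⟩]), (61, [⟨1, 1, 61, 1, 1⟩, ⟨1, 1, 10511, 1, 179⟩, ⟨-1, 1, 33361, 1, 179⟩, ⟨-1, 1, 7727413, 1, 32041⟩]),
  (73, [⟨1, 1, 73, 1, 1⟩, ⟨1, 1, 16909, 1, 179⟩]), (79, [⟨1, 1, 79, 1, 1⟩, ⟨1, 1, 18737, 1, 179⟩, ⟨1, 1, 37931,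
  1, 179⟩, ⟨1, 1, 8980507, 1, 32041⟩]), (113, [⟨1, 1, 113, 1, 1⟩, ⟨1, 1, 40673, 1, 179⟩, ⟨-1, 1, 62609, 1,
  179⟩, ⟨-1, 1, 20258353, 1, 32041⟩]), (137, [⟨1, 1, 137, 1, 1⟩, ⟨1, 1, 44329, 1, 179⟩]), (139, [⟨1, 1, 139, 1,
  1⟩, ⟨1, 1, 46157, 1, 179⟩, ⟨1, 1, 68093, 1, 179⟩]), (151, [⟨1, 1, 151, 1, 1⟩, ⟨1, 1, 48899, 1, 179⟩, ⟨1, 1,
  51641, 1, 179⟩, ⟨-1, 1, 71749, 1, 179⟩, ⟨1, 1, 18587561, 1, 32041⟩, ⟨-1, 1, 22764541, 1, 32041⟩, ⟨-1, 1,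
  28612313, 1, 32041⟩, ⟨-1, 1, 9258067321, 1, 5735339⟩]), (157, [⟨1, 1, 157, 1, 1⟩, ⟨1, 1, 49813, 1, 179⟩, ⟨1,
  1, 62609, 1, 179⟩, ⟨1, 1, 20258353, 1, 32041⟩]), (163, [⟨1, 1, 163, 1, 1⟩, ⟨1, 1, 59867, 1, 179⟩, ⟨1, 1,
  63523, 1, 179⟩, ⟨1, 1, 21093749, 1, 32041⟩]), (383, [⟨1, 1, 383, 1, 1⟩, ⟨-1, 1, 177773, 1, 179⟩]), (401, [⟨1,
  1, 401, 1, 1⟩, ⟨-1, 1, 186913, 1, 179⟩]), (419, [⟨1, 1, 419, 1, 1⟩, ⟨1, 1, 181429, 1, 179⟩]), (421, [⟨1, 1,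
  421, 1, 1⟩, ⟨1, 1, 183257, 1, 179⟩, ⟨-1, 1, 196967, 1, 179⟩, ⟨-1, 1, 85419241, 1, 32041⟩]), (431, [⟨1, 1,
  431, 1, 1⟩, ⟨1, 1, 186913, 1, 179⟩]), (463, [⟨1, 1, 463, 1, 1⟩, ⟨-1, 1, 213419, 1, 179⟩]), (479, [⟨1, 1, 479,
  1, 1⟩, ⟨1, 1, 213419, 1, 179⟩])], []⟩ [(457, [])] [] [] [] 
  (.zero [([⟨1, 1, 1, 1, 1⟩], 823)] 383 2 
  (.zero [([⟨1, 1, 1, 1, 1⟩], 1363)] 421 2 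
  (.zero [([⟨1, 1, 1, 1, 1⟩], 1702), ([⟨1, 1, 1, 1, 1⟩], 1732), ([⟨1, 1, 1, 1, 1⟩], 1762)] 463 2 
  (.zero [([⟨1, 1, 1, 1, 1⟩], 1792), ([⟨1, 1, 1, 1, 1⟩], 1822), ([⟨1, 1, 1, 1, 1⟩], 1852)] 401 2 
  (.act ⟨⟨⟨[⟨1, 1, 1, 1, 1⟩], [], [⟨1, 1, 479, 1, 179⟩]⟩, ⟨[], [⟨1, 1, 1, 1, 1⟩], []⟩, ⟨[], [], [⟨1, 1, 1, 1,
  1⟩]⟩⟩, ⟨⟨[⟨1, 1, 1, 1, 1⟩], [], [⟨-1, 1, 479, 1, 179⟩]⟩, ⟨[], [⟨1, 1, 1, 1, 1⟩], []⟩, ⟨[], [], [⟨1, 1, 1, 1,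
  1⟩]⟩⟩, ⟨1, 1, 1, 1, 1⟩, [(5, [⟨1, 1, 5, 1, 1⟩, ⟨-1, 1, 5269, 1, 179⟩]), (13, [⟨1, 1, 13, 1, 1⟩, ⟨1, 1, 9101,
  1, 179⟩, ⟨-1, 1, 17723, 1, 179⟩, ⟨1, 1, 9865963, 1, 32041⟩]), (17, [⟨1, 1, 17, 1, 1⟩, ⟨-1, 1, 19639, 1,
  179⟩]), (19, [⟨1, 1, 19, 1, 1⟩, ⟨1, 1, 20597, 1, 179⟩]), (47, [⟨1, 1, 47, 1, 1⟩, ⟨1, 1, 28261, 1, 179⟩, ⟨-1,
  1, 34967, 1, 179⟩, ⟨1, 1, 19043603, 1, 32041⟩]), (53, [⟨1, 1, 53, 1, 1⟩, ⟨-1, 1, 2395, 1, 179⟩, ⟨-1, 1,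
  37841, 1, 179⟩, ⟨1, 1, 2523851, 1, 32041⟩]), (59, [⟨1, 1, 59, 1, 1⟩, ⟨-1, 1, 3353, 1, 179⟩, ⟨1, 1, 39757, 1,
  179⟩]), (71, [⟨1, 1, 71, 1, 1⟩, ⟨-1, 1, 5269, 1, 179⟩]), (23, [⟨1, 1, 23, 1, 1⟩, ⟨-1, 1, 14849, 1, 179⟩]),
  (37, [⟨1, 1, 37, 1, 1⟩, ⟨-1, 1, 20597, 1, 179⟩]), (89, [⟨1, 1, 89, 1, 1⟩, ⟨-1, 1, 48379, 1, 179⟩]), (103,
  [⟨1, 1, 103, 1, 1⟩, ⟨1, 1, 6227, 1, 179⟩, ⟨1, 1, 52211, 1, 179⟩, ⟨-1, 1, 65623, 1, 179⟩, ⟨1, 1, 4359379, 1,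
  32041⟩, ⟨-1, 1, 8489317, 1, 32041⟩, ⟨1, 1, 34186709, 1, 32041⟩, ⟨1, 1, 4725796277, 1, 5735339⟩]), (107, [⟨1,
  1, 107, 1, 1⟩, ⟨-1, 1, 11017, 1, 179⟩, ⟨-1, 1, 66581, 1, 179⟩, ⟨1, 1, 7112671, 1, 32041⟩]), (109, [⟨1, 1,
  109, 1, 1⟩, ⟨-1, 1, 17723, 1, 179⟩, ⟨1, 1, 71371, 1, 179⟩, ⟨1, 1, 9865963, 1, 32041⟩]), (127, [⟨1, 1, 127, 1,
  1⟩, ⟨1, 1, 13891, 1, 179⟩]), (131, [⟨1, 1, 131, 1, 1⟩, ⟨-1, 1, 19639, 1, 179⟩]), (149, [⟨1, 1, 149, 1, 1⟩,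
  ⟨1, 1, 20597, 1, 179⟩]), (61, [⟨1, 1, 61, 1, 1⟩, ⟨-1, 1, 2395, 1, 179⟩, ⟨-1, 1, 34009, 1, 179⟩, ⟨1, 1,
  2523851, 1, 32041⟩]), (73, [⟨1, 1, 73, 1, 1⟩, ⟨-1, 1, 3353, 1, 179⟩, ⟨-1, 1, 39757, 1, 179⟩]), (79, [⟨1, 1,
  79, 1, 1⟩, ⟨-1, 1, 5269, 1, 179⟩]), (113, [⟨1, 1, 113, 1, 1⟩, ⟨-1, 1, 8143, 1, 179⟩, ⟨-1, 1, 62749, 1, 179⟩,
  ⟨1, 1, 9407081, 1, 32041⟩]), (137, [⟨1, 1, 137, 1, 1⟩, ⟨-1, 1, 9101, 1, 179⟩, ⟨-1, 1, 71371, 1, 179⟩, ⟨-1, 1,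
  9865963, 1, 32041⟩]), (139, [⟨1, 1, 139, 1, 1⟩, ⟨-1, 1, 14849, 1, 179⟩]), (151, [⟨1, 1, 151, 1, 1⟩, ⟨-1, 1,
  25387, 1, 179⟩, ⟨-1, 1, 29219, 1, 179⟩, ⟨-1, 1, 78077, 1, 179⟩, ⟨1, 1, 1147205, 1, 32041⟩, ⟨1, 1, 16290311,
  1, 32041⟩, ⟨1, 1, 18125839, 1, 32041⟩, ⟨-1, 1, 1208924629, 1, 5735339⟩]), (157, [⟨1, 1, 157, 1, 1⟩, ⟨-1, 1,
  28261, 1, 179⟩, ⟨-1, 1, 34967, 1, 179⟩, ⟨1, 1, 1606087, 1, 32041⟩]), (163, [⟨1, 1, 163, 1, 1⟩, ⟨-1, 1, 34009,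
  1, 179⟩, ⟨-1, 1, 37841, 1, 179⟩, ⟨1, 1, 2523851, 1, 32041⟩]), (379, [⟨1, 1, 379, 1, 1⟩, ⟨1, 1, 186331, 1,
  179⟩]), (397, [⟨1, 1, 397, 1, 1⟩, ⟨1, 1, 195911, 1, 179⟩]), (419, [⟨1, 1, 419, 1, 1⟩, ⟨-1, 1, 181541, 1,
  179⟩, ⟨1, 1, 206449, 1, 179⟩, ⟨-1, 1, 89252549, 1, 32041⟩]), (431, [⟨1, 1, 431, 1, 1⟩, ⟨-1, 1, 186331, 1,
  179⟩])], []⟩ [(479, [])] [] [] [] 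
  (.act ⟨⟨⟨[⟨1, 1, 1, 1, 1⟩], [⟨1, 1, 467, 1, 179⟩], []⟩, ⟨[], [⟨1, 1, 1, 1, 1⟩], []⟩, ⟨[], [], [⟨1, 1, 1, 1,
  1⟩]⟩⟩, ⟨⟨[⟨1, 1, 1, 1, 1⟩], [⟨-1, 1, 467, 1, 179⟩], []⟩, ⟨[], [⟨1, 1, 1, 1, 1⟩], []⟩, ⟨[], [], [⟨1, 1, 1, 1,
  1⟩]⟩⟩, ⟨1, 1, 1, 1, 1⟩, [(7, [⟨1, 1, 7, 1, 1⟩, ⟨1, 1, 5137, 1, 179⟩]), (13, [⟨1, 1, 13, 1, 1⟩, ⟨1, 1, 7939,
  1, 179⟩, ⟨-1, 1, 10741, 1, 179⟩, ⟨1, 1, 6324581, 1, 32041⟩]), (17, [⟨1, 1, 17, 1, 1⟩, ⟨-1, 1, 2335, 1, 179⟩,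
  ⟨1, 1, 13543, 1, 179⟩]), (19, [⟨1, 1, 19, 1, 1⟩, ⟨-1, 1, 3269, 1, 179⟩, ⟨1, 1, 14477, 1, 179⟩, ⟨-1, 1,
  2398979, 1, 32041⟩]), (31, [⟨1, 1, 31, 1, 1⟩, ⟨-1, 1, 5137, 1, 179⟩]), (47, [⟨1, 1, 47, 1, 1⟩, ⟨1, 1, 24751,
  1, 179⟩, ⟨-1, 1, 28487, 1, 179⟩, ⟨1, 1, 14611963, 1, 32041⟩]), (53, [⟨1, 1, 53, 1, 1⟩, ⟨1, 1, 31289, 1,
  179⟩]), (59, [⟨1, 1, 59, 1, 1⟩, ⟨1, 1, 33157, 1, 179⟩]), (23, [⟨1, 1, 23, 1, 1⟩, ⟨-1, 1, 2335, 1, 179⟩, ⟨-1,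
  1, 13543, 1, 179⟩]), (37, [⟨1, 1, 37, 1, 1⟩, ⟨-1, 1, 3269, 1, 179⟩, ⟨1, 1, 19147, 1, 179⟩, ⟨-1, 1, 2398979,
  1, 32041⟩]), (41, [⟨1, 1, 41, 1, 1⟩, ⟨-1, 1, 5137, 1, 179⟩]), (89, [⟨1, 1, 89, 1, 1⟩, ⟨-1, 1, 7939, 1, 179⟩,
  ⟨-1, 1, 10741, 1, 179⟩, ⟨1, 1, 1090445, 1, 32041⟩]), (97, [⟨1, 1, 97, 1, 1⟩, ⟨-1, 1, 8873, 1, 179⟩, ⟨-1, 1,
  17279, 1, 179⟩, ⟨1, 1, 47167, 1, 179⟩, ⟨1, 1, 1526623, 1, 32041⟩, ⟨-1, 1, 6760759, 1, 32041⟩, ⟨-1, 1,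
  8941649, 1, 32041⟩, ⟨1, 1, 1120323193, 1, 5735339⟩]), (101, [⟨1, 1, 101, 1, 1⟩, ⟨-1, 1, 14477, 1, 179⟩, ⟨-1,
  1, 19147, 1, 179⟩, ⟨1, 1, 2398979, 1, 32041⟩]), (103, [⟨1, 1, 103, 1, 1⟩, ⟨-1, 1, 21949, 1, 179⟩, ⟨1, 1,
  49969, 1, 179⟩, ⟨-1, 1, 52771, 1, 179⟩, ⟨-1, 1, 11558717, 1, 32041⟩, ⟨1, 1, 13303429, 1, 32041⟩, ⟨1, 1,
  27697303, 1, 32041⟩, ⟨-1, 1, 6823786721, 1, 5735339⟩]), (107, [⟨1, 1, 107, 1, 1⟩, ⟨-1, 1, 24751, 1, 179⟩, ⟨1,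
  1, 59309, 1, 179⟩, ⟨-1, 1, 14611963, 1, 32041⟩]), (109, [⟨1, 1, 109, 1, 1⟩, ⟨-1, 1, 27553, 1, 179⟩, ⟨1, 1,
  61177, 1, 179⟩, ⟨-1, 1, 15484319, 1, 32041⟩]), (127, [⟨1, 1, 127, 1, 1⟩, ⟨-1, 1, 31289, 1, 179⟩]), (131, [⟨1,
  1, 131, 1, 1⟩, ⟨-1, 1, 33157, 1, 179⟩]), (149, [⟨1, 1, 149, 1, 1⟩, ⟨-1, 1, 38761, 1, 179⟩]), (61, [⟨1, 1, 61,
  1, 1⟩, ⟨-1, 1, 31289, 1, 179⟩]), (73, [⟨1, 1, 73, 1, 1⟩, ⟨1, 1, 36893, 1, 179⟩]), (113, [⟨1, 1, 113, 1, 1⟩,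
  ⟨-1, 1, 28487, 1, 179⟩, ⟨-1, 1, 59309, 1, 179⟩, ⟨1, 1, 14611963, 1, 32041⟩]), (137, [⟨1, 1, 137, 1, 1⟩, ⟨-1,
  1, 34091, 1, 179⟩, ⟨1, 1, 64913, 1, 179⟩, ⟨-1, 1, 17229031, 1, 32041⟩]), (139, [⟨1, 1, 139, 1, 1⟩, ⟨-1, 1,
  36893, 1, 179⟩]), (157, [⟨1, 1, 157, 1, 1⟩, ⟨1, 1, 76121, 1, 179⟩]), (397, [⟨1, 1, 397, 1, 1⟩, ⟨-1, 1,
  176993, 1, 179⟩]), (409, [⟨1, 1, 409, 1, 1⟩, ⟨-1, 1, 181663, 1, 179⟩])], []⟩ [(467, [])] [] [] [] 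
  (.call false ⟨⟨⟨[], [], [⟨1, 1, 1, 1, 1⟩]⟩, ⟨[], [⟨1, 1, 1, 1, 1⟩], []⟩, ⟨[⟨1, 1, 1, 1, 1⟩], [], []⟩⟩, ⟨⟨[],
  [], [⟨1, 1, 1, 1, 1⟩]⟩, ⟨[], [⟨1, 1, 1, 1, 1⟩], []⟩, ⟨[⟨1, 1, 1, 1, 1⟩], [], []⟩⟩, ⟨1, 1, 1, 1, 179⟩, [(5,
  [⟨-1, 1, 163, 1, 179⟩]), (7, [⟨-1, 1, 157, 1, 179⟩]), (11, [⟨-1, 1, 151, 1, 179⟩]), (13, [⟨-1, 1, 149, 1,
  179⟩]), (17, [⟨-1, 1, 131, 1, 179⟩]), (19, [⟨-1, 1, 109, 1, 179⟩]), (29, [⟨-1, 1, 127, 1, 179⟩]), (31, [⟨-1,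
  1, 107, 1, 179⟩]), (43, [⟨-1, 1, 103, 1, 179⟩]), (47, [⟨-1, 1, 83, 1, 179⟩]), (53, [⟨-1, 1, 71, 1, 179⟩]),
  (59, [⟨-1, 1, 59, 1, 179⟩]), (67, [⟨-1, 1, 67, 1, 179⟩]), (71, [⟨-1, 1, 53, 1, 179⟩]), (83, [⟨-1, 1, 47, 1,
  179⟩]), (23, [⟨-1, 1, 139, 1, 179⟩]), (37, [⟨-1, 1, 137, 1, 179⟩]), (41, [⟨-1, 1, 113, 1, 179⟩]), (89, [⟨-1,
  1, 101, 1, 179⟩]), (97, [⟨-1, 1, 97, 1, 179⟩]), (101, [⟨-1, 1, 89, 1, 179⟩]), (103, [⟨-1, 1, 43, 1, 179⟩]),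
  (107, [⟨-1, 1, 31, 1, 179⟩]), (109, [⟨-1, 1, 19, 1, 179⟩]), (127, [⟨-1, 1, 29, 1, 179⟩]), (131, [⟨-1, 1, 17,
  1, 179⟩]), (149, [⟨-1, 1, 13, 1, 179⟩]), (61, [⟨-1, 1, 79, 1, 179⟩]), (73, [⟨-1, 1, 73, 1, 179⟩]), (79, [⟨-1,
  1, 61, 1, 179⟩]), (113, [⟨-1, 1, 41, 1, 179⟩]), (137, [⟨-1, 1, 37, 1, 179⟩]), (139, [⟨-1, 1, 23, 1, 179⟩]),
  (151, [⟨-1, 1, 11, 1, 179⟩]), (157, [⟨-1, 1, 7, 1, 179⟩]), (163, [⟨-1, 1, 5, 1, 179⟩]), (223, []), (227, []),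
  (229, []), (379, [⟨1, 1, 431, 1, 179⟩]), (383, []), (389, [⟨1, 1, 419, 1, 179⟩]), (233, []), (239, []), (241,
  []), (397, [⟨1, 1, 409, 1, 179⟩]), (401, []), (409, [⟨1, 1, 397, 1, 179⟩]), (251, []), (257, []), (263, []),
  (419, [⟨1, 1, 389, 1, 179⟩]), (421, []), (431, [⟨1, 1, 379, 1, 179⟩]), (269, []), (271, []), (277, []), (281,
  []), (283, []), (293, []), (307, []), (311, []), (313, []), (317, []), (331, []), (337, []), (347, []), (349,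
  []), (353, []), (359, []), (367, []), (373, [])], []⟩ 98))))))))))))))))))))))))))))))))))))))))))))))))

theorem okR0 : sR0.seq (check true (LB.take 107) tR0) = true := by decide +kernel

end

end Pool.Agent.Lib.MP_4e1a58_mp
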