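import Mathlib

/-! Quadratic trace Poisson brackets on three matrices: admissible pairs, the equivalence, and
the list of normal forms. -/

namespace Pool.Agent.Lib.MP_4e1a58_mp

noncomputable section

/-- A tensor `T γ ε α β` has upper indices `γ ε` and lower indices `α β`. -/
abbrev Tn := Fin 3 → Fin 3 → Fin 3 → Fin 3 → ℂ

/-- The five systems of equations of the problem for the pair `X = (r, a)`. -/
def Admissible (X : Tn × Tn) : Prop :=
  (∀ s e α β, X.1 s e α β = -X.1 e s β α) ∧
  (∀ l m n α β t, ∑ s, X.1 l s α β * X.1 m n s t + ∑ s, X.1 m s β t * X.1 n l s α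
      + ∑ s, X.1 n s t α * X.1 l m s β = 0) ∧
  (∀ l m n α β t, ∑ s, X.2 s l α β * X.2 m n t s = ∑ s, X.2 m s t α * X.2 n l s β) ∧
  (∀ l m n α β t, ∑ s, X.2 s l α β * X.2 m n s t
      = ∑ s, X.2 m s α β * X.1 l n t s + ∑ s, X.2 m n α s * X.1 s l β t) ∧
  (∀ l m n α β t, ∑ s, X.2 l s α β * X.2 m n t s
      = ∑ s, X.2 s n α β * X.1 l m s t + ∑ s, X.2 m n s β * X.1 s l t α)

/-- The action of a change of variables `g` with inverse `h` on a tensor. -/
def transform (g h : Matrix (Fin 3) (Fin 3) ℂ) (T : Tn) : Tn :=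
  fun k l i j => ∑ α, ∑ β, ∑ γ, ∑ ε, g i α * g j β * h γ k * h ε l * T γ ε α β

/-- `X` is carried to `Y` by a linear change followed by multiplication by a nonzero constant. -/
def Equivalent (X Y : Tn × Tn) : Prop :=
  ∃ (g h : Matrix (Fin 3) (Fin 3) ℂ) (c : ℂ), g * h = 1 ∧ c ≠ 0 ∧
    Y.1 = c • transform g h X.1 ∧ Y.2 = c • transform g h X.2

/-- The tensor whose component with upper indices `γ ε` and lower indices `α β` (numbered 1, 2, 3)
is the sum of the `c` with `(c, n)` in the list and `n` the four-digit decimal number `γεαβ`. -/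
def tens (l : List (ℂ × ℕ)) : Tn := fun γ ε α β =>
  (l.map fun p =>
    if p.2 = 1000 * (γ.val + 1) + 100 * (ε.val + 1) + 10 * (α.val + 1) + (β.val + 1) then p.1
    else 0).sum

/-- The pair `(r, a)` with `a = tens la` and `r` the skew tensor `tens lr` minus its flip. -/
def pair (lr la : List (ℂ × ℕ)) : Tn × Tn :=
  (fun γ ε α β => tens lr γ ε α β - tens lr ε γ β α, tens la)

/-- A signed code `±γεαβ` stands for the component `±1` at `γεαβ`. -/
def signed (l : List ℤ) : List (ℂ × ℕ) := l.map fun z => ((z.sign : ℂ), z.natAbs)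

/-- Isolated pairs with `a = 0` (16 pairs). -/
def listA : List (List ℤ × List ℤ) :=
  [([1211], []),
   ([1312, 2322], []),
   ([2212], []),
   ([2212, 2313], []),
   ([2311], []),
   ([3312], []),
   ([1311, 2212, 2312], []),
   ([1311, 2312], []),
   ([1311, 2312, 2321], []),
   ([1311, 2322], []),
   ([2212, 3313], []),
   ([2312, 2322, 3313], []),
   ([2312, 3212, 3313], []),
   ([2312, 3313], []),
   ([1211, 1312, 1321, 2322], []),
   ([2212, 2313, 3213, 3323], [])]

/-- Isolated pairs with `a ≠ 0`, first block (25 pairs). -/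
def listB : List (List ℤ × List ℤ) :=
  [([], [2211]),
   ([1211], [1211, 2221]),
   ([2212], [1211, 2221]),
   ([1211], [1211, 2221, 3231]),
   ([2212], [1211, 2221, 3231]),
   ([2212, 2313], [1211, 2221, 3231]),
   ([1312, 2322], [1312, 2322, 3332]),
   ([1211], [2111, 2212]),
   ([2221], [2111, 2212]),
   ([1211], [2111, 2212, 2313]),
   ([2221], [2111, 2212, 2313]),
   ([2311], [2211]),
   ([1211], [2313]),
   ([2221], [2313]),
   ([1312, 2322], [3121]),
   ([1312, 3332], [3121]),
   ([1312, 2322], [3121, 3222, 3323]),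
   ([1312, 3332], [3121, 3222, 3323]),
   ([1312, 2322], [3222, 3323]),
   ([1312, 3332], [3222, 3323]),
   ([1211], [3231]),
   ([2212], [3231]),
   ([2212], [3311]),
   ([3312], [3311]),
   ([1311], [3322])]

/-- Isolated pairs with `a ≠ 0`, second block (24 pairs). -/
def listC : List (List ℤ × List ℤ) :=
  [([2212, 3313], [1211, 2221, 3231]),
   ([1311, 2111, 2312, 2313], [1311, 2321, 3331]),
   ([1311, 2212, 2312], [1311, 2321, 3331]),
   ([1311, 2312], [1311, 2321, 3331]),
   ([1311, 2312, 2321], [1311, 2321, 3331]),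
   ([1311, 2322], [1311, 2321, 3331]),
   ([2312, 2322, 3313], [1311, 2321, 3331]),
   ([2312, 3212, 3313], [1311, 2321, 3331]),
   ([2312, 3313], [1311, 2321, 3331]),
   ([1311, 2312], [1311, 3331]),
   ([2312, 3313], [1311, 3331]),
   ([2322, 3212, 3313], [1312, 2322, 3332]),
   ([1211, 1311, 2312, 3231], [2111, 2212, 2313]),
   ([1211, 3231, 3313], [2111, 2212, 2313]),
   ([2221, 3313], [2111, 2212, 2313]),
   ([1311, 2312], [2321]),
   ([2312, 3313], [2321]),
   ([1311, 2312], [3111, 3212, 3313]),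
   ([1311, 2312, 2321], [3111, 3212, 3313]),
   ([1311, 2322], [3111, 3212, 3313]),
   ([2321, 3221, 3331], [3111, 3212, 3313]),
   ([3221, 3331], [3111, 3212, 3313]),
   ([1311, 1312, 3332], [3121, 3222, 3323]),
   ([2312, 2322, 3313], [3121, 3222, 3323])]

/-- Isolated pairs with `a ≠ 0`, third block (23 pairs). -/
def listD : List (List ℤ × List ℤ) :=
  [([2212], [-2313, 3231]),
   ([3312], [-2311, 3211, 3311, 3312, -3321]),
   ([1312, 3332], [-1312, 3121, 3222, 3323]),
   ([1312, 3332], [-1312, 3222, 3323]),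
   ([1312, 2322], [1312, 3121, 3222, 3323]),
   ([1312, 2322], [1312, 3222, 3323]),
   ([1211, 3231], [2111, 2212, 2313, 3311]),
   ([1211], [2313, 3231]),
   ([1312, 3332], [3121, 3222, 3311, 3323]),
   ([2321, 3221, 3331], [-2321, 3111, 3212, 3313]),
   ([2312, 3313], [1311, -3212, 3331]),
   ([1311, 2312], [1311, 2211, 2321, 3331]),
   ([1211, 3231, 3313], [1311, 2313, 3331]),
   ([2312, 3212, 3313], [1311, 2321, -3212, 3331]),
   ([2312, 3313], [1311, 2321, -3212, 3331]),
   ([1311, 2312], [1311, 2321, 3212, 3331]),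
   ([1311, 2312, 2321], [1311, 2321, 3212, 3331]),
   ([2312, 3313], [1311, 2321, 3322, 3331]),
   ([1311, 1312, 3332], [1311, 3121, 3331]),
   ([1311, 2312], [1311, 3212, 3331]),
   ([1311, 2221, 2312], [2111, 2212, 2321]),
   ([1311, 2312, 2321], [2321, 3111, 3212, 3313]),
   ([2312, 2322, 3313], [2321, 3222, 3323])]

/-- The 88 isolated pairs, as signed codes of `r` (one of each two opposite components) and `a`. -/
def isolated : List (List ℤ × List ℤ) := listA ++ listB ++ listC ++ listD

/-- Labels of the normal forms. -/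
inductive Label
  | iso (k : Fin 88)
  | one (k : Fin 4) (μ : ℂ)
  | cube (k : Fin 2) (ω : ℂ) (h : ω ^ 3 = 1)
  | two (k : Fin 2) (κ ρ : ℂ)

/-- The normal forms. -/
def nf : Label → Tn × Tn
  | .iso k => pair (signed (isolated.getD k ([], [])).1) (signed (isolated.getD k ([], [])).2)
  | .one k μ => ![pair [(μ, 2311)] [(1, 2311), (-1, 3211)],
      pair [(μ, 2311)] [(1, 2311), (-1, 3211), (1, 3311)],
      pair [(μ, 3312)] [(1, 3321), (-1, 3312)],
      pair [(μ, 3312)] [(1, 3321), (-1, 3312), (1, 3311)]] k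
  | .cube k ω _ => ![pair [(ω ^ 2, 2311)] [(1, 2311), (1, 3321), (ω, 3211), (ω, 3312)],
      pair [(-ω ^ 2, 3312)] [(1, 2311), (1, 3321), (-ω, 3211), (-ω, 3312)]] k
  | .two k κ ρ => ![pair [(ρ, 2311)] [(1 + κ, 2311), (1 - κ, 3211)],
      pair [(ρ, 3312)] [(1 + κ, 3321), (1 - κ, 3312)]] k

end

end Pool.Agent.Lib.MP_4e1a58_mp
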