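import Pool.Agent.Lib.MP_4e1a58_mp.Act

/-! Simultaneous triangularisation lemmas for families of three by three matrices. -/

namespace Pool.Agent.Lib.MP_4e1a58_mp

open Matrix
open scoped ComplexOrder

noncomputable section

def Tri {ι : Type} (S : ι → Mx) : Prop :=
  ∃ g h : Mx, g * h = 1 ∧ ∀ i, (g * S i * h) 1 0 = 0 ∧ (g * S i * h) 2 0 = 0 ∧ (g * S i * h) 2 1 = 0

lemma tri_conj {ι : Type} {S : ι → Mx} {g h : Mx} (e : g * h = 1)
    (H : Tri fun i => g * S i * h) : Tri S := by
  obtain ⟨g', h', e', H⟩ := H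
  refine ⟨g' * g, h * h', ?_, fun i => ?_⟩
  · rw [mul_assoc, ← mul_assoc g, e, one_mul, e']
  · simpa only [mul_assoc] using H i

def cols (a b c : Vc) : Mx := !![a 0, b 0, c 0; a 1, b 1, c 1; a 2, b 2, c 2]

lemma inv_cols {a b c : Vc} (hd : (cols a b c).det ≠ 0) :
    ∃ g : Mx, g * cols a b c = 1 ∧ cols a b c * g = 1 :=
  ⟨(cols a b c)⁻¹, nonsing_inv_mul _ (Ne.isUnit hd), mul_nonsing_inv _ (Ne.isUnit hd)⟩

lemma col_eig {g s : Mx} {a b c : Vc} (e : g * cols a b c = 1) {x : ℂ} (hs : s *ᵥ a = x • a)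
    (i : Fin 3) (hi : i ≠ 0) : (g * s * cols a b c) i 0 = 0 := by
  have h1 := congrFun (congrFun e i) 0
  have a0 := congrFun hs 0
  have a1 := congrFun hs 1
  have a2 := congrFun hs 2
  rw [one_apply_ne hi] at h1
  simp [mul_apply, cols, Fin.sum_univ_three, mulVec, dotProduct] at h1 a0 a1 a2 ⊢
  linear_combination x * h1 + g i 0 * a0 + g i 1 * a1 + g i 2 * a2

lemma row_eig {g h s : Mx} (e : h * g = 1) {w : Vc} (hw : w ≠ 0) {x : ℂ} (hs : w ᵥ* s = x • w)
    (i : Fin 3) (hi : ∀ j, j ≠ i → (w ᵥ* h) j = 0) (j : Fin 3) (hj : j ≠ i) :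
    (g * s * h) i j = 0 := by
  have h1 : w = (w ᵥ* h) ᵥ* g := by rw [vecMul_vecMul, e, vecMul_one]
  have h2 : ∀ M : Mx, ∀ k, ((w ᵥ* h) ᵥ* M) k = (w ᵥ* h) i * M i k := by
    intro M k
    rw [vecMul, dotProduct, Finset.sum_eq_single i]
    · intro b _ hb; rw [hi b hb, zero_mul]
    · simp
  have h3 : (w ᵥ* h) i ≠ 0 := by
    intro h0
    apply hw
    funext k
    rw [h1, h2, h0, zero_mul]; rfl
  have h4 : ((w ᵥ* h) ᵥ* (g * s * h)) j = 0 := by
    rw [← vecMul_vecMul, ← vecMul_vecMul, ← h1, hs, smul_vecMul, Pi.smul_apply, hi j hj, smul_zero]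
  rw [h2] at h4
  exact (mul_eq_zero.1 h4).resolve_left h3

def crs (a b : Vc) : Vc := ![a 1 * b 2 - a 2 * b 1, a 2 * b 0 - a 0 * b 2, a 0 * b 1 - a 1 * b 0]

lemma flag {ι : Type} {S : ι → Mx} {v w : Vc} (hv : v ≠ 0) (hw : w ≠ 0) (hvw : w ⬝ᵥ v = 0)
    (h1 : ∀ i, ∃ x : ℂ, S i *ᵥ v = x • v) (h2 : ∀ i, ∃ x : ℂ, w ᵥ* S i = x • w) : Tri S := by
  have hd : (cols v (crs w (star v)) (star w)).det ≠ 0 := by
    have : (cols v (crs w (star v)) (star w)).det = (v ⬝ᵥ star v) * (w ⬝ᵥ star w) := by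
      generalize star v = p
      generalize star w = q
      simp only [dotProduct, Fin.sum_univ_three] at hvw ⊢
      simp [cols, crs, det_fin_three]
      linear_combination (-(p 0 * q 0 + p 1 * q 1 + p 2 * q 2)) * hvw
    rw [this]
    exact mul_ne_zero (mt dotProduct_self_star_eq_zero.1 hv) (mt dotProduct_self_star_eq_zero.1 hw)
  obtain ⟨g, e, e'⟩ := inv_cols hd
  refine ⟨g, _, e, fun i => ?_⟩
  obtain ⟨x, hx⟩ := h1 i
  obtain ⟨y, hy⟩ := h2 i
  refine ⟨col_eig e hx 1 (by decide), col_eig e hx 2 (by decide), row_eig e' hw hy 2 ?_ 1 (by decide)⟩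
  intro j hj
  simp only [dotProduct, Fin.sum_univ_three] at hvw
  fin_cases j
  · simpa [vecMul, dotProduct, Fin.sum_univ_three, cols] using hvw
  · simp [vecMul, dotProduct, Fin.sum_univ_three, cols, crs]; ring
  · exact absurd rfl hj

lemma exists_perp (w : Vc) : ∃ v : Vc, v ≠ 0 ∧ w ⬝ᵥ v = 0 := by
  by_cases h : w 0 = 0
  · refine ⟨![1, 0, 0], fun hh => by simpa using congrFun hh 0, ?_⟩
    simp [dotProduct, Fin.sum_univ_three, h]
  · refine ⟨![w 1, -w 0, 0], fun hh => h (by simpa using congrFun hh 1), ?_⟩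
    simp [dotProduct, Fin.sum_univ_three]; ring

lemma first_col {v : Vc} (hv : v ≠ 0) : ∃ b c : Vc, (cols v b c).det ≠ 0 := by
  by_cases h0 : v 0 = 0
  · by_cases h1 : v 1 = 0
    · refine ⟨![1, 0, 0], ![0, 1, 0], ?_⟩
      have : v 2 ≠ 0 := fun h2 => hv (by funext i; fin_cases i <;> simp [*])
      simpa [cols, det_fin_three] using this
    · exact ⟨![1, 0, 0], ![0, 0, 1], by simpa [cols, det_fin_three] using h1⟩
  · exact ⟨![0, 1, 0], ![0, 0, 1], by simpa [cols, det_fin_three] using h0⟩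

lemma minors_zero {K : Mx} (h : adjugate K = 0) (i j k l : Fin 3) :
    K i j * K k l = K i l * K k j := by
  have h00 := congrFun (congrFun h 0) 0
  have h01 := congrFun (congrFun h 0) 1
  have h02 := congrFun (congrFun h 0) 2
  have h10 := congrFun (congrFun h 1) 0
  have h11 := congrFun (congrFun h 1) 1
  have h12 := congrFun (congrFun h 1) 2
  have h20 := congrFun (congrFun h 2) 0
  have h21 := congrFun (congrFun h 2) 1
  have h22 := congrFun (congrFun h 2) 2
  simp only [adjugate_fin_three, of_apply, cons_val', cons_val_zero, cons_val_one, cons_val_two,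
    cons_val_fin_one, head_cons, tail_cons, Matrix.zero_apply, Nat.succ_eq_add_one, Nat.reduceAdd,
    head_fin_const] at h00 h01 h02 h10 h11 h12 h20 h21 h22
  fin_cases i <;> fin_cases j <;> fin_cases k <;> fin_cases l <;>
    simp only [Fin.zero_eta, Fin.mk_one, Fin.reduceFinMk] <;>
    first
    | ring1
    | linear_combination h00 | linear_combination -h00 | linear_combination h01
    | linear_combination -h01 | linear_combination h02 | linear_combination -h02
    | linear_combination h10 | linear_combination -h10 | linear_combination h11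
    | linear_combination -h11 | linear_combination h12 | linear_combination -h12
    | linear_combination h20 | linear_combination -h20 | linear_combination h21
    | linear_combination -h21 | linear_combination h22 | linear_combination -h22

lemma rank_one {ι : Type} {S : ι → Mx} {K : Mx} (hK : K ≠ 0) (h : adjugate K = 0)
    (hc : ∀ i, S i * K = K * S i) :
    ∃ v w : Vc, v ≠ 0 ∧ w ≠ 0 ∧ (∀ i, ∃ x : ℂ, S i *ᵥ v = x • v) ∧
      ∀ i, ∃ x : ℂ, w ᵥ* S i = x • w := by
  obtain ⟨a, b, hab⟩ : ∃ a b, K a b ≠ 0 := by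
    by_contra hh
    push Not at hh
    exact hK (by ext a b; exact hh a b)
  refine ⟨fun i => K i b, fun j => K a j, fun hh => hab (congrFun hh a),
    fun hh => hab (congrFun hh b), fun i => ⟨(K * S i) a b / K a b, ?_⟩,
    fun i => ⟨(S i * K) a b / K a b, ?_⟩⟩
  · funext p
    have e := congrFun (congrFun (hc i) p) b
    have m0 := minors_zero h p 0 a b
    have m1 := minors_zero h p 1 a b
    have m2 := minors_zero h p 2 a b
    simp only [mul_apply, mulVec, dotProduct, Fin.sum_univ_three, Pi.smul_apply, smul_eq_mul] at e ⊢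
    field_simp
    linear_combination K a b * e + S i 0 b * m0 + S i 1 b * m1 + S i 2 b * m2
  · funext p
    have e := congrFun (congrFun (hc i) a) p
    have m0 := minors_zero h 0 p a b
    have m1 := minors_zero h 1 p a b
    have m2 := minors_zero h 2 p a b
    simp only [mul_apply, vecMul, dotProduct, Fin.sum_univ_three, Pi.smul_apply, smul_eq_mul] at e ⊢
    field_simp
    linear_combination -K a b * e + S i a 0 * m0 + S i a 1 * m1 + S i a 2 * m2

lemma adj_poly (M : Mx) : adjugate M = M * M - trace M • M + trace (adjugate M) • (1 : Mx) := by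
  ext i j
  fin_cases i <;> fin_cases j <;>
    simp [adjugate_fin_three, mul_apply, trace, Fin.sum_univ_three] <;> ring

lemma eig_pair {ι : Type} {S : ι → Mx} {t : Mx} (ht : t 1 0 ≠ 0 ∨ t 2 0 ≠ 0 ∨ t 2 1 ≠ 0)
    (hc : ∀ i, S i * t = t * S i) :
    ∃ v w : Vc, v ≠ 0 ∧ w ≠ 0 ∧ (∀ i, ∃ x : ℂ, S i *ᵥ v = x • v) ∧
      ∀ i, ∃ x : ℂ, w ᵥ* S i = x • w := by
  obtain ⟨x, hx⟩ := IsAlgClosed.exists_root t.charpoly (by
    rw [charpoly_degree_eq_dim]; simp)
  rw [Polynomial.IsRoot.def, eval_charpoly] at hx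
  set M : Mx := scalar (Fin 3) x - t with hM
  have hc' : ∀ i, S i * M = M * S i := fun i => by
    rw [hM, mul_sub, sub_mul, hc i, (scalar_commute x (fun _ => Commute.all _ _) (S i)).eq]
  have hM0 : M ≠ 0 := by
    intro h0
    have a := congrFun (congrFun h0 1) 0
    have b := congrFun (congrFun h0 2) 0
    have c := congrFun (congrFun h0 2) 1
    simp [hM] at a b c
    tauto
  by_cases ha : adjugate M = 0
  · exact rank_one hM0 ha hc'
  · refine rank_one ha ?_ fun i => ?_
    · rw [adjugate_adjugate _ (by simp), hx]; simp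
    · rw [adj_poly]
      simp only [mul_add, add_mul, mul_sub, sub_mul, mul_smul_comm, smul_mul_assoc, mul_one,
        one_mul, hc' i]
      rw [← mul_assoc, hc' i, mul_assoc, hc' i, mul_assoc]

lemma block_case {ι κ : Type} {S : ι → Mx} {T : κ → Mx} (hc : ∀ i j, S i * T j = T j * S i)
    (hb : ∀ i, S i 1 0 = 0 ∧ S i 2 0 = 0 ∧ S i 0 1 = 0 ∧ S i 0 2 = 0) : Tri S ∨ Tri T := by
  have he : (![1, 0, 0] : Vc) ≠ 0 := fun hh => by simpa using congrFun hh 0
  have hl : ∀ i, ∃ x : ℂ, (![1, 0, 0] : Vc) ᵥ* S i = x • ![1, 0, 0] := fun i => by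
    refine ⟨S i 0 0, ?_⟩
    funext p
    fin_cases p <;> simp [vecMul, dotProduct, Fin.sum_univ_three, hb i]
  by_cases h1 : ∃ j, T j 1 0 ≠ 0 ∨ T j 2 0 ≠ 0
  · obtain ⟨j, hj⟩ := h1
    refine Or.inl (flag (v := ![0, T j 1 0, T j 2 0]) ?_ he ?_ (fun i => ⟨S i 0 0, ?_⟩) hl)
    · intro hh
      have a := congrFun hh 1
      have b := congrFun hh 2
      simp at a b
      tauto
    · simp [dotProduct, Fin.sum_univ_three]
    · have a := congrFun (congrFun (hc i j) 1) 0
      have b := congrFun (congrFun (hc i j) 2) 0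
      simp only [mul_apply, Fin.sum_univ_three, hb i] at a b
      funext p
      fin_cases p <;> simp [mulVec, dotProduct, Fin.sum_univ_three, hb i]
      · linear_combination a
      · linear_combination b
  by_cases h2 : ∃ j, T j 2 1 ≠ 0
  · obtain ⟨j, hj⟩ := h2
    obtain ⟨x, hx⟩ : ∃ x : ℂ, (T j 1 1 - x) * (T j 2 2 - x) - T j 1 2 * T j 2 1 = 0 := by
      obtain ⟨y, hy⟩ := IsAlgClosed.exists_pow_nat_eq
        ((T j 1 1 - T j 2 2) ^ 2 + 4 * T j 1 2 * T j 2 1) (by norm_num : 0 < 2)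
      exact ⟨(T j 1 1 + T j 2 2 + y) / 2, by linear_combination (1 / 4) * hy⟩
    refine Or.inl (flag (v := ![0, x - T j 2 2, T j 2 1]) ?_ he ?_
      (fun i => ⟨(S i 2 1 * (x - T j 2 2) + S i 2 2 * T j 2 1) / T j 2 1, ?_⟩) hl)
    · intro hh
      exact hj (by simpa using congrFun hh 2)
    · simp [dotProduct, Fin.sum_univ_three]
    · have a := congrFun (congrFun (hc i j) 2) 1
      have b := congrFun (congrFun (hc i j) 2) 2
      simp only [mul_apply, Fin.sum_univ_three, hb i] at a b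
      funext p
      fin_cases p <;> simp [mulVec, dotProduct, Fin.sum_univ_three, hb i]
      · field_simp
        linear_combination (-(x - T j 2 2)) * a - T j 2 1 * b - S i 2 1 * hx
      · field_simp
  · push Not at h1 h2
    exact Or.inr ⟨1, 1, by simp, fun j => by simp [h1 j, h2 j]⟩

theorem tri_or_tri {ι κ : Type} {S : ι → Mx} {T : κ → Mx} (hc : ∀ i j, S i * T j = T j * S i) :
    Tri S ∨ Tri T := by
  by_cases h : ∃ j, T j 1 0 ≠ 0 ∨ T j 2 0 ≠ 0 ∨ T j 2 1 ≠ 0
  swap
  · push Not at h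
    exact Or.inr ⟨1, 1, by simp, fun j => by simpa using h j⟩
  obtain ⟨j, hj⟩ := h
  obtain ⟨v, w, hv, hw, h1, h2⟩ := eig_pair hj fun i => hc i j
  by_cases hvw : w ⬝ᵥ v = 0
  · exact Or.inl (flag hv hw hvw h1 h2)
  obtain ⟨u, hu, hwu⟩ := exists_perp w
  have hd : (cols v u (crs w (star u))).det ≠ 0 := by
    have : (cols v u (crs w (star u))).det = (u ⬝ᵥ star u) * (w ⬝ᵥ v) := by
      generalize star u = p
      simp only [dotProduct, Fin.sum_univ_three] at hwu ⊢
      simp [cols, crs, det_fin_three]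
      linear_combination (-(p 0 * v 0 + p 1 * v 1 + p 2 * v 2)) * hwu
    rw [this]
    exact mul_ne_zero (mt dotProduct_self_star_eq_zero.1 hu) hvw
  obtain ⟨g, e, e'⟩ := inv_cols hd
  have hz : ∀ j, j ≠ 0 → (w ᵥ* cols v u (crs w (star u))) j = 0 := by
    intro j hj
    simp only [dotProduct, Fin.sum_univ_three] at hwu
    fin_cases j
    · exact absurd rfl hj
    · simpa [vecMul, dotProduct, Fin.sum_univ_three, cols] using hwu
    · simp [vecMul, dotProduct, Fin.sum_univ_three, cols, crs]; ring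
  have := block_case (S := fun i => g * S i * cols v u (crs w (star u)))
    (T := fun i => g * T i * cols v u (crs w (star u))) (fun i j => by
      have a : ∀ A B : Mx, g * A * cols v u (crs w (star u)) * (g * B * cols v u (crs w (star u)))
          = g * (A * B) * cols v u (crs w (star u)) := fun A B => by
        simp only [mul_assoc]
        rw [← mul_assoc (cols _ _ _) g, e', one_mul]
      rw [a, a, hc]) (fun i => by
      obtain ⟨x, hx⟩ := h1 i
      obtain ⟨y, hy⟩ := h2 i
      exact ⟨col_eig e hx 1 (by decide), col_eig e hx 2 (by decide),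
        row_eig e' hw hy 0 hz 1 (by decide), row_eig e' hw hy 0 hz 2 (by decide)⟩)
  exact this.imp (tri_conj e) (tri_conj e)

/-- Burnside's theorem in dimension three -/
theorem burnside {ι : Type} (P : ι → Mx)
    (h1 : ¬ ∃ v : Vc, v ≠ 0 ∧ ∀ i, ∃ x : ℂ, P i *ᵥ v = x • v)
    (h2 : ¬ ∃ w : Vc, w ≠ 0 ∧ ∀ i, ∃ x : ℂ, w ᵥ* P i = x • w) (M : Mx) :
    toLin' M ∈ Algebra.adjoin ℂ (Set.range fun i => toLin' (P i)) := by
  set A := Algebra.adjoin ℂ (Set.range fun i => toLin' (P i)) with hA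
  have hP : ∀ i, toLin' (P i) ∈ A := fun i => Algebra.subset_adjoin ⟨i, rfl⟩
  have hs : IsSimpleModule A Vc := by
    refine (isSimpleModule_iff A Vc).2 { eq_bot_or_eq_top := fun W => ?_ }
    by_contra hW
    push Not at hW
    set W' : Submodule ℂ Vc := W.restrictScalars ℂ with hW'
    have hinv : ∀ i, ∀ v ∈ W', P i *ᵥ v ∈ W' := fun i v hv => W.smul_mem ⟨_, hP i⟩ hv
    have b0 : W' ≠ ⊥ := fun hh => hW.1 ((Submodule.restrictScalars_eq_bot_iff _ _ _).1 hh)
    have b1 : W' < ⊤ := lt_top_iff_ne_top.2 fun hh =>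
      hW.2 ((Submodule.restrictScalars_eq_top_iff _ _ _).1 hh)
    have d1 : Module.finrank ℂ W' < 3 := by
      simpa using Submodule.finrank_lt b1.ne
    have d0 : Module.finrank ℂ W' ≠ 0 := fun hh => b0 (Submodule.finrank_eq_zero.1 hh)
    obtain d | d : Module.finrank ℂ W' = 1 ∨ Module.finrank ℂ W' = 2 := by omega
    · obtain ⟨v, hv, hv'⟩ := finrank_eq_one_iff'.1 d
      refine h1 ⟨v, fun hh => hv (Subtype.ext hh), fun i => ?_⟩
      obtain ⟨c, hc⟩ := hv' ⟨_, hinv i v v.2⟩
      exact ⟨c, (congrArg Subtype.val hc).symm⟩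
    · obtain ⟨f, hf, hk⟩ := W'.exists_le_ker_of_lt_top b1
      have hk' : W' = LinearMap.ker f := by
        refine Submodule.eq_of_le_of_finrank_le hk ?_
        have : LinearMap.ker f ≠ ⊤ := fun hh => hf (LinearMap.ker_eq_top.1 hh)
        have := Submodule.finrank_lt this
        simp at this
        omega
      have hfw : ∀ v, f v = (fun k => f (e3 k)) ⬝ᵥ v := fun v => by
        have : v = v 0 • e3 0 + v 1 • e3 1 + v 2 • e3 2 := by
          funext k; fin_cases k <;> simp [e3]
        conv_lhs => rw [this]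
        simp [dotProduct, Fin.sum_univ_three]; ring
      obtain ⟨u, hu⟩ : ∃ u, f u ≠ 0 := by
        by_contra hh
        push Not at hh
        exact hf (LinearMap.ext hh)
      refine h2 ⟨fun k => f (e3 k), fun hh => hu (by rw [hfw, hh, zero_dotProduct]),
        fun i => ⟨f (P i *ᵥ u) / f u, ?_⟩⟩
      funext k
      have m : e3 k - (f (e3 k) / f u) • u ∈ W' := by
        rw [hk', LinearMap.mem_ker, map_sub, map_smul, smul_eq_mul, div_mul_cancel₀ _ hu, sub_self]
      have m2 := hinv i _ m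
      rw [hk', LinearMap.mem_ker, mulVec_sub, mulVec_smul, map_sub, map_smul, hfw (P i *ᵥ e3 k),
        dotProduct_mulVec] at m2
      have m3 : ((fun k => f (e3 k)) ᵥ* P i) ⬝ᵥ e3 k = ((fun k => f (e3 k)) ᵥ* P i) k := by
        simp [dotProduct, e3]
      rw [m3] at m2
      simp only [smul_eq_mul, Pi.smul_apply] at m2 ⊢
      rw [sub_eq_zero.1 m2]; ring
  have hb := (IsSimpleModule.algebraMap_end_bijective_of_isAlgClosed (A := A) (V := Vc) ℂ).2
  let F : Module.End (Module.End A Vc) Vc :=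
    { toFun := toLin' M
      map_add' := map_add _
      map_smul' := fun φ x => by
        obtain ⟨c, rfl⟩ := hb φ
        simp }
  obtain ⟨r, hr⟩ := jacobson_density (R := A) F (Finset.univ.image e3)
  have : toLin' M = (r : Module.End ℂ Vc) := by
    apply (Pi.basisFun ℂ (Fin 3)).ext
    intro k
    have e : Pi.basisFun ℂ (Fin 3) k = e3 k := by
      funext j; simp [e3, Pi.single_apply]
    rw [e]
    exact hr (e3 k) (by simp)
  rw [this]; exact r.2

end

end Pool.Agent.Lib.MP_4e1a58_mp
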