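import Pool.Agent.Lib.MP_4e1a58_mp.AdmNF
import Pool.Agent.Lib.MP_4e1a58_mp.Tri
import Pool.Agent.Lib.MP_4e1a58_mp.DataA
import Pool.Agent.Lib.MP_4e1a58_mp.DataB1
import Pool.Agent.Lib.MP_4e1a58_mp.DataB2
import Pool.Agent.Lib.MP_4e1a58_mp.DataB3

/-! Every admissible pair is zero or equivalent to a normal form. -/

namespace Pool.Agent.Lib.MP_4e1a58_mp

open Matrix

noncomputable section

lemma admA' {x : List ℤ × List ℤ} (hx : x ∈ listA) (V : Val) : Admissible ((ptSt x).ev V) :=
  admB_sound (red := id) (fun _ => rfl) (List.all_eq_true.1 admA _ hx)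

lemma goalA_iota (X : Tn × Tn) (h : GoalA (iota X)) : GoalA X := by
  rcases h with h | ⟨x, hx, h⟩
  · left
    rw [← iota_iota X, h]
    ext <;> simp [iota]
  · have g := chkAll_sound (Or.inl rfl) goalA_equiv good_KA _ _ iotA_ok (ptSt x).iota
      (List.mem_map_of_mem (List.mem_map_of_mem hx)) (val2 0 0)
    rw [St.ev_iota] at g
    have g' := g (adm_iota (admA' hx _))
    rw [ev_ptSt] at g'
    exact goalA_equiv _ _ (by simpa only [iota_iota] using h.iota) g'

lemma listA_a : (listA.all fun x => x.2.isEmpty) = true := by decide +kernel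

lemma goalA_tau (r : Tn) (h : GoalA (tau r, 0)) : GoalA (r, 0) := by
  rcases h with h | ⟨x, hx, h⟩
  · left
    have : tau r = 0 := congrArg Prod.fst h
    ext a b c d
    · exact congrFun (congrFun (congrFun (congrFun this c) d) a) b
    · rfl
  · have g := chkAll_sound (Or.inl rfl) goalA_equiv good_KA _ _ tauA_ok (ptSt x).tau
      (List.mem_map_of_mem (List.mem_map_of_mem hx)) (val2 0 0)
    have e : pair (signed x.1) (signed x.2) = ((pair (signed x.1) (signed x.2)).1, 0) := by
      have : x.2 = [] := List.isEmpty_iff.1 (List.all_eq_true.1 listA_a _ hx)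
      rw [this]; rfl
    have a := admA' hx (val2 0 0)
    rw [St.ev_tau, ev_ptSt] at g
    rw [ev_ptSt, e] at a
    rw [e] at h
    exact goalA_equiv _ _ (equiv_tau h) (g (adm_tau a))

lemma goal_iota (X : Tn × Tn) (h : Goal (iota X)) : Goal X := by
  rcases h with h | ⟨i, h⟩
  · left
    rw [← iota_iota X, h]
    ext <;> simp [iota]
  · obtain ⟨S, hS, V, hV⟩ := rep_nf i
    have g := chkAll_sound (Or.inl rfl) goal_equiv good_KN _ _ iotB_ok S.iota
      (List.mem_map_of_mem hS) V
    rw [St.ev_iota, hV] at g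
    exact goal_equiv _ _ (by simpa only [iota_iota] using h.iota) (g (adm_iota (adm_nf i)))

lemma good_RP : Good GoalA sRP := by
  have st := step_sound (G := GoalA) (Or.inl rfl) goalA_equiv goalA_iota LA
  have h16 : ∀ S ∈ LA.take 16, Good GoalA S := good_KA
  have h := st 21 _ _ rfl okRP (st 20 _ _ rfl okA1 (st 19 _ _ rfl okA1b (st 18 _ _ rfl okA2g
    (st 17 _ _ rfl okA2 (st 16 _ _ rfl okB0 h16)))))
  exact h _ (List.mem_of_getElem? (i := 21) rfl)

def tabR : List (Nat × Nat) := [(5, 1), (7, 2), (11, 5), (13, 9), (17, 10), (19, 11), (29, 13), (31, 14),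
  (43, 17), (47, 18), (53, 19), (59, 20), (67, 22), (71, 23), (83, 26), (23, 28),
  (37, 29), (41, 32), (89, 37), (97, 38), (101, 41), (103, 45), (107, 46), (109, 47),
  (127, 49), (131, 50), (149, 53), (61, 55), (73, 56), (79, 59), (113, 64), (137, 65),
  (139, 68), (151, 73), (157, 74), (163, 77)]

def tabA : List (Nat × Nat) := [(167, 81), (173, 82), (179, 83), (181, 90), (191, 91), (193, 92), (197, 99), (199, 100),
  (211, 101), (223, 108), (227, 109), (229, 110), (379, 111), (383, 112), (389, 113), (233, 117),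
  (239, 118), (241, 119), (397, 120), (401, 121), (409, 122), (251, 126), (257, 127), (263, 128),
  (419, 129), (421, 130), (431, 131), (269, 135), (271, 136), (277, 137), (281, 138), (283, 139),
  (293, 140), (449, 141), (457, 142), (461, 143), (307, 144), (311, 145), (313, 146), (317, 147),
  (331, 148), (337, 149), (433, 150), (463, 151), (467, 152), (347, 153), (349, 154), (353, 155),
  (359, 156), (367, 157), (373, 158), (439, 159), (443, 160), (479, 161)]

def isa (i : I3) : Bool := I3.rec true false false i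

lemma rootRP : rootOK tabR (fun γ ε α β => (isa γ && !isa α) || (isa ε && !isa β))
    (fun _ _ _ _ => true) sRP = true := by decide +kernel

lemma rootA0 : (St.eqb sA0 ⟨sA0.r, zT4⟩) = true := by decide +kernel

lemma rootR0 : rootOK (tabR ++ tabA) (fun _ _ _ _ => false)
    (fun γ _ α _ => Nat.ble (Nat.succ γ.num) α.num) sR0 = true := by decide +kernel

def sl (T : Tn) (p : Fin 3 × Fin 3) : Mx := Matrix.of fun α γ => T γ p.2 α p.1

lemma transform_sl (g h : Mx) (T : Tn) (k l i j : Fin 3) :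
    transform g h T k l i j = ∑ β, ∑ ε, g j β * h ε l * (g * sl T (β, ε) * h) i k := by
  simp only [transform, sl, mul_apply, of_apply, Fin.sum_univ_three]; ring

lemma goalA_line {r : Tn} (hA : Admissible (r, 0)) {v : Vc} (hv : v ≠ 0)
    (h : ∀ p, ∃ x : ℂ, sl r p *ᵥ v = x • v) : GoalA (r, 0) := by
  obtain ⟨b, c, hd⟩ := first_col hv
  obtain ⟨g, e, -⟩ := inv_cols hd
  have hE : Equivalent (r, 0) (transform g (cols v b c) r, transform g (cols v b c) 0) :=
    ⟨g, _, 1, e, one_ne_zero, by simp, by simp⟩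
  have hA' := hE.adm hA
  have z : ∀ l i j, i ≠ 0 → transform g (cols v b c) r 0 l i j = 0 := fun l i j hi => by
    rw [transform_sl]
    refine Finset.sum_eq_zero fun β _ => Finset.sum_eq_zero fun ε _ => ?_
    obtain ⟨x, hx⟩ := h (β, ε)
    rw [col_eig e hx i hi, mul_zero]
  refine goalA_equiv _ _ hE (root_sound good_RP _ _ _ rootRP _ hA' ?_ ?_)
  · intro i j k l hz
    simp only [Bool.or_eq_true, Bool.and_eq_true] at hz
    rcases hz with ⟨a, b⟩ | ⟨a, b⟩
    · cases i <;> simp [isa] at a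
      exact z _ _ _ (by cases k <;> simp [isa, I3.fin] at b ⊢)
    · cases j <;> simp [isa] at a
      rw [hA'.1]
      exact neg_eq_zero.2 (z _ _ _ (by cases l <;> simp [isa, I3.fin] at b ⊢))
  · intro i j k l _
    simp [transform_zero]

def Lm (r : Tn) (N : Mx) : Mx := Matrix.of fun α γ => ∑ β, ∑ ε, r γ ε α β * N ε β

lemma Lm_mul {r : Tn} (hA : Admissible (r, 0)) (N N' : Mx) :
    Lm r N * Lm r N' = Lm r (Lm r N * N' + N * Lm r N') := by
  obtain ⟨h0, h1, -⟩ := hA
  dsimp only at h0 h1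
  ext β m
  have E : ∀ l n α t, ∑ s, r s l β α * r m n s t
      = ∑ s, r m s β t * r n l s α + ∑ s, r s n α t * r m l β s := fun l n α t => by
    have := h1 l m n α β t
    simp only [fun s => h0 l s α β, fun s => h0 n s t α, fun s => h0 l m s β] at this
    simp only [Fin.sum_univ_three] at this ⊢
    linear_combination -this
  have key : ∑ l, ∑ n, ∑ α, ∑ t, N l α * N' n t * ∑ s, r s l β α * r m n s t
      = ∑ l, ∑ n, ∑ α, ∑ t, N l α * N' n t *
        (∑ s, r m s β t * r n l s α + ∑ s, r s n α t * r m l β s) := by simp only [E]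
  simp only [Lm, mul_apply, Matrix.add_apply, of_apply, Fin.sum_univ_three] at key ⊢
  linear_combination key

lemma Lm_add (r : Tn) (N N' : Mx) : Lm r (N + N') = Lm r N + Lm r N' := by
  ext i j; simp only [Lm, Matrix.add_apply, of_apply, Fin.sum_univ_three]; ring

lemma Lm_smul (r : Tn) (c : ℂ) (N : Mx) : Lm r (c • N) = c • Lm r N := by
  ext i j; simp only [Lm, Matrix.smul_apply, of_apply, smul_eq_mul, Fin.sum_univ_three]; ring

lemma not_full {r : Tn} (hA : Admissible (r, 0))
    (h : ∀ M : Mx, toLin' M ∈ Algebra.adjoin ℂ (Set.range fun p => toLin' (sl r p))) : False := by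
  have h1 : ∀ f ∈ Algebra.adjoin ℂ (Set.range fun p => toLin' (sl r p)),
      ∃ (N : Mx) (c : ℂ), f = toLin' (Lm r N + c • 1) := by
    intro f hf
    induction hf using Algebra.adjoin_induction with
    | mem x hx =>
      obtain ⟨p, rfl⟩ := hx
      refine ⟨Matrix.single p.2 p.1 1, 0, ?_⟩
      dsimp only
      congr 1
      ext i j
      simp [Lm, sl, Matrix.single, ite_and, eq_comm]
    | algebraMap c =>
      refine ⟨0, c, ?_⟩
      have : Lm r 0 = 0 := by ext i j; simp [Lm]
      rw [this, zero_add, map_smul, toLin'_one, Algebra.algebraMap_eq_smul_one]; rfl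
    | add x y _ _ hx hy =>
      obtain ⟨N, c, rfl⟩ := hx
      obtain ⟨N', c', rfl⟩ := hy
      refine ⟨N + N', c + c', ?_⟩
      rw [← map_add, Lm_add, add_smul]; congr 1; abel
    | mul x y _ _ hx hy =>
      obtain ⟨N, c, rfl⟩ := hx
      obtain ⟨N', c', rfl⟩ := hy
      refine ⟨(Lm r N * N' + N * Lm r N') + (c' • N + c • N'), c * c', ?_⟩
      rw [Module.End.mul_eq_comp, ← toLin'_mul, Lm_add r (_ + _), ← Lm_mul hA, Lm_add, Lm_smul,
        Lm_smul]
      congr 1
      simp only [mul_add, add_mul, mul_smul_comm, smul_mul_assoc, mul_one, one_mul, smul_add, smul_smul,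
        mul_comm c' c]
      abel
  have h2 : ∀ M : Mx, ∃ (N : Mx) (c : ℂ), M = Lm r N + c • 1 := fun M => by
    obtain ⟨N, c, e⟩ := h1 _ (h M)
    exact ⟨N, c, toLin'.injective e⟩
  have h3 : ∀ M M' : Mx, ∃ N, M * M' - M' * M = Lm r N := fun M M' => by
    obtain ⟨N, c, rfl⟩ := h2 M
    obtain ⟨N', c', rfl⟩ := h2 M'
    refine ⟨(Lm r N * N' + N * Lm r N') + (-1 : ℂ) • (Lm r N' * N + N' * Lm r N), ?_⟩
    rw [Lm_add, Lm_smul, ← Lm_mul hA, ← Lm_mul hA]
    simp only [mul_add, add_mul, mul_smul_comm, smul_mul_assoc, mul_one, one_mul, smul_add, smul_smul,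
      mul_comm c' c, neg_smul, one_smul]
    abel
  obtain ⟨N, hN⟩ := h3 !![1, 0, 0; 0, 0, 0; 0, 0, -1] !![0, 1, 0; 0, 0, 1; -1 / 2, 0, 0]
  have hC : Lm r N * Lm r N * Lm r N = 1 := by
    rw [← hN]
    ext i j
    fin_cases i <;> fin_cases j <;> simp [mul_apply, Fin.sum_univ_three] <;> norm_num
  rw [Lm_mul hA, Lm_mul hA] at hC
  generalize (Lm r (Lm r N * N + N * Lm r N) * N + (Lm r N * N + N * Lm r N) * Lm r N) = N0 at hC
  have := Lm_mul hA N0 N0
  rw [Lm_add, hC, one_mul, one_mul, mul_one, hC] at this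
  have := congrFun (congrFun this 0) 0
  simp at this

theorem goalA_all {r : Tn} (hA : Admissible (r, 0)) : GoalA (r, 0) := by
  by_cases h1 : ∃ v : Vc, v ≠ 0 ∧ ∀ p, ∃ x : ℂ, sl r p *ᵥ v = x • v
  · obtain ⟨v, hv, h⟩ := h1
    exact goalA_line hA hv h
  by_cases h2 : ∃ w : Vc, w ≠ 0 ∧ ∀ p, ∃ x : ℂ, w ᵥ* sl r p = x • w
  · obtain ⟨w, hw, h⟩ := h2
    refine goalA_tau r (goalA_line (adm_tau hA) hw fun p => ?_)
    obtain ⟨x, hx⟩ := h (p.2, p.1)
    refine ⟨x, ?_⟩
    rw [← hx, ← vecMul_transpose]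
    rfl
  exact (not_full hA (burnside _ h1 h2)).elim

lemma good_A0 : Good Goal sA0 := by
  intro V hA
  have e := St.ev_eqb V rootA0
  have e' : sA0.ev V = ((sA0.ev V).1, 0) := by
    ext i j k l
    · rfl
    · rw [e]; simp [St.ev, tev, zT4]
  rw [e'] at hA ⊢
  exact goal_of_goalA (goalA_all hA)

lemma good_R0 : Good Goal sR0 := by
  have st := step_sound (G := Goal) (Or.inl rfl) goal_equiv goal_iota LB
  have h97 : ∀ S ∈ LB.take 97, Good Goal S := by
    intro S hS
    have e : LB.take 97 = KN ++ [sA0] := rfl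
    rw [e] at hS
    rcases List.mem_append.1 hS with h | h
    · exact good_KN S h
    · rw [List.mem_singleton.1 h]; exact good_A0
  have h := st 107 _ _ rfl okR0 (st 106 _ _ rfl okR3 (st 105 _ _ rfl okR2 (st 104 _ _ rfl okQ
    (st 103 _ _ rfl okG (st 102 _ _ rfl okN2 (st 101 _ _ rfl okN2b (st 100 _ _ rfl okN1
    (st 99 _ _ rfl okN1b (st 98 _ _ rfl okS1a (st 97 _ _ rfl okS1b h97))))))))))
  exact h _ (List.mem_of_getElem? (i := 107) rfl)

lemma goal_tri {X : Tn × Tn} (hA : Admissible X) (h : Tri (sl X.2)) : Goal X := by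
  obtain ⟨g, h, e, H⟩ := h
  have hE : Equivalent X (transform g h X.1, transform g h X.2) :=
    ⟨g, _, 1, e, one_ne_zero, by simp, by simp⟩
  refine goal_equiv _ _ hE (root_sound good_R0 _ _ _ rootR0 _ (hE.adm hA) (by simp) ?_)
  intro i j k l hz
  dsimp only
  rw [transform_sl]
  refine Finset.sum_eq_zero fun β _ => Finset.sum_eq_zero fun ε _ => ?_
  obtain ⟨a, b, c⟩ := H (β, ε)
  cases i <;> cases k <;> simp [I3.num] at hz <;> simp [I3.fin, a, b, c]

theorem goal_all {X : Tn × Tn} (hA : Admissible X) : Goal X := by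
  have := tri_or_tri (S := sl X.2) (T := sl (iota X).2) fun p q => by
    ext α n
    have := hA.2.2.1 p.2 q.2 n α p.1 q.1
    simp only [sl, iota, mul_apply, of_apply, Fin.sum_univ_three] at this ⊢
    linear_combination -this
  rcases this with h | h
  · exact goal_tri hA h
  · exact goal_iota _ (goal_tri (adm_iota hA) h)

end

end Pool.Agent.Lib.MP_4e1a58_mp
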