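import Pool.Agent.Lib.MP_4e1a58_mp.Check

/-! The normal forms as states of the checker. -/

namespace Pool.Agent.Lib.MP_4e1a58_mp

noncomputable section

def zT4 : T4 := tof fun _ _ _ _ => []
def zSt : St := ⟨zT4, zT4⟩

def dcode (γ ε α β : I3) : Nat :=
  1000 * (γ.num + 1) + 100 * (ε.num + 1) + 10 * (α.num + 1) + (β.num + 1)

def tensP (l : List (Pl × Nat)) (γ ε α β : I3) : Pl :=
  List.rec [] (fun x _ ih => cond (Nat.beq x.2 (dcode γ ε α β)) (padd x.1 ih) ih) l

lemma ev_tensP (V : Val) (l : List (Pl × Nat)) (γ ε α β : Fin 3) :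
    pev V (tensP l (toI γ) (toI ε) (toI α) (toI β)) =
      tens (l.map fun p => (pev V p.1, p.2)) γ ε α β := by
  induction l with
  | nil => rfl
  | cons x xs ih =>
    have e : tensP (x :: xs) (toI γ) (toI ε) (toI α) (toI β) =
      cond (Nat.beq x.2 (dcode (toI γ) (toI ε) (toI α) (toI β)))
        (padd x.1 (tensP xs (toI γ) (toI ε) (toI α) (toI β)))
        (tensP xs (toI γ) (toI ε) (toI α) (toI β)) := rfl
    rw [e]
    simp only [tens, List.map_cons, List.sum_cons] at ih ⊢
    simp only [dcode, num_toI]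
    split_ifs with h
    · rw [Nat.beq_eq.mpr h, cond_true, pev_padd, ih]
    · have : Nat.beq x.2 (1000 * (γ.val + 1) + 100 * (ε.val + 1) + 10 * (α.val + 1) + (β.val + 1))
          = false := by
        rw [← Bool.not_eq_true, Nat.beq_eq]; exact h
      rw [this, cond_false, ih, zero_add]

def pairP (lr la : List (Pl × Nat)) : St :=
  ⟨tof fun γ ε α β => psub (tensP lr γ ε α β) (tensP lr ε γ β α), tof (tensP la)⟩

lemma ev_pairP (V : Val) (lr la : List (Pl × Nat)) :
    (pairP lr la).ev V =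
      pair (lr.map fun p => (pev V p.1, p.2)) (la.map fun p => (pev V p.1, p.2)) := by
  ext i j k l <;> simp [St.ev, pairP, pair, tev, pev_psub, ev_tensP]

def signedP (l : List ℤ) : List (Pl × Nat) := l.map fun z => ([⟨z.sign, 1, 1, 1, 1⟩], z.natAbs)

def ptSt (x : List ℤ × List ℤ) : St := pairP (signedP x.1) (signedP x.2)

lemma ev_ptSt (V : Val) (x : List ℤ × List ℤ) :
    (ptSt x).ev V = pair (signed x.1) (signed x.2) := by
  simp [ptSt, ev_pairP, signedP, signed, Tm.ev, ev_one, Function.comp_def]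

def m1 : Pl := [⟨-1, 1, 1, 1, 1⟩]
def cubeSt0 (w : Tm) : St :=
  pairP [([w.mul w], 2311)] [([one], 2311), ([one], 3321), ([w], 3211), ([w], 3312)]
def cubeSt1 (w : Tm) : St :=
  pairP [(pneg [w.mul w], 3312)] [([one], 2311), ([one], 3321), (pneg [w], 3211), (pneg [w], 3312)]

def oneSts : List St :=
  [pairP [([xv 3], 2311)] [([one], 2311), (m1, 3211)],
   pairP [([xv 3], 2311)] [([one], 2311), (m1, 3211), ([one], 3311)],
   pairP [([xv 3], 3312)] [([one], 3321), (m1, 3312)],
   pairP [([xv 3], 3312)] [([one], 3321), (m1, 3312), ([one], 3311)]]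
def twoSts : List St :=
  [pairP [([xv 3], 2311)] [([one, xv 2], 2311), (psub [one] [xv 2], 3211)],
   pairP [([xv 3], 3312)] [([one, xv 2], 3321), (psub [one] [xv 2], 3312)]]

def KA : List St := listA.map ptSt
def KW (w : Tm) : List St := isolated.map ptSt ++ oneSts ++ [cubeSt0 w, cubeSt1 w] ++ twoSts
def KN : List St := KW (xv 2)

lemma ev_m1 (V : Val) : pev V m1 = -1 := by simp [m1, Tm.ev, ev_one]

lemma ev_oneSts (V : Val) (k : Fin 4) : (oneSts.getD k zSt).ev V = nf (.one k (V.x 3)) := by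
  fin_cases k <;> simp [oneSts, ev_pairP, nf, ev_m1, ev_xv V Nat.prime_three]

lemma ev_twoSts (V : Val) (k : Fin 2) :
    (twoSts.getD k zSt).ev V = nf (.two k (V.x 2) (V.x 3)) := by
  fin_cases k <;>
    simp [twoSts, ev_pairP, nf, pev_psub, ev_xv V Nat.prime_three, ev_xv V Nat.prime_two]

lemma ev_cube0 (V : Val) (w : Tm) (h : w.ev V ^ 3 = 1) :
    (cubeSt0 w).ev V = nf (.cube 0 (w.ev V) h) := by
  simp [cubeSt0, ev_pairP, nf, Tm.ev_mul, sq]

lemma ev_cube1 (V : Val) (w : Tm) (h : w.ev V ^ 3 = 1) :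
    (cubeSt1 w).ev V = nf (.cube 1 (w.ev V) h) := by
  simp [cubeSt1, ev_pairP, nf, Tm.ev_mul, sq, pev_pneg]

def Goal (X : Tn × Tn) : Prop := X = 0 ∨ ∃ i, Equivalent X (nf i)
def GoalA (X : Tn × Tn) : Prop :=
  X = 0 ∨ ∃ x ∈ listA, Equivalent X (pair (signed x.1) (signed x.2))

lemma goal_equiv (X Y : Tn × Tn) (h : Equivalent X Y) (hY : Goal Y) : Goal X := by
  rcases hY with rfl | ⟨i, hi⟩
  · exact Or.inl h.zero
  · exact Or.inr ⟨i, h.trans hi⟩

lemma goalA_equiv (X Y : Tn × Tn) (h : Equivalent X Y) (hY : GoalA Y) : GoalA X := by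
  rcases hY with rfl | ⟨i, hi, hj⟩
  · exact Or.inl h.zero
  · exact Or.inr ⟨i, hi, h.trans hj⟩

lemma length_isolated : isolated.length = 88 := by decide +kernel

lemma iso_nf {x : List ℤ × List ℤ} (hx : x ∈ isolated) :
    ∃ k, pair (signed x.1) (signed x.2) = nf (.iso k) := by
  obtain ⟨n, hn, rfl⟩ := List.getElem_of_mem hx
  refine ⟨⟨n, length_isolated ▸ hn⟩, ?_⟩
  simp only [nf, List.getD_eq_getElem _ _ hn]

lemma goal_of_goalA {X : Tn × Tn} (h : GoalA X) : Goal X := by
  rcases h with h | ⟨x, hx, h⟩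
  · exact Or.inl h
  · obtain ⟨k, hk⟩ := iso_nf (x := x) (by simp [isolated, hx])
    exact Or.inr ⟨_, hk ▸ h⟩

lemma good_KA : ∀ S ∈ KA, Good GoalA S := by
  intro S hS V _
  obtain ⟨x, hx, rfl⟩ := List.mem_map.1 hS
  exact Or.inr ⟨x, hx, by rw [ev_ptSt]; exact Equivalent.refl _⟩

def cubeE : Pl := [⟨-1, 1, 1, 1, 1⟩, ⟨1, 1, 8, 1, 1⟩]

lemma ev_cubeE (V : Val) : pev V cubeE = (xv 2).ev V ^ 3 - 1 := by
  have : ev V.x 8 = V.x 2 ^ 3 := by
    rw [show (8 : ℕ) = 2 ^ 3 from rfl, ev_pow, ev_prime _ Nat.prime_two]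
  rw [ev_xv V Nat.prime_two]
  simp [cubeE, Tm.ev, ev_one, this]; ring

lemma cube_cond {S : St} {e : Spec} (h : peq (evS S e) cubeE = true) {V : Val}
    (hA : Admissible (S.ev V)) : (xv 2).ev V ^ 3 = 1 := by
  have := peq_ev V h
  rw [ev_evS hA, ev_cubeE] at this
  linear_combination -this

lemma good_KN : ∀ S ∈ KN, Good Goal S := by
  intro S hS V hA
  simp only [KN, KW, List.mem_append] at hS
  rcases hS with ((hS | hS) | hS) | hS
  · obtain ⟨x, hx, rfl⟩ := List.mem_map.1 hS
    obtain ⟨k, hk⟩ := iso_nf hx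
    exact Or.inr ⟨.iso k, by rw [ev_ptSt, hk]; exact Equivalent.refl _⟩
  · obtain ⟨n, hn, rfl⟩ := List.getElem_of_mem hS
    have := ev_oneSts V ⟨n, hn⟩
    rw [List.getD_eq_getElem _ _ hn] at this
    exact Or.inr ⟨_, by rw [this]; exact Equivalent.refl _⟩
  · simp only [List.mem_cons, List.not_mem_nil, or_false] at hS
    rcases hS with rfl | rfl
    · have h := cube_cond (e := [(m1, 2160)]) (by decide +kernel) hA
      exact Or.inr ⟨_, by rw [ev_cube0 V _ h]; exact Equivalent.refl _⟩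
    · have h := cube_cond (e := [(m1, 2160)]) (by decide +kernel) hA
      exact Or.inr ⟨_, by rw [ev_cube1 V _ h]; exact Equivalent.refl _⟩
  · obtain ⟨n, hn, rfl⟩ := List.getElem_of_mem hS
    have := ev_twoSts V ⟨n, hn⟩
    rw [List.getD_eq_getElem _ _ hn] at this
    exact Or.inr ⟨_, by rw [this]; exact Equivalent.refl _⟩

def St.tau (S : St) : St := ⟨tof fun γ ε α β => tget S.r α β γ ε, zT4⟩

lemma St.ev_tau (V : Val) (S : St) : S.tau.ev V = (MP_4e1a58_mp.tau (S.ev V).1, 0) := by
  ext i j k l <;> simp [St.ev, St.tau, tev, MP_4e1a58_mp.tau, zT4]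

def chkAll (K : List St) (L : List St) : List Tree → Bool :=
  List.rec (fun _ => true)
    (fun S _ ih ts => List.rec false (fun t ts _ => S.seq (check false K t) && ih ts) ts) L

lemma chkAll_sound {G : Tn × Tn → Prop} (h0 : G 0) (hE : ∀ X Y, Equivalent X Y → G Y → G X)
    {K : List St} (hK : ∀ S ∈ K, Good G S) (L : List St) (ts : List Tree)
    (h : chkAll K L ts = true) : ∀ S ∈ L, Good G S := by
  induction L generalizing ts with
  | nil => simp
  | cons S L ih =>
    cases ts with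
    | nil => exact absurd h (by simp [chkAll])
    | cons t ts =>
      have e : chkAll K (S :: L) (t :: ts) = (S.seq (check false K t) && chkAll K L ts) := rfl
      rw [e, Bool.and_eq_true, St.seq_eq] at h
      intro S' hS'
      rcases List.mem_cons.1 hS' with rfl | hS'
      · exact check_sound h0 hE (fun h => absurd h (by simp)) hK t _ h.1
      · exact ih ts h.2 S' hS'

lemma step_sound {G : Tn × Tn → Prop} (h0 : G 0) (hE : ∀ X Y, Equivalent X Y → G Y → G X)
    (hI : ∀ X, G (iota X) → G X) (L : List St) (n : ℕ) (S : St) (t : Tree)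
    (hn : L[n]? = some S) (h : S.seq (check true (L.take n) t) = true)
    (hK : ∀ S ∈ L.take n, Good G S) : ∀ S ∈ L.take (n + 1), Good G S := by
  intro S' hS'
  rw [List.take_add_one, hn] at hS'
  rcases List.mem_append.1 hS' with h1 | h1
  · exact hK _ h1
  · simp only [Option.toList_some, List.mem_singleton] at h1
    rw [St.seq_eq] at h
    exact h1 ▸ check_sound h0 hE (fun _ => hI) hK t _ h

def lookN (L : List (Nat × Nat)) (n : Nat) : Nat :=
  List.rec 0 (fun x _ ih => cond (Nat.beq x.1 n) x.2 ih) L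

def entry (X : Tn × Tn) (n : ℕ) : ℂ :=
  (if n < 81 then X.1 else X.2) (dg (n / 27)).fin (dg (n / 9)).fin (dg (n / 3)).fin (dg n).fin

lemma entry1 (X : Tn × Tn) (i j k l : I3) :
    entry X (code i j k l) = X.1 i.fin j.fin k.fin l.fin := by
  cases i <;> cases j <;> cases k <;> cases l <;> rfl

lemma entry2 (X : Tn × Tn) (i j k l : I3) :
    entry X (81 + code i j k l) = X.2 i.fin j.fin k.fin l.fin := by
  cases i <;> cases j <;> cases k <;> cases l <;> rfl

def isVar (tab : List (Nat × Nat)) (p : Pl) (n : Nat) : Bool :=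
  single p fun t => isPr t.m && peq p [xv t.m] && Nat.beq (lookN tab t.m) n

def valX (X : Tn × Tn) (tab : List (Nat × Nat)) : Val :=
  ⟨fun q => entry X (lookN tab q), fun _ => 1, fun _ => one_ne_zero⟩

lemma isVar_ev (X : Tn × Tn) {tab : List (Nat × Nat)} {p : Pl} {n : Nat}
    (h : isVar tab p n = true) : pev (valX X tab) p = entry X n := by
  obtain ⟨t, -, h2⟩ := single_spec h
  simp only [Bool.and_eq_true] at h2
  rw [peq_ev _ h2.1.2, pev_cons, pev_nil, add_zero, ev_xv _ (isPr_prime h2.1.1),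
    ← Nat.eq_of_beq_eq_true h2.2]
  rfl

def rootOK (tab : List (Nat × Nat)) (zr za : I3 → I3 → I3 → I3 → Bool) (S : St) : Bool :=
  all4 (fun i j k l => (isNil (tget S.r i j k l) &&
      (zr i j k l || Nat.beq (code i j k l) (code j i l k))) ||
    isVar tab (tget S.r i j k l) (code i j k l) ||
    isVar tab (pneg (tget S.r i j k l)) (code j i l k)) &&
  all4 fun i j k l => (isNil (tget S.a i j k l) && za i j k l) ||
    isVar tab (tget S.a i j k l) (81 + code i j k l)

lemma root_sound {G : Tn × Tn → Prop} {S : St} (hS : Good G S) (tab : List (Nat × Nat))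
    (zr za : I3 → I3 → I3 → I3 → Bool) (h : rootOK tab zr za S = true) (X : Tn × Tn)
    (hX : Admissible X)
    (h1 : ∀ i j k l, zr i j k l = true → X.1 i.fin j.fin k.fin l.fin = 0)
    (h2 : ∀ i j k l, za i j k l = true → X.2 i.fin j.fin k.fin l.fin = 0) : G X := by
  have e : S.ev (valX X tab) = X := by
    simp only [rootOK, Bool.and_eq_true] at h
    ext i j k l
    · have := all4_spec h.1 (toI i) (toI j) (toI k) (toI l)
      simp only [Bool.or_eq_true, Bool.and_eq_true] at this
      show pev _ (tget S.r (toI i) (toI j) (toI k) (toI l)) = _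
      rcases this with (⟨a, b | b⟩ | a) | a
      · rw [isNil_ev _ a]; simpa using (h1 _ _ _ _ b).symm
      · rw [isNil_ev _ a]
        have c1 := entry1 X (toI i) (toI j) (toI k) (toI l)
        rw [Nat.eq_of_beq_eq_true b, entry1] at c1
        simp only [fin_toI] at c1
        have c2 := hX.1 i j k l
        linear_combination (-1 / 2) * c2 + (1 / 2) * c1
      · rw [isVar_ev X a, entry1]; simp
      · have c := isVar_ev X a
        rw [pev_pneg, entry1] at c
        simp only [fin_toI] at c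
        rw [hX.1 i j k l, ← c, neg_neg]
    · have := all4_spec h.2 (toI i) (toI j) (toI k) (toI l)
      simp only [Bool.or_eq_true, Bool.and_eq_true] at this
      show pev _ (tget S.a (toI i) (toI j) (toI k) (toI l)) = _
      rcases this with ⟨a, b⟩ | a
      · rw [isNil_ev _ a]; simpa using (h2 _ _ _ _ b).symm
      · rw [isVar_ev X a, entry2]; simp
  have := hS (valX X tab)
  rw [e] at this
  exact this hX

end

end Pool.Agent.Lib.MP_4e1a58_mp
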