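import Pool.Agent.Lib.MP_4e1a58_mp.AdmNF

/-! Covariants separating the normal forms. -/

namespace Pool.Agent.Lib.MP_4e1a58_mp

open Matrix

set_option linter.constructorNameAsVariable false

noncomputable section

inductive Ex
  | var (i : I3)
  | one
  | mul (e f : Ex)
  | trs (e f : Ex)
  | add (e f : Ex)
  | sc (z : Int) (k : Nat) (e : Ex)
  | app (t s side : Bool) (e : Ex)

def swU (T : Tn) : Tn := fun γ ε α β => T ε γ α β
def apL (T : Tn) (N : Mx) : Mx := Matrix.of fun α γ => ∑ β, ∑ ε, T γ ε α β * N ε β
def apR (T : Tn) (N : Mx) : Mx := Matrix.of fun β ε => ∑ α, ∑ γ, T γ ε α β * N γ α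
def sel (t s : Bool) (X : Tn × Tn) : Tn := cond s (swU (cond t X.2 X.1)) (cond t X.2 X.1)

def Ex.ev (cf : ℕ → ℂ) (X : Tn × Tn) (M : I3 → Mx) : Ex → Mx
  | .var i => M i
  | .one => 1
  | .mul e f => e.ev cf X M * f.ev cf X M
  | .trs e f => trace (e.ev cf X M) • f.ev cf X M
  | .add e f => e.ev cf X M + f.ev cf X M
  | .sc z k e => ((z : ℂ) * cf k) • e.ev cf X M
  | .app t s side e => cond side (apR (sel t s X) (e.ev cf X M)) (apL (sel t s X) (e.ev cf X M))

def Ex.deg (e : Ex) : Nat :=
  Ex.rec (fun _ => 0) 0 (fun _ _ a b => a + b) (fun _ _ a b => a + b) (fun _ _ a _ => a)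
    (fun _ _ _ a => a) (fun _ _ _ _ a => a + 1) e

def Ex.hom (e : Ex) : Bool :=
  Ex.rec (fun _ => true) true (fun _ _ a b => a && b) (fun _ _ a b => a && b)
    (fun e f a b => a && b && Nat.beq e.deg f.deg) (fun _ _ _ a => a) (fun _ _ _ _ a => a) e

lemma apL_s1 (h : Mx) (T : Tn) (N : Mx) : apL (s1 h T) N = apL T N * h := by
  ext i j; simp only [apL, s1, mul_apply, of_apply, Fin.sum_univ_three]; ring
lemma apL_s2 (h : Mx) (T : Tn) (N : Mx) : apL (s2 h T) N = apL T (h * N) := by
  ext i j; simp only [apL, s2, mul_apply, of_apply, Fin.sum_univ_three]; ring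
lemma apL_s3 (h : Mx) (T : Tn) (N : Mx) : apL (s3 h T) N = h * apL T N := by
  ext i j; simp only [apL, s3, mul_apply, of_apply, Fin.sum_univ_three]; ring
lemma apL_s4 (h : Mx) (T : Tn) (N : Mx) : apL (s4 h T) N = apL T (N * h) := by
  ext i j; simp only [apL, s4, mul_apply, of_apply, Fin.sum_univ_three]; ring
lemma apR_s1 (h : Mx) (T : Tn) (N : Mx) : apR (s1 h T) N = apR T (h * N) := by
  ext i j; simp only [apR, s1, mul_apply, of_apply, Fin.sum_univ_three]; ring
lemma apR_s2 (h : Mx) (T : Tn) (N : Mx) : apR (s2 h T) N = apR T N * h := by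
  ext i j; simp only [apR, s2, mul_apply, of_apply, Fin.sum_univ_three]; ring
lemma apR_s3 (h : Mx) (T : Tn) (N : Mx) : apR (s3 h T) N = apR T (N * h) := by
  ext i j; simp only [apR, s3, mul_apply, of_apply, Fin.sum_univ_three]; ring
lemma apR_s4 (h : Mx) (T : Tn) (N : Mx) : apR (s4 h T) N = h * apR T N := by
  ext i j; simp only [apR, s4, mul_apply, of_apply, Fin.sum_univ_three]; ring
lemma apL_smul (c d : ℂ) (T : Tn) (N : Mx) : apL (c • T) (d • N) = (d * c) • apL T N := by
  ext i j
  simp only [apL, of_apply, Fin.sum_univ_three, Pi.smul_apply, Matrix.smul_apply, smul_eq_mul]; ring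
lemma apR_smul (c d : ℂ) (T : Tn) (N : Mx) : apR (c • T) (d • N) = (d * c) • apR T N := by
  ext i j
  simp only [apR, of_apply, Fin.sum_univ_three, Pi.smul_apply, Matrix.smul_apply, smul_eq_mul]; ring

lemma swU_tr (g h : Mx) (c : ℂ) (T : Tn) :
    swU (c • transform g h T) = c • transform g h (swU T) := by
  funext k l i j
  simp only [swU, transform, Pi.smul_apply, smul_eq_mul, Fin.sum_univ_three]; ring

lemma ev_tr {g h : Mx} (e1 : g * h = 1) (c : ℂ) (cf : ℕ → ℂ) (X : Tn × Tn) (M : I3 → Mx) (e : Ex)
    (he : e.hom = true) :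
    e.ev cf (c • transform g h X.1, c • transform g h X.2) M =
      c ^ e.deg • (g * e.ev cf X (fun i => h * M i * g) * h) := by
  have e2 : h * g = 1 := mul_eq_one_comm.1 e1
  have e3 : ∀ A : Mx, h * (g * A) = A := fun A => by rw [← mul_assoc, e2, one_mul]
  induction e with
  | var i =>
    show M i = c ^ 0 • (g * (h * M i * g) * h)
    rw [pow_zero, one_smul, ← mul_assoc, ← mul_assoc, e1, one_mul, mul_assoc, e1, mul_one]
  | one =>
    show (1 : Mx) = c ^ 0 • (g * 1 * h)
    rw [pow_zero, one_smul, mul_one, e1]
  | mul e f ihe ihf =>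
    have he' : (e.hom && f.hom) = true := he
    rw [Bool.and_eq_true] at he'
    show _ * _ = c ^ (e.deg + f.deg) • (g * (_ * _) * h)
    rw [ihe he'.1, ihf he'.2]
    simp only [smul_mul_assoc, mul_smul_comm, smul_smul, mul_assoc, e3, pow_add]
    rw [mul_comm (c ^ f.deg)]
  | trs e f ihe ihf =>
    have he' : (e.hom && f.hom) = true := he
    rw [Bool.and_eq_true] at he'
    show trace _ • _ = c ^ (e.deg + f.deg) • (g * (trace _ • _) * h)
    rw [ihe he'.1, ihf he'.2, trace_smul, trace_mul_comm, e3]
    simp only [smul_mul_assoc, mul_smul_comm, smul_smul, pow_add, smul_eq_mul]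
    congr 1; ring
  | add e f ihe ihf =>
    have he' : (e.hom && f.hom && Nat.beq e.deg f.deg) = true := he
    simp only [Bool.and_eq_true] at he'
    show _ + _ = c ^ e.deg • (g * (_ + _) * h)
    rw [ihe he'.1.1, ihf he'.1.2, ← Nat.eq_of_beq_eq_true he'.2, mul_add, add_mul, smul_add]
  | sc z k e ihe =>
    show _ • _ = c ^ e.deg • (g * (_ • _) * h)
    rw [ihe he]
    simp only [smul_mul_assoc, mul_smul_comm, smul_smul, mul_comm]
  | app t s side e ihe =>
    have hs : sel t s (c • transform g h X.1, c • transform g h X.2) =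
        c • transform g h (sel t s X) := by
      cases t <;> cases s <;> simp only [sel, cond_true, cond_false, swU_tr]
    show cond side (apR _ _) (apL _ _) = c ^ (e.deg + 1) • (g * cond side (apR _ _) (apL _ _) * h)
    rw [hs, ihe he]
    cases side
    · simp only [cond_false, apL_smul, transform_eq, apL_s1, apL_s2, apL_s3, apL_s4, mul_assoc,
        e3, e2, mul_one, pow_succ]
    · simp only [cond_true, apR_smul, transform_eq, apR_s1, apR_s2, apR_s3, apR_s4, mul_assoc,
        e3, e2, mul_one, pow_succ]

lemma ev_equiv {X Y : Tn × Tn} (h : Equivalent X Y) (cf : ℕ → ℂ) (e : Ex) (he : e.hom = true)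
    (hz : ∀ M, e.ev cf X M = 0) (M : I3 → Mx) : e.ev cf Y M = 0 := by
  obtain ⟨g, h, c, e1, -, a1, a2⟩ := h
  have : Y = (c • transform g h X.1, c • transform g h X.2) := Prod.ext a1 a2
  rw [this, ev_tr e1 c cf X M e he, hz]; simp

lemma ev_zero_pair (cf : ℕ → ℂ) (e : Ex) (he : e.hom = true) (hd : e.deg ≠ 0) (M : I3 → Mx) :
    e.ev cf 0 M = 0 := by
  have := ev_tr (g := 1) (h := 1) (by simp) 0 cf 0 M e he
  rw [zero_pow hd, zero_smul, zero_smul, zero_smul] at this
  exact this

def selP (t s : Bool) (S : St) (γ ε α β : I3) : Pl :=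
  cond s (tget (cond t S.a S.r) ε γ α β) (tget (cond t S.a S.r) γ ε α β)

def Ex.evK (cP : Nat → Pl) (S : St) (M : I3 → M3) (e : Ex) : (M3 → Bool) → Bool :=
  Ex.rec (fun i k => k (M i)) (fun k => k mone)
    (fun _ _ a b k => a fun A => b fun B => mseq (mmul A B) k)
    (fun _ _ a b k => a fun A => seqP (sum3 fun i => mget A i i) fun t => b fun B =>
      mseq (mof fun i j => pmul t (mget B i j)) k)
    (fun _ _ a b k => a fun A => b fun B => mseq (mof fun i j => padd (mget A i j) (mget B i j)) k)
    (fun z n _ a k => a fun A =>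
      mseq (mof fun i j => pmul (tmul ⟨z, 1, 1, 1, 1⟩ (cP n)) (mget A i j)) k)
    (fun t s side _ a k => a fun A => mseq (cond side
      (mof fun β ε => sum3 fun α => sum3 fun γ => pmul (selP t s S γ ε α β) (mget A γ α))
      (mof fun α γ => sum3 fun β => sum3 fun ε => pmul (selP t s S γ ε α β) (mget A ε β))) k) e

lemma evK_spec (V : Val) (cP : Nat → Pl) (S : St) (M : I3 → M3) (e : Ex) :
    ∃ R : M3, (∀ k, e.evK cP S M k = k R) ∧
      mev V R = e.ev (fun n => pev V (cP n)) (S.ev V) fun i => mev V (M i) := by
  induction e with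
  | var i => exact ⟨M i, fun _ => rfl, rfl⟩
  | one => exact ⟨mone, fun _ => rfl, ev_mone V⟩
  | mul e f ihe ihf =>
    obtain ⟨A, a1, a2⟩ := ihe
    obtain ⟨B, b1, b2⟩ := ihf
    refine ⟨mmul A B, fun k => ?_, by rw [ev_mmul, a2, b2]; rfl⟩
    show (e.evK cP S M fun A => f.evK cP S M fun B => mseq (mmul A B) k) = _
    rw [a1, b1, mseq_eq]
  | trs e f ihe ihf =>
    obtain ⟨A, a1, a2⟩ := ihe
    obtain ⟨B, b1, b2⟩ := ihf
    refine ⟨mof fun i j => pmul (sum3 fun i => mget A i i) (mget B i j), fun k => ?_, ?_⟩
    · show (e.evK cP S M fun A => seqP (sum3 fun i => mget A i i) fun t => f.evK cP S M fun B =>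
        mseq (mof fun i j => pmul t (mget B i j)) k) = _
      rw [a1, seqP_eq, b1, mseq_eq]
    · show _ = trace _ • _
      rw [← a2, ← b2]
      ext i j
      simp [mev, pev_pmul, pev_sum3, trace]
  | add e f ihe ihf =>
    obtain ⟨A, a1, a2⟩ := ihe
    obtain ⟨B, b1, b2⟩ := ihf
    refine ⟨mof fun i j => padd (mget A i j) (mget B i j), fun k => ?_, ?_⟩
    · show (e.evK cP S M fun A => f.evK cP S M fun B =>
        mseq (mof fun i j => padd (mget A i j) (mget B i j)) k) = _
      rw [a1, b1, mseq_eq]
    · show _ = _ + _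
      rw [← a2, ← b2]
      ext i j
      simp [mev, pev_padd]
  | sc z n e ihe =>
    obtain ⟨A, a1, a2⟩ := ihe
    refine ⟨mof fun i j => pmul (tmul ⟨z, 1, 1, 1, 1⟩ (cP n)) (mget A i j), fun k => ?_, ?_⟩
    · show (e.evK cP S M fun A =>
        mseq (mof fun i j => pmul (tmul ⟨z, 1, 1, 1, 1⟩ (cP n)) (mget A i j)) k) = _
      rw [a1, mseq_eq]
    · show _ = _ • _
      rw [← a2]
      ext i j
      simp [mev, pev_pmul, pev_tmul, Tm.ev, ev_one]
  | app t s side e ihe =>
    obtain ⟨A, a1, a2⟩ := ihe
    refine ⟨cond side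
      (mof fun β ε => sum3 fun α => sum3 fun γ => pmul (selP t s S γ ε α β) (mget A γ α))
      (mof fun α γ => sum3 fun β => sum3 fun ε => pmul (selP t s S γ ε α β) (mget A ε β)),
      fun k => ?_, ?_⟩
    · show (e.evK cP S M fun A => mseq _ k) = _
      rw [a1, mseq_eq]
    · show _ = cond side (apR _ _) (apL _ _)
      rw [← a2]
      ext i j
      cases side <;> cases t <;> cases s <;>
        simp only [mev, cond_true, cond_false, mget_mof, pev_sum3, pev_pmul, apL, apR, of_apply] <;>
        rfl

def prm (n : Nat) : Nat := [5, 7, 11, 13, 17, 19, 23, 29, 31, 37, 41, 43, 47, 53, 59, 61, 67, 71,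
  73, 79, 83, 89, 97, 101, 103, 107, 109].getD n 0
def tabM : List (Nat × Nat) := (List.range 27).map fun n => (prm n, n)
def symM (k : I3) : M3 := mof fun i j => [xv (prm (code .a k i j))]
def cM (p q : Nat) (k : Nat) : Pl := [[one], [xv p], [xv q], [xv (p * p)], [xv (p * q)]].getD k [xv (q * q)]
def cF (a b : ℂ) (k : Nat) : ℂ := [1, a, b, a * a, a * b].getD k (b * b)

lemma ev_xv' (V : Val) (n : ℕ) : (xv n).ev V = ev V.x n := by simp [xv, Tm.ev, ev_one]

lemma ev_cM (V : Val) {p q : ℕ} (hp : p.Prime) (hq : q.Prime) :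
    (fun k => pev V (cM p q k)) = cF (V.x p) (V.x q) := by
  funext k
  rcases k with _ | _ | _ | _ | _ | k <;>
    simp [cM, cF, ev_xv', ev_mul, ev_prime _ hp, ev_prime _ hq]

def idx : Label → Nat
  | .iso k => k
  | .one k _ => 88 + k
  | .cube k _ _ => 92 + k
  | .two k _ _ => 94 + k
def P1 : Label → ℂ
  | .cube _ ω _ => ω
  | .two _ κ _ => κ
  | _ => 0
def P2 : Label → ℂ
  | .one _ μ => μ
  | .two _ _ ρ => ρ
  | _ => 0
def PU : Label → ℂ
  | .cube _ ω _ => ω
  | _ => 1

lemma PU_ne (i : Label) : PU i ≠ 0 := by
  cases i with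
  | cube k ω h => rintro (rfl : ω = 0); simp at h
  | _ => exact one_ne_zero

def valM (i : Label) (a b : ℂ) (M : I3 → Mx) : Val :=
  ⟨fun p => if p = 2 then P1 i else if p = 3 then P2 i else if p = 113 then a else
    if p = 127 then b else M (dg (lookN tabM p / 9)) (dg (lookN tabM p / 3)).fin (dg (lookN tabM p)).fin,
   fun _ => PU i, fun _ => PU_ne i⟩

lemma ev_symM (i : Label) (a b : ℂ) (M : I3 → Mx) : (fun k => mev (valM i a b M) (symM k)) = M := by
  funext k
  have : ∀ p q : I3, pev (valM i a b M) [xv (prm (code .a k p q))] = M k p.fin q.fin := by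
    intro p q
    rw [pev_cons, pev_nil, add_zero, ev_xv]
    · cases k <;> cases p <;> cases q <;> rfl
    · cases k <;> cases p <;> cases q <;> exact isPr_prime (by decide +kernel)
  ext p q
  simp only [mev, symM, mget_mof, this, fin_toI]

lemma KW_tail (w : Tm) (n : ℕ) : (KW w).getD (88 + n) zSt =
    (oneSts ++ ([cubeSt0 w, cubeSt1 w] ++ twoSts)).getD n zSt := by
  have hk : (isolated.map ptSt).length = 88 := by simp [length_isolated]
  simp only [KW, List.append_assoc]
  rw [List.getD_append_right _ _ _ _ (by omega), hk, Nat.add_sub_cancel_left]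

lemma ev_KW (i : Label) (V : Val) (h2 : V.x 2 = P1 i) (h3 : V.x 3 = P2 i) (w : Tm)
    (hw : ∀ k ω h, i = .cube k ω h → w.ev V = ω) : ((KW w).getD (idx i) zSt).ev V = nf i := by
  cases i with
  | iso k =>
    have hk : k.val < (isolated.map ptSt).length := by simp [length_isolated]
    have : (KW w).getD k zSt = ptSt (isolated.getD k ([], [])) := by
      simp only [KW, List.append_assoc]
      rw [List.getD_append _ _ _ _ hk, List.getD_eq_getElem _ _ hk,
        List.getD_eq_getElem _ _ (by rw [length_isolated]; exact k.2), List.getElem_map]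
    show ((KW w).getD k zSt).ev V = _
    rw [this]; exact ev_ptSt _ _
  | one k μ =>
    have : (KW w).getD (88 + k) zSt = oneSts.getD k zSt := by
      rw [KW_tail]; fin_cases k <;> rfl
    show ((KW w).getD (88 + k) zSt).ev V = _
    rw [this, ev_oneSts, h3]; rfl
  | cube k ω h =>
    obtain rfl := hw k ω h rfl
    show ((KW w).getD (92 + k) zSt).ev V = _
    rw [show 92 + k.val = 88 + (4 + k.val) by omega, KW_tail]
    fin_cases k
    · exact ev_cube0 V w h
    · exact ev_cube1 V w h
  | two k κ ρ =>
    have : (KW w).getD (94 + k) zSt = twoSts.getD k zSt := by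
      rw [show 94 + k.val = 88 + (6 + k.val) by omega, KW_tail]
      fin_cases k <;> simp [oneSts, twoSts]
    show ((KW w).getD (94 + k) zSt).ev V = _
    rw [this, ev_twoSts, h2, h3]; rfl

lemma ev_KN (i : Label) (a b : ℂ) (M : I3 → Mx) :
    (KN.getD (idx i) zSt).ev (valM i a b M) = nf i :=
  ev_KW i _ rfl rfl _ fun k ω h e => by subst e; rw [ev_xv _ Nat.prime_two]; rfl

lemma ev_KU (i : Label) (a b : ℂ) (M : I3 → Mx) :
    ((KW (uv 2)).getD (idx i) zSt).ev (valM i a b M) = nf i :=
  ev_KW i _ rfl rfl _ fun k ω h e => by subst e; rw [ev_uv _ Nat.prime_two]; rfl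

def redI (j : Nat) (p : Pl) : Pl := cond (Nat.beq j 92 || Nat.beq j 93) (red3 p) p

lemma ev_redI (i : Label) (a b : ℂ) (M : I3 → Mx) (p : Pl) :
    pev (valM i a b M) (redI (idx i) p) = pev (valM i a b M) p := by
  unfold redI
  cases h : (Nat.beq (idx i) 92 || Nat.beq (idx i) 93)
  · rfl
  · simp only [Bool.or_eq_true, Nat.beq_eq] at h
    rw [cond_true]
    cases i with
    | cube k ω h3 => exact ev_red3 (V := valM (.cube k ω h3) a b M) h3 p
    | iso k => exfalso; have := k.2; simp only [idx] at h; omega
    | one k _ => exfalso; have := k.2; simp only [idx] at h; omega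
    | two k _ _ => exfalso; simp only [idx] at h; omega

def zeroB (j : Nat) (e : Ex) : Bool :=
  (KN.getD j zSt).seq fun S => e.evK (cM 2 3) S symM fun R =>
    all2 fun a b => isNil (redI j (mget R a b))

lemma zeroB_spec {i : Label} {e : Ex} (h : zeroB (idx i) e = true) (M : I3 → Mx) :
    e.ev (cF (P1 i) (P2 i)) (nf i) M = 0 := by
  obtain ⟨R, r1, r2⟩ := evK_spec (valM i 0 0 M) (cM 2 3) (KN.getD (idx i) zSt) symM e
  rw [zeroB, St.seq_eq, r1] at h
  rw [ev_cM _ Nat.prime_two Nat.prime_three, ev_KN, ev_symM] at r2
  refine r2.symm.trans ?_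
  ext a b
  exact (ev_redI i 0 0 M _).symm.trans (isNil_ev _ (all2_spec h _ _))

def table : List (Ex × Nat × Nat) := [
  ((.add (.sc (-1) 0 (.app false false false (.app false false false (.var .a)))) (.trs (.app
    false false false (.var .a)) (.app false false false .one))),
    78944787584527292785387053237, 283374929737044808156897098),
  ((.mul (.app true false false (.var .a)) (.app true false false (.var .b))),
    64063408875602946559049859071, 15164753638661391034494091264),
  ((.add (.sc (3) 0 (.mul (.app false false false (.var .a)) (.app false false false .one))) (.add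
    (.sc (-1) 0 (.trs (.app false false false (.var .a)) (.app false false false .one))) (.trs
    (.app false true false (.var .a)) (.app false false false .one)))),
    78978466909597881906222142710, 249695604666455687321807625),
  ((.app true false false (.mul (.var .a) (.app true false true (.var .b)))),
    64068308294385793569843576831, 15159854219878544023700373504),
  ((.mul (.app false false false .one) (.app false false false (.var .a))),
    79019102835649785349360255923, 209059678614552244183694412),
  ((.add (.sc (-2) 0 (.app false false false (.app false false false (.var .a)))) (.trs (.app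
    false false false (.var .a)) (.app false false false .one))),
    78919008589488248479706845496, 223802421246976334944587456),
  ((.add (.app true false false (.var .a)) (.app true false true (.var .a))),
    1547425049106725343623905333, 62515971983911705806685405184),
  ((.add (.sc (-1) 0 (.app true false false (.var .a))) (.add (.sc (-1) 0 (.app true false true
    (.var .a))) (.add (.app true true false (.var .a)) (.app true true true (.var .a))))),
    604610487137655549460480, 4961141354913289075163136),
  ((.add (.sc (-1) 0 (.app false false false (.var .a))) (.app false true false (.var .a))),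
    53231421763094359661298680864, 4951760157168555891634489424),
  ((.app true true false .one),
    216172992298745856, 4923067058972160261881856),
  ((.add (.trs (.mul (.var .a) (.add (.app true false false (.var .b)) (.app true false true (.var
    .b)))) (.add (.app true false false (.var .c)) (.app true false true (.var .c)))) (.sc (-1) 0
    (.trs (.mul (.var .a) (.add (.app true false false (.var .c)) (.app true false true (.var
    .c)))) (.add (.app true false false (.var .b)) (.app true false true (.var .b)))))),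
    3094850098213451237137907712, 59421121885698253195157962752),
  ((.add (.sc (-1) 0 (.app true false false (.var .a))) (.app true true false (.var .a))),
    3713820117856141374587469872, 928455029464035206174343168),
  ((.app false false false (.app true true false (.var .a))),
    2436750328541569878065152, 77673502356988396230934528),
  ((.add (.sc (-1) 0 (.app true false false (.var .a))) (.app true true true (.var .a))),
    549755879456, 3713820117856140824697372672),
  ((.app false false false (.mul (.var .a) (.app true false false (.var .b)))),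
    18014402804449280, 2361192248634077347840),
  ((.mul (.app false false false (.var .a)) (.app true false true (.var .b))),
    703687441776640, 4835703282962116326195200),
  ((.app true false false (.app true false false (.var .a))),
    19343993705454784206602240, 1209516115424987880357888),
  ((.mul (.app true false false (.var .a)) (.app true false false .one)),
    48357032784585166988247040, 154893620638124363009228800),
  ((.add (.app false false false (.var .a)) (.app false true false (.var .a))),
    81920, 549755815936),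
  ((.mul (.app false false false (.var .a)) (.app true false false (.var .b))),
    8589934592, 9444732965739290427392),
  ((.app false false false (.mul (.var .a) (.app true false true (.var .b)))),
    17592186044416, 75557863725914323419136),
  ((.add (.mul (.add (.app true false false (.var .a)) (.app true false true (.var .a))) (.mul
    (.var .b) (.add (.app true false false (.var .c)) (.app true false true (.var .c))))) (.sc
    (-1) 0 (.trs (.mul (.add (.app true false false (.var .a)) (.app true false true (.var .a)))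
    (.var .b)) (.add (.app true false false (.var .c)) (.app true false true (.var .c)))))),
    19807040628566084398385987584, 39614081257132168796771975168),
  ((.trs (.mul (.add (.app true false false (.var .a)) (.app true false true (.var .a))) (.var
    .a)) (.add (.mul (.app true false false (.var .a)) (.app true false false (.var .a))) (.add
    (.sc (-1) 0 (.mul (.app true false false (.var .a)) (.app true false true (.var .a)))) (.mul
    (.app true false true (.var .a)) (.app true false true (.var .a)))))),
    9903520314283042199192993792, 73786976294838206464)]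

def numM : I3 → M3 := fun k => I3.rec
  ⟨⟨[⟨4, 1, 1, 1, 1⟩], [⟨-6, 1, 1, 1, 1⟩], [⟨3, 1, 1, 1, 1⟩]⟩, ⟨[⟨2, 1, 1, 1, 1⟩], [⟨-7, 1, 1, 1,
    1⟩], [⟨5, 1, 1, 1, 1⟩]⟩, ⟨[⟨-4, 1, 1, 1, 1⟩], [⟨8, 1, 1, 1, 1⟩], [⟨4, 1, 1, 1, 1⟩]⟩⟩
  ⟨⟨[⟨-5, 1, 1, 1, 1⟩], [⟨-2, 1, 1, 1, 1⟩], [⟨-2, 1, 1, 1, 1⟩]⟩, ⟨[⟨2, 1, 1, 1, 1⟩], [⟨6, 1, 1, 1,
    1⟩], [⟨-3, 1, 1, 1, 1⟩]⟩, ⟨[⟨2, 1, 1, 1, 1⟩], [⟨-2, 1, 1, 1, 1⟩], [⟨5, 1, 1, 1, 1⟩]⟩⟩
  ⟨⟨[⟨-4, 1, 1, 1, 1⟩], [⟨-8, 1, 1, 1, 1⟩], [⟨6, 1, 1, 1, 1⟩]⟩, ⟨[⟨-5, 1, 1, 1, 1⟩], [⟨5, 1, 1, 1,
    1⟩], [⟨4, 1, 1, 1, 1⟩]⟩, ⟨[⟨-3, 1, 1, 1, 1⟩], [⟨-9, 1, 1, 1, 1⟩], [⟨8, 1, 1, 1, 1⟩]⟩⟩ k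


def nzB (j : Nat) (e : Ex) : Bool :=
  ((KW (uv 2)).getD j zSt).seq fun S => e.evK (cM 113 127) S numM fun R =>
    !all2 fun a b => !single (mget R a b) unitT

lemma p113 : Nat.Prime 113 := by norm_num
lemma p127 : Nat.Prime 127 := by norm_num

lemma nzB_spec {i : Label} {e : Ex} (h : nzB (idx i) e = true) (a b : ℂ) :
    ¬ ∀ M, e.ev (cF a b) (nf i) M = 0 := by
  intro hz
  obtain ⟨R, r1, r2⟩ := evK_spec (valM i a b 0) (cM 113 127) ((KW (uv 2)).getD (idx i) zSt) numM e
  rw [nzB, St.seq_eq, r1] at h
  rw [ev_cM _ p113 p127, ev_KU] at r2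
  have r3 : mev (valM i a b 0) R = 0 := r2.trans (hz _)
  have : ∀ p q, single (mget R p q) unitT = false := fun p q => by
    rw [← Bool.not_eq_true]
    intro hs
    obtain ⟨t, h1, h2⟩ := single_spec hs
    have := congrFun (congrFun r3 p.fin) q.fin
    simp only [mev, toI_fin, h1, pev_cons, pev_nil, add_zero] at this
    exact unitT_ev _ h2 this
  simp [all2, all3, this] at h

def relB (j : Nat) (e : Ex) (a b : I3) (n : Tm) (w : Pl) : Bool :=
  e.hom && zeroB j e && unitT n && (KN.getD j zSt).seq fun S => e.evK (cM 113 127) S numM fun R =>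
    peq (mget R a b) (tmul n w)

lemma relB_spec {i j : Label} (hE : Equivalent (nf i) (nf j)) {m : ℕ} (hi : idx i = m)
    (hj : idx j = m) {e : Ex} {a b : I3} {n : Tm} {w : Pl} (h : relB m e a b n w = true) :
    pev (valM j (P1 i) (P2 i) 0) w = 0 := by
  simp only [relB, Bool.and_eq_true, St.seq_eq] at h
  obtain ⟨⟨⟨h1, h2⟩, h3⟩, h4⟩ := h
  have hz := ev_equiv hE _ e h1 (zeroB_spec (hi ▸ h2))
  obtain ⟨R, r1, r2⟩ := evK_spec (valM j (P1 i) (P2 i) 0) (cM 113 127) (KN.getD m zSt) numM e
  rw [r1] at h4
  rw [ev_cM _ p113 p127, ← hj, ev_KN] at r2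
  have r3 : mev (valM j (P1 i) (P2 i) 0) R = 0 := r2.trans (hz _)
  have := congrFun (congrFun r3 a.fin) b.fin
  simp only [mev, toI_fin] at this
  rw [peq_ev _ h4, pev_tmul] at this
  exact (mul_eq_zero.1 this).resolve_left (unitT_ev _ h3)

lemma table_ok : (table.all fun x => x.1.hom && (List.range 96).all fun j =>
    (!Nat.testBit x.2.1 j || zeroB j x.1) && (!Nat.testBit x.2.2 j || nzB j x.1)) = true := by
  decide +kernel

lemma table_sep : ((List.range 96).all fun i => (List.range i).all fun j =>
    table.any fun x => (Nat.testBit x.2.1 i && Nat.testBit x.2.2 j) ||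
      (Nat.testBit x.2.1 j && Nat.testBit x.2.2 i)) = true := by
  decide +kernel

lemma idx_lt (i : Label) : idx i < 96 := by
  cases i with
  | iso k => have := k.2; simp only [idx]; omega
  | one k _ => have := k.2; simp only [idx]; omega
  | cube k _ _ => have := k.2; simp only [idx]; omega
  | two k _ _ => have := k.2; simp only [idx]; omega

lemma idx_eq {i j : Label} (hE : Equivalent (nf i) (nf j)) : idx i = idx j := by
  have key : ∀ i j : Label, Equivalent (nf i) (nf j) → ∀ x ∈ table,
      Nat.testBit x.2.1 (idx i) = true → Nat.testBit x.2.2 (idx j) = true → False := by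
    intro i j hE x hx h1 h2
    have t := List.all_eq_true.1 table_ok x hx
    simp only [Bool.and_eq_true, List.all_eq_true, List.mem_range, Bool.or_eq_true,
      Bool.not_eq_true'] at t
    have a := ((t.2 _ (idx_lt i)).1).resolve_left (by simp [h1])
    have b := ((t.2 _ (idx_lt j)).2).resolve_left (by simp [h2])
    exact nzB_spec b _ _ (ev_equiv hE _ _ t.1 (zeroB_spec a))
  have key2 : ∀ i j : Label, Equivalent (nf i) (nf j) → ¬ idx j < idx i := by
    intro i j hE hlt
    have t := table_sep
    simp only [List.all_eq_true, List.mem_range, List.any_eq_true, Bool.or_eq_true,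
      Bool.and_eq_true] at t
    obtain ⟨x, hx, h | h⟩ := t _ (idx_lt i) _ hlt
    · exact key i j hE x hx h.1 h.2
    · exact key j i hE.symm x hx h.1 h.2
  have := key2 i j hE
  have := key2 j i hE.symm
  omega

lemma nz_ok : ((List.range 96).all fun j => nzB j (.app false false false (.var .a)) ||
    nzB j (.app true false false (.var .a)) ||
    nzB j (.add (.app true false false (.var .a)) (.app true false true (.var .a)))) = true := by
  decide +kernel

theorem nf_ne_zero (i : Label) : nf i ≠ 0 := by
  intro h0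
  have t := List.all_eq_true.1 nz_ok _ (List.mem_range.2 (idx_lt i))
  simp only [Bool.or_eq_true] at t
  rcases t with (t | t) | t <;>
  · refine nzB_spec t 0 0 fun M => ?_
    rw [h0]
    exact ev_zero_pair _ _ rfl (by decide) M

lemma rel_one0 : relB 88 (.add (.sc (2) 0 (.app false false false (.var .a))) (.sc (-1) 2 (.add
    (.app true false false (.var .a)) (.sc (-1) 0 (.app true false true (.var .a)))))) .a .b ⟨-8,
    1, 1, 1, 1⟩ (psub [xv 3] [xv 127]) = true := by
  decide +kernel

lemma rel_one1 : relB 89 (.add (.sc (2) 0 (.app false false false (.var .a))) (.sc (-1) 2 (.add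
    (.app true false false (.var .a)) (.sc (-1) 0 (.app true false true (.var .a)))))) .a .b ⟨-8,
    1, 1, 1, 1⟩ (psub [xv 3] [xv 127]) = true := by
  decide +kernel

lemma rel_one2 : relB 90 (.add (.sc (2) 0 (.app false false false (.var .a))) (.sc (1) 2 (.add
    (.app true false false (.var .a)) (.sc (-1) 0 (.app true false true (.var .a)))))) .a .c ⟨16,
    1, 1, 1, 1⟩ (psub [xv 3] [xv 127]) = true := by
  decide +kernel

lemma rel_one3 : relB 91 (.add (.sc (2) 0 (.app false false false (.var .a))) (.sc (1) 2 (.add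
    (.app true false false (.var .a)) (.sc (-1) 0 (.app true false true (.var .a)))))) .a .c ⟨16,
    1, 1, 1, 1⟩ (psub [xv 3] [xv 127]) = true := by
  decide +kernel

lemma rel_cube4 : relB 92 (.add (.mul (.app true false false (.var .a)) (.app true false true
    (.var .b))) (.sc (-1) 1 (.mul (.app true false false (.var .a)) (.app true false false (.var
    .b))))) .a .c ⟨-8, 1, 1, 1, 1⟩ (psub [xv 2] [xv 113]) = true := by
  decide +kernel

lemma rel_cube5 : relB 93 (.add (.mul (.app true false false (.var .a)) (.app true false true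
    (.var .b))) (.sc (1) 1 (.mul (.app true false false (.var .a)) (.app true false false (.var
    .b))))) .a .c ⟨8, 1, 1, 1, 1⟩ (psub [xv 2] [xv 113]) = true := by
  decide +kernel

lemma rel_kk6 : relB 94 (.add (.trs (.mul (.var .b) (.add (.app true false false (.var .c)) (.sc
    (-1) 0 (.app true false true (.var .c))))) (.add (.app true false false (.var .a)) (.sc (-1) 0
    (.app true false true (.var .a))))) (.sc (-1) 3 (.add (.trs (.mul (.var .a) (.add (.app true
    false false (.var .b)) (.app true false true (.var .b)))) (.add (.app true false false (.var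
    .c)) (.app true false true (.var .c)))) (.sc (-1) 0 (.trs (.mul (.var .a) (.add (.app true
    false false (.var .c)) (.app true false true (.var .c)))) (.add (.app true false false (.var
    .b)) (.app true false true (.var .b)))))))) .a .b ⟨-64, 1, 1, 1, 1⟩ (psub [xv 4] [xv (113 *
    113)]) = true := by
  decide +kernel

lemma rel_km6 : relB 94 (.add (.trs (.mul (.var .b) (.add (.app true false false (.var .c)) (.sc
    (-1) 0 (.app true false true (.var .c))))) (.sc (2) 0 (.app false false false (.var .a))))
    (.sc (-1) 4 (.add (.trs (.mul (.var .a) (.add (.app true false false (.var .b)) (.app true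
    false true (.var .b)))) (.add (.app true false false (.var .c)) (.app true false true (.var
    .c)))) (.sc (-1) 0 (.trs (.mul (.var .a) (.add (.app true false false (.var .c)) (.app true
    false true (.var .c)))) (.add (.app true false false (.var .b)) (.app true false true (.var
    .b)))))))) .a .b ⟨-64, 1, 1, 1, 1⟩ (psub [xv 6] [xv (113 * 127)]) = true := by
  decide +kernel

lemma rel_mm6 : relB 94 (.add (.trs (.mul (.var .b) (.sc (2) 0 (.app false false false (.var
    .c)))) (.sc (2) 0 (.app false false false (.var .a)))) (.sc (-1) 5 (.add (.trs (.mul (.var .a)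
    (.add (.app true false false (.var .b)) (.app true false true (.var .b)))) (.add (.app true
    false false (.var .c)) (.app true false true (.var .c)))) (.sc (-1) 0 (.trs (.mul (.var .a)
    (.add (.app true false false (.var .c)) (.app true false true (.var .c)))) (.add (.app true
    false false (.var .b)) (.app true false true (.var .b)))))))) .a .b ⟨-64, 1, 1, 1, 1⟩ (psub
    [xv 9] [xv (127 * 127)]) = true := by
  decide +kernel

lemma rel_kk7 : relB 95 (.add (.trs (.mul (.var .b) (.add (.app true false false (.var .c)) (.sc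
    (-1) 0 (.app true false true (.var .c))))) (.add (.app true false false (.var .a)) (.sc (-1) 0
    (.app true false true (.var .a))))) (.sc (-1) 3 (.add (.trs (.mul (.var .a) (.add (.app true
    false false (.var .b)) (.app true false true (.var .b)))) (.add (.app true false false (.var
    .c)) (.app true false true (.var .c)))) (.sc (-1) 0 (.trs (.mul (.var .a) (.add (.app true
    false false (.var .c)) (.app true false true (.var .c)))) (.add (.app true false false (.var
    .b)) (.app true false true (.var .b)))))))) .a .c ⟨-768, 1, 1, 1, 1⟩ (psub [xv 4] [xv (113 *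
    113)]) = true := by
  decide +kernel

lemma rel_km7 : relB 95 (.add (.trs (.mul (.var .b) (.add (.app true false false (.var .c)) (.sc
    (-1) 0 (.app true false true (.var .c))))) (.sc (2) 0 (.app false false false (.var .a))))
    (.sc (1) 4 (.add (.trs (.mul (.var .a) (.add (.app true false false (.var .b)) (.app true
    false true (.var .b)))) (.add (.app true false false (.var .c)) (.app true false true (.var
    .c)))) (.sc (-1) 0 (.trs (.mul (.var .a) (.add (.app true false false (.var .c)) (.app true
    false true (.var .c)))) (.add (.app true false false (.var .b)) (.app true false true (.var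
    .b)))))))) .a .c ⟨768, 1, 1, 1, 1⟩ (psub [xv 6] [xv (113 * 127)]) = true := by
  decide +kernel

lemma rel_mm7 : relB 95 (.add (.trs (.mul (.var .b) (.sc (2) 0 (.app false false false (.var
    .c)))) (.sc (2) 0 (.app false false false (.var .a)))) (.sc (-1) 5 (.add (.trs (.mul (.var .a)
    (.add (.app true false false (.var .b)) (.app true false true (.var .b)))) (.add (.app true
    false false (.var .c)) (.app true false true (.var .c)))) (.sc (-1) 0 (.trs (.mul (.var .a)
    (.add (.app true false false (.var .c)) (.app true false true (.var .c)))) (.add (.app true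
    false false (.var .b)) (.app true false true (.var .b)))))))) .a .c ⟨-768, 1, 1, 1, 1⟩ (psub
    [xv 9] [xv (127 * 127)]) = true := by
  decide +kernel


lemma ev_sub (V : Val) (a b : ℕ) : pev V (psub [xv a] [xv b]) = ev V.x a - ev V.x b := by
  simp [pev_psub, ev_xv']

lemma one_inj {k : Fin 4} {μ ν : ℂ} (h : Equivalent (nf (.one k μ)) (nf (.one k ν))) : μ = ν := by
  have : pev (valM (.one k ν) 0 μ 0) (psub [xv 3] [xv 127]) = 0 := by
    fin_cases k
    exacts [relB_spec h rfl rfl rel_one0, relB_spec h rfl rfl rel_one1,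
      relB_spec h rfl rfl rel_one2, relB_spec h rfl rfl rel_one3]
  rw [ev_sub, ev_prime _ Nat.prime_three, ev_prime _ p127, sub_eq_zero] at this
  exact this.symm

lemma cube_inj {k : Fin 2} {μ ν : ℂ} {h1 : μ ^ 3 = 1} {h2 : ν ^ 3 = 1}
    (h : Equivalent (nf (.cube k μ h1)) (nf (.cube k ν h2))) : μ = ν := by
  have : pev (valM (.cube k ν h2) μ 0 0) (psub [xv 2] [xv 113]) = 0 := by
    fin_cases k
    exacts [relB_spec h rfl rfl rel_cube4, relB_spec h rfl rfl rel_cube5]
  rw [ev_sub, ev_prime _ Nat.prime_two, ev_prime _ p113, sub_eq_zero] at this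
  exact this.symm

lemma two_inj {k : Fin 2} {κ ρ κ' ρ' : ℂ} (h : Equivalent (nf (.two k κ ρ)) (nf (.two k κ' ρ'))) :
    (κ' = κ ∧ ρ' = ρ) ∨ (κ' = -κ ∧ ρ' = -ρ) := by
  have a : pev (valM (.two k κ' ρ') κ ρ 0) (psub [xv (2 * 2)] [xv (113 * 113)]) = 0 := by
    fin_cases k
    exacts [relB_spec h rfl rfl rel_kk6, relB_spec h rfl rfl rel_kk7]
  have b : pev (valM (.two k κ' ρ') κ ρ 0) (psub [xv (2 * 3)] [xv (113 * 127)]) = 0 := by
    fin_cases k
    exacts [relB_spec h rfl rfl rel_km6, relB_spec h rfl rfl rel_km7]
  have c : pev (valM (.two k κ' ρ') κ ρ 0) (psub [xv (3 * 3)] [xv (127 * 127)]) = 0 := by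
    fin_cases k
    exacts [relB_spec h rfl rfl rel_mm6, relB_spec h rfl rfl rel_mm7]
  simp only [ev_sub, ev_mul, ev_prime _ Nat.prime_two, ev_prime _ Nat.prime_three, ev_prime _ p113,
    ev_prime _ p127] at a b c
  change κ' * κ' - κ * κ = 0 at a
  change κ' * ρ' - κ * ρ = 0 at b
  change ρ' * ρ' - ρ * ρ = 0 at c
  have a' : (κ' - κ) * (κ' + κ) = 0 := by linear_combination a
  have c' : (ρ' - ρ) * (ρ' + ρ) = 0 := by linear_combination c
  rcases mul_eq_zero.1 a' with a1 | a1 <;> rcases mul_eq_zero.1 c' with c1 | c1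
  · exact .inl ⟨by linear_combination a1, by linear_combination c1⟩
  · have : κ * ρ = 0 := by linear_combination (-1 / 2) * b + (1 / 2) * ρ' * a1 + (1 / 2) * κ * c1
    rcases mul_eq_zero.1 this with z | z
    · exact .inr ⟨by linear_combination a1 + 2 * z, by linear_combination c1⟩
    · exact .inl ⟨by linear_combination a1, by linear_combination c1 - 2 * z⟩
  · have : κ * ρ = 0 := by linear_combination (-1 / 2) * b + (1 / 2) * ρ' * a1 - (1 / 2) * κ * c1
    rcases mul_eq_zero.1 this with z | z
    · exact .inl ⟨by linear_combination a1 - 2 * z, by linear_combination c1⟩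
    · exact .inr ⟨by linear_combination a1, by linear_combination c1 + 2 * z⟩
  · exact .inr ⟨by linear_combination a1, by linear_combination c1⟩

lemma ok_spec2 {m : Mv} {S S' : St} (h : m.ok S S' = true) (V : Val) :
    ∃ h : okU m.τ = true, Equivalent (S.ev V) (S'.ev (V.upd m.σ m.τ h)) := by
  simp only [Mv.ok, Bool.and_eq_true, tact_eq] at h
  obtain ⟨⟨⟨⟨h1, h2⟩, h3⟩, h4⟩, h5⟩ := h
  have e := St.ev_eqb V h5
  rw [St.ev_map (pev_psubst V m.σ m.τ h3 h4)] at e
  refine ⟨h4, mev V m.g, mev V m.h, m.c.ev V, ?_, unitT_ev V h2, ?_, ?_⟩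
  · rw [← ev_mmul, ev_meq V h1, ev_mone]
  · rw [e]; exact ev_tact V _ _ _ _
  · rw [e]; exact ev_tact V _ _ _ _

def sw23 : M3 := ⟨⟨[one], [], []⟩, ⟨[], [], [one]⟩, ⟨[], [one], []⟩⟩
def sw12 : M3 := ⟨⟨[], [one], []⟩, ⟨[one], [], []⟩, ⟨[], [], [one]⟩⟩
def mvN (g : M3) : Mv := ⟨g, g, one, [(2, pneg [xv 2]), (3, pneg [xv 3])], []⟩

lemma two_neg (k : Fin 2) (κ ρ : ℂ) : Equivalent (nf (.two k κ ρ)) (nf (.two k (-κ) (-ρ))) := by
  have key : ∀ g, (mvN g).ok (twoSts.getD k zSt) (twoSts.getD k zSt) = true →
      Equivalent (nf (.two k κ ρ)) (nf (.two k (-κ) (-ρ))) := fun g hg => by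
    obtain ⟨h, hE⟩ := ok_spec2 hg (val2 κ ρ)
    rw [ev_twoSts, ev_twoSts] at hE
    simpa [mvN, Val.upd, updX, pev_pneg, ev_xv _ Nat.prime_two, ev_xv _ Nat.prime_three, val2]
      using hE
  fin_cases k
  · exact key sw23 (by decide +kernel)
  · exact key sw12 (by decide +kernel)

theorem equiv_iff (i j : Label) : Equivalent (nf i) (nf j) ↔
    i = j ∨ ∃ k κ ρ, i = .two k κ ρ ∧ j = .two k (-κ) (-ρ) := by
  constructor
  · intro h
    have e := idx_eq h
    cases i with
    | iso k =>
      have := k.2
      cases j with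
      | iso l => exact .inl (congrArg _ (Fin.ext e))
      | _ => exfalso; simp only [idx] at e; omega
    | one k μ =>
      have := k.2
      cases j with
      | iso l => exfalso; have := l.2; simp only [idx] at e; omega
      | one l ν =>
        obtain rfl : k = l := Fin.ext (by simp only [idx] at e; omega)
        exact .inl (by rw [one_inj h])
      | _ => exfalso; simp only [idx] at e; omega
    | cube k μ h1 =>
      have := k.2
      cases j with
      | iso l => exfalso; have := l.2; simp only [idx] at e; omega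
      | one l _ => exfalso; have := l.2; simp only [idx] at e; omega
      | cube l ν h2 =>
        obtain rfl : k = l := Fin.ext (by simp only [idx] at e; omega)
        obtain rfl := cube_inj h
        exact .inl rfl
      | two l _ _ => exfalso; simp only [idx] at e; omega
    | two k κ ρ =>
      cases j with
      | iso l => exfalso; have := l.2; simp only [idx] at e; omega
      | one l _ => exfalso; have := l.2; simp only [idx] at e; omega
      | cube l _ _ => exfalso; have := l.2; simp only [idx] at e; omega
      | two l κ' ρ' =>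
        obtain rfl : k = l := Fin.ext (by simp only [idx] at e; omega)
        rcases two_inj h with ⟨rfl, rfl⟩ | ⟨rfl, rfl⟩
        · exact .inl rfl
        · exact .inr ⟨_, _, _, rfl, rfl⟩
  · rintro (rfl | ⟨k, κ, ρ, rfl, rfl⟩)
    · exact Equivalent.refl _
    · exact two_neg k κ ρ

end

end Pool.Agent.Lib.MP_4e1a58_mp
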