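import Mathlib

/-! Sparse Laurent polynomial arithmetic with monomials coded by natural numbers. -/

namespace Pool.Agent.Lib.MP_4e1a58_mp

noncomputable section

def ev (x : ℕ → ℂ) (n : ℕ) : ℂ := if n = 0 then 0 else (n.primeFactorsList.map x).prod

lemma ev_zero (x : ℕ → ℂ) : ev x 0 = 0 := by simp [ev]
lemma ev_one (x : ℕ → ℂ) : ev x 1 = 1 := by simp [ev]

lemma ev_mul (x : ℕ → ℂ) (a b : ℕ) : ev x (a * b) = ev x a * ev x b := by
  by_cases ha : a = 0
  · simp [ha, ev]
  by_cases hb : b = 0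
  · simp [hb, ev]
  have := (Nat.perm_primeFactorsList_mul ha hb).map x
  simp only [ev, ha, hb, mul_eq_zero, or_self, if_false]
  rw [this.prod_eq, List.map_append, List.prod_append]

lemma ev_prime (x : ℕ → ℂ) {p : ℕ} (hp : p.Prime) : ev x p = x p := by
  simp [ev, hp.ne_zero, Nat.primeFactorsList_prime hp]

lemma ev_pow (x : ℕ → ℂ) (a k : ℕ) : ev x (a ^ k) = ev x a ^ k := by
  induction k with
  | zero => simp [ev_one]
  | succ k ih => rw [pow_succ, ev_mul, ih, pow_succ]

lemma ev_ne_zero {x : ℕ → ℂ} (hx : ∀ p, x p ≠ 0) {n : ℕ} (hn : n ≠ 0) : ev x n ≠ 0 := by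
  simp only [ev, hn, if_false]
  apply List.prod_ne_zero
  intro h
  obtain ⟨p, -, hp⟩ := List.mem_map.1 h
  exact hx p hp

lemma ev_update (x : ℕ → ℂ) {p n : ℕ} (c : ℂ) (h : n % p ≠ 0) :
    ev (Function.update x p c) n = ev x n := by
  unfold ev
  split_ifs with h0
  · rfl
  congr 1
  apply List.map_congr_left
  intro q hq
  have : q ≠ p := by
    rintro rfl
    exact h (Nat.mod_eq_zero_of_dvd (Nat.dvd_of_mem_primeFactorsList hq))
  simp [Function.update_of_ne this]

structure Val where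
  x : ℕ → ℂ
  u : ℕ → ℂ
  hu : ∀ p, u p ≠ 0

structure Tm where
  c : Int
  e : Nat
  m : Nat
  n : Nat
  d : Nat

abbrev Pl := List Tm

def Tm.ev (V : Val) (t : Tm) : ℂ :=
  (t.c : ℂ) / (t.e : ℂ) * MP_4e1a58_mp.ev V.x t.m *
    (MP_4e1a58_mp.ev V.u t.n / MP_4e1a58_mp.ev V.u t.d)

def pev (V : Val) (p : Pl) : ℂ := (p.map (Tm.ev V)).sum

@[simp] lemma pev_nil (V : Val) : pev V [] = 0 := rfl
@[simp] lemma pev_cons (V : Val) (t : Tm) (p : Pl) : pev V (t :: p) = t.ev V + pev V p := by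
  simp [pev]

def Tm.mul (s t : Tm) : Tm :=
  ⟨Int.mul s.c t.c, Nat.mul s.e t.e, Nat.mul s.m t.m,
    Nat.div (Nat.mul s.n t.n) (Nat.gcd (Nat.mul s.n t.n) (Nat.mul s.d t.d)),
    Nat.div (Nat.mul s.d t.d) (Nat.gcd (Nat.mul s.n t.n) (Nat.mul s.d t.d))⟩

lemma ev_div_gcd (V : Val) (n d : ℕ) :
    ev V.u (n / Nat.gcd n d) / ev V.u (d / Nat.gcd n d) = ev V.u n / ev V.u d := by
  by_cases hg : Nat.gcd n d = 0
  · obtain ⟨h1, h2⟩ := Nat.gcd_eq_zero_iff.1 hg
    simp [h1, h2]
  have h0 := ev_ne_zero V.hu hg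
  have h1 : ev V.u n = ev V.u (n / Nat.gcd n d) * ev V.u (Nat.gcd n d) := by
    rw [← ev_mul, Nat.div_mul_cancel (Nat.gcd_dvd_left n d)]
  have h2 : ev V.u d = ev V.u (d / Nat.gcd n d) * ev V.u (Nat.gcd n d) := by
    rw [← ev_mul, Nat.div_mul_cancel (Nat.gcd_dvd_right n d)]
  rw [h1, h2, mul_div_mul_right _ _ h0]

lemma Tm.ev_mul (V : Val) (s t : Tm) : (s.mul t).ev V = s.ev V * t.ev V := by
  have h := ev_div_gcd V (s.n * t.n) (s.d * t.d)
  show ((s.c * t.c : ℤ) : ℂ) / ((s.e * t.e : ℕ) : ℂ) * MP_4e1a58_mp.ev V.x (s.m * t.m) *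
    (MP_4e1a58_mp.ev V.u (s.n * t.n / Nat.gcd (s.n * t.n) (s.d * t.d)) /
      MP_4e1a58_mp.ev V.u (s.d * t.d / Nat.gcd (s.n * t.n) (s.d * t.d))) = _
  rw [h]
  simp only [Tm.ev, MP_4e1a58_mp.ev_mul, Int.cast_mul, Nat.cast_mul, div_eq_mul_inv, mul_inv]
  ring

def isZ (c : Int) : Bool := Int.casesOn c (fun n => Nat.beq n 0) (fun _ => false)

lemma isZ_iff (c : Int) : isZ c = true ↔ c = 0 := by
  cases c with
  | ofNat n => simp [isZ, Nat.beq_eq]
  | negSucc n => simp [isZ]

def consNZ (t : Tm) (p : Pl) : Pl := cond (isZ t.c) p (t :: p)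

lemma pev_consNZ (V : Val) (t : Tm) (p : Pl) : pev V (consNZ t p) = t.ev V + pev V p := by
  unfold consNZ
  cases h : isZ t.c
  · simp
  · have := (isZ_iff _).1 h
    simp [Tm.ev, this]

def mrg (x y : Tm) (p : Pl) : Pl :=
  cond (Nat.beq x.e y.e) (consNZ ⟨Int.add x.c y.c, x.e, x.m, x.n, x.d⟩ p)
    (cond (Nat.beq (Nat.mul x.e y.e) 0) (x :: y :: p)
      (consNZ ⟨Int.add (Int.mul x.c (Int.ofNat y.e)) (Int.mul y.c (Int.ofNat x.e)),
        Nat.mul x.e y.e, x.m, x.n, x.d⟩ p))

lemma pev_mrg (V : Val) (x y : Tm) (p : Pl) (h1 : x.m = y.m) (h2 : x.n = y.n) (h3 : x.d = y.d) :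
    pev V (mrg x y p) = x.ev V + y.ev V + pev V p := by
  unfold mrg
  cases h : Nat.beq x.e y.e
  · cases h' : Nat.beq (Nat.mul x.e y.e) 0
    · have hne : x.e * y.e ≠ 0 := Nat.ne_of_beq_eq_false h'
      have hx : (x.e : ℂ) ≠ 0 := by exact_mod_cast (mul_ne_zero_iff.1 hne).1
      have hy : (y.e : ℂ) ≠ 0 := by exact_mod_cast (mul_ne_zero_iff.1 hne).2
      simp only [cond_false, pev_consNZ]
      congr 1
      show ((x.c * (y.e : ℤ) + y.c * (x.e : ℤ) : ℤ) : ℂ) / ((x.e * y.e : ℕ) : ℂ) * _ * _ = _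
      simp only [Tm.ev, ← h1, ← h2, ← h3]
      push_cast
      field_simp
    · simp [add_assoc]
  · have he : x.e = y.e := Nat.eq_of_beq_eq_true h
    simp only [cond_true, pev_consNZ]
    congr 1
    show ((x.c + y.c : ℤ) : ℂ) / (x.e : ℂ) * _ * _ = _
    simp only [Tm.ev, ← h1, ← h2, ← h3, ← he]
    push_cast
    ring

def padd (p : Pl) : Pl → Pl :=
  List.rec (fun q => q)
    (fun x xs ih q =>
      List.rec (x :: xs)
        (fun y ys ih2 =>
          cond (Nat.beq x.m y.m)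
            (cond (Nat.beq x.n y.n && Nat.beq x.d y.d) (mrg x y (ih ys))
              (cond (Nat.ble (Nat.mul x.n y.d) (Nat.mul y.n x.d)) (x :: ih (y :: ys)) (y :: ih2)))
            (cond (Nat.ble x.m y.m) (x :: ih (y :: ys)) (y :: ih2))) q) p

lemma pev_padd (V : Val) (p q : Pl) : pev V (padd p q) = pev V p + pev V q := by
  induction p generalizing q with
  | nil => simp [padd]
  | cons x xs ih =>
    induction q with
    | nil => simp [padd]
    | cons y ys ih2 =>
      have e : padd (x :: xs) (y :: ys) = cond (Nat.beq x.m y.m)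
            (cond (Nat.beq x.n y.n && Nat.beq x.d y.d) (mrg x y (padd xs ys))
              (cond (Nat.ble (Nat.mul x.n y.d) (Nat.mul y.n x.d)) (x :: padd xs (y :: ys))
                (y :: padd (x :: xs) ys)))
            (cond (Nat.ble x.m y.m) (x :: padd xs (y :: ys)) (y :: padd (x :: xs) ys)) := rfl
      have a1 : pev V (x :: padd xs (y :: ys)) = pev V (x :: xs) + pev V (y :: ys) := by
        rw [pev_cons, ih, pev_cons V x, add_assoc]
      have a2 : pev V (y :: padd (x :: xs) ys) = pev V (x :: xs) + pev V (y :: ys) := by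
        rw [pev_cons, ih2, pev_cons V y]; ring
      rw [e]
      cases h1 : Nat.beq x.m y.m
      · cases Nat.ble x.m y.m
        · exact a2
        · exact a1
      · cases h2 : (Nat.beq x.n y.n && Nat.beq x.d y.d)
        · cases Nat.ble (Nat.mul x.n y.d) (Nat.mul y.n x.d)
          · exact a2
          · exact a1
        · rw [Bool.and_eq_true] at h2
          simp only [cond_true]
          rw [pev_mrg V x y _ (Nat.eq_of_beq_eq_true h1) (Nat.eq_of_beq_eq_true h2.1)
            (Nat.eq_of_beq_eq_true h2.2), ih]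
          simp only [pev_cons]; ring

def tmul (t : Tm) (p : Pl) : Pl := List.rec [] (fun y _ ih => t.mul y :: ih) p

lemma pev_tmul (V : Val) (t : Tm) (p : Pl) : pev V (tmul t p) = t.ev V * pev V p := by
  induction p with
  | nil => simp [tmul]
  | cons y ys ih =>
    have e : tmul t (y :: ys) = t.mul y :: tmul t ys := rfl
    rw [e, pev_cons, ih, Tm.ev_mul, pev_cons, mul_add]

def pmul (p q : Pl) : Pl := List.rec [] (fun x _ ih => padd (tmul x q) ih) p

lemma pev_pmul (V : Val) (p q : Pl) : pev V (pmul p q) = pev V p * pev V q := by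
  induction p with
  | nil => simp [pmul]
  | cons y ys ih =>
    have e : pmul (y :: ys) q = padd (tmul y q) (pmul ys q) := rfl
    rw [e, pev_padd, ih, pev_tmul, pev_cons, add_mul]

def pneg (p : Pl) : Pl := List.rec [] (fun y _ ih => ⟨Int.neg y.c, y.e, y.m, y.n, y.d⟩ :: ih) p

lemma pev_pneg (V : Val) (p : Pl) : pev V (pneg p) = - pev V p := by
  induction p with
  | nil => simp [pneg]
  | cons y ys ih =>
    have e : pneg (y :: ys) = ⟨-y.c, y.e, y.m, y.n, y.d⟩ :: pneg ys := rfl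
    rw [e, pev_cons, ih, pev_cons]
    simp only [Tm.ev]; push_cast; ring

def psub (p q : Pl) : Pl := padd p (pneg q)

lemma pev_psub (V : Val) (p q : Pl) : pev V (psub p q) = pev V p - pev V q := by
  rw [psub, pev_padd, pev_pneg, sub_eq_add_neg]

def isNil (p : Pl) : Bool := List.rec true (fun _ _ _ => false) p

lemma isNil_ev (V : Val) {p : Pl} (h : isNil p = true) : pev V p = 0 := by
  cases p with
  | nil => rfl
  | cons y ys => exact absurd h (by simp [isNil])

def peq (p q : Pl) : Bool := isNil (psub p q)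

lemma peq_ev (V : Val) {p q : Pl} (h : peq p q = true) : pev V p = pev V q := by
  have := isNil_ev V h
  rwa [pev_psub, sub_eq_zero] at this

def one : Tm := ⟨1, 1, 1, 1, 1⟩
def xv (p : Nat) : Tm := ⟨1, 1, p, 1, 1⟩
def uv (p : Nat) : Tm := ⟨1, 1, 1, p, 1⟩

@[simp] lemma ev_oneT (V : Val) : one.ev V = 1 := by simp [one, Tm.ev, ev_one]
lemma ev_xv (V : Val) {p : ℕ} (hp : p.Prime) : (xv p).ev V = V.x p := by
  simp [xv, Tm.ev, ev_one, ev_prime _ hp]
lemma ev_uv (V : Val) {p : ℕ} (hp : p.Prime) : (uv p).ev V = V.u p := by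
  simp [uv, Tm.ev, ev_one, ev_prime _ hp]

/-- all parts other than the plain monomial are nonzero -/
def nzT (t : Tm) : Bool :=
  !isZ t.c && !Nat.beq t.e 0 && !Nat.beq t.n 0 && !Nat.beq t.d 0

lemma nzT_ev (V : Val) {t : Tm} (h : nzT t = true) (h0 : t.ev V = 0) : ev V.x t.m = 0 := by
  simp only [nzT, Bool.and_eq_true, Bool.not_eq_true'] at h
  obtain ⟨⟨⟨h1, h2⟩, h3⟩, h4⟩ := h
  have a1 : (t.c : ℂ) ≠ 0 := by
    have : t.c ≠ 0 := fun hh => by rw [(isZ_iff _).2 hh] at h1; exact absurd h1 (by simp)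
    exact_mod_cast this
  have a2 : (t.e : ℂ) ≠ 0 := by exact_mod_cast Nat.ne_of_beq_eq_false h2
  have a3 := ev_ne_zero V.hu (Nat.ne_of_beq_eq_false h3)
  have a4 := ev_ne_zero V.hu (Nat.ne_of_beq_eq_false h4)
  simpa [Tm.ev, a1, a2, a3, a4] using h0

def unitT (t : Tm) : Bool := nzT t && Nat.beq t.m 1

lemma unitT_ev (V : Val) {t : Tm} (h : unitT t = true) : t.ev V ≠ 0 := by
  simp only [unitT, Bool.and_eq_true] at h
  intro h0
  have := nzT_ev V h.1 h0
  rw [Nat.eq_of_beq_eq_true h.2, ev_one] at this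
  exact one_ne_zero this

def Tm.inv (t : Tm) : Tm := ⟨Int.mul (Int.sign t.c) (Int.ofNat t.e), Int.natAbs t.c, 1, t.d, t.n⟩

lemma ev_inv (V : Val) {t : Tm} (h : unitT t = true) : t.inv.ev V = (t.ev V)⁻¹ := by
  simp only [unitT, Bool.and_eq_true] at h
  have hm := Nat.eq_of_beq_eq_true h.2
  show ((t.c.sign * (t.e : ℤ) : ℤ) : ℂ) / (t.c.natAbs : ℂ) * ev V.x 1 *
    (ev V.u t.d / ev V.u t.n) = _
  simp only [Tm.ev, hm, ev_one, mul_one, mul_inv, inv_div]
  congr 1
  push_cast
  rcases lt_trichotomy t.c 0 with hc | hc | hc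
  · have : (t.c.natAbs : ℂ) = -(t.c : ℂ) := by
      have : (t.c.natAbs : ℤ) = -t.c := by omega
      rw [← Int.cast_natCast, this, Int.cast_neg]
    rw [Int.sign_eq_neg_one_of_neg hc, this]; push_cast; rw [div_neg]; ring
  · simp [hc]
  · have : (t.c.natAbs : ℂ) = (t.c : ℂ) := by
      have : (t.c.natAbs : ℤ) = t.c := by omega
      rw [← Int.cast_natCast, this]
    rw [Int.sign_eq_one_of_pos hc, this]; push_cast; ring

def isPr (p : Nat) : Bool :=
  Nat.ble 2 p && Nat.ble p 1368 &&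
    [2, 3, 5, 7, 11, 13, 17, 19, 23, 29, 31].all fun q => Nat.beq p q || !Nat.beq (Nat.mod p q) 0

lemma isPr_prime {p : ℕ} (h : isPr p = true) : p.Prime := by
  simp only [isPr, Bool.and_eq_true, Nat.ble_eq, List.all_eq_true, Bool.or_eq_true, Nat.beq_eq,
    Bool.not_eq_true'] at h
  obtain ⟨⟨h2, h3⟩, h4⟩ := h
  by_contra hp
  have h5 := Nat.minFac_sq_le_self (by omega : 0 < p) hp
  have h6 : p.minFac.Prime := Nat.minFac_prime (by omega)
  have h7 : p.minFac < 37 := by
    by_contra hh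
    have := Nat.pow_le_pow_left (not_lt.1 hh) 2
    omega
  have h8 : p.minFac ∈ [2, 3, 5, 7, 11, 13, 17, 19, 23, 29, 31] := by
    generalize p.minFac = q at h6 h7
    interval_cases q <;> first | decide | (exfalso; revert h6; decide)
  rcases h4 _ h8 with h9 | h9
  · exact hp (h9 ▸ h6)
  · have := Nat.ne_of_beq_eq_false h9
    exact this (Nat.mod_eq_zero_of_dvd (Nat.minFac_dvd p))

/-- strip the factor `p` from `m`, applying `f` once for each copy -/
def strip {β : Type} (p : Nat) (f : β → β) (k : Nat → β → β) (z : β) (m : Nat) (acc : β) : β :=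
  (Nat.rec (fun _ _ => z)
    (fun _ ih m acc => cond (Nat.beq (Nat.mod m p) 0) (ih (Nat.div m p) (f acc)) (k m acc)) m :
      Nat → β → β) m acc

lemma strip_spec {β : Type} (val : β → ℂ) (y : ℕ → ℂ) {p : ℕ} (hp : p.Prime) (c w : ℂ)
    (φ : ℂ → ℂ) (hφ : ∀ a b, φ (a * b) = φ a * φ b) (hφ0 : φ 0 = 0) (hc : φ c = w)
    (f : β → β) (hf : ∀ a, val (f a) = w * val a) (k : Nat → β → β) (K : ℂ)
    (hk : ∀ m a, val (k m a) = φ (ev y m) * val a * K) (z : β) (hz : val z = 0)
    (m : ℕ) (acc : β) :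
    val (strip p f k z m acc) = φ (ev (Function.update y p c) m) * val acc * K := by
  have key : ∀ (fu m : ℕ) (acc : β), m ≤ fu →
      val ((Nat.rec (fun _ _ => z) (fun _ ih m acc =>
        cond (Nat.beq (Nat.mod m p) 0) (ih (Nat.div m p) (f acc)) (k m acc)) fu :
          Nat → β → β) m acc) = φ (ev (Function.update y p c) m) * val acc * K := by
    intro fu
    induction fu with
    | zero =>
      intro m acc hm
      have : m = 0 := by omega
      subst this
      simp [hz, ev_zero, hφ0]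
    | succ fu ih =>
      intro m acc hm
      cases h : Nat.beq (Nat.mod m p) 0
      · simp only [h, cond_false]
        rw [hk, ev_update _ _ (Nat.ne_of_beq_eq_false h)]
      · simp only [h, cond_true]
        have hd : p ∣ m := Nat.dvd_of_mod_eq_zero (Nat.eq_of_beq_eq_true h)
        have hle : m / p ≤ fu := by
          rcases Nat.eq_zero_or_pos m with h0 | h0
          · simp [h0]
          · have := Nat.div_lt_self h0 hp.one_lt
            omega
        have := ih (m / p) (f acc) hle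
        refine this.trans ?_
        conv_rhs => rw [← Nat.div_mul_cancel hd, ev_mul, ev_prime _ hp, Function.update_self, hφ, hc]
        rw [hf]; ring
  exact key m m acc le_rfl

def updX (V : Val) : List (Nat × Pl) → ℕ → ℂ
  | [] => V.x
  | s :: σ => Function.update (updX V σ) s.1 (pev V s.2)

def updU (V : Val) : List (Nat × Tm) → ℕ → ℂ
  | [] => V.u
  | s :: σ => Function.update (updU V σ) s.1 (s.2.ev V)

def okX (σ : List (Nat × Pl)) : Bool := σ.all fun s => isPr s.1
def okU (σ : List (Nat × Tm)) : Bool := σ.all fun s => isPr s.1 && unitT s.2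

lemma updU_ne (V : Val) (σ : List (Nat × Tm)) (h : okU σ = true) (p : ℕ) : updU V σ p ≠ 0 := by
  induction σ with
  | nil => exact V.hu p
  | cons s σ ih =>
    simp only [okU, List.all_cons, Bool.and_eq_true] at h
    unfold updU
    by_cases hp : p = s.1
    · subst hp; rw [Function.update_self]; exact unitT_ev V h.1.2
    · rw [Function.update_of_ne hp]; exact ih h.2

def Val.upd (V : Val) (σ : List (Nat × Pl)) (τ : List (Nat × Tm)) (h : okU τ = true) : Val :=
  ⟨updX V σ, updU V τ, updU_ne V τ h⟩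

def subM (σ : List (Nat × Pl)) : Nat → Pl → Pl :=
  List.rec (fun m acc => tmul (xv m) acc) (fun s _ ih => strip s.1 (pmul s.2) ih []) σ

lemma pev_subM (V : Val) (σ : List (Nat × Pl)) (h : okX σ = true) (m : ℕ) (acc : Pl) :
    pev V (subM σ m acc) = ev (updX V σ) m * pev V acc := by
  induction σ generalizing m acc with
  | nil =>
    show pev V (tmul (xv m) acc) = _
    simp [pev_tmul, xv, Tm.ev, ev_one, updX]
  | cons s σ ih =>
    simp only [okX, List.all_cons, Bool.and_eq_true] at h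
    have := strip_spec (pev V) (updX V σ) (isPr_prime h.1) (pev V s.2) (pev V s.2) id
      (fun _ _ => rfl) rfl rfl (pmul s.2) (fun a => pev_pmul V _ a) (subM σ) 1
      (fun m a => by rw [ih h.2]; simp) [] rfl m acc
    exact this.trans (by simp [updX])

def zT : Tm := ⟨0, 1, 1, 1, 1⟩

def subN (τ : List (Nat × Tm)) : Nat → Tm → Tm :=
  List.rec (fun m acc => acc.mul ⟨1, 1, 1, m, 1⟩) (fun s _ ih => strip s.1 (Tm.mul s.2) ih zT) τ

def subD (τ : List (Nat × Tm)) : Nat → Tm → Tm :=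
  List.rec (fun m acc => acc.mul ⟨1, 1, 1, 1, m⟩) (fun s _ ih => strip s.1 (Tm.mul s.2.inv) ih zT) τ

lemma ev_subN (V : Val) (τ : List (Nat × Tm)) (h : okU τ = true) (m : ℕ) (acc : Tm) :
    (subN τ m acc).ev V = ev (updU V τ) m * acc.ev V := by
  induction τ generalizing m acc with
  | nil =>
    show (acc.mul ⟨1, 1, 1, m, 1⟩).ev V = _
    rw [Tm.ev_mul]; simp [Tm.ev, ev_one, updU, mul_comm]
  | cons s σ ih =>
    simp only [okU, List.all_cons, Bool.and_eq_true] at h
    have := strip_spec (Tm.ev V) (updU V σ) (isPr_prime h.1.1) (s.2.ev V) (s.2.ev V) id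
      (fun _ _ => rfl) rfl rfl (Tm.mul s.2) (fun a => Tm.ev_mul V _ a) (subN σ) 1
      (fun m a => by rw [ih h.2]; simp) zT (by simp [zT, Tm.ev]) m acc
    exact this.trans (by simp [updU])

lemma ev_subD (V : Val) (τ : List (Nat × Tm)) (h : okU τ = true) (m : ℕ) (acc : Tm) :
    (subD τ m acc).ev V = (ev (updU V τ) m)⁻¹ * acc.ev V := by
  induction τ generalizing m acc with
  | nil =>
    show (acc.mul ⟨1, 1, 1, 1, m⟩).ev V = _
    rw [Tm.ev_mul]; simp [Tm.ev, ev_one, updU, mul_comm]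
  | cons s σ ih =>
    simp only [okU, List.all_cons, Bool.and_eq_true] at h
    have := strip_spec (Tm.ev V) (updU V σ) (isPr_prime h.1.1) (s.2.ev V) (s.2.ev V)⁻¹
      (fun a => a⁻¹) (fun a b => by rw [mul_inv]) inv_zero rfl (Tm.mul s.2.inv)
      (fun a => by rw [Tm.ev_mul, ev_inv V h.1.2]) (subD σ) 1
      (fun m a => by rw [ih h.2]; simp) zT (by simp [zT, Tm.ev]) m acc
    exact this.trans (by simp [updU])

def subT (σ : List (Nat × Pl)) (τ : List (Nat × Tm)) (t : Tm) : Pl :=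
  subM σ t.m [subN τ t.n (subD τ t.d ⟨t.c, t.e, 1, 1, 1⟩)]

def psubst (σ : List (Nat × Pl)) (τ : List (Nat × Tm)) (p : Pl) : Pl :=
  List.rec [] (fun t _ ih => padd (subT σ τ t) ih) p

lemma pev_psubst (V : Val) (σ : List (Nat × Pl)) (τ : List (Nat × Tm)) (h : okX σ = true)
    (h' : okU τ = true) (p : Pl) : pev V (psubst σ τ p) = pev (V.upd σ τ h') p := by
  induction p with
  | nil => rfl
  | cons t ts ih =>
    have e : psubst σ τ (t :: ts) = padd (subT σ τ t) (psubst σ τ ts) := rfl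
    rw [e, pev_padd, ih, pev_cons, subT, pev_subM V σ h]
    simp only [pev_cons, pev_nil, add_zero, ev_subN V τ h', ev_subD V τ h']
    simp only [Tm.ev, ev_one, Val.upd, div_eq_mul_inv]
    ring

/-- single plain substitution with a fast path -/
def sub1 (v : Nat) (q : Pl) (p : Pl) : Pl :=
  List.rec [] (fun t _ ih =>
    cond (Nat.beq (Nat.mod t.m v) 0) (padd (subM [(v, q)] t.m [⟨t.c, t.e, 1, t.n, t.d⟩]) ih)
      (padd [t] ih)) p

lemma pev_sub1 (V : Val) {v : ℕ} (hv : isPr v = true) (q p : Pl) :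
    pev V (sub1 v q p) = pev ⟨Function.update V.x v (pev V q), V.u, V.hu⟩ p := by
  induction p with
  | nil => rfl
  | cons t ts ih =>
    have e : sub1 v q (t :: ts) = cond (Nat.beq (Nat.mod t.m v) 0)
      (padd (subM [(v, q)] t.m [⟨t.c, t.e, 1, t.n, t.d⟩]) (sub1 v q ts))
      (padd [t] (sub1 v q ts)) := rfl
    rw [e]
    cases h : Nat.beq (Nat.mod t.m v) 0
    · simp only [cond_false, pev_padd, ih, pev_cons, pev_nil, add_zero]
      simp only [Tm.ev, ev_update _ _ (Nat.ne_of_beq_eq_false h)]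
    · simp only [cond_true, pev_padd, ih, pev_cons]
      rw [pev_subM V _ (by simp [okX, hv])]
      simp only [pev_cons, pev_nil, add_zero, updX, Tm.ev, ev_one]
      ring

def freshP (v : Nat) (p : Pl) : Bool :=
  List.rec true (fun t _ ih => !Nat.beq (Nat.mod t.n v) 0 && !Nat.beq (Nat.mod t.d v) 0 && ih) p

lemma pev_fresh (V : Val) (v : ℕ) (c : ℂ) (hu : ∀ p, Function.update V.u v c p ≠ 0) (p : Pl)
    (h : freshP v p = true) : pev ⟨V.x, Function.update V.u v c, hu⟩ p = pev V p := by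
  induction p with
  | nil => rfl
  | cons t ts ih =>
    have e : freshP v (t :: ts) =
      (!Nat.beq (Nat.mod t.n v) 0 && !Nat.beq (Nat.mod t.d v) 0 && freshP v ts) := rfl
    rw [e] at h
    simp only [Bool.and_eq_true, Bool.not_eq_true'] at h
    rw [pev_cons, pev_cons, ih h.2]
    simp only [Tm.ev, ev_update _ _ (Nat.ne_of_beq_eq_false h.1.1),
      ev_update _ _ (Nat.ne_of_beq_eq_false h.1.2)]

def lowP (v k : Nat) (p : Pl) : Bool := p.all fun t => !Nat.beq (Nat.mod t.m (Nat.pow v k)) 0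

open Polynomial in
lemma low_poly (V : Val) {v : ℕ} (hv : v.Prime) (k : ℕ) (p : Pl) (h : lowP v k p = true) :
    ∃ P : ℂ[X], P.degree < k ∧
      ∀ s, pev ⟨Function.update V.x v s, V.u, V.hu⟩ p = P.eval s := by
  induction p with
  | nil => exact ⟨0, by simp, fun s => by simp⟩
  | cons t ts ih =>
    simp only [lowP, List.all_cons, Bool.and_eq_true, Bool.not_eq_true'] at h
    obtain ⟨P, hP, hs⟩ := ih h.2
    have h1 : ¬ v ^ k ∣ t.m := fun hd =>
      Nat.ne_of_beq_eq_false h.1 (Nat.mod_eq_zero_of_dvd hd)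
    have h0 : t.m ≠ 0 := fun h0 => h1 (h0 ▸ dvd_zero _)
    obtain ⟨j, m', hm', hj⟩ := Nat.exists_eq_pow_mul_and_not_dvd h0 v hv.ne_one
    have hjk : j < k := by
      by_contra hh
      exact h1 (hj ▸ Dvd.dvd.mul_right (pow_dvd_pow v (not_lt.1 hh)) m')
    refine ⟨C ((t.c : ℂ) / (t.e : ℂ) * ev V.x m' * (ev V.u t.n / ev V.u t.d)) * X ^ j + P, ?_, ?_⟩
    · refine lt_of_le_of_lt (degree_add_le _ _) (max_lt ?_ hP)
      exact lt_of_le_of_lt (degree_C_mul_X_pow_le _ _) (by exact_mod_cast hjk)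
    · intro s
      rw [pev_cons, hs]
      have hmod : m' % v ≠ 0 := fun hh => hm' (Nat.dvd_of_mod_eq_zero hh)
      simp only [Tm.ev, hj, ev_mul, ev_pow, ev_prime _ hv, Function.update_self,
        ev_update _ _ hmod, eval_add, eval_mul, eval_C, eval_pow, eval_X]
      ring

open Polynomial in
lemma root_exists (V : Val) {v : ℕ} (hv : v.Prime) (k : ℕ) (hk : k ≠ 0) (w : Tm)
    (hw : unitT w = true) (p : Pl) (h : lowP v k p = true) :
    ∃ s, pev ⟨Function.update V.x v s, V.u, V.hu⟩ (padd [w.mul (xv (Nat.pow v k))] p) = V.x v := by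
  obtain ⟨P, hP, hs⟩ := low_poly V hv k p h
  have hw0 := unitT_ev V hw
  have hm : w.m = 1 := by
    simp only [unitT, Bool.and_eq_true] at hw
    exact Nat.eq_of_beq_eq_true hw.2
  have hdeg : (C (w.ev V) * X ^ k + (P - C (V.x v))).degree = (k : WithBot ℕ) := by
    have h1 : (P - C (V.x v)).degree < k := by
      refine lt_of_le_of_lt (degree_sub_le _ _) (max_lt hP ?_)
      exact lt_of_le_of_lt degree_C_le (by exact_mod_cast Nat.pos_of_ne_zero hk)
    rw [degree_add_eq_left_of_degree_lt, degree_C_mul_X_pow _ hw0]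
    rwa [degree_C_mul_X_pow _ hw0]
  obtain ⟨s, hs0⟩ := IsAlgClosed.exists_root (C (w.ev V) * X ^ k + (P - C (V.x v)))
    (by rw [hdeg]; exact_mod_cast hk)
  refine ⟨s, ?_⟩
  rw [pev_padd, hs, pev_cons, pev_nil, Tm.ev_mul]
  simp only [IsRoot.def, eval_add, eval_mul, eval_C, eval_pow, eval_X, eval_sub] at hs0
  have e1 : (xv (Nat.pow v k)).ev ⟨Function.update V.x v s, V.u, V.hu⟩ = s ^ k := by
    show ((1 : ℤ) : ℂ) / ((1 : ℕ) : ℂ) * ev _ (v ^ k) * (ev _ 1 / ev _ 1) = _
    simp [ev_pow, ev_prime _ hv, ev_one]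
  have e2 : w.ev ⟨Function.update V.x v s, V.u, V.hu⟩ = w.ev V := by
    simp [Tm.ev, hm, ev_one]
  rw [e1, e2]
  linear_combination hs0

def seqN (n : Nat) (k : Nat → Bool) : Bool := Nat.casesOn n (k 0) (fun m => k (Nat.succ m))
lemma seqN_eq (n : Nat) (k : Nat → Bool) : seqN n k = k n := by cases n <;> rfl

def seqZ (c : Int) (k : Int → Bool) : Bool :=
  Int.casesOn c (fun n => seqN n fun n => k (Int.ofNat n)) (fun n => seqN n fun n => k (Int.negSucc n))
lemma seqZ_eq (n : Int) (k : Int → Bool) : seqZ n k = k n := by cases n <;> simp [seqZ, seqN_eq]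

def seqT (t : Tm) (k : Tm → Bool) : Bool :=
  seqZ t.c fun c => seqN t.e fun e => seqN t.m fun m => seqN t.n fun n => seqN t.d fun d =>
    k ⟨c, e, m, n, d⟩
lemma seqT_eq (t : Tm) (k : Tm → Bool) : seqT t k = k t := by simp [seqT, seqN_eq, seqZ_eq]

def seqP (p : Pl) : (Pl → Bool) → Bool :=
  List.rec (fun k => k []) (fun t _ ih k => seqT t fun t' => ih fun ts => k (t' :: ts)) p
lemma seqP_eq (p : Pl) (k : Pl → Bool) : seqP p k = k p := by
  induction p generalizing k with
  | nil => rfl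
  | cons t ts ih =>
    have e : seqP (t :: ts) k = seqT t fun t' => seqP ts fun ts => k (t' :: ts) := rfl
    rw [e, seqT_eq, ih]

end

end Pool.Agent.Lib.MP_4e1a58_mp
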