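import Pool.Agent.Lib.MP_4e1a58_mp.Forms

/-! Generated certificates. -/

namespace Pool.Agent.Lib.MP_4e1a58_mp

set_option maxRecDepth 100000

noncomputable section

def sA0 : St := zSt.ovr
  [(1, [⟨1, 1, 5, 1, 1⟩]), (2, [⟨1, 1, 7, 1, 1⟩]), (3, [⟨-1, 1, 5, 1, 1⟩]), (5, [⟨1, 1, 11, 1, 1⟩]), (6, [⟨-1,
  1, 7, 1, 1⟩]), (7, [⟨-1, 1, 11, 1, 1⟩]), (9, [⟨1, 1, 13, 1, 1⟩]), (10, [⟨1, 1, 17, 1, 1⟩]), (11, [⟨1, 1, 19,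
  1, 1⟩]), (12, [⟨-1, 1, 23, 1, 1⟩]), (13, [⟨1, 1, 29, 1, 1⟩]), (14, [⟨1, 1, 31, 1, 1⟩]), (15, [⟨-1, 1, 37, 1,
  1⟩]), (16, [⟨-1, 1, 41, 1, 1⟩]), (17, [⟨1, 1, 43, 1, 1⟩]), (18, [⟨1, 1, 47, 1, 1⟩]), (19, [⟨1, 1, 53, 1,
  1⟩]), (20, [⟨1, 1, 59, 1, 1⟩]), (21, [⟨-1, 1, 61, 1, 1⟩]), (22, [⟨1, 1, 67, 1, 1⟩]), (23, [⟨1, 1, 71, 1,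
  1⟩]), (24, [⟨-1, 1, 73, 1, 1⟩]), (25, [⟨-1, 1, 79, 1, 1⟩]), (26, [⟨1, 1, 83, 1, 1⟩]), (27, [⟨-1, 1, 13, 1,
  1⟩]), (28, [⟨1, 1, 23, 1, 1⟩]), (29, [⟨1, 1, 37, 1, 1⟩]), (30, [⟨-1, 1, 17, 1, 1⟩]), (31, [⟨-1, 1, 29, 1,
  1⟩]), (32, [⟨1, 1, 41, 1, 1⟩]), (33, [⟨-1, 1, 19, 1, 1⟩]), (34, [⟨-1, 1, 31, 1, 1⟩]), (35, [⟨-1, 1, 43, 1,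
  1⟩]), (37, [⟨1, 1, 89, 1, 1⟩]), (38, [⟨1, 1, 97, 1, 1⟩]), (39, [⟨-1, 1, 89, 1, 1⟩]), (41, [⟨1, 1, 101, 1,
  1⟩]), (42, [⟨-1, 1, 97, 1, 1⟩]), (43, [⟨-1, 1, 101, 1, 1⟩]), (45, [⟨1, 1, 103, 1, 1⟩]), (46, [⟨1, 1, 107, 1,
  1⟩]), (47, [⟨1, 1, 109, 1, 1⟩]), (48, [⟨-1, 1, 113, 1, 1⟩]), (49, [⟨1, 1, 127, 1, 1⟩]), (50, [⟨1, 1, 131, 1,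
  1⟩]), (51, [⟨-1, 1, 137, 1, 1⟩]), (52, [⟨-1, 1, 139, 1, 1⟩]), (53, [⟨1, 1, 149, 1, 1⟩]), (54, [⟨-1, 1, 47, 1,
  1⟩]), (55, [⟨1, 1, 61, 1, 1⟩]), (56, [⟨1, 1, 73, 1, 1⟩]), (57, [⟨-1, 1, 53, 1, 1⟩]), (58, [⟨-1, 1, 67, 1,
  1⟩]), (59, [⟨1, 1, 79, 1, 1⟩]), (60, [⟨-1, 1, 59, 1, 1⟩]), (61, [⟨-1, 1, 71, 1, 1⟩]), (62, [⟨-1, 1, 83, 1,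
  1⟩]), (63, [⟨-1, 1, 103, 1, 1⟩]), (64, [⟨1, 1, 113, 1, 1⟩]), (65, [⟨1, 1, 137, 1, 1⟩]), (66, [⟨-1, 1, 107, 1,
  1⟩]), (67, [⟨-1, 1, 127, 1, 1⟩]), (68, [⟨1, 1, 139, 1, 1⟩]), (69, [⟨-1, 1, 109, 1, 1⟩]), (70, [⟨-1, 1, 131,
  1, 1⟩]), (71, [⟨-1, 1, 149, 1, 1⟩]), (73, [⟨1, 1, 151, 1, 1⟩]), (74, [⟨1, 1, 157, 1, 1⟩]), (75, [⟨-1, 1, 151,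
  1, 1⟩]), (77, [⟨1, 1, 163, 1, 1⟩]), (78, [⟨-1, 1, 157, 1, 1⟩]), (79, [⟨-1, 1, 163, 1, 1⟩])]
  []

def sB0 : St := zSt.ovr
  [(9, [⟨1, 1, 13, 1, 1⟩]), (10, [⟨1, 1, 17, 1, 1⟩]), (18, [⟨1, 1, 47, 1, 1⟩]), (19, [⟨1, 1, 53, 1, 1⟩]), (20,
  [⟨1, 1, 59, 1, 1⟩]), (27, [⟨-1, 1, 13, 1, 1⟩]), (30, [⟨-1, 1, 17, 1, 1⟩]), (37, [⟨1, 1, 89, 1, 1⟩]), (39,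
  [⟨-1, 1, 89, 1, 1⟩]), (45, [⟨1, 1, 103, 1, 1⟩]), (46, [⟨1, 1, 107, 1, 1⟩]), (47, [⟨1, 1, 109, 1, 1⟩]), (48,
  [⟨-1, 1, 113, 1, 1⟩]), (49, [⟨1, 1, 127, 1, 1⟩]), (50, [⟨1, 1, 131, 1, 1⟩]), (54, [⟨-1, 1, 47, 1, 1⟩]), (57,
  [⟨-1, 1, 53, 1, 1⟩]), (60, [⟨-1, 1, 59, 1, 1⟩]), (63, [⟨-1, 1, 103, 1, 1⟩]), (64, [⟨1, 1, 113, 1, 1⟩]), (66,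
  [⟨-1, 1, 107, 1, 1⟩]), (67, [⟨-1, 1, 127, 1, 1⟩]), (69, [⟨-1, 1, 109, 1, 1⟩]), (70, [⟨-1, 1, 131, 1, 1⟩]),
  (73, [⟨1, 1, 151, 1, 1⟩]), (74, [⟨1, 1, 157, 1, 1⟩]), (75, [⟨-1, 1, 151, 1, 1⟩]), (77, [⟨1, 1, 163, 1, 1⟩]),
  (78, [⟨-1, 1, 157, 1, 1⟩]), (79, [⟨-1, 1, 163, 1, 1⟩])]
  []

def sA2 : St := zSt.ovr
  [(37, [⟨1, 1, 89, 1, 1⟩]), (39, [⟨-1, 1, 89, 1, 1⟩]), (45, [⟨1, 1, 103, 1, 1⟩]), (46, [⟨1, 1, 107, 1, 1⟩]),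
  (47, [⟨1, 1, 109, 1, 1⟩]), (48, [⟨-1, 1, 113, 1, 1⟩]), (51, [⟨-1, 1, 137, 1, 1⟩]), (63, [⟨-1, 1, 103, 1,
  1⟩]), (64, [⟨1, 1, 113, 1, 1⟩]), (65, [⟨1, 1, 137, 1, 1⟩]), (66, [⟨-1, 1, 107, 1, 1⟩]), (69, [⟨-1, 1, 109, 1,
  1⟩]), (73, [⟨1, 1, 151, 1, 1⟩]), (74, [⟨1, 1, 157, 1, 1⟩]), (75, [⟨-1, 1, 151, 1, 1⟩]), (78, [⟨-1, 1, 157, 1,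
  1⟩])]
  []

def sA2g : St := zSt.ovr
  [(37, [⟨1, 1, 89, 1, 1⟩]), (38, [⟨1, 1, 97, 1, 1⟩]), (39, [⟨-1, 1, 89, 1, 1⟩]), (42, [⟨-1, 1, 97, 1, 1⟩]),
  (45, [⟨1, 1, 103, 1, 1⟩]), (46, [⟨1, 1, 107, 1, 1⟩]), (47, [⟨1, 1, 109, 1, 1⟩]), (48, [⟨-1, 1, 113, 1, 1⟩]),
  (51, [⟨-1, 1, 137, 1, 1⟩]), (63, [⟨-1, 1, 103, 1, 1⟩]), (64, [⟨1, 1, 113, 1, 1⟩]), (65, [⟨1, 1, 137, 1, 1⟩]),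
  (66, [⟨-1, 1, 107, 1, 1⟩]), (69, [⟨-1, 1, 109, 1, 1⟩]), (73, [⟨1, 1, 151, 1, 1⟩]), (74, [⟨1, 1, 157, 1, 1⟩]),
  (75, [⟨-1, 1, 151, 1, 1⟩]), (78, [⟨-1, 1, 157, 1, 1⟩])]
  []

def sA1b : St := zSt.ovr
  [(37, [⟨1, 1, 89, 1, 1⟩]), (38, [⟨1, 1, 97, 1, 1⟩]), (39, [⟨-1, 1, 89, 1, 1⟩]), (42, [⟨-1, 1, 97, 1, 1⟩]),
  (45, [⟨1, 1, 103, 1, 1⟩]), (46, [⟨1, 1, 107, 1, 1⟩]), (47, [⟨1, 1, 109, 1, 1⟩]), (48, [⟨-1, 1, 113, 1, 1⟩]),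
  (49, [⟨1, 1, 127, 1, 1⟩]), (50, [⟨1, 1, 131, 1, 1⟩]), (51, [⟨-1, 1, 137, 1, 1⟩]), (63, [⟨-1, 1, 103, 1, 1⟩]),
  (64, [⟨1, 1, 113, 1, 1⟩]), (65, [⟨1, 1, 137, 1, 1⟩]), (66, [⟨-1, 1, 107, 1, 1⟩]), (67, [⟨-1, 1, 127, 1, 1⟩]),
  (69, [⟨-1, 1, 109, 1, 1⟩]), (70, [⟨-1, 1, 131, 1, 1⟩]), (73, [⟨1, 1, 151, 1, 1⟩]), (74, [⟨1, 1, 157, 1, 1⟩]),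
  (75, [⟨-1, 1, 151, 1, 1⟩]), (77, [⟨1, 1, 163, 1, 1⟩]), (78, [⟨-1, 1, 157, 1, 1⟩]), (79, [⟨-1, 1, 163, 1, 1⟩])]
  []

def sA1 : St := zSt.ovr
  [(37, [⟨1, 1, 89, 1, 1⟩]), (38, [⟨1, 1, 97, 1, 1⟩]), (39, [⟨-1, 1, 89, 1, 1⟩]), (41, [⟨1, 1, 101, 1, 1⟩]),
  (42, [⟨-1, 1, 97, 1, 1⟩]), (43, [⟨-1, 1, 101, 1, 1⟩]), (45, [⟨1, 1, 103, 1, 1⟩]), (46, [⟨1, 1, 107, 1, 1⟩]),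
  (47, [⟨1, 1, 109, 1, 1⟩]), (48, [⟨-1, 1, 113, 1, 1⟩]), (49, [⟨1, 1, 127, 1, 1⟩]), (50, [⟨1, 1, 131, 1, 1⟩]),
  (51, [⟨-1, 1, 137, 1, 1⟩]), (52, [⟨-1, 1, 139, 1, 1⟩]), (53, [⟨1, 1, 149, 1, 1⟩]), (63, [⟨-1, 1, 103, 1,
  1⟩]), (64, [⟨1, 1, 113, 1, 1⟩]), (65, [⟨1, 1, 137, 1, 1⟩]), (66, [⟨-1, 1, 107, 1, 1⟩]), (67, [⟨-1, 1, 127, 1,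
  1⟩]), (68, [⟨1, 1, 139, 1, 1⟩]), (69, [⟨-1, 1, 109, 1, 1⟩]), (70, [⟨-1, 1, 131, 1, 1⟩]), (71, [⟨-1, 1, 149,
  1, 1⟩]), (73, [⟨1, 1, 151, 1, 1⟩]), (74, [⟨1, 1, 157, 1, 1⟩]), (75, [⟨-1, 1, 151, 1, 1⟩]), (77, [⟨1, 1, 163,
  1, 1⟩]), (78, [⟨-1, 1, 157, 1, 1⟩]), (79, [⟨-1, 1, 163, 1, 1⟩])]
  []

def sRP : St := zSt.ovr
  [(9, [⟨1, 1, 13, 1, 1⟩]), (10, [⟨1, 1, 17, 1, 1⟩]), (11, [⟨1, 1, 19, 1, 1⟩]), (18, [⟨1, 1, 47, 1, 1⟩]), (19,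
  [⟨1, 1, 53, 1, 1⟩]), (20, [⟨1, 1, 59, 1, 1⟩]), (27, [⟨-1, 1, 13, 1, 1⟩]), (30, [⟨-1, 1, 17, 1, 1⟩]), (33,
  [⟨-1, 1, 19, 1, 1⟩]), (37, [⟨1, 1, 89, 1, 1⟩]), (38, [⟨1, 1, 97, 1, 1⟩]), (39, [⟨-1, 1, 89, 1, 1⟩]), (41,
  [⟨1, 1, 101, 1, 1⟩]), (42, [⟨-1, 1, 97, 1, 1⟩]), (43, [⟨-1, 1, 101, 1, 1⟩]), (45, [⟨1, 1, 103, 1, 1⟩]), (46,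
  [⟨1, 1, 107, 1, 1⟩]), (47, [⟨1, 1, 109, 1, 1⟩]), (48, [⟨-1, 1, 113, 1, 1⟩]), (49, [⟨1, 1, 127, 1, 1⟩]), (50,
  [⟨1, 1, 131, 1, 1⟩]), (51, [⟨-1, 1, 137, 1, 1⟩]), (52, [⟨-1, 1, 139, 1, 1⟩]), (53, [⟨1, 1, 149, 1, 1⟩]), (54,
  [⟨-1, 1, 47, 1, 1⟩]), (57, [⟨-1, 1, 53, 1, 1⟩]), (60, [⟨-1, 1, 59, 1, 1⟩]), (63, [⟨-1, 1, 103, 1, 1⟩]), (64,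
  [⟨1, 1, 113, 1, 1⟩]), (65, [⟨1, 1, 137, 1, 1⟩]), (66, [⟨-1, 1, 107, 1, 1⟩]), (67, [⟨-1, 1, 127, 1, 1⟩]), (68,
  [⟨1, 1, 139, 1, 1⟩]), (69, [⟨-1, 1, 109, 1, 1⟩]), (70, [⟨-1, 1, 131, 1, 1⟩]), (71, [⟨-1, 1, 149, 1, 1⟩]),
  (73, [⟨1, 1, 151, 1, 1⟩]), (74, [⟨1, 1, 157, 1, 1⟩]), (75, [⟨-1, 1, 151, 1, 1⟩]), (77, [⟨1, 1, 163, 1, 1⟩]),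
  (78, [⟨-1, 1, 157, 1, 1⟩]), (79, [⟨-1, 1, 163, 1, 1⟩])]
  []

def sS1b : St := zSt.ovr
  [(1, [⟨1, 1, 5, 1, 1⟩]), (2, [⟨1, 1, 7, 1, 1⟩]), (3, [⟨-1, 1, 5, 1, 1⟩]), (5, [⟨1, 1, 11, 1, 1⟩]), (6, [⟨-1,
  1, 7, 1, 1⟩]), (7, [⟨-1, 1, 11, 1, 1⟩]), (9, [⟨1, 1, 13, 1, 1⟩]), (10, [⟨1, 1, 17, 1, 1⟩]), (11, [⟨1, 1, 19,
  1, 1⟩]), (12, [⟨-1, 1, 23, 1, 1⟩]), (13, [⟨1, 1, 29, 1, 1⟩]), (14, [⟨1, 1, 31, 1, 1⟩]), (15, [⟨-1, 1, 37, 1,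
  1⟩]), (16, [⟨-1, 1, 41, 1, 1⟩]), (17, [⟨1, 1, 43, 1, 1⟩]), (18, [⟨1, 1, 47, 1, 1⟩]), (19, [⟨1, 1, 53, 1,
  1⟩]), (20, [⟨1, 1, 59, 1, 1⟩]), (21, [⟨-1, 1, 61, 1, 1⟩]), (22, [⟨1, 1, 67, 1, 1⟩]), (23, [⟨1, 1, 71, 1,
  1⟩]), (24, [⟨-1, 1, 73, 1, 1⟩]), (25, [⟨-1, 1, 79, 1, 1⟩]), (26, [⟨1, 1, 83, 1, 1⟩]), (27, [⟨-1, 1, 13, 1,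
  1⟩]), (28, [⟨1, 1, 23, 1, 1⟩]), (29, [⟨1, 1, 37, 1, 1⟩]), (30, [⟨-1, 1, 17, 1, 1⟩]), (31, [⟨-1, 1, 29, 1,
  1⟩]), (32, [⟨1, 1, 41, 1, 1⟩]), (33, [⟨-1, 1, 19, 1, 1⟩]), (34, [⟨-1, 1, 31, 1, 1⟩]), (35, [⟨-1, 1, 43, 1,
  1⟩]), (37, [⟨1, 1, 89, 1, 1⟩]), (38, [⟨1, 1, 97, 1, 1⟩]), (39, [⟨-1, 1, 89, 1, 1⟩]), (41, [⟨1, 1, 101, 1,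
  1⟩]), (42, [⟨-1, 1, 97, 1, 1⟩]), (43, [⟨-1, 1, 101, 1, 1⟩]), (45, [⟨1, 1, 103, 1, 1⟩]), (46, [⟨1, 1, 107, 1,
  1⟩]), (47, [⟨1, 1, 109, 1, 1⟩]), (48, [⟨-1, 1, 113, 1, 1⟩]), (49, [⟨1, 1, 127, 1, 1⟩]), (50, [⟨1, 1, 131, 1,
  1⟩]), (51, [⟨-1, 1, 137, 1, 1⟩]), (52, [⟨-1, 1, 139, 1, 1⟩]), (53, [⟨1, 1, 149, 1, 1⟩]), (54, [⟨-1, 1, 47, 1,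
  1⟩]), (55, [⟨1, 1, 61, 1, 1⟩]), (56, [⟨1, 1, 73, 1, 1⟩]), (57, [⟨-1, 1, 53, 1, 1⟩]), (58, [⟨-1, 1, 67, 1,
  1⟩]), (59, [⟨1, 1, 79, 1, 1⟩]), (60, [⟨-1, 1, 59, 1, 1⟩]), (61, [⟨-1, 1, 71, 1, 1⟩]), (62, [⟨-1, 1, 83, 1,
  1⟩]), (63, [⟨-1, 1, 103, 1, 1⟩]), (64, [⟨1, 1, 113, 1, 1⟩]), (65, [⟨1, 1, 137, 1, 1⟩]), (66, [⟨-1, 1, 107, 1,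
  1⟩]), (67, [⟨-1, 1, 127, 1, 1⟩]), (68, [⟨1, 1, 139, 1, 1⟩]), (69, [⟨-1, 1, 109, 1, 1⟩]), (70, [⟨-1, 1, 131,
  1, 1⟩]), (71, [⟨-1, 1, 149, 1, 1⟩]), (73, [⟨1, 1, 151, 1, 1⟩]), (74, [⟨1, 1, 157, 1, 1⟩]), (75, [⟨-1, 1, 151,
  1, 1⟩]), (77, [⟨1, 1, 163, 1, 1⟩]), (78, [⟨-1, 1, 157, 1, 1⟩]), (79, [⟨-1, 1, 163, 1, 1⟩])]
  [(0, [⟨1, 1, 167, 1, 1⟩]), (1, [⟨1, 1, 173, 1, 1⟩]), (2, [⟨1, 1, 179, 1, 1⟩]), (9, [⟨1, 1, 181, 1, 1⟩]), (10,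
  [⟨1, 1, 191, 1, 1⟩]), (11, [⟨1, 1, 193, 1, 1⟩]), (18, [⟨1, 1, 197, 1, 1⟩]), (19, [⟨1, 1, 199, 1, 1⟩]), (20,
  [⟨1, 1, 211, 1, 1⟩]), (27, [⟨1, 1, 223, 1, 1⟩]), (28, [⟨1, 1, 227, 1, 1⟩]), (29, [⟨1, 1, 229, 1, 1⟩]), (36,
  [⟨1, 1, 233, 1, 1⟩]), (37, [⟨1, 1, 239, 1, 1⟩]), (38, [⟨1, 1, 241, 1, 1⟩]), (45, [⟨1, 1, 251, 1, 1⟩]), (46,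
  [⟨1, 1, 257, 1, 1⟩]), (47, [⟨1, 1, 263, 1, 1⟩]), (48, [⟨1, 1, 1, 1, 1⟩]), (54, [⟨1, 1, 269, 1, 1⟩]), (55,
  [⟨1, 1, 271, 1, 1⟩]), (56, [⟨1, 1, 277, 1, 1⟩]), (57, [⟨1, 1, 281, 1, 1⟩]), (58, [⟨1, 1, 283, 1, 1⟩]), (59,
  [⟨1, 1, 293, 1, 1⟩]), (60, [⟨1, 1, 167, 1, 1⟩]), (61, [⟨1, 1, 173, 1, 1⟩]), (62, [⟨1, 1, 179, 1, 1⟩]), (63,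
  [⟨1, 1, 307, 1, 1⟩]), (64, [⟨1, 1, 311, 1, 1⟩]), (65, [⟨1, 1, 313, 1, 1⟩]), (66, [⟨1, 1, 317, 1, 1⟩]), (67,
  [⟨1, 1, 331, 1, 1⟩]), (68, [⟨1, 1, 337, 1, 1⟩]), (69, [⟨1, 1, 181, 1, 1⟩]), (70, [⟨1, 1, 191, 1, 1⟩]), (71,
  [⟨1, 1, 193, 1, 1⟩]), (72, [⟨1, 1, 347, 1, 1⟩]), (73, [⟨1, 1, 349, 1, 1⟩]), (74, [⟨1, 1, 353, 1, 1⟩]), (75,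
  [⟨1, 1, 359, 1, 1⟩]), (76, [⟨1, 1, 367, 1, 1⟩]), (77, [⟨1, 1, 373, 1, 1⟩]), (78, [⟨1, 1, 197, 1, 1⟩]), (79,
  [⟨1, 1, 199, 1, 1⟩]), (80, [⟨1, 1, 211, 1, 1⟩])]

def sS1a : St := zSt.ovr
  [(1, [⟨1, 1, 5, 1, 1⟩]), (2, [⟨1, 1, 7, 1, 1⟩]), (3, [⟨-1, 1, 5, 1, 1⟩]), (5, [⟨1, 1, 11, 1, 1⟩]), (6, [⟨-1,
  1, 7, 1, 1⟩]), (7, [⟨-1, 1, 11, 1, 1⟩]), (9, [⟨1, 1, 13, 1, 1⟩]), (10, [⟨1, 1, 17, 1, 1⟩]), (11, [⟨1, 1, 19,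
  1, 1⟩]), (12, [⟨-1, 1, 23, 1, 1⟩]), (13, [⟨1, 1, 29, 1, 1⟩]), (14, [⟨1, 1, 31, 1, 1⟩]), (15, [⟨-1, 1, 37, 1,
  1⟩]), (16, [⟨-1, 1, 41, 1, 1⟩]), (17, [⟨1, 1, 43, 1, 1⟩]), (18, [⟨1, 1, 47, 1, 1⟩]), (19, [⟨1, 1, 53, 1,
  1⟩]), (20, [⟨1, 1, 59, 1, 1⟩]), (21, [⟨-1, 1, 61, 1, 1⟩]), (22, [⟨1, 1, 67, 1, 1⟩]), (23, [⟨1, 1, 71, 1,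
  1⟩]), (24, [⟨-1, 1, 73, 1, 1⟩]), (25, [⟨-1, 1, 79, 1, 1⟩]), (26, [⟨1, 1, 83, 1, 1⟩]), (27, [⟨-1, 1, 13, 1,
  1⟩]), (28, [⟨1, 1, 23, 1, 1⟩]), (29, [⟨1, 1, 37, 1, 1⟩]), (30, [⟨-1, 1, 17, 1, 1⟩]), (31, [⟨-1, 1, 29, 1,
  1⟩]), (32, [⟨1, 1, 41, 1, 1⟩]), (33, [⟨-1, 1, 19, 1, 1⟩]), (34, [⟨-1, 1, 31, 1, 1⟩]), (35, [⟨-1, 1, 43, 1,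
  1⟩]), (37, [⟨1, 1, 89, 1, 1⟩]), (38, [⟨1, 1, 97, 1, 1⟩]), (39, [⟨-1, 1, 89, 1, 1⟩]), (41, [⟨1, 1, 101, 1,
  1⟩]), (42, [⟨-1, 1, 97, 1, 1⟩]), (43, [⟨-1, 1, 101, 1, 1⟩]), (45, [⟨1, 1, 103, 1, 1⟩]), (46, [⟨1, 1, 107, 1,
  1⟩]), (47, [⟨1, 1, 109, 1, 1⟩]), (48, [⟨-1, 1, 113, 1, 1⟩]), (49, [⟨1, 1, 127, 1, 1⟩]), (50, [⟨1, 1, 131, 1,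
  1⟩]), (51, [⟨-1, 1, 137, 1, 1⟩]), (52, [⟨-1, 1, 139, 1, 1⟩]), (53, [⟨1, 1, 149, 1, 1⟩]), (54, [⟨-1, 1, 47, 1,
  1⟩]), (55, [⟨1, 1, 61, 1, 1⟩]), (56, [⟨1, 1, 73, 1, 1⟩]), (57, [⟨-1, 1, 53, 1, 1⟩]), (58, [⟨-1, 1, 67, 1,
  1⟩]), (59, [⟨1, 1, 79, 1, 1⟩]), (60, [⟨-1, 1, 59, 1, 1⟩]), (61, [⟨-1, 1, 71, 1, 1⟩]), (62, [⟨-1, 1, 83, 1,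
  1⟩]), (63, [⟨-1, 1, 103, 1, 1⟩]), (64, [⟨1, 1, 113, 1, 1⟩]), (65, [⟨1, 1, 137, 1, 1⟩]), (66, [⟨-1, 1, 107, 1,
  1⟩]), (67, [⟨-1, 1, 127, 1, 1⟩]), (68, [⟨1, 1, 139, 1, 1⟩]), (69, [⟨-1, 1, 109, 1, 1⟩]), (70, [⟨-1, 1, 131,
  1, 1⟩]), (71, [⟨-1, 1, 149, 1, 1⟩]), (73, [⟨1, 1, 151, 1, 1⟩]), (74, [⟨1, 1, 157, 1, 1⟩]), (75, [⟨-1, 1, 151,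
  1, 1⟩]), (77, [⟨1, 1, 163, 1, 1⟩]), (78, [⟨-1, 1, 157, 1, 1⟩]), (79, [⟨-1, 1, 163, 1, 1⟩])]
  [(18, [⟨1, 1, 1, 1, 1⟩]), (27, [⟨1, 1, 223, 1, 1⟩]), (28, [⟨1, 1, 227, 1, 1⟩]), (29, [⟨1, 1, 229, 1, 1⟩]),
  (30, [⟨1, 1, 379, 1, 1⟩]), (31, [⟨1, 1, 383, 1, 1⟩]), (32, [⟨1, 1, 389, 1, 1⟩]), (36, [⟨1, 1, 233, 1, 1⟩]),
  (37, [⟨1, 1, 239, 1, 1⟩]), (38, [⟨1, 1, 241, 1, 1⟩]), (39, [⟨1, 1, 397, 1, 1⟩]), (40, [⟨1, 1, 401, 1, 1⟩]),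
  (41, [⟨1, 1, 409, 1, 1⟩]), (45, [⟨1, 1, 251, 1, 1⟩]), (46, [⟨1, 1, 257, 1, 1⟩]), (47, [⟨1, 1, 263, 1, 1⟩]),
  (48, [⟨1, 1, 419, 1, 1⟩]), (49, [⟨1, 1, 421, 1, 1⟩]), (50, [⟨1, 1, 431, 1, 1⟩]), (54, [⟨1, 1, 269, 1, 1⟩]),
  (55, [⟨1, 1, 271, 1, 1⟩]), (56, [⟨1, 1, 277, 1, 1⟩]), (57, [⟨1, 1, 281, 1, 1⟩]), (58, [⟨1, 1, 283, 1, 1⟩]),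
  (59, [⟨1, 1, 293, 1, 1⟩]), (63, [⟨1, 1, 307, 1, 1⟩]), (64, [⟨1, 1, 311, 1, 1⟩]), (65, [⟨1, 1, 313, 1, 1⟩]),
  (66, [⟨1, 1, 317, 1, 1⟩]), (67, [⟨1, 1, 331, 1, 1⟩]), (68, [⟨1, 1, 337, 1, 1⟩]), (72, [⟨1, 1, 347, 1, 1⟩]),
  (73, [⟨1, 1, 349, 1, 1⟩]), (74, [⟨1, 1, 353, 1, 1⟩]), (75, [⟨1, 1, 359, 1, 1⟩]), (76, [⟨1, 1, 367, 1, 1⟩]),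
  (77, [⟨1, 1, 373, 1, 1⟩]), (78, [⟨1, 1, 1, 1, 1⟩])]

def sN1b : St := zSt.ovr
  [(45, [⟨1, 1, 103, 1, 1⟩]), (63, [⟨-1, 1, 103, 1, 1⟩])]
  [(45, [⟨1, 1, 251, 1, 1⟩]), (63, [⟨1, 1, 307, 1, 1⟩]), (72, [⟨1, 1, 347, 1, 1⟩])]

def sN1 : St := zSt.ovr
  [(45, [⟨1, 1, 103, 1, 1⟩]), (63, [⟨-1, 1, 103, 1, 1⟩])]
  [(36, [⟨1, 1, 233, 1, 1⟩]), (45, [⟨1, 1, 251, 1, 1⟩]), (63, [⟨1, 1, 307, 1, 1⟩]), (72, [⟨1, 1, 347, 1, 1⟩])]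

def sN2b : St := zSt.ovr
  [(73, [⟨1, 1, 151, 1, 1⟩]), (75, [⟨-1, 1, 151, 1, 1⟩])]
  [(72, [⟨1, 1, 347, 1, 1⟩]), (73, [⟨1, 1, 349, 1, 1⟩]), (75, [⟨1, 1, 359, 1, 1⟩])]

def sN2 : St := zSt.ovr
  [(73, [⟨1, 1, 151, 1, 1⟩]), (75, [⟨-1, 1, 151, 1, 1⟩])]
  [(72, [⟨1, 1, 347, 1, 1⟩]), (73, [⟨1, 1, 349, 1, 1⟩]), (75, [⟨1, 1, 359, 1, 1⟩]), (76, [⟨1, 1, 367, 1, 1⟩])]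

def sG : St := zSt.ovr
  [(45, [⟨1, 1, 103, 1, 1⟩]), (63, [⟨-1, 1, 103, 1, 1⟩]), (73, [⟨1, 1, 151, 1, 1⟩]), (75, [⟨-1, 1, 151, 1, 1⟩])]
  [(45, [⟨1, 1, 1, 1, 1⟩]), (63, [⟨1, 1, 307, 1, 1⟩]), (72, [⟨1, 1, 347, 1, 1⟩]), (73, [⟨1, 1, 307, 1, 1⟩]),
  (75, [⟨1, 1, 1, 1, 1⟩])]

def sQ : St := zSt.ovr
  [(1, [⟨1, 1, 5, 1, 1⟩]), (2, [⟨1, 1, 7, 1, 1⟩]), (3, [⟨-1, 1, 5, 1, 1⟩]), (5, [⟨1, 1, 11, 1, 1⟩]), (6, [⟨-1,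
  1, 7, 1, 1⟩]), (7, [⟨-1, 1, 11, 1, 1⟩]), (9, [⟨1, 1, 13, 1, 1⟩]), (10, [⟨1, 1, 17, 1, 1⟩]), (11, [⟨1, 1, 19,
  1, 1⟩]), (12, [⟨-1, 1, 23, 1, 1⟩]), (13, [⟨1, 1, 29, 1, 1⟩]), (14, [⟨1, 1, 31, 1, 1⟩]), (15, [⟨-1, 1, 37, 1,
  1⟩]), (16, [⟨-1, 1, 41, 1, 1⟩]), (17, [⟨1, 1, 43, 1, 1⟩]), (18, [⟨1, 1, 47, 1, 1⟩]), (19, [⟨1, 1, 53, 1,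
  1⟩]), (20, [⟨1, 1, 59, 1, 1⟩]), (21, [⟨-1, 1, 61, 1, 1⟩]), (22, [⟨1, 1, 67, 1, 1⟩]), (23, [⟨1, 1, 71, 1,
  1⟩]), (24, [⟨-1, 1, 73, 1, 1⟩]), (25, [⟨-1, 1, 79, 1, 1⟩]), (26, [⟨1, 1, 83, 1, 1⟩]), (27, [⟨-1, 1, 13, 1,
  1⟩]), (28, [⟨1, 1, 23, 1, 1⟩]), (29, [⟨1, 1, 37, 1, 1⟩]), (30, [⟨-1, 1, 17, 1, 1⟩]), (31, [⟨-1, 1, 29, 1,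
  1⟩]), (32, [⟨1, 1, 41, 1, 1⟩]), (33, [⟨-1, 1, 19, 1, 1⟩]), (34, [⟨-1, 1, 31, 1, 1⟩]), (35, [⟨-1, 1, 43, 1,
  1⟩]), (37, [⟨1, 1, 89, 1, 1⟩]), (38, [⟨1, 1, 97, 1, 1⟩]), (39, [⟨-1, 1, 89, 1, 1⟩]), (41, [⟨1, 1, 101, 1,
  1⟩]), (42, [⟨-1, 1, 97, 1, 1⟩]), (43, [⟨-1, 1, 101, 1, 1⟩]), (45, [⟨1, 1, 103, 1, 1⟩]), (46, [⟨1, 1, 107, 1,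
  1⟩]), (47, [⟨1, 1, 109, 1, 1⟩]), (48, [⟨-1, 1, 113, 1, 1⟩]), (49, [⟨1, 1, 127, 1, 1⟩]), (50, [⟨1, 1, 131, 1,
  1⟩]), (51, [⟨-1, 1, 137, 1, 1⟩]), (52, [⟨-1, 1, 139, 1, 1⟩]), (53, [⟨1, 1, 149, 1, 1⟩]), (54, [⟨-1, 1, 47, 1,
  1⟩]), (55, [⟨1, 1, 61, 1, 1⟩]), (56, [⟨1, 1, 73, 1, 1⟩]), (57, [⟨-1, 1, 53, 1, 1⟩]), (58, [⟨-1, 1, 67, 1,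
  1⟩]), (59, [⟨1, 1, 79, 1, 1⟩]), (60, [⟨-1, 1, 59, 1, 1⟩]), (61, [⟨-1, 1, 71, 1, 1⟩]), (62, [⟨-1, 1, 83, 1,
  1⟩]), (63, [⟨-1, 1, 103, 1, 1⟩]), (64, [⟨1, 1, 113, 1, 1⟩]), (65, [⟨1, 1, 137, 1, 1⟩]), (66, [⟨-1, 1, 107, 1,
  1⟩]), (67, [⟨-1, 1, 127, 1, 1⟩]), (68, [⟨1, 1, 139, 1, 1⟩]), (69, [⟨-1, 1, 109, 1, 1⟩]), (70, [⟨-1, 1, 131,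
  1, 1⟩]), (71, [⟨-1, 1, 149, 1, 1⟩]), (73, [⟨1, 1, 151, 1, 1⟩]), (74, [⟨1, 1, 157, 1, 1⟩]), (75, [⟨-1, 1, 151,
  1, 1⟩]), (77, [⟨1, 1, 163, 1, 1⟩]), (78, [⟨-1, 1, 157, 1, 1⟩]), (79, [⟨-1, 1, 163, 1, 1⟩])]
  [(36, [⟨1, 1, 233, 1, 1⟩]), (45, [⟨1, 1, 251, 1, 1⟩]), (46, [⟨1, 1, 257, 1, 1⟩]), (63, [⟨1, 1, 307, 1, 1⟩]),
  (66, [⟨1, 1, 317, 1, 1⟩]), (72, [⟨1, 1, 347, 1, 1⟩]), (73, [⟨1, 1, 349, 1, 1⟩]), (75, [⟨1, 1, 359, 1, 1⟩]),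
  (76, [⟨1, 1, 367, 1, 1⟩])]

def sR2 : St := zSt.ovr
  [(1, [⟨1, 1, 5, 1, 1⟩]), (2, [⟨1, 1, 7, 1, 1⟩]), (3, [⟨-1, 1, 5, 1, 1⟩]), (5, [⟨1, 1, 11, 1, 1⟩]), (6, [⟨-1,
  1, 7, 1, 1⟩]), (7, [⟨-1, 1, 11, 1, 1⟩]), (9, [⟨1, 1, 13, 1, 1⟩]), (10, [⟨1, 1, 17, 1, 1⟩]), (11, [⟨1, 1, 19,
  1, 1⟩]), (12, [⟨-1, 1, 23, 1, 1⟩]), (13, [⟨1, 1, 29, 1, 1⟩]), (14, [⟨1, 1, 31, 1, 1⟩]), (15, [⟨-1, 1, 37, 1,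
  1⟩]), (16, [⟨-1, 1, 41, 1, 1⟩]), (17, [⟨1, 1, 43, 1, 1⟩]), (18, [⟨1, 1, 47, 1, 1⟩]), (19, [⟨1, 1, 53, 1,
  1⟩]), (20, [⟨1, 1, 59, 1, 1⟩]), (21, [⟨-1, 1, 61, 1, 1⟩]), (22, [⟨1, 1, 67, 1, 1⟩]), (23, [⟨1, 1, 71, 1,
  1⟩]), (24, [⟨-1, 1, 73, 1, 1⟩]), (25, [⟨-1, 1, 79, 1, 1⟩]), (26, [⟨1, 1, 83, 1, 1⟩]), (27, [⟨-1, 1, 13, 1,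
  1⟩]), (28, [⟨1, 1, 23, 1, 1⟩]), (29, [⟨1, 1, 37, 1, 1⟩]), (30, [⟨-1, 1, 17, 1, 1⟩]), (31, [⟨-1, 1, 29, 1,
  1⟩]), (32, [⟨1, 1, 41, 1, 1⟩]), (33, [⟨-1, 1, 19, 1, 1⟩]), (34, [⟨-1, 1, 31, 1, 1⟩]), (35, [⟨-1, 1, 43, 1,
  1⟩]), (37, [⟨1, 1, 89, 1, 1⟩]), (38, [⟨1, 1, 97, 1, 1⟩]), (39, [⟨-1, 1, 89, 1, 1⟩]), (41, [⟨1, 1, 101, 1,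
  1⟩]), (42, [⟨-1, 1, 97, 1, 1⟩]), (43, [⟨-1, 1, 101, 1, 1⟩]), (45, [⟨1, 1, 103, 1, 1⟩]), (46, [⟨1, 1, 107, 1,
  1⟩]), (47, [⟨1, 1, 109, 1, 1⟩]), (48, [⟨-1, 1, 113, 1, 1⟩]), (49, [⟨1, 1, 127, 1, 1⟩]), (50, [⟨1, 1, 131, 1,
  1⟩]), (51, [⟨-1, 1, 137, 1, 1⟩]), (52, [⟨-1, 1, 139, 1, 1⟩]), (53, [⟨1, 1, 149, 1, 1⟩]), (54, [⟨-1, 1, 47, 1,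
  1⟩]), (55, [⟨1, 1, 61, 1, 1⟩]), (56, [⟨1, 1, 73, 1, 1⟩]), (57, [⟨-1, 1, 53, 1, 1⟩]), (58, [⟨-1, 1, 67, 1,
  1⟩]), (59, [⟨1, 1, 79, 1, 1⟩]), (60, [⟨-1, 1, 59, 1, 1⟩]), (61, [⟨-1, 1, 71, 1, 1⟩]), (62, [⟨-1, 1, 83, 1,
  1⟩]), (63, [⟨-1, 1, 103, 1, 1⟩]), (64, [⟨1, 1, 113, 1, 1⟩]), (65, [⟨1, 1, 137, 1, 1⟩]), (66, [⟨-1, 1, 107, 1,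
  1⟩]), (67, [⟨-1, 1, 127, 1, 1⟩]), (68, [⟨1, 1, 139, 1, 1⟩]), (69, [⟨-1, 1, 109, 1, 1⟩]), (70, [⟨-1, 1, 131,
  1, 1⟩]), (71, [⟨-1, 1, 149, 1, 1⟩]), (73, [⟨1, 1, 151, 1, 1⟩]), (74, [⟨1, 1, 157, 1, 1⟩]), (75, [⟨-1, 1, 151,
  1, 1⟩]), (77, [⟨1, 1, 163, 1, 1⟩]), (78, [⟨-1, 1, 157, 1, 1⟩]), (79, [⟨-1, 1, 163, 1, 1⟩])]
  [(9, [⟨1, 1, 181, 1, 1⟩]), (18, [⟨1, 1, 197, 1, 1⟩]), (19, [⟨1, 1, 199, 1, 1⟩]), (36, [⟨1, 1, 233, 1, 1⟩]),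
  (39, [⟨1, 1, 397, 1, 1⟩]), (45, [⟨1, 1, 251, 1, 1⟩]), (46, [⟨1, 1, 257, 1, 1⟩]), (48, [⟨1, 1, 419, 1, 1⟩]),
  (49, [⟨1, 1, 421, 1, 1⟩]), (63, [⟨1, 1, 307, 1, 1⟩]), (66, [⟨1, 1, 317, 1, 1⟩]), (69, [⟨1, 1, 433, 1, 1⟩]),
  (72, [⟨1, 1, 347, 1, 1⟩]), (73, [⟨1, 1, 349, 1, 1⟩]), (75, [⟨1, 1, 359, 1, 1⟩]), (76, [⟨1, 1, 367, 1, 1⟩]),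
  (78, [⟨1, 1, 439, 1, 1⟩]), (79, [⟨1, 1, 443, 1, 1⟩])]

def sR3 : St := zSt.ovr
  [(1, [⟨1, 1, 5, 1, 1⟩]), (2, [⟨1, 1, 7, 1, 1⟩]), (3, [⟨-1, 1, 5, 1, 1⟩]), (5, [⟨1, 1, 11, 1, 1⟩]), (6, [⟨-1,
  1, 7, 1, 1⟩]), (7, [⟨-1, 1, 11, 1, 1⟩]), (9, [⟨1, 1, 13, 1, 1⟩]), (10, [⟨1, 1, 17, 1, 1⟩]), (11, [⟨1, 1, 19,
  1, 1⟩]), (12, [⟨-1, 1, 23, 1, 1⟩]), (13, [⟨1, 1, 29, 1, 1⟩]), (14, [⟨1, 1, 31, 1, 1⟩]), (15, [⟨-1, 1, 37, 1,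
  1⟩]), (16, [⟨-1, 1, 41, 1, 1⟩]), (17, [⟨1, 1, 43, 1, 1⟩]), (18, [⟨1, 1, 47, 1, 1⟩]), (19, [⟨1, 1, 53, 1,
  1⟩]), (20, [⟨1, 1, 59, 1, 1⟩]), (21, [⟨-1, 1, 61, 1, 1⟩]), (22, [⟨1, 1, 67, 1, 1⟩]), (23, [⟨1, 1, 71, 1,
  1⟩]), (24, [⟨-1, 1, 73, 1, 1⟩]), (25, [⟨-1, 1, 79, 1, 1⟩]), (26, [⟨1, 1, 83, 1, 1⟩]), (27, [⟨-1, 1, 13, 1,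
  1⟩]), (28, [⟨1, 1, 23, 1, 1⟩]), (29, [⟨1, 1, 37, 1, 1⟩]), (30, [⟨-1, 1, 17, 1, 1⟩]), (31, [⟨-1, 1, 29, 1,
  1⟩]), (32, [⟨1, 1, 41, 1, 1⟩]), (33, [⟨-1, 1, 19, 1, 1⟩]), (34, [⟨-1, 1, 31, 1, 1⟩]), (35, [⟨-1, 1, 43, 1,
  1⟩]), (37, [⟨1, 1, 89, 1, 1⟩]), (38, [⟨1, 1, 97, 1, 1⟩]), (39, [⟨-1, 1, 89, 1, 1⟩]), (41, [⟨1, 1, 101, 1,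
  1⟩]), (42, [⟨-1, 1, 97, 1, 1⟩]), (43, [⟨-1, 1, 101, 1, 1⟩]), (45, [⟨1, 1, 103, 1, 1⟩]), (46, [⟨1, 1, 107, 1,
  1⟩]), (47, [⟨1, 1, 109, 1, 1⟩]), (48, [⟨-1, 1, 113, 1, 1⟩]), (49, [⟨1, 1, 127, 1, 1⟩]), (50, [⟨1, 1, 131, 1,
  1⟩]), (51, [⟨-1, 1, 137, 1, 1⟩]), (52, [⟨-1, 1, 139, 1, 1⟩]), (53, [⟨1, 1, 149, 1, 1⟩]), (54, [⟨-1, 1, 47, 1,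
  1⟩]), (55, [⟨1, 1, 61, 1, 1⟩]), (56, [⟨1, 1, 73, 1, 1⟩]), (57, [⟨-1, 1, 53, 1, 1⟩]), (58, [⟨-1, 1, 67, 1,
  1⟩]), (59, [⟨1, 1, 79, 1, 1⟩]), (60, [⟨-1, 1, 59, 1, 1⟩]), (61, [⟨-1, 1, 71, 1, 1⟩]), (62, [⟨-1, 1, 83, 1,
  1⟩]), (63, [⟨-1, 1, 103, 1, 1⟩]), (64, [⟨1, 1, 113, 1, 1⟩]), (65, [⟨1, 1, 137, 1, 1⟩]), (66, [⟨-1, 1, 107, 1,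
  1⟩]), (67, [⟨-1, 1, 127, 1, 1⟩]), (68, [⟨1, 1, 139, 1, 1⟩]), (69, [⟨-1, 1, 109, 1, 1⟩]), (70, [⟨-1, 1, 131,
  1, 1⟩]), (71, [⟨-1, 1, 149, 1, 1⟩]), (73, [⟨1, 1, 151, 1, 1⟩]), (74, [⟨1, 1, 157, 1, 1⟩]), (75, [⟨-1, 1, 151,
  1, 1⟩]), (77, [⟨1, 1, 163, 1, 1⟩]), (78, [⟨-1, 1, 157, 1, 1⟩]), (79, [⟨-1, 1, 163, 1, 1⟩])]
  [(27, [⟨1, 1, 223, 1, 1⟩]), (28, [⟨1, 1, 227, 1, 1⟩]), (29, [⟨1, 1, 229, 1, 1⟩]), (36, [⟨1, 1, 233, 1, 1⟩]),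
  (37, [⟨1, 1, 239, 1, 1⟩]), (38, [⟨1, 1, 241, 1, 1⟩]), (45, [⟨1, 1, 251, 1, 1⟩]), (46, [⟨1, 1, 257, 1, 1⟩]),
  (47, [⟨1, 1, 263, 1, 1⟩]), (54, [⟨1, 1, 269, 1, 1⟩]), (55, [⟨1, 1, 271, 1, 1⟩]), (56, [⟨1, 1, 277, 1, 1⟩]),
  (57, [⟨1, 1, 281, 1, 1⟩]), (58, [⟨1, 1, 283, 1, 1⟩]), (59, [⟨1, 1, 293, 1, 1⟩]), (63, [⟨1, 1, 307, 1, 1⟩]),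
  (64, [⟨1, 1, 311, 1, 1⟩]), (65, [⟨1, 1, 313, 1, 1⟩]), (66, [⟨1, 1, 317, 1, 1⟩]), (67, [⟨1, 1, 331, 1, 1⟩]),
  (68, [⟨1, 1, 337, 1, 1⟩]), (72, [⟨1, 1, 347, 1, 1⟩]), (73, [⟨1, 1, 349, 1, 1⟩]), (74, [⟨1, 1, 353, 1, 1⟩]),
  (75, [⟨1, 1, 359, 1, 1⟩]), (76, [⟨1, 1, 367, 1, 1⟩]), (77, [⟨1, 1, 373, 1, 1⟩])]

def sR0 : St := zSt.ovr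
  [(1, [⟨1, 1, 5, 1, 1⟩]), (2, [⟨1, 1, 7, 1, 1⟩]), (3, [⟨-1, 1, 5, 1, 1⟩]), (5, [⟨1, 1, 11, 1, 1⟩]), (6, [⟨-1,
  1, 7, 1, 1⟩]), (7, [⟨-1, 1, 11, 1, 1⟩]), (9, [⟨1, 1, 13, 1, 1⟩]), (10, [⟨1, 1, 17, 1, 1⟩]), (11, [⟨1, 1, 19,
  1, 1⟩]), (12, [⟨-1, 1, 23, 1, 1⟩]), (13, [⟨1, 1, 29, 1, 1⟩]), (14, [⟨1, 1, 31, 1, 1⟩]), (15, [⟨-1, 1, 37, 1,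
  1⟩]), (16, [⟨-1, 1, 41, 1, 1⟩]), (17, [⟨1, 1, 43, 1, 1⟩]), (18, [⟨1, 1, 47, 1, 1⟩]), (19, [⟨1, 1, 53, 1,
  1⟩]), (20, [⟨1, 1, 59, 1, 1⟩]), (21, [⟨-1, 1, 61, 1, 1⟩]), (22, [⟨1, 1, 67, 1, 1⟩]), (23, [⟨1, 1, 71, 1,
  1⟩]), (24, [⟨-1, 1, 73, 1, 1⟩]), (25, [⟨-1, 1, 79, 1, 1⟩]), (26, [⟨1, 1, 83, 1, 1⟩]), (27, [⟨-1, 1, 13, 1,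
  1⟩]), (28, [⟨1, 1, 23, 1, 1⟩]), (29, [⟨1, 1, 37, 1, 1⟩]), (30, [⟨-1, 1, 17, 1, 1⟩]), (31, [⟨-1, 1, 29, 1,
  1⟩]), (32, [⟨1, 1, 41, 1, 1⟩]), (33, [⟨-1, 1, 19, 1, 1⟩]), (34, [⟨-1, 1, 31, 1, 1⟩]), (35, [⟨-1, 1, 43, 1,
  1⟩]), (37, [⟨1, 1, 89, 1, 1⟩]), (38, [⟨1, 1, 97, 1, 1⟩]), (39, [⟨-1, 1, 89, 1, 1⟩]), (41, [⟨1, 1, 101, 1,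
  1⟩]), (42, [⟨-1, 1, 97, 1, 1⟩]), (43, [⟨-1, 1, 101, 1, 1⟩]), (45, [⟨1, 1, 103, 1, 1⟩]), (46, [⟨1, 1, 107, 1,
  1⟩]), (47, [⟨1, 1, 109, 1, 1⟩]), (48, [⟨-1, 1, 113, 1, 1⟩]), (49, [⟨1, 1, 127, 1, 1⟩]), (50, [⟨1, 1, 131, 1,
  1⟩]), (51, [⟨-1, 1, 137, 1, 1⟩]), (52, [⟨-1, 1, 139, 1, 1⟩]), (53, [⟨1, 1, 149, 1, 1⟩]), (54, [⟨-1, 1, 47, 1,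
  1⟩]), (55, [⟨1, 1, 61, 1, 1⟩]), (56, [⟨1, 1, 73, 1, 1⟩]), (57, [⟨-1, 1, 53, 1, 1⟩]), (58, [⟨-1, 1, 67, 1,
  1⟩]), (59, [⟨1, 1, 79, 1, 1⟩]), (60, [⟨-1, 1, 59, 1, 1⟩]), (61, [⟨-1, 1, 71, 1, 1⟩]), (62, [⟨-1, 1, 83, 1,
  1⟩]), (63, [⟨-1, 1, 103, 1, 1⟩]), (64, [⟨1, 1, 113, 1, 1⟩]), (65, [⟨1, 1, 137, 1, 1⟩]), (66, [⟨-1, 1, 107, 1,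
  1⟩]), (67, [⟨-1, 1, 127, 1, 1⟩]), (68, [⟨1, 1, 139, 1, 1⟩]), (69, [⟨-1, 1, 109, 1, 1⟩]), (70, [⟨-1, 1, 131,
  1, 1⟩]), (71, [⟨-1, 1, 149, 1, 1⟩]), (73, [⟨1, 1, 151, 1, 1⟩]), (74, [⟨1, 1, 157, 1, 1⟩]), (75, [⟨-1, 1, 151,
  1, 1⟩]), (77, [⟨1, 1, 163, 1, 1⟩]), (78, [⟨-1, 1, 157, 1, 1⟩]), (79, [⟨-1, 1, 163, 1, 1⟩])]
  [(0, [⟨1, 1, 167, 1, 1⟩]), (1, [⟨1, 1, 173, 1, 1⟩]), (2, [⟨1, 1, 179, 1, 1⟩]), (9, [⟨1, 1, 181, 1, 1⟩]), (10,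
  [⟨1, 1, 191, 1, 1⟩]), (11, [⟨1, 1, 193, 1, 1⟩]), (18, [⟨1, 1, 197, 1, 1⟩]), (19, [⟨1, 1, 199, 1, 1⟩]), (20,
  [⟨1, 1, 211, 1, 1⟩]), (27, [⟨1, 1, 223, 1, 1⟩]), (28, [⟨1, 1, 227, 1, 1⟩]), (29, [⟨1, 1, 229, 1, 1⟩]), (30,
  [⟨1, 1, 379, 1, 1⟩]), (31, [⟨1, 1, 383, 1, 1⟩]), (32, [⟨1, 1, 389, 1, 1⟩]), (36, [⟨1, 1, 233, 1, 1⟩]), (37,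
  [⟨1, 1, 239, 1, 1⟩]), (38, [⟨1, 1, 241, 1, 1⟩]), (39, [⟨1, 1, 397, 1, 1⟩]), (40, [⟨1, 1, 401, 1, 1⟩]), (41,
  [⟨1, 1, 409, 1, 1⟩]), (45, [⟨1, 1, 251, 1, 1⟩]), (46, [⟨1, 1, 257, 1, 1⟩]), (47, [⟨1, 1, 263, 1, 1⟩]), (48,
  [⟨1, 1, 419, 1, 1⟩]), (49, [⟨1, 1, 421, 1, 1⟩]), (50, [⟨1, 1, 431, 1, 1⟩]), (54, [⟨1, 1, 269, 1, 1⟩]), (55,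
  [⟨1, 1, 271, 1, 1⟩]), (56, [⟨1, 1, 277, 1, 1⟩]), (57, [⟨1, 1, 281, 1, 1⟩]), (58, [⟨1, 1, 283, 1, 1⟩]), (59,
  [⟨1, 1, 293, 1, 1⟩]), (60, [⟨1, 1, 449, 1, 1⟩]), (61, [⟨1, 1, 457, 1, 1⟩]), (62, [⟨1, 1, 461, 1, 1⟩]), (63,
  [⟨1, 1, 307, 1, 1⟩]), (64, [⟨1, 1, 311, 1, 1⟩]), (65, [⟨1, 1, 313, 1, 1⟩]), (66, [⟨1, 1, 317, 1, 1⟩]), (67,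
  [⟨1, 1, 331, 1, 1⟩]), (68, [⟨1, 1, 337, 1, 1⟩]), (69, [⟨1, 1, 433, 1, 1⟩]), (70, [⟨1, 1, 463, 1, 1⟩]), (71,
  [⟨1, 1, 467, 1, 1⟩]), (72, [⟨1, 1, 347, 1, 1⟩]), (73, [⟨1, 1, 349, 1, 1⟩]), (74, [⟨1, 1, 353, 1, 1⟩]), (75,
  [⟨1, 1, 359, 1, 1⟩]), (76, [⟨1, 1, 367, 1, 1⟩]), (77, [⟨1, 1, 373, 1, 1⟩]), (78, [⟨1, 1, 439, 1, 1⟩]), (79,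
  [⟨1, 1, 443, 1, 1⟩]), (80, [⟨1, 1, 479, 1, 1⟩])]

def LA : List St := KA ++ [sB0, sA2, sA2g, sA1b, sA1, sRP]

def LB : List St := KN ++ [sA0, sS1b, sS1a, sN1b, sN1, sN2b, sN2, sG, sQ, sR2, sR3, sR0]

end

end Pool.Agent.Lib.MP_4e1a58_mp
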